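import Pool.Agent.Lib.MP_3a0263_al.Q.ApiZ1
import Pool.Agent.Lib.MP_3a0263_al.R.B_DIAG
import Pool.Agent.Lib.MP_3a0263_al.R.B_KOL

namespace Pool.Agent.Lib.MP_3a0263_al.Q

open Matrix Pool.Agent.Lib.MP_3a0263_al.R

universe u

variable {k : Type u} [Field k] {n : Type} [Fintype n] [DecidableEq n]

theorem conj_mem_cjs {P g : GL n k} {H : Subgroup (GL n k)} (h : g ∈ H) :
    P * g * P⁻¹ ∈ cjs P H := mem_cjs.2 (by simpa [mul_assoc] using h)

theorem cjs_mono (P : GL n k) {H K : Subgroup (GL n k)} (h : H ≤ K) : cjs P H ≤ cjs P K :=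
  fun _ hg => mem_cjs.2 (h (mem_cjs.1 hg))

theorem cjs_cjs (P Q : GL n k) (H : Subgroup (GL n k)) : cjs P (cjs Q H) = cjs (P * Q) H := by
  ext g
  simp only [mem_cjs, _root_.mul_inv_rev, mul_assoc]

theorem cjs_one (H : Subgroup (GL n k)) : cjs 1 H = H := by
  ext g
  simp [mem_cjs]

theorem cjs_self {P : GL n k} {H : Subgroup (GL n k)} (h : P ∈ H) : cjs P H = H := by
  ext g
  rw [mem_cjs, H.mul_mem_cancel_right h, H.mul_mem_cancel_left (H.inv_mem h)]

theorem ApiC.inv_cjs (P : GL n k) (H : Subgroup (GL n k)) : cjs P⁻¹ (cjs P H) = H := by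
  rw [cjs_cjs, inv_mul_cancel, cjs_one]

theorem ApiC.cjs_inv (P : GL n k) (H : Subgroup (GL n k)) : cjs P (cjs P⁻¹ H) = H := by
  rw [cjs_cjs, mul_inv_cancel, cjs_one]

theorem closed_cjs (P : GL n k) {H : Subgroup (GL n k)} (h : IsZClosed (H : Set (GL n k))) :
    IsZClosed (cjs P H : Set (GL n k)) := fun g hg => mem_cjs.2 (h _ fun f hf => by
  rw [← ZAR.aeval_tr]
  exact hg _ (mem_vanish.2 fun x hx => by
    rw [ZAR.aeval_tr]; exact mem_vanish.1 hf _ (mem_cjs.1 hx)))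

theorem conn_cjs (P : GL n k) {H : Subgroup (GL n k)} (h : IsConnAlg H) : IsConnAlg (cjs P H) := by
  refine ⟨closed_cjs P h.1, prime_of_irr (fun f g hfg => ?_) (cjs P H).one_mem⟩
  have key : ∀ q : MvPolynomial (n × n) k, ZAR.tr P P⁻¹ q ∈ vanish (H : Set (GL n k)) →
      q ∈ vanish (cjs P H : Set (GL n k)) := fun q hq => mem_vanish.2 fun x hx => by
    have := mem_vanish.1 hq _ (mem_cjs.1 hx)
    rwa [ZAR.aeval_tr, show P * (P⁻¹ * x * P) * P⁻¹ = x by group] at this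
  refine (irr_of_conn h (ZAR.tr P P⁻¹ f) (ZAR.tr P P⁻¹ g) (mem_vanish.2 fun x hx => ?_)).imp
    (key f) (key g)
  rw [map_mul, ZAR.aeval_tr, ZAR.aeval_tr, ← map_mul]
  exact mem_vanish.1 hfg _ (conj_mem_cjs hx)

theorem ss_conj (P : GL n k) {t : GL n k}
    (h : Module.End.IsSemisimple (Matrix.toLin' (t : Matrix n n k))) :
    Module.End.IsSemisimple (Matrix.toLin' ((P * t * P⁻¹ : GL n k) : Matrix n n k)) :=
  DiagB.SS.map (x := (t : Matrix n n k)) h
    (MulSemiringAction.toAlgEquiv k (Matrix n n k) (ConjAct.toConjAct P))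

theorem torus_cjs (P : GL n k) {T : Subgroup (GL n k)} (h : IsTorus T) : IsTorus (cjs P T) := by
  refine ⟨conn_cjs P h.1, ?_, ?_⟩
  · rintro _ ⟨s, hs, rfl⟩ _ ⟨t, ht, rfl⟩
    rw [← map_mul, ← map_mul, h.2.1 s hs t ht]
  · rintro _ ⟨t, ht, rfl⟩
    exact ss_conj P (h.2.2 t ht)

theorem maxTorus_cjs (P : GL n k) {H T : Subgroup (GL n k)} (h : IsMaxTorus H T) :
    IsMaxTorus (cjs P H) (cjs P T) := by
  refine ⟨cjs_mono P h.1, torus_cjs P h.2.1, fun T' h1 h2 h3 => ?_⟩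
  have h4 := cjs_mono P⁻¹ h1
  have h5 := cjs_mono P⁻¹ h2
  rw [ApiC.inv_cjs] at h4 h5
  rw [← h.2.2 _ h4 h5 (torus_cjs _ h3), ApiC.cjs_inv]

theorem red_cjs (P : GL n k) {G : Subgroup (GL n k)} (h : IsReductive G) :
    IsReductive (cjs P G) := by
  refine ⟨conn_cjs P h.1, fun N h1 h2 h3 h4 => ?_⟩
  have h5 := cjs_mono P⁻¹ h1
  rw [ApiC.inv_cjs] at h5
  have h6 := h.2 _ h5 (conn_cjs _ h2) (fun g hg u hu => mem_cjs.2 (by
    have := h3 _ (conj_mem_cjs (P := P) hg) _ (mem_cjs.1 hu)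
    rwa [show P * g * P⁻¹ * (P⁻¹⁻¹ * u * P⁻¹) * (P * g * P⁻¹)⁻¹ =
      P⁻¹⁻¹ * (g * u * g⁻¹) * P⁻¹ by group] at this)) (by
    rintro _ ⟨u, hu, rfl⟩
    have := (h4 u hu).map (MulSemiringAction.toAlgEquiv k (Matrix n n k) (ConjAct.toConjAct P⁻¹))
    rw [map_sub, map_one] at this
    exact this)
  rw [← ApiC.cjs_inv P N, h6, cjs, Subgroup.map_bot]

theorem mem_lie_cjs {P : GL n k} {H : Subgroup (GL n k)} {x : Matrix n n k} :
    x ∈ lie (cjs P H) ↔ ((P⁻¹ : GL n k) : Matrix n n k) * x * (P : Matrix n n k) ∈ lie H := by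
  refine ⟨fun h => ?_, fun h => ?_⟩
  · have := conj_mem_lie (H' := H) (g := P⁻¹) (fun y hy => by
      rw [inv_inv]; exact mem_cjs.1 hy) h
    rwa [inv_inv] at this
  · have := conj_mem_lie (H' := cjs P H) (g := P) (fun y hy => conj_mem_cjs hy) h
    rwa [← mul_assoc, ← mul_assoc, Units.mul_inv, one_mul, mul_assoc, Units.mul_inv,
      mul_one] at this

theorem maxTorus_of_le {H H' T : Subgroup (GL n k)} (h : IsMaxTorus H T) (h1 : T ≤ H')
    (h2 : H' ≤ H) : IsMaxTorus H' T :=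
  ⟨h1, h.2.1, fun T' a b c => h.2.2 T' a (b.trans h2) c⟩

theorem MT.sub {H H' T : Subgroup (GL n k)} (h : MT H T) (hc : IsConnAlg H') (h1 : T ≤ H')
    (h2 : H' ≤ H) : MT H' T := ⟨hc, maxTorus_of_le h.max h1 h2, h.diag⟩

theorem exists_diag_set [IsAlgClosed k] (S : Set (GL n k))
    (hS : ∀ t ∈ S, Module.End.IsSemisimple (Matrix.toLin' (t : Matrix n n k)))
    (hc : ∀ s ∈ S, ∀ t ∈ S, s * t = t * s) : ∃ P : GL n k, ∀ t ∈ S, ∃ d, P * t * P⁻¹ = dg d := by
  obtain ⟨θ, hθ⟩ := DiagB.exists_diag ((fun t : GL n k => (t : Matrix n n k)) '' S)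
    (by rintro _ ⟨t, ht, rfl⟩; exact hS t ht)
    (by rintro _ ⟨s, hs, rfl⟩ _ ⟨t, ht, rfl⟩; exact congrArg Units.val (hc s hs t ht))
  obtain ⟨_, ⟨P, rfl⟩, hP⟩ := Kol.inner θ
  refine ⟨P, fun t ht => ?_⟩
  obtain ⟨d, hd⟩ := hθ _ ⟨t, ht, rfl⟩
  have e : ((P * t * P⁻¹ : GL n k) : Matrix n n k) = diagonal d := by
    rw [Units.val_mul, Units.val_mul, ← hP, mul_assoc, Units.mul_inv, mul_one, hd]
  have hu : IsUnit (diagonal d) := e ▸ Units.isUnit _
  have h0 : ∀ i, d i ≠ 0 := fun i => ((Pi.isUnit_iff.1 (isUnit_diagonal.1 hu)) i).ne_zero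
  exact ⟨fun i => Units.mk0 (d i) (h0 i), Units.ext e⟩

theorem exists_diag_torus [IsAlgClosed k] {T : Subgroup (GL n k)} (h : IsTorus T) :
    ∃ P : GL n k, IsDiagG (cjs P T) := by
  obtain ⟨P, hP⟩ := exists_diag_set (T : Set (GL n k)) h.2.2 h.2.1
  refine ⟨P, ?_⟩
  rintro _ ⟨t, ht, rfl⟩
  exact hP t ht

theorem ApiC.ss_diagonal (d : n → k) : Module.End.IsSemisimple (Matrix.toLin' (diagonal d)) := by
  classical
  have hq : Squarefree (∏ a ∈ Finset.univ.image d, (Polynomial.X - Polynomial.C a)) :=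
    (Polynomial.separable_prod_X_sub_C_iff'.2 fun _ _ _ _ e => e).squarefree
  refine Module.End.isSemisimple_of_squarefree_aeval_eq_zero hq ?_
  let φ : (n → k) →ₐ[k] Module.End k (n → k) :=
    (toLinAlgEquiv' (R := k) (n := n)).toAlgHom.comp (diagonalAlgHom k)
  have e : Polynomial.aeval d (∏ a ∈ Finset.univ.image d, (Polynomial.X - Polynomial.C a)) = 0 := by
    funext i
    rw [map_prod, Finset.prod_apply]
    exact Finset.prod_eq_zero (Finset.mem_image_of_mem d (Finset.mem_univ i)) (by simp)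
  have := Polynomial.aeval_algHom_apply φ d
    (∏ a ∈ Finset.univ.image d, (Polynomial.X - Polynomial.C a))
  rw [e, map_zero] at this
  exact this

theorem ss_dg (d : n → kˣ) :
    Module.End.IsSemisimple (Matrix.toLin' ((dg d : GL n k) : Matrix n n k)) :=
  ApiC.ss_diagonal _

theorem ss_pow [IsAlgClosed k] (p : ℕ) [Fact p.Prime] [CharP k p] : ∃ N : ℕ, ∀ g : GL n k,
    Module.End.IsSemisimple (Matrix.toLin' ((g ^ p ^ N : GL n k) : Matrix n n k)) := by
  refine ⟨Module.finrank k (n → k), fun g => ?_⟩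
  rcases subsingleton_or_nontrivial (Module.End k (n → k)) with h | h
  · rw [Subsingleton.elim (Matrix.toLin' _) LinearMap.id]
    exact Module.End.isSemisimple_id
  have : CharP (Module.End k (n → k)) p :=
    charP_of_injective_algebraMap (algebraMap k _).injective p
  obtain ⟨ν, hν, s, hs, hn, hss, e⟩ :=
    Module.End.exists_isNilpotent_isSemisimple (f := toLinAlgEquiv' (g : Matrix n n k))
  have hc : Commute ν s :=
    Algebra.commute_of_mem_adjoin_singleton_of_commute hs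
      (Algebra.commute_of_mem_adjoin_self hν).symm
  have h0 : ν ^ Module.finrank k (n → k) = 0 := by
    have := LinearMap.aeval_self_charpoly ν
    rwa [(LinearMap.isNilpotent_iff_charpoly ν).1 hn, map_pow, Polynomial.aeval_X] at this
  have hle := (Nat.lt_pow_self (n := Module.finrank k (n → k)) (Fact.out : p.Prime).one_lt).le
  have h1 : toLinAlgEquiv' ((g ^ p ^ Module.finrank k (n → k) : GL n k) : Matrix n n k) =
      s ^ p ^ Module.finrank k (n → k) := by
    rw [Units.val_pow_eq_pow_val, map_pow, e, add_pow_char_pow_of_commute p _ hc,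
      pow_eq_zero_of_le hle h0, zero_add]
  have h2 := hss.pow (p ^ Module.finrank k (n → k))
  rw [← h1] at h2
  exact h2

theorem ApiC.deg_aeval {ι κ : Type} (x : ι → MvPolynomial κ k) (hx : ∀ i, (x i).totalDegree ≤ 1)
    (f : MvPolynomial ι k) : (MvPolynomial.aeval x f).totalDegree ≤ f.totalDegree := by
  rw [MvPolynomial.aeval_def, MvPolynomial.eval₂_eq]
  refine MvPolynomial.totalDegree_finsetSum_le fun e he => ?_
  refine (MvPolynomial.totalDegree_mul _ _).trans ?_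
  rw [MvPolynomial.algebraMap_eq, MvPolynomial.totalDegree_C, zero_add]
  refine (MvPolynomial.totalDegree_finsetProd _ _).trans
    (le_trans ?_ (MvPolynomial.le_totalDegree he))
  exact Finset.sum_le_sum fun i _ => (MvPolynomial.totalDegree_pow _ _).trans
    (by simpa using Nat.mul_le_mul_left (e i) (hx i))

theorem ApiC.deg_tr (a b : GL n k) (f : MvPolynomial (n × n) k) :
    (ZAR.tr a b f).totalDegree ≤ f.totalDegree := by
  refine ApiC.deg_aeval _ (fun ij => ?_) f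
  have h1 : ∀ (c : Matrix n n k) i j, (cP c i j).totalDegree = 0 := fun c i j =>
    MvPolynomial.totalDegree_C _
  rw [Matrix.mul_apply]
  refine MvPolynomial.totalDegree_finsetSum_le fun l _ =>
    (MvPolynomial.totalDegree_mul _ _).trans ?_
  rw [h1, add_zero, Matrix.mul_apply]
  refine MvPolynomial.totalDegree_finsetSum_le fun l' _ =>
    (MvPolynomial.totalDegree_mul _ _).trans ?_
  rw [h1, zero_add]
  exact (MvPolynomial.totalDegree_X _).le

theorem closed_deg {H : Subgroup (GL n k)} (h : IsZClosed (H : Set (GL n k))) :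
    ∃ D : ℕ, ∀ P : GL n k, ∃ F : Set (MvPolynomial (n × n) k), (∀ f ∈ F, f.totalDegree ≤ D) ∧
      ∀ g, g ∈ cjs P H ↔ ∀ f ∈ F, MvPolynomial.aeval (entries g) f = 0 := by
  obtain ⟨s, hs⟩ := IsNoetherian.noetherian (vanish (H : Set (GL n k)))
  refine ⟨s.sup MvPolynomial.totalDegree, fun P => ⟨ZAR.tr P⁻¹ P '' s, ?_, fun g => ?_⟩⟩
  · rintro _ ⟨f, hf, rfl⟩
    exact (ApiC.deg_tr _ _ f).trans (Finset.le_sup (f := MvPolynomial.totalDegree) hf)
  · rw [mem_cjs]
    refine ⟨?_, fun hg => h _ fun f hf => ?_⟩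
    · rintro hg _ ⟨f, hf, rfl⟩
      rw [ZAR.aeval_tr]
      exact mem_vanish.1 (hs ▸ Submodule.subset_span hf) _ hg
    · rw [← hs] at hf
      have : Ideal.span (s : Set (MvPolynomial (n × n) k)) ≤
          RingHom.ker (MvPolynomial.aeval (R := k) (entries (P⁻¹ * g * P))) :=
        Ideal.span_le.2 fun q hq => by
          have := hg _ ⟨q, hq, rfl⟩
          rwa [ZAR.aeval_tr] at this
      exact this hf

theorem ApiC.aeval_swap (g : GL n k) (f : MvPolynomial (n × n) k) :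
    MvPolynomial.aeval (entries g) (MvPolynomial.rename Prod.swap f) =
      MvPolynomial.aeval (entries (trG g)) f := MvPolynomial.aeval_rename _ _ _

theorem closed_trS {H : Subgroup (GL n k)} (h : IsZClosed (H : Set (GL n k))) :
    IsZClosed (trS H : Set (GL n k)) := fun g hg => h (trG g) fun f hf => by
  rw [← ApiC.aeval_swap]
  exact hg _ (mem_vanish.2 fun x hx => by rw [ApiC.aeval_swap]; exact mem_vanish.1 hf _ hx)

theorem irr_trG {S : Set (GL n k)} (h : ZAR.Irr S) : ZAR.Irr (trG '' S) := fun f g hfg => by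
  have key : ∀ q : MvPolynomial (n × n) k, MvPolynomial.rename Prod.swap q ∈ vanish S →
      q ∈ vanish (trG '' S) := fun q hq => mem_vanish.2 (by
    rintro _ ⟨x, hx, rfl⟩
    rw [← ApiC.aeval_swap]
    exact mem_vanish.1 hq x hx)
  refine (h _ _ (mem_vanish.2 fun x hx => ?_)).imp (key f) (key g)
  rw [← map_mul, ApiC.aeval_swap]
  exact mem_vanish.1 hfg _ ⟨x, hx, rfl⟩

theorem ApiC.trG_dg (d : n → kˣ) : trG (dg d : GL n k) = dg d :=
  Units.ext (diagonal_transpose _)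

theorem trS_diag {T : Subgroup (GL n k)} (h : IsDiagG T) : trS T = T := by
  ext g
  rw [mem_trS]
  refine ⟨fun hg => ?_, fun hg => ?_⟩
  · obtain ⟨d, hd⟩ := h _ hg
    rw [← trG_trG g, hd, ApiC.trG_dg, ← hd]
    exact hg
  · obtain ⟨d, rfl⟩ := h _ hg
    rwa [ApiC.trG_dg]

theorem ApiC.trS_trS (H : Subgroup (GL n k)) : trS (trS H) = H := by
  ext g
  rw [mem_trS, mem_trS, trG_trG]

theorem ApiC.conn_trS {H : Subgroup (GL n k)} (h : IsConnAlg H) : IsConnAlg (trS H) := by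
  refine ⟨closed_trS h.1, prime_of_irr ?_ (trS H).one_mem⟩
  have e : (trS H : Set (GL n k)) = trG '' (H : Set (GL n k)) := by
    ext g
    exact ⟨fun hg => ⟨_, hg, trG_trG g⟩, by
      rintro ⟨x, hx, rfl⟩
      exact mem_trS.2 (by rwa [trG_trG])⟩
  rw [e]
  exact irr_trG (irr_of_conn h)

theorem ApiC.aeval_transpose (x : Matrix n n k) (q : Polynomial k) :
    Polynomial.aeval xᵀ q = (Polynomial.aeval x q)ᵀ := by
  induction q using Polynomial.induction_on' with
  | add a b ha hb => rw [map_add, map_add, ha, hb, transpose_add]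
  | monomial m c =>
    rw [Polynomial.aeval_monomial, Polynomial.aeval_monomial, ← Algebra.smul_def,
      ← Algebra.smul_def, transpose_smul, transpose_pow]

theorem ApiC.ss_transpose {x : Matrix n n k} (h : Module.End.IsSemisimple (Matrix.toLin' x)) :
    Module.End.IsSemisimple (Matrix.toLin' xᵀ) := by
  refine Module.End.isSemisimple_of_squarefree_aeval_eq_zero h.minpoly_squarefree ?_
  have h1 : Polynomial.aeval x (minpoly k (Matrix.toLin' x)) = 0 := by
    rw [Matrix.minpoly_toLin']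
    exact minpoly.aeval k x
  have h2 := Polynomial.aeval_algHom_apply (toLinAlgEquiv' (R := k) (n := n)) xᵀ
    (minpoly k (Matrix.toLin' x))
  rw [ApiC.aeval_transpose, h1, transpose_zero, map_zero] at h2
  exact h2

theorem ApiC.torus_trS {T : Subgroup (GL n k)} (h : IsTorus T) : IsTorus (trS T) := by
  refine ⟨ApiC.conn_trS h.1, fun s hs t ht => ?_, fun t ht => ?_⟩
  · rw [← trG_trG (s * t), trG_mul, h.2.1 _ ht _ hs, ← trG_mul, trG_trG]
  · exact ApiC.ss_transpose (x := (trG t : Matrix n n k)) (h.2.2 _ ht)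

theorem MT.tr {H T : Subgroup (GL n k)} (h : MT H T) : MT (trS H) T := by
  have e := trS_diag h.diag
  refine ⟨ApiC.conn_trS h.conn, ⟨fun t ht => h.max.1 (mem_trS.1 (e.symm ▸ ht)), h.max.2.1,
    fun T' h1 h2 h3 => ?_⟩, h.diag⟩
  have h4 := h.max.2.2 (trS T') (fun t ht => h1 (mem_trS.1 (e.symm ▸ ht)))
    (fun t ht => by
      have := mem_trS.1 (h2 (mem_trS.1 ht))
      rwa [trG_trG] at this) (ApiC.torus_trS h3)
  rw [← ApiC.trS_trS T', h4, e]

theorem kolchin_span [IsAlgClosed k] {N : Subgroup (GL n k)}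
    (h : ∀ u ∈ N, IsNilpotent ((u : Matrix n n k) - 1)) :
    ∃ r : ℕ, Submodule.span k {x | ∃ u ∈ N, x = (u : Matrix n n k) - 1} ^ (r + 1) = ⊥ := by
  obtain ⟨r, hr⟩ := Kol.kolchin (k := k) (M := N.toSubmonoid.map (Units.coeHom (Matrix n n k)))
    (by rintro _ ⟨u, hu, rfl⟩; exact h u hu)
  refine ⟨r, le_bot_iff.1 (le_trans (pow_le_pow_left' ?_ _) hr.le)⟩
  refine Submodule.span_mono ?_
  rintro _ ⟨u, hu, rfl⟩
  exact ⟨_, ⟨u, hu, rfl⟩, rfl⟩

end Pool.Agent.Lib.MP_3a0263_al.Q
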