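import Pool.Agent.Lib.MP_3a0263_al.Q.GDefs

namespace Pool.Agent.Lib.MP_3a0263_al.Q

open Matrix Pool.Agent.Lib.MP_3a0263_al.R

universe u

variable {k : Type u} [Field k] {n : Type} [Fintype n] [DecidableEq n]

theorem zpow_inj [Infinite k] {a b : ℤ} (h : ∀ s : kˣ, s ^ a = s ^ b) : a = b := by
  by_contra hab
  have hN : 0 < (a - b).natAbs := by omega
  have hP : (Polynomial.X ^ (a - b).natAbs - Polynomial.C 1 : Polynomial k) = 0 := by
    refine Polynomial.eq_zero_of_infinite_isRoot _
      (Set.Infinite.mono (fun z hz => ?_) (Set.finite_singleton (0 : k)).infinite_compl)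
    have h1 : (Units.mk0 z hz) ^ (a - b) = 1 := by
      rw [_root_.zpow_sub, h, mul_inv_cancel]
    have h2 : (Units.mk0 z hz) ^ (a - b).natAbs = 1 := pow_natAbs_eq_one.2 h1
    have h3 : z ^ (a - b).natAbs = 1 := by simpa using congrArg Units.val h2
    simp [h3]
  exact Polynomial.X_pow_sub_C_ne_zero hN 1 hP

theorem coef_mem [Infinite k] {V : Type*} [AddCommGroup V] [Module k V] (W : Submodule k V)
    (F : Finset ℤ) (v : ℤ → V) (h : ∀ s : kˣ, ∑ d ∈ F, ((s ^ d : kˣ) : k) • v d ∈ W) :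
    ∀ d ∈ F, v d ∈ W := by
  intro d hd
  rw [← Subspace.forall_mem_dualAnnihilator_apply_eq_zero_iff]
  intro φ hφ
  let χ : ℤ → (kˣ →* k) := fun e => (Units.coeHom k).comp (zpowGroupHom e)
  have hχ : Function.Injective χ := fun a b e => zpow_inj (k := k) fun s =>
    Units.ext (DFunLike.congr_fun e s)
  have hli := (linearIndependent_monoidHom kˣ k).comp χ hχ
  refine linearIndependent_iff'.1 hli F (fun e => φ (v e)) ?_ d hd
  funext s
  have := (Submodule.mem_dualAnnihilator φ).1 hφ _ (h s)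
  rw [map_sum] at this
  rw [Finset.sum_apply, Pi.zero_apply, ← this]
  refine Finset.sum_congr rfl fun e _ => ?_
  rw [map_smul, smul_eq_mul, mul_comm]
  rfl

theorem coef_mem_nat [Infinite k] {V : Type*} [AddCommGroup V] [Module k V] (W : Submodule k V)
    (F : Finset ℕ) (v : ℕ → V) (h : ∀ z : k, z ≠ 0 → ∑ d ∈ F, z ^ d • v d ∈ W) :
    ∀ d ∈ F, v d ∈ W := by
  intro d hd
  have := coef_mem W (F.map Nat.castEmbedding) (fun e => v e.toNat) (fun s => by
    rw [Finset.sum_map]
    simpa using h s s.ne_zero) d (Finset.mem_map_of_mem _ hd)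
  simpa using this

theorem vec_comp [Infinite k] {m : Type} [Fintype m] [DecidableEq m] (W : Submodule k (m → k))
    (l : m → ℤ) {y : m → k} (h : ∀ s : kˣ, (fun u => ((s ^ l u : kˣ) : k) * y u) ∈ W) (d : ℤ) :
    (fun u => if l u = d then y u else 0) ∈ W := by
  refine coef_mem W (insert d (Finset.univ.image l)) (fun e u => if l u = e then y u else 0)
    (fun s => ?_) d (Finset.mem_insert_self _ _)
  have e : ∑ e ∈ insert d (Finset.univ.image l),
      ((s ^ e : kˣ) : k) • (fun u => if l u = e then y u else 0) =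
      fun u => ((s ^ l u : kˣ) : k) * y u := by
    funext u
    rw [Finset.sum_apply, Finset.sum_eq_single_of_mem (l u) (by simp) fun e _ he => by
      simp [Ne.symm he]]
    simp
  rw [e]; exact h s

section

variable {Ys : Submodule ℤ (n → ℤ)}

omit [Fintype n] [DecidableEq n] in
theorem exists_generic (N : Submodule ℤ Ys) (F : Finset (XX Ys))
    (h : ∀ a ∈ F, ∃ l ∈ N, a l ≠ 0) : ∃ l ∈ N, ∀ a ∈ F, a l ≠ 0 := by
  classical
  induction F using Finset.induction_on with
  | empty => exact ⟨0, N.zero_mem, by simp⟩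
  | insert b F _ ih =>
    obtain ⟨l, hl, hF⟩ := ih fun a ha => h a (Finset.mem_insert_of_mem ha)
    obtain ⟨l', hl', hb⟩ := h b (Finset.mem_insert_self _ _)
    by_cases h0 : b l = 0
    · let M : ℤ := 1 + ∑ a ∈ F, |a l'|
      refine ⟨M • l + l', N.add_mem (N.smul_mem _ hl) hl', fun a ha => ?_⟩
      rw [map_add, map_zsmul, smul_eq_mul]
      rcases Finset.mem_insert.1 ha with rfl | ha
      · rw [h0, mul_zero, zero_add]; exact hb
      · have h1 : |a l'| ≤ ∑ a ∈ F, |a l'| :=
          Finset.single_le_sum (f := fun a : XX Ys => |a l'|) (fun _ _ => abs_nonneg _) ha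
        have h2 := abs_le.1 (le_refl |a l'|)
        have h3 : |a l'| < M := by simp only [M]; linarith
        have h4 := abs_nonneg (a l')
        intro h5
        rcases lt_or_gt_of_ne (hF a ha) with h6 | h6
        · nlinarith [h2.1, h2.2]
        · nlinarith [h2.1, h2.2]
    · refine ⟨l, hl, fun a ha => ?_⟩
      rcases Finset.mem_insert.1 ha with rfl | ha
      · exact h0
      · exact hF a ha

omit [Fintype n] [DecidableEq n] in
theorem exists_generic' {ι : Type*} [Finite ι] (N : Submodule ℤ Ys) (a : ι → XX Ys) :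
    ∃ l ∈ N, ∀ i, a i l = 0 → ∀ l' ∈ N, a i l' = 0 := by
  classical
  have := Fintype.ofFinite ι
  obtain ⟨l, hl, h⟩ := exists_generic N
    ((Finset.univ.image a).filter fun b => ∃ l ∈ N, b l ≠ 0) fun b hb => (Finset.mem_filter.1 hb).2
  refine ⟨l, hl, fun i hi l' hl' => ?_⟩
  by_contra hn
  exact h (a i) (Finset.mem_filter.2 ⟨Finset.mem_image_of_mem _ (Finset.mem_univ _), l', hl', hn⟩) hi

omit [DecidableEq n] in
theorem exists_sgen (Ys : Submodule ℤ (n → ℤ)) : ∃ l : Ys, ∀ i j i' j',
    l.1 i - l.1 j = l.1 i' - l.1 j' → eps Ys i - eps Ys j = eps Ys i' - eps Ys j' := by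
  obtain ⟨l, -, h⟩ := exists_generic' (⊤ : Submodule ℤ Ys) fun q : (n × n) × n × n =>
    (eps Ys q.1.1 - eps Ys q.1.2) - (eps Ys q.2.1 - eps Ys q.2.2)
  refine ⟨l, fun i j i' j' e => sub_eq_zero.1 (LinearMap.ext fun l' => ?_)⟩
  exact h ((i, j), i', j') (by simp only [LinearMap.sub_apply, eps_apply]; omega) l' trivial

omit [DecidableEq n] in
theorem exists_gen (Ys : Submodule ℤ (n → ℤ)) : ∃ l : Ys, Gen l := by
  obtain ⟨l, h⟩ := exists_sgen Ys
  exact ⟨l, fun i j e => by simpa [sub_eq_zero] using h i j j j (by omega)⟩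

omit [DecidableEq n] in
theorem exists_wall (α : XX Ys) : ∃ ν : Ys, Wall α ν := by
  obtain ⟨l, hl, h⟩ := exists_generic' (LinearMap.ker α) fun q : n × n =>
    eps Ys q.1 - eps Ys q.2
  refine ⟨l, hl, fun i j e l' hl' => ?_⟩
  have := h (i, j) (by simp only [LinearMap.sub_apply, eps_apply]; omega) l' hl'
  simp only [LinearMap.sub_apply, eps_apply] at this
  omega

omit [Fintype n] [DecidableEq n] in
theorem Gen.neg {l : Ys} (h : Gen l) : Gen (-l) := fun i j e =>
  h i j (by simpa using e)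

omit [Fintype n] [DecidableEq n] in
theorem prop_of_ker {α b : XX Ys} (h : ∀ l, α l = 0 → b l = 0) (l l' : Ys) :
    α l * b l' = b l * α l' := by
  have := h (α l • l' - α l' • l) (by simp [mul_comm])
  simp only [map_sub, map_zsmul, smul_eq_mul] at this
  linarith

omit [Fintype n] [DecidableEq n] in
theorem Wt.apply {a : XX Ys} {x : Matrix n n k} (h : Wt a x) {i j : n} (hij : x i j ≠ 0)
    (l : Ys) : l.1 i - l.1 j = a l := by
  rw [← h i j hij]; rfl

theorem Wt.conj {a : XX Ys} {x : Matrix n n k} (h : Wt a x) (l : Ys) (s : kˣ) :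
    ((coch l.1 s : GL n k) : Matrix n n k) * x * (((coch l.1 s)⁻¹ : GL n k) : Matrix n n k) =
      ((s ^ a l : kˣ) : k) • x := by
  ext i j
  rw [coch_conj, Matrix.smul_apply, smul_eq_mul]
  by_cases hij : x i j = 0
  · rw [hij, mul_zero, mul_zero]
  · rw [h.apply hij l]

theorem wt_of_conj [Infinite k] {a : XX Ys} {x : Matrix n n k} (h : ∀ (l : Ys) (s : kˣ),
    ((coch l.1 s : GL n k) : Matrix n n k) * x * (((coch l.1 s)⁻¹ : GL n k) : Matrix n n k) =
      ((s ^ a l : kˣ) : k) • x) : Wt a x := by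
  intro i j hij
  refine LinearMap.ext fun l => zpow_inj (k := k) fun s => Units.ext ?_
  have := congrFun (congrFun (h l s) i) j
  rw [coch_conj, Matrix.smul_apply, smul_eq_mul] at this
  exact mul_right_cancel₀ hij this

omit [DecidableEq n] in
theorem Wt.mul {a b : XX Ys} {x y : Matrix n n k} (h : Wt a x) (h' : Wt b y) :
    Wt (a + b) (x * y) := by
  intro i j hij
  rw [Matrix.mul_apply] at hij
  obtain ⟨c, -, hc⟩ := Finset.exists_ne_zero_of_sum_ne_zero hij
  rw [← h i c (left_ne_zero_of_mul hc), ← h' c j (right_ne_zero_of_mul hc)]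
  abel

omit [Fintype n] [DecidableEq n] in
theorem Wt.add {a : XX Ys} {x y : Matrix n n k} (h : Wt a x) (h' : Wt a y) : Wt a (x + y) := by
  intro i j hij
  by_cases h0 : x i j = 0
  · exact h' i j (by simpa [h0] using hij)
  · exact h i j h0

omit [Fintype n] [DecidableEq n] in
theorem Wt.smul {a : XX Ys} {x : Matrix n n k} (h : Wt a x) (c : k) : Wt a (c • x) :=
  fun i j hij => h i j (right_ne_zero_of_mul hij)

omit [Fintype n] [DecidableEq n] in
theorem Wt.neg {a : XX Ys} {x : Matrix n n k} (h : Wt a x) : Wt a (-x) :=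
  fun i j hij => h i j (by simpa using hij)

omit [Fintype n] [DecidableEq n] in
theorem Wt.sub {a : XX Ys} {x y : Matrix n n k} (h : Wt a x) (h' : Wt a y) : Wt a (x - y) := by
  rw [sub_eq_add_neg]; exact h.add h'.neg

omit [Fintype n] [DecidableEq n] in
theorem wt_zero (a : XX Ys) : Wt a (0 : Matrix n n k) := fun _ _ h => absurd rfl h

omit [Fintype n] [DecidableEq n] in
theorem Wt.sum {ι : Type*} {a : XX Ys} (F : Finset ι) {x : ι → Matrix n n k}
    (h : ∀ i ∈ F, Wt a (x i)) : Wt a (∑ i ∈ F, x i) :=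
  Finset.sum_induction x (Wt a) (fun _ _ => Wt.add) (wt_zero a) h

omit [Fintype n] in
theorem wt_diagonal (d : n → k) : Wt (0 : XX Ys) (diagonal d) := by
  intro i j hij
  by_cases e : i = j
  · rw [e, sub_self]
  · exact absurd (diagonal_apply_ne d e) hij

omit [Fintype n] [DecidableEq n] in
theorem Wt.eq_zero {a b : XX Ys} {x : Matrix n n k} (h : Wt a x) (h' : Wt b x) (hab : a ≠ b) :
    x = 0 := by
  ext i j
  by_contra hij
  exact hab ((h i j hij).symm.trans (h' i j hij))

omit [Fintype n] [DecidableEq n] in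
theorem Wt.mem_degGE {a : XX Ys} {x : Matrix n n k} (h : Wt a x) (l : Ys) :
    x ∈ degGE k l.1 (a l) := by
  intro i j hlt
  by_contra hij
  exact absurd (h.apply hij l) hlt.ne

omit [Fintype n] [DecidableEq n] in
theorem wcomp_of_eq {a : XX Ys} (x : Matrix n n k) {i j : n} (h : eps Ys i - eps Ys j = a) :
    wcomp a x i j = x i j := by
  rw [wcomp, Matrix.of_apply, if_pos h]

omit [Fintype n] [DecidableEq n] in
theorem wcomp_of_ne {a : XX Ys} (x : Matrix n n k) {i j : n} (h : eps Ys i - eps Ys j ≠ a) :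
    wcomp a x i j = 0 := by
  rw [wcomp, Matrix.of_apply, if_neg h]

omit [Fintype n] [DecidableEq n] in
theorem wt_wcomp (a : XX Ys) (x : Matrix n n k) : Wt a (wcomp a x) := by
  intro i j hij
  by_contra h
  exact hij (wcomp_of_ne x h)

omit [Fintype n] [DecidableEq n] in
theorem Wt.wcomp_self {a : XX Ys} {x : Matrix n n k} (h : Wt a x) : wcomp a x = x := by
  ext i j
  by_cases e : eps Ys i - eps Ys j = a
  · exact wcomp_of_eq x e
  · rw [wcomp_of_ne x e]
    by_contra hij
    exact e (h i j (Ne.symm hij))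

omit [Fintype n] [DecidableEq n] in
theorem Wt.wcomp_ne {a b : XX Ys} {x : Matrix n n k} (h : Wt a x) (hab : a ≠ b) :
    wcomp b x = 0 := by
  ext i j
  by_cases e : eps Ys i - eps Ys j = b
  · rw [wcomp_of_eq x e]
    by_contra hij
    exact hab ((h i j hij).symm.trans e)
  · exact wcomp_of_ne x e

omit [Fintype n] [DecidableEq n] in
theorem exists_wcomp_lin (a : XX Ys) :
    ∃ π : Matrix n n k →ₗ[k] Matrix n n k, ∀ x, π x = wcomp a x := by
  refine ⟨⟨⟨wcomp a, fun x y => ?_⟩, fun c x => ?_⟩, fun _ => rfl⟩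
  · ext i j
    by_cases e : eps Ys i - eps Ys j = a
    · simp only [Matrix.add_apply, wcomp_of_eq _ e]
    · simp only [Matrix.add_apply, wcomp_of_ne _ e, add_zero]
  · ext i j
    by_cases e : eps Ys i - eps Ys j = a
    · simp only [Matrix.smul_apply, wcomp_of_eq _ e, RingHom.id_apply]
    · simp only [Matrix.smul_apply, wcomp_of_ne _ e, smul_zero]

omit [Fintype n] [DecidableEq n] in
theorem sum_wcomp (F : Finset (XX Ys)) (x : Matrix n n k)
    (h : ∀ i j, x i j ≠ 0 → eps Ys i - eps Ys j ∈ F) : ∑ a ∈ F, wcomp a x = x := by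
  ext i j
  rw [Matrix.sum_apply, Finset.sum_eq_single (eps Ys i - eps Ys j)
    (fun b _ hb => wcomp_of_ne x hb.symm) fun hn => ?_, wcomp_of_eq x rfl]
  rw [wcomp_of_eq x rfl]
  by_contra hij
  exact hn (h i j hij)

theorem wcomp_mem [Infinite k] (W : Submodule k (Matrix n n k)) {x : Matrix n n k}
    (h : ∀ (l : Ys) (s : kˣ), ((coch l.1 s : GL n k) : Matrix n n k) * x *
      (((coch l.1 s)⁻¹ : GL n k) : Matrix n n k) ∈ W) (a : XX Ys) : wcomp a x ∈ W := by
  by_cases ha : ∃ i j, eps Ys i - eps Ys j = a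
  · obtain ⟨i0, j0, rfl⟩ := ha
    obtain ⟨l, hl⟩ := exists_sgen Ys
    let v : ℤ → Matrix n n k := fun e => Matrix.of fun i j => if l.1 i - l.1 j = e then x i j else 0
    have h1 : v (l.1 i0 - l.1 j0) ∈ W := by
      refine coef_mem W (Finset.univ.image fun q : n × n => l.1 q.1 - l.1 q.2) v (fun s => ?_) _
        (Finset.mem_image_of_mem _ (Finset.mem_univ (i0, j0)))
      have e : ∑ e ∈ Finset.univ.image fun q : n × n => l.1 q.1 - l.1 q.2,
          ((s ^ e : kˣ) : k) • v e = ((coch l.1 s : GL n k) : Matrix n n k) * x *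
            (((coch l.1 s)⁻¹ : GL n k) : Matrix n n k) := by
        ext i j
        rw [coch_conj, Matrix.sum_apply, Finset.sum_eq_single_of_mem (l.1 i - l.1 j)
          (Finset.mem_image.2 ⟨(i, j), Finset.mem_univ _, rfl⟩) fun e _ he => by
            simp [v, Ne.symm he]]
        simp [v]
      rw [e]; exact h l s
    have e : wcomp (eps Ys i0 - eps Ys j0) x = v (l.1 i0 - l.1 j0) := by
      ext i j
      by_cases e : l.1 i - l.1 j = l.1 i0 - l.1 j0
      · rw [wcomp_of_eq x (hl _ _ _ _ e)]; simp [v, e]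
      · rw [wcomp_of_ne (i := i) (j := j) (a := eps Ys i0 - eps Ys j0) x
          fun e' => e (DFunLike.congr_fun e' l)]
        simp [v, e]
    rw [e]; exact h1
  · have : wcomp a x = 0 := by
      ext i j
      exact wcomp_of_ne x fun e => ha ⟨i, j, e⟩
    rw [this]; exact W.zero_mem

omit [DecidableEq n] in
theorem lf_wt {a b : XX Ys} {c x : Matrix n n k} (hc : Wt a c) (hx : Wt b x) (h : a ≠ b) :
    lf c x = 0 := by
  refine Finset.sum_eq_zero fun q _ => ?_
  by_contra hq
  rw [smul_eq_mul] at hq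
  exact h ((hc _ _ (left_ne_zero_of_mul hq)).symm.trans (hx _ _ (right_ne_zero_of_mul hq)))

omit [DecidableEq n] in
theorem lf_degGE {a : XX Ys} {c x : Matrix n n k} (hc : Wt a c) {l : Ys} {r : ℤ}
    (hx : x ∈ degGE k l.1 r) (h : a l < r) : lf c x = 0 := by
  refine Finset.sum_eq_zero fun q _ => ?_
  by_contra hq
  rw [smul_eq_mul] at hq
  exact right_ne_zero_of_mul hq (hx _ _ (by rw [hc.apply (left_ne_zero_of_mul hq) l]; exact h))

end

theorem mem_Zc_iff [Infinite k] {l : n → ℤ} {g : GL n k} :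
    g ∈ Zc k l ↔ ∀ s, coch l s * g = g * coch l s := by
  rw [mem_Zc]
  have e : ∀ s, coch l s * g = g * coch l s ↔ ∀ i j,
      ((s ^ l i : kˣ) : k) * (g : Matrix n n k) i j =
        (g : Matrix n n k) i j * ((s ^ l j : kˣ) : k) := by
    intro s
    rw [Units.ext_iff, Units.val_mul, Units.val_mul, coch_val, ← Matrix.ext_iff]
    simp only [diagonal_mul, mul_diagonal]
  simp only [e]
  refine ⟨fun h s i j => ?_, fun h i j hij => ?_⟩
  · by_cases hij : l i = l j
    · rw [hij, mul_comm]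
    · rw [h i j hij, mul_zero, zero_mul]
  · by_contra h0
    refine hij (zpow_inj (k := k) fun s => Units.ext ?_)
    have := h s i j
    rw [mul_comm] at this
    exact mul_left_cancel₀ h0 this

end Pool.Agent.Lib.MP_3a0263_al.Q
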