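import Pool.Agent.Lib.MP_3a0263_al.Q.GDefs

namespace Pool.Agent.Lib.MP_3a0263_al.Q

open Matrix Pool.Agent.Lib.MP_3a0263_al.R

universe u

variable {k : Type u} [Field k] {n : Type} [Fintype n] [DecidableEq n]

theorem exists_lf_lin {R : Type u} [CommRing R] [Algebra k R] (c : Matrix n n k) :
    ∃ φ : Matrix n n R →ₗ[R] R, ∀ x, φ x = lf c x := by
  refine ⟨⟨⟨fun x => lf c x, ?_⟩, ?_⟩, fun _ => rfl⟩
  · intro x y
    simp only [lf, Matrix.add_apply, smul_add, Finset.sum_add_distrib]
  · intro r x
    simp only [lf, Matrix.smul_apply, smul_eq_mul, RingHom.id_apply, Finset.mul_sum,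
      mul_smul_comm]

theorem lf_map {R R' : Type u} [CommRing R] [Algebra k R] [CommRing R'] [Algebra k R']
    (φ : R →ₐ[k] R') (c : Matrix n n k) (x : Matrix n n R) : lf c (x.map φ) = φ (lf c x) := by
  simp only [lf, Matrix.map_apply, map_sum, map_smul]

theorem ApiP.aeval_map_entries {R R' : Type u} [CommRing R] [Algebra k R] [CommRing R'] [Algebra k R']
    (φ : R →ₐ[k] R') (x : Matrix n n R) (f : MvPolynomial (n × n) k) :
    MvPolynomial.aeval (fun ij : n × n => (x.map φ) ij.1 ij.2) f =
      φ (MvPolynomial.aeval (fun ij : n × n => x ij.1 ij.2) f) := by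
  have h := MvPolynomial.comp_aeval_apply (fun ij : n × n => x ij.1 ij.2) φ f
  rw [h]
  rfl

theorem PtMod.map {R R' : Type u} [CommRing R] [Algebra k R] [CommRing R'] [Algebra k R']
    (φ : R →ₐ[k] R') {S : Set (GL n k)} {I : Ideal R} {I' : Ideal R'} (hI : ∀ r ∈ I, φ r ∈ I')
    {x : Matrix n n R} (h : PtMod S I x) : PtMod S I' (x.map φ) := by
  intro f hf
  rw [ApiP.aeval_map_entries]
  exact hI _ (h f hf)

theorem Cong.aeval {R : Type u} [CommRing R] [Algebra k R] {I : Ideal R} {x x' : Matrix n n R}
    (h : Cong I x x') (f : MvPolynomial (n × n) k) :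
    MvPolynomial.aeval (fun ij : n × n => x ij.1 ij.2) f -
      MvPolynomial.aeval (fun ij : n × n => x' ij.1 ij.2) f ∈ I := by
  induction f using MvPolynomial.induction_on with
  | C a => simp
  | add p q hp hq =>
    have := I.add_mem hp hq
    simp only [map_add]
    rw [show ∀ a b c d : R, a + b - (c + d) = a - c + (b - d) from fun a b c d => by ring]
    exact this
  | mul_X p ij hp =>
    simp only [map_mul, MvPolynomial.aeval_X]
    rw [show ∀ a b c d : R, a * b - c * d = (a - c) * b + c * (b - d) from
      fun a b c d => by ring]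
    exact I.add_mem (I.mul_mem_right _ hp) (I.mul_mem_left _ (h ij.1 ij.2))

theorem PtMod.cong {R : Type u} [CommRing R] [Algebra k R] {S : Set (GL n k)} {I : Ideal R}
    {x x' : Matrix n n R} (h : PtMod S I x) (h' : Cong I x x') : PtMod S I x' := by
  intro f hf
  have h1 := I.sub_mem (h f hf) (h'.aeval f)
  rwa [sub_sub_cancel] at h1

theorem ApiP.one_apply_alg {R : Type u} [CommRing R] [Algebra k R] (ij : n × n) :
    (1 : Matrix n n R) ij.1 ij.2 = algebraMap k R (entries (1 : GL n k) ij) := by
  simp only [entries, Units.val_one, Matrix.one_apply]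
  split_ifs <;> simp

theorem ApiP.aeval_one_alg {R : Type u} [CommRing R] [Algebra k R]
    (f : MvPolynomial (n × n) k) :
    MvPolynomial.aeval (fun ij : n × n => (1 : Matrix n n R) ij.1 ij.2) f =
      algebraMap k R (MvPolynomial.aeval (entries (1 : GL n k)) f) := by
  have h := MvPolynomial.comp_aeval_apply (entries (1 : GL n k)) (Algebra.ofId k R) f
  have h2 : (fun ij : n × n => (1 : Matrix n n R) ij.1 ij.2) =
      fun ij => (Algebra.ofId k R) (entries (1 : GL n k) ij) := by
    funext ij
    exact ApiP.one_apply_alg ij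
  rw [h2, ← h]
  rfl

theorem taylor {R : Type u} [CommRing R] [Algebra k R] {J I : Ideal R} {x δ : Matrix n n R}
    (hx : Cong J x 1) (hδ : ∀ i j, δ i j ∈ I) (hI : I ≤ J) (f : MvPolynomial (n × n) k) :
    MvPolynomial.aeval (fun ij : n × n => (x + δ) ij.1 ij.2) f -
      MvPolynomial.aeval (fun ij : n × n => x ij.1 ij.2) f -
      ∑ ij : n × n, MvPolynomial.aeval (entries (1 : GL n k)) (MvPolynomial.pderiv ij f) •
        δ ij.1 ij.2 ∈ I * J := by
  induction f using MvPolynomial.induction_on with
  | C a => simp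
  | add p q hp hq =>
    have := (I * J).add_mem hp hq
    simp only [map_add, add_smul, Finset.sum_add_distrib]
    rw [show ∀ a b c d e g : R, a + b - (c + d) - (e + g) = a - c - e + (b - d - g) from
      fun a b c d e g => by ring]
    exact this
  | mul_X p pq hp =>
    have hD : (∑ ij : n × n, MvPolynomial.aeval (entries (1 : GL n k))
        (MvPolynomial.pderiv ij p) • δ ij.1 ij.2) ∈ I := by
      refine I.sum_mem fun ij _ => ?_
      rw [Algebra.smul_def]
      exact I.mul_mem_left _ (hδ _ _)
    have hsum : (∑ ij : n × n, MvPolynomial.aeval (entries (1 : GL n k))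
        (MvPolynomial.pderiv ij (p * MvPolynomial.X pq)) • δ ij.1 ij.2) =
        (∑ ij : n × n, MvPolynomial.aeval (entries (1 : GL n k))
          (MvPolynomial.pderiv ij p) • δ ij.1 ij.2) *
          algebraMap k R (entries (1 : GL n k) pq) +
        algebraMap k R (MvPolynomial.aeval (entries (1 : GL n k)) p) * δ pq.1 pq.2 := by
      have h1 : ∀ ij : n × n, MvPolynomial.aeval (entries (1 : GL n k))
          (MvPolynomial.pderiv ij (p * MvPolynomial.X pq)) • δ ij.1 ij.2 =
          (MvPolynomial.aeval (entries (1 : GL n k)) (MvPolynomial.pderiv ij p) • δ ij.1 ij.2) *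
            algebraMap k R (entries (1 : GL n k) pq) +
          (if ij = pq then algebraMap k R (MvPolynomial.aeval (entries (1 : GL n k)) p) *
            δ ij.1 ij.2 else 0) := by
        intro ij
        rw [MvPolynomial.pderiv_mul, MvPolynomial.pderiv_X]
        by_cases h : ij = pq
        · subst h
          simp only [Pi.single_eq_same, mul_one, map_add, map_mul, MvPolynomial.aeval_X,
            Algebra.smul_def, if_true]
          ring
        · rw [Pi.single_eq_of_ne (fun e => h e.symm), if_neg h]
          simp only [mul_zero, add_zero, map_mul, MvPolynomial.aeval_X, Algebra.smul_def]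
          ring
      rw [Finset.sum_congr rfl fun ij _ => h1 ij, Finset.sum_add_distrib, ← Finset.sum_mul,
        Finset.sum_ite_eq' Finset.univ pq]
      simp only [Finset.mem_univ, if_true]
    have hB := hx.aeval (k := k) p
    rw [ApiP.aeval_one_alg] at hB
    have he := hx pq.1 pq.2
    rw [ApiP.one_apply_alg (k := k)] at he
    rw [hsum]
    simp only [map_mul, MvPolynomial.aeval_X]
    have hxd : (x + δ) pq.1 pq.2 = x pq.1 pq.2 + δ pq.1 pq.2 := rfl
    rw [hxd]
    rw [show ∀ A B D xp dp e c : R, A * (xp + dp) - B * xp - (D * e + c * dp) =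
      (A - B - D) * (xp + dp) + dp * (B - c) + D * (xp - e) + D * dp from
      fun A B D xp dp e c => by ring]
    exact (I * J).add_mem ((I * J).add_mem ((I * J).add_mem ((I * J).mul_mem_right _ hp)
      (Ideal.mul_mem_mul (hδ _ _) hB)) (Ideal.mul_mem_mul hD he))
      (Ideal.mul_mem_mul hD (hI (hδ _ _)))

end Pool.Agent.Lib.MP_3a0263_al.Q
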