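import Pool.Agent.Lib.MP_3a0263_al.Q.ApiL

namespace Pool.Agent.Lib.MP_3a0263_al.Q

open Matrix Pool.Agent.Lib.MP_3a0263_al.R

universe u

variable {k : Type u} [Field k] {n : Type} [Fintype n] [DecidableEq n]

/-- an eigenfunctional for the conjugation by a cocharacter sees one degree only -/
theorem ApiR.func_eq_zero [Infinite k] (φ : Matrix n n k →ₗ[k] k) (l : n → ℤ) (e : ℤ)
    {x : Matrix n n k}
    (h : ∀ s : kˣ, φ ((coch l s : GL n k) * x * ((coch l s)⁻¹ : GL n k) : Matrix n n k) =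
      ((s ^ e : kˣ) : k) * φ x) (hx : ∀ i j, l i - l j = e → x i j = 0) : φ x = 0 := by
  let F : Finset ℤ := insert e (Finset.univ.image fun ij : n × n => l ij.1 - l ij.2)
  let c : ℤ → Matrix n n k := fun d => Matrix.of fun i j => if l i - l j = d then x i j else 0
  have he : e ∈ F := Finset.mem_insert_self _ _
  have h1 : ∀ s : kˣ, ((coch l s : GL n k) * x * ((coch l s)⁻¹ : GL n k) : Matrix n n k) =
      ∑ d ∈ F, ((s ^ d : kˣ) : k) • c d := fun s => by
    ext i j
    have hm : l i - l j ∈ F :=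
      Finset.mem_insert_of_mem (Finset.mem_image.2 ⟨(i, j), Finset.mem_univ _, rfl⟩)
    rw [coch_conj, Matrix.sum_apply, Finset.sum_eq_single_of_mem _ hm]
    · simp [c]
    · intro d _ hd
      simp [c, hd.symm]
  have h2 := coef_mem (⊥ : Submodule k k) F (fun d => φ (c d) - if d = e then φ x else 0)
    (fun s => by
      have h3 := h s
      rw [h1, map_sum] at h3
      simp only [map_smul, smul_eq_mul] at h3
      simp only [smul_eq_mul, mul_sub, Finset.sum_sub_distrib, h3, mul_ite, mul_zero,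
        Finset.sum_ite_eq', if_pos he, sub_self, Submodule.zero_mem]) e he
  have h4 : c e = 0 := by
    ext i j
    by_cases h5 : l i - l j = e
    · simp [c, hx i j h5]
    · simp [c, h5]
  simpa [h4] using h2

namespace IRep

variable {H T : Subgroup (GL n k)} (R : IRep H T)

theorem mul_span {x y : Matrix n n k} (hx : x ∈ spanG H) (hy : y ∈ spanG H) :
    R.ρ (x * y) = R.ρ x * R.ρ y := by
  induction hx using Submodule.span_induction with
  | zero => simp
  | add a b _ _ ha hb => rw [add_mul, map_add, map_add, add_mul, ha, hb]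
  | smul c a _ ha => rw [smul_mul_assoc, map_smul, map_smul, smul_mul_assoc, ha]
  | mem a ha =>
    obtain ⟨g, hg, rfl⟩ := ha
    induction hy using Submodule.span_induction with
    | zero => simp
    | add a b _ _ ha hb => rw [mul_add, map_add, map_add, mul_add, ha, hb]
    | smul c a _ ha => rw [mul_smul_comm, map_smul, map_smul, mul_smul_comm, ha]
    | mem b hb =>
      obtain ⟨h, hh, rfl⟩ := hb
      exact R.mul g hg h hh

theorem mul_inv {g : GL n k} (hg : g ∈ H) :
    R.ρ g * R.ρ ((g⁻¹ : GL n k) : Matrix n n k) = 1 := by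
  rw [← R.mul g hg _ (H.inv_mem hg), mul_inv_cancel, Units.val_one, R.one]

theorem inv_mul {g : GL n k} (hg : g ∈ H) :
    R.ρ ((g⁻¹ : GL n k) : Matrix n n k) * R.ρ g = 1 := by
  rw [← R.mul _ (H.inv_mem hg) g hg, inv_mul_cancel, Units.val_one, R.one]

theorem col_mul {g h : GL n k} (hg : g ∈ H) (hh : h ∈ H) (u : Fin R.m) :
    R.col (g * h) u = R.ρ g *ᵥ R.col h u := by
  funext v
  rw [col, R.mul g hg h hh]
  rfl

theorem col_one (u : Fin R.m) : R.col 1 u = Pi.single u 1 := by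
  funext v
  rw [col, Units.val_one, R.one, Matrix.one_apply, Pi.single_apply]

theorem col_ne_zero {g : GL n k} (hg : g ∈ H) (u : Fin R.m) : R.col g u ≠ 0 := fun h => by
  have h1 := R.col_mul (H.inv_mem hg) hg u
  rw [inv_mul_cancel, h, Matrix.mulVec_zero, col_one] at h1
  simpa using congrFun h1 u

theorem col_eq (g : GL n k) (u : Fin R.m) : R.col g u = R.ρ g *ᵥ Pi.single u 1 := by
  funext v
  simp [col]

theorem exists_mulVec_ne {y : Fin R.m → k} (hy : y ≠ 0) (u : Fin R.m) :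
    ∃ h ∈ H, (R.ρ (h : Matrix n n k) *ᵥ y) u ≠ 0 := by
  by_contra hc
  have h1 : ∀ M : Matrix (Fin R.m) (Fin R.m) k, (M *ᵥ y) u = 0 := fun M => by
    induction R.span M using Submodule.span_induction with
    | zero => simp
    | add a b _ _ ha hb => rw [Matrix.add_mulVec, Pi.add_apply, ha, hb, add_zero]
    | smul c a _ ha => rw [Matrix.smul_mulVec, Pi.smul_apply, ha, smul_zero]
    | mem a ha =>
      obtain ⟨h, hh, rfl⟩ := ha
      by_contra h2
      exact hc ⟨h, hh, h2⟩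
  refine hy (funext fun j => ?_)
  simpa [Matrix.mulVec, dotProduct, Pi.single_apply] using h1 (Matrix.of fun _ => Pi.single j 1)

theorem rho_coch (l : Y T) (s : kˣ) :
    R.ρ ((coch l.1 s : GL n k) : Matrix n n k) =
      diagonal fun u => ((s ^ l.1 (R.ix u) : kˣ) : k) := R.diag _ (l.2 s)

theorem rho_conj (hT : T ≤ H) (l : Y T) (s : kˣ) {g : GL n k} (hg : g ∈ H) (u v : Fin R.m) :
    R.ρ ((coch l.1 s : GL n k) * (g : Matrix n n k) * ((coch l.1 s)⁻¹ : GL n k) : Matrix n n k) u v =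
      ((s ^ (l.1 (R.ix u) - l.1 (R.ix v)) : kˣ) : k) * R.ρ g u v := by
  have h1 := hT (l.2 s)
  rw [← Units.val_mul, ← Units.val_mul, R.mul _ (H.mul_mem h1 hg) _ (H.inv_mem h1), R.mul _ h1 _ hg,
    coch_inv, rho_coch, rho_coch, mul_diagonal, diagonal_mul, _root_.zpow_sub, _root_.inv_zpow]
  push_cast; ring

theorem rho_Zc [Infinite k] (hT : T ≤ H) (l : Y T) {g : GL n k} (hg : g ∈ H ⊓ Zc k l.1)
    (u v : Fin R.m) (h : l.1 (R.ix u) ≠ l.1 (R.ix v)) : R.ρ g u v = 0 :=
  ApiR.func_eq_zero ((Matrix.entryLinearMap k k u v).comp R.ρ) l.1 (l.1 (R.ix u) - l.1 (R.ix v))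
    (fun s => R.rho_conj hT l s hg.1 u v) fun i j hij => mem_Zc.1 hg.2 i j (by omega)

theorem rho_Up [Infinite k] (hT : T ≤ H) (l : Y T) {g : GL n k} (hg : g ∈ H ⊓ Up k l.1) :
    R.ρ g - 1 ∈ degGE k (fun u => l.1 (R.ix u)) 1 := fun u v huv => by
  rw [← R.one, ← map_sub]
  refine ApiR.func_eq_zero ((Matrix.entryLinearMap k k u v).comp R.ρ) l.1
    (l.1 (R.ix u) - l.1 (R.ix v)) (fun s => ?_) fun i j hij => mem_Up.1 hg.2 i j (hij ▸ huv)
  change R.ρ _ u v = _ * R.ρ _ u v
  rw [mul_sub, sub_mul, mul_one, Units.mul_inv, map_sub, map_sub, Matrix.sub_apply,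
    Matrix.sub_apply, R.rho_conj hT l s hg.1, R.one, mul_sub]
  by_cases h : u = v
  · subst h; simp
  · simp [h]

theorem const_of_le_Zc [Infinite k] (hT : T ≤ H) (l : Y T) (h : H ≤ Zc k l.1) (u v : Fin R.m) :
    l.1 (R.ix u) = l.1 (R.ix v) := by
  by_contra hc
  have h1 : ∀ M : Matrix (Fin R.m) (Fin R.m) k, M u v = 0 := fun M => by
    induction R.span M using Submodule.span_induction with
    | zero => rfl
    | add a b _ _ ha hb => rw [Matrix.add_apply, ha, hb, add_zero]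
    | smul c a _ ha => rw [Matrix.smul_apply, ha, smul_zero]
    | mem a ha =>
      obtain ⟨g, hg, rfl⟩ := ha
      exact R.rho_Zc hT l ⟨hg, h hg⟩ u v hc
  exact one_ne_zero (h1 (Matrix.of fun _ _ => 1))

theorem mulVec_mem_clA {u : Fin R.m} {y : Fin R.m → k} (hy : y ∈ clA (R.orb u)) (a : k)
    {h : GL n k} (hh : h ∈ H) : a • (R.ρ (h : Matrix n n k) *ᵥ y) ∈ clA (R.orb u) := by
  intro q hq
  have e : ∀ x : Fin R.m → k, MvPolynomial.eval x (MvPolynomial.bind₁ (fun i =>
      ∑ j, MvPolynomial.C (a * R.ρ (h : Matrix n n k) i j) * MvPolynomial.X j) q) =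
      MvPolynomial.eval (a • (R.ρ (h : Matrix n n k) *ᵥ x)) q := fun x => by
    rw [← MvPolynomial.aeval_eq_eval, MvPolynomial.aeval_bind₁, MvPolynomial.aeval_eq_eval]
    refine congrArg (fun z => MvPolynomial.eval z q) (funext fun i => ?_)
    simp [Matrix.mulVec, dotProduct, Finset.mul_sum, mul_assoc]
  rw [← e]
  refine hy _ ?_
  rintro x ⟨b, g, hg, rfl⟩
  rw [e]
  exact hq _ ⟨a * b, h * g, H.mul_mem hh hg, by
    rw [Matrix.mulVec_smul, smul_smul, R.col_mul hh hg]⟩

theorem exists_stab (u : Fin R.m) : ∃ P : Subgroup (GL n k),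
    ∀ g, g ∈ P ↔ g ∈ H ∧ ∃ a : k, R.col g u = a • (Pi.single u 1 : Fin R.m → k) := by
  refine ⟨{ carrier := {g | g ∈ H ∧ ∃ a : k, R.col g u = a • (Pi.single u 1 : Fin R.m → k)}
            one_mem' := ⟨H.one_mem, 1, by rw [col_one, one_smul]⟩
            mul_mem' := ?_
            inv_mem' := ?_ }, fun g => Iff.rfl⟩
  · rintro g h ⟨hg, a, ha⟩ ⟨hh, b, hb⟩
    exact ⟨H.mul_mem hg hh, b * a, by
      rw [R.col_mul hg hh, hb, Matrix.mulVec_smul, ← col_eq, ha, smul_smul]⟩
  · rintro g ⟨hg, a, ha⟩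
    have h0 : a ≠ 0 := fun h0 => R.col_ne_zero hg u (by rw [ha, h0, zero_smul])
    have h1 := R.col_mul (H.inv_mem hg) hg u
    rw [inv_mul_cancel, col_one, ha, Matrix.mulVec_smul, ← col_eq] at h1
    exact ⟨H.inv_mem hg, a⁻¹, by rw [h1, smul_smul, inv_mul_cancel₀ h0, one_smul]⟩

theorem Top.unique {l : n → ℤ} {u v : Fin R.m} (hu : R.Top l u) (hv : R.Top l v) : u = v := by
  by_contra h
  exact lt_asymm (hu v (Ne.symm h)) (hv u h)

end IRep

end Pool.Agent.Lib.MP_3a0263_al.Q
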