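import Pool.Agent.Lib.MP_3a0263_al.Q.GDefs

namespace Pool.Agent.Lib.MP_3a0263_al.Q

open Matrix Pool.Agent.Lib.MP_3a0263_al.R

universe u

variable {k : Type u} [Field k] {n : Type} [Fintype n] [DecidableEq n]

theorem reg_entry (i j : n) : (fun g : GL n k => (g : Matrix n n k) i j) ∈ reg k n :=
  Algebra.subset_adjoin ⟨i, j, Or.inl rfl⟩

theorem reg_inv_entry (i j : n) :
    (fun g : GL n k => ((g⁻¹ : GL n k) : Matrix n n k) i j) ∈ reg k n :=
  Algebra.subset_adjoin ⟨i, j, Or.inr rfl⟩

theorem reg_const (c : k) : (fun _ : GL n k => c) ∈ reg k n := (reg k n).algebraMap_mem c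

theorem reg_add {φ ψ : GL n k → k} (h : φ ∈ reg k n) (h' : ψ ∈ reg k n) :
    (fun g => φ g + ψ g) ∈ reg k n := (reg k n).add_mem h h'

theorem reg_sub {φ ψ : GL n k → k} (h : φ ∈ reg k n) (h' : ψ ∈ reg k n) :
    (fun g => φ g - ψ g) ∈ reg k n := (reg k n).sub_mem h h'

theorem reg_mul {φ ψ : GL n k → k} (h : φ ∈ reg k n) (h' : ψ ∈ reg k n) :
    (fun g => φ g * ψ g) ∈ reg k n := (reg k n).mul_mem h h'

theorem reg_sum {ι : Type*} (s : Finset ι) {φ : ι → GL n k → k} (h : ∀ i ∈ s, φ i ∈ reg k n) :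
    (fun g => ∑ i ∈ s, φ i g) ∈ reg k n := by
  have e : (fun g => ∑ i ∈ s, φ i g) = ∑ i ∈ s, φ i := funext fun g => (Finset.sum_apply g s φ).symm
  rw [e]
  exact (reg k n).sum_mem h

theorem reg_eval {ι : Type} (q : MvPolynomial ι k) {φ : ι → GL n k → k} (h : ∀ i, φ i ∈ reg k n) :
    (fun g => MvPolynomial.eval (fun i => φ i g) q) ∈ reg k n := by
  induction q using MvPolynomial.induction_on with
  | C a => simpa only [MvPolynomial.eval_C] using reg_const (n := n) a
  | add p q hp hq => simpa only [map_add] using reg_add hp hq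
  | mul_X p i hp => simpa only [map_mul, MvPolynomial.eval_X] using reg_mul hp (h i)

theorem reg_poly (f : MvPolynomial (n × n) k) :
    (fun g : GL n k => MvPolynomial.aeval (entries g) f) ∈ reg k n := by
  induction f using MvPolynomial.induction_on with
  | C a => simpa only [MvPolynomial.aeval_C] using reg_const (n := n) (algebraMap k k a)
  | add p q hp hq => simpa only [map_add] using reg_add hp hq
  | mul_X p i hp =>
    simp only [map_mul, MvPolynomial.aeval_X]
    exact reg_mul hp (reg_entry i.1 i.2)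

theorem aeval_entries_det (g : GL n k) :
    MvPolynomial.aeval (entries g) (gen k n).det = (g : Matrix n n k).det := by
  rw [AlgHom.map_det, aeval_entries_gen]

theorem reg_exists {φ : GL n k → k} (h : φ ∈ reg k n) : ∃ (P : MvPolynomial (n × n) k) (N : ℕ),
    ∀ g : GL n k, (g : Matrix n n k).det ^ N * φ g = MvPolynomial.aeval (entries g) P := by
  induction h using Algebra.adjoin_induction with
  | mem x hx =>
    obtain ⟨i, j, rfl | rfl⟩ := hx
    · exact ⟨MvPolynomial.X (i, j), 0, fun g => by simp [entries]⟩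
    · refine ⟨(gen k n).adjugate i j, 1, fun g => ?_⟩
      have h1 : (MvPolynomial.aeval (entries g) : _ →ₐ[k] k).mapMatrix (gen k n).adjugate =
          (g : Matrix n n k).adjugate := by
        rw [AlgHom.map_adjugate, aeval_entries_gen]
      have h2 : (g : Matrix n n k).det • ((g⁻¹ : GL n k) : Matrix n n k) =
          (g : Matrix n n k).adjugate := by
        have h3 : (g : Matrix n n k).adjugate * g * ((g⁻¹ : GL n k) : Matrix n n k) =
            (g : Matrix n n k).adjugate := by
          rw [Matrix.mul_assoc, Units.mul_inv, Matrix.mul_one]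
        rw [← h3, adjugate_mul, Matrix.smul_mul, Matrix.one_mul]
      have h4 := congrFun (congrFun h1 i) j
      have h5 := congrFun (congrFun h2 i) j
      rw [pow_one]
      exact h5.trans h4.symm
  | algebraMap r => exact ⟨MvPolynomial.C r, 0, fun g => by simp⟩
  | add x y _ _ hx hy =>
    obtain ⟨P, N, hP⟩ := hx
    obtain ⟨Q, M, hQ⟩ := hy
    refine ⟨(gen k n).det ^ M * P + (gen k n).det ^ N * Q, N + M, fun g => ?_⟩
    rw [map_add, map_mul, map_mul, map_pow, map_pow, aeval_entries_det, ← hP, ← hQ, Pi.add_apply]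
    ring
  | mul x y _ _ hx hy =>
    obtain ⟨P, N, hP⟩ := hx
    obtain ⟨Q, M, hQ⟩ := hy
    refine ⟨P * Q, N + M, fun g => ?_⟩
    rw [map_mul, ← hP, ← hQ, Pi.mul_apply]
    ring

section

variable {m : Type} [Fintype m] [DecidableEq m]

theorem RegM.id : RegM (fun g : GL n k => (g : Matrix n n k)) := fun i j => reg_entry i j

theorem RegM.inv : RegM (fun g : GL n k => ((g⁻¹ : GL n k) : Matrix n n k)) :=
  fun i j => reg_inv_entry i j

omit [Fintype m] [DecidableEq m] in
theorem RegM.const (a : Matrix m m k) : RegM (fun _ : GL n k => a) := fun i j => reg_const (a i j)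

omit [Fintype m] [DecidableEq m] in
theorem RegM.add {Φ Ψ : GL n k → Matrix m m k} (h : RegM Φ) (h' : RegM Ψ) :
    RegM (fun g => Φ g + Ψ g) := fun i j => reg_add (h i j) (h' i j)

omit [Fintype m] [DecidableEq m] in
theorem RegM.sub {Φ Ψ : GL n k → Matrix m m k} (h : RegM Φ) (h' : RegM Ψ) :
    RegM (fun g => Φ g - Ψ g) := fun i j => reg_sub (h i j) (h' i j)

omit [DecidableEq m] in
theorem RegM.mul {Φ Ψ : GL n k → Matrix m m k} (h : RegM Φ) (h' : RegM Ψ) :
    RegM (fun g => Φ g * Ψ g) := fun i j =>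
  reg_sum Finset.univ (φ := fun c g => Φ g i c * Ψ g c j) fun c _ => reg_mul (h i c) (h' c j)

omit [Fintype m] [DecidableEq m] in
theorem RegM.smul {φ : GL n k → k} {Ψ : GL n k → Matrix m m k} (h : φ ∈ reg k n) (h' : RegM Ψ) :
    RegM (fun g => φ g • Ψ g) := fun i j => reg_mul h (h' i j)

theorem RegM.pow {Φ : GL n k → Matrix m m k} (h : RegM Φ) (r : ℕ) : RegM (fun g => Φ g ^ r) := by
  induction r with
  | zero => simpa only [pow_zero] using RegM.const (n := n) (1 : Matrix m m k)
  | succ r ih => simpa only [pow_succ] using ih.mul h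

theorem RegM.func {Φ : GL n k → Matrix m m k} (h : RegM Φ) (σ : Matrix m m k →ₗ[k] k) :
    (fun g => σ (Φ g)) ∈ reg k n := by
  have e : (fun g => σ (Φ g)) = fun g => ∑ i, ∑ j, Φ g i j * σ (Matrix.single i j 1) := by
    funext g
    conv_lhs => rw [matrix_eq_sum_single (Φ g)]
    rw [map_sum]
    refine Finset.sum_congr rfl fun i _ => ?_
    rw [map_sum]
    refine Finset.sum_congr rfl fun j _ => ?_
    rw [← smul_eq_mul, ← map_smul, smul_single, smul_eq_mul, mul_one]
  rw [e]
  exact reg_sum _ fun i _ => reg_sum _ fun j _ => reg_mul (h i j) (reg_const _)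

theorem RegM.lin {m' : Type} {Φ : GL n k → Matrix m m k} (h : RegM Φ)
    (σ : Matrix m m k →ₗ[k] Matrix m' m' k) : RegM (fun g => σ (Φ g)) := fun i j =>
  h.func ((Matrix.entryLinearMap k k i j).comp σ)

/-- evaluation of a regular function -/
def regEv (g : GL n k) : reg k n →+* k := (Pi.evalRingHom (fun _ : GL n k => k) g).comp (reg k n).val

omit [Fintype m] [DecidableEq m] in
theorem RegM.exists_mat {Φ : GL n k → Matrix m m k} (h : RegM Φ) :
    ∃ M : Matrix m m (reg k n), ∀ g, M.map (regEv g) = Φ g :=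
  ⟨Matrix.of fun i j => ⟨_, h i j⟩, fun _ => rfl⟩

theorem RegM.det {Φ : GL n k → Matrix m m k} (h : RegM Φ) : (fun g => (Φ g).det) ∈ reg k n := by
  obtain ⟨M, hM⟩ := h.exists_mat
  have e : (fun g => (Φ g).det) = (M.det : reg k n).1 := funext fun g => by
    rw [← hM]; exact ((regEv g).map_det M).symm
  rw [e]
  exact M.det.2

theorem RegM.charpoly_coeff {Φ : GL n k → Matrix m m k} (h : RegM Φ) (r : ℕ) :
    (fun g => (Φ g).charpoly.coeff r) ∈ reg k n := by
  obtain ⟨M, hM⟩ := h.exists_mat
  have e : (fun g => (Φ g).charpoly.coeff r) = (M.charpoly.coeff r : reg k n).1 := funext fun g => by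
    rw [← hM, charpoly_map, Polynomial.coeff_map]; rfl
  rw [e]
  exact (M.charpoly.coeff r).2

end

end Pool.Agent.Lib.MP_3a0263_al.Q
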