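import Pool.Agent.Lib.MP_3a0263_al.Q.ApiZ0

namespace Pool.Agent.Lib.MP_3a0263_al.Q

open Matrix Pool.Agent.Lib.MP_3a0263_al.R

universe u

variable {k : Type u} [Field k] {n : Type} [Fintype n] [DecidableEq n]

theorem reg_zero {φ : GL n k → k} (h : φ ∈ reg k n) : ∃ P : MvPolynomial (n × n) k,
    ∀ g : GL n k, φ g = 0 ↔ MvPolynomial.aeval (entries g) P = 0 := by
  obtain ⟨P, N, hP⟩ := reg_exists h
  exact ⟨P, fun g => by
    rw [← hP, mul_eq_zero, or_iff_right (pow_ne_zero N (Matrix.isUnits_det_units g).ne_zero)]⟩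

theorem closed_reg {F : Set (GL n k → k)} (h : ∀ φ ∈ F, φ ∈ reg k n) :
    IsZClosed {g : GL n k | ∀ φ ∈ F, φ g = 0} := fun g hg φ hφ => by
  obtain ⟨P, hP⟩ := reg_zero (h φ hφ)
  exact (hP g).2 (hg P (mem_vanish.2 fun g' hg' => (hP g').1 (hg' φ hφ)))

theorem closed_lin {V : Type*} [AddCommGroup V] [Module k V] {Φ : GL n k → V}
    (h : ∀ σ : V →ₗ[k] k, (fun g => σ (Φ g)) ∈ reg k n) (W : Submodule k V) :
    IsZClosed {g : GL n k | Φ g ∈ W} := fun g hg => by
  refine (Subspace.forall_mem_dualAnnihilator_apply_eq_zero_iff W (Φ g)).1 fun σ hσ => ?_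
  obtain ⟨P, hP⟩ := reg_zero (h σ)
  exact (hP g).2 (hg P (mem_vanish.2 fun g' hg' =>
    (hP g').1 ((Submodule.mem_dualAnnihilator σ).1 hσ _ hg')))

theorem closed_regM {m : Type} [Fintype m] [DecidableEq m] {Φ : GL n k → Matrix m m k}
    (h : RegM Φ) (W : Submodule k (Matrix m m k)) : IsZClosed {g : GL n k | Φ g ∈ W} :=
  closed_lin h.func W

theorem closed_eq {m : Type} [Fintype m] [DecidableEq m] {Φ Ψ : GL n k → Matrix m m k}
    (h : RegM Φ) (h' : RegM Ψ) : IsZClosed {g : GL n k | Φ g = Ψ g} := by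
  simpa only [Submodule.mem_bot, sub_eq_zero] using closed_regM (h.sub h') ⊥

theorem closed_vec {m : Type} [Fintype m] {Φ : GL n k → m → k}
    (h : ∀ i, (fun g => Φ g i) ∈ reg k n) (W : Submodule k (m → k)) :
    IsZClosed {g : GL n k | Φ g ∈ W} := by
  classical
  refine closed_lin (fun σ => ?_) W
  have e : (fun g => σ (Φ g)) = fun g => ∑ i, Φ g i * σ fun j => if i = j then 1 else 0 :=
    funext fun g => σ.pi_apply_eq_sum_univ (Φ g)
  rw [e]
  exact reg_sum _ fun i _ => reg_mul (h i) (reg_const _)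

theorem closed_conj (y y' : Matrix n n k) (W : Submodule k (Matrix n n k)) :
    IsZClosed {g : GL n k |
      (g : Matrix n n k) * y * ((g⁻¹ : GL n k) : Matrix n n k) - y' ∈ W} :=
  closed_regM (((RegM.id.mul (RegM.const y)).mul RegM.inv).sub (RegM.const y')) W

theorem reg_dense {S S' : Set (GL n k)} (hS : vanish S ≤ vanish S') {φ : GL n k → k}
    (hφ : φ ∈ reg k n) (h : ∀ g ∈ S, φ g = 0) : ∀ g ∈ S', φ g = 0 := fun g hg => by
  obtain ⟨P, hP⟩ := reg_zero hφ
  exact (hP g).2 (mem_vanish.1 (hS (mem_vanish.2 fun g' hg' => (hP g').1 (h g' hg'))) g hg)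

theorem subset_of_dense {S S' C : Set (GL n k)} (hS : vanish S ≤ vanish S') (hC : IsZClosed C)
    (h : S ⊆ C) : S' ⊆ C := fun g hg =>
  hC g fun _ hf => mem_vanish.1 (hS (vanish_anti h hf)) g hg

theorem irr_reg {S : Set (GL n k)} (hS : ZAR.Irr S) {φ ψ : GL n k → k} (hφ : φ ∈ reg k n)
    (hψ : ψ ∈ reg k n) (h : ∀ g ∈ S, φ g * ψ g = 0) :
    (∀ g ∈ S, φ g = 0) ∨ ∀ g ∈ S, ψ g = 0 := by
  obtain ⟨P, hP⟩ := reg_zero hφ
  obtain ⟨Q, hQ⟩ := reg_zero hψ
  refine (hS P Q (mem_vanish.2 fun g hg => ?_)).imp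
    (fun e g hg => (hP g).2 (mem_vanish.1 e g hg)) fun e g hg => (hQ g).2 (mem_vanish.1 e g hg)
  rw [map_mul, mul_eq_zero, ← hP, ← hQ]
  exact mul_eq_zero.1 (h g hg)

theorem closed_fiber {φ : GL n k → k} (hφ : φ ∈ reg k n) (c : k) :
    IsZClosed {g : GL n k | φ g = c} := fun g hg => by
  obtain ⟨P, hP⟩ := reg_zero (reg_sub hφ (reg_const c))
  exact sub_eq_zero.1
    ((hP g).2 (hg P (mem_vanish.2 fun g' hg' => (hP g').1 (sub_eq_zero.2 hg'))))

theorem irr_const {S : Set (GL n k)} (hS : ZAR.Irr S) {φ : GL n k → k} (hφ : φ ∈ reg k n)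
    {F : Set k} (hF : F.Finite) (h : ∀ g ∈ S, φ g ∈ F) : ∀ g ∈ S, ∀ g' ∈ S, φ g = φ g' := by
  intro g hg g' hg'
  obtain ⟨c, -, hc⟩ := subset_of_cover (prime_of_irr hS hg) hF.toFinset
    (fun c => {x | φ x = c}) (fun c _ => closed_fiber hφ c)
    (fun x hx => ⟨φ x, hF.mem_toFinset.2 (h x hx), rfl⟩)
  exact (hc hg).trans (hc hg').symm

theorem reg_comp {m : Type} [Fintype m] [DecidableEq m] {Φ : GL n k → GL m k}
    (h : RegM fun g => (Φ g : Matrix m m k)) (f : MvPolynomial (m × m) k) :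
    (fun g => MvPolynomial.aeval (entries (Φ g)) f) ∈ reg k n :=
  reg_eval f (φ := fun ij g => (Φ g : Matrix m m k) ij.1 ij.2) fun ij => h ij.1 ij.2

theorem irr_image {m : Type} [Fintype m] [DecidableEq m] {S : Set (GL n k)} (hS : ZAR.Irr S)
    {Φ : GL n k → GL m k} (h : RegM fun g => (Φ g : Matrix m m k)) : ZAR.Irr (Φ '' S) := by
  intro f f' hf
  refine (irr_reg hS (reg_comp h f) (reg_comp h f') fun g hg => ?_).imp
    (fun e => mem_vanish.2 ?_) fun e => mem_vanish.2 ?_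
  · rw [← map_mul]
    exact mem_vanish.1 hf _ ⟨g, hg, rfl⟩
  · rintro _ ⟨g, hg, rfl⟩
    exact e g hg
  · rintro _ ⟨g, hg, rfl⟩
    exact e g hg

theorem closed_preimage {m : Type} [Fintype m] [DecidableEq m] {C : Set (GL m k)}
    (hC : IsZClosed C) {Φ : GL n k → GL m k} (h : RegM fun g => (Φ g : Matrix m m k)) :
    IsZClosed (Φ ⁻¹' C) := fun g hg => hC (Φ g) fun f hf => by
  obtain ⟨P, hP⟩ := reg_zero (reg_comp h f)
  exact (hP g).2 (hg P (mem_vanish.2 fun g' hg' => (hP g').1 (mem_vanish.1 hf _ hg')))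

theorem irr_of_dom {A Z : Type*} [CommRing A] [NoZeroDivisors A] [Algebra k A]
    (e : Z → A →ₐ[k] k) (he : ∀ a, (∀ z, e z a = 0) → a = 0) (x : Z → GL n k) (g : Matrix n n A)
    (h : ∀ z i j, (x z : Matrix n n k) i j = e z (g i j)) : ZAR.Irr (Set.range x) := by
  have h1 : ∀ z (f : MvPolynomial (n × n) k), MvPolynomial.aeval (entries (x z)) f =
      e z (MvPolynomial.aeval (fun ij : n × n => g ij.1 ij.2) f) := fun z f => by
    rw [← AlgHom.comp_apply, MvPolynomial.comp_aeval]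
    exact congrArg (fun w : n × n → k => MvPolynomial.aeval w f) (funext fun ij => h z ij.1 ij.2)
  have h2 : ∀ f : MvPolynomial (n × n) k, f ∈ vanish (Set.range x) ↔
      MvPolynomial.aeval (fun ij : n × n => g ij.1 ij.2) f = 0 := fun f => by
    rw [mem_vanish]
    refine ⟨fun hf => he _ fun z => (h1 z f).symm.trans (hf _ ⟨z, rfl⟩), ?_⟩
    rintro hf _ ⟨z, rfl⟩
    rw [h1, hf, map_zero]
  intro f f' hf
  rw [h2, map_mul] at hf
  rw [h2, h2]
  exact mul_eq_zero.1 hf

theorem irr_param [Infinite k] {ι : Type} (x : (ι → k) → GL n k)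
    (g : Matrix n n (MvPolynomial ι k))
    (h : ∀ z, (x z : Matrix n n k) = g.map (MvPolynomial.eval z)) : ZAR.Irr (Set.range x) :=
  irr_of_dom (fun z : ι → k => MvPolynomial.aeval z)
    (fun _ ha => MvPolynomial.funext fun z => (ha z).trans (map_zero _).symm) x g
    fun z i j => congrFun (congrFun (h z) i) j

theorem irr_curve [Infinite k] (x : k → GL n k) (g : Matrix n n (Polynomial k))
    (h : ∀ z, (x z : Matrix n n k) = g.map (Polynomial.eval z)) : ZAR.Irr (Set.range x) :=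
  irr_of_dom (fun z : k => Polynomial.aeval z)
    (fun _ ha => Polynomial.funext fun z => by
      rw [Polynomial.eval_zero, ← Polynomial.coe_aeval_eq_eval]; exact ha z) x g
    fun z i j => by
      rw [Polynomial.coe_aeval_eq_eval]; exact congrFun (congrFun (h z) i) j

theorem irr_coch [Infinite k] (l : n → ℤ) : ZAR.Irr (Set.range (coch (k := k) l)) :=
  irr_of_dom (fun s : kˣ => ev s)
    (fun _ ha => lp_eq_zero_of_cofinite Set.finite_empty fun s _ => ha s) _
    (diagonal fun i => LaurentPolynomial.T (l i)) fun s i j => by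
      rw [coch_val]
      by_cases hij : i = j
      · subst hij
        rw [diagonal_apply_eq, diagonal_apply_eq, ev_T]
      · rw [diagonal_apply_ne _ hij, diagonal_apply_ne _ hij, map_zero]

theorem closed_Zc (l : n → ℤ) : IsZClosed (Zc k l : Set (GL n k)) :=
  (closed_regM RegM.id (degGE k l 0)).inter (closed_regM RegM.id (degGE k (-l) 0))

theorem closed_Up (l : n → ℤ) : IsZClosed (Up k l : Set (GL n k)) :=
  closed_regM (RegM.id.sub (RegM.const 1)) (degGE k l 1)

theorem closed_inf {H K : Subgroup (GL n k)} (h : IsZClosed (H : Set (GL n k)))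
    (h' : IsZClosed (K : Set (GL n k))) :
    IsZClosed ((H ⊓ K : Subgroup (GL n k)) : Set (GL n k)) := h.inter h'

/-- the point `a + ε y` over the dual numbers -/
def dualPt (a y : Matrix n n k) : Matrix n n (DualNumber k) :=
  Matrix.of fun i j => TrivSqZeroExt.inl (a i j) + TrivSqZeroExt.inr (y i j)

omit [DecidableEq n] in
theorem dualPt_mul (a y b z : Matrix n n k) :
    dualPt a y * dualPt b z = dualPt (a * b) (a * z + y * b) := by
  ext i j
  · simp [dualPt, Matrix.mul_apply, TrivSqZeroExt.fst_sum]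
  · simp [dualPt, Matrix.mul_apply, TrivSqZeroExt.snd_sum, Finset.sum_add_distrib, mul_comm]

theorem aeval_dualPt_cP (x : n × n → DualNumber k) (a : Matrix n n k) :
    (MvPolynomial.aeval x : _ →ₐ[k] DualNumber k).mapMatrix (cP a) = dualPt a 0 := by
  ext1 i j
  simp [cP, Algebra.ofId_apply, dualPt, TrivSqZeroExt.algebraMap_eq_inl]

theorem aeval_dualPt_tr (a b : GL n k) (c y : Matrix n n k) (f : MvPolynomial (n × n) k) :
    MvPolynomial.aeval (fun ij : n × n => dualPt c y ij.1 ij.2) (ZAR.tr a b f) =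
      MvPolynomial.aeval (fun ij : n × n => dualPt ((a : Matrix n n k) * c * (b : Matrix n n k))
        ((a : Matrix n n k) * y * (b : Matrix n n k)) ij.1 ij.2) f := by
  rw [ZAR.tr, ← AlgHom.comp_apply, MvPolynomial.comp_aeval]
  have h : (MvPolynomial.aeval (fun ij : n × n => dualPt c y ij.1 ij.2) :
      _ →ₐ[k] DualNumber k).mapMatrix
      (cP (a : Matrix n n k) * gen k n * cP (b : Matrix n n k)) =
      dualPt ((a : Matrix n n k) * c * (b : Matrix n n k))
        ((a : Matrix n n k) * y * (b : Matrix n n k)) := by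
    rw [map_mul, map_mul, aeval_dualPt_cP, aeval_dualPt_cP, aeval_gen, dualPt_mul, dualPt_mul]
    simp
  exact congrArg (fun w : n × n → DualNumber k => MvPolynomial.aeval w f)
    (funext fun ij => congrFun (congrFun h ij.1) ij.2)

theorem conj_mem_lie {H H' : Subgroup (GL n k)} {g : GL n k} (h : ∀ x ∈ H, g * x * g⁻¹ ∈ H')
    {y : Matrix n n k} (hy : y ∈ lie H) :
    (g : Matrix n n k) * y * ((g⁻¹ : GL n k) : Matrix n n k) ∈ lie H' := fun f hf => by
  have h1 := hy (ZAR.tr g g⁻¹ f) (mem_vanish.2 fun x hx => by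
    rw [ZAR.aeval_tr]; exact mem_vanish.1 hf _ (h x hx))
  have h2 := aeval_dualPt_tr g g⁻¹ 1 y f
  rw [Matrix.mul_one, Units.mul_inv] at h2
  exact h2.symm.trans h1

theorem lin_eq_sum (σ : Matrix n n k →ₗ[k] k) (x : Matrix n n k) :
    σ x = ∑ ij : n × n, σ (Matrix.single ij.1 ij.2 1) * x ij.1 ij.2 := by
  conv_lhs => rw [matrix_eq_sum_single x]
  rw [map_sum, Fintype.sum_prod_type]
  refine Finset.sum_congr rfl fun i _ => ?_
  rw [map_sum]
  refine Finset.sum_congr rfl fun j _ => ?_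
  rw [mul_comm, ← smul_eq_mul, ← map_smul, smul_single, smul_eq_mul, mul_one]

theorem lie_lin {H : Subgroup (GL n k)} (W : Submodule k (Matrix n n k))
    (h : ∀ g ∈ H, (g : Matrix n n k) - 1 ∈ W) {y : Matrix n n k} (hy : y ∈ lie H) : y ∈ W := by
  refine (Subspace.forall_mem_dualAnnihilator_apply_eq_zero_iff W y).1 fun σ hσ => ?_
  have h1 := hy (∑ ij : n × n, MvPolynomial.C (σ (Matrix.single ij.1 ij.2 1)) *
      (MvPolynomial.X ij - MvPolynomial.C ((1 : Matrix n n k) ij.1 ij.2)))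
    (mem_vanish.2 fun g hg => by
      rw [← (Submodule.mem_dualAnnihilator σ).1 hσ _ (h g hg), lin_eq_sum σ]
      simp [entries])
  have h2 := congrArg TrivSqZeroExt.snd h1
  rw [lin_eq_sum σ]
  simpa [TrivSqZeroExt.snd_sum, TrivSqZeroExt.algebraMap_eq_inl, mul_comm] using h2

end Pool.Agent.Lib.MP_3a0263_al.Q
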