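import Pool.Agent.Lib.MP_3a0263_al.Q.ApiZ1

namespace Pool.Agent.Lib.MP_3a0263_al.Q

open Matrix Pool.Agent.Lib.MP_3a0263_al.R

universe u

variable {k : Type u} [Field k] {n : Type} [Fintype n] [DecidableEq n]

theorem irr_cl {S : Set (GL n k)} (h : ZAR.Irr S) : ZAR.Irr (ZAR.cl S) := fun f g hfg => by
  rw [ZAR.vanish_cl] at hfg ⊢
  exact h f g hfg

theorem cl_mono {S T : Set (GL n k)} (h : S ⊆ T) : ZAR.cl S ⊆ ZAR.cl T :=
  ZAR.cl_min (ZAR.closed_cl T) (h.trans (ZAR.subset_cl T))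

theorem exists_decomp (S : Set (GL n k)) : ∃ F : Set (Set (GL n k)), F.Finite ∧
    (∀ C ∈ F, ZAR.Irr C ∧ IsZClosed C ∧ C.Nonempty ∧ C ⊆ ZAR.cl S) ∧ S ⊆ ⋃₀ F := by
  have key : ∀ I : Ideal (MvPolynomial (n × n) k), ∀ S : Set (GL n k), vanish S = I →
      ∃ F : Set (Set (GL n k)), F.Finite ∧
        (∀ C ∈ F, ZAR.Irr C ∧ IsZClosed C ∧ C.Nonempty ∧ C ⊆ ZAR.cl S) ∧ S ⊆ ⋃₀ F := by
    intro I
    induction I using (wellFounded_gt (α := Ideal (MvPolynomial (n × n) k))).induction with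
    | _ I ih =>
    intro S hS
    by_cases hI : ZAR.Irr S
    · rcases S.eq_empty_or_nonempty with h | h
      · exact ⟨∅, Set.finite_empty, by simp, by simp [h]⟩
      · refine ⟨{ZAR.cl S}, Set.finite_singleton _, ?_, by simpa using ZAR.subset_cl S⟩
        rintro C rfl
        exact ⟨irr_cl hI, ZAR.closed_cl S, h.mono (ZAR.subset_cl S), le_rfl⟩
    · unfold ZAR.Irr at hI
      push Not at hI
      obtain ⟨f, g, hfg, hf, hg⟩ := hI
      have step : ∀ q : MvPolynomial (n × n) k, q ∉ vanish S → ∃ F : Set (Set (GL n k)), F.Finite ∧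
          (∀ C ∈ F, ZAR.Irr C ∧ IsZClosed C ∧ C.Nonempty ∧ C ⊆ ZAR.cl S) ∧
          {x ∈ S | MvPolynomial.aeval (entries x) q = 0} ⊆ ⋃₀ F := by
        intro q hq
        have h1 : vanish S ≤ vanish {x ∈ S | MvPolynomial.aeval (entries x) q = 0} :=
          vanish_anti fun x hx => hx.1
        have h2 : q ∈ vanish {x ∈ S | MvPolynomial.aeval (entries x) q = 0} :=
          mem_vanish.2 fun x hx => hx.2
        obtain ⟨F, hF, hF1, hF2⟩ := ih _ (hS ▸ lt_of_le_of_ne h1 fun e => hq (e ▸ h2)) _ rfl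
        exact ⟨F, hF, fun C hC => ⟨(hF1 C hC).1, (hF1 C hC).2.1, (hF1 C hC).2.2.1,
          (hF1 C hC).2.2.2.trans (cl_mono fun x hx => hx.1)⟩, hF2⟩
      obtain ⟨F1, a1, b1, c1⟩ := step f hf
      obtain ⟨F2, a2, b2, c2⟩ := step g hg
      refine ⟨F1 ∪ F2, a1.union a2, fun C hC => hC.elim (b1 C) (b2 C), fun x hx => ?_⟩
      have := mem_vanish.1 hfg x hx
      rw [map_mul] at this
      rw [Set.sUnion_union]
      exact (mul_eq_zero.1 this).imp (fun e => c1 ⟨hx, e⟩) fun e => c2 ⟨hx, e⟩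
  exact key _ S rfl

theorem exists_irr_of_idc {K : Subgroup (GL n k)} {x : GL n k} (hx : x ∈ idc K) :
    ∃ S : Set (GL n k), S ⊆ K ∧ ZAR.Irr S ∧ (1 : GL n k) ∈ S ∧ x ∈ S := by
  induction hx using Subgroup.closure_induction with
  | mem x hx => exact hx
  | one => exact ⟨{1}, by simp, ZAR.irr_one, rfl, rfl⟩
  | mul x y _ _ hx hy =>
    obtain ⟨S, hS1, hS, hS2, hS3⟩ := hx
    obtain ⟨T, hT1, hT, hT2, hT3⟩ := hy
    refine ⟨_, ?_, hS.mul hT, ⟨1, hS2, 1, hT2, mul_one 1⟩, ⟨x, hS3, y, hT3, rfl⟩⟩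
    rintro _ ⟨a, ha, b, hb, rfl⟩
    exact K.mul_mem (hS1 ha) (hT1 hb)
  | inv x _ hx =>
    obtain ⟨S, hS1, hS, hS2, hS3⟩ := hx
    refine ⟨(fun g => g⁻¹) '' S, ?_, irr_image hS RegM.inv, ⟨1, hS2, inv_one⟩, ⟨x, hS3, rfl⟩⟩
    rintro _ ⟨a, ha, rfl⟩
    exact K.inv_mem (hS1 ha)

theorem irr_idc (K : Subgroup (GL n k)) : ZAR.Irr (idc K : Set (GL n k)) := fun f g hfg => by
  by_contra hc
  rw [not_or, mem_vanish, mem_vanish] at hc
  obtain ⟨h1, h2⟩ := hc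
  push Not at h1 h2
  obtain ⟨x, hx, h1⟩ := h1
  obtain ⟨y, hy, h2⟩ := h2
  obtain ⟨S, hS1, hS, hS2, hS3⟩ := exists_irr_of_idc hx
  obtain ⟨T, hT1, hT, hT2, hT3⟩ := exists_irr_of_idc hy
  have h3 : Set.image2 (fun x y => x * y) S T ⊆ (idc K : Set (GL n k)) := by
    rintro _ ⟨a, ha, b, hb, rfl⟩
    exact (idc K).mul_mem (subset_idc hS1 hS hS2 ha) (subset_idc hT1 hT hT2 hb)
  rcases hS.mul hT f g (vanish_anti h3 hfg) with h4 | h4
  · exact h1 (mem_vanish.1 h4 x ⟨x, hS3, 1, hT2, mul_one x⟩)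
  · exact h2 (mem_vanish.1 h4 y ⟨1, hS2, y, hT3, one_mul y⟩)

theorem conn_idc {K : Subgroup (GL n k)} (h : IsZClosed (K : Set (GL n k))) :
    IsConnAlg (idc K) :=
  ⟨fun _ hg => subset_idc (ZAR.cl_min h (idc_le K)) (irr_cl (irr_idc K))
    (ZAR.subset_cl _ (idc K).one_mem) hg, prime_of_irr (irr_idc K) (idc K).one_mem⟩

theorem idc_eq {K : Subgroup (GL n k)} (h : IsConnAlg K) : idc K = K :=
  le_antisymm (idc_le K) (le_idc le_rfl h)

theorem irr_tr {S : Set (GL n k)} (hS : ZAR.Irr S) (a b : GL n k) :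
    ZAR.Irr ((fun x => a * x * b) '' S) := fun f g hfg => by
  have key : ∀ q : MvPolynomial (n × n) k,
      q ∈ vanish ((fun x => a * x * b) '' S) ↔ ZAR.tr a b q ∈ vanish S := fun q => by
    simp only [mem_vanish, Set.forall_mem_image, ZAR.aeval_tr]
  rw [key, key]
  refine hS _ _ ?_
  rw [key] at hfg
  refine mem_vanish.2 fun x hx => ?_
  have := mem_vanish.1 hfg x hx
  rw [ZAR.aeval_tr, map_mul] at this
  rw [map_mul, ZAR.aeval_tr, ZAR.aeval_tr, this]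

theorem idc_conj {K K' : Subgroup (GL n k)} {g : GL n k} (h : ∀ x ∈ K, g * x * g⁻¹ ∈ K') :
    ∀ x ∈ idc K, g * x * g⁻¹ ∈ idc K' := fun x hx => by
  obtain ⟨S, hS1, hS, hS2, hS3⟩ := exists_irr_of_idc hx
  refine subset_idc ?_ (irr_tr hS g g⁻¹) ⟨1, hS2, by simp⟩ ⟨x, hS3, rfl⟩
  rintro _ ⟨a, ha, rfl⟩
  exact h a (hS1 ha)

theorem nrm_idc {Ys : Submodule ℤ (n → ℤ)} {K : Subgroup (GL n k)} (h : Nrm Ys K) :
    Nrm Ys (idc K) := fun l hl s => idc_conj (h l hl s)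

theorem vanish_lt {S T : Set (GL n k)} (hS : IsZClosed S) (h : S ⊂ T) : vanish T < vanish S :=
  lt_of_le_of_ne (vanish_anti h.1) fun e => h.2 fun g hg => hS g fun _ hf =>
    mem_vanish.1 (e ▸ hf) g hg

theorem closed_induction {P : Subgroup (GL n k) → Prop}
    (h : ∀ H : Subgroup (GL n k), IsZClosed (H : Set (GL n k)) →
      (∀ H' : Subgroup (GL n k), H' < H → IsZClosed (H' : Set (GL n k)) → P H') → P H) :
    ∀ H : Subgroup (GL n k), IsZClosed (H : Set (GL n k)) → P H := by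
  have key : ∀ I : Ideal (MvPolynomial (n × n) k), ∀ H : Subgroup (GL n k),
      vanish (H : Set (GL n k)) = I → IsZClosed (H : Set (GL n k)) → P H := by
    intro I
    induction I using (wellFounded_gt (α := Ideal (MvPolynomial (n × n) k))).induction with
    | _ I ih =>
    intro H hI hH
    exact h H hH fun H' hlt hH' => ih _ (hI ▸ vanish_lt hH' hlt) H' rfl hH'
  exact fun H => key _ H rfl

theorem exists_mem_of_antitone {C : ℕ → Set (GL n k)} (h : Antitone C) (hC : ∀ j, IsZClosed (C j))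
    (hne : ∀ j, (C j).Nonempty) : ∃ g, ∀ j, g ∈ C j := by
  let J : ℕ →o Ideal (MvPolynomial (n × n) k) :=
    ⟨fun j => vanish (C j), fun _ _ hab => vanish_anti (h hab)⟩
  obtain ⟨N, hN⟩ := monotone_stabilizes_iff_noetherian.2
    (inferInstance : IsNoetherian (MvPolynomial (n × n) k) (MvPolynomial (n × n) k)) J
  obtain ⟨g, hg⟩ := hne N
  refine ⟨g, fun j => ?_⟩
  rcases le_total j N with h1 | h1
  · exact h h1 hg
  · refine hC j g fun f hf => ?_
    have h2 : f ∈ J N := by rw [hN j h1]; exact hf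
    exact mem_vanish.1 h2 g hg

theorem closed_fg {S : Set (GL n k)} (h : IsZClosed S) :
    ∃ (F : Finset (MvPolynomial (n × n) k)),
      ∀ g, g ∈ S ↔ ∀ f ∈ F, MvPolynomial.aeval (entries g) f = 0 := by
  obtain ⟨F, hF⟩ := (isNoetherianRing_iff_ideal_fg _).1 inferInstance (vanish S)
  refine ⟨F, fun g => ⟨fun hg f hf => mem_vanish.1 (hF ▸ Ideal.subset_span hf) g hg,
    fun hg => h g fun f hf => ?_⟩⟩
  rw [← hF] at hf
  have : Ideal.span (F : Set (MvPolynomial (n × n) k)) ≤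
      RingHom.ker (MvPolynomial.aeval (entries g) : _ →ₐ[k] k) := Ideal.span_le.2 hg
  exact this hf

theorem red_unip {G K : Subgroup (GL n k)} (hG : IsReductive G) (hK : IsZClosed (K : Set (GL n k)))
    (hle : K ≤ G) (hn : ∀ g ∈ G, ∀ x ∈ K, g * x * g⁻¹ ∈ K)
    (hu : ∀ x ∈ K, IsNilpotent ((x : Matrix n n k) - 1)) {S : Set (GL n k)} (hS : ZAR.Irr S)
    (h1 : (1 : GL n k) ∈ S) (hSK : S ⊆ K) : ∀ x ∈ S, x = 1 := fun x hx => by
  have h2 := hG.2 (idc K) ((idc_le K).trans hle) (conn_idc hK)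
    (fun g hg => idc_conj (hn g hg)) fun u hu' => hu u (idc_le K hu')
  have h3 : x ∈ idc K := subset_idc hSK hS h1 hx
  rwa [h2, Subgroup.mem_bot] at h3

theorem aeval_det_gen {B : Type*} [CommRing B] [Algebra k B] (a : Matrix n n B) :
    MvPolynomial.aeval (fun ij : n × n => a ij.1 ij.2) (gen k n).det = a.det := by
  rw [AlgHom.map_det, aeval_gen]

theorem vanish_zero [IsAlgClosed k] {P : Ideal (MvPolynomial (n × n) k)} (hP : P.IsPrime)
    (h1 : ∀ f ∈ P, MvPolynomial.aeval (entries (1 : GL n k)) f = 0) :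
    vanish {g : GL n k | ∀ f ∈ P, MvPolynomial.aeval (entries g) f = 0} = P := by
  refine le_antisymm (fun f hf => ?_) fun f hf => mem_vanish.2 fun g hg => hg f hf
  have h2 : f * (gen k n).det ∈ MvPolynomial.vanishingIdeal k (MvPolynomial.zeroLocus k P) := by
    intro x hx
    have e : x = fun ij : n × n => (Matrix.of fun i j => x (i, j)) ij.1 ij.2 := rfl
    rw [map_mul]
    by_cases hd : (Matrix.of fun i j => x (i, j)).det = 0
    · rw [e, aeval_det_gen, hd, mul_zero]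
    · obtain ⟨g, hg⟩ := exists_gl hd
      have e2 : entries g = x := by rw [e, ← hg]; rfl
      rw [← e2, mem_vanish.1 hf g (by rw [Set.mem_ofPred_eq, e2]; exact hx), zero_mul]
  rw [MvPolynomial.vanishingIdeal_zeroLocus_eq_radical, hP.radical] at h2
  refine (hP.mem_or_mem h2).resolve_right fun h3 => ?_
  have h4 := h1 _ h3
  rw [show entries (1 : GL n k) = fun ij : n × n => (1 : Matrix n n k) ij.1 ij.2 from rfl,
    aeval_det_gen, det_one] at h4
  exact one_ne_zero h4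

/-- a closed group is a finite union of cosets of its identity component -/
theorem exists_cosets {K : Subgroup (GL n k)} (h : IsZClosed (K : Set (GL n k))) :
    ∃ F : Set (GL n k), F.Finite ∧ F ⊆ K ∧ ∀ x ∈ K, ∃ a ∈ F, a⁻¹ * x ∈ idc K := by
  obtain ⟨F, hF, hF1, hF2⟩ := exists_decomp (K : Set (GL n k))
  have h1 : ∀ C ∈ F, ∃ a, a ∈ C := fun C hC => (hF1 C hC).2.2.1
  choose! r hr using h1
  have h2 : ∀ C ∈ F, C ⊆ K := fun C hC => (hF1 C hC).2.2.2.trans (ZAR.cl_min h le_rfl)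
  refine ⟨r '' F, hF.image r, ?_, fun x hx => ?_⟩
  · rintro _ ⟨C, hC, rfl⟩
    exact h2 C hC (hr C hC)
  · obtain ⟨C, hC, hxC⟩ := hF2 hx
    refine ⟨r C, ⟨C, hC, rfl⟩, subset_idc ?_ (irr_tr (hF1 C hC).1 (r C)⁻¹ 1)
      ⟨r C, hr C hC, by simp⟩ ⟨x, hxC, by simp⟩⟩
    rintro _ ⟨a, ha, rfl⟩
    simpa using K.mul_mem (K.inv_mem (h2 C hC (hr C hC))) (h2 C hC ha)

theorem exists_pow_mem_idc {K : Subgroup (GL n k)} (h : IsZClosed (K : Set (GL n k)))
    {x : GL n k} (hx : x ∈ K) : ∃ N : ℕ, 0 < N ∧ x ^ N ∈ idc K := by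
  obtain ⟨F, hF, -, hF2⟩ := exists_cosets h
  choose r hr1 hr2 using fun j : ℕ => hF2 (x ^ j) (K.pow_mem hx j)
  obtain ⟨a, -, b, -, hab, e⟩ := Set.infinite_univ.exists_lt_map_eq_of_mapsTo
    (f := r) (fun j _ => hr1 j) hF
  refine ⟨b - a, by omega, ?_⟩
  have h1 := (idc K).mul_mem ((idc K).inv_mem (hr2 a)) (hr2 b)
  have e2 : ((r a)⁻¹ * x ^ a)⁻¹ * ((r b)⁻¹ * x ^ b) = x ^ (b - a) := by
    rw [← e, _root_.mul_inv_rev, inv_inv, mul_assoc, mul_inv_cancel_left, inv_mul_eq_iff_eq_mul,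
      ← pow_add, Nat.add_sub_cancel' hab.le]
  rwa [e2] at h1

end Pool.Agent.Lib.MP_3a0263_al.Q
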