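import Pool.Agent.Lib.MP_3a0263_al.Q.ApiZ1

namespace Pool.Agent.Lib.MP_3a0263_al.Q

open Matrix Pool.Agent.Lib.MP_3a0263_al.R

universe u

variable {k : Type u} [Field k] {n : Type} [Fintype n] [DecidableEq n]

theorem dg_mem_Zc (d : n → kˣ) (l : n → ℤ) : dg d ∈ Zc k l :=
  ⟨diagonal_mem_degGE l _, diagonal_mem_degGE (-l) _⟩

theorem conj_mem_Up {l : n → ℤ} {c u : GL n k} (hc : c ∈ Zc k l) (hu : u ∈ Up k l) :
    c * u * c⁻¹ ∈ Up k l := by
  have e : ((c * u * c⁻¹ : GL n k) : Matrix n n k) - 1 =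
      (c : Matrix n n k) * ((u : Matrix n n k) - 1) * ((c⁻¹ : GL n k) : Matrix n n k) := by
    rw [mul_sub, sub_mul, mul_one, Units.mul_inv, Units.val_mul, Units.val_mul]
  rw [mem_Up, e]
  simpa using degGE_mul (degGE_mul hc.1 hu) (inv_mem_degGE hc.1)

theorem nrm_inf_Zc {Ys : Submodule ℤ (n → ℤ)} {K : Subgroup (GL n k)} (h : Nrm Ys K) (l : n → ℤ) :
    Nrm Ys (K ⊓ Zc k l) := fun l' hl s g hg =>
  ⟨h l' hl s g hg.1, (Zc k l).mul_mem ((Zc k l).mul_mem (dg_mem_Zc _ l) hg.2)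
    ((Zc k l).inv_mem (dg_mem_Zc _ l))⟩

theorem nrm_inf_Up {Ys : Submodule ℤ (n → ℤ)} {K : Subgroup (GL n k)} (h : Nrm Ys K) (l : n → ℤ) :
    Nrm Ys (K ⊓ Up k l) := fun l' hl s g hg =>
  ⟨h l' hl s g hg.1, conj_mem_Up (dg_mem_Zc _ l) hg.2⟩

omit [DecidableEq n] in
theorem degGE_eq_zero (l : n → ℤ) :
    ∃ D : ℕ, ∀ r : ℤ, (D : ℤ) ≤ r → ∀ x ∈ degGE k l r, x = 0 := by
  refine ⟨(Finset.univ.sup fun ij : n × n => (l ij.1 - l ij.2).toNat) + 1, fun r hr x hx => ?_⟩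
  ext i j
  refine hx i j ?_
  have h := Finset.le_sup (f := fun ij : n × n => (l ij.1 - l ij.2).toNat) (Finset.mem_univ (i, j))
  simp only at h
  omega

theorem nilp_of_degGE {l : n → ℤ} {x : Matrix n n k} (hx : x ∈ degGE k l 1) : IsNilpotent x := by
  obtain ⟨D, hD⟩ := degGE_eq_zero (k := k) l
  have h : ∀ m : ℕ, x ^ m ∈ degGE k l m := by
    intro m
    induction m with
    | zero => simpa using one_mem_degGE l
    | succ m ih => rw [pow_succ]; exact_mod_cast degGE_mul ih hx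
  exact ⟨D, hD D le_rfl _ (h D)⟩

theorem nilp_of_Up {l : n → ℤ} {u : GL n k} (hu : u ∈ Up k l) :
    IsNilpotent ((u : Matrix n n k) - 1) := nilp_of_degGE hu

theorem contract [Infinite k] {l : n → ℤ} {u : GL n k} (hu : u ∈ Up k l) :
    ∃ S : Set (GL n k), ZAR.Irr S ∧ (1 : GL n k) ∈ S ∧ u ∈ S ∧
      ∀ g ∈ S, g = 1 ∨ ∃ s, g = coch l s * u * (coch l s)⁻¹ := by
  let N : k → Matrix n n k := fun z =>
    Matrix.of fun i j => z ^ (l i - l j).toNat * ((u : Matrix n n k) - 1) i j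
  have hN : ∀ z, IsUnit (N z + 1) := fun z =>
    (nilp_of_degGE (l := l) fun i j h => by simp only [N, of_apply, hu i j h, mul_zero]).isUnit_add_one
  have h0 : (hN 0).unit = 1 := by
    refine Units.ext ?_
    rw [IsUnit.unit_spec, Units.val_one, add_eq_right]
    ext i j
    by_cases h : l i - l j < 1
    · simp only [N, of_apply, hu i j h, mul_zero, Matrix.zero_apply]
    · simp only [N, of_apply, Matrix.zero_apply]
      rw [zero_pow (by omega), zero_mul]
  have hs : ∀ s : kˣ, (hN s).unit = coch l s * u * (coch l s)⁻¹ := by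
    intro s
    refine Units.ext ?_
    have e : ((coch l s * u * (coch l s)⁻¹ : GL n k) : Matrix n n k) =
        (coch l s : GL n k) * ((u : Matrix n n k) - 1) * ((coch l s)⁻¹ : GL n k) + 1 := by
      rw [mul_sub, sub_mul, mul_one, Units.mul_inv, Units.val_mul, Units.val_mul, sub_add_cancel]
    rw [IsUnit.unit_spec, e, add_left_inj]
    ext i j
    rw [coch_conj]
    by_cases h : l i - l j < 1
    · simp only [N, of_apply, hu i j h, mul_zero]
    · simp only [N, of_apply]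
      rw [← Units.val_pow_eq_pow_val, ← zpow_natCast, Int.toNat_of_nonneg (by omega)]
  refine ⟨Set.range fun z => (hN z).unit, irr_curve _ (Matrix.of fun i j =>
    Polynomial.X ^ (l i - l j).toNat * Polynomial.C (((u : Matrix n n k) - 1) i j)
      + Polynomial.C ((1 : Matrix n n k) i j)) fun z => ?_, ⟨0, h0⟩, ⟨1, ?_⟩, ?_⟩
  · ext i j
    simp only [IsUnit.unit_spec, N, Matrix.add_apply, of_apply, map_apply, Polynomial.eval_add,
      Polynomial.eval_mul, Polynomial.eval_pow, Polynomial.eval_X, Polynomial.eval_C]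
  · refine Units.ext ?_
    ext i j
    simp [N]
  · rintro _ ⟨z, rfl⟩
    by_cases hz : z = 0
    · exact Or.inl (hz ▸ h0)
    · exact Or.inr ⟨Units.mk0 z hz, hs (Units.mk0 z hz)⟩

theorem mem_idc_of_Up [Infinite k] {K : Subgroup (GL n k)} {l : n → ℤ} {u : GL n k}
    (hu : u ∈ Up k l) (h : ∀ s, coch l s * u * (coch l s)⁻¹ ∈ K) : u ∈ idc K := by
  obtain ⟨S, h1, h2, h3, h4⟩ := contract hu
  refine subset_idc (fun g hg => ?_) h1 h2 h3
  rcases h4 g hg with rfl | ⟨s, rfl⟩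
  · exact K.one_mem
  · exact h s

theorem nilp_pow_card {m : Type} [Fintype m] [DecidableEq m] {x : Matrix m m k}
    (h : IsNilpotent x) : x ^ Fintype.card m = 0 := by
  have h1 := sub_eq_zero.1 (Matrix.isNilpotent_charpoly_sub_pow_of_isNilpotent h).eq_zero
  have h2 := Matrix.aeval_self_charpoly x
  rwa [h1, map_pow, Polynomial.aeval_X] at h2

theorem nilp_iff_pow (p : ℕ) [Fact p.Prime] [CharP k p] {m : Type} [Fintype m] [DecidableEq m] :
    ∃ N : ℕ, ∀ x : Matrix m m k, IsNilpotent (x - 1) ↔ x ^ p ^ N = 1 := by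
  refine ⟨Fintype.card m, fun x => ?_⟩
  cases isEmpty_or_nonempty m
  · exact ⟨fun _ => Subsingleton.elim _ _, fun _ => ⟨0, Subsingleton.elim _ _⟩⟩
  have e := sub_pow_char_pow_of_commute p (Fintype.card m) (Commute.one_right x)
  rw [one_pow] at e
  refine ⟨fun h => sub_eq_zero.1 (e ▸ ?_), fun h => ⟨_, e.trans (sub_eq_zero.2 h)⟩⟩
  exact pow_eq_zero_of_le (Nat.lt_pow_self (Fact.out : p.Prime).one_lt).le (nilp_pow_card h)

theorem NilId.nilp {H : Subgroup (GL n k)} {I : Submodule k (Matrix n n k)} (h : NilId H I)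
    {x : Matrix n n k} (hx : x ∈ I) : IsNilpotent x := by
  obtain ⟨N, hN⟩ := h.nil
  have := Submodule.pow_mem_pow I hx (N + 1)
  rw [hN] at this
  exact ⟨N + 1, this⟩

theorem tri_unip (p : ℕ) [Fact p.Prime] [CharP k p] {H : Subgroup (GL n k)} (h : Tri H) :
    ∃ U : Subgroup (GL n k), ∀ x, x ∈ U ↔ x ∈ H ∧ IsNilpotent ((x : Matrix n n k) - 1) := by
  obtain ⟨I, hI, hc⟩ := h
  obtain ⟨N, hN⟩ := nilp_iff_pow (k := k) p (m := n)
  have key : ∀ g ∈ H, ∀ h ∈ H, ∀ m : ℕ, ((g : Matrix n n k) * h) ^ m - g ^ m * h ^ m ∈ I := by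
    intro g hg h hh m
    induction m with
    | zero => simp
    | succ m ih =>
      have a := hI.right _ (H.mul_mem hg hh) _ ih
      have b := hI.left _ (H.pow_mem hg m) _ (hI.right _ hh _ (hc _ (H.pow_mem hh m) _ hg))
      have e : ((g : Matrix n n k) * h) ^ (m + 1) - g ^ (m + 1) * h ^ (m + 1) =
          (((g : Matrix n n k) * h) ^ m - g ^ m * h ^ m) * (g * h) +
          (g : Matrix n n k) ^ m * (((h : Matrix n n k) ^ m * g - g * h ^ m) * h) := by
        simp only [pow_succ]; noncomm_ring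
      rw [e]
      exact add_mem a b
  refine ⟨⟨⟨⟨{x | x ∈ H ∧ IsNilpotent ((x : Matrix n n k) - 1)}, ?_⟩, H.one_mem, by simp⟩, ?_⟩,
    fun x => Iff.rfl⟩
  · rintro g h ⟨hg, ng⟩ ⟨hh, nh⟩
    refine ⟨H.mul_mem hg hh, ?_⟩
    have a := key g hg h hh (p ^ N)
    rw [(hN _).1 ng, (hN _).1 nh, mul_one] at a
    have b := (hN _).1 (hI.nilp a)
    cases isEmpty_or_nonempty n
    · exact ⟨0, Subsingleton.elim _ _⟩
    have e := sub_pow_char_pow_of_commute p (N + N) (Commute.one_right ((g : Matrix n n k) * h))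
    rw [one_pow] at e
    exact ⟨_, e.trans (by rw [pow_add, pow_mul, b, sub_self])⟩
  · rintro g ⟨hg, ng⟩
    refine ⟨H.inv_mem hg, (hN _).2 ?_⟩
    have a : g ^ p ^ N = 1 := Units.ext (by rw [Units.val_pow_eq_pow_val]; exact (hN _).1 ng)
    rw [← Units.val_pow_eq_pow_val, inv_pow, a, inv_one, Units.val_one]

theorem closed_unip : IsZClosed {x : GL n k | IsNilpotent ((x : Matrix n n k) - 1)} := by
  have e : {x : GL n k | IsNilpotent ((x : Matrix n n k) - 1)} =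
      {x : GL n k | ((x : Matrix n n k) - 1) ^ Fintype.card n = 0} :=
    Set.ext fun x => ⟨nilp_pow_card, fun h => ⟨_, h⟩⟩
  rw [e]
  exact closed_eq ((RegM.id.sub (RegM.const 1)).pow _) (RegM.const 0)

theorem mem_spanG {H : Subgroup (GL n k)} {h : GL n k} (hh : h ∈ H) :
    (h : Matrix n n k) ∈ spanG H := Submodule.subset_span ⟨h, hh, rfl⟩

theorem spanG_mul {H : Subgroup (GL n k)} {x y : Matrix n n k} (hx : x ∈ spanG H)
    (hy : y ∈ spanG H) : x * y ∈ spanG H := by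
  have := Submodule.mul_mem_mul hx hy
  rw [spanG, Submodule.span_mul_span] at this
  refine Submodule.span_mono ?_ this
  rintro _ ⟨_, ⟨a, ha, rfl⟩, _, ⟨b, hb, rfl⟩, rfl⟩
  exact ⟨a * b, H.mul_mem ha hb, rfl⟩

theorem Tri.mono {H H' : Subgroup (GL n k)} (h : Tri H) (hle : H' ≤ H) : Tri H' := by
  obtain ⟨I, hI, hc⟩ := h
  obtain ⟨N, hN⟩ := hI.nil
  refine ⟨I ⊓ spanG H', ⟨inf_le_right, fun g hg x hx => ⟨hI.left g (hle hg) x hx.1,
    spanG_mul (mem_spanG hg) hx.2⟩, fun g hg x hx => ⟨hI.right g (hle hg) x hx.1,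
    spanG_mul hx.2 (mem_spanG hg)⟩, N, le_bot_iff.1 (hN ▸ pow_le_pow_left' inf_le_left _)⟩,
    fun g hg h hh => ⟨hc g (hle hg) h (hle hh), sub_mem (spanG_mul (mem_spanG hg) (mem_spanG hh))
      (spanG_mul (mem_spanG hh) (mem_spanG hg))⟩⟩

end Pool.Agent.Lib.MP_3a0263_al.Q
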