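import Pool.Agent.Lib.MP_3a0263_al.R.Defs
import Pool.Agent.Lib.MP_3a0263_al.ScalarDefs

namespace Pool.Agent.Lib.MP_3a0263_al.Q

open LieAlgebra.SpecialLinear Pool.Agent.Lib.MP_3a0263_al.R

attribute [local instance 100] LieRing.ofAssociativeRing

universe u

/-- Membership in the class `C` of the problem: `g` is isomorphic to the Lie algebra of a connected
reductive group for which `p` is good (compatibly with the `p`-maps when `g` has no centre, so that
its `p`-map is determined by `ad`), and `g` is not isomorphic to `sl_{sp} / k I`. -/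
def InClassC (k : Type u) [Field k] (p : ℕ) (g : Type u) [LieRing g] [LieAlgebra k g] : Prop :=
  (∃ (n : Type) (_ : Fintype n) (_ : DecidableEq n) (G : Subgroup (GL n k))
    (r : g →ₗ⁅k⁆ Matrix n n k), IsReductive G ∧ IsGood p G ∧ Function.Injective r ∧
      Set.range r = lie G ∧ (LieAlgebra.center k g = ⊥ → ∀ x y : g,
        LieAlgebra.ad k g y = LieAlgebra.ad k g x ^ p → r y = r x ^ p)) ∧
  ∀ s : ℕ, 1 ≤ s → IsEmpty (g ≃ₗ⁅k⁆ (sl (Fin (s * p)) k ⧸ scalarIdeal k (s * p)))

end Pool.Agent.Lib.MP_3a0263_al.Q
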