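import Pool.Agent.Lib.MP_3a0263_al.Q.Iface
import Pool.Agent.Lib.MP_3a0263_al.R.Final

namespace Pool.Agent.Lib.MP_3a0263_al.Q

open Matrix Pool.Agent.Lib.MP_3a0263_al.R

attribute [local instance 100] LieRing.ofAssociativeRing

universe u

variable {k : Type u} [Field k] {p : ℕ}

theorem rich_of_equiv {g g' : Type u} [LieRing g] [LieAlgebra k g] [LieRing g'] [LieAlgebra k g']
    (e : g ≃ₗ⁅k⁆ g') (h : HasRichardson k g') : HasRichardson k g := by
  obtain ⟨Y, _, _, _, _, hfd, hf, hi, R, hc, hR⟩ := h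
  let _ : LieRingModule g Y := LieRingModule.compLieHom Y e.toLieHom
  have : LieModule k g Y := LieModule.compLieHom Y e.toLieHom
  have he : ∀ x : g, LieModule.toEnd k g Y x = LieModule.toEnd k g' Y (e x) := fun x => rfl
  refine ⟨Y, inferInstance, inferInstance, inferInstance, inferInstance, hfd, ⟨fun x y hxy => ?_⟩,
    ?_, R, ?_, fun x r hr => ?_⟩
  · rw [he, he] at hxy
    exact e.injective (hf.injective_toEnd hxy)
  · have := LieModule.nontrivial_of_isIrreducible k g' Y
    refine LieModule.IsIrreducible.mk fun N hN => ?_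
    let N' : LieSubmodule k g' Y :=
      { N.toSubmodule with
        lie_mem := fun {x m} hm => by
          obtain ⟨y, rfl⟩ := e.surjective x
          exact N.lie_mem (x := y) hm }
    rcases hi.eq_bot_or_eq_top N' with h1 | h1
    · exact absurd (LieSubmodule.ext N ⊥ fun m => SetLike.ext_iff.1 h1 m) hN
    · exact LieSubmodule.ext N ⊤ fun m => SetLike.ext_iff.1 h1 m
  · have : LinearMap.range (LieModule.toEnd k g Y : g →ₗ[k] Module.End k Y) =
        LinearMap.range (LieModule.toEnd k g' Y : g' →ₗ[k] Module.End k Y) := by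
      ext f
      refine ⟨fun ⟨x, hx⟩ => ⟨e x, hx⟩, fun ⟨x, hx⟩ => ?_⟩
      obtain ⟨y, rfl⟩ := e.surjective x
      exact ⟨y, hx⟩
    rw [this]; exact hc
  · rw [he]; exact hR _ r hr

/-- conjugation as a homomorphism of Lie algebras -/
noncomputable def cjL {n : Type} [Fintype n] [DecidableEq n] (P : GL n k) :
    Matrix n n k →ₗ⁅k⁆ Matrix n n k where
  toFun x := ((P⁻¹ : GL n k) : Matrix n n k) * x * (P : Matrix n n k)
  map_add' x y := by rw [mul_add, add_mul]
  map_smul' c x := by simp
  map_lie' := fun {x y} => by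
    have h : ∀ a b : Matrix n n k, ((P⁻¹ : GL n k) : Matrix n n k) * a * (P : Matrix n n k) *
        (((P⁻¹ : GL n k) : Matrix n n k) * b * (P : Matrix n n k)) =
        ((P⁻¹ : GL n k) : Matrix n n k) * (a * b) * (P : Matrix n n k) := fun a b => by
      simp only [mul_assoc, Units.mul_inv_cancel_left]
    simp only [Ring.lie_def, h, mul_sub, sub_mul]

theorem exists_croot (hg : S_group k p) {g : Type u} [LieRing g] [LieAlgebra k g] {n : Type}
    [Fintype n] [DecidableEq n] {G : Subgroup (GL n k)} (r : g →ₗ⁅k⁆ Matrix n n k)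
    (h1 : IsReductive G) (h2 : IsGood p G) (h3 : Function.Injective r) (h4 : Set.range r = lie G) :
    ∃ (L : LieSubalgebra k (Matrix n n k)) (_ : g ≃ₗ⁅k⁆ L) (Φ : Type u) (_ : Fintype Φ)
      (R : CRoot p L Φ), R.toComb.Good p := by
  obtain ⟨P, hP⟩ := hg n G h1 h2
  have h5 : ∀ x : Matrix n n k, (P : Matrix n n k) * cjL P x * ((P⁻¹ : GL n k) : Matrix n n k) =
      x := fun x => by
    show (P : Matrix n n k) * (((P⁻¹ : GL n k) : Matrix n n k) * x * (P : Matrix n n k)) * _ = x
    simp only [mul_assoc, Units.mul_inv_cancel_left, Units.mul_inv, mul_one]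
  have h6 : Function.Injective ((cjL P).comp r) := fun x y e => h3 (by
    rw [← h5 (r x), ← h5 (r y)]
    exact congrArg (fun z => (P : Matrix n n k) * z * ((P⁻¹ : GL n k) : Matrix n n k)) e)
  obtain ⟨Φ, _, R, hR⟩ := hP ((cjL P).comp r).range fun x => by
    rw [← h4]
    refine ⟨?_, ?_⟩
    · rintro ⟨y, rfl⟩
      exact ⟨y, (h5 (r y)).symm⟩
    · rintro ⟨y, hy⟩
      refine ⟨y, ?_⟩
      show ((P⁻¹ : GL n k) : Matrix n n k) * r y * (P : Matrix n n k) = x
      rw [hy]
      simp only [mul_assoc, Units.inv_mul_cancel_left, Units.inv_mul, mul_one]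
  exact ⟨_, LieEquiv.ofInjective _ h6, Φ, inferInstance, R, hR⟩

theorem rich_of_lie (hg : S_group k p) (ht : S_trace k p) {g : Type u} [LieRing g] [LieAlgebra k g]
    (hs : LieAlgebra.IsSimple k g) {n : Type} [Fintype n] [DecidableEq n] {G : Subgroup (GL n k)}
    (r : g →ₗ⁅k⁆ Matrix n n k) (h1 : IsReductive G) (h2 : IsGood p G) (h3 : Function.Injective r)
    (h4 : Set.range r = lie G) : HasRichardson k g := by
  obtain ⟨L, e, Φ, _, R, hR⟩ := exists_croot hg r h1 h2 h3 h4
  exact rich_of_equiv e (ht n L Φ R hR (isSimple_of_equiv e hs))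

theorem CRoot.three_le {n : Type} [Fintype n] [DecidableEq n] {L : LieSubalgebra k (Matrix n n k)}
    {Φ : Type u} [Fintype Φ] (R : CRoot p L Φ) {x y : Matrix n n k} (hx : x ∈ L) (hy : y ∈ L)
    (h : ⁅x, y⁆ ≠ 0) : 3 ≤ Module.finrank k L := by
  classical
  obtain ⟨β⟩ : Nonempty Φ := by
    by_contra hn
    have := not_nonempty_iff.1 hn
    apply h
    rw [R.decomp x hx, R.decomp y hy]
    simp [Ring.lie_def, diagonal_mul_diagonal, mul_comm]
  have hΔ : R.Δ.Nonempty := by
    by_contra hn
    have h2 := R.two β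
    rw [R.lin, Finset.not_nonempty_iff_eq_empty.1 hn] at h2
    simp at h2
  have hne : β ≠ R.neg β := fun e => by
    have h2 := R.two β
    rw [R.lin, Finset.sum_eq_zero] at h2
    · simp at h2
    · intro i hi
      have h3 := R.co_neg β i hi
      rw [← e] at h3
      rw [show R.co β i = 0 by omega, zero_mul]
  have : Nontrivial R.t := Module.nontrivial_of_finrank_pos (R := k)
    (lt_of_lt_of_le hΔ.card_pos R.dim)
  obtain ⟨d, hd⟩ := exists_ne (0 : R.t)
  let v : Fin 3 → L := ![⟨_, R.t_mem d⟩, ⟨_, R.e_mem β⟩, ⟨_, R.e_mem (R.neg β)⟩]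
  have hv : LinearIndependent k v := by
    rw [Fintype.linearIndependent_iff]
    intro c hc
    have h0 : c 0 • diagonal d.1 + c 1 • R.e β + c 2 • R.e (R.neg β) = 0 := by
      have := congrArg Subtype.val hc
      simpa [Fin.sum_univ_three, v] using this
    have h1 := congrArg R.tp h0
    have h2 := congrArg (R.cf β) h0
    have h3 := congrArg (R.cf (R.neg β)) h0
    simp only [map_add, map_smul, map_zero, R.tp_t, R.tp_e, R.cf_t, R.cf_self, R.cf_ne _ _ hne,
      R.cf_ne _ _ hne.symm, smul_zero, add_zero, zero_add, smul_eq_mul, mul_one, mul_zero,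
      smul_eq_zero, hd, or_false] at h1 h2 h3
    intro i
    fin_cases i
    exacts [h1, h2, h3]
  simpa using hv.fintype_card_le_finrank

end Pool.Agent.Lib.MP_3a0263_al.Q
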