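import Pool.Agent.Lib.MP_3a0263_al.Q.Conv
import Pool.Agent.Lib.MP_3a0263_al.R.B_EX2

namespace Pool.Agent.Lib.MP_3a0263_al.Q

open Matrix Pool.Agent.Lib.MP_3a0263_al.R

attribute [local instance 100] LieRing.ofAssociativeRing

universe u

/-- the two by two matrices with second row zero -/
def row1 (k : Type u) [Field k] : LieSubalgebra k (Matrix (Fin 2) (Fin 2) k) where
  carrier := {x | x 1 0 = 0 ∧ x 1 1 = 0}
  zero_mem' := ⟨rfl, rfl⟩
  add_mem' := fun {x y} hx hy => ⟨by simp [hx.1, hy.1], by simp [hx.2, hy.2]⟩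
  smul_mem' := fun c x hx => ⟨by simp [hx.1], by simp [hx.2]⟩
  lie_mem' := fun {x y} hx hy =>
    ⟨by simp [Ring.lie_def, Matrix.mul_apply, hx.1, hy.1, hx.2, hy.2],
      by simp [Ring.lie_def, Matrix.mul_apply, hx.1, hy.1, hx.2, hy.2]⟩

variable {k : Type u} [Field k]

theorem row1_sq {x : Matrix (Fin 2) (Fin 2) k} (hx : x ∈ row1 k) : x ^ 2 ∈ row1 k :=
  ⟨by simp [pow_two, Matrix.mul_apply, hx.1, hx.2], by simp [pow_two, Matrix.mul_apply, hx.1, hx.2]⟩

theorem finrank_row1 : Module.finrank k (row1 k) = 2 := by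
  let φ : row1 k →ₗ[k] Fin 2 → k :=
    { toFun := fun x => x.1 0
      map_add' := fun _ _ => rfl
      map_smul' := fun _ _ => rfl }
  have h : Function.Bijective φ := by
    refine ⟨fun x y e => Subtype.ext ?_, fun v => ⟨⟨Matrix.of ![v, 0], rfl, rfl⟩, rfl⟩⟩
    ext i j
    fin_cases i
    · exact congrFun e j
    · fin_cases j
      · exact x.2.1.trans y.2.1.symm
      · exact x.2.2.trans y.2.2.symm
  simpa using (LinearEquiv.ofBijective φ h).finrank_eq

/-- the toral element -/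
def hh (k : Type u) [Field k] : row1 k := ⟨!![1, 0; 0, 0], rfl, rfl⟩

/-- the nilpotent element -/
def ee (k : Type u) [Field k] : row1 k := ⟨!![0, 1; 0, 0], rfl, rfl⟩

theorem ee_ne : ee k ≠ 0 := fun e => by
  have : (ee k).1 0 1 = 0 := by rw [e]; rfl
  exact one_ne_zero this

theorem lie_hh_ee : ⁅hh k, ee k⁆ = ee k := Subtype.ext (by
  show ⁅(hh k).1, (ee k).1⁆ = (ee k).1
  ext i j
  fin_cases i <;> fin_cases j <;> simp [hh, ee, Ring.lie_def])

theorem row1_not_lie {p : ℕ} (hg : S_group k p) {n : Type} [Fintype n] [DecidableEq n]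
    {G : Subgroup (GL n k)} (r : row1 k →ₗ⁅k⁆ Matrix n n k) (h1 : IsReductive G) (h2 : IsGood p G)
    (h3 : Function.Injective r) (h4 : Set.range r = lie G) : False := by
  obtain ⟨L, e, Φ, _, R, -⟩ := exists_croot hg r h1 h2 h3 h4
  have h5 := R.three_le (e (hh k)).2 (e (ee k)).2 fun h => ee_ne (k := k) (e.injective (by
    rw [← lie_hh_ee, LieHom.map_lie, map_zero]; exact Subtype.ext h))
  rw [← e.toLinearEquiv.finrank_eq, finrank_row1] at h5
  omega

theorem row1_rich [IsAlgClosed k] [CharP k 2] : HasRichardson k (row1 k) :=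
  st_ex2 k 2 rfl (row1 k) (hh k) (ee k) finrank_row1 ee_ne lie_hh_ee

end Pool.Agent.Lib.MP_3a0263_al.Q
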