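import Pool.Agent.Lib.MP_3a0263_al.Q.GDefs

namespace Pool.Agent.Lib.MP_3a0263_al.Q

open Matrix Pool.Agent.Lib.MP_3a0263_al.R

attribute [local instance 100] LieRing.ofAssociativeRing

universe u

section Structures

variable {k : Type u} [Field k] {n : Type} [Fintype n] [DecidableEq n]

/-- group level facts on a diagonal torus -/
structure TorA (T : Subgroup (GL n k)) : Prop where
  gen : ∀ P : Subgroup (GL n k), (∀ (l : Y T) (s : kˣ), coch l.1 s ∈ P) → T ≤ P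
  div : ∀ m : ℕ, m ≠ 0 → ∀ t ∈ T, ∃ t' ∈ T, t' ^ m = t
  rel : ∀ c : n → ℤ, (∀ l : Y T, ∑ i, c i * l.1 i = 0) → ∀ d, dg d ∈ T → ∏ i, d i ^ c i = 1
  eq : ∀ i j, eps (Y T) i = eps (Y T) j → ∀ d, dg d ∈ T → d i = d j
  wt : ∀ (b : XX (Y T)) (x : Matrix n n k), Wt b x → ∀ t ∈ T, ∃ c : k,
    (t : Matrix n n k) * x * ((t⁻¹ : GL n k) : Matrix n n k) = c • x
  wt0 : ∀ x : Matrix n n k, Wt (0 : XX (Y T)) x → ∀ t ∈ T, (t : Matrix n n k) * x = x * t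

/-- Lie algebra level facts on a diagonal torus -/
structure TorB (T : Subgroup (GL n k)) : Prop where
  diag : ∀ x ∈ lie T, ∃ d ∈ tl T, x = diagonal d
  rel : ∀ c : n → ℤ, (∀ l : Y T, ∑ i, c i * l.1 i = 0) → ∀ d ∈ tl T, ∑ i, (c i : k) * d i = 0
  dim : Module.finrank ℤ (Y T) ≤ Module.finrank k (tl T)

/-- the action of the normaliser of a diagonal torus -/
structure TorC (T : Subgroup (GL n k)) : Prop where
  norm : ∀ g : GL n k, (∀ t, t ∈ T ↔ g * t * g⁻¹ ∈ T) → ∃ w, Act T g w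
  gen : ∀ g w, Act T g w → ∀ l : Y T, Gen l → Gen (w l)
  wt : ∀ g w, Act T g w → ∀ (a : XX (Y T)) (x : Matrix n n k), Wt a x →
    Wt (a ∘ₗ w.symm.toLinearMap) ((g : Matrix n n k) * x * ((g⁻¹ : GL n k) : Matrix n n k))
  tl : ∀ g w, Act T g w → ∀ d ∈ tl T, ∃ d' ∈ tl T,
    (g : Matrix n n k) * diagonal d * ((g⁻¹ : GL n k) : Matrix n n k) = diagonal d' ∧
    ∀ i j i' j', (eps (Y T) i - eps (Y T) j) ∘ₗ w.toLinearMap = eps (Y T) i' - eps (Y T) j' →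
      d' i - d' j = d i' - d j'

/-- the adjoint action of a one parameter subgroup -/
structure AdF {G : Subgroup (GL n k)} {Ys : Submodule ℤ (n → ℤ)} {α : XX Ys} {e : Matrix n n k}
    (C : Curve G α e) : Prop where
  conj : ∀ z y, (C.x z : Matrix n n k) * y * (((C.x z)⁻¹ : GL n k) : Matrix n n k) =
    ∑ r ∈ Finset.range (2 * C.N), z ^ r • C.D r y
  mem : ∀ r, ∀ y ∈ lie G, C.D r y ∈ lie G
  wt : ∀ (r : ℕ) (b : XX Ys) (y : Matrix n n k), Wt b y → Wt (b + r • α) (C.D r y)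
  zero : ∀ y, C.D 0 y = y
  one : ∀ y, C.D 1 y = e * y - y * e
  succ : ∀ (r : ℕ) y, C.D 1 (C.D r y) = ((r + 1 : ℕ) : k) • C.D (r + 1) y
  lin : ∀ r, ∃ φ : Matrix n n k →ₗ[k] Matrix n n k, ∀ y, φ y = C.D r y

/-- the maximal ideal of the origin -/
noncomputable abbrev mm (k : Type u) [Field k] (d : ℕ) : Ideal (MvPolynomial (Fin d) k) :=
  MvPolynomial.idealOfVars (Fin d) k

/-- evaluation of a polynomial in the matrix entries -/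
noncomputable abbrev evx {R : Type u} [CommRing R] [Algebra k R] (x : Matrix n n R)
    (f : MvPolynomial (n × n) k) : R := MvPolynomial.aeval (fun ij : n × n => x ij.1 ij.2) f

/-- the combinatorial data read off the roots -/
structure CombF (p : ℕ) {G T : Subgroup (GL n k)} {Φ : Type u} [Fintype Φ] (val : Φ → XX (Y T))
    (P : ∀ a : Φ, Pack G T (val a)) (C : Comb Φ) : Prop where
  co : ∀ β, val β = ∑ i ∈ C.Δ, C.co β i • val i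
  indep : ∀ c : Φ → ℤ, ∑ i ∈ C.Δ, c i • val i = 0 → ∀ i ∈ C.Δ, c i = 0
  neg : ∀ β, val (C.neg β) = - val β
  s : ∀ α β, val (C.s α β) = val β - C.m α β • val α
  w : ∀ α β, val β ∘ₗ (P α).w.toLinearMap = val β - C.m α β • val α
  good : C.Good p
  card : C.Δ.card ≤ Module.finrank ℤ (Y T)

end Structures

variable (k : Type u) [Field k] (p : ℕ) (n : Type) [Fintype n] [DecidableEq n]

/-! ### tori -/

def S_lat1 : Prop :=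
  ∀ Λ : Submodule ℤ (n → ℤ), (∀ (m : ℤ) (χ : n → ℤ), m ≠ 0 → m • χ ∈ Λ → χ ∈ Λ) →
    ∀ d : n → kˣ, (∀ χ ∈ Λ, ∏ i, d i ^ χ i = 1) → ∀ P : Subgroup (GL n k),
      (∀ l : n → ℤ, (∀ χ ∈ Λ, ∑ i, χ i * l i = 0) → ∀ s, coch l s ∈ P) → dg d ∈ P

def S_lat2 : Prop :=
  ∀ (D : ℕ) (K : Subgroup (GL n k)) (F : Set (MvPolynomial (n × n) k)),
    (∀ f ∈ F, f.totalDegree ≤ D) →
    (∀ g, g ∈ K ↔ ∀ f ∈ F, MvPolynomial.aeval (entries g) f = 0) → ∀ d : n → kˣ,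
      (∀ χ : n → ℤ, (∀ i, |χ i| ≤ D) → (∀ d' : n → kˣ, dg d' ∈ K → ∏ i, d' i ^ χ i = 1) →
        ∏ i, d i ^ χ i = 1) → dg d ∈ K

def S_lat3 : Prop :=
  ∀ D : ℕ, ∃ e : ℕ, e ≠ 0 ∧ ∀ (K : Subgroup (GL n k)) (F : Set (MvPolynomial (n × n) k)),
    (∀ f ∈ F, f.totalDegree ≤ D) →
    (∀ g, g ∈ K ↔ ∀ f ∈ F, MvPolynomial.aeval (entries g) f = 0) →
    ∃ T : Subgroup (GL n k), T ≤ K ∧ IsTorus T ∧ IsDiagG T ∧ (∀ d, dg d ∈ K → dg d ^ e ∈ T) ∧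
      (∀ S : Subgroup (GL n k), S ≤ K → IsDiagG S → IsConnAlg S → S ≤ T) ∧
      ∀ P : Subgroup (GL n k), (∀ (l : Y T) (s : kˣ), coch l.1 s ∈ P) → T ≤ P

def S_ta : Prop := ∀ T : Subgroup (GL n k), IsTorus T → IsDiagG T → TorA T

def S_tb : Prop := ∀ T : Subgroup (GL n k), IsTorus T → IsDiagG T → TorB T

def S_tc : Prop := ∀ T : Subgroup (GL n k), IsTorus T → IsDiagG T → TorC T

def S_tt : Prop :=
  ∀ H T T' : Subgroup (GL n k), IsZClosed (H : Set (GL n k)) → IsMaxTorus H T → IsMaxTorus H T' →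
    (∀ t ∈ T, ∀ t' ∈ T', t * t' = t' * t) → T' = T

def S_tp : Prop :=
  ∀ H T : Subgroup (GL n k), IsZClosed (H : Set (GL n k)) → IsMaxTorus H T →
    ∃ m : ℕ, m ≠ 0 ∧ ∀ h ∈ H, (∀ t ∈ T, t * h = h * t) → h ^ m ∈ T

def S_tors : Prop :=
  ∀ T : Subgroup (GL n k), IsTorus T →
    (∀ m : ℕ, m ≠ 0 → {t | t ∈ T ∧ t ^ m = 1}.Finite) ∧
    ∀ q : ℕ, q.Prime → q ≠ p → ∀ x : GL n k,
      (∀ j : ℕ, ∀ t ∈ T, t ^ q ^ j = 1 → t * x = x * t) → ∀ t ∈ T, t * x = x * t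

/-! ### representations, the triangular case -/

def S_rep : Prop :=
  ∀ H T : Subgroup (GL n k), T ≤ H → IsDiagG T → ∃ I, NilId H I ∧
    ∀ x ∈ spanG H, (∀ R : IRep H T, R.ρ x = 0) → x ∈ I

def S_tri : Prop :=
  ∀ H T : Subgroup (GL n k), T ≤ H → IsDiagG T → (∀ R : IRep H T, ¬ 1 < R.m) → Tri H

def S_ker : Prop :=
  ∀ G T : Subgroup (GL n k), IsReductive G → T ≤ G → IsDiagG T → ∀ S : Set (GL n k), S ⊆ G →
    ZAR.Irr S → (1 : GL n k) ∈ S → (∀ R : IRep G T, ∀ g ∈ S, R.ρ (g : Matrix n n k) = 1) →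
    ∀ g ∈ S, g = 1

def S_syl : Prop :=
  ∀ H E E' : Subgroup (GL n k), Tri H → E ≤ H → E' ≤ H → (E : Set (GL n k)).Finite →
    (E' : Set (GL n k)).Finite → ∀ q j : ℕ, q.Prime → q ≠ p → (∀ x ∈ E, x ^ q ^ j = 1) →
    (∀ x ∈ E', x ^ q ^ j = 1) →
    ∃ h ∈ H, ∀ x ∈ E, ∀ y ∈ E', x * (h * y * h⁻¹) = h * y * h⁻¹ * x

def S_conj0 : Prop :=
  ∀ H T T' : Subgroup (GL n k), IsZClosed (H : Set (GL n k)) → Tri H → IsMaxTorus H T →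
    IsMaxTorus H T' → ∃ h ∈ H, cjs h T' = T

/-! ### formal charts and the big cell -/

def S_sm : Prop :=
  ∀ H : Subgroup (GL n k), IsConnAlg H → ∀ (R : Type u) [CommRing R] [Algebra k R] (J : Ideal R)
    (N : ℕ), 1 ≤ N → ∀ x : Matrix n n R, PtMod (H : Set (GL n k)) (J ^ N) x → Cong J x 1 →
    ∃ x' : Matrix n n R, PtMod (H : Set (GL n k)) (J ^ (N + 1)) x' ∧ Cong (J ^ N) x' x

def S_fr : Prop :=
  ∀ (H : Subgroup (GL n k)) (Ys : Submodule ℤ (n → ℤ)), Nrm Ys H → Nonempty (Fr H Ys)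

def S_uniq : Prop :=
  ∀ (H : Subgroup (GL n k)) (Ys : Submodule ℤ (n → ℤ)) (F : Fr H Ys) (R : Type u) [CommRing R]
    [Algebra k R] (J : Ideal R) (N : ℕ) (x x' : Matrix n n R),
    PtMod (H : Set (GL n k)) (J ^ N) x → PtMod (H : Set (GL n k)) (J ^ N) x' → Cong J x 1 →
    Cong J x' 1 → (∀ i, lf (F.c i) (x - x') ∈ J ^ N) → Cong (J ^ N) x x'

def S_ch0 : Prop :=
  ∀ (H : Subgroup (GL n k)) (Ys : Submodule ℤ (n → ℤ)) (F : Fr H Ys), IsConnAlg H → ∀ N : ℕ,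
    ∃ g : Matrix n n (MvPolynomial (Fin F.d) k), PtMod (H : Set (GL n k)) (mm k F.d ^ N) g ∧
      Cong (mm k F.d) g 1 ∧ ∀ i, lf (F.c i) (g - 1) - MvPolynomial.X i ∈ mm k F.d ^ N

def S_ch1 : Prop :=
  ∀ (H : Subgroup (GL n k)) (Ys : Submodule ℤ (n → ℤ)) (F : Fr H Ys), IsConnAlg H → Nrm Ys H →
    ∀ N : ℕ, ∃ g, IsFC F N g

def S_fcu : Prop :=
  ∀ (H : Subgroup (GL n k)) (Ys : Submodule ℤ (n → ℤ)) (F : Fr H Ys),
    (∀ N N' g g', IsFC F N g → IsFC F N' g' → N ≤ N' → Cong (mm k F.d ^ N) g g') ∧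
    (∀ N g, IsFC F N g → ∀ i j, (g i j).coeff 0 = (1 : Matrix n n k) i j) ∧
    (∀ N g, IsFC F N g → 2 ≤ N → ∀ v i j, (g i j).coeff (Finsupp.single v 1) = F.y v i j) ∧
    ∀ N g, IsFC F N g → 2 ≤ N → ∀ (κ : Set (Fin F.d)) [DecidablePred (· ∈ κ)],
      Cong (mm k F.d ^ 2) (kill κ g) (1 + ∑ v ∈ Finset.univ.filter (· ∈ κ),
        (MvPolynomial.X v : MvPolynomial (Fin F.d) k) • (F.y v).map MvPolynomial.C)

def S_d1a : Prop :=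
  ∀ (H : Subgroup (GL n k)) (Ys : Submodule ℤ (n → ℤ)) (F : Fr H Ys), IsConnAlg H → Nrm Ys H →
    ∀ (l : Ys) (d : ℕ) (ι : Fin d → Fin F.d), Function.Injective ι →
      (∀ i, i ∈ Set.range ι ↔ 0 < F.a i l) →
      ∃ g : Matrix n n (MvPolynomial (Fin d) k), PtMod (H : Set (GL n k)) ⊥ g ∧
        Hom (fun v => F.a (ι v)) g ∧ (∀ v, lf (F.c (ι v)) (g - 1) = MvPolynomial.X v) ∧
        (∀ i, i ∉ Set.range ι → lf (F.c i) (g - 1) = 0) ∧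
        (∀ i j, (g i j).coeff 0 = (1 : Matrix n n k) i j) ∧
        ∀ v i j, (g i j).coeff (Finsupp.single v 1) = F.y (ι v) i j

def S_d1 : Prop :=
  ∀ (H : Subgroup (GL n k)) (Ys : Submodule ℤ (n → ℤ)), IsConnAlg H → Nrm Ys H →
    ∀ l : Ys, Nonempty (Chart H Ys l)

def S_d2g : Prop :=
  ∀ (H : Subgroup (GL n k)), IsZClosed (H : Set (GL n k)) →
    ∀ (d : ℕ) (g : ℕ → Matrix n n (MvPolynomial (Fin d) k)),
      (∀ N, PtMod (H : Set (GL n k)) (mm k d ^ N) (g N)) → (∀ N, Cong (mm k d) (g N) 1) →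
      (∀ N N', N ≤ N' → Cong (mm k d ^ N) (g N) (g N')) →
      ∃ S : Set (GL n k), S ⊆ H ∧ ZAR.Irr S ∧ (1 : GL n k) ∈ S ∧
        (∀ N, PtMod S (mm k d ^ N) (g N)) ∧
        ∀ i j, (∀ N, (g N - 1) i j = 0) → ∀ x ∈ S, ((x : Matrix n n k) - 1) i j = 0

def S_d2k : Prop :=
  ∀ (H : Subgroup (GL n k)) (Ys : Submodule ℤ (n → ℤ)) (F : Fr H Ys),
    IsZClosed (H : Set (GL n k)) → ∀ g : ℕ → Matrix n n (MvPolynomial (Fin F.d) k),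
      (∀ N, IsFC F N (g N)) → ∀ (l : Ys) (N : ℕ),
        PtMod ((H ⊓ Up k l.1 : Subgroup (GL n k)) : Set (GL n k)) (mm k F.d ^ N)
          (kill {i | 0 < F.a i l} (g N)) ∧
        PtMod (idc (H ⊓ Zc k l.1) : Set (GL n k)) (mm k F.d ^ N) (kill {i | F.a i l = 0} (g N))

def S_d2 : Prop :=
  ∀ (H : Subgroup (GL n k)) (Ys : Submodule ℤ (n → ℤ)), IsConnAlg H → Nrm Ys H →
    ∀ l : Ys, ∀ x ∈ lie H, (∀ i j, l.1 i ≠ l.1 j → x i j = 0) → x ∈ lie (idc (H ⊓ Zc k l.1))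

def S_prod : Prop :=
  ∀ (R : Type u) [CommRing R] [Algebra k R] (I : Ideal R) (S S' : Set (GL n k))
    (x x' : Matrix n n R), PtMod S I x → PtMod S' I x' →
    PtMod (Set.image2 (fun a b => a * b) S S') I (x * x')

def S_kr : Prop :=
  ∀ (H : Subgroup (GL n k)) (Ys : Submodule ℤ (n → ℤ)) (F : Fr H Ys), IsConnAlg H →
    ∀ f : MvPolynomial (n × n) k,
      (∀ N, ∃ g, IsFC F N g ∧ evx g f ∈ mm k F.d ^ N) → f ∈ vanish (H : Set (GL n k))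

def S_theta : Prop :=
  ∀ (H : Subgroup (GL n k)) (Ys : Submodule ℤ (n → ℤ)) (F : Fr H Ys) (N : ℕ)
    (g x : Matrix n n (MvPolynomial (Fin F.d) k)), IsFC F N g →
    PtMod (H : Set (GL n k)) (mm k F.d ^ N) x → Cong (mm k F.d) x 1 →
    (∀ i, lf (F.c i) (x - 1) - MvPolynomial.X i ∈ mm k F.d ^ 2) →
    ∀ f : MvPolynomial (n × n) k, evx x f ∈ mm k F.d ^ N → evx g f ∈ mm k F.d ^ N

def S_d3 : Prop :=
  ∀ (H : Subgroup (GL n k)) (Ys : Submodule ℤ (n → ℤ)), IsConnAlg H → Nrm Ys H →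
    ∀ l : Ys, vanish (bigCell H l.1) ≤ vanish (H : Set (GL n k))

def S_dec : Prop :=
  ∀ (H : Subgroup (GL n k)) (Ys : Submodule ℤ (n → ℤ)), IsConnAlg H → Nrm Ys H →
    ∀ l ν : Ys, ∀ x ∈ H ⊓ Up k l.1, ∃ a ∈ H ⊓ Up k l.1, ∃ c ∈ H ⊓ Up k l.1, ∃ b ∈ H ⊓ Up k l.1,
      a ∈ Up k ν.1 ∧ c ∈ Zc k ν.1 ∧ b ∈ Up k (-ν.1) ∧ x = a * c * b

/-! ### highest weight orbits -/

def S_scal : Prop :=
  ∀ C : Subgroup (GL n k), IsConnAlg C → ∀ (W : Type) [Fintype W] [DecidableEq W]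
    (σ : Matrix n n k →ₗ[k] Matrix W W k), σ 1 = 1 →
    (∀ g ∈ C, ∀ h ∈ C, σ ((g * h : GL n k) : Matrix n n k) = σ g * σ h) →
    (∀ y, y ∈ Submodule.span k {x | ∃ h ∈ C, x = σ (h : Matrix n n k)}) →
    ∀ m : ℕ, m ≠ 0 → (∀ c ∈ C, ∃ a : k, σ (c : Matrix n n k) ^ m = a • 1) → Fintype.card W ≤ 1

def S_top : Prop :=
  ∀ H T : Subgroup (GL n k), MT H T → ∀ (R : IRep H T) (l : Y T), Gen l → ∃ u, R.Top l.1 u

def S_genx : Prop :=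
  ∀ (ι m : Type) [Fintype ι] [Fintype m] (P : m → MvPolynomial ι k),
    ∃ f : MvPolynomial m k, MvPolynomial.aeval P f ≠ 0 ∧ ∀ y : m → k,
      (∀ q : MvPolynomial m k, MvPolynomial.aeval P q = 0 → MvPolynomial.eval y q = 0) →
      MvPolynomial.eval y f ≠ 0 → ∃ z : ι → k, ∀ j, y j = MvPolynomial.eval z (P j)

def S_kro : Prop :=
  ∀ H T : Subgroup (GL n k), IsConnAlg H → T ≤ H → ∀ (R : IRep H T) (l : Y T) (u : Fin R.m),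
    R.Top l.1 u → ∀ y ∈ clA {y | ∃ v ∈ H ⊓ Up k (-l.1), y = R.col v u},
      ∃ v ∈ H ⊓ Up k (-l.1), y = R.col v u

def S_chart : Prop :=
  ∀ H T : Subgroup (GL n k), IsConnAlg H → T ≤ H → ∀ (R : IRep H T) (l : Y T) (u : Fin R.m),
    R.Top l.1 u → ∀ y ∈ clA (R.orb u),
      (y u ≠ 0 → ∃ v ∈ H ⊓ Up k (-l.1), y = y u • R.col v u) ∧ y ∈ R.orb u

def S_lim : Prop :=
  ∀ H T : Subgroup (GL n k), T ≤ H → ∀ (R : IRep H T) (u : Fin R.m),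
    (∀ (l : Y T) (d : ℤ), ∀ y ∈ clA (R.orb u), (∀ v, y v ≠ 0 → l.1 (R.ix v) ≤ d) →
      (fun v => if l.1 (R.ix v) = d then y v else 0) ∈ clA (R.orb u)) ∧
    ∀ T' : Subgroup (GL n k), T' ≤ H → IsTorus T' → ∃ y ∈ clA (R.orb u), y ≠ 0 ∧
      ∀ t ∈ T', ∃ a : k, R.ρ (t : Matrix n n k) *ᵥ y = a • y

def S_conj : Prop :=
  ∀ H T T' : Subgroup (GL n k), MT H T → IsMaxTorus H T' → ∃ h ∈ H, cjs h T' = T

def S_fix : Prop :=
  ∀ H T : Subgroup (GL n k), MT H T → ∀ (R : IRep H T) (l : Y T) (u : Fin R.m), Gen l →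
    R.Top l.1 u → ∀ y ∈ clA (R.orb u), y ≠ 0 → ∀ l' : Y T, Gen l' →
      ∃ g ∈ H, ∃ w, Act T g w ∧ Gen (w l) ∧ ∃ u', R.Top (w l).1 u' ∧ R.orb u' = R.orb u ∧
        y u' ≠ 0 ∧ ∀ v, v ≠ u' → y v ≠ 0 → l'.1 (R.ix v) < l'.1 (R.ix u')

def S_finf : Prop :=
  ∀ (m : Type) [Fintype m] (O Z : Set (m → k)) (V : Set m), (∀ a : k, ∀ y ∈ O, a • y ∈ O) →
    (∀ y ∈ clA O, (∀ u ∈ V, y u = 0) → y = 0) → Z ⊆ clA O →
    (∀ q q' : MvPolynomial m k, (∀ y ∈ Z, MvPolynomial.eval y (q * q') = 0) →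
      (∀ y ∈ Z, MvPolynomial.eval y q = 0) ∨ ∀ y ∈ Z, MvPolynomial.eval y q' = 0) →
    (∀ u ∈ V, ∀ y ∈ Z, ∀ y' ∈ Z, y u = y' u) → ∀ y ∈ Z, ∀ y' ∈ Z, y = y'

def S_la1 : Prop :=
  ∀ H T : Subgroup (GL n k), MT H T → ∀ (R : IRep H T) (S : Set (GL n k)), S ⊆ H → ZAR.Irr S →
    (1 : GL n k) ∈ S → (∀ u, R.Vert u → ∀ g ∈ S, ∀ v,
      R.ρ (g : Matrix n n k) u v = (1 : Matrix (Fin R.m) (Fin R.m) k) u v) →
    ∀ g ∈ S, R.ρ (g : Matrix n n k) = 1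

def S_la : Prop :=
  ∀ H T : Subgroup (GL n k), MT H T → ∀ (R : IRep H T) (S : Set (GL n k)), S ⊆ H → ZAR.Irr S →
    (1 : GL n k) ∈ S → (∀ u, R.Vert u → ∀ g ∈ S, R.col g u = Pi.single u 1) →
    ∀ g ∈ S, R.ρ (g : Matrix n n k) = 1

def S_lb1 : Prop :=
  ∀ G T : Subgroup (GL n k), MT G T → ∀ (ν : Y T) (N : Subgroup (GL n k)),
    N ≤ idc (G ⊓ Zc k ν.1) → (∀ g ∈ idc (G ⊓ Zc k ν.1), ∀ x ∈ N, g * x * g⁻¹ ∈ N) →
    (∀ x ∈ N, IsNilpotent ((x : Matrix n n k) - 1)) →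
    ∀ (R : IRep G T) (u : Fin R.m), R.Vert u → ∀ x ∈ N, R.col x u = Pi.single u 1

def S_lb : Prop :=
  ∀ G T : Subgroup (GL n k), IsReductive G → MT G T → ∀ ν : Y T,
    IsReductive (idc (G ⊓ Zc k ν.1)) ∧ MT (idc (G ⊓ Zc k ν.1)) T

def S_ct : Prop :=
  ∀ G T : Subgroup (GL n k), IsReductive G → MT G T → ∀ l : Y T, Gen l → idc (G ⊓ Zc k l.1) = T

/-! ### rank one -/

def S_swap : Prop :=
  ∀ H T : Subgroup (GL n k), MT H T → ∀ (α : XX (Y T)) (ν l : Y T), Wall α ν → H ≤ Zc k ν.1 →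
    Gen l → α l ≠ 0 → ∀ R : IRep H T, 1 < R.m →
    ∃ g ∈ H, ∃ w, Act T g w ∧ (∀ l', α (w l') = - α l') ∧ ∀ l', α l' = 0 → w l' = l'

def S_r1a : Prop :=
  ∀ Z T : Subgroup (GL n k), IsReductive Z → MT Z T → ∀ (α : XX (Y T)) (ν l : Y T), Wall α ν →
    Z ≤ Zc k ν.1 → Gen l → α l ≠ 0 → ∀ R : IRep Z T, 1 < R.m → ∀ u, R.Top (-l).1 u →
    ∀ x ∈ Z ⊓ Up k l.1, R.col x u = Pi.single u 1 → x = 1

def S_zero : Prop :=
  ∀ (d : ℕ) (f : MvPolynomial (Fin d) k), (∀ z, MvPolynomial.eval z f = 0 ↔ z = 0) → d ≤ 1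

def S_r1b : Prop :=
  ∀ Z T : Subgroup (GL n k), IsReductive Z → MT Z T → ∀ (α : XX (Y T)) (ν l : Y T), Wall α ν →
    Z ≤ Zc k ν.1 → Gen l → α l ≠ 0 → ∀ R : IRep Z T, 1 < R.m →
    ∀ C : Chart Z (Y T) l, C.d ≤ 1

def S_curve : Prop :=
  ∀ (H G : Subgroup (GL n k)) (Ys : Submodule ℤ (n → ℤ)) (l : Ys) (C : Chart H Ys l)
    (i : Fin C.d), H ≤ G → (∀ j, j = i) →
    ∃ X : Curve G (C.a i) (C.y i), ∀ z, X.x z = C.pt fun _ => z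

def S_pack : Prop :=
  ∀ G T : Subgroup (GL n k), IsReductive G → MT G T → ∀ α, Root G T α → Nonempty (Pack G T α)

/-! ### the root datum -/

def S_ad : Prop :=
  ∀ (G : Subgroup (GL n k)) (Ys : Submodule ℤ (n → ℤ)) (α : XX Ys) (e : Matrix n n k)
    (C : Curve G α e), AdF C

def S_stab : Prop :=
  ∀ (G T : Subgroup (GL n k)) (α : XX (Y T)) (P : Pack G T α) (W : Submodule k (Matrix n n k)),
    (∀ r, ∀ v ∈ W, P.xp.D r v ∈ W ∧ P.xm.D r v ∈ W) →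
    (∀ t ∈ T, ∀ v ∈ W, (t : Matrix n n k) * v * ((t⁻¹ : GL n k) : Matrix n n k) ∈ W) →
    ∀ y : Matrix n n k, (∀ r, r ≠ 0 → P.xp.D r y ∈ W ∧ P.xm.D r y ∈ W) →
      (∀ t ∈ T, (t : Matrix n n k) * y * ((t⁻¹ : GL n k) : Matrix n n k) - y ∈ W) →
      (P.n0 : Matrix n n k) * y * ((P.n0⁻¹ : GL n k) : Matrix n n k) - y ∈ W

def S_crm : Prop :=
  ∀ G T : Subgroup (GL n k), MT G T → ∀ (α : XX (Y T)) (P : Pack G T α),
    (∀ l, P.w (P.w l) = l) ∧ ∀ β, Root G T β →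
      ∃ m : ℤ, β ∘ₗ P.w.toLinearMap = β - m • α ∧ Root G T (β - m • α)

def S_crh : Prop :=
  ∀ G T : Subgroup (GL n k), MT G T → ∀ α : XX (Y T), α ≠ 0 → ∀ P : Pack G T α,
    (∃ c : k, ⁅P.e, ⁅P.e, P.f⁆⁆ = (2 * c) • P.e) ∧ ∀ d ∈ tl T, ∃ c : k,
      (P.n0 : Matrix n n k) * diagonal d * ((P.n0⁻¹ : GL n k) : Matrix n n k) - diagonal d =
        c • ⁅P.e, P.f⁆

def S_crg : Prop :=
  ∀ G T : Subgroup (GL n k), MT G T → ∀ (α : XX (Y T)) (P : Pack G T α) (β : XX (Y T)),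
    β ≠ 0 → β ≠ α → β ≠ -α →
    (∀ (κ : XX (Y T)) (j : ℤ), κ ≠ α → κ ≠ -α → Root G T κ → Root G T (κ + j • α) → |j| < p) →
    ∀ M : LieSubalgebra k (Matrix n n k), P.e ∈ M → P.f ∈ M → ∀ x ∈ lie G, x ∈ M → Wt β x →
      (P.n0 : Matrix n n k) * x * ((P.n0⁻¹ : GL n k) : Matrix n n k) ∈ M

def S_gt : Prop :=
  ∀ G : Subgroup (GL n k), IsConnAlg G → IsGood p G →
    ∃ (P : GL n k) (T : Subgroup (GL n k)) (Δ : Finset (XX (Y T))),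
      MT (cjs P G) T ∧ GoodBase p (cjs P G) T Δ

def S_comb : Prop :=
  ∀ G T : Subgroup (GL n k), MT G T → ∀ Δ : Finset (XX (Y T)), GoodBase p G T Δ →
    ∀ (Φ : Type u) [Fintype Φ] (val : Φ → XX (Y T)), Function.Injective val →
      (∀ a, a ∈ Set.range val ↔ Root G T a) → ∀ P : ∀ a : Φ, Pack G T (val a),
      ∃ C : Comb Φ, CombF p val P C

def S_cr : Prop :=
  ∀ G T : Subgroup (GL n k), IsReductive G → MT G T → ∀ Δ : Finset (XX (Y T)),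
    GoodBase p G T Δ → ∀ L : LieSubalgebra k (Matrix n n k), (∀ x, x ∈ L ↔ x ∈ lie G) →
    ∃ (Φ : Type u) (_ : Fintype Φ) (R : CRoot p L Φ), R.toComb.Good p

end Pool.Agent.Lib.MP_3a0263_al.Q
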