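import Pool.Agent.Lib.MP_3a0263_al.R.Base

namespace Pool.Agent.Lib.MP_3a0263_al.Q

open Matrix Pool.Agent.Lib.MP_3a0263_al.R

attribute [local instance 100] LieRing.ofAssociativeRing

universe u

/-- a reduced crystallographic root system in coordinates `co β i` for a base `Δ`;
`m α β` is the Cartan integer of the root `β` and the coroot of `α` -/
structure Comb (Φ : Type u) [Fintype Φ] where
  Δ : Finset Φ
  co : Φ → Φ → ℤ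
  neg : Φ → Φ
  m : Φ → Φ → ℤ
  s : Φ → Φ → Φ
  self : ∀ i ∈ Δ, co i i = 1
  ne : ∀ i ∈ Δ, ∀ j ∈ Δ, i ≠ j → co i j = 0
  sign : ∀ β, (∀ i ∈ Δ, 0 ≤ co β i) ∨ ∀ i ∈ Δ, co β i ≤ 0
  inj : ∀ β γ, (∀ i ∈ Δ, co β i = co γ i) → β = γ
  co_neg : ∀ β, ∀ i ∈ Δ, co (neg β) i = - co β i
  refl : ∀ α β, ∀ i ∈ Δ, co (s α β) i = co β i - m α β * co α i
  lin : ∀ α β, m α β = ∑ i ∈ Δ, co β i * m α i
  two : ∀ α, m α α = 2
  red : ∀ β γ (a b : ℤ), a ≠ 0 → (∀ i ∈ Δ, a * co γ i = b * co β i) → γ = β ∨ γ = neg β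

/-- `p` divides no nonzero coefficient of a maximal root -/
def Comb.Good {Φ : Type u} [Fintype Φ] (C : Comb Φ) (p : ℕ) : Prop :=
  ∀ θ, (∀ i ∈ C.Δ, 0 ≤ C.co θ i) → (∀ κ, (∀ i ∈ C.Δ, C.co θ i ≤ C.co κ i) → κ = θ) →
    ∀ i ∈ C.Δ, C.co θ i ≠ 0 → ¬ (p : ℤ) ∣ C.co θ i

variable {k : Type u} [Field k] {n : Type} [Fintype n] [DecidableEq n]

/-- what the structure theory of reductive groups gives for the Lie algebra -/
structure CRoot (p : ℕ) (L : LieSubalgebra k (Matrix n n k)) (Φ : Type u) [Fintype Φ]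
    extends Comb Φ where
  t : Submodule k (n → k)
  e : Φ → Matrix n n k
  wt : Φ → t →ₗ[k] k
  tp : Matrix n n k →ₗ[k] t
  cf : Φ → Matrix n n k →ₗ[k] k
  h : Φ → t
  t_mem : ∀ d : t, diagonal d.1 ∈ L
  e_mem : ∀ β, e β ∈ L
  lie_e : ∀ (d : t) β, ⁅diagonal d.1, e β⁆ = wt β d • e β
  decomp : ∀ x ∈ L, x = diagonal (tp x).1 + ∑ β, cf β x • e β
  tp_t : ∀ d : t, tp (diagonal d.1) = d
  tp_e : ∀ β, tp (e β) = 0
  cf_t : ∀ β (d : t), cf β (diagonal d.1) = 0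
  cf_self : ∀ β, cf β (e β) = 1
  cf_ne : ∀ β γ, β ≠ γ → cf β (e γ) = 0
  wt_lin : ∀ β (d : t), wt β d = ∑ i ∈ Δ, (co β i : k) * wt i d
  dim : Δ.card ≤ Module.finrank k t
  br_cf : ∀ β γ δ, cf δ ⁅e β, e γ⁆ ≠ 0 → ∀ i ∈ Δ, co δ i = co β i + co γ i
  br_tp : ∀ β γ, γ ≠ neg β → tp ⁅e β, e γ⁆ = 0
  h_mem : ∀ α, ∃ c : k, diagonal (h α).1 = c • ⁅e α, e (neg α)⁆
  wt_h : ∀ α, wt α ≠ 0 → ∀ β, wt β (h α) = (m α β : k)
  sq : ∀ α, ∃ c : k, ⁅e α, ⁅e α, e (neg α)⁆⁆ = (2 * c) • e α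
  gen : ∀ α β, β ≠ α → β ≠ neg α →
    (∀ κ κ' (j : ℤ), κ ≠ α → κ ≠ neg α → (∀ i ∈ Δ, co κ' i = co κ i + j * co α i) → |j| < p) →
    ∀ M : LieSubalgebra k (Matrix n n k), e α ∈ M → e (neg α) ∈ M → e β ∈ M → e (s α β) ∈ M

variable (k) (p : ℕ)

/-- the group half -/
def S_group : Prop :=
  ∀ (n : Type) [Fintype n] [DecidableEq n] (G : Subgroup (GL n k)), IsReductive G → IsGood p G →
    ∃ (P : GL n k), ∀ L : LieSubalgebra k (Matrix n n k),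
      (∀ x : Matrix n n k, x ∈ L ↔ (P : Matrix n n k) * x * ((P⁻¹ : GL n k) : Matrix n n k) ∈ lie G) →
      ∃ (Φ : Type u) (_ : Fintype Φ) (R : CRoot p L Φ), R.toComb.Good p

/-- the trace form half -/
def S_trace : Prop :=
  ∀ (n : Type) [Fintype n] [DecidableEq n] (L : LieSubalgebra k (Matrix n n k))
    (Φ : Type u) [Fintype Φ] (R : CRoot p L Φ), R.toComb.Good p → LieAlgebra.IsSimple k L →
    HasRichardson k L

end Pool.Agent.Lib.MP_3a0263_al.Q
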