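import Pool.Agent.Lib.MP_3a0263_al.R.B_ZAR
import Pool.Agent.Lib.MP_3a0263_al.Q.Iface

namespace Pool.Agent.Lib.MP_3a0263_al.Q

open Matrix Pool.Agent.Lib.MP_3a0263_al.R

universe u

variable {k : Type u} [Field k] {n : Type} [Fintype n] [DecidableEq n]

/-- an invertible diagonal matrix -/
def dg (d : n → kˣ) : GL n k :=
  ⟨diagonal fun i => (d i : k), diagonal fun i => (((d i)⁻¹ : kˣ) : k),
    by simp [diagonal_mul_diagonal], by simp [diagonal_mul_diagonal]⟩

theorem dg_val (d : n → kˣ) : (dg d : Matrix n n k) = diagonal fun i => (d i : k) := rfl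

theorem dg_mul (d e : n → kˣ) : dg (d * e) = dg d * dg e :=
  Units.ext (by simp [dg_val, diagonal_mul_diagonal])

theorem dg_one : dg (1 : n → kˣ) = 1 := Units.ext (by simp [dg_val])

/-- `dg` as a homomorphism -/
def dgHom : (n → kˣ) →* GL n k := ⟨⟨dg, dg_one⟩, dg_mul⟩

theorem dg_inv (d : n → kˣ) : dg d⁻¹ = (dg d)⁻¹ := map_inv (dgHom (k := k) (n := n)) d

/-- the cocharacter with exponents `l` -/
def coch (l : n → ℤ) (s : kˣ) : GL n k := dg fun i => s ^ l i

theorem coch_val (l : n → ℤ) (s : kˣ) :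
    (coch l s : Matrix n n k) = diagonal fun i => ((s ^ l i : kˣ) : k) := rfl

theorem coch_add (l l' : n → ℤ) (s : kˣ) : coch (l + l') s = coch l s * coch l' s := by
  rw [coch, coch, coch, ← dg_mul]; exact congrArg dg (funext fun i => zpow_add s _ _)

theorem coch_zero (s : kˣ) : coch (0 : n → ℤ) s = 1 := by
  rw [coch, ← dg_one]; exact congrArg dg (funext fun i => zpow_zero s)

theorem coch_smul (c : ℤ) (l : n → ℤ) (s : kˣ) : coch (c • l) s = coch l (s ^ c) :=
  congrArg dg (funext fun i => zpow_mul s c (l i))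

theorem coch_inv (l : n → ℤ) (s : kˣ) : (coch l s)⁻¹ = coch l s⁻¹ := by
  rw [coch, ← dg_inv]; exact congrArg dg (funext fun i => (inv_zpow s (l i)).symm)

theorem coch_neg (l : n → ℤ) (s : kˣ) : coch (-l) s = coch l s⁻¹ :=
  congrArg dg (funext fun i => by simp)

theorem coch_conj (l : n → ℤ) (s : kˣ) (x : Matrix n n k) (i j : n) :
    ((coch l s : GL n k) * x * ((coch l s)⁻¹ : GL n k) : Matrix n n k) i j =
      ((s ^ (l i - l j) : kˣ) : k) * x i j := by
  rw [coch_inv, coch_val, coch_val, mul_diagonal, diagonal_mul, _root_.zpow_sub, _root_.inv_zpow]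
  push_cast; ring

/-- every element is diagonal -/
def IsDiagG (T : Subgroup (GL n k)) : Prop := ∀ t ∈ T, ∃ d, t = dg d

/-- the cocharacter lattice -/
def Y (T : Subgroup (GL n k)) : Submodule ℤ (n → ℤ) where
  carrier := {l | ∀ s, coch l s ∈ T}
  zero_mem' := fun s => by rw [coch_zero]; exact T.one_mem
  add_mem' := fun {a b} ha hb s => by rw [coch_add]; exact T.mul_mem (ha s) (hb s)
  smul_mem' := fun c a ha s => by rw [coch_smul]; exact ha _

theorem mem_Y {T : Subgroup (GL n k)} {l : n → ℤ} : l ∈ Y T ↔ ∀ s, coch l s ∈ T := Iff.rfl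

/-- the weight lattice dual to a lattice of cocharacters -/
abbrev XX (Ys : Submodule ℤ (n → ℤ)) : Type := Module.Dual ℤ Ys

/-- the weight of the basis vector `i` -/
def eps (Ys : Submodule ℤ (n → ℤ)) (i : n) : XX Ys := (LinearMap.proj i).comp Ys.subtype

omit [Fintype n] [DecidableEq n] in
theorem eps_apply (Ys : Submodule ℤ (n → ℤ)) (i : n) (l : Ys) : eps Ys i l = l.1 i := rfl

/-- the matrix `x` has weight `a` -/
def Wt {Ys : Submodule ℤ (n → ℤ)} (a : XX Ys) (x : Matrix n n k) : Prop :=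
  ∀ i j, x i j ≠ 0 → eps Ys i - eps Ys j = a

open Classical in
/-- the component of weight `a` -/
noncomputable def wcomp {Ys : Submodule ℤ (n → ℤ)} (a : XX Ys) (x : Matrix n n k) :
    Matrix n n k := Matrix.of fun i j => if eps Ys i - eps Ys j = a then x i j else 0

/-- matrices all of whose entries have `l`-degree at least `r` -/
def degGE (k : Type u) [Field k] (l : n → ℤ) (r : ℤ) : Submodule k (Matrix n n k) where
  carrier := {x | ∀ i j, l i - l j < r → x i j = 0}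
  zero_mem' := fun _ _ _ => rfl
  add_mem' := fun {x y} hx hy i j h => by rw [Matrix.add_apply, hx i j h, hy i j h, add_zero]
  smul_mem' := fun c x hx i j h => by rw [Matrix.smul_apply, hx i j h, smul_zero]

omit [Fintype n] [DecidableEq n] in
theorem mem_degGE {l : n → ℤ} {r : ℤ} {x : Matrix n n k} :
    x ∈ degGE k l r ↔ ∀ i j, l i - l j < r → x i j = 0 := Iff.rfl

omit [DecidableEq n] in
theorem degGE_mul {l : n → ℤ} {r s : ℤ} {x y : Matrix n n k} (hx : x ∈ degGE k l r)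
    (hy : y ∈ degGE k l s) : x * y ∈ degGE k l (r + s) := fun i j h => by
  rw [Matrix.mul_apply]
  refine Finset.sum_eq_zero fun c _ => ?_
  by_cases h1 : l i - l c < r
  · rw [hx i c h1, zero_mul]
  · rw [hy c j (by omega), mul_zero]

omit [Fintype n] [DecidableEq n] in
theorem degGE_mono {l : n → ℤ} {r s : ℤ} (h : r ≤ s) {x : Matrix n n k} (hx : x ∈ degGE k l s) :
    x ∈ degGE k l r := fun i j h' => hx i j (by omega)

omit [Fintype n] in
theorem diagonal_mem_degGE (l : n → ℤ) (d : n → k) : diagonal d ∈ degGE k l 0 := fun i j h =>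
  diagonal_apply_ne d (by rintro rfl; omega)

omit [Fintype n] in
theorem one_mem_degGE (l : n → ℤ) : (1 : Matrix n n k) ∈ degGE k l 0 := diagonal_mem_degGE l 1

/-- the parabolic subalgebra -/
def parAlg (k : Type u) [Field k] (l : n → ℤ) : Subalgebra k (Matrix n n k) :=
  (degGE k l 0).toSubalgebra (one_mem_degGE l) fun _ _ hx hy => by simpa using degGE_mul hx hy

theorem inv_mem_subalgebra (B : Subalgebra k (Matrix n n k)) {g : GL n k}
    (h : (g : Matrix n n k) ∈ B) : ((g⁻¹ : GL n k) : Matrix n n k) ∈ B := by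
  let f : B →ₗ[k] B := LinearMap.mulLeft k ⟨g, h⟩
  have hf : Function.Injective f := fun a b e => Subtype.ext
    ((Units.mul_right_inj g).1 (congrArg Subtype.val e))
  obtain ⟨b, hb⟩ := LinearMap.injective_iff_surjective.1 hf 1
  have : ((g⁻¹ : GL n k) : Matrix n n k) = b :=
    Units.inv_eq_of_mul_eq_one_right (congrArg Subtype.val hb)
  rw [this]; exact b.2

theorem inv_mem_degGE {l : n → ℤ} {g : GL n k} (h : (g : Matrix n n k) ∈ degGE k l 0) :
    ((g⁻¹ : GL n k) : Matrix n n k) ∈ degGE k l 0 := inv_mem_subalgebra (parAlg k l) h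

/-- the unipotent group contracted by the cocharacter `l` -/
def Up (k : Type u) [Field k] (l : n → ℤ) : Subgroup (GL n k) where
  carrier := {g | (g : Matrix n n k) - 1 ∈ degGE k l 1}
  one_mem' := by simp
  mul_mem' := fun {g h} hg hh => by
    have e : ((g * h : GL n k) : Matrix n n k) - 1 = ((g : Matrix n n k) - 1) *
        ((h : Matrix n n k) - 1) + (((g : Matrix n n k) - 1) + ((h : Matrix n n k) - 1)) := by
      rw [Units.val_mul]; noncomm_ring
    rw [Set.mem_ofPred_eq, e]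
    exact add_mem (degGE_mono (by omega) (degGE_mul hg hh)) (add_mem hg hh)
  inv_mem' := fun {g} hg => by
    have h0 : (g : Matrix n n k) ∈ degGE k l 0 := by
      simpa using add_mem (degGE_mono (r := 0) (by omega) hg) (one_mem_degGE l)
    have e : ((g⁻¹ : GL n k) : Matrix n n k) - 1 =
        -(((g : Matrix n n k) - 1) * ((g⁻¹ : GL n k) : Matrix n n k)) := by
      rw [sub_mul, Units.mul_inv, one_mul, neg_sub]
    rw [Set.mem_ofPred_eq, e]
    exact neg_mem (by simpa using degGE_mul hg (inv_mem_degGE h0))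

theorem mem_Up {l : n → ℤ} {g : GL n k} :
    g ∈ Up k l ↔ (g : Matrix n n k) - 1 ∈ degGE k l 1 := Iff.rfl

/-- the centraliser of the cocharacter `l` -/
def Zc (k : Type u) [Field k] (l : n → ℤ) : Subgroup (GL n k) where
  carrier := {g | (g : Matrix n n k) ∈ degGE k l 0 ∧ (g : Matrix n n k) ∈ degGE k (-l) 0}
  one_mem' := ⟨one_mem_degGE _, one_mem_degGE _⟩
  mul_mem' := fun {g h} hg hh =>
    ⟨by simpa using degGE_mul hg.1 hh.1, by simpa using degGE_mul hg.2 hh.2⟩
  inv_mem' := fun {g} hg => ⟨inv_mem_degGE hg.1, inv_mem_degGE hg.2⟩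

theorem mem_Zc {l : n → ℤ} {g : GL n k} :
    g ∈ Zc k l ↔ ∀ i j, l i ≠ l j → (g : Matrix n n k) i j = 0 := by
  refine ⟨fun h i j hij => ?_, fun h => ⟨fun i j hij => h i j (by omega), fun i j hij => h i j ?_⟩⟩
  · rcases lt_or_gt_of_ne hij with h1 | h1
    · exact h.1 i j (by omega)
    · exact h.2 i j (by simp only [Pi.neg_apply]; omega)
  · simp only [Pi.neg_apply] at hij; omega

/-- the regular functions on `GL n k` -/
def reg (k : Type u) [Field k] (n : Type) [Fintype n] [DecidableEq n] :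
    Subalgebra k (GL n k → k) :=
  Algebra.adjoin k {φ | ∃ i j, φ = (fun g : GL n k => (g : Matrix n n k) i j) ∨
    φ = fun g : GL n k => ((g⁻¹ : GL n k) : Matrix n n k) i j}

/-- a matrix valued function with regular entries -/
def RegM {m : Type} (Φ : GL n k → Matrix m m k) : Prop := ∀ i j, (fun g => Φ g i j) ∈ reg k n

/-- `H` is normalised by the cocharacters in `Ys` -/
def Nrm (Ys : Submodule ℤ (n → ℤ)) (H : Subgroup (GL n k)) : Prop :=
  ∀ l ∈ Ys, ∀ s : kˣ, ∀ h ∈ H, coch l s * h * (coch l s)⁻¹ ∈ H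

theorem nrm_of_le {T H : Subgroup (GL n k)} (h : T ≤ H) : Nrm (Y T) H := fun _ hl s _ hg =>
  H.mul_mem (H.mul_mem (h (hl s)) hg) (H.inv_mem (h (hl s)))

/-- the identity component: generated by the irreducible subsets through `1` -/
def idc (K : Subgroup (GL n k)) : Subgroup (GL n k) :=
  Subgroup.closure {g | ∃ S : Set (GL n k), S ⊆ K ∧ ZAR.Irr S ∧ (1 : GL n k) ∈ S ∧ g ∈ S}

theorem idc_le (K : Subgroup (GL n k)) : idc K ≤ K :=
  (Subgroup.closure_le _).2 fun _ ⟨_, h, _, _, hg⟩ => h hg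

theorem subset_idc {K : Subgroup (GL n k)} {S : Set (GL n k)} (h : S ⊆ K) (hS : ZAR.Irr S)
    (h1 : (1 : GL n k) ∈ S) : S ⊆ idc K := fun _ hg => Subgroup.subset_closure ⟨S, h, hS, h1, hg⟩

theorem idc_mono {K K' : Subgroup (GL n k)} (h : K ≤ K') : idc K ≤ idc K' :=
  Subgroup.closure_mono fun _ ⟨S, h1, h2, h3, h4⟩ => ⟨S, fun _ hx => h (h1 hx), h2, h3, h4⟩

theorem irr_of_conn {H : Subgroup (GL n k)} (h : IsConnAlg H) : ZAR.Irr (H : Set (GL n k)) :=
  fun _ _ hfg => h.2.mem_or_mem hfg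

theorem prime_of_irr {S : Set (GL n k)} (h : ZAR.Irr S) {g : GL n k} (hg : g ∈ S) :
    (vanish S).IsPrime :=
  ⟨fun e => by simpa using mem_vanish.1 ((Ideal.eq_top_iff_one _).1 e) g hg, fun e => h _ _ e⟩

theorem le_idc {K S : Subgroup (GL n k)} (h : S ≤ K) (hS : IsConnAlg S) : S ≤ idc K :=
  subset_idc h (irr_of_conn hS) S.one_mem

/-- `H` is connected and closed, `T` is a diagonal maximal torus of `H` -/
structure MT (H T : Subgroup (GL n k)) : Prop where
  conn : IsConnAlg H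
  max : IsMaxTorus H T
  diag : IsDiagG T

/-- conjugation `g ↦ P * g * P⁻¹` on subgroups -/
def cjs (P : GL n k) (H : Subgroup (GL n k)) : Subgroup (GL n k) :=
  H.map (MulAut.conj P).toMonoidHom

theorem mem_cjs {P g : GL n k} {H : Subgroup (GL n k)} : g ∈ cjs P H ↔ P⁻¹ * g * P ∈ H := by
  refine ⟨?_, fun h => ⟨_, h, by simp [mul_assoc]⟩⟩
  rintro ⟨h, hh, rfl⟩
  simpa [mul_assoc] using hh

/-- transpose of an invertible matrix -/
def trG (g : GL n k) : GL n k :=
  ⟨(g : Matrix n n k)ᵀ, ((g⁻¹ : GL n k) : Matrix n n k)ᵀ,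
    by rw [← transpose_mul, Units.inv_mul, transpose_one],
    by rw [← transpose_mul, Units.mul_inv, transpose_one]⟩

theorem trG_val (g : GL n k) : (trG g : Matrix n n k) = (g : Matrix n n k)ᵀ := rfl

theorem trG_mul (g h : GL n k) : trG (g * h) = trG h * trG g := Units.ext (transpose_mul _ _)

theorem trG_trG (g : GL n k) : trG (trG g) = g := Units.ext (transpose_transpose _)

/-- the transposed group -/
def trS (H : Subgroup (GL n k)) : Subgroup (GL n k) where
  carrier := {g | trG g ∈ H}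
  one_mem' := by
    rw [Set.mem_ofPred_eq, show trG (1 : GL n k) = 1 from Units.ext transpose_one]; exact H.one_mem
  mul_mem' := fun {g h} hg hh => by rw [Set.mem_ofPred_eq, trG_mul]; exact H.mul_mem hh hg
  inv_mem' := fun {g} hg => H.inv_mem hg

theorem mem_trS {H : Subgroup (GL n k)} {g : GL n k} : g ∈ trS H ↔ trG g ∈ H := Iff.rfl

/-- `x` is a point of the closure of `S` with values in `R`, modulo `I` -/
def PtMod {R : Type u} [CommRing R] [Algebra k R] (S : Set (GL n k)) (I : Ideal R)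
    (x : Matrix n n R) : Prop :=
  ∀ f ∈ vanish S, MvPolynomial.aeval (fun ij : n × n => x ij.1 ij.2) f ∈ I

/-- entrywise congruence -/
def Cong {R : Type u} [CommRing R] (I : Ideal R) (x y : Matrix n n R) : Prop :=
  ∀ i j, x i j - y i j ∈ I

/-- the linear functional with coefficient matrix `c` -/
def lf {R : Type u} [CommRing R] [Algebra k R] (c : Matrix n n k) (x : Matrix n n R) : R :=
  ∑ ij : n × n, c ij.1 ij.2 • x ij.1 ij.2

/-- a homogeneous basis of `Lie H` with homogeneous coordinate functionals -/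
structure Fr (H : Subgroup (GL n k)) (Ys : Submodule ℤ (n → ℤ)) where
  d : ℕ
  a : Fin d → XX Ys
  y : Fin d → Matrix n n k
  c : Fin d → Matrix n n k
  y_mem : ∀ i, y i ∈ lie H
  y_wt : ∀ i, Wt (a i) (y i)
  c_wt : ∀ i, Wt (a i) (c i)
  lf_y : ∀ i j, lf (c i) (y j) = if i = j then 1 else 0
  span : ∀ x ∈ lie H, x = ∑ i, lf (c i) x • y i

/-- the entries of `g` are homogeneous, the variable `i` having weight `a i` -/
def Hom {Ys : Submodule ℤ (n → ℤ)} {d : ℕ} (a : Fin d → XX Ys)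
    (g : Matrix n n (MvPolynomial (Fin d) k)) : Prop :=
  ∀ i j (e : Fin d →₀ ℕ), (g i j).coeff e ≠ 0 → ∑ v, e v • a v = eps Ys i - eps Ys j

/-- the formal chart modulo degree `N` -/
structure IsFC {H : Subgroup (GL n k)} {Ys : Submodule ℤ (n → ℤ)} (F : Fr H Ys) (N : ℕ)
    (g : Matrix n n (MvPolynomial (Fin F.d) k)) : Prop where
  pt : PtMod (H : Set (GL n k)) (MvPolynomial.idealOfVars (Fin F.d) k ^ N) g
  one : Cong (MvPolynomial.idealOfVars (Fin F.d) k) g 1
  lf : ∀ i, lf (F.c i) (g - 1) - MvPolynomial.X i ∈ MvPolynomial.idealOfVars (Fin F.d) k ^ N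
  hom : Hom F.a g

open Classical in
/-- set the variables outside `κ` to zero -/
noncomputable def kill {d : ℕ} (κ : Set (Fin d)) (g : Matrix n n (MvPolynomial (Fin d) k)) :
    Matrix n n (MvPolynomial (Fin d) k) :=
  g.map (MvPolynomial.aeval fun i => if i ∈ κ then MvPolynomial.X i else 0 :
    MvPolynomial (Fin d) k →ₐ[k] MvPolynomial (Fin d) k)

/-- a homogeneous polynomial parametrisation of `H ⊓ Up l` -/
structure Chart (H : Subgroup (GL n k)) (Ys : Submodule ℤ (n → ℤ)) (l : Ys) where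
  d : ℕ
  a : Fin d → XX Ys
  y : Fin d → Matrix n n k
  c : Fin d → Matrix n n k
  g : Matrix n n (MvPolynomial (Fin d) k)
  pt : (Fin d → k) → GL n k
  pos : ∀ i, 0 < a i l
  y_mem : ∀ i, y i ∈ lie H
  y_wt : ∀ i, Wt (a i) (y i)
  c_wt : ∀ i, Wt (a i) (c i)
  lf_y : ∀ i j, lf (c i) (y j) = if i = j then 1 else 0
  span : ∀ x ∈ lie H, x ∈ degGE k l.1 1 → x = ∑ i, lf (c i) x • y i
  pt_val : ∀ z, (pt z : Matrix n n k) = g.map (MvPolynomial.eval z)
  pt_mem : ∀ z, pt z ∈ H ⊓ Up k l.1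
  pt_lf : ∀ u ∈ H ⊓ Up k l.1, pt (fun i => lf (c i) ((u : Matrix n n k) - 1)) = u
  lf_pt : ∀ z i, lf (c i) ((pt z : Matrix n n k) - 1) = z i
  hom : Hom a g
  g0 : ∀ i j, (g i j).coeff 0 = (1 : Matrix n n k) i j
  g1 : ∀ v i j, (g i j).coeff (Finsupp.single v 1) = y v i j

/-- the big cell -/
def bigCell (H : Subgroup (GL n k)) (l : n → ℤ) : Set (GL n k) :=
  {g | ∃ a ∈ H ⊓ Up k (-l), ∃ c ∈ idc (H ⊓ Zc k l), ∃ b ∈ H ⊓ Up k l, g = a * c * b}

/-- an irreducible representation of `H`, linear in the matrix entries, adapted to `T` -/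
structure IRep (H T : Subgroup (GL n k)) where
  m : ℕ
  ρ : Matrix n n k →ₗ[k] Matrix (Fin m) (Fin m) k
  ix : Fin m → n
  pos : 0 < m
  one : ρ 1 = 1
  mul : ∀ g ∈ H, ∀ h ∈ H, ρ ((g * h : GL n k) : Matrix n n k) = ρ g * ρ h
  span : ∀ y, y ∈ Submodule.span k {x | ∃ h ∈ H, x = ρ (h : Matrix n n k)}
  diag : ∀ d, dg d ∈ T → ρ (dg d : Matrix n n k) = diagonal fun u => (d (ix u) : k)

/-- the linear span of a group of matrices -/
def spanG (H : Subgroup (GL n k)) : Submodule k (Matrix n n k) :=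
  Submodule.span k {x | ∃ h ∈ H, x = (h : Matrix n n k)}

/-- a nilpotent two sided ideal of the span of `H` -/
structure NilId (H : Subgroup (GL n k)) (I : Submodule k (Matrix n n k)) : Prop where
  le : I ≤ spanG H
  left : ∀ h ∈ H, ∀ x ∈ I, (h : Matrix n n k) * x ∈ I
  right : ∀ h ∈ H, ∀ x ∈ I, x * (h : Matrix n n k) ∈ I
  nil : ∃ N, I ^ (N + 1) = ⊥

/-- `H` is triangularisable -/
def Tri (H : Subgroup (GL n k)) : Prop :=
  ∃ I, NilId H I ∧ ∀ g ∈ H, ∀ h ∈ H, (g : Matrix n n k) * h - h * g ∈ I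

/-- a generic cocharacter -/
def Gen {Ys : Submodule ℤ (n → ℤ)} (l : Ys) : Prop := ∀ i j, l.1 i = l.1 j → eps Ys i = eps Ys j

/-- a cocharacter generic in the wall of `α` -/
def Wall {Ys : Submodule ℤ (n → ℤ)} (α : XX Ys) (ν : Ys) : Prop :=
  α ν = 0 ∧ ∀ i j, ν.1 i = ν.1 j → ∀ l : Ys, α l = 0 → l.1 i = l.1 j

namespace IRep

variable {H T : Subgroup (GL n k)} (R : IRep H T)

/-- `u` is the unique index of top `l`-weight -/
def Top (l : n → ℤ) (u : Fin R.m) : Prop := ∀ v, v ≠ u → l (R.ix v) < l (R.ix u)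

/-- the extremal indices -/
def Vert (u : Fin R.m) : Prop := ∃ l : Y T, Gen l ∧ R.Top l.1 u

/-- the column `u` of `ρ g` -/
def col (g : GL n k) (u : Fin R.m) : Fin R.m → k := fun v => R.ρ (g : Matrix n n k) v u

/-- the cone over the orbit of the basis vector `u` -/
def orb (u : Fin R.m) : Set (Fin R.m → k) := {y | ∃ a : k, ∃ h ∈ H, y = a • R.col h u}

end IRep

/-- Zariski closure in affine space -/
def clA {m : Type} (S : Set (m → k)) : Set (m → k) :=
  {y | ∀ q : MvPolynomial m k, (∀ x ∈ S, MvPolynomial.eval x q = 0) → MvPolynomial.eval y q = 0}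

/-- `g` normalises `T` and acts on the cocharacters by `w` -/
structure Act (T : Subgroup (GL n k)) (g : GL n k) (w : Y T ≃ₗ[ℤ] Y T) : Prop where
  norm : ∀ t, t ∈ T ↔ g * t * g⁻¹ ∈ T
  coch : ∀ (l : Y T) (s : kˣ), g * coch l.1 s * g⁻¹ = coch (w l).1 s

/-- the Lie algebra of a diagonal group, as a space of vectors -/
noncomputable def tl (T : Subgroup (GL n k)) : Submodule k (n → k) :=
  (lieSub T).comap (diagonalLinearMap n k k)

theorem mem_tl {T : Subgroup (GL n k)} {d : n → k} : d ∈ tl T ↔ diagonal d ∈ lie T := Iff.rfl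

/-- the roots, as elements of the weight lattice -/
def Root (G T : Subgroup (GL n k)) (a : XX (Y T)) : Prop :=
  a ≠ 0 ∧ ∃ x ∈ lie G, x ≠ 0 ∧ Wt a x

/-- a one parameter unipotent subgroup of weight `α` with tangent vector `e` -/
structure Curve (G : Subgroup (GL n k)) {Ys : Submodule ℤ (n → ℤ)} (α : XX Ys)
    (e : Matrix n n k) where
  N : ℕ
  X : ℕ → Matrix n n k
  x : k → GL n k
  val : ∀ z, (x z : Matrix n n k) = ∑ r ∈ Finset.range N, z ^ r • X r
  mem : ∀ z, x z ∈ G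
  add : ∀ z z', x (z + z') = x z * x z'
  two : 2 ≤ N
  X0 : X 0 = 1
  X1 : X 1 = e
  XN : ∀ r, N ≤ r → X r = 0
  wt : ∀ r : ℕ, Wt (r • α) (X r)

/-- the divided powers of `ad e` -/
def Curve.D {G : Subgroup (GL n k)} {Ys : Submodule ℤ (n → ℤ)} {α : XX Ys} {e : Matrix n n k}
    (C : Curve G α e) (r : ℕ) (y : Matrix n n k) : Matrix n n k :=
  ∑ ab ∈ Finset.HasAntidiagonal.antidiagonal r, (-1 : k) ^ ab.2 • (C.X ab.1 * y * C.X ab.2)

/-- the rank one structure attached to a root -/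
structure Pack (G T : Subgroup (GL n k)) (α : XX (Y T)) where
  e : Matrix n n k
  f : Matrix n n k
  xp : Curve G α e
  xm : Curve G (-α) f
  n0 : GL n k
  w : Y T ≃ₗ[ℤ] Y T
  e_mem : e ∈ lie G
  f_mem : f ∈ lie G
  e_ne : e ≠ 0
  f_ne : f ≠ 0
  e_wt : Wt α e
  f_wt : Wt (-α) f
  uniq : ∀ b : XX (Y T), b ≠ 0 → (∀ l, α l = 0 → b l = 0) → ∀ x ∈ lie G, x ≠ 0 → Wt b x →
    (b = α ∧ ∃ c : k, x = c • e) ∨ (b = -α ∧ ∃ c : k, x = c • f)
  n0_mem : n0 ∈ G
  act : Act T n0 w
  w_neg : ∀ l, α (w l) = - α l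
  w_fix : ∀ l, α l = 0 → w l = l
  dense : ∀ C : Set (GL n k), IsZClosed C → (∀ z z', ∀ t ∈ T, xm.x z * t * xp.x z' ∈ C) → n0 ∈ C

/-- a base with `p` good, in the weight lattice -/
structure GoodBase (p : ℕ) (G T : Subgroup (GL n k)) (Δ : Finset (XX (Y T))) : Prop where
  root : ∀ a ∈ Δ, Root G T a
  indep : ∀ c : XX (Y T) → ℤ, ∑ a ∈ Δ, c a • a = 0 → ∀ a ∈ Δ, c a = 0
  comb : ∀ b, Root G T b → ∃ c : XX (Y T) → ℕ, b = ∑ a ∈ Δ, c a • a ∨ -b = ∑ a ∈ Δ, c a • a
  good : ∀ θ, Root G T θ →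
    (∀ c : XX (Y T) → ℕ, Root G T (θ + ∑ a ∈ Δ, c a • a) → ∀ a ∈ Δ, c a = 0) →
    ∀ c : XX (Y T) → ℕ, θ = ∑ a ∈ Δ, c a • a → ∀ a ∈ Δ, c a ≠ 0 → ¬ p ∣ c a

end Pool.Agent.Lib.MP_3a0263_al.Q
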