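import Pool.Agent.Lib.MP_3a0263_al.Q.GBlue
import Pool.Agent.Lib.MP_3a0263_al.Q.ApiP

namespace Pool.Agent.Lib.MP_3a0263_al.Q

open Matrix Pool.Agent.Lib.MP_3a0263_al.R

universe u

namespace CH0

variable {k : Type u} [Field k] {n : Type} [Fintype n] [DecidableEq n]

omit [DecidableEq n] in
theorem lf_mem {R : Type u} [CommRing R] [Algebra k R] (I : Ideal R) (c : Matrix n n k)
    {x : Matrix n n R} (h : ∀ i j, x i j ∈ I) : lf c x ∈ I := by
  refine I.sum_mem fun ij _ => ?_
  rw [Algebra.smul_def]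
  exact I.mul_mem_left _ (h _ _)

omit [DecidableEq n] in
theorem sum_smul_comb {R : Type u} [CommRing R] [Algebra k R] {d : ℕ} (a : n × n → k)
    (e : Fin d → R) (y : Fin d → Matrix n n k) :
    ∑ ij : n × n, a ij • (-∑ i, e i * algebraMap k R (y i ij.1 ij.2)) =
      -∑ i, e i * algebraMap k R (∑ ij : n × n, a ij * y i ij.1 ij.2) := by
  simp only [smul_neg, Finset.sum_neg_distrib, Finset.smul_sum, map_sum, Finset.mul_sum, map_mul]
  rw [Finset.sum_comm]
  refine congrArg Neg.neg (Finset.sum_congr rfl fun i _ => Finset.sum_congr rfl fun ij _ => ?_)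
  rw [Algebra.smul_def]; ring

theorem step {R : Type u} [CommRing R] [Algebra k R] {H : Subgroup (GL n k)}
    {Ys : Submodule ℤ (n → ℤ)} (F : Fr H Ys) (J : Ideal R) (N : ℕ) (hN : 1 ≤ N)
    (z : Fin F.d → R) (g x : Matrix n n R) (h1 : Cong J g 1)
    (hl : ∀ i, lf (F.c i) (g - 1) - z i ∈ J ^ N)
    (hx : PtMod (H : Set (GL n k)) (J ^ (N + 1)) x) (hc : Cong (J ^ N) x g) :
    ∃ g' : Matrix n n R, PtMod (H : Set (GL n k)) (J ^ (N + 1)) g' ∧ Cong J g' 1 ∧
      ∀ i, lf (F.c i) (g' - 1) - z i ∈ J ^ (N + 1) := by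
  have hle : J ^ N ≤ J := Ideal.pow_le_self (by omega)
  obtain ⟨e, he⟩ : ∃ e : Fin F.d → R, ∀ i, e i = lf (F.c i) (x - 1) - z i := ⟨_, fun _ => rfl⟩
  have hem : ∀ i, e i ∈ J ^ N := fun i => by
    obtain ⟨φ, hφ⟩ := exists_lf_lin (R := R) (F.c i)
    have h2 : e i = lf (F.c i) (x - g) + (lf (F.c i) (g - 1) - z i) := by
      rw [he, ← hφ, ← hφ, ← hφ, map_sub, map_sub, map_sub]; ring
    rw [h2]
    exact add_mem (lf_mem _ _ hc) (hl i)
  obtain ⟨δ, hδ⟩ : ∃ δ : Matrix n n R, ∀ a b, δ a b = -∑ i, e i * algebraMap k R (F.y i a b) :=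
    ⟨Matrix.of fun a b => -∑ i, e i * algebraMap k R (F.y i a b), fun _ _ => rfl⟩
  have hδm : ∀ a b, δ a b ∈ J ^ N := fun a b => by
    rw [hδ]
    exact neg_mem (Ideal.sum_mem _ fun i _ => Ideal.mul_mem_right _ _ (hem i))
  have hx1 : Cong J x 1 := fun a b => by
    have := add_mem (hle (hc a b)) (h1 a b)
    rwa [sub_add_sub_cancel] at this
  refine ⟨x + δ, fun f hf => ?_, fun a b => ?_, fun j => ?_⟩
  · have ht := taylor (k := k) hx1 hδm hle f
    have h0 : (∑ ij : n × n, MvPolynomial.aeval (entries (1 : GL n k))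
        (MvPolynomial.pderiv ij f) • δ ij.1 ij.2) = 0 := by
      simp only [hδ]
      rw [sum_smul_comb, neg_eq_zero]
      refine Finset.sum_eq_zero fun i _ => ?_
      have := mem_lie_iff.1 (F.y_mem i) f hf
      rw [Finset.sum_congr rfl fun ij _ => mul_comm _ _, this, map_zero, mul_zero]
    rw [h0, sub_zero, ← pow_succ] at ht
    have := add_mem ht (hx f hf)
    rwa [sub_add_cancel] at this
  · have := add_mem (hx1 a b) (hle (hδm a b))
    rwa [show x a b - (1 : Matrix n n R) a b + δ a b = (x + δ) a b - (1 : Matrix n n R) a b by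
      rw [Matrix.add_apply]; ring] at this
  · obtain ⟨φ, hφ⟩ := exists_lf_lin (R := R) (F.c j)
    have h2 : lf (F.c j) δ = -e j := by
      have h3 : ∀ i, ∑ ij : n × n, F.c j ij.1 ij.2 * F.y i ij.1 ij.2 = if j = i then 1 else 0 :=
        fun i => F.lf_y j i
      unfold lf
      simp only [hδ]
      rw [sum_smul_comb (fun ij : n × n => F.c j ij.1 ij.2)]
      simp only [h3]
      rw [Finset.sum_eq_single j (fun i _ hi => by rw [if_neg (Ne.symm hi), map_zero, mul_zero])
        (fun h => absurd (Finset.mem_univ j) h), if_pos rfl, map_one, mul_one]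
    have h4 : lf (F.c j) (x + δ - 1) - z j = 0 := by
      rw [add_sub_right_comm, ← hφ, map_add, hφ, hφ, h2, he]; ring
    rw [h4]
    exact zero_mem _

end CH0

theorem st_ch0 (k : Type u) [Field k] [IsAlgClosed k] (p : ℕ) [Fact p.Prime] [CharP k p]
    (n : Type) [Fintype n] [DecidableEq n] (hsm : S_sm k n) : S_ch0 k n := by
  intro H Ys F hH N
  induction N with
  | zero =>
    refine ⟨1, fun f _ => ?_, fun a b => ?_, fun i => ?_⟩
    · rw [pow_zero, Ideal.one_eq_top]; trivial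
    · rw [sub_self]; exact zero_mem _
    · rw [pow_zero, Ideal.one_eq_top]; trivial
  | succ N ih =>
    rcases Nat.eq_zero_or_pos N with rfl | hN
    · refine ⟨1, fun f hf => ?_, fun a b => ?_, fun i => ?_⟩
      · rw [ApiP.aeval_one_alg, mem_vanish.1 hf 1 H.one_mem, map_zero]; exact zero_mem _
      · rw [sub_self]; exact zero_mem _
      · rw [zero_add, pow_one]
        exact sub_mem (CH0.lf_mem _ _ fun a b => by rw [sub_self]; exact zero_mem _)
          (Ideal.subset_span ⟨i, rfl⟩)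
    · obtain ⟨g, h1, h2, h3⟩ := ih
      obtain ⟨x, hx, hc⟩ := hsm H hH _ (mm k F.d) N hN g h1 h2
      exact CH0.step F _ N hN _ g x h2 h3 hx hc

end Pool.Agent.Lib.MP_3a0263_al.Q
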