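import Pool.Agent.Lib.MP_3a0263_al.Q.GBlue
import Pool.Agent.Lib.MP_3a0263_al.Q.ApiL
import Pool.Agent.Lib.MP_3a0263_al.Q.ApiP

namespace Pool.Agent.Lib.MP_3a0263_al.Q

open Matrix Pool.Agent.Lib.MP_3a0263_al.R

universe u

namespace Ch1

variable {k : Type u} [Field k] {n : Type} [Fintype n] [DecidableEq n]

/-- rescaling of the variables -/
noncomputable def sc {σ : Type} (u : σ → k) : MvPolynomial σ k →ₐ[k] MvPolynomial σ k :=
  MvPolynomial.aeval fun v => u v • MvPolynomial.X v

theorem sc_X {σ : Type} (u : σ → k) (v : σ) :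
    sc u (MvPolynomial.X v) = u v • MvPolynomial.X v := MvPolynomial.aeval_X _ _

theorem coeff_sc {σ : Type} [Fintype σ] (u : σ → k) (P : MvPolynomial σ k) (e : σ →₀ ℕ) :
    (sc u P).coeff e = (∏ v, u v ^ e v) * P.coeff e := by
  classical
  induction P using MvPolynomial.induction_on' with
  | monomial d c =>
    have h : sc u (MvPolynomial.monomial d c) = (∏ v, u v ^ d v) • MvPolynomial.monomial d c := by
      rw [sc, MvPolynomial.aeval_monomial, MvPolynomial.monomial_eq, Finsupp.prod_fintype _ _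
        (fun _ => pow_zero _), Finsupp.prod_fintype _ _ (fun _ => pow_zero _)]
      simp only [_root_.smul_pow, Finset.prod_smul, MvPolynomial.algebraMap_eq, mul_smul_comm]
    rw [h, MvPolynomial.coeff_smul, smul_eq_mul, MvPolynomial.coeff_monomial]
    split_ifs with hd
    · rw [hd]
    · rw [mul_zero, mul_zero]
  | add P Q hP hQ => rw [map_add, MvPolynomial.coeff_add, MvPolynomial.coeff_add, hP, hQ, mul_add]

theorem sc_mem {σ : Type} [Fintype σ] (u : σ → k) (N : ℕ) {P : MvPolynomial σ k}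
    (h : P ∈ MvPolynomial.idealOfVars σ k ^ N) : sc u P ∈ MvPolynomial.idealOfVars σ k ^ N := by
  rw [MvPolynomial.mem_pow_idealOfVars_iff'] at h ⊢
  intro x hx
  rw [coeff_sc, h x hx, mul_zero]

theorem smul_mem {R : Type u} [CommRing R] [Algebra k R] {I : Ideal R} (c : k) {x : R}
    (h : x ∈ I) : c • x ∈ I := by
  rw [Algebra.smul_def]; exact I.mul_mem_left _ h

/-- conjugation by a cocharacter preserves points of a normalised group -/
theorem ptMod_conj {R : Type u} [CommRing R] [Algebra k R] {H : Subgroup (GL n k)} {I : Ideal R}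
    {l : n → ℤ} {s : kˣ} (hH : ∀ h ∈ H, coch l s * h * (coch l s)⁻¹ ∈ H) {x : Matrix n n R}
    (hx : PtMod (H : Set (GL n k)) I x) :
    PtMod (H : Set (GL n k)) I
      (Matrix.of fun i j => ((s ^ (l i - l j) : kˣ) : k) • x i j) := by
  intro f hf
  let τ : MvPolynomial (n × n) k →ₐ[k] MvPolynomial (n × n) k :=
    sc fun ij : n × n => ((s ^ (l ij.1 - l ij.2) : kˣ) : k)
  have h1 : τ f ∈ vanish (H : Set (GL n k)) := by
    refine mem_vanish.2 fun h hh => ?_
    have e : (MvPolynomial.aeval (entries h)).comp τ =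
        MvPolynomial.aeval (entries (coch l s * h * (coch l s)⁻¹)) := by
      refine MvPolynomial.algHom_ext fun ij => ?_
      rw [AlgHom.comp_apply, sc_X, map_smul, MvPolynomial.aeval_X, MvPolynomial.aeval_X,
        smul_eq_mul]
      exact (coch_conj l s (h : Matrix n n k) ij.1 ij.2).symm
    rw [← AlgHom.comp_apply, e]
    exact mem_vanish.1 hf _ (hH h hh)
  have e : (MvPolynomial.aeval (fun ij : n × n => x ij.1 ij.2)).comp τ =
      MvPolynomial.aeval (fun ij : n × n =>
        (Matrix.of fun i j => ((s ^ (l i - l j) : kˣ) : k) • x i j) ij.1 ij.2) := by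
    refine MvPolynomial.algHom_ext fun ij => ?_
    rw [AlgHom.comp_apply, sc_X, map_smul, MvPolynomial.aeval_X, MvPolynomial.aeval_X,
      Matrix.of_apply]
  rw [← e]
  exact hx _ h1

omit [DecidableEq n] in
theorem lf_sub {R : Type u} [CommRing R] [Algebra k R] (c : Matrix n n k) (x y : Matrix n n R) :
    lf c (x - y) = lf c x - lf c y := by
  simp only [lf, Matrix.sub_apply, smul_sub, Finset.sum_sub_distrib]

/-- low coefficients of a formal chart are homogeneous -/
theorem hom_low [Infinite k] (huniq : S_uniq k n) {H : Subgroup (GL n k)}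
    {Ys : Submodule ℤ (n → ℤ)} (F : Fr H Ys) (hN : Nrm Ys H) {N : ℕ}
    {g : Matrix n n (MvPolynomial (Fin F.d) k)} (h1 : PtMod (H : Set (GL n k)) (mm k F.d ^ N) g)
    (h2 : Cong (mm k F.d) g 1)
    (h3 : ∀ i, lf (F.c i) (g - 1) - MvPolynomial.X i ∈ mm k F.d ^ N) (i j : n) (e : Fin F.d →₀ ℕ)
    (he : e.degree < N) (h0 : (g i j).coeff e ≠ 0) :
    ∑ v, e v • F.a v = eps Ys i - eps Ys j := by
  refine LinearMap.ext fun l => zpow_inj (k := k) fun s => ?_
  let u : Fin F.d → k := fun v => ((s ^ F.a v l : kˣ) : k)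
  let w : n → n → k := fun i j => ((s⁻¹ ^ (l.1 i - l.1 j) : kˣ) : k)
  let g' : Matrix n n (MvPolynomial (Fin F.d) k) :=
    Matrix.of fun i j => w i j • (g.map (sc u)) i j
  have p1 : PtMod (H : Set (GL n k)) (mm k F.d ^ N) g' :=
    ptMod_conj (hN l.1 l.2 s⁻¹) (h1.map (sc u) fun r hr => sc_mem u N hr)
  have hg : ∀ i j, (g' - 1) i j = w i j • sc u ((g - 1) i j) := by
    intro i j
    simp only [g', Matrix.sub_apply, Matrix.of_apply, Matrix.map_apply, map_sub, smul_sub]
    by_cases hij : i = j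
    · subst hij
      simp [w]
    · simp [Matrix.one_apply_ne hij]
  have p2 : Cong (mm k F.d) g' 1 := by
    intro i j
    have := sc_mem u 1 (P := (g - 1) i j) (by rw [pow_one]; exact h2 i j)
    rw [pow_one] at this
    rw [← Matrix.sub_apply, hg]
    exact smul_mem _ this
  have p3 : ∀ v, lf (F.c v) (g' - g) ∈ mm k F.d ^ N := by
    intro v
    have e1 : lf (F.c v) (g' - 1) =
        ((s⁻¹ ^ F.a v l : kˣ) : k) • sc u (lf (F.c v) (g - 1)) := by
      rw [lf, lf, map_sum, Finset.smul_sum]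
      refine Finset.sum_congr rfl fun ij _ => ?_
      by_cases hc : F.c v ij.1 ij.2 = 0
      · rw [hc, zero_smul, zero_smul, map_zero, smul_zero]
      · have hw : l.1 ij.1 - l.1 ij.2 = F.a v l := by
          rw [← F.c_wt v ij.1 ij.2 hc]; rfl
        rw [hg, map_smul, smul_comm]
        simp only [w, hw]
    have e2 : g' - g = (g' - 1) - (g - 1) := by abel
    have e3 : lf (F.c v) (g' - g) = ((s⁻¹ ^ F.a v l : kˣ) : k) •
        sc u (lf (F.c v) (g - 1) - MvPolynomial.X v) -
          (lf (F.c v) (g - 1) - MvPolynomial.X v) := by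
      have hu : ((s⁻¹ ^ F.a v l : kˣ) : k) * u v = 1 := by
        simp only [u]
        rw [← Units.val_mul, ← mul_zpow, inv_mul_cancel, _root_.one_zpow, Units.val_one]
      rw [e2, lf_sub, e1, map_sub, sc_X, smul_sub, smul_smul, hu, one_smul]
      abel
    rw [e3]
    exact Ideal.sub_mem _ (smul_mem _ (sc_mem u N (h3 v))) (h3 v)
  have p4 := huniq H Ys F _ (mm k F.d) N g' g p1 h1 p2 h2 p3 i j
  have p5 := (MvPolynomial.mem_pow_idealOfVars_iff' N _).1 p4 e he
  simp only [g', Matrix.of_apply, Matrix.map_apply, MvPolynomial.coeff_sub,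
    MvPolynomial.coeff_smul, coeff_sc, smul_eq_mul] at p5
  have p6 : w i j * ∏ v, u v ^ e v = 1 := by
    refine mul_right_cancel₀ h0 ?_
    rw [one_mul, mul_assoc]
    exact sub_eq_zero.1 p5
  have p7 : (∏ v, u v ^ e v) = ((s ^ (∑ v, e v • F.a v) l : kˣ) : k) := by
    have : ∀ A : Finset (Fin F.d), (∏ v ∈ A, u v ^ e v) =
        ((s ^ (∑ v ∈ A, e v • F.a v) l : kˣ) : k) := by
      intro A
      induction A using Finset.induction_on with
      | empty => simp
      | insert a A ha ih =>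
        rw [Finset.prod_insert ha, Finset.sum_insert ha, ih, LinearMap.add_apply,
          _root_.zpow_add, Units.val_mul, LinearMap.smul_apply, nsmul_eq_mul, mul_comm (e a : ℤ),
          _root_.zpow_mul, zpow_natCast, Units.val_pow_eq_pow_val]
    exact this _
  rw [p7] at p6
  have p8 : s⁻¹ ^ (l.1 i - l.1 j) * s ^ (∑ v, e v • F.a v) l = 1 := Units.ext p6
  rw [_root_.inv_zpow, inv_mul_eq_one] at p8
  exact p8.symm

open Classical in
/-- the homogeneous part of a polynomial -/
noncomputable def hp {σ : Type} (q : (σ →₀ ℕ) → Prop) (P : MvPolynomial σ k) :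
    MvPolynomial σ k := ∑ e ∈ P.support with q e, MvPolynomial.monomial e (P.coeff e)

open Classical in
theorem coeff_hp {σ : Type} (q : (σ →₀ ℕ) → Prop) (P : MvPolynomial σ k) (e : σ →₀ ℕ) :
    (hp q P).coeff e = if q e then P.coeff e else 0 := by
  rw [hp, MvPolynomial.coeff_sum]
  simp only [MvPolynomial.coeff_monomial]
  rw [Finset.sum_ite_eq']
  by_cases h : q e
  · by_cases h0 : P.coeff e = 0
    · simp [h0]
    · simp [h, h0]
  · simp [h]

end Ch1

theorem st_ch1 (k : Type u) [Field k] [IsAlgClosed k] (p : ℕ) [Fact p.Prime] [CharP k p]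
    (n : Type) [Fintype n] [DecidableEq n] (hch0 : S_ch0 k n) (huniq : S_uniq k n) :
    S_ch1 k n := by
  intro H Ys F hH hN N
  obtain ⟨g, h1, h2, h3⟩ := hch0 H Ys F hH (N + 1)
  let g' : Matrix n n (MvPolynomial (Fin F.d) k) := Matrix.of fun i j =>
    Ch1.hp (fun e => ∑ v, e v • F.a v = eps Ys i - eps Ys j) (g i j)
  have hc : Cong (mm k F.d ^ (N + 1)) g g' := by
    intro i j
    refine (MvPolynomial.mem_pow_idealOfVars_iff' _ _).2 fun e he => ?_
    simp only [g', Matrix.of_apply, MvPolynomial.coeff_sub, Ch1.coeff_hp]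
    split_ifs with hq
    · exact sub_self _
    · rw [sub_zero]
      by_contra h0
      exact hq (Ch1.hom_low huniq F hN h1 h2 h3 i j e he h0)
  have hle : mm k F.d ^ (N + 1) ≤ mm k F.d ^ N := Ideal.pow_le_pow_right (Nat.le_succ N)
  have hle1 : mm k F.d ^ (N + 1) ≤ mm k F.d := Ideal.pow_le_self (Nat.succ_ne_zero N)
  refine ⟨g', fun f hf => hle (h1.cong hc f hf), fun i j => ?_, fun v => hle ?_, ?_⟩
  · have := Ideal.sub_mem _ (h2 i j) (hle1 (hc i j))
    rwa [sub_sub_sub_cancel_left] at this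
  · have e : g' - 1 = (g - 1) - (g - g') := by abel
    have h4 : lf (F.c v) (g - g') ∈ mm k F.d ^ (N + 1) :=
      Ideal.sum_mem _ fun ij _ => Ch1.smul_mem _ (hc ij.1 ij.2)
    rw [e, Ch1.lf_sub, sub_right_comm]
    exact Ideal.sub_mem _ (h3 v) h4
  · intro i j e he
    simp only [g', Matrix.of_apply, Ch1.coeff_hp] at he
    by_contra hq
    exact he (if_neg hq)

end Pool.Agent.Lib.MP_3a0263_al.Q
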