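import Pool.Agent.Lib.MP_3a0263_al.Q.GBlue
import Pool.Agent.Lib.MP_3a0263_al.Q.ApiR
import Pool.Agent.Lib.MP_3a0263_al.Q.ApiZ1

namespace Pool.Agent.Lib.MP_3a0263_al.Q

open Matrix Pool.Agent.Lib.MP_3a0263_al.R

universe u

namespace CHART

variable {k : Type u} [Field k]

/-- homogenisation with respect to the coordinate `u` -/
theorem exists_homog {m : Type} (u : m) (q : MvPolynomial m k) :
    ∃ (D : ℕ) (Q : MvPolynomial m k),
      (∀ (a : k) (y : m → k), MvPolynomial.eval (a • y) Q = a ^ D * MvPolynomial.eval y Q) ∧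
      ∀ y : m → k, y u = 1 → MvPolynomial.eval y Q = MvPolynomial.eval y q := by
  induction q using MvPolynomial.induction_on with
  | C c => exact ⟨0, MvPolynomial.C c, fun a y => by simp, fun y _ => rfl⟩
  | add p q hp hq =>
    obtain ⟨D, P, h1, h2⟩ := hp
    obtain ⟨E, Q, h3, h4⟩ := hq
    refine ⟨D + E, P * MvPolynomial.X u ^ E + Q * MvPolynomial.X u ^ D, fun a y => ?_,
      fun y hy => ?_⟩
    · simp only [map_add, map_mul, map_pow, MvPolynomial.eval_X, h1, h3, Pi.smul_apply,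
        smul_eq_mul]
      ring
    · simp only [map_add, map_mul, map_pow, MvPolynomial.eval_X, h2 y hy, h4 y hy, hy, one_pow,
        mul_one]
  | mul_X p i hp =>
    obtain ⟨D, P, h1, h2⟩ := hp
    refine ⟨D + 1, P * MvPolynomial.X i, fun a y => ?_, fun y hy => ?_⟩
    · simp only [map_mul, MvPolynomial.eval_X, h1, Pi.smul_apply, smul_eq_mul]
      ring
    · simp only [map_mul, MvPolynomial.eval_X, h2 y hy]

variable {n : Type} [Fintype n] [DecidableEq n] {H T : Subgroup (GL n k)} (R : IRep H T)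

theorem col_Up [Infinite k] (hT : T ≤ H) (l : Y T) {u : Fin R.m} (hu : R.Top l.1 u) {b : GL n k}
    (hb : b ∈ H ⊓ Up k l.1) : R.col b u = Pi.single u 1 := by
  funext v
  have h1 : l.1 (R.ix v) - l.1 (R.ix u) < 1 := by
    by_cases h : v = u
    · subst h; omega
    · have := hu v h; omega
  have h2 := R.rho_Up hT l hb v u h1
  rw [Matrix.sub_apply, sub_eq_zero] at h2
  rw [IRep.col, h2, Matrix.one_apply, Pi.single_apply]

theorem col_Zc [Infinite k] (hT : T ≤ H) (l : Y T) {u : Fin R.m} (hu : R.Top l.1 u) {c : GL n k}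
    (hc : c ∈ H ⊓ Zc k l.1) :
    R.col c u = R.ρ (c : Matrix n n k) u u • (Pi.single u 1 : Fin R.m → k) := by
  funext v
  by_cases h : v = u
  · subst h; simp [IRep.col]
  · rw [IRep.col, R.rho_Zc hT l hc v u (hu v h).ne]
    simp [h]

theorem col_self [Infinite k] (hT : T ≤ H) (l : Y T) (u : Fin R.m) {a : GL n k}
    (ha : a ∈ H ⊓ Up k (-l.1)) : R.col a u u = 1 := by
  have h2 := R.rho_Up hT (-l) ha u u (by omega)
  rw [Matrix.sub_apply, sub_eq_zero] at h2
  rw [IRep.col, h2, Matrix.one_apply_eq]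

theorem col_cell [Infinite k] (hT : T ≤ H) (l : Y T) {u : Fin R.m} (hu : R.Top l.1 u) {g : GL n k}
    (hg : g ∈ bigCell H l.1) : ∃ χ : k, ∃ a ∈ H ⊓ Up k (-l.1), R.col g u = χ • R.col a u := by
  obtain ⟨a, ha, c, hc, b, hb, rfl⟩ := hg
  have hc' := idc_le _ hc
  refine ⟨R.ρ (c : Matrix n n k) u u, a, ha, ?_⟩
  rw [R.col_mul (H.mul_mem ha.1 hc'.1) hb.1, col_Up R hT l hu hb, ← R.col_eq,
    R.col_mul ha.1 hc'.1, col_Zc R hT l hu hc', Matrix.mulVec_smul, ← R.col_eq]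

end CHART

theorem st_chart (k : Type u) [Field k] [IsAlgClosed k] (p : ℕ) [Fact p.Prime] [CharP k p]
    (n : Type) [Fintype n] [DecidableEq n] (hd3 : S_d3 k n) (hkro : S_kro k n) : S_chart k n := by
  intro H T hH hT R l u hu
  have key : ∀ y ∈ clA (R.orb u), y u ≠ 0 → ∃ v ∈ H ⊓ Up k (-l.1), y = y u • R.col v u := by
    intro y hy hyu
    have h1 : ((y u)⁻¹ • y) ∈ clA {y | ∃ v ∈ H ⊓ Up k (-l.1), y = R.col v u} := by
      intro q hq
      obtain ⟨D, Q, hQ1, hQ2⟩ := CHART.exists_homog u q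
      have h2 : ∀ g ∈ (H : Set (GL n k)), MvPolynomial.eval (fun v => R.col g u v) Q = 0 := by
        refine reg_dense (hd3 H (Y T) hH (nrm_of_le hT) l)
          (reg_eval Q (φ := fun v g => R.col g u v) fun v => (RegM.id.lin R.ρ) v u) fun g hg => ?_
        obtain ⟨χ, a, ha, e⟩ := CHART.col_cell R hT l hu hg
        change MvPolynomial.eval (R.col g u) Q = 0
        rw [e, hQ1, hQ2 _ (CHART.col_self R hT l u ha), hq _ ⟨a, ha, rfl⟩, mul_zero]
      have h3 : MvPolynomial.eval y Q = 0 := hy Q (by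
        rintro _ ⟨a, h, hh, rfl⟩
        rw [hQ1, h2 h hh, mul_zero])
      rw [← hQ2 _ (by simp [hyu]), hQ1, h3, mul_zero]
    obtain ⟨v, hv, e⟩ := hkro H T hH hT R l u hu _ h1
    exact ⟨v, hv, by rw [← e, smul_smul, mul_inv_cancel₀ hyu, one_smul]⟩
  intro y hy
  refine ⟨key y hy, ?_⟩
  by_cases h0 : y = 0
  · exact ⟨0, 1, H.one_mem, by rw [h0, zero_smul]⟩
  obtain ⟨h, hh, hne⟩ := R.exists_mulVec_ne h0 u
  have h1 := R.mulVec_mem_clA hy 1 hh
  rw [one_smul] at h1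
  obtain ⟨v, hv, e⟩ := key _ h1 hne
  refine ⟨(R.ρ (h : Matrix n n k) *ᵥ y) u, h⁻¹ * v, H.mul_mem (H.inv_mem hh) hv.1, ?_⟩
  rw [R.col_mul (H.inv_mem hh) hv.1, ← Matrix.mulVec_smul, ← e, Matrix.mulVec_mulVec,
    R.inv_mul hh, Matrix.one_mulVec]

end Pool.Agent.Lib.MP_3a0263_al.Q
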