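import Pool.Agent.Lib.MP_3a0263_al.Q.GBlue

namespace Pool.Agent.Lib.MP_3a0263_al.Q

open Matrix Pool.Agent.Lib.MP_3a0263_al.R

universe u

namespace COMB

theorem smul_cancel {M : Type} [AddCommGroup M] {a : Module.Dual ℤ M} (ha : a ≠ 0) {x y : ℤ}
    (h : x • a = y • a) : x = y := by
  by_contra hne
  refine ha (LinearMap.ext fun l => ?_)
  have := DFunLike.congr_fun h l
  simp only [LinearMap.smul_apply, smul_eq_mul] at this
  have h2 : (x - y) * a l = 0 := by linarith
  exact (mul_eq_zero.1 h2).resolve_left (sub_ne_zero.2 hne)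

end COMB

theorem st_comb (k : Type u) [Field k] [IsAlgClosed k] (p : ℕ) [Fact p.Prime] [CharP k p]
    (n : Type) [Fintype n] [DecidableEq n] (hcrm : S_crm k n) : S_comb k p n := by
  intro G T hMT Δ hB Φ _ val hinj hroot P
  classical
  have hr : ∀ β, Root G T (val β) := fun β => (hroot _).1 ⟨β, rfl⟩
  let D : Finset Φ := Finset.univ.filter fun a => val a ∈ Δ
  have hD : ∀ i, i ∈ D ↔ val i ∈ Δ := fun i => by simp [D]
  have hsum : ∀ f : XX (Y T) → XX (Y T), ∑ i ∈ D, f (val i) = ∑ a ∈ Δ, f a := fun f =>
    Finset.sum_bij (fun i _ => val i) (fun i hi => (hD i).1 hi) (fun _ _ _ _ e => hinj e)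
      (fun a ha => by
        obtain ⟨i, rfl⟩ := (hroot a).2 (hB.root a ha)
        exact ⟨i, (hD i).2 ha, rfl⟩) fun _ _ => rfl
  have hind : ∀ c : Φ → ℤ, ∑ i ∈ D, c i • val i = 0 → ∀ i ∈ D, c i = 0 := by
    intro c hc i hi
    have := hB.indep (Function.extend val c 0) (by
      rw [← hsum fun a => Function.extend val c 0 a • a, ← hc]
      exact Finset.sum_congr rfl fun j _ => by rw [hinj.extend_apply]) (val i) ((hD i).1 hi)
    rwa [hinj.extend_apply] at this
  have huniq : ∀ x y : Φ → ℤ, ∑ i ∈ D, x i • val i = ∑ i ∈ D, y i • val i →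
      ∀ i ∈ D, x i = y i := by
    intro x y h i hi
    refine sub_eq_zero.1 (hind (fun i => x i - y i) ?_ i hi)
    simp only [sub_smul, Finset.sum_sub_distrib, h, sub_self]
  have hco : ∀ β, ∃ z : Φ → ℤ, val β = ∑ i ∈ D, z i • val i ∧
      ((∀ i ∈ D, 0 ≤ z i) ∨ ∀ i ∈ D, z i ≤ 0) := by
    intro β
    obtain ⟨c, h | h⟩ := hB.comb _ (hr β)
    · refine ⟨fun i => c (val i), ?_, Or.inl fun i _ => Int.natCast_nonneg _⟩
      rw [h, ← hsum fun a => c a • a]
      simp only [natCast_zsmul]
    · refine ⟨fun i => -c (val i), ?_, Or.inr fun i _ => by simp⟩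
      rw [← neg_neg (val β), h, ← hsum fun a => c a • a]
      simp only [neg_smul, natCast_zsmul, Finset.sum_neg_distrib]
  choose co hco hsign using hco
  have hneg : ∀ β, ∃ γ, val γ = - val β := fun β => (hroot _).2
    ⟨neg_ne_zero.2 (hr β).1, (P β).f, (P β).f_mem, (P β).f_ne, (P β).f_wt⟩
  choose neg hneg using hneg
  have hm : ∀ α β, ∃ m : ℤ, val β ∘ₗ (P α).w.toLinearMap = val β - m • val α ∧
      ∃ γ, val γ = val β - m • val α := fun α β => by
    obtain ⟨m, h1, h2⟩ := (hcrm G T hMT (val α) (P α)).2 (val β) (hr β)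
    exact ⟨m, h1, (hroot _).2 h2⟩
  choose m hw s hs using hm
  have hsimple : ∀ i ∈ D, ∀ j ∈ D, co i j = if j = i then 1 else 0 := by
    intro i hi
    refine huniq _ _ ?_
    rw [← hco i]
    simp [Finset.sum_ite_eq', hi]
  let C : Comb Φ :=
    { Δ := D
      co := co
      neg := neg
      m := m
      s := s
      self := fun i hi => by rw [hsimple i hi i hi, if_pos rfl]
      ne := fun i hi j hj hij => by rw [hsimple i hi j hj, if_neg hij.symm]
      sign := hsign
      inj := fun β γ h => hinj (by
        rw [hco β, hco γ]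
        exact Finset.sum_congr rfl fun i hi => by rw [h i hi])
      co_neg := fun β => huniq _ _ (by
        rw [← hco, hneg]
        simp only [neg_smul, Finset.sum_neg_distrib, ← hco])
      refl := fun α β => huniq _ _ (by
        rw [← hco, hs]
        simp only [sub_smul, mul_smul, Finset.sum_sub_distrib, ← Finset.smul_sum, ← hco])
      lin := fun α β => by
        refine COMB.smul_cancel (hr α).1 ?_
        have h1 : val β ∘ₗ (P α).w.toLinearMap =
            ∑ i ∈ D, co β i • (val i ∘ₗ (P α).w.toLinearMap) := by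
          conv_lhs => rw [hco β]
          refine LinearMap.ext fun l => ?_
          simp
        simp only [hw, smul_sub, Finset.sum_sub_distrib, ← hco, smul_smul,
          ← Finset.sum_smul] at h1
        exact sub_right_injective h1
      two := fun α => by
        refine COMB.smul_cancel (hr α).1 (LinearMap.ext fun l => ?_)
        have h1 := DFunLike.congr_fun (hw α α) l
        have h2 := (P α).w_neg l
        simp only [LinearMap.comp_apply, LinearEquiv.coe_coe, LinearMap.sub_apply,
          LinearMap.smul_apply, smul_eq_mul] at h1 ⊢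
        linarith
      red := fun β γ a b ha h => by
        have h1 : a • val γ = b • val β := by
          rw [hco β, hco γ, Finset.smul_sum, Finset.smul_sum]
          exact Finset.sum_congr rfl fun i hi => by rw [smul_smul, smul_smul, h i hi]
        have h2 := (P β).uniq (val γ) (hr γ).1 (fun l hl => by
          have := DFunLike.congr_fun h1 l
          simp only [LinearMap.smul_apply, smul_eq_mul, hl, mul_zero] at this
          exact (mul_eq_zero.1 this).resolve_left ha) (P γ).e (P γ).e_mem (P γ).e_ne (P γ).e_wt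
        exact h2.imp (fun h => hinj h.1) fun h => hinj (h.1.trans (hneg β).symm) }
  refine ⟨C, hco, hind, hneg, hs, hw, fun θ hpos hmax i hi hne hdvd => ?_, ?_⟩
  · have hpos' : ∀ j ∈ D, 0 ≤ co θ j := hpos
    have hi' : i ∈ D := hi
    have hne' : co θ i ≠ 0 := hne
    have hdvd' : (p : ℤ) ∣ co θ i := hdvd
    refine hB.good (val θ) (hr θ) (fun c hc a ha => ?_)
      (fun a => (Function.extend val (co θ) 0 a).toNat) ?_ (val i) ((hD i).1 hi') ?_ ?_
    · obtain ⟨κ, hκ⟩ := (hroot _).2 hc
      have h1 : ∀ j ∈ D, co κ j = co θ j + c (val j) := huniq _ _ (by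
        rw [← hco, hκ, ← hsum fun a => c a • a]
        simp only [add_smul, Finset.sum_add_distrib, ← hco, natCast_zsmul])
      have h2 : κ = θ := hmax κ fun j hj => by
        have := h1 j hj
        show co θ j ≤ co κ j
        omega
      obtain ⟨j, rfl⟩ := (hroot a).2 (hB.root a ha)
      have := h1 j ((hD j).2 ha)
      rw [h2] at this
      omega
    · rw [← hsum fun a => (Function.extend val (co θ) 0 a).toNat • a]
      conv_lhs => rw [hco θ]
      refine Finset.sum_congr rfl fun j hj => ?_
      rw [hinj.extend_apply, ← natCast_zsmul, Int.toNat_of_nonneg (hpos' j hj)]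
    · rw [hinj.extend_apply]
      have := hpos' i hi'
      omega
    · rw [hinj.extend_apply, ← Int.natCast_dvd_natCast, Int.toNat_of_nonneg (hpos' i hi')]
      exact hdvd'
  · have hli : LinearIndependent ℤ fun i : D => val i := by
      rw [Fintype.linearIndependent_iff]
      intro g hg i
      have := hind (fun a => if h : a ∈ D then g ⟨a, h⟩ else 0) (by
        rw [← Finset.sum_coe_sort D, ← hg]
        exact Finset.sum_congr rfl fun j _ => by rw [dif_pos j.2]) i i.2
      simpa using this
    have h1 := hli.fintype_card_le_finrank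
    rw [Fintype.card_coe, Module.finrank_linearMap, Module.finrank_self, mul_one] at h1
    exact h1

end Pool.Agent.Lib.MP_3a0263_al.Q
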