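import Pool.Agent.Lib.MP_3a0263_al.Q.GBlue
import Pool.Agent.Lib.MP_3a0263_al.Q.ApiZ2
import Pool.Agent.Lib.MP_3a0263_al.Q.ApiR
import Pool.Agent.Lib.MP_3a0263_al.Q.ApiC

namespace Pool.Agent.Lib.MP_3a0263_al.Q

open Matrix Pool.Agent.Lib.MP_3a0263_al.R

universe u

theorem st_conj (k : Type u) [Field k] [IsAlgClosed k] (p : ℕ) [Fact p.Prime] [CharP k p]
    (n : Type) [Fintype n] [DecidableEq n] (htri : S_tri k n) (hconj0 : S_conj0 k n)
    (htop : S_top k n) (hchart : S_chart k n) (hlim : S_lim k n) : S_conj k n := by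
  intro H T T' hM hT'
  have key : ∀ H : Subgroup (GL n k), IsZClosed (H : Set (GL n k)) →
      ∀ T', MT H T → IsMaxTorus H T' → ∃ h ∈ H, cjs h T' = T := by
    refine closed_induction fun H hH ih T' hM hT' => ?_
    by_cases hall : ∀ R : IRep H T, ¬ 1 < R.m
    · exact hconj0 H T T' hH (htri H T hM.max.1 hM.diag hall) hM.max hT'
    push Not at hall
    obtain ⟨R, hR⟩ := hall
    obtain ⟨l, hl⟩ := exists_gen (Y T)
    obtain ⟨u, hu⟩ := htop H T hM R l hl
    obtain ⟨P, hP⟩ := R.exists_stab u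
    have hPH : P ≤ H := fun g hg => ((hP g).1 hg).1
    have hPc : IsZClosed (P : Set (GL n k)) := by
      have h1 := hH.inter (closed_vec (Φ := fun g : GL n k => R.col g u)
        (fun i => RegM.id.lin R.ρ i u) (Submodule.span k {(Pi.single u 1 : Fin R.m → k)}))
      have h2 : (P : Set (GL n k)) = (H : Set (GL n k)) ∩ {g : GL n k | R.col g u ∈
          Submodule.span k {(Pi.single u 1 : Fin R.m → k)}} := by
        ext g
        rw [SetLike.mem_coe, hP, Set.mem_inter_iff, Set.mem_ofPred_eq, Submodule.mem_span_singleton]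
        exact and_congr Iff.rfl (exists_congr fun a => eq_comm)
      rwa [h2]
    have hTP : T ≤ P := fun t ht => by
      obtain ⟨d, rfl⟩ := hM.diag t ht
      refine (hP _).2 ⟨hM.max.1 ht, d (R.ix u), funext fun v => ?_⟩
      rw [IRep.col, R.diag d ht]
      by_cases h : v = u
      · subst h; simp
      · simp [h]
    have hne : P ≠ H := by
      intro e
      obtain ⟨v, hv⟩ : ∃ v : Fin R.m, v ≠ u := by
        have : Nontrivial (Fin R.m) := Fin.nontrivial_iff_two_le.2 hR
        exact exists_ne u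
      obtain ⟨h, hh, h1⟩ := R.exists_mulVec_ne (y := Pi.single u 1) (by simp) v
      obtain ⟨-, a, ha⟩ := (hP h).1 (e ▸ hh)
      rw [← R.col_eq, ha] at h1
      simp [hv] at h1
    obtain ⟨y, hy, hy0, hyT⟩ := (hlim H T hM.max.1 R u).2 T' hT'.1 hT'.2.1
    obtain ⟨a, h, hh, rfl⟩ := (hchart H T hM.conn hM.max.1 R l u hu y hy).2
    have ha : a ≠ 0 := fun e => hy0 (by rw [e, zero_smul])
    have hT2 : cjs h⁻¹ T' ≤ P := fun g hg => by
      have hg' : h * g * h⁻¹ ∈ T' := by simpa using mem_cjs.1 hg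
      have hgH : g ∈ H := by
        have := H.mul_mem (H.mul_mem (H.inv_mem hh) (hT'.1 hg')) hh
        simpa [mul_assoc] using this
      obtain ⟨c, hc⟩ := hyT _ hg'
      refine (hP g).2 ⟨hgH, c, ?_⟩
      rw [mulVec_smul, smul_comm, ← R.col_mul (hT'.1 hg') hh] at hc
      have h2 := smul_right_injective _ ha hc
      have h3 := congrArg (fun z => R.ρ ((h⁻¹ : GL n k) : Matrix n n k) *ᵥ z) h2
      simp only [mulVec_smul] at h3
      rw [← R.col_mul (H.inv_mem hh) (H.mul_mem (hT'.1 hg') hh), ← R.col_mul (H.inv_mem hh) hh,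
        inv_mul_cancel, R.col_one] at h3
      simpa [mul_assoc] using h3
    have hc := conn_idc hPc
    have hm : IsMaxTorus H (cjs h⁻¹ T') := by
      have := maxTorus_cjs h⁻¹ hT'
      rwa [cjs_self (H.inv_mem hh)] at this
    have hle : idc P ≤ H := (idc_le P).trans hPH
    obtain ⟨q, hq, e⟩ := ih (idc P) (lt_of_le_of_lt (idc_le P) (lt_of_le_of_ne hPH hne)) hc.1
      (cjs h⁻¹ T') (hM.sub hc (le_idc hTP hM.max.2.1.1) hle)
      (maxTorus_of_le hm (le_idc hT2 hm.2.1.1) hle)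
    exact ⟨q * h⁻¹, H.mul_mem (hle hq) (H.inv_mem hh), by rw [← cjs_cjs, e]⟩
  exact key H hM.conn.1 T' hM hT'

end Pool.Agent.Lib.MP_3a0263_al.Q
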