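import Pool.Agent.Lib.MP_3a0263_al.Q.GBlue
import Pool.Agent.Lib.MP_3a0263_al.Q.ApiC
import Pool.Agent.Lib.MP_3a0263_al.Q.ApiZ1

namespace Pool.Agent.Lib.MP_3a0263_al.Q

open Matrix Pool.Agent.Lib.MP_3a0263_al.R

universe u

namespace Conj0

variable {k : Type u} [Field k] {n : Type} [Fintype n] [DecidableEq n]

theorem anti {C : ℕ → Set (GL n k)} (h : Antitone C) (hC : ∀ j, IsZClosed (C j))
    (hne : ∀ j, (C j).Nonempty) : ∃ g, ∀ j, g ∈ C j := by
  let f : ℕ →o Ideal (MvPolynomial (n × n) k) :=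
    ⟨fun j => vanish (C j), fun a b hab => vanish_anti (h hab)⟩
  obtain ⟨N, hN⟩ := monotone_stabilizes_iff_noetherian.2
    (inferInstance : IsNoetherian (MvPolynomial (n × n) k) (MvPolynomial (n × n) k)) f
  obtain ⟨g, hg⟩ := hne N
  refine ⟨g, fun j => ?_⟩
  rcases le_total j N with hj | hj
  · exact h hj hg
  · refine hC j g fun q hq => ?_
    have e : vanish (C N) = vanish (C j) := hN j hj
    rw [← e] at hq
    exact mem_vanish.1 hq g hg

/-- the elements of a commutative group killed by `m` -/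
def tor (T : Subgroup (GL n k)) (hT : ∀ s ∈ T, ∀ t ∈ T, s * t = t * s) (m : ℕ) :
    Subgroup (GL n k) where
  carrier := {t | t ∈ T ∧ t ^ m = 1}
  one_mem' := ⟨T.one_mem, one_pow m⟩
  mul_mem' := fun {a b} ha hb => ⟨T.mul_mem ha.1 hb.1, by
    rw [Commute.mul_pow (hT a ha.1 b hb.1), ha.2, hb.2, one_mul]⟩
  inv_mem' := fun {a} ha => ⟨T.inv_mem ha.1, by rw [inv_pow, ha.2, inv_one]⟩

theorem closed_comm (x y : GL n k) :
    IsZClosed {h : GL n k | x * (h * y * h⁻¹) = h * y * h⁻¹ * x} := by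
  have h1 : RegM (fun h : GL n k => (h : Matrix n n k) * (y : Matrix n n k) *
      ((h⁻¹ : GL n k) : Matrix n n k)) := (RegM.id.mul (RegM.const _)).mul RegM.inv
  have h2 := closed_eq ((RegM.const (x : Matrix n n k)).mul h1) (h1.mul (RegM.const (x : Matrix n n k)))
  have e : {h : GL n k | x * (h * y * h⁻¹) = h * y * h⁻¹ * x} =
      {h : GL n k | (x : Matrix n n k) * ((h : Matrix n n k) * (y : Matrix n n k) *
        ((h⁻¹ : GL n k) : Matrix n n k)) = (h : Matrix n n k) * (y : Matrix n n k) *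
        ((h⁻¹ : GL n k) : Matrix n n k) * (x : Matrix n n k)} := by
    ext h
    simp only [Set.mem_setOf_eq, ← Units.val_mul, Units.val_inj]
  rw [e]
  exact h2

theorem exists_prime (p : ℕ) : ∃ q : ℕ, q.Prime ∧ q ≠ p := by
  by_cases h : p = 2
  · exact ⟨3, Nat.prime_three, by omega⟩
  · exact ⟨2, Nat.prime_two, fun e => h e.symm⟩

theorem pow_up {x : GL n k} {q a b : ℕ} (hab : a ≤ b) (h : x ^ q ^ a = 1) : x ^ q ^ b = 1 := by
  obtain ⟨c, rfl⟩ := Nat.exists_eq_add_of_le hab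
  rw [pow_add, pow_mul, h, one_pow]

end Conj0

theorem st_conj0 (k : Type u) [Field k] [IsAlgClosed k] (p : ℕ) [Fact p.Prime] [CharP k p]
    (n : Type) [Fintype n] [DecidableEq n] (hsyl : S_syl k p n) (htors : S_tors k p n)
    (htt : S_tt k n) : S_conj0 k n := by
  intro H T T' hH hTri hT hT'
  obtain ⟨q, hq, hqp⟩ := Conj0.exists_prime p
  have c1 := hT.2.1.2.1
  have c2 := hT'.2.1.2.1
  let C : ℕ → Set (GL n k) := fun j => (H : Set (GL n k)) ∩
    ⋂ x : {x : GL n k // x ∈ T ∧ x ^ q ^ j = 1}, ⋂ y : {y : GL n k // y ∈ T' ∧ y ^ q ^ j = 1},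
      {h : GL n k | x.1 * (h * y.1 * h⁻¹) = h * y.1 * h⁻¹ * x.1}
  have hmem : ∀ j h, h ∈ C j ↔ h ∈ H ∧ ∀ x ∈ T, x ^ q ^ j = 1 → ∀ y ∈ T', y ^ q ^ j = 1 →
      x * (h * y * h⁻¹) = h * y * h⁻¹ * x := by
    intro j h
    simp only [C, Set.mem_inter_iff, Set.mem_iInter, Set.mem_setOf_eq, SetLike.mem_coe,
      Subtype.forall, and_imp]
  have hanti : Antitone C := by
    intro a b hab h hh
    rw [hmem] at hh ⊢
    exact ⟨hh.1, fun x hx hx1 y hy hy1 =>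
      hh.2 x hx (Conj0.pow_up hab hx1) y hy (Conj0.pow_up hab hy1)⟩
  have hcl : ∀ j, IsZClosed (C j) := fun j =>
    hH.inter (isZClosed_iInter fun x => isZClosed_iInter fun y => Conj0.closed_comm x.1 y.1)
  have hne : ∀ j, (C j).Nonempty := by
    intro j
    have h0 : q ^ j ≠ 0 := pow_ne_zero j hq.ne_zero
    obtain ⟨h, hh, hc⟩ := hsyl H (Conj0.tor T c1 (q ^ j)) (Conj0.tor T' c2 (q ^ j)) hTri
      (fun x hx => hT.1 hx.1) (fun x hx => hT'.1 hx.1) ((htors T hT.2.1).1 _ h0)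
      ((htors T' hT'.2.1).1 _ h0) q j hq hqp (fun x hx => hx.2) (fun x hx => hx.2)
    exact ⟨h, (hmem j h).2 ⟨hh, fun x hx hx1 y hy hy1 => hc x ⟨hx, hx1⟩ y ⟨hy, hy1⟩⟩⟩
  obtain ⟨h, hh⟩ := Conj0.anti hanti hcl hne
  have hH' : h ∈ H := ((hmem 0 h).1 (hh 0)).1
  have s1 : ∀ j, ∀ y ∈ T', y ^ q ^ j = 1 → ∀ t ∈ T, t * (h * y * h⁻¹) = h * y * h⁻¹ * t := by
    intro j y hy hy1
    refine (htors T hT.2.1).2 q hq hqp _ fun i t ht ht1 => ?_
    exact ((hmem (max i j) h).1 (hh _)).2 t ht (Conj0.pow_up (le_max_left i j) ht1) y hy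
      (Conj0.pow_up (le_max_right i j) hy1)
  have s2 : ∀ t ∈ T, ∀ y ∈ T', y * (h⁻¹ * t * h) = h⁻¹ * t * h * y := by
    intro t ht
    refine (htors T' hT'.2.1).2 q hq hqp _ fun j y hy hy1 => ?_
    have e := s1 j y hy hy1 t ht
    calc y * (h⁻¹ * t * h) = h⁻¹ * (h * y * h⁻¹ * t) * h := by group
      _ = h⁻¹ * (t * (h * y * h⁻¹)) * h := by rw [e]
      _ = h⁻¹ * t * h * y := by group
  refine ⟨h, hH', htt H T (cjs h T') hH hT ?_ fun t ht t' ht' => ?_⟩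
  · have e := maxTorus_cjs h hT'
    rwa [cjs_self hH'] at e
  · have e := s2 t ht _ (mem_cjs.1 ht')
    calc t * t' = h * (h⁻¹ * t * h * (h⁻¹ * t' * h)) * h⁻¹ := by group
      _ = h * (h⁻¹ * t' * h * (h⁻¹ * t * h)) * h⁻¹ := by rw [e]
      _ = t' * t := by group

end Pool.Agent.Lib.MP_3a0263_al.Q
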