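import Pool.Agent.Lib.MP_3a0263_al.Q.GBlue
import Pool.Agent.Lib.MP_3a0263_al.Q.ApiL
import Pool.Agent.Lib.MP_3a0263_al.Q.ApiZ1

namespace Pool.Agent.Lib.MP_3a0263_al.Q

open Matrix Pool.Agent.Lib.MP_3a0263_al.R

attribute [local instance 100] LieRing.ofAssociativeRing

universe u

namespace CR

variable {k : Type u} [Field k] {n : Type} [Fintype n] [DecidableEq n]

/-- relations between weights hold for the entries of the Lie algebra of the torus -/
theorem rel_sum {T : Subgroup (GL n k)} (hB : TorB T) {ι : Type*} (F : Finset ι) (c : ι → ℤ)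
    (a b : ι → n) (h : ∑ s ∈ F, c s • (eps (Y T) (a s) - eps (Y T) (b s)) = 0) {d : n → k}
    (hd : d ∈ tl T) : ∑ s ∈ F, (c s : k) * (d (a s) - d (b s)) = 0 := by
  have key : ∀ {R : Type u} [CommRing R] (v : n → R), ∑ i, ((∑ s ∈ F, c s *
      ((if a s = i then 1 else 0) - if b s = i then 1 else 0) : ℤ) : R) * v i =
      ∑ s ∈ F, (c s : R) * (v (a s) - v (b s)) := by
    intro R _ v
    simp only [Int.cast_sum, Finset.sum_mul]
    rw [Finset.sum_comm]
    refine Finset.sum_congr rfl fun s _ => ?_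
    simp [mul_assoc, ← Finset.mul_sum, sub_mul, Finset.sum_sub_distrib]
  rw [← key d]
  refine hB.rel _ (fun l => ?_) d hd
  have h1 := congrArg (fun φ : XX (Y T) => φ l) h
  simp only [LinearMap.sum_apply, LinearMap.smul_apply, LinearMap.sub_apply, eps_apply,
    smul_eq_mul, LinearMap.zero_apply] at h1
  refine Eq.trans ?_ h1
  simp only [Finset.sum_mul]
  rw [Finset.sum_comm]
  refine Finset.sum_congr rfl fun s _ => ?_
  simp [mul_assoc, ← Finset.mul_sum, sub_mul, Finset.sum_sub_distrib]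

theorem rel_two {T : Subgroup (GL n k)} (hB : TorB T) {i j i' j' : n}
    (h : eps (Y T) i - eps (Y T) j = eps (Y T) i' - eps (Y T) j') {d : n → k}
    (hd : d ∈ tl T) : d i - d j = d i' - d j' := by
  have := rel_sum hB (Finset.univ : Finset (Fin 2)) ![1, -1] ![i, i'] ![j, j']
    (by simp [Fin.sum_univ_two, h]) hd
  simp only [Fin.sum_univ_two, Matrix.cons_val_zero, Matrix.cons_val_one, Int.cast_one,
    Int.cast_neg] at this
  linear_combination this

theorem rel_three {T : Subgroup (GL n k)} (hB : TorB T) {i j i' j' i'' j'' : n} {m : ℤ}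
    (h : eps (Y T) i - eps (Y T) j = eps (Y T) i' - eps (Y T) j' -
      m • (eps (Y T) i'' - eps (Y T) j'')) {d : n → k}
    (hd : d ∈ tl T) : d i - d j = d i' - d j' - m * (d i'' - d j'') := by
  have := rel_sum hB (Finset.univ : Finset (Fin 3)) ![1, -1, m] ![i, i', i''] ![j, j', j'']
    (by simp [Fin.sum_univ_three, h]; abel) hd
  simp only [Fin.sum_univ_three, Matrix.cons_val_zero, Matrix.cons_val_one, Int.cast_one,
    Int.cast_neg, Matrix.cons_val_two, Matrix.head_cons, Matrix.tail_cons] at this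
  linear_combination this

omit [Fintype n] [DecidableEq n] in
theorem ne_neg {Ys : Submodule ℤ (n → ℤ)} {a : XX Ys} (h : a ≠ 0) : a ≠ -a := fun e =>
  h (LinearMap.ext fun l => by
    have := congrArg (fun φ : XX Ys => φ l) e
    simp only [LinearMap.neg_apply] at this
    simp only [LinearMap.zero_apply]
    omega)

theorem wt_lie {Ys : Submodule ℤ (n → ℤ)} {a b : XX Ys} {x y : Matrix n n k} (h : Wt a x)
    (h' : Wt b y) : Wt (a + b) ⁅x, y⁆ := by
  rw [Ring.lie_def]
  exact (h.mul h').sub (add_comm b a ▸ h'.mul h)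

omit [Fintype n] [DecidableEq n] in
theorem diag_of_wt {Ys : Submodule ℤ (n → ℤ)} {a : XX Ys} {x : Matrix n n k} (h : Wt a x)
    (ha : a ≠ 0) : x.diag = 0 := by
  funext i
  by_contra hi
  exact ha (by rw [← h i i hi, sub_self])

theorem finite_root (G T : Subgroup (GL n k)) : Finite {a : XX (Y T) // Root G T a} := by
  have : {a : XX (Y T) | Root G T a}.Finite := by
    refine (Set.finite_range fun q : n × n => eps (Y T) q.1 - eps (Y T) q.2).subset ?_
    rintro a ⟨-, x, -, hx, hw⟩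
    by_contra hn
    refine hx (Matrix.ext fun i j => ?_)
    by_contra hij
    exact hn ⟨(i, j), hw i j hij⟩
  exact this.to_subtype

theorem eq_smul_e {G T : Subgroup (GL n k)} {α : XX (Y T)} (hα : α ≠ 0) (P : Pack G T α)
    {x : Matrix n n k} (hx : x ∈ lie G) (hw : Wt α x) : ∃ c : k, x = c • P.e := by
  by_cases h0 : x = 0
  · exact ⟨0, by rw [h0, zero_smul]⟩
  rcases P.uniq α hα (fun _ h => h) x hx h0 hw with h | h
  · exact h.2
  · exact absurd h.1 (ne_neg hα)

theorem f_eq {G T : Subgroup (GL n k)} {α : XX (Y T)} (hα : α ≠ 0) (P : Pack G T α)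
    {x : Matrix n n k} (hx : x ∈ lie G) (h0 : x ≠ 0) (hw : Wt (-α) x) :
    ∃ c : k, c ≠ 0 ∧ x = c • P.f := by
  rcases P.uniq (-α) (neg_ne_zero.2 hα) (fun l h => by simp [h]) x hx h0 hw with h | h
  · exact absurd h.1.symm (ne_neg hα)
  · obtain ⟨c, hc⟩ := h.2
    exact ⟨c, fun e => h0 (by rw [hc, e, zero_smul]), hc⟩

theorem wcomp_lie [Infinite k] {G T : Subgroup (GL n k)} (hT : T ≤ G) {x : Matrix n n k}
    (hx : x ∈ lie G) (a : XX (Y T)) : wcomp a x ∈ lie G :=
  wcomp_mem (lieSub G) (fun l s => conj_mem_lie (H := G) (H' := G)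
    (fun y hy => nrm_of_le hT l.1 l.2 s y hy) hx) a

theorem co_eq {p : ℕ} {G T : Subgroup (GL n k)} {Φ : Type u} [Fintype Φ] {val : Φ → XX (Y T)}
    {P : ∀ a : Φ, Pack G T (val a)} {C : Comb Φ} (hC : CombF p val P C) {δ β γ : Φ} {j : ℤ}
    (h : val δ = val β + j • val γ) : ∀ i ∈ C.Δ, C.co δ i = C.co β i + j * C.co γ i := by
  intro i hi
  have := hC.indep (fun i => C.co δ i - (C.co β i + j * C.co γ i)) (by
    simp only [sub_smul, add_smul, mul_smul, Finset.sum_sub_distrib, Finset.sum_add_distrib,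
      ← Finset.smul_sum]
    rw [← hC.co δ, ← hC.co β, ← hC.co γ, h, sub_self]) i hi
  omega

theorem main [Infinite k] {p : ℕ} {G T : Subgroup (GL n k)} (hT : T ≤ G) (hB : TorB T)
    (hTC : TorC T) {Φ : Type u} [Fintype Φ] {val : Φ → XX (Y T)} (hinj : Function.Injective val)
    (hr : ∀ a, a ∈ Set.range val ↔ Root G T a) (P : ∀ a : Φ, Pack G T (val a)) (C : Comb Φ)
    (hC : CombF p val P C) (h0 : ∀ x ∈ lie G, Wt (0 : XX (Y T)) x → x ∈ lie T)
    (hww : ∀ α l, (P α).w ((P α).w l) = l)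
    (hsq : ∀ α, ∃ c : k, ⁅(P α).e, ⁅(P α).e, (P α).f⁆⁆ = (2 * c) • (P α).e)
    (hh : ∀ α, ∀ d ∈ tl T, ∃ c : k, ((P α).n0 : Matrix n n k) * diagonal d *
      (((P α).n0⁻¹ : GL n k) : Matrix n n k) - diagonal d = c • ⁅(P α).e, (P α).f⁆)
    (hg : ∀ α (β : XX (Y T)), β ≠ 0 → β ≠ val α → β ≠ -val α →
      (∀ (κ : XX (Y T)) (j : ℤ), κ ≠ val α → κ ≠ -val α → Root G T κ →
        Root G T (κ + j • val α) → |j| < p) →
      ∀ M : LieSubalgebra k (Matrix n n k), (P α).e ∈ M → (P α).f ∈ M → ∀ x ∈ lie G, x ∈ M →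
        Wt β x → ((P α).n0 : Matrix n n k) * x * (((P α).n0⁻¹ : GL n k) : Matrix n n k) ∈ M)
    (L : LieSubalgebra k (Matrix n n k)) (hL : ∀ x, x ∈ L ↔ x ∈ lie G) :
    ∃ R : CRoot p L Φ, R.toComb = C := by
  classical
  have hv : ∀ β, val β ≠ 0 := fun β => ((hr _).1 ⟨β, rfl⟩).1
  have hent : ∀ β, ∃ i j, (P β).e i j ≠ 0 := fun β => by
    by_contra hc
    push Not at hc
    exact (P β).e_ne (Matrix.ext hc)
  choose I J hIJ using hent
  have hE : ∀ β, eps (Y T) (I β) - eps (Y T) (J β) = val β := fun β => (P β).e_wt _ _ (hIJ β)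
  obtain ⟨wt, hwt⟩ : ∃ wt : Φ → tl T →ₗ[k] k, ∀ β d, wt β d = d.1 (I β) - d.1 (J β) :=
    ⟨fun β => ((LinearMap.proj (I β) : (n → k) →ₗ[k] k) - LinearMap.proj (J β)).comp
      (tl T).subtype, fun _ _ => rfl⟩
  obtain ⟨cf, hcf⟩ : ∃ cf : Φ → Matrix n n k →ₗ[k] k,
      ∀ β x, cf β x = ((P β).e (I β) (J β))⁻¹ * x (I β) (J β) :=
    ⟨fun β => ((P β).e (I β) (J β))⁻¹ • Matrix.entryLinearMap k k (I β) (J β), fun _ _ => rfl⟩
  obtain ⟨π, hπ⟩ := (tl T).subtype.exists_leftInverse_of_injective (tl T).ker_subtype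
  obtain ⟨tp, htp⟩ : ∃ tp : Matrix n n k →ₗ[k] tl T, ∀ x, tp x = π x.diag :=
    ⟨π.comp (Matrix.diagLinearMap n k k), fun _ => rfl⟩
  have tp_t : ∀ d : tl T, tp (diagonal d.1) = d := fun d => by
    rw [htp, diag_diagonal]; exact LinearMap.congr_fun hπ d
  have tp_wt : ∀ a : XX (Y T), a ≠ 0 → ∀ x, Wt a x → tp x = 0 := fun a ha x hx => by
    rw [htp, diag_of_wt hx ha, map_zero]
  have cf_wt : ∀ β (a : XX (Y T)) x, Wt a x → cf β x ≠ 0 → val β = a := fun β a x hx hc => by
    rw [hcf] at hc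
    rw [← hE, hx _ _ (right_ne_zero_of_mul hc)]
  have cf_self : ∀ β, cf β (P β).e = 1 := fun β => by rw [hcf, inv_mul_cancel₀ (hIJ β)]
  have hU : ∀ β, ∀ x ∈ lie G, Wt (val β) x → x = cf β x • (P β).e := fun β x hx hw => by
    obtain ⟨c, rfl⟩ := eq_smul_e (hv β) (P β) hx hw
    rw [map_smul, cf_self, smul_eq_mul, mul_one]
  have hF : ∀ α, ∃ c : k, c ≠ 0 ∧ (P (C.neg α)).e = c • (P α).f := fun α =>
    f_eq (hv α) (P α) (P _).e_mem (P _).e_ne (hC.neg α ▸ (P _).e_wt)
  have hH : ∀ α, ∃ h : tl T, (∃ c : k, diagonal h.1 = c • ⁅(P α).e, (P (C.neg α)).e⁆) ∧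
      (wt α ≠ 0 → ∀ β, wt β h = (C.m α β : k)) := fun α => by
    by_cases hα : wt α = 0
    · exact ⟨0, ⟨0, by simp⟩, fun h => absurd hα h⟩
    obtain ⟨d0, hd0⟩ := LinearMap.surjective_of_ne_zero hα 1
    obtain ⟨d', hd', e1, e2⟩ := hTC.tl _ _ (P α).act d0.1 d0.2
    obtain ⟨c, hc⟩ := hh α d0.1 d0.2
    obtain ⟨c', hc', e3⟩ := hF α
    refine ⟨d0 - ⟨d', hd'⟩, ⟨-c * c'⁻¹, ?_⟩, fun _ β => ?_⟩
    · rw [e3, lie_smul, smul_smul, mul_assoc, inv_mul_cancel₀ hc', mul_one, neg_smul, ← hc, e1,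
        neg_sub, diagonal_sub]
      rfl
    · have e4 := e2 (I β) (J β) (I (C.s α β)) (J (C.s α β)) (by rw [hE, hE, hC.w, hC.s])
      have e5 := rel_three hB (i := I (C.s α β)) (j := J (C.s α β)) (i' := I β) (j' := J β)
        (i'' := I α) (j'' := J α) (m := C.m α β) (by rw [hE, hE, hE, hC.s]) d0.2
      rw [hwt] at hd0
      rw [map_sub, hwt, hwt]
      linear_combination -e4 - e5 + (C.m α β : k) * hd0
  choose h hm hw using hH
  refine ⟨{ toComb := C, t := tl T, e := fun β => (P β).e, wt := wt, tp := tp, cf := cf, h := h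
            t_mem := fun d => (hL _).2 (lie_mono hT d.2)
            e_mem := fun β => (hL _).2 (P β).e_mem
            lie_e := fun d β => ?_, decomp := fun x hx => ?_, tp_t := tp_t
            tp_e := fun β => tp_wt _ (hv β) _ (P β).e_wt
            cf_t := fun β d => ?_, cf_self := cf_self, cf_ne := fun β γ hne => ?_
            wt_lin := fun β d => ?_, dim := hC.card.trans hB.dim
            br_cf := fun β γ δ hc => ?_, br_tp := fun β γ hne => ?_
            h_mem := hm, wt_h := hw, sq := fun α => ?_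
            gen := fun α β h1 h2 hs M m1 m2 m3 => ?_ }, rfl⟩
  · ext i j
    rw [Ring.lie_def, Matrix.sub_apply, diagonal_mul, mul_diagonal, Matrix.smul_apply, smul_eq_mul,
      hwt]
    by_cases hij : (P β).e i j = 0
    · simp [hij]
    · rw [rel_two hB ((hE β).trans ((P β).e_wt i j hij).symm) d.2]; ring
  · have hx' := (hL x).1 hx
    have hs := sum_wcomp (insert (0 : XX (Y T)) (Finset.univ.image val)) x fun i j hij => by
      by_cases e : eps (Y T) i - eps (Y T) j = 0
      · rw [e]; exact Finset.mem_insert_self _ _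
      · obtain ⟨β, hβ⟩ := (hr _).2 ⟨e, _, wcomp_lie hT hx' _, fun e' => hij (by
          rw [← wcomp_of_eq x (rfl : eps (Y T) i - eps (Y T) j = _), e']; rfl), wt_wcomp _ x⟩
        exact Finset.mem_insert_of_mem (Finset.mem_image.2 ⟨β, Finset.mem_univ _, hβ⟩)
    rw [Finset.sum_insert (by simpa using hv), Finset.sum_image fun a _ b _ e => hinj e] at hs
    obtain ⟨d, hd, e0⟩ := hB.diag _ (h0 _ (wcomp_lie hT hx' 0) (wt_wcomp 0 x))
    have e1 : x.diag = d := by
      funext i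
      have := congrFun (congrFun e0 i) i
      rwa [wcomp_of_eq x (sub_self _), diagonal_apply_eq] at this
    have e2 : tp x = ⟨d, hd⟩ := by rw [htp, e1]; exact LinearMap.congr_fun hπ ⟨d, hd⟩
    rw [e2, ← e0]
    refine hs.symm.trans (congrArg _ (Finset.sum_congr rfl fun β _ => ?_))
    rw [hU β _ (wcomp_lie hT hx' _) (wt_wcomp _ x), hcf, hcf, wcomp_of_eq x (hE β)]
  · by_contra hc
    exact hv β (cf_wt β 0 _ (wt_diagonal _) hc)
  · by_contra hc
    exact hne (hinj (cf_wt β _ _ (P γ).e_wt hc))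
  · have := rel_sum hB (insert none (C.Δ.map Function.Embedding.some))
      (fun o => o.elim (-1) (C.co β)) (fun o => I (o.getD β)) (fun o => J (o.getD β)) (by
        rw [Finset.sum_insert (by simp), Finset.sum_map]
        simp only [Option.elim, Option.getD, Function.Embedding.some_apply, hE]
        rw [← hC.co β, neg_smul, one_smul, neg_add_cancel]) d.2
    rw [Finset.sum_insert (by simp), Finset.sum_map] at this
    simp only [Option.elim, Option.getD, Function.Embedding.some_apply] at this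
    simp only [hwt]
    push_cast at this
    linear_combination -this
  · have := co_eq hC (j := 1) (δ := δ) (β := β) (γ := γ)
      (by rw [one_smul]; exact cf_wt δ _ _ (wt_lie (P β).e_wt (P γ).e_wt) hc)
    simpa using this
  · refine tp_wt _ (fun e => hne (hinj ?_)) _ (wt_lie (P β).e_wt (P γ).e_wt)
    rw [hC.neg, eq_neg_iff_add_eq_zero, add_comm, e]
  · obtain ⟨c, hc⟩ := hsq α
    obtain ⟨c', -, e3⟩ := hF α
    refine ⟨c' * c, ?_⟩
    rw [e3, lie_smul, lie_smul, hc, smul_smul]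
    ring_nf
  · obtain ⟨c', hc', e3⟩ := hF α
    have mf : (P α).f ∈ M := by
      have := M.smul_mem c'⁻¹ m2
      rwa [e3, smul_smul, inv_mul_cancel₀ hc', one_smul] at this
    have hy := hg α (val β) (hv β) (fun e => h1 (hinj e))
      (fun e => h2 (hinj (by rw [hC.neg, e]))) (fun κ j k1 k2 r1 r2 => by
        obtain ⟨κ, rfl⟩ := (hr _).2 r1
        obtain ⟨κ', e⟩ := (hr _).2 r2
        exact hs κ κ' j (fun e => k1 (by rw [e])) (fun e => k2 (by rw [e, hC.neg]))
          (co_eq hC e)) M m1 mf _ (P β).e_mem m3 (P β).e_wt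
    have hw' := hTC.wt _ _ (P α).act _ _ (P β).e_wt
    have es : val β ∘ₗ (P α).w.symm.toLinearMap = val (C.s α β) := by
      rw [hC.s, ← hC.w]
      refine LinearMap.ext fun l => congrArg (val β) ?_
      exact ((P α).w.symm_apply_eq).2 (hww α l).symm
    rw [es] at hw'
    have hl := conj_mem_lie (H := G) (H' := G) (g := (P α).n0) (fun y hy => G.mul_mem
      (G.mul_mem (P α).n0_mem hy) (G.inv_mem (P α).n0_mem)) (P β).e_mem
    obtain ⟨c, hc⟩ := eq_smul_e (hv _) (P (C.s α β)) hl hw'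
    have c0 : c ≠ 0 := fun e => (P β).e_ne (by
      rw [e, zero_smul] at hc
      have := congrArg (fun y => (((P α).n0⁻¹ : GL n k) : Matrix n n k) * y *
        ((P α).n0 : Matrix n n k)) hc
      simpa [mul_assoc] using this)
    have := M.smul_mem c⁻¹ hy
    rwa [hc, smul_smul, inv_mul_cancel₀ c0, one_smul] at this

end CR

theorem st_cr (k : Type u) [Field k] [IsAlgClosed k] (p : ℕ) [Fact p.Prime] [CharP k p] (n : Type)
    [Fintype n] [DecidableEq n] (hpack : S_pack k n) (hcomb : S_comb k p n) (hcrm : S_crm k n)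
    (hcrh : S_crh k n) (hcrg : S_crg k p n) (hd2 : S_d2 k n) (hct : S_ct k n) (_hta : S_ta k n)
    (htb : S_tb k n) (htc : S_tc k n) : S_cr k p n := by
  intro G T hG hM Δ hΔ L hL
  have := CR.finite_root G T
  let Φ : Type u := ULift.{u} {a : XX (Y T) // Root G T a}
  let _ : Fintype Φ := Fintype.ofFinite _
  let val : Φ → XX (Y T) := fun a => a.down.1
  have hinj : Function.Injective val := fun a b e => ULift.ext _ _ (Subtype.ext e)
  have hr : ∀ a, a ∈ Set.range val ↔ Root G T a := fun a =>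
    ⟨fun ⟨b, e⟩ => e ▸ b.down.2, fun h => ⟨⟨⟨a, h⟩⟩, rfl⟩⟩
  let P : ∀ a : Φ, Pack G T (val a) := fun a => (hpack G T hG hM _ a.down.2).some
  obtain ⟨C, hC⟩ := hcomb G T hM Δ hΔ Φ val hinj hr P
  have hT := hM.max.1
  have hB := htb T hM.max.2.1 hM.diag
  obtain ⟨R, hR⟩ := CR.main hT hB (htc T hM.max.2.1 hM.diag) hinj hr P C hC (fun x hx hw => by
      obtain ⟨l, hl⟩ := exists_gen (Y T)
      rw [← hct G T hG hM l hl]
      refine hd2 G (Y T) hM.conn (nrm_of_le hT) l x hx fun i j hij => ?_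
      by_contra h
      have := hw.apply h l
      simp only [LinearMap.zero_apply] at this
      omega)
    (fun α => (hcrm G T hM _ (P α)).1) (fun α => (hcrh G T hM _ α.down.2.1 (P α)).1)
    (fun α => (hcrh G T hM _ α.down.2.1 (P α)).2) (fun α => hcrg G T hM _ (P α)) L hL
  exact ⟨Φ, inferInstance, R, hR ▸ hC.good⟩

end Pool.Agent.Lib.MP_3a0263_al.Q
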