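import Pool.Agent.Lib.MP_3a0263_al.Q.GBlue

namespace Pool.Agent.Lib.MP_3a0263_al.Q

open Matrix Pool.Agent.Lib.MP_3a0263_al.R

attribute [local instance 100] LieRing.ofAssociativeRing

universe u

namespace CRG

variable {k : Type u} [Field k] {n : Type} [Fintype n] [DecidableEq n]

theorem low (p : ℕ) [CharP k p] {G : Subgroup (GL n k)} {Ys : Submodule ℤ (n → ℤ)} {γ : XX Ys}
    {e : Matrix n n k} {C : Curve G γ e} (h : AdF C) {M : Submodule k (Matrix n n k)}
    (he : ∀ y ∈ M, e * y - y * e ∈ M) {v : Matrix n n k} (hv : v ∈ M) :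
    ∀ j : ℕ, j < p → C.D j v ∈ M := by
  intro j
  induction j with
  | zero => intro _; rw [h.zero]; exact hv
  | succ j ih =>
    intro hj
    have h0 : ((j + 1 : ℕ) : k) ≠ 0 := fun a =>
      absurd (Nat.le_of_dvd j.succ_pos ((CharP.cast_eq_zero_iff k p _).1 a)) (not_le.2 hj)
    have h1 := he _ (ih (by omega))
    rw [← h.one, h.succ] at h1
    exact (M.smul_mem_iff h0).1 h1

/-- the generators of the stable space -/
def gens (G T : Subgroup (GL n k)) (M : Submodule k (Matrix n n k)) (α β : XX (Y T)) :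
    Set (Matrix n n k) := {v | v ∈ lie G ∧ v ∈ M ∧ ∃ r : ℤ, Wt (β + r • α) v}

theorem step (p : ℕ) [CharP k p] {G T : Subgroup (GL n k)} {α β γ : XX (Y T)} {σ : ℤ}
    (hσ : |σ| = 1) (hγ : γ = σ • α) {e : Matrix n n k} {C : Curve G γ e} (h : AdF C)
    {M : Submodule k (Matrix n n k)} (he : ∀ y ∈ M, e * y - y * e ∈ M)
    (hβ : ∀ r s : ℤ, β + r • α ≠ s • α)
    (hp : ∀ (κ : XX (Y T)) (j : ℤ), κ ≠ α → κ ≠ -α → Root G T κ → Root G T (κ + j • α) → |j| < p)
    (j : ℕ) : ∀ v ∈ Submodule.span k (gens G T M α β),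
      C.D j v ∈ Submodule.span k (gens G T M α β) := by
  obtain ⟨φ, hφ⟩ := h.lin j
  intro v hv
  rw [← hφ]
  refine (Submodule.span_le (p := (Submodule.span k (gens G T M α β)).comap φ)).2 ?_ hv
  rintro v ⟨h1, h2, r, h3⟩
  show φ v ∈ Submodule.span k (gens G T M α β)
  by_cases h0 : φ v = 0
  · rw [h0]; exact zero_mem _
  have hv0 : v ≠ 0 := fun a => h0 (by rw [a, map_zero])
  rw [hφ] at h0 ⊢
  have e1 : β + r • α + j • γ = β + r • α + (j * σ : ℤ) • α := by
    rw [hγ, mul_smul, natCast_zsmul]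
  have e2 : β + r • α + (j * σ : ℤ) • α = β + (r + j * σ) • α := by rw [add_smul, add_assoc]
  have w := h.wt j _ v h3
  rw [e1] at w
  have hj := hp (β + r • α) (j * σ) (by simpa using hβ r 1) (by simpa using hβ r (-1))
    ⟨by simpa only [zero_smul] using hβ r 0, v, h1, hv0, h3⟩
    ⟨by rw [e2]; simpa only [zero_smul] using hβ _ 0, _, h.mem j v h1, h0, w⟩
  rw [abs_mul, hσ, mul_one, Nat.abs_cast, Nat.cast_lt] at hj
  exact Submodule.subset_span ⟨h.mem j v h1, low p h he h2 j hj, _, e2 ▸ w⟩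

end CRG

theorem st_crg (k : Type u) [Field k] [IsAlgClosed k] (p : ℕ) [Fact p.Prime] [CharP k p]
    (n : Type) [Fintype n] [DecidableEq n] (had : S_ad k n) (hstab : S_stab k n)
    (hta : S_ta k n) : S_crg k p n := by
  intro G T hT α P β h0 h1 h2 hp M he hf x hx hM hw
  by_cases hx0 : x = 0
  · rw [hx0, mul_zero, zero_mul]; exact M.zero_mem
  have hβ : ∀ r s : ℤ, β + r • α ≠ s • α := fun r s a => by
    refine (P.uniq β h0 (fun l b => ?_) x hx hx0 hw).elim (fun c => h1 c.1) fun c => h2 c.1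
    simpa [b] using congrArg (fun φ : XX (Y T) => φ l) a
  have A := hta T hT.max.2.1 hT.diag
  have s1 := CRG.step p (σ := 1) (by simp) (one_smul _ _).symm (had _ _ _ _ P.xp)
    (M := M.toSubmodule) (fun y a => M.lie_mem he a) hβ hp
  have s2 := CRG.step p (σ := -1) (by simp) (neg_one_smul _ _).symm (had _ _ _ _ P.xm)
    (M := M.toSubmodule) (fun y a => M.lie_mem hf a) hβ hp
  have xW : x ∈ Submodule.span k (CRG.gens G T M.toSubmodule α β) :=
    Submodule.subset_span ⟨hx, hM, 0, by simpa using hw⟩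
  have s3 : ∀ t ∈ T, ∀ v ∈ Submodule.span k (CRG.gens G T M.toSubmodule α β),
      (t : Matrix n n k) * v * ((t⁻¹ : GL n k) : Matrix n n k) ∈
        Submodule.span k (CRG.gens G T M.toSubmodule α β) := by
    intro t ht v hv
    induction hv using Submodule.span_induction with
    | mem v a =>
      obtain ⟨r, b⟩ := a.2.2
      obtain ⟨c, d⟩ := A.wt _ v b t ht
      rw [d]; exact Submodule.smul_mem _ _ (Submodule.subset_span a)
    | zero => rw [mul_zero, zero_mul]; exact zero_mem _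
    | add v w _ _ a b => rw [mul_add, add_mul]; exact add_mem a b
    | smul c v _ a => rw [mul_smul_comm, smul_mul_assoc]; exact Submodule.smul_mem _ _ a
  have := hstab G T α P _ (fun r v a => ⟨s1 r v a, s2 r v a⟩) s3 x
    (fun r _ => ⟨s1 r x xW, s2 r x xW⟩) fun t a => sub_mem (s3 t a x xW) xW
  have le : Submodule.span k (CRG.gens G T M.toSubmodule α β) ≤ M.toSubmodule :=
    Submodule.span_le.2 fun v a => a.2.1
  have := le (add_mem this xW)
  rwa [sub_add_cancel] at this

end Pool.Agent.Lib.MP_3a0263_al.Q
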