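import Pool.Agent.Lib.MP_3a0263_al.Q.GBlue
import Pool.Agent.Lib.MP_3a0263_al.Q.ApiL

namespace Pool.Agent.Lib.MP_3a0263_al.Q

open Matrix Pool.Agent.Lib.MP_3a0263_al.R

attribute [local instance 100] LieRing.ofAssociativeRing

universe u

namespace CRH

variable {k : Type u} [Field k] {n : Type} [Fintype n] [DecidableEq n]
  {G T : Subgroup (GL n k)} {α : XX (Y T)}

omit [Fintype n] [DecidableEq n] in
theorem smul_ne {Ys : Submodule ℤ (n → ℤ)} {α : XX Ys} (hα : α ≠ 0) {m : ℤ} (hm : m ≠ 0) :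
    m • α ≠ 0 := fun h => hα (LinearMap.ext fun l => by
  have := DFunLike.congr_fun h l
  simp only [LinearMap.smul_apply, smul_eq_mul, LinearMap.zero_apply, mul_eq_zero] at this
  simpa using this.resolve_left hm)

/-- the three dimensional space attached to a root -/
def W (P : Pack G T α) : Submodule k (Matrix n n k) :=
  Submodule.span k {P.e, P.f, P.e * P.f - P.f * P.e}

theorem e_mem (P : Pack G T α) : P.e ∈ W P := Submodule.subset_span (by simp)

theorem f_mem (P : Pack G T α) : P.f ∈ W P := Submodule.subset_span (by simp)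

theorem h_mem (P : Pack G T α) : P.e * P.f - P.f * P.e ∈ W P := Submodule.subset_span (by simp)

theorem key (hα : α ≠ 0) (P : Pack G T α) {m : ℤ} (hm : m ≠ 0) {x : Matrix n n k}
    (hx : x ∈ lie G) (hw : Wt (m • α) x) : x ∈ W P := by
  by_cases h0 : x = 0
  · rw [h0]; exact Submodule.zero_mem _
  rcases P.uniq (m • α) (smul_ne hα hm) (fun l hl => by simp [hl]) x hx h0 hw with
    ⟨-, c, rfl⟩ | ⟨-, c, rfl⟩
  · exact Submodule.smul_mem _ _ (e_mem P)
  · exact Submodule.smul_mem _ _ (f_mem P)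

theorem top (hα : α ≠ 0) (P : Pack G T α) {x : Matrix n n k} (hx : x ∈ lie G) (hw : Wt α x) :
    ∃ c : k, x = c • P.e := by
  by_cases h0 : x = 0
  · exact ⟨0, by rw [h0, zero_smul]⟩
  rcases P.uniq α hα (fun _ hl => hl) x hx h0 hw with ⟨-, h⟩ | ⟨h, -⟩
  · exact h
  · exact absurd (by rw [two_smul]; exact eq_neg_iff_add_eq_zero.1 h)
      (smul_ne hα (m := 2) two_ne_zero)

theorem h_wt (P : Pack G T α) : Wt (0 : XX (Y T)) (P.e * P.f - P.f * P.e) := by
  have h1 := P.e_wt.mul P.f_wt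
  have h2 := P.f_wt.mul P.e_wt
  rw [add_neg_cancel] at h1
  rw [neg_add_cancel] at h2
  exact h1.sub h2

theorem dp (hα : α ≠ 0) (P : Pack G T α) (A : AdF P.xp) (m : ℤ) (r : ℕ) (h : m + r ≠ 0)
    {x : Matrix n n k} (hx : x ∈ lie G) (hw : Wt (m • α) x) : P.xp.D r x ∈ W P := by
  refine key hα P h (A.mem r x hx) ?_
  rw [add_smul, natCast_zsmul]
  exact A.wt r _ x hw

theorem dm (hα : α ≠ 0) (P : Pack G T α) (A : AdF P.xm) (m : ℤ) (r : ℕ) (h : m - r ≠ 0)
    {x : Matrix n n k} (hx : x ∈ lie G) (hw : Wt (m • α) x) : P.xm.D r x ∈ W P := by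
  refine key hα P h (A.mem r x hx) ?_
  rw [sub_smul, natCast_zsmul, sub_eq_add_neg, ← smul_neg]
  exact A.wt r _ x hw

theorem lin_stab (P : Pack G T α) (φ : Matrix n n k →ₗ[k] Matrix n n k) (he : φ P.e ∈ W P)
    (hf : φ P.f ∈ W P) (hh : φ (P.e * P.f - P.f * P.e) ∈ W P) : ∀ v ∈ W P, φ v ∈ W P := by
  intro v hv
  obtain ⟨a, b, c, rfl⟩ := Submodule.mem_span_triple.1 hv
  rw [map_add, map_add, map_smul, map_smul, map_smul]
  exact add_mem (add_mem (Submodule.smul_mem _ _ he) (Submodule.smul_mem _ _ hf))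
    (Submodule.smul_mem _ _ hh)

theorem stab (hα : α ≠ 0) (P : Pack G T α) (A : AdF P.xp) (B : AdF P.xm) (r : ℕ) :
    ∀ v ∈ W P, P.xp.D r v ∈ W P ∧ P.xm.D r v ∈ W P := by
  have hl : P.e * P.f - P.f * P.e ∈ lie G := by rw [← A.one]; exact A.mem 1 _ P.f_mem
  have we : Wt ((1 : ℤ) • α) P.e := by rw [one_smul]; exact P.e_wt
  have wf : Wt ((-1 : ℤ) • α) P.f := by rw [neg_smul, one_smul]; exact P.f_wt
  have wh : Wt ((0 : ℤ) • α) (P.e * P.f - P.f * P.e) := by rw [zero_smul]; exact h_wt P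
  obtain ⟨φ, hφ⟩ := A.lin r
  obtain ⟨ψ, hψ⟩ := B.lin r
  intro v hv
  rw [← hφ, ← hψ]
  refine ⟨lin_stab P φ ?_ ?_ ?_ v hv, lin_stab P ψ ?_ ?_ ?_ v hv⟩
  · rw [hφ]; exact dp hα P A 1 r (by omega) P.e_mem we
  · rw [hφ]
    by_cases h : r = 1
    · rw [h, A.one]; exact h_mem P
    · exact dp hα P A (-1) r (by omega) P.f_mem wf
  · rw [hφ]
    by_cases h : r = 0
    · rw [h, A.zero]; exact h_mem P
    · exact dp hα P A 0 r (by omega) hl wh
  · rw [hψ]
    by_cases h : r = 1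
    · rw [h, B.one, ← neg_sub]; exact neg_mem (h_mem P)
    · exact dm hα P B 1 r (by omega) P.e_mem we
  · rw [hψ]; exact dm hα P B (-1) r (by omega) P.f_mem wf
  · rw [hψ]
    by_cases h : r = 0
    · rw [h, B.zero]; exact h_mem P
    · exact dm hα P B 0 r (by omega) hl wh

theorem tstab (P : Pack G T α) (A : TorA T) : ∀ t ∈ T, ∀ v ∈ W P,
    (t : Matrix n n k) * v * ((t⁻¹ : GL n k) : Matrix n n k) ∈ W P := by
  intro t ht v hv
  let φ : Matrix n n k →ₗ[k] Matrix n n k :=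
    (LinearMap.mulRight k ((t⁻¹ : GL n k) : Matrix n n k)).comp
      (LinearMap.mulLeft k (t : Matrix n n k))
  have hφ : ∀ (b : XX (Y T)) x, Wt b x → x ∈ W P → φ x ∈ W P := fun b x hb hx => by
    obtain ⟨c, hc⟩ := A.wt b x hb t ht
    have : φ x = c • x := hc
    rw [this]; exact Submodule.smul_mem _ _ hx
  exact lin_stab P φ (hφ _ _ P.e_wt (e_mem P)) (hφ _ _ P.f_wt (f_mem P))
    (hφ _ _ (h_wt P) (h_mem P)) v hv

theorem zero_part (hα : α ≠ 0) (P : Pack G T α) {x : Matrix n n k} (hx : x ∈ W P)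
    (hw : Wt (0 : XX (Y T)) x) : ∃ c : k, x = c • (P.e * P.f - P.f * P.e) := by
  obtain ⟨a, b, c, h⟩ := Submodule.mem_span_triple.1 hx
  obtain ⟨π, hπ⟩ := exists_wcomp_lin (k := k) (0 : XX (Y T))
  refine ⟨c, ?_⟩
  have := congrArg π h
  rw [map_add, map_add, map_smul, map_smul, map_smul, hπ, hπ, hπ, hπ, P.e_wt.wcomp_ne hα,
    P.f_wt.wcomp_ne (neg_ne_zero.2 hα), (h_wt P).wcomp_self, hw.wcomp_self, smul_zero, smul_zero,
    zero_add, zero_add] at this
  exact this.symm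

end CRH

theorem st_crh (k : Type u) [Field k] [IsAlgClosed k] (p : ℕ) [Fact p.Prime] [CharP k p]
    (n : Type) [Fintype n] [DecidableEq n] (had : S_ad k n) (hstab : S_stab k n)
    (hta : S_ta k n) (htc : S_tc k n) : S_crh k n := by
  intro G T hM α hα P
  have A := had G _ α P.e P.xp
  have B := had G _ (-α) P.f P.xm
  have TA := hta T hM.max.2.1 hM.diag
  have TC := htc T hM.max.2.1 hM.diag
  refine ⟨?_, fun d hd => ?_⟩
  · have hw := A.wt 2 _ _ P.f_wt
    rw [two_smul, neg_add_cancel_left] at hw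
    obtain ⟨c, hc⟩ := CRH.top hα P (A.mem 2 _ P.f_mem) hw
    refine ⟨c, ?_⟩
    have h := A.succ 1 P.f
    rw [hc, A.one, A.one, smul_smul] at h
    rw [Ring.lie_def, Ring.lie_def, h]
    norm_num
  · have hl : diagonal d ∈ lie G := lie_mono hM.max.1 (mem_tl.1 hd)
    have w0 : Wt ((0 : ℤ) • α) (diagonal d) := by rw [zero_smul]; exact wt_diagonal d
    have h := hstab G T α P (CRH.W P) (CRH.stab hα P A B) (CRH.tstab P TA) (diagonal d)
      (fun r hr => ⟨CRH.dp hα P A 0 r (by omega) hl w0, CRH.dm hα P B 0 r (by omega) hl w0⟩)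
      fun t ht => by
        rw [TA.wt0 _ (wt_diagonal d) t ht, mul_assoc, Units.mul_inv, mul_one, sub_self]
        exact Submodule.zero_mem _
    obtain ⟨d', -, hd', -⟩ := TC.tl P.n0 P.w P.act d hd
    rw [hd'] at h ⊢
    exact CRH.zero_part hα P h ((wt_diagonal d').sub (wt_diagonal d))

end Pool.Agent.Lib.MP_3a0263_al.Q
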