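import Pool.Agent.Lib.MP_3a0263_al.Q.GBlue
import Pool.Agent.Lib.MP_3a0263_al.Q.ApiR
import Pool.Agent.Lib.MP_3a0263_al.Q.ApiZ2
import Pool.Agent.Lib.MP_3a0263_al.Q.ApiZ3

namespace Pool.Agent.Lib.MP_3a0263_al.Q

open Matrix Pool.Agent.Lib.MP_3a0263_al.R

universe u

namespace CT

variable {k : Type u} [Field k] {n : Type} [Fintype n] [DecidableEq n]

theorem wt0_of_Zc {T : Subgroup (GL n k)} {l : Y T} (hl : Gen l) {c : GL n k}
    (hc : c ∈ Zc k l.1) : Wt (0 : XX (Y T)) (c : Matrix n n k) := fun i j hij => by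
  have h : l.1 i = l.1 j := by
    by_contra h
    exact hij (mem_Zc.1 hc i j h)
  rw [hl i j h, sub_self]

theorem Zc_of_wt0 {T : Subgroup (GL n k)} (l : Y T) {c : GL n k}
    (hc : Wt (0 : XX (Y T)) (c : Matrix n n k)) : c ∈ Zc k l.1 := mem_Zc.2 fun i j hij => by
  by_contra h
  have h1 := congrArg (fun a : XX (Y T) => a l) (hc i j h)
  simp only [LinearMap.sub_apply, eps_apply, LinearMap.zero_apply] at h1
  omega

theorem regM_left (f : GL n k) : RegM fun g : GL n k => ((f * g : GL n k) : Matrix n n k) :=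
  (RegM.const (f : Matrix n n k)).mul RegM.id

theorem col_top [Infinite k] {G T : Subgroup (GL n k)} (R : IRep G T) (hT : T ≤ G) {l : Y T}
    {u : Fin R.m} (hu : R.Top l.1 u) {g : GL n k} (hg : g ∈ G ⊓ Zc k l.1) :
    R.col g u = R.ρ (g : Matrix n n k) u u • (Pi.single u 1 : Fin R.m → k) := by
  funext v
  by_cases h : v = u
  · subst h; simp [IRep.col]
  · have := R.rho_Zc hT l hg v u (hu v h).ne
    simp [IRep.col, this, Pi.single_eq_of_ne h]

theorem chi_mul [Infinite k] {G T : Subgroup (GL n k)} (R : IRep G T) (hT : T ≤ G) {l : Y T}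
    {u : Fin R.m} (hu : R.Top l.1 u) {g h : GL n k} (hg : g ∈ G) (hh : h ∈ G ⊓ Zc k l.1) :
    R.ρ ((g * h : GL n k) : Matrix n n k) u u =
      R.ρ (g : Matrix n n k) u u * R.ρ (h : Matrix n n k) u u := by
  have h1 := congrFun (R.col_mul hg hh.1 u) u
  rw [col_top R hT hu hh, Matrix.mulVec_smul, ← R.col_eq] at h1
  simpa [IRep.col, mul_comm] using h1

theorem chi_pow [Infinite k] {G T : Subgroup (GL n k)} (R : IRep G T) (hT : T ≤ G) {l : Y T}
    {u : Fin R.m} (hu : R.Top l.1 u) {g : GL n k} (hg : g ∈ G ⊓ Zc k l.1) (m : ℕ) :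
    R.ρ ((g ^ m : GL n k) : Matrix n n k) u u = R.ρ (g : Matrix n n k) u u ^ m := by
  induction m with
  | zero => simp [R.one]
  | succ m ih => rw [pow_succ, chi_mul R hT hu (G.pow_mem hg.1 m) hg, ih, pow_succ]

theorem finite_roots {m : ℕ} (hm : m ≠ 0) : {x : k | x ^ m = 1}.Finite := by
  classical
  refine (Polynomial.nthRoots m (1 : k)).toFinset.finite_toSet.subset fun x hx => ?_
  simpa [Polynomial.mem_nthRoots (Nat.pos_of_ne_zero hm)] using hx

end CT

open CT in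
theorem st_ct (k : Type u) [Field k] [IsAlgClosed k] (p : ℕ) [Fact p.Prime] [CharP k p] (n : Type)
    [Fintype n] [DecidableEq n] (htp : S_tp k n) (hta : S_ta k n) (hla : S_la k n)
    (hker : S_ker k n) : S_ct k n := by
  classical
  intro G T hG hMT l hl
  have hTG : T ≤ G := hMT.max.1
  have hA := hta T hMT.max.2.1 hMT.diag
  have hconn : IsConnAlg (idc (G ⊓ Zc k l.1)) := conn_idc (closed_inf hG.1.1 (closed_Zc _))
  have hTC : T ≤ idc (G ⊓ Zc k l.1) := by
    refine le_idc (fun t ht => ⟨hTG ht, ?_⟩) hMT.max.2.1.1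
    obtain ⟨d, rfl⟩ := hMT.diag t ht
    exact dg_mem_Zc d _
  set C := idc (G ⊓ Zc k l.1) with hC
  have hCG : ∀ c ∈ C, c ∈ G := fun c hc => (idc_le _ hc).1
  have hw : ∀ c ∈ C, Wt (0 : XX (Y T)) (c : Matrix n n k) := fun c hc =>
    wt0_of_Zc hl (idc_le _ hc).2
  have hcomm : ∀ c ∈ C, ∀ t ∈ T, t * c = c * t := fun c hc t ht =>
    Units.ext (hA.wt0 _ (hw c hc) t ht)
  have hZ : ∀ c ∈ C, ∀ l' : Y T, c ∈ G ⊓ Zc k l'.1 := fun c hc l' =>
    ⟨hCG c hc, Zc_of_wt0 l' (hw c hc)⟩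
  obtain ⟨m, hm, hmT⟩ := htp G T hG.1.1 hMT.max
  have hFc : IsZClosed ((C : Set (GL n k)) ∩
      {g : GL n k | (g : Matrix n n k) ^ m = (1 : Matrix n n k)}) :=
    hconn.1.inter (closed_eq (RegM.id.pow m) (RegM.const 1))
  set F := (C : Set (GL n k)) ∩ {g : GL n k | (g : Matrix n n k) ^ m = (1 : Matrix n n k)} with hF
  have hmemF : ∀ f, f ∈ F ↔ f ∈ C ∧ f ^ m = 1 := fun f =>
    and_congr Iff.rfl ⟨fun h => Units.ext (by simpa using h), fun h => by
      have := congrArg Units.val h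
      simpa using this⟩
  have hfin : F.Finite := by
    obtain ⟨P, hP, hPi, hcov⟩ := exists_decomp F
    refine (hP.sUnion fun D hD => ?_).subset hcov
    obtain ⟨hirr, -, ⟨f0, hf0⟩, hDF⟩ := hPi D hD
    have hDF' : D ⊆ F := hDF.trans (ZAR.cl_min hFc subset_rfl)
    have h0 := (hmemF f0).1 (hDF' hf0)
    have hS : ZAR.Irr ((fun g => f0⁻¹ * g) '' D) := irr_image hirr (regM_left f0⁻¹)
    have hSC : ∀ g ∈ (fun g => f0⁻¹ * g) '' D, g ∈ C := by
      rintro _ ⟨f, hf, rfl⟩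
      exact C.mul_mem (C.inv_mem h0.1) ((hmemF f).1 (hDF' hf)).1
    have h1 : (1 : GL n k) ∈ (fun g => f0⁻¹ * g) '' D := ⟨f0, hf0, inv_mul_cancel f0⟩
    have hone := hker G T hG hTG hMT.diag _ (fun g hg => hCG g (hSC g hg)) hS h1 fun R =>
      hla G T hMT R _ (fun g hg => hCG g (hSC g hg)) hS h1 fun u ⟨l', _, hu⟩ g hg => by
        have hreg : (fun g : GL n k => R.ρ (g : Matrix n n k) u u) ∈ reg k n :=
          RegM.id.lin R.ρ u u
        have hval : ∀ g ∈ (fun g => f0⁻¹ * g) '' D,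
            R.ρ (g : Matrix n n k) u u ∈ {x : k | x ^ m = 1} := by
          rintro _ hg'
          have hgC := hSC _ hg'
          obtain ⟨f, hf, rfl⟩ := hg'
          have hf1 := (hmemF f).1 (hDF' hf)
          have e1 := chi_mul R hTG hu (hCG _ h0.1) (hZ _ hgC l')
          rw [mul_inv_cancel_left] at e1
          have e2 := chi_pow R hTG hu (hZ _ hf1.1 l') m
          have e3 := chi_pow R hTG hu (hZ _ h0.1 l') m
          rw [hf1.2] at e2
          rw [h0.2] at e3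
          simp only [Units.val_one, R.one, Matrix.one_apply_eq] at e2 e3
          rw [e1, mul_pow, ← e3, one_mul] at e2
          exact e2.symm
        have e := irr_const hS hreg (finite_roots hm) hval g hg 1 h1
        rw [col_top R hTG hu (hZ g (hSC g hg) l'), e]
        simp [R.one]
    refine (Set.finite_singleton f0).subset fun f hf => ?_
    have := hone _ ⟨f, hf, rfl⟩
    exact (inv_mul_eq_one.1 this).symm
  refine le_antisymm ?_ hTC
  obtain ⟨f, -, hf⟩ := subset_of_cover hconn.2 hfin.toFinset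
    (fun f => (fun g => f⁻¹ * g) ⁻¹' (T : Set (GL n k)))
    (fun f _ => closed_preimage hMT.max.2.1.1.1 (regM_left f⁻¹)) fun c hc => by
      obtain ⟨t, ht, htm⟩ := hA.div m hm _ (hmT c (hCG c hc) (hcomm c hc))
      have hco : Commute c t⁻¹ := (hcomm c hc _ (T.inv_mem ht)).symm
      refine ⟨c * t⁻¹, hfin.mem_toFinset.2 ((hmemF _).2 ⟨C.mul_mem hc (hTC (T.inv_mem ht)), ?_⟩), ?_⟩
      · rw [hco.mul_pow, inv_pow, htm, mul_inv_cancel]
      · show (c * t⁻¹)⁻¹ * c ∈ T
        simpa using ht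
  have h1 : f⁻¹ ∈ T := by simpa using hf C.one_mem
  intro c hc
  have h2 : f⁻¹ * c ∈ T := hf hc
  simpa using T.mul_mem (T.inv_mem h1) h2

end Pool.Agent.Lib.MP_3a0263_al.Q
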