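import Pool.Agent.Lib.MP_3a0263_al.Q.GBlue
import Pool.Agent.Lib.MP_3a0263_al.Q.ApiL
import Pool.Agent.Lib.MP_3a0263_al.Q.ApiP

namespace Pool.Agent.Lib.MP_3a0263_al.Q

open Matrix Pool.Agent.Lib.MP_3a0263_al.R

universe u

namespace CurveB

variable {k : Type u} [Field k] {n : Type} [Fintype n] [DecidableEq n]

theorem eq_single {d : ℕ} {i : Fin d} (hi : ∀ j, j = i) (e : Fin d →₀ ℕ) :
    e = Finsupp.single i (e i) := by
  ext j
  rw [hi j, Finsupp.single_eq_same]

theorem eval_eq {d : ℕ} {i : Fin d} (hi : ∀ j, j = i) (f : MvPolynomial (Fin d) k) {N : ℕ}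
    (hN : f.totalDegree < N) (z : k) :
    MvPolynomial.eval (fun _ => z) f =
      ∑ r ∈ Finset.range N, z ^ r * f.coeff (Finsupp.single i r) := by
  classical
  have h1 : ∀ r : ℕ, ∏ j, z ^ (Finsupp.single i r) j = z ^ r := fun r => by
    rw [Finset.prod_eq_single i (fun j _ hj => absurd (hi j) hj)
      (fun h => absurd (Finset.mem_univ i) h), Finsupp.single_eq_same]
  have h2 : ∑ r ∈ Finset.range N, z ^ r * f.coeff (Finsupp.single i r) =
      ∑ e ∈ (Finset.range N).image (Finsupp.single i), f.coeff e * ∏ j, z ^ e j := by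
    rw [Finset.sum_image (fun a _ b _ h => Finsupp.single_injective i h)]
    exact Finset.sum_congr rfl fun r _ => by rw [h1, mul_comm]
  rw [h2, MvPolynomial.eval_eq']
  refine Finset.sum_subset (fun e he => ?_) (fun e _ he => ?_)
  · refine Finset.mem_image.2 ⟨e i, Finset.mem_range.2 ?_, (eq_single hi e).symm⟩
    have h3 := MvPolynomial.le_totalDegree he
    rw [eq_single hi e, Finsupp.sum_single_index rfl] at h3
    omega
  · rw [MvPolynomial.notMem_support_iff.1 he, zero_mul]

end CurveB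

theorem st_curve (k : Type u) [Field k] [IsAlgClosed k] (p : ℕ) [Fact p.Prime] [CharP k p]
    (n : Type) [Fintype n] [DecidableEq n] : S_curve k n := by
  intro H G Ys l C i hHG hi
  classical
  obtain ⟨D, hD⟩ : ∃ D : ℕ, ∀ a b, (C.g a b).totalDegree ≤ D :=
    ⟨Finset.univ.sup fun q : n × n => (C.g q.1 q.2).totalDegree, fun a b =>
      Finset.le_sup (f := fun q : n × n => (C.g q.1 q.2).totalDegree) (Finset.mem_univ (a, b))⟩
  let X : ℕ → Matrix n n k := fun r => Matrix.of fun a b => (C.g a b).coeff (Finsupp.single i r)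
  have hval : ∀ z : k, (C.pt (fun _ => z) : Matrix n n k) =
      ∑ r ∈ Finset.range (D + 2), z ^ r • X r := fun z => by
    ext a b
    rw [C.pt_val, Matrix.map_apply, CurveB.eval_eq hi _ (N := D + 2) (by have := hD a b; omega),
      Matrix.sum_apply]
    rfl
  have hwt : ∀ r : ℕ, Wt (r • C.a i) (X r) := fun r a b h => by
    rw [← C.hom a b _ h, Finset.sum_eq_single i (fun j _ hj => absurd (hi j) hj)
      (fun h => absurd (Finset.mem_univ i) h), Finsupp.single_eq_same]
  have hX0 : X 0 = 1 := by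
    ext a b
    have := C.g0 a b
    simpa [X] using this
  have hdeg : ∀ z : k, (C.pt (fun _ => z) : Matrix n n k) - 1 ∈ degGE k l.1 (C.a i l) := fun z => by
    rw [hval, Finset.sum_range_succ', pow_zero, one_smul, hX0, add_sub_cancel_right]
    refine Submodule.sum_mem _ fun r _ => Submodule.smul_mem _ _ ?_
    refine degGE_mono ?_ ((hwt (r + 1)).mem_degGE l)
    have h1 := C.pos i
    rw [LinearMap.smul_apply, nsmul_eq_mul]
    push_cast
    nlinarith [Int.natCast_nonneg r]
  refine ⟨⟨D + 2, X, fun z => C.pt fun _ => z, hval, fun z => hHG (C.pt_mem _).1, fun z z' => ?_,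
    by omega, hX0, ?_, fun r hr => ?_, hwt⟩, fun _ => rfl⟩
  · have hu := (H ⊓ Up k l.1).mul_mem (C.pt_mem fun _ => z) (C.pt_mem fun _ => z')
    rw [← C.pt_lf _ hu]
    refine congrArg C.pt (funext fun j => ?_)
    obtain ⟨φ, hφ⟩ := exists_lf_lin (R := k) (C.c j)
    have e : (((C.pt fun _ => z) * (C.pt fun _ => z') : GL n k) : Matrix n n k) - 1 =
        ((C.pt (fun _ => z) : Matrix n n k) - 1) * ((C.pt (fun _ => z') : Matrix n n k) - 1) +
          (((C.pt (fun _ => z) : Matrix n n k) - 1) + ((C.pt (fun _ => z') : Matrix n n k) - 1)) := by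
      rw [Units.val_mul]; noncomm_ring
    have h0 : lf (C.c j) (((C.pt (fun _ => z) : Matrix n n k) - 1) *
        ((C.pt (fun _ => z') : Matrix n n k) - 1)) = 0 := by
      refine lf_degGE (C.c_wt j) (degGE_mul (hdeg z) (hdeg z')) ?_
      have h1 := C.pos i
      rw [hi j]
      omega
    rw [e, ← hφ, map_add, map_add, hφ, hφ, hφ, h0, C.lf_pt, C.lf_pt, zero_add]
  · ext a b
    exact C.g1 i a b
  · ext a b
    refine MvPolynomial.coeff_eq_zero_of_totalDegree_lt ?_
    have h1 := hD a b
    rcases Nat.eq_zero_or_pos r with h | h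
    · omega
    · rw [Finsupp.support_single _ h.ne', Finset.sum_singleton, Finsupp.single_eq_same]
      omega

end Pool.Agent.Lib.MP_3a0263_al.Q
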