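import Pool.Agent.Lib.MP_3a0263_al.Q.GBlue
import Pool.Agent.Lib.MP_3a0263_al.Q.ApiL
import Pool.Agent.Lib.MP_3a0263_al.Q.ApiP

namespace Pool.Agent.Lib.MP_3a0263_al.Q

open Matrix Pool.Agent.Lib.MP_3a0263_al.R

universe u

variable {k : Type u} [Field k] {n : Type} [Fintype n] [DecidableEq n]

namespace D1

theorem pow_mem {l : n → ℤ} {x : Matrix n n k} (hx : x ∈ degGE k l 1) (m : ℕ) :
    x ^ m ∈ degGE k l m := by
  induction m with
  | zero => simpa using one_mem_degGE l
  | succ m ih => rw [pow_succ]; simpa using degGE_mul ih hx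

theorem nilp {l : n → ℤ} {x : Matrix n n k} (hx : x ∈ degGE k l 1) : IsNilpotent x := by
  obtain ⟨M, hM⟩ := (Set.finite_range fun ij : n × n => l ij.1 - l ij.2).bddAbove
  refine ⟨M.toNat + 1, Matrix.ext fun i j => pow_mem hx _ i j ?_⟩
  have := hM ⟨(i, j), rfl⟩
  simp only at this
  omega

omit [Fintype n] in
theorem entry_const {Ys : Submodule ℤ (n → ℤ)} {d : ℕ} {a : Fin d → XX Ys} {l : Ys}
    (hpos : ∀ v, 0 < a v l) {g : Matrix n n (MvPolynomial (Fin d) k)} (hg : Hom a g)
    (h0 : ∀ i j, (g i j).coeff 0 = (1 : Matrix n n k) i j) {i j : n} (h : l.1 i - l.1 j < 1) :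
    g i j = MvPolynomial.C ((1 : Matrix n n k) i j) := by
  ext e
  rw [MvPolynomial.coeff_C]
  split_ifs with he
  · rw [← he, h0]
  · by_contra hc
    have h1 := LinearMap.congr_fun (hg i j e hc) l
    rw [LinearMap.sub_apply, eps_apply, eps_apply, LinearMap.sum_apply] at h1
    obtain ⟨v, hv⟩ : ∃ v, e v ≠ 0 := by
      by_contra hn
      push Not at hn
      exact he (Finsupp.ext hn).symm
    have h2 : (e v • a v) l ≤ ∑ w, (e w • a w) l :=
      Finset.single_le_sum (f := fun w => (e w • a w) l) (fun w _ => by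
        rw [LinearMap.smul_apply, nsmul_eq_mul]
        exact mul_nonneg (Nat.cast_nonneg _) (hpos w).le) (Finset.mem_univ v)
    have h3 : 0 < (e v • a v) l := by
      rw [LinearMap.smul_apply, nsmul_eq_mul]
      exact mul_pos (by exact_mod_cast Nat.pos_of_ne_zero hv) (hpos v)
    omega

theorem map_sub_one {R R' : Type u} [CommRing R] [Algebra k R] [CommRing R'] [Algebra k R']
    (φ : R →ₐ[k] R') (x : Matrix n n R) : x.map φ - 1 = (x - 1).map φ := by
  have h : ∀ y : Matrix n n R, y.map φ = φ.mapMatrix y := fun _ => rfl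
  rw [h, h, map_sub, map_one]

/-- the contraction of `u` along the cocharacter -/
noncomputable def con (l : n → ℤ) (u : Matrix n n k) : Matrix n n (Polynomial k) :=
  1 + Matrix.of fun i j => Polynomial.X ^ (l i - l j).toNat * Polynomial.C ((u - 1) i j)

omit [Fintype n] in
theorem con_sub (l : n → ℤ) (u : Matrix n n k) (i j : n) :
    (con l u - 1) i j = Polynomial.X ^ (l i - l j).toNat * Polynomial.C ((u - 1) i j) := by
  rw [con, add_sub_cancel_left, Matrix.of_apply]

omit [Fintype n] in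
theorem con_eval (l : n → ℤ) (u : Matrix n n k) (s : k) (i j : n) :
    Polynomial.aeval s (con l u i j) =
      (1 : Matrix n n k) i j + s ^ (l i - l j).toNat * (u - 1) i j := by
  rw [con, Matrix.add_apply, Matrix.of_apply, map_add, map_mul, map_pow, Polynomial.aeval_X,
    Polynomial.aeval_C, Matrix.one_apply, Matrix.one_apply]
  split_ifs <;> simp

theorem con_pt [Infinite k] {H : Subgroup (GL n k)} {Ys : Submodule ℤ (n → ℤ)} (hN : Nrm Ys H)
    (l : Ys) {u : GL n k} (hu : u ∈ H ⊓ Up k l.1) (I : Ideal (Polynomial k)) :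
    PtMod (H : Set (GL n k)) I (con l.1 (u : Matrix n n k)) := fun f hf => by
  have h0 : MvPolynomial.aeval (fun ij : n × n => con l.1 (u : Matrix n n k) ij.1 ij.2) f = 0 := by
    refine Polynomial.eq_zero_of_infinite_isRoot _
      ((Set.finite_singleton (0 : k)).infinite_compl.mono fun s hs => ?_)
    have hs' : s ≠ 0 := hs
    have h1 := mem_vanish.1 hf _ (hN l.1 l.2 (Units.mk0 s hs') u hu.1)
    have h2 := ApiP.aeval_map_entries (Polynomial.aeval s) (con l.1 (u : Matrix n n k)) f
    show Polynomial.eval s _ = 0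
    rw [← Polynomial.coe_aeval_eq_eval, ← h2, ← h1]
    refine congrArg (fun x => MvPolynomial.aeval x f) (funext fun ij => ?_)
    rw [Matrix.map_apply, con_eval, entries, Units.val_mul, Units.val_mul, coch_conj]
    by_cases h : l.1 ij.1 - l.1 ij.2 < 1
    · have h3 := mem_Up.1 hu.2 ij.1 ij.2 h
      rw [h3, mul_zero, add_zero]
      rw [Matrix.sub_apply, sub_eq_zero] at h3
      rw [h3, Matrix.one_apply]
      split_ifs with e
      · rw [e]; simp
      · simp
    · have e : ij.1 ≠ ij.2 := fun e => h (by rw [e]; omega)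
      obtain ⟨m, hm⟩ := Int.eq_ofNat_of_zero_le (show 0 ≤ l.1 ij.1 - l.1 ij.2 by omega)
      rw [Matrix.sub_apply, Matrix.one_apply_ne e, hm]
      simp
  rw [h0]; exact I.zero_mem

omit [Fintype n] in
theorem con_cong {l : n → ℤ} {u : Matrix n n k} (hu : u - 1 ∈ degGE k l 1) :
    Cong (Ideal.span {(Polynomial.X : Polynomial k)}) (con l u) 1 := fun i j => by
  rw [← Matrix.sub_apply, con_sub]
  by_cases h : l i - l j < 1
  · rw [hu i j h]; simp
  · exact Ideal.mul_mem_right _ _
      (Ideal.pow_mem_of_mem _ (Ideal.mem_span_singleton_self _) _ (by omega))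

theorem lf_con {Ys : Submodule ℤ (n → ℤ)} {a : XX Ys} {c : Matrix n n k} (hc : Wt a c) (l : Ys)
    (u : Matrix n n k) :
    lf c (con l.1 u - 1) = Polynomial.C (lf c (u - 1)) * Polynomial.X ^ (a l).toNat := by
  rw [lf, lf, map_sum, Finset.sum_mul]
  refine Finset.sum_congr rfl fun ij _ => ?_
  by_cases h : c ij.1 ij.2 = 0
  · rw [h]; simp
  · rw [con_sub, hc.apply h l, smul_eq_mul, Polynomial.smul_eq_C_mul, Polynomial.C_mul]; ring

theorem eq_zero_of_mem {q : Polynomial k}
    (h : ∀ N, q ∈ Ideal.span {(Polynomial.X : Polynomial k)} ^ N) : q = 0 := by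
  ext m
  have h1 := h (m + 1)
  rw [Ideal.span_singleton_pow, Ideal.mem_span_singleton, Polynomial.X_pow_dvd_iff] at h1
  exact h1 m (Nat.lt_succ_self m)

theorem aeval_aeval {d : ℕ} (s : k) (φ : Fin d → Polynomial k) (q : MvPolynomial (Fin d) k) :
    Polynomial.aeval s (MvPolynomial.aeval φ q) =
      MvPolynomial.aeval (fun v => Polynomial.aeval s (φ v)) q :=
  MvPolynomial.comp_aeval_apply φ (Polynomial.aeval s) q

end D1

open D1 in
theorem st_d1 (k : Type u) [Field k] [IsAlgClosed k] (p : ℕ) [Fact p.Prime] [CharP k p] (n : Type)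
    [Fintype n] [DecidableEq n] (hfr : S_fr k n) (hd1a : S_d1a k n) (huniq : S_uniq k n) :
    S_d1 k n := by
  intro H Ys hH hN l
  obtain ⟨F⟩ := hfr H Ys hN
  let S : Finset (Fin F.d) := Finset.univ.filter fun i => 0 < F.a i l
  let ι : Fin S.card → Fin F.d := S.orderEmbOfFin rfl
  have hι : Function.Injective ι := (S.orderEmbOfFin rfl).injective
  have hr : ∀ i, i ∈ Set.range ι ↔ 0 < F.a i l := fun i => by
    rw [show Set.range ι = S from S.range_orderEmbOfFin rfl]; simp [S]
  have hpos : ∀ v, 0 < F.a (ι v) l := fun v => (hr _).1 ⟨v, rfl⟩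
  obtain ⟨g, g1, g2, g3, g4, g5, g6⟩ := hd1a H Ys F hH hN l _ ι hι hr
  have hev : ∀ z : Fin S.card → k, g.map (MvPolynomial.eval z) = g.map (MvPolynomial.aeval z) :=
    fun z => by rw [← MvPolynomial.coe_aeval_eq_eval]; rfl
  have hdeg : ∀ z : Fin S.card → k, g.map (MvPolynomial.eval z) - 1 ∈ degGE k l.1 1 :=
    fun z i j h => by
      rw [Matrix.sub_apply, Matrix.map_apply, entry_const hpos g2 g5 h, MvPolynomial.eval_C, sub_self]
  have hun : ∀ z : Fin S.card → k, IsUnit (g.map (MvPolynomial.eval z)) := fun z => by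
    simpa using (nilp (hdeg z)).isUnit_add_one
  refine ⟨⟨S.card, fun v => F.a (ι v), fun v => F.y (ι v), fun v => F.c (ι v), g,
    fun z => (hun z).unit, hpos, fun v => F.y_mem _, fun v => F.y_wt _, fun v => F.c_wt _,
    fun v w => ?_, fun x hx hx' => ?_, fun z => rfl, fun z => ⟨?_, hdeg z⟩, fun u hu => ?_,
    fun z v => ?_, g2, g5, g6⟩⟩
  · rw [F.lf_y]; simp only [hι.eq_iff]
  · refine (F.span x hx).trans (Fintype.sum_of_injective ι hι _ _ (fun i hi => ?_) fun _ => rfl).symm
    rw [lf_degGE (F.c_wt i) hx' (by have := (hr i).not.1 hi; omega), zero_smul]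
  · refine hH.1 _ fun f hf => ?_
    have h1 := PtMod.map (MvPolynomial.aeval z) (I' := ⊥)
      (fun r hr => by rw [Ideal.mem_bot.1 hr, map_zero]; exact Ideal.zero_mem _) g1 f hf
    rw [← hev] at h1
    exact Ideal.mem_bot.1 h1
  · have hu1 := mem_Up.1 hu.2
    let φ : MvPolynomial (Fin S.card) k →ₐ[k] Polynomial k := MvPolynomial.aeval fun v =>
      Polynomial.C (lf (F.c (ι v)) ((u : Matrix n n k) - 1)) * Polynomial.X ^ (F.a (ι v) l).toNat
    have hc : Cong (Ideal.span {(Polynomial.X : Polynomial k)}) (g.map φ) 1 := fun i j => by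
      rw [Ideal.mem_span_singleton, Polynomial.X_dvd_iff, Polynomial.coeff_zero_eq_eval_zero,
        ← Polynomial.coe_aeval_eq_eval, map_sub, Matrix.map_apply, aeval_aeval]
      have e : (fun v => Polynomial.aeval (0 : k) (Polynomial.C (lf (F.c (ι v))
          ((u : Matrix n n k) - 1)) * Polynomial.X ^ (F.a (ι v) l).toNat)) = 0 := funext fun v => by
        have : (F.a (ι v) l).toNat ≠ 0 := by have := hpos v; omega
        simp [this]
      rw [e, MvPolynomial.aeval_zero, MvPolynomial.constantCoeff_eq, g5, Matrix.one_apply,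
        Matrix.one_apply]
      split_ifs <;> simp
    have hl : ∀ i, lf (F.c i) (con l.1 (u : Matrix n n k) - g.map φ) = 0 := fun i => by
      obtain ⟨ψ, hψ⟩ := exists_lf_lin (R := Polynomial k) (F.c i)
      rw [← sub_sub_sub_cancel_right _ _ 1, ← hψ, map_sub, hψ, hψ, lf_con (F.c_wt i), map_sub_one,
        lf_map]
      by_cases hi : i ∈ Set.range ι
      · obtain ⟨v, rfl⟩ := hi
        rw [g3, MvPolynomial.aeval_X, sub_self]
      · rw [g4 i hi, lf_degGE (F.c_wt i) hu1 (by have := (hr i).not.1 hi; omega)]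
        simp
    refine Units.ext (Matrix.ext fun i j => ?_)
    have h0 := eq_zero_of_mem fun N => huniq H Ys F (Polynomial k) _ N _ _ (con_pt hN l hu _)
      (PtMod.map φ (fun r hr => by rw [Ideal.mem_bot.1 hr, map_zero]; exact Ideal.zero_mem _) g1)
      (con_cong hu1) hc (fun i => by rw [hl]; exact Ideal.zero_mem _) i j
    have h1 := congrArg (Polynomial.aeval (1 : k)) (sub_eq_zero.1 h0)
    rw [con_eval, Matrix.map_apply, aeval_aeval] at h1
    simp only [one_pow, one_mul, Matrix.sub_apply, add_sub_cancel, map_mul, map_pow,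
      Polynomial.aeval_X, Polynomial.aeval_C, mul_one, Algebra.algebraMap_self, RingHom.id_apply] at h1
    rw [h1, IsUnit.unit_spec, hev, Matrix.map_apply]
  · rw [IsUnit.unit_spec, hev, map_sub_one, lf_map, g3, MvPolynomial.aeval_X]

end Pool.Agent.Lib.MP_3a0263_al.Q
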