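import Pool.Agent.Lib.MP_3a0263_al.Q.GBlue
import Pool.Agent.Lib.MP_3a0263_al.Q.ApiP

namespace Pool.Agent.Lib.MP_3a0263_al.Q

open Matrix Pool.Agent.Lib.MP_3a0263_al.R MvPolynomial

universe u

namespace D1A

variable {k : Type u} [Field k]

theorem zero_of_all {d : ℕ} {q : MvPolynomial (Fin d) k} (N0 : ℕ)
    (h : ∀ N, N0 ≤ N → q ∈ mm k d ^ N) : q = 0 := by
  ext e
  exact (mem_pow_idealOfVars_iff' _ _).1 (h (N0 + e.degree + 1) (by omega)) e (by omega)

theorem kill_mem {d d' : ℕ} {ι : Fin d → Fin d'} (hι : Function.Injective ι) {N : ℕ}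
    {q : MvPolynomial (Fin d') k} (h : q ∈ mm k d' ^ N) : killCompl hι q ∈ mm k d ^ N := by
  refine (mem_pow_idealOfVars_iff' _ _).2 fun e he => ?_
  rw [coeff_killCompl]
  exact (mem_pow_idealOfVars_iff' _ _).1 h _ (by rwa [Finsupp.degree_mapDomain])

theorem sum_map {d d' : ℕ} (ι : Fin d → Fin d') {M : Type*} [AddCommMonoid M] (a : Fin d' → M)
    (e : Fin d →₀ ℕ) : ∑ w, (e.mapDomain ι) w • a w = ∑ v, e v • a (ι v) := by
  have h1 : ∑ w, (e.mapDomain ι) w • a w = (e.mapDomain ι).sum fun w c => c • a w :=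
    (Finsupp.sum_fintype _ (fun w c => c • a w) fun _ => zero_smul _ _).symm
  rw [h1, Finsupp.sum_mapDomain_index (h := fun w c => c • a w) (fun _ => zero_smul _ _)
    fun _ _ _ => add_smul _ _ _]
  exact Finsupp.sum_fintype _ _ fun _ => zero_smul _ _

variable {n : Type} {Ys : Submodule ℤ (n → ℤ)}

theorem hom_kill {d d' : ℕ} {ι : Fin d → Fin d'} (hι : Function.Injective ι) {a : Fin d' → XX Ys}
    {g : Matrix n n (MvPolynomial (Fin d') k)} (h : Hom a g) :
    Hom (fun v => a (ι v)) (g.map (killCompl hι)) := by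
  intro i j e he
  rw [Matrix.map_apply, coeff_killCompl] at he
  rw [← h i j _ he, sum_map]

theorem deg_le {d : ℕ} {a : Fin d → XX Ys} (l : Ys) (ha : ∀ v, 0 < a v l)
    {g : Matrix n n (MvPolynomial (Fin d) k)} (h : Hom a g) {i j : n} {e : Fin d →₀ ℕ}
    (he : (g i j).coeff e ≠ 0) : (e.degree : ℤ) ≤ l.1 i - l.1 j := by
  have h1 := congrArg (fun φ : XX Ys => φ l) (h i j e he)
  simp only [LinearMap.sum_apply, LinearMap.smul_apply, LinearMap.sub_apply, eps_apply,
    nsmul_eq_mul] at h1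
  rw [← h1, Finsupp.degree_eq_sum]
  push_cast
  exact Finset.sum_le_sum fun v _ => le_mul_of_one_le_right (Nat.cast_nonneg _) (ha v)

end D1A

open D1A in
theorem st_d1a (k : Type u) [Field k] [IsAlgClosed k] (p : ℕ) [Fact p.Prime] [CharP k p]
    (n : Type) [Fintype n] [DecidableEq n] (hch1 : S_ch1 k n) (_huniq : S_uniq k n)
    (hfcu : S_fcu k n) : S_d1a k n := by
  intro H Ys F hH hN l d ι hι hr
  choose G hG using hch1 H Ys F hH hN
  obtain ⟨f1, f2, f3, -⟩ := hfcu H Ys F
  have hpos : ∀ v, 0 < F.a (ι v) l := fun v => (hr _).1 ⟨v, rfl⟩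
  obtain ⟨D, hD⟩ : ∃ D : ℕ, ∀ i j, l.1 i - l.1 j ≤ D := by
    obtain ⟨B, hB⟩ := (Set.finite_range fun ij : n × n => l.1 ij.1 - l.1 ij.2).bddAbove
    exact ⟨B.toNat, fun i j => (hB ⟨(i, j), rfl⟩).trans (Int.self_le_toNat B)⟩
  have hom : ∀ N, Hom (fun v => F.a (ι v)) ((G N).map (killCompl hι)) := fun N =>
    hom_kill hι (hG N).hom
  have key : ∀ N, D + 2 ≤ N → (G (D + 2)).map (killCompl hι) = (G N).map (killCompl hι) := by
    intro N hN'
    ext i j e
    by_cases he : e.degree < D + 2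
    · have h1 := kill_mem hι (f1 _ _ _ _ (hG (D + 2)) (hG N) hN' i j)
      have h2 := (mem_pow_idealOfVars_iff' _ _).1 h1 e he
      rw [map_sub, coeff_sub, sub_eq_zero] at h2
      exact h2
    · have z : ∀ M, (((G M).map (killCompl hι)) i j).coeff e = 0 := fun M => by
        by_contra h
        have h1 := deg_le l hpos (hom M) h
        have h2 := hD i j
        omega
      rw [z, z]
  have hlf : ∀ i, lf (F.c i) ((G (D + 2)).map (killCompl hι) - 1) = killCompl hι (X i) := by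
    intro i
    refine sub_eq_zero.1 (zero_of_all (D + 2) fun N hN' => ?_)
    have h1 := kill_mem hι ((hG N).lf i)
    have e : (G N - 1).map (killCompl hι : MvPolynomial (Fin F.d) k →ₐ[k] MvPolynomial (Fin d) k) =
        (G N).map (killCompl hι) - 1 := by
      rw [Matrix.map_sub _ (map_sub _), Matrix.map_one _ (map_zero _) (map_one _)]
    rwa [map_sub, ← lf_map, e, ← key N hN'] at h1
  refine ⟨(G (D + 2)).map (killCompl hι), fun f hf => ?_, hom _, fun v => ?_, fun i hi => ?_,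
    fun i j => ?_, fun v i j => ?_⟩
  · refine (Submodule.mem_bot _).2 (zero_of_all (D + 2) fun N hN' => ?_)
    rw [key N hN']
    exact PtMod.map (killCompl hι) (fun r hr => kill_mem hι hr) (hG N).pt f hf
  · rw [hlf, ← rename_X ι v, killCompl_rename_app]
  · rw [hlf, killCompl, aeval_X, dif_neg hi]
  · rw [Matrix.map_apply, coeff_killCompl, Finsupp.mapDomain_zero]
    exact f2 _ _ (hG _) i j
  · rw [Matrix.map_apply, coeff_killCompl, Finsupp.mapDomain_single]
    exact f3 _ _ (hG _) (by omega) _ i j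

end Pool.Agent.Lib.MP_3a0263_al.Q
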