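import Pool.Agent.Lib.MP_3a0263_al.Q.GBlue
import Pool.Agent.Lib.MP_3a0263_al.Q.ApiP
import Pool.Agent.Lib.MP_3a0263_al.Q.ApiL

namespace Pool.Agent.Lib.MP_3a0263_al.Q

open Matrix Pool.Agent.Lib.MP_3a0263_al.R

universe u

namespace D2

variable {k : Type u} [Field k] {n : Type} [Fintype n] [DecidableEq n]

theorem tangent {d : ℕ} (K : Subgroup (GL n k)) (y : Fin d → Matrix n n k) (F : Finset (Fin d))
    (h : PtMod (K : Set (GL n k)) (mm k d ^ 2) (1 + ∑ v ∈ F,
      (MvPolynomial.X v : MvPolynomial (Fin d) k) • (y v).map MvPolynomial.C)) :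
    ∀ v ∈ F, y v ∈ lie K := by
  intro v hv
  refine mem_lie_iff.2 fun f hf => ?_
  have hδ : ∀ i j, (∑ v ∈ F, (MvPolynomial.X v : MvPolynomial (Fin d) k) •
      (y v).map MvPolynomial.C) i j ∈ mm k d := by
    intro i j
    rw [Matrix.sum_apply]
    refine Ideal.sum_mem _ fun w _ => ?_
    rw [Matrix.smul_apply, smul_eq_mul]
    exact Ideal.mul_mem_right _ _ (Ideal.subset_span ⟨w, rfl⟩)
  have h1 := taylor (k := k) (J := mm k d) (x := (1 : Matrix n n (MvPolynomial (Fin d) k)))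
    (fun i j => by rw [sub_self]; exact Ideal.zero_mem _) hδ le_rfl f
  rw [ApiP.aeval_one_alg, mem_vanish.1 hf 1 K.one_mem, map_zero, sub_zero, ← pow_two] at h1
  have h2 := Ideal.sub_mem _ (h f hf) h1
  rw [sub_sub_cancel] at h2
  have h3 := (MvPolynomial.mem_pow_idealOfVars_iff' 2 _).1 h2 (Finsupp.single v 1) (by simp)
  rw [← h3, MvPolynomial.coeff_sum]
  refine Finset.sum_congr rfl fun ij _ => ?_
  rw [MvPolynomial.coeff_smul, Matrix.sum_apply, MvPolynomial.coeff_sum, smul_eq_mul, mul_comm,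
    Finset.sum_eq_single v _ fun hn => absurd hv hn]
  · rw [Matrix.smul_apply, smul_eq_mul, Matrix.map_apply, mul_comm (MvPolynomial.X v),
      MvPolynomial.coeff_C_mul, MvPolynomial.coeff_X, if_pos rfl, mul_one]
  · intro w _ hw
    rw [Matrix.smul_apply, smul_eq_mul, Matrix.map_apply, mul_comm (MvPolynomial.X w),
      MvPolynomial.coeff_C_mul, MvPolynomial.coeff_X,
      if_neg fun e => hw (Finsupp.single_left_injective one_ne_zero e), mul_zero]

end D2

theorem st_d2 (k : Type u) [Field k] [IsAlgClosed k] (p : ℕ) [Fact p.Prime] [CharP k p]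
    (n : Type) [Fintype n] [DecidableEq n] (hfr : S_fr k n) (hch1 : S_ch1 k n)
    (hfcu : S_fcu k n) (hd2k : S_d2k k n) : S_d2 k n := by
  classical
  intro H Ys hH hN l x hx hx0
  obtain ⟨F⟩ := hfr H Ys hN
  choose g hg using hch1 H Ys F hH hN
  have h1 := (hd2k H Ys F hH.1 g hg l 2).2
  have h2 := (hfcu H Ys F).2.2.2 2 (g 2) (hg 2) le_rfl {i | F.a i l = 0}
  have h3 := D2.tangent (idc (H ⊓ Zc k l.1)) F.y _ (h1.cong h2)
  rw [F.span x hx]
  refine mem_lieSub.1 (Submodule.sum_mem _ fun i _ => ?_)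
  by_cases hi : F.a i l = 0
  · exact Submodule.smul_mem _ _ (mem_lieSub.2 (h3 i (by simpa using hi)))
  · have h0 : lf (F.c i) x = 0 := by
      refine Finset.sum_eq_zero fun q _ => ?_
      by_cases hc : F.c i q.1 q.2 = 0
      · rw [hc, zero_smul]
      · have h4 := (F.c_wt i).apply hc l
        rw [hx0 q.1 q.2 (by omega), smul_zero]
    rw [h0, zero_smul]
    exact Submodule.zero_mem _

end Pool.Agent.Lib.MP_3a0263_al.Q
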