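import Pool.Agent.Lib.MP_3a0263_al.Q.GBlue
import Pool.Agent.Lib.MP_3a0263_al.Q.ApiP

namespace Pool.Agent.Lib.MP_3a0263_al.Q

open Matrix Pool.Agent.Lib.MP_3a0263_al.R

universe u

namespace D2G

variable {k : Type u} [Field k] {n : Type} [Fintype n] [DecidableEq n]

theorem mem_iff_order {d N : ℕ} (a : MvPolynomial (Fin d) k) :
    a ∈ mm k d ^ N ↔ (N : ℕ∞) ≤ (a : MvPowerSeries (Fin d) k).order := by
  rw [MvPolynomial.mem_pow_idealOfVars_iff']
  refine ⟨fun h => MvPowerSeries.nat_le_order fun e he => ?_, fun h e he => ?_⟩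
  · rw [MvPolynomial.coeff_coe]; exact h e he
  · rw [← MvPolynomial.coeff_coe]
    exact MvPowerSeries.coeff_of_lt_order (lt_of_lt_of_le (by exact_mod_cast he) h)

theorem mem_or {d N M : ℕ} {a b : MvPolynomial (Fin d) k} (h : a * b ∈ mm k d ^ (N + M)) :
    a ∈ mm k d ^ N ∨ b ∈ mm k d ^ M := by
  rw [mem_iff_order, MvPolynomial.coe_mul, MvPowerSeries.order_mul] at h
  rw [mem_iff_order, mem_iff_order]
  by_contra c
  rw [not_or, not_le, not_le] at c
  exact (ENat.add_lt_add c.1 c.2).not_ge (by exact_mod_cast h)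

theorem vanish_zero [IsAlgClosed k] {P : Ideal (MvPolynomial (n × n) k)} (hP : P.IsPrime)
    (hd : (gen k n).det ∉ P) {f : MvPolynomial (n × n) k}
    (hf : f ∈ vanish {g : GL n k | ∀ q ∈ P, MvPolynomial.aeval (entries g) q = 0}) : f ∈ P := by
  refine (hP.mem_or_mem (x := f) (y := (gen k n).det) ?_).resolve_right hd
  rw [← hP.radical, ← MvPolynomial.vanishingIdeal_zeroLocus_eq_radical (K := k)]
  intro x hx
  rw [map_mul]
  have e : MvPolynomial.aeval x (gen k n).det = (Matrix.of fun i j => x (i, j)).det := by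
    rw [AlgHom.map_det]
    exact congrArg det (aeval_gen (Matrix.of fun i j => x (i, j)))
  by_cases h0 : (Matrix.of fun i j => x (i, j)).det = 0
  · rw [e, h0, mul_zero]
  · exact mul_eq_zero_of_left
      (mem_vanish.1 hf (Matrix.GeneralLinearGroup.mkOfDetNeZero _ h0) hx) _

end D2G

open D2G in
theorem st_d2g (k : Type u) [Field k] [IsAlgClosed k] (p : ℕ) [Fact p.Prime] [CharP k p]
    (n : Type) [Fintype n] [DecidableEq n] : S_d2g k n := by
  intro H hH d g h1 h2 h3
  let P : Ideal (MvPolynomial (n × n) k) :=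
    ⨅ N, (mm k d ^ N).comap (MvPolynomial.aeval fun ij : n × n => g N ij.1 ij.2 :
      MvPolynomial (n × n) k →ₐ[k] MvPolynomial (Fin d) k)
  have mP : ∀ f, f ∈ P ↔ ∀ N, evx (g N) f ∈ mm k d ^ N := fun f => Submodule.mem_iInf _
  have one : ∀ f ∈ P, MvPolynomial.aeval (entries (1 : GL n k)) f = 0 := fun f hf => by
    have a := (mP f).1 hf 1
    rw [pow_one] at a
    have b := (mm k d).sub_mem a ((h2 1).aeval f)
    rw [sub_sub_cancel, ApiP.aeval_one_alg, ← pow_one (mm k d), MvPolynomial.algebraMap_eq,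
      MvPolynomial.C_mem_pow_idealOfVars_iff] at b
    exact b.resolve_right one_ne_zero
  have up : ∀ (f : MvPolynomial (n × n) k) N N', N ≤ N' →
      evx (g N') f ∈ mm k d ^ N → evx (g N) f ∈ mm k d ^ N :=
    fun f N N' a b => by
      have c := (mm k d ^ N).add_mem ((h3 N N' a).aeval (k := k) f) b
      rwa [sub_add_cancel] at c
  have hP : P.IsPrime := by
    refine ⟨fun e => one_ne_zero ((map_one _).symm.trans (one 1 ((Ideal.eq_top_iff_one _).1 e))),
      fun {a b} h => ?_⟩
    by_contra c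
    rw [not_or, mP, mP, not_forall, not_forall] at c
    obtain ⟨⟨N, c1⟩, M, c2⟩ := c
    have e := (mP _).1 h (N + M)
    rw [evx, map_mul] at e
    exact (mem_or e).elim (fun x => c1 (up _ _ _ (Nat.le_add_right N M) x))
      fun x => c2 (up _ _ _ (Nat.le_add_left M N) x)
  have hd : (gen k n).det ∉ P := fun e => by
    have a := one _ e
    rw [AlgHom.map_det, aeval_entries_gen] at a
    simp at a
  refine ⟨{x | ∀ q ∈ P, MvPolynomial.aeval (entries x) q = 0},
    fun x hx => hH x fun f hf => hx f ((mP f).2 fun N => h1 N f hf), fun a b h => ?_, one,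
    fun N f hf => (mP f).1 (vanish_zero hP hd hf) N, fun i j h x hx => ?_⟩
  · exact (hP.mem_or_mem (vanish_zero hP hd h)).imp
      (fun c => mem_vanish.2 fun x hx => hx a c) fun c => mem_vanish.2 fun x hx => hx b c
  · have a := hx (MvPolynomial.X (i, j) - MvPolynomial.C ((1 : Matrix n n k) i j))
      ((mP _).2 fun N => by
        have b := h N
        rw [Matrix.sub_apply, ApiP.one_apply_alg (k := k) (i, j)] at b
        rw [evx, map_sub, MvPolynomial.aeval_X, MvPolynomial.aeval_C]
        exact b ▸ zero_mem _)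
    rw [map_sub, MvPolynomial.aeval_X, MvPolynomial.aeval_C] at a
    exact a

end Pool.Agent.Lib.MP_3a0263_al.Q
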