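import Pool.Agent.Lib.MP_3a0263_al.Q.GBlue
import Pool.Agent.Lib.MP_3a0263_al.Q.ApiP

namespace Pool.Agent.Lib.MP_3a0263_al.Q

open Matrix Pool.Agent.Lib.MP_3a0263_al.R

universe u

namespace D2K

variable {k : Type u} [Field k] {n : Type} [Fintype n] [DecidableEq n]

open Classical in
/-- the algebra map that sets the variables outside `κ` to zero -/
noncomputable def kh {d : ℕ} (κ : Set (Fin d)) :
    MvPolynomial (Fin d) k →ₐ[k] MvPolynomial (Fin d) k :=
  MvPolynomial.aeval fun i => if i ∈ κ then MvPolynomial.X i else 0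

omit [Fintype n] [DecidableEq n] in
theorem kill_eq {d : ℕ} (κ : Set (Fin d)) (g : Matrix n n (MvPolynomial (Fin d) k)) :
    kill κ g = g.map (kh κ) := rfl

open Classical in
theorem kh_monomial {d : ℕ} (κ : Set (Fin d)) (s : Fin d →₀ ℕ) (a : k) :
    kh κ (MvPolynomial.monomial s a) =
      if ∀ v ∈ s.support, v ∈ κ then MvPolynomial.monomial s a else 0 := by
  rw [kh, MvPolynomial.aeval_monomial]
  split_ifs with h
  · rw [MvPolynomial.monomial_eq, MvPolynomial.algebraMap_eq]
    refine congrArg _ (Finsupp.prod_congr fun v hv => ?_)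
    rw [if_pos (h v hv)]
  · push Not at h
    obtain ⟨v, hv, hv'⟩ := h
    rw [Finsupp.prod, Finset.prod_eq_zero hv, mul_zero]
    rw [if_neg hv', zero_pow (Finsupp.mem_support_iff.1 hv)]

open Classical in
theorem coeff_kh {d : ℕ} (κ : Set (Fin d)) (f : MvPolynomial (Fin d) k) (e : Fin d →₀ ℕ) :
    (kh κ f).coeff e = if ∀ v ∈ e.support, v ∈ κ then f.coeff e else 0 := by
  induction f using MvPolynomial.induction_on' with
  | monomial s a =>
    rw [kh_monomial]
    by_cases hs : s = e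
    · subst hs
      split_ifs <;> simp
    · split_ifs <;> simp [MvPolynomial.coeff_monomial, hs]
  | add p q hp hq =>
    rw [map_add, MvPolynomial.coeff_add, hp, hq, MvPolynomial.coeff_add]
    split_ifs <;> simp

theorem kh_mem {d : ℕ} (κ : Set (Fin d)) (N : ℕ) :
    ∀ r ∈ mm k d ^ N, kh κ r ∈ mm k d ^ N := by
  intro r hr
  rw [MvPolynomial.mem_pow_idealOfVars_iff'] at hr ⊢
  intro e he
  rw [coeff_kh, hr e he, ite_self]

omit [Fintype n] [DecidableEq n] in
theorem cong_kill {d : ℕ} (κ : Set (Fin d)) (N : ℕ) {g g' : Matrix n n (MvPolynomial (Fin d) k)}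
    (h : Cong (mm k d ^ N) g g') : Cong (mm k d ^ N) (kill κ g) (kill κ g') := by
  intro i j
  rw [kill_eq, kill_eq, Matrix.map_apply, Matrix.map_apply, ← map_sub]
  exact kh_mem κ N _ (h i j)

omit [Fintype n] in
theorem kill_one {d : ℕ} (κ : Set (Fin d)) :
    kill κ (1 : Matrix n n (MvPolynomial (Fin d) k)) = 1 := by
  rw [kill_eq]
  exact Matrix.map_one _ (map_zero _) (map_one _)

theorem ptMod_mono {R : Type u} [CommRing R] [Algebra k R] {S S' : Set (GL n k)} (h : S ⊆ S')
    {I : Ideal R} {x : Matrix n n R} (hx : PtMod S I x) : PtMod S' I x :=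
  fun f hf => hx f (vanish_anti h hf)

omit [Fintype n] in
/-- an entry of the killed matrix with only a constant term -/
theorem entry_zero {d : ℕ} (κ : Set (Fin d)) {g : Matrix n n (MvPolynomial (Fin d) k)} {i j : n}
    (h0 : (g i j).coeff 0 = (1 : Matrix n n k) i j)
    (h : ∀ e : Fin d →₀ ℕ, (∀ v ∈ e.support, v ∈ κ) → (g i j).coeff e ≠ 0 → e = 0) :
    (kill κ g - 1) i j = 0 := by
  classical
  rw [Matrix.sub_apply, sub_eq_zero, kill_eq, Matrix.map_apply]
  ext e
  rw [coeff_kh]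
  by_cases he : e = 0
  · subst he
    rw [if_pos (by simp), h0, Matrix.one_apply, Matrix.one_apply]
    split_ifs <;> simp
  · have h1 : ((1 : Matrix n n (MvPolynomial (Fin d) k)) i j).coeff e = 0 := by
      rw [Matrix.one_apply]
      split_ifs
      · rw [MvPolynomial.coeff_one, if_neg (Ne.symm he)]
      · simp
    rw [h1]
    split_ifs with hκ
    · by_contra hne
      exact he (h e hκ hne)
    · rfl

omit [Fintype n] [DecidableEq n] in
theorem hom_eval {Ys : Submodule ℤ (n → ℤ)} {d : ℕ} {a : Fin d → XX Ys}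
    {g : Matrix n n (MvPolynomial (Fin d) k)} (h : Hom a g) (l : Ys) {i j : n}
    {e : Fin d →₀ ℕ} (he : (g i j).coeff e ≠ 0) :
    ∑ v, (e v : ℤ) * a v l = l.1 i - l.1 j := by
  have h1 := congrArg (fun φ : XX Ys => φ l) (h i j e he)
  simpa [LinearMap.sum_apply, eps_apply] using h1

/-- the common part: an irreducible set carrying the killed chart -/
theorem exists_set (hd2g : S_d2g k n) (hfcu : S_fcu k n) {H : Subgroup (GL n k)}
    {Ys : Submodule ℤ (n → ℤ)} (F : Fr H Ys) (hH : IsZClosed (H : Set (GL n k)))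
    (g : ℕ → Matrix n n (MvPolynomial (Fin F.d) k)) (hg : ∀ N, IsFC F N (g N))
    (κ : Set (Fin F.d)) :
    ∃ S : Set (GL n k), S ⊆ H ∧ ZAR.Irr S ∧ (1 : GL n k) ∈ S ∧
      (∀ N, PtMod S (mm k F.d ^ N) (kill κ (g N))) ∧
      ∀ i j, (∀ N (e : Fin F.d →₀ ℕ), (∀ v ∈ e.support, v ∈ κ) → (g N i j).coeff e ≠ 0 → e = 0) →
        ∀ x ∈ S, ((x : Matrix n n k) - 1) i j = 0 := by
  obtain ⟨h1, h2, -⟩ := hfcu H Ys F
  obtain ⟨S, hS, hI, hone, hP, hz⟩ := hd2g H hH F.d (fun N => kill κ (g N))
    (fun N => PtMod.map (kh κ) (kh_mem κ N) (hg N).pt)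
    (fun N => by
      have h3 : Cong (mm k F.d ^ 1) (g N) 1 := by rw [pow_one]; exact (hg N).one
      have h4 := cong_kill κ 1 h3
      rwa [pow_one, kill_one] at h4)
    (fun N N' hN => cong_kill κ N (h1 N N' _ _ (hg N) (hg N') hN))
  exact ⟨S, hS, hI, hone, hP, fun i j hij =>
    hz i j fun N => entry_zero κ (h2 N _ (hg N) i j) (hij N)⟩

end D2K

open D2K in
theorem st_d2k (k : Type u) [Field k] [IsAlgClosed k] (p : Nat) [Fact p.Prime] [CharP k p]
    (n : Type) [Fintype n] [DecidableEq n] (hd2g : S_d2g k n) (hfcu : S_fcu k n) :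
    S_d2k k n := by
  intro H Ys F hH g hg l N
  constructor
  · obtain ⟨S, hS, -, -, hP, hz⟩ := exists_set hd2g hfcu F hH g hg {i | 0 < F.a i l}
    refine ptMod_mono (fun x hx => ?_) (hP N)
    refine ⟨hS hx, mem_Up.2 fun i j hij => hz i j (fun M e hκ he => ?_) x hx⟩
    have h1 := hom_eval (hg M).hom l he
    have h2 : ∀ v, 0 ≤ (e v : ℤ) * F.a v l := fun v => by
      by_cases hv : e v = 0
      · simp [hv]
      · exact mul_nonneg (Int.natCast_nonneg _) (le_of_lt (hκ v (Finsupp.mem_support_iff.2 hv)))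
    ext v
    by_contra hv
    have h3 : 0 < F.a v l := hκ v (Finsupp.mem_support_iff.2 hv)
    have h4 : 0 < (e v : ℤ) := Int.natCast_pos.2 (Nat.pos_of_ne_zero hv)
    have h5 := Finset.single_le_sum (fun v _ => h2 v) (Finset.mem_univ v)
    have h6 := mul_pos h4 h3
    omega
  · obtain ⟨S, hS, hI, hone, hP, hz⟩ := exists_set hd2g hfcu F hH g hg {i | F.a i l = 0}
    refine ptMod_mono (subset_idc (fun x hx => ?_) hI hone) (hP N)
    refine ⟨hS hx, mem_Zc.2 fun i j hij => ?_⟩
    have h0 := hz i j (fun M e hκ he => by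
      have h1 := hom_eval (hg M).hom l he
      rw [Finset.sum_eq_zero fun v _ => by
        by_cases hv : e v = 0
        · simp [hv]
        · have h2 : F.a v l = 0 := hκ v (Finsupp.mem_support_iff.2 hv)
          rw [h2, mul_zero]] at h1
      omega) x hx
    rwa [Matrix.sub_apply, Matrix.one_apply_ne (by rintro rfl; exact hij rfl), sub_zero] at h0

end Pool.Agent.Lib.MP_3a0263_al.Q
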