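import Pool.Agent.Lib.MP_3a0263_al.Q.GBlue
import Pool.Agent.Lib.MP_3a0263_al.Q.ApiP

namespace Pool.Agent.Lib.MP_3a0263_al.Q

open Matrix Pool.Agent.Lib.MP_3a0263_al.R

universe u

namespace D3

variable {k : Type u} [Field k] {n : Type} [Fintype n] [DecidableEq n]

section

variable {R : Type u} [CommRing R]

omit [DecidableEq n] in
theorem cong_mul {I : Ideal R} {x x' y y' : Matrix n n R} (h : Cong I x x') (h' : Cong I y y') :
    Cong I (x * y) (x' * y') := fun i j => by
  rw [Matrix.mul_apply, Matrix.mul_apply, ← Finset.sum_sub_distrib]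
  refine I.sum_mem fun c _ => ?_
  have e : x i c * y c j - x' i c * y' c j = (x i c - x' i c) * y c j + x' i c * (y c j - y' c j) := by
    ring
  rw [e]
  exact I.add_mem (I.mul_mem_right _ (h i c)) (I.mul_mem_left _ (h' c j))

omit [Fintype n] [DecidableEq n] in
theorem cong_trans {I : Ideal R} {x y z : Matrix n n R} (h : Cong I x y) (h' : Cong I y z) :
    Cong I x z := fun i j => by
  have := I.add_mem (h i j) (h' i j)
  rwa [sub_add_sub_cancel] at this

omit [Fintype n] [DecidableEq n] in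
theorem cong_refl (I : Ideal R) (x : Matrix n n R) : Cong I x x := fun i j => by
  rw [sub_self]; exact I.zero_mem

theorem cong_one_add {I : Ideal R} {a b : Matrix n n R} (ha : ∀ i j, a i j ∈ I)
    (hb : ∀ i j, b i j ∈ I) : Cong (I ^ 2) ((1 + a) * (1 + b)) (1 + (a + b)) := fun i j => by
  have e : (1 + a) * (1 + b) - (1 + (a + b)) = a * b := by noncomm_ring
  rw [← Matrix.sub_apply, e, Matrix.mul_apply, pow_two]
  exact Ideal.sum_mem _ fun c _ => Ideal.mul_mem_mul (ha i c) (hb c j)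

variable [Algebra k R]

theorem pt_mono {S S' : Set (GL n k)} {I : Ideal R} {x : Matrix n n R} (h : PtMod S I x)
    (hS : S ⊆ S') : PtMod S' I x := fun f hf => h f (vanish_anti hS hf)

omit [DecidableEq n] in
theorem lf_mem {I : Ideal R} (c : Matrix n n k) {x : Matrix n n R} (h : ∀ i j, x i j ∈ I) :
    lf c x ∈ I :=
  Ideal.sum_mem _ fun ij _ => by
    rw [Algebra.smul_def]; exact I.mul_mem_left _ (h ij.1 ij.2)

end

variable {H : Subgroup (GL n k)} {Ys : Submodule ℤ (n → ℤ)}

theorem fc_mono {F : Fr H Ys} {N M : ℕ} {g : Matrix n n (MvPolynomial (Fin F.d) k)}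
    (h : IsFC F M g) (hN : N ≤ M) : IsFC F N g :=
  ⟨fun f hf => Ideal.pow_le_pow_right hN (h.pt f hf), h.one,
    fun i => Ideal.pow_le_pow_right hN (h.lf i), h.hom⟩

/-- the linear part of the chart along a set of variables -/
noncomputable def lin (F : Fr H Ys) (s : Finset (Fin F.d)) :
    Matrix n n (MvPolynomial (Fin F.d) k) :=
  ∑ v ∈ s, (MvPolynomial.X v : MvPolynomial (Fin F.d) k) • (F.y v).map MvPolynomial.C

theorem lin_mem (F : Fr H Ys) (s : Finset (Fin F.d)) (i j : n) : lin F s i j ∈ mm k F.d := by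
  rw [lin, Matrix.sum_apply]
  refine Ideal.sum_mem _ fun v _ => ?_
  rw [Matrix.smul_apply, smul_eq_mul]
  exact Ideal.mul_mem_right _ _ (Ideal.subset_span ⟨v, rfl⟩)

theorem lf_lin (F : Fr H Ys) (i : Fin F.d) :
    lf (F.c i) (lin F Finset.univ) = MvPolynomial.X i := by
  obtain ⟨φ, hφ⟩ := exists_lf_lin (R := MvPolynomial (Fin F.d) k) (F.c i)
  rw [← hφ, lin, map_sum]
  have e : ∀ v, φ ((MvPolynomial.X v : MvPolynomial (Fin F.d) k) • (F.y v).map MvPolynomial.C) =
      if i = v then MvPolynomial.X v else 0 := fun v => by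
    have h1 := lf_map (Algebra.ofId k (MvPolynomial (Fin F.d) k)) (F.c i) (F.y v)
    have h2 : (F.y v).map (MvPolynomial.C : k → MvPolynomial (Fin F.d) k) =
        (F.y v).map (Algebra.ofId k (MvPolynomial (Fin F.d) k)) := rfl
    rw [map_smul, hφ, h2, h1, F.lf_y]
    split_ifs <;> simp
  simp [e]

theorem lin_split (F : Fr H Ys) (l : Ys) :
    lin F (Finset.univ.filter fun i => 0 < F.a i (-l)) +
      lin F (Finset.univ.filter fun i => F.a i l = 0) +
      lin F (Finset.univ.filter fun i => 0 < F.a i l) = lin F Finset.univ := by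
  simp only [lin, Finset.sum_filter, ← Finset.sum_add_distrib]
  refine Finset.sum_congr rfl fun v _ => ?_
  rw [map_neg]
  rcases lt_trichotomy (F.a v l) 0 with h | h | h
  · rw [if_pos (by omega), if_neg (by omega), if_neg (by omega), add_zero, add_zero]
  · rw [if_neg (by omega), if_pos h, if_neg (by omega), zero_add, add_zero]
  · rw [if_neg (by omega), if_neg (by omega), if_pos h, zero_add, zero_add]

end D3

open D3 in
theorem st_d3 (k : Type u) [Field k] [IsAlgClosed k] (p : ℕ) [Fact p.Prime] [CharP k p]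
    (n : Type) [Fintype n] [DecidableEq n] (hfr : S_fr k n) (hch1 : S_ch1 k n)
    (hfcu : S_fcu k n) (hd2k : S_d2k k n) (hprod : S_prod k n) (htheta : S_theta k n)
    (hkr : S_kr k n) : S_d3 k n := by
  intro H Ys hH hN l f hf
  obtain ⟨F⟩ := hfr H Ys hN
  choose g hg using hch1 H Ys F hH hN
  refine hkr H Ys F hH f fun N => ⟨g (max N 2), fc_mono (hg _) (le_max_left _ _),
    Ideal.pow_le_pow_right (le_max_left N 2) ?_⟩
  have hM : 2 ≤ max N 2 := le_max_right _ _
  generalize max N 2 = M at hM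
  have hA := (hd2k H Ys F hH.1 g hg (-l) M).1
  obtain ⟨hB, hC⟩ := hd2k H Ys F hH.1 g hg l M
  have hP := hprod _ _ _ _ _ _ (hprod _ _ _ _ _ _ hA hC) hB
  have hcell : PtMod (bigCell H l.1) (mm k F.d ^ M) (kill {i | 0 < F.a i (-l)} (g M) *
      kill {i | F.a i l = 0} (g M) * kill {i | 0 < F.a i l} (g M)) := by
    refine pt_mono hP ?_
    rintro _ ⟨_, ⟨a, ha, c, hc, rfl⟩, b, hb, rfl⟩
    exact ⟨a, ha, c, hc, b, hb, rfl⟩
  have hsub : bigCell H l.1 ⊆ (H : Set (GL n k)) := by
    rintro _ ⟨a, ha, c, hc, b, hb, rfl⟩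
    exact H.mul_mem (H.mul_mem ha.1 (idc_le _ hc).1) hb.1
  have h4 := (hfcu H Ys F).2.2.2 M (g M) (hg M) hM
  have cA : Cong (mm k F.d ^ 2) (kill {i | 0 < F.a i (-l)} (g M))
      (1 + lin F (Finset.univ.filter fun i => 0 < F.a i (-l))) := h4 {i | 0 < F.a i (-l)}
  have cC : Cong (mm k F.d ^ 2) (kill {i | F.a i l = 0} (g M))
      (1 + lin F (Finset.univ.filter fun i => F.a i l = 0)) := h4 {i | F.a i l = 0}
  have cB : Cong (mm k F.d ^ 2) (kill {i | 0 < F.a i l} (g M))
      (1 + lin F (Finset.univ.filter fun i => 0 < F.a i l)) := h4 {i | 0 < F.a i l}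
  have c1 := cong_trans (cong_mul cA cC) (cong_one_add (lin_mem F _) (lin_mem F _))
  have c2 := cong_trans (cong_mul c1 cB) (cong_one_add
    (fun i j => Ideal.add_mem _ (lin_mem F _ i j) (lin_mem F _ i j)) (lin_mem F _))
  rw [lin_split] at c2
  refine htheta H Ys F M (g M) _ (hg M) (pt_mono hcell hsub) (fun i j => ?_) (fun i => ?_) f
    (hcell f hf)
  · have h1 := Ideal.add_mem _ (Ideal.pow_le_self (n := 2) (by norm_num) (c2 i j))
      (lin_mem F Finset.univ i j)
    rwa [Matrix.add_apply, ← sub_sub, sub_add_cancel] at h1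
  · obtain ⟨φ, hφ⟩ := exists_lf_lin (R := MvPolynomial (Fin F.d) k) (F.c i)
    rw [← lf_lin F i, ← hφ, ← hφ, ← map_sub, hφ, sub_sub]
    exact lf_mem _ c2

end Pool.Agent.Lib.MP_3a0263_al.Q
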