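import Pool.Agent.Lib.MP_3a0263_al.Q.GBlue
import Pool.Agent.Lib.MP_3a0263_al.Q.ApiL
import Pool.Agent.Lib.MP_3a0263_al.Q.ApiZ3

namespace Pool.Agent.Lib.MP_3a0263_al.Q

open Matrix Pool.Agent.Lib.MP_3a0263_al.R

universe u

namespace Dec

variable {k : Type u} [Field k] {n : Type} [Fintype n] [DecidableEq n]

theorem eval_zero {d : ℕ} (P : MvPolynomial (Fin d) k) (z : Fin d → k)
    (h : ∀ e, P.coeff e ≠ 0 → ∃ v, e v ≠ 0 ∧ z v = 0) : MvPolynomial.eval z P = 0 := by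
  rw [MvPolynomial.eval_eq']
  refine Finset.sum_eq_zero fun e he => ?_
  obtain ⟨v, h1, h2⟩ := h e (MvPolynomial.mem_support_iff.1 he)
  rw [Finset.prod_eq_zero (Finset.mem_univ v) (by rw [h2, zero_pow h1]), mul_zero]

theorem two_le {d : ℕ} {e : Fin d →₀ ℕ} (h0 : (0 : Fin d →₀ ℕ) ≠ e)
    (h1 : ∀ v, Finsupp.single v 1 ≠ e) : 2 ≤ ∑ v, e v := by
  by_contra hc
  obtain ⟨v, hv⟩ : ∃ v, e v ≠ 0 := by
    by_contra h
    exact h0 (Finsupp.ext fun v => (not_not.1 fun h' => h ⟨v, h'⟩ : e v = 0).symm)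
  refine h1 v (Finsupp.ext fun u => ?_)
  by_cases huv : u = v
  · subst huv
    have := Finset.single_le_sum (f := fun v => e v) (fun _ _ => Nat.zero_le _) (Finset.mem_univ u)
    rw [Finsupp.single_eq_same]
    omega
  · have := Finset.add_le_sum (f := fun v => e v) (fun _ _ => Nat.zero_le _) (Finset.mem_univ u)
      (Finset.mem_univ v) huv
    rw [Finsupp.single_eq_of_ne huv]
    omega

theorem eval_lin {d : ℕ} (P : MvPolynomial (Fin d) k) (z : Fin d → k)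
    (h : ∀ e, P.coeff e ≠ 0 → 2 ≤ ∑ v, e v → ∃ v, e v ≠ 0 ∧ z v = 0) :
    MvPolynomial.eval z P = P.coeff 0 + ∑ v, z v * P.coeff (Finsupp.single v 1) := by
  have key := eval_zero (P - (MvPolynomial.C (P.coeff 0) +
    ∑ v, MvPolynomial.monomial (Finsupp.single v 1) (P.coeff (Finsupp.single v 1)))) z fun e he => by
      rw [MvPolynomial.coeff_sub, MvPolynomial.coeff_add, MvPolynomial.coeff_C,
        MvPolynomial.coeff_sum] at he
      simp only [MvPolynomial.coeff_monomial] at he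
      by_cases h0 : (0 : Fin d →₀ ℕ) = e
      · subst h0
        rw [if_pos rfl, Finset.sum_eq_zero fun v _ => if_neg (Finsupp.single_ne_zero.2 one_ne_zero),
          add_zero, sub_self] at he
        exact absurd rfl he
      · rw [if_neg h0, zero_add] at he
        by_cases h1 : ∃ v, Finsupp.single v 1 = e
        · obtain ⟨v, rfl⟩ := h1
          rw [Finset.sum_eq_single v (fun u _ hu => if_neg fun e' =>
            hu (Finsupp.single_left_injective one_ne_zero e')) (fun h => absurd (Finset.mem_univ v) h),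
            if_pos rfl, sub_self] at he
          exact absurd rfl he
        · have h1' : ∀ v, Finsupp.single v 1 ≠ e := fun v hv => h1 ⟨v, hv⟩
          rw [Finset.sum_eq_zero fun v _ => if_neg (h1' v), sub_zero] at he
          exact h e he (two_le h0 h1')
  rw [map_sub, map_add, map_sum, MvPolynomial.eval_C, sub_eq_zero] at key
  rw [key]
  refine congrArg _ (Finset.sum_congr rfl fun v _ => ?_)
  rw [MvPolynomial.eval_monomial, Finsupp.prod_single_index (h := fun n e => z n ^ e) (pow_zero _),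
    pow_one, mul_comm]

variable {H : Subgroup (GL n k)} {Ys : Submodule ℤ (n → ℤ)} {l : Ys} (C : Chart H Ys l)

theorem hom_at (m : Ys) {i j : n} {e : Fin C.d →₀ ℕ} (he : (C.g i j).coeff e ≠ 0) :
    ∑ v, (e v : ℤ) * C.a v m = m.1 i - m.1 j := by
  have := congrArg (fun φ : XX Ys => φ m) (C.hom i j e he)
  simpa [LinearMap.sum_apply, eps_apply] using this

theorem pt_apply (z : Fin C.d → k) (i j : n) :
    (C.pt z : Matrix n n k) i j = MvPolynomial.eval z (C.g i j) := by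
  rw [C.pt_val]; rfl

theorem lin_mem (m : Ys) {r : ℤ} {z : Fin C.d → k} (hz : ∀ v, z v ≠ 0 → r ≤ C.a v m) :
    ∑ v, z v • C.y v ∈ degGE k m.1 r := by
  refine Submodule.sum_mem _ fun v _ => ?_
  by_cases h : z v = 0
  · rw [h, zero_smul]; exact Submodule.zero_mem _
  · exact Submodule.smul_mem _ _ (degGE_mono (hz v h) ((C.y_wt v).mem_degGE m))

theorem pt_lin (m : Ys) {r : ℤ} (hr : 1 ≤ r) {z : Fin C.d → k} (hz : ∀ v, z v ≠ 0 → r ≤ C.a v m) :
    (C.pt z : Matrix n n k) - 1 - ∑ v, z v • C.y v ∈ degGE k m.1 (r + 1) := fun i j hij => by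
  rw [Matrix.sub_apply, Matrix.sub_apply, pt_apply, eval_lin, C.g0, Matrix.sum_apply]
  · simp only [C.g1, Matrix.smul_apply, smul_eq_mul]
    ring
  · intro e he h2
    by_contra hc
    have h3 : ∀ v, (e v : ℤ) * r ≤ (e v : ℤ) * C.a v m := fun v => by
      by_cases h : e v = 0
      · rw [h]; simp
      · exact mul_le_mul_of_nonneg_left (hz v fun h' => hc ⟨v, h, h'⟩) (Int.natCast_nonneg _)
    have h4 := Finset.sum_le_sum fun v (_ : v ∈ Finset.univ) => h3 v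
    rw [hom_at C m he, ← Finset.sum_mul, ← Nat.cast_sum] at h4
    have h5 : (2 : ℤ) ≤ ((∑ v, e v : ℕ) : ℤ) := by exact_mod_cast h2
    nlinarith

theorem pt_deg (m : Ys) {r : ℤ} (hr : 1 ≤ r) {z : Fin C.d → k} (hz : ∀ v, z v ≠ 0 → r ≤ C.a v m) :
    (C.pt z : Matrix n n k) - 1 ∈ degGE k m.1 r := by
  have := add_mem (degGE_mono (r := r) (by omega) (pt_lin C m hr hz)) (lin_mem C m hz)
  rwa [sub_add_cancel] at this

theorem pt_Zc (m : Ys) {z : Fin C.d → k} (hz : ∀ v, z v ≠ 0 → C.a v m = 0) : C.pt z ∈ Zc k m.1 := by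
  refine mem_Zc.2 fun i j hij => ?_
  rw [pt_apply]
  refine eval_zero _ _ fun e he => ?_
  by_contra hc
  have h := hom_at C m he
  rw [Finset.sum_eq_zero fun v _ => ?_] at h
  · omega
  · by_cases h' : e v = 0
    · rw [h']; simp
    · rw [hz v fun h'' => hc ⟨v, h', h''⟩, mul_zero]

theorem up_zero {m : n → ℤ} {g : GL n k} (hg : g ∈ Up k m) : (g : Matrix n n k) ∈ degGE k m 0 := by
  simpa using add_mem (degGE_mono (r := 0) (by omega) (mem_Up.1 hg)) (one_mem_degGE m)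

include C in
theorem step (ν : Ys) {r : ℤ} (hr : 1 ≤ r) {w : GL n k} (hw : w ∈ H ⊓ Up k l.1)
    (hd : (w : Matrix n n k) - 1 ∈ degGE k l.1 r) :
    ∃ a ∈ H ⊓ Up k l.1, ∃ c ∈ H ⊓ Up k l.1, ∃ b ∈ H ⊓ Up k l.1, ∃ w' ∈ H ⊓ Up k l.1,
      a ∈ Up k ν.1 ∧ c ∈ Zc k ν.1 ∧ b ∈ Up k (-ν.1) ∧
      (w' : Matrix n n k) - 1 ∈ degGE k l.1 (r + 1) ∧ w = a * c * w' * b := by
  obtain ⟨z, hz⟩ : ∃ z : Fin C.d → k, z = fun i => lf (C.c i) ((w : Matrix n n k) - 1) := ⟨_, rfl⟩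
  have hw' : C.pt z = w := by rw [hz]; exact C.pt_lf w hw
  have hzr : ∀ v, z v ≠ 0 → r ≤ C.a v l := fun v h => by
    by_contra hc
    exact h (by rw [hz]; exact lf_degGE (C.c_wt v) hd (not_le.1 hc))
  obtain ⟨z1, h1⟩ : ∃ z1 : Fin C.d → k, z1 = fun v => if 0 < C.a v ν then z v else 0 := ⟨_, rfl⟩
  obtain ⟨z2, h2⟩ : ∃ z2 : Fin C.d → k, z2 = fun v => if C.a v ν = 0 then z v else 0 := ⟨_, rfl⟩
  obtain ⟨z3, h3⟩ : ∃ z3 : Fin C.d → k, z3 = fun v => if C.a v ν < 0 then z v else 0 := ⟨_, rfl⟩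
  have s1 : ∀ v, z1 v ≠ 0 → 0 < C.a v ν ∧ z v ≠ 0 := fun v h => by
    rw [h1] at h; exact ite_ne_right_iff.1 h
  have s2 : ∀ v, z2 v ≠ 0 → C.a v ν = 0 ∧ z v ≠ 0 := fun v h => by
    rw [h2] at h; exact ite_ne_right_iff.1 h
  have s3 : ∀ v, z3 v ≠ 0 → C.a v ν < 0 ∧ z v ≠ 0 := fun v h => by
    rw [h3] at h; exact ite_ne_right_iff.1 h
  have hsum : ∑ v, z v • C.y v = ∑ v, z1 v • C.y v + ∑ v, z2 v • C.y v + ∑ v, z3 v • C.y v := by
    rw [← Finset.sum_add_distrib, ← Finset.sum_add_distrib]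
    refine Finset.sum_congr rfl fun v _ => ?_
    rw [← add_smul, ← add_smul, h1, h2, h3]
    refine congrArg (· • C.y v) ?_
    rcases lt_trichotomy (C.a v ν) 0 with h | h | h
    · simp only [if_pos h, if_neg h.ne, if_neg h.not_gt, zero_add]
    · simp only [h, lt_irrefl, if_true, if_false, zero_add, add_zero]
    · simp only [if_pos h, if_neg h.ne', if_neg h.not_gt, add_zero]
  have m1 := C.pt_mem z1
  have m2 := C.pt_mem z2
  have m3 := C.pt_mem z3
  refine ⟨C.pt z1, m1, C.pt z2, m2, C.pt z3, m3, (C.pt z2)⁻¹ * (C.pt z1)⁻¹ * w * (C.pt z3)⁻¹,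
    mul_mem (mul_mem (mul_mem (inv_mem m2) (inv_mem m1)) hw) (inv_mem m3),
    mem_Up.2 (pt_deg C ν le_rfl fun v h => (s1 v h).1), pt_Zc C ν fun v h => (s2 v h).1,
    mem_Up.2 (pt_deg C (-ν) le_rfl fun v h => by have := (s3 v h).1; rw [map_neg]; omega), ?_, by group⟩
  have d1 := pt_deg C l hr fun v h => hzr v (s1 v h).2
  have d2 := pt_deg C l hr fun v h => hzr v (s2 v h).2
  have d3 := pt_deg C l hr fun v h => hzr v (s3 v h).2
  have e0 := pt_lin C l hr hzr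
  have e1 := pt_lin C l hr fun v h => hzr v (s1 v h).2
  have e2 := pt_lin C l hr fun v h => hzr v (s2 v h).2
  have e3 := pt_lin C l hr fun v h => hzr v (s3 v h).2
  rw [hw', hsum] at e0
  have i1 := inv_mem_degGE (up_zero m1.2)
  have i2 := inv_mem_degGE (up_zero m2.2)
  have i3 := inv_mem_degGE (up_zero m3.2)
  have p12 : _ ∈ degGE k l.1 (r + 1) := degGE_mono (by omega) (degGE_mul d1 d2)
  have p13 : _ ∈ degGE k l.1 (r + 1) := degGE_mono (by omega) (degGE_mul d1 d3)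
  have p23 : _ ∈ degGE k l.1 (r + 1) := degGE_mono (by omega) (degGE_mul d2 d3)
  have p123 : _ ∈ degGE k l.1 (r + 1) := degGE_mono (by omega) (degGE_mul (degGE_mul d1 d2) d3)
  have key : (w : Matrix n n k) - (C.pt z1 : Matrix n n k) * C.pt z2 * C.pt z3 ∈
      degGE k l.1 (r + 1) := by
    have := sub_mem (sub_mem (sub_mem (sub_mem (sub_mem (sub_mem (sub_mem e0 e1) e2) e3) p12) p13) p23)
      p123
    refine (congrArg (· ∈ degGE k l.1 (r + 1)) ?_).mp this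
    noncomm_ring
  have := degGE_mul (degGE_mul (degGE_mul i2 i1) key) i3
  rw [zero_add, zero_add, add_zero] at this
  refine (congrArg (· ∈ degGE k l.1 (r + 1)) ?_).mp this
  simp only [Units.val_mul, mul_sub, sub_mul, mul_assoc, Units.inv_mul_cancel_left, Units.mul_inv]

end Dec

theorem st_dec (k : Type u) [Field k] [IsAlgClosed k] (p : ℕ) [Fact p.Prime] [CharP k p] (n : Type)
    [Fintype n] [DecidableEq n] (hd1 : S_d1 k n) : S_dec k n := by
  intro H Ys hH hN l ν x hx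
  obtain ⟨C⟩ := hd1 H Ys hH hN l
  have main : ∀ r : ℕ, ∃ a ∈ H ⊓ Up k l.1, ∃ c ∈ H ⊓ Up k l.1, ∃ b ∈ H ⊓ Up k l.1,
      ∃ w ∈ H ⊓ Up k l.1, a ∈ Up k ν.1 ∧ c ∈ Zc k ν.1 ∧ b ∈ Up k (-ν.1) ∧
        (w : Matrix n n k) - 1 ∈ degGE k l.1 ((r : ℤ) + 1) ∧ x = a * c * w * b := by
    intro r
    induction r with
    | zero =>
      exact ⟨1, one_mem _, 1, one_mem _, 1, one_mem _, x, hx, one_mem _, one_mem _, one_mem _,
        by simpa using mem_Up.1 hx.2, by group⟩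
    | succ r ih =>
      obtain ⟨a, ha, c, hc, b, hb, w, hw, a1, c1, b1, hd, e⟩ := ih
      obtain ⟨a', ha', c', hc', b', hb', w', hw', a2, c2, b2, hd', e'⟩ :=
        Dec.step C ν (by omega) hw hd
      refine ⟨a * (c * a' * c⁻¹), mul_mem ha (mul_mem (mul_mem hc ha') (inv_mem hc)), c * c',
        mul_mem hc hc', b' * b, mul_mem hb' hb, w', hw', mul_mem a1 (conj_mem_Up c1 a2),
        mul_mem c1 c2, mul_mem b2 b1, by push_cast; exact hd', ?_⟩
      rw [e, e']; group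
  obtain ⟨D, hD⟩ := degGE_eq_zero (k := k) l.1
  obtain ⟨a, ha, c, hc, b, hb, w, -, a1, c1, b1, hd, e⟩ := main D
  have hw1 : w = 1 := Units.ext (sub_eq_zero.1 (hD _ (by omega) _ hd))
  exact ⟨a, ha, c, hc, b, hb, a1, c1, b1, by rw [e, hw1, mul_one]⟩

end Pool.Agent.Lib.MP_3a0263_al.Q
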