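import Pool.Agent.Lib.MP_3a0263_al.Q.GBlue
import Pool.Agent.Lib.MP_3a0263_al.Q.ApiP

namespace Pool.Agent.Lib.MP_3a0263_al.Q

open Matrix Pool.Agent.Lib.MP_3a0263_al.R

universe u

namespace FCU

variable {k : Type u} [Field k] {n : Type} [Fintype n] [DecidableEq n]

theorem X_mem {d : ℕ} (v : Fin d) : (MvPolynomial.X v : MvPolynomial (Fin d) k) ∈ mm k d :=
  Ideal.subset_span ⟨v, rfl⟩

omit [Fintype n] [DecidableEq n] in
theorem lin_apply {d : ℕ} (s : Finset (Fin d)) (y : Fin d → Matrix n n k) (i j : n) :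
    (∑ v ∈ s, (MvPolynomial.X v : MvPolynomial (Fin d) k) • (y v).map MvPolynomial.C :
      Matrix n n (MvPolynomial (Fin d) k)) i j =
      ∑ v ∈ s, MvPolynomial.X v * MvPolynomial.C (y v i j) := by
  rw [Matrix.sum_apply]
  rfl

omit [Fintype n] [DecidableEq n] in
theorem lin_mem {d : ℕ} (s : Finset (Fin d)) (y : Fin d → Matrix n n k) (i j : n) :
    (∑ v ∈ s, (MvPolynomial.X v : MvPolynomial (Fin d) k) • (y v).map MvPolynomial.C :
      Matrix n n (MvPolynomial (Fin d) k)) i j ∈ mm k d := by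
  rw [lin_apply]
  exact Ideal.sum_mem _ fun v _ => Ideal.mul_mem_right _ _ (X_mem v)

theorem pt_lin {H : Subgroup (GL n k)} {d : ℕ} (y : Fin d → Matrix n n k)
    (hy : ∀ v, y v ∈ lie H) :
    PtMod (H : Set (GL n k)) (mm k d ^ 2)
      (1 + ∑ v, (MvPolynomial.X v : MvPolynomial (Fin d) k) • (y v).map MvPolynomial.C) := by
  intro f hf
  have h := taylor (k := k) (J := mm k d) (I := mm k d) (x := (1 : Matrix n n _))
    (fun i j => by rw [sub_self]; exact Ideal.zero_mem _) (lin_mem Finset.univ y) le_rfl f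
  have h0 : MvPolynomial.aeval (entries (1 : GL n k)) f = 0 := mem_vanish.1 hf 1 H.one_mem
  rw [ApiP.aeval_one_alg, h0, map_zero, sub_zero] at h
  have h1 : (∑ ij : n × n, MvPolynomial.aeval (entries (1 : GL n k)) (MvPolynomial.pderiv ij f) •
      (∑ v, (MvPolynomial.X v : MvPolynomial (Fin d) k) • (y v).map MvPolynomial.C :
        Matrix n n (MvPolynomial (Fin d) k)) ij.1 ij.2) = 0 := by
    simp only [lin_apply, Finset.smul_sum]
    rw [Finset.sum_comm]
    refine Finset.sum_eq_zero fun v _ => ?_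
    have h2 := congrArg (fun r : k => (MvPolynomial.X v : MvPolynomial (Fin d) k) *
      MvPolynomial.C r) (mem_lie_iff.1 (hy v) f hf)
    simp only [map_sum, map_mul, Finset.mul_sum, map_zero, mul_zero] at h2
    rw [← h2]
    refine Finset.sum_congr rfl fun ij _ => ?_
    rw [MvPolynomial.smul_eq_C_mul]
    ring
  rw [h1, sub_zero, ← pow_two] at h
  exact h

theorem lf_sub {R : Type u} [CommRing R] [Algebra k R] (c : Matrix n n k) (x y : Matrix n n R) :
    lf c (x - y) = lf c x - lf c y := by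
  obtain ⟨φ, hφ⟩ := exists_lf_lin (R := R) c
  rw [← hφ, ← hφ, ← hφ, map_sub]

theorem lf_lin {H : Subgroup (GL n k)} {Ys : Submodule ℤ (n → ℤ)} (F : Fr H Ys) (i : Fin F.d) :
    lf (F.c i) (∑ v, (MvPolynomial.X v : MvPolynomial (Fin F.d) k) • (F.y v).map MvPolynomial.C :
      Matrix n n (MvPolynomial (Fin F.d) k)) = MvPolynomial.X i := by
  obtain ⟨φ, hφ⟩ := exists_lf_lin (R := MvPolynomial (Fin F.d) k) (F.c i)
  rw [← hφ, map_sum]
  have h1 : ∀ v, φ ((MvPolynomial.X v : MvPolynomial (Fin F.d) k) • (F.y v).map MvPolynomial.C) =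
      if i = v then MvPolynomial.X v else 0 := by
    intro v
    have h2 := lf_map (Algebra.ofId k (MvPolynomial (Fin F.d) k)) (F.c i) (F.y v)
    rw [F.lf_y] at h2
    rw [map_smul, hφ]
    erw [h2]
    split_ifs <;> simp
  rw [Finset.sum_congr rfl fun v _ => h1 v, Finset.sum_ite_eq]
  simp

theorem key (huniq : S_uniq k n) {H : Subgroup (GL n k)} {Ys : Submodule ℤ (n → ℤ)} (F : Fr H Ys)
    {N : ℕ} {g : Matrix n n (MvPolynomial (Fin F.d) k)} (h : IsFC F N g) (hN : 2 ≤ N) :
    Cong (mm k F.d ^ 2) g (1 + ∑ v, (MvPolynomial.X v : MvPolynomial (Fin F.d) k) •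
      (F.y v).map MvPolynomial.C) := by
  refine huniq H Ys F _ (mm k F.d) 2 _ _ (fun f hf => Ideal.pow_le_pow_right hN (h.pt f hf))
    (pt_lin F.y F.y_mem) h.one (fun i j => ?_) fun i => ?_
  · rw [Matrix.add_apply, add_sub_cancel_left]
    exact lin_mem _ _ i j
  · rw [← sub_sub, lf_sub, lf_lin]
    exact Ideal.pow_le_pow_right hN (h.lf i)

theorem map_pow_mem {d : ℕ} (φ : MvPolynomial (Fin d) k →ₐ[k] MvPolynomial (Fin d) k)
    (hφ : ∀ v, φ (MvPolynomial.X v) ∈ mm k d) (N : ℕ) {r : MvPolynomial (Fin d) k}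
    (hr : r ∈ mm k d ^ N) : φ r ∈ mm k d ^ N := by
  have h1 : (mm k d).map φ ≤ mm k d := by
    rw [Ideal.map_span, Ideal.span_le]
    rintro _ ⟨_, ⟨v, rfl⟩, rfl⟩
    exact hφ v
  have h2 := Ideal.mem_map_of_mem φ hr
  rw [Ideal.map_pow] at h2
  exact Ideal.pow_right_mono h1 N h2

end FCU

theorem st_fcu (k : Type u) [Field k] [IsAlgClosed k] (p : ℕ) [Fact p.Prime] [CharP k p]
    (n : Type) [Fintype n] [DecidableEq n] (huniq : S_uniq k n) : S_fcu k n := by
  intro H Ys F
  refine ⟨fun N N' g g' h h' hN => ?_, fun N g h i j => ?_, fun N g h hN v i j => ?_,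
    fun N g h hN κ _ i j => ?_⟩
  · refine huniq H Ys F _ (mm k F.d) N _ _ h.pt
      (fun f hf => Ideal.pow_le_pow_right hN (h'.pt f hf)) h.one h'.one fun i => ?_
    have h1 := Ideal.sub_mem _ (h.lf i) (Ideal.pow_le_pow_right hN (h'.lf i))
    rw [sub_sub_sub_cancel_right, ← FCU.lf_sub, sub_sub_sub_cancel_right] at h1
    exact h1
  · have h1 := h.one i j
    rw [← pow_one (MvPolynomial.idealOfVars (Fin F.d) k),
      MvPolynomial.mem_pow_idealOfVars_iff'] at h1
    have h2 := h1 0 (by simp)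
    rw [MvPolynomial.coeff_sub, sub_eq_zero] at h2
    rw [h2, Matrix.one_apply, Matrix.one_apply]
    split_ifs <;> simp
  · have h1 := FCU.key huniq F h hN i j
    rw [MvPolynomial.mem_pow_idealOfVars_iff'] at h1
    have h2 := h1 (Finsupp.single v 1) (by simp)
    rw [MvPolynomial.coeff_sub, sub_eq_zero] at h2
    rw [h2, Matrix.add_apply, FCU.lin_apply, MvPolynomial.coeff_add, MvPolynomial.coeff_sum]
    have h3 : ((1 : Matrix n n (MvPolynomial (Fin F.d) k)) i j).coeff (Finsupp.single v 1) = 0 := by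
      rw [Matrix.one_apply]
      split_ifs
      · rw [MvPolynomial.coeff_one, if_neg]
        exact fun e => one_ne_zero (Finsupp.single_eq_zero.1 e.symm)
      · simp
    have h4 : ∀ w, ((MvPolynomial.X w : MvPolynomial (Fin F.d) k) *
        MvPolynomial.C (F.y w i j)).coeff (Finsupp.single v 1) =
        if w = v then F.y w i j else 0 := by
      intro w
      rw [mul_comm, MvPolynomial.coeff_C_mul, MvPolynomial.coeff_X]
      by_cases e : w = v
      · rw [if_pos (by rw [e]), if_pos e, mul_one]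
      · rw [if_neg (fun e' => e (Finsupp.single_left_injective one_ne_zero e')), if_neg e,
          mul_zero]
    rw [h3, zero_add, Finset.sum_congr rfl fun w _ => h4 w, Finset.sum_ite_eq']
    simp
  · have h1 := FCU.key huniq F h hN i j
    have h2 := FCU.map_pow_mem (MvPolynomial.aeval fun i => if i ∈ κ then MvPolynomial.X i else 0 :
      MvPolynomial (Fin F.d) k →ₐ[k] MvPolynomial (Fin F.d) k) (fun w => by
        rw [MvPolynomial.aeval_X]
        split_ifs
        · exact FCU.X_mem w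
        · exact Ideal.zero_mem _) 2 h1
    rw [map_sub, Matrix.add_apply, FCU.lin_apply, map_add, map_sum] at h2
    rw [Matrix.add_apply, FCU.lin_apply, Finset.sum_filter, kill, Matrix.map_apply]
    have h3 : (MvPolynomial.aeval fun i => if i ∈ κ then MvPolynomial.X i else 0 :
        MvPolynomial (Fin F.d) k →ₐ[k] MvPolynomial (Fin F.d) k)
        ((1 : Matrix n n (MvPolynomial (Fin F.d) k)) i j) =
        (1 : Matrix n n (MvPolynomial (Fin F.d) k)) i j := by
      rw [Matrix.one_apply]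
      split_ifs <;> simp
    have h4 : ∀ w, (MvPolynomial.aeval fun i => if i ∈ κ then MvPolynomial.X i else 0 :
        MvPolynomial (Fin F.d) k →ₐ[k] MvPolynomial (Fin F.d) k)
        (MvPolynomial.X w * MvPolynomial.C (F.y w i j)) =
        if w ∈ κ then MvPolynomial.X w * MvPolynomial.C (F.y w i j) else 0 := by
      intro w
      rw [map_mul, MvPolynomial.aeval_X, MvPolynomial.aeval_C]
      split_ifs <;> simp
    rw [h3, Finset.sum_congr rfl fun w _ => h4 w] at h2
    have h5 : (fun i => @ite _ (i ∈ κ) (Classical.propDecidable _) (MvPolynomial.X i) 0 :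
        Fin F.d → MvPolynomial (Fin F.d) k) = fun i => if i ∈ κ then MvPolynomial.X i else 0 :=
      funext fun i => by split_ifs <;> rfl
    rw [h5]
    exact h2

end Pool.Agent.Lib.MP_3a0263_al.Q
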