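import Pool.Agent.Lib.MP_3a0263_al.Q.GBlue
import Pool.Agent.Lib.MP_3a0263_al.Q.ApiL
import Pool.Agent.Lib.MP_3a0263_al.Q.ApiR
import Pool.Agent.Lib.MP_3a0263_al.Q.ApiC
import Pool.Agent.Lib.MP_3a0263_al.Q.ApiZ2

namespace Pool.Agent.Lib.MP_3a0263_al.Q

open Matrix Pool.Agent.Lib.MP_3a0263_al.R

universe u

namespace FIX

variable {k : Type u} [Field k] {n : Type} [Fintype n] [DecidableEq n]
variable {H T : Subgroup (GL n k)} (R : IRep H T)

theorem closed_stab (hH : IsZClosed (H : Set (GL n k))) (u : Fin R.m) {P : Subgroup (GL n k)}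
    (hP : ∀ g, g ∈ P ↔ g ∈ H ∧ ∃ a : k, R.col g u = a • (Pi.single u 1 : Fin R.m → k)) :
    IsZClosed (P : Set (GL n k)) := fun g hg => by
  have h1 := closed_vec (Φ := fun g : GL n k => R.col g u)
    (fun i => (RegM.id.lin R.ρ) i u) (Submodule.span k {(Pi.single u 1 : Fin R.m → k)})
  refine (hP g).2 ⟨hH g fun f hf => hg f (vanish_anti (fun x hx => ((hP x).1 hx).1) hf), ?_⟩
  obtain ⟨a, ha⟩ := Submodule.mem_span_singleton.1 (h1 g fun f hf => hg f (vanish_anti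
    (fun x hx => by
      obtain ⟨a, ha⟩ := ((hP x).1 hx).2
      exact Submodule.mem_span_singleton.2 ⟨a, ha.symm⟩) hf))
  exact ⟨a, ha.symm⟩

theorem entry [Infinite k] (hT : T ≤ H) {g : GL n k} (hg : g ∈ H) {w : Y T ≃ₗ[ℤ] Y T}
    (hw : Act T g w) (l : Y T) {a b : Fin R.m} (h : R.ρ (g : Matrix n n k) a b ≠ 0) :
    l.1 (R.ix b) = (w l).1 (R.ix a) := by
  refine zpow_inj (k := k) fun s => Units.ext (mul_left_cancel₀ h ?_)
  have e : g * coch l.1 s = coch (w l).1 s * g := by rw [← hw.coch, inv_mul_cancel_right]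
  have h1 := R.mul g hg _ (hT (l.2 s))
  rw [e, R.mul _ (hT ((w l).2 s)) g hg, R.rho_coch, R.rho_coch] at h1
  have h2 := congrFun (congrFun h1 a) b
  rw [diagonal_mul, mul_diagonal] at h2
  rw [← h2, mul_comm]

theorem col_single [Infinite k] (hT : T ≤ H) {g : GL n k} (hg : g ∈ H) {w : Y T ≃ₗ[ℤ] Y T}
    (hw : Act T g w) {l : Y T} {u u' : Fin R.m} (hu : R.Top l.1 u) (hu' : R.Top (w l).1 u') :
    R.col g u = R.ρ (g : Matrix n n k) u' u • (Pi.single u' 1 : Fin R.m → k) := by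
  obtain ⟨b, hb⟩ : ∃ b, R.ρ (g : Matrix n n k) u' b ≠ 0 := by
    by_contra! hc
    have := congrFun (congrFun (R.mul_inv hg) u') u'
    simp [Matrix.mul_apply, hc] at this
  have h1 := entry R hT hg hw l hb
  have h2 : l.1 (R.ix b) ≤ l.1 (R.ix u) := by
    by_cases e : b = u
    · rw [e]
    · exact (hu b e).le
  funext v
  by_cases e : v = u'
  · simp [e, IRep.col]
  · rw [Pi.smul_apply, Pi.single_eq_of_ne e, smul_zero]
    by_contra hc
    have h3 := entry R hT hg hw l hc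
    have h4 := hu' v e
    omega

theorem orb_eq {g : GL n k} (hg : g ∈ H) {u u' : Fin R.m} {c : k}
    (h : R.col g u = c • (Pi.single u' 1 : Fin R.m → k)) : R.orb u' = R.orb u := by
  have hc : c ≠ 0 := fun e => R.col_ne_zero hg u (by rw [h, e, zero_smul])
  have key : ∀ x ∈ H, R.col (x * g) u = c • R.col x u' := fun x hx => by
    rw [R.col_mul hx hg, h, mulVec_smul, R.col_eq]
  ext y
  constructor
  · rintro ⟨a, x, hx, rfl⟩
    exact ⟨a * c⁻¹, x * g, H.mul_mem hx hg, by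
      rw [key x hx, smul_smul, inv_mul_cancel_right₀ hc]⟩
  · rintro ⟨a, x, hx, rfl⟩
    have hx' := H.mul_mem hx (H.inv_mem hg)
    exact ⟨a * c, x * g⁻¹, hx', by rw [← smul_smul, ← key _ hx', inv_mul_cancel_right]⟩

end FIX

theorem st_fix (k : Type u) [Field k] [IsAlgClosed k] (p : ℕ) [Fact p.Prime] [CharP k p]
    (n : Type) [Fintype n] [DecidableEq n] (hconj : S_conj k n) (hchart : S_chart k n)
    (htop : S_top k n) (hlim : S_lim k n) (hta : S_ta k n) (htc : S_tc k n) : S_fix k n := by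
  intro H T hM R l u hl hu y hy hy0 l' hl'
  have hT := hM.max.1
  have hA := hta T hM.max.2.1 hM.diag
  have hC := htc T hM.max.2.1 hM.diag
  obtain ⟨v0, hv0, hmax⟩ := Set.exists_max_image {v | y v ≠ 0} (fun v => l'.1 (R.ix v))
    (Set.toFinite _) (Function.ne_iff.1 hy0)
  have h2 := (hlim H T hT R u).1 l' _ y hy hmax
  obtain ⟨a, h, hh, e2⟩ := (hchart H T hM.conn hT R l u hu _ h2).2
  have e3 : ∀ v, (if l'.1 (R.ix v) = l'.1 (R.ix v0) then y v else 0) = a * R.col h u v :=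
    fun v => congrFun e2 v
  have ha : a ≠ 0 := fun e => hv0 (by simpa [e] using e3 v0)
  obtain ⟨P, hP⟩ := R.exists_stab u
  have hPH : P ≤ H := fun g hg => ((hP g).1 hg).1
  have hTP : T ≤ P := fun t ht => (hP t).2 ⟨hT ht, by
    obtain ⟨d, rfl⟩ := hM.diag t ht
    refine ⟨d (R.ix u), ?_⟩
    rw [R.col_eq, R.diag d ht]
    funext v
    by_cases e : v = u <;> simp [mulVec_diagonal, e]⟩
  have hT'P : cjs h⁻¹ T ≤ P := by
    rintro _ ⟨t, ht, rfl⟩
    obtain ⟨d, rfl⟩ := hM.diag t ht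
    have e4 : R.col (dg d * h) u = (d (R.ix v0) : k) • R.col h u := by
      rw [R.col_mul (hT ht) hh, R.diag d ht]
      funext v
      rw [mulVec_diagonal, Pi.smul_apply, smul_eq_mul]
      by_cases e : l'.1 (R.ix v) = l'.1 (R.ix v0)
      · rw [hA.eq _ _ (hl' _ _ e) d ht]
      · have := e3 v
        rw [if_neg e] at this
        rw [(mul_eq_zero.1 this.symm).resolve_left ha, mul_zero, mul_zero]
    have hm : dg d * h ∈ H := H.mul_mem (hT ht) hh
    have e5 : (MulAut.conj h⁻¹).toMonoidHom (dg d) = h⁻¹ * (dg d * h) := by simp [mul_assoc]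
    rw [e5]
    refine (hP _).2 ⟨H.mul_mem (H.inv_mem hh) hm, d (R.ix v0), ?_⟩
    rw [R.col_mul (H.inv_mem hh) hm, e4, mulVec_smul, ← R.col_mul (H.inv_mem hh) hh,
      inv_mul_cancel, R.col_one]
  have hK := (idc_le P).trans hPH
  have hm' : IsMaxTorus H (cjs h⁻¹ T) := by
    have := maxTorus_cjs h⁻¹ hM.max
    rwa [cjs_self (H.inv_mem hh)] at this
  obtain ⟨q, hq, eq⟩ := hconj (idc P) T (cjs h⁻¹ T)
    (hM.sub (conn_idc (FIX.closed_stab R hM.conn.1 u hP)) (le_idc hTP hM.max.2.1.1) hK)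
    (maxTorus_of_le hm' (le_idc hT'P hm'.2.1.1) hK)
  rw [cjs_cjs] at eq
  have hq' : q⁻¹ ∈ P := P.inv_mem (idc_le P hq)
  have hg : h * q⁻¹ ∈ H := H.mul_mem hh (hPH hq')
  obtain ⟨w, hw⟩ := hC.norm (h * q⁻¹) fun t => by
    have := mem_cjs (P := q * h⁻¹) (g := t) (H := T)
    rw [eq] at this
    rw [this, show (q * h⁻¹)⁻¹ * t * (q * h⁻¹) = h * q⁻¹ * t * (h * q⁻¹)⁻¹ by group]
  have hwl := hC.gen _ w hw l hl
  obtain ⟨u', hu'⟩ := htop H T hM R (w l) hwl
  have e6 := FIX.col_single R hT hg hw hu hu'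
  obtain ⟨b, hb⟩ := ((hP _).1 hq').2
  have e7 : R.col (h * q⁻¹) u = b • R.col h u := by
    rw [R.col_mul hh (hPH hq'), hb, mulVec_smul, ← R.col_eq]
  have hb0 : b ≠ 0 := fun e => R.col_ne_zero hg u (by rw [e7, e, zero_smul])
  have e8 : ∀ v, v ≠ u' → (if l'.1 (R.ix v) = l'.1 (R.ix v0) then y v else 0) = 0 := fun v hv => by
    have := congrFun (e7.symm.trans e6) v
    rw [Pi.smul_apply, Pi.smul_apply, Pi.single_eq_of_ne hv, smul_zero, smul_eq_mul] at this
    rw [e3, (mul_eq_zero.1 this).resolve_left hb0, mul_zero]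
  have e9 : v0 = u' := by
    by_contra hc
    exact hv0 (by simpa using e8 v0 hc)
  subst e9
  refine ⟨_, hg, w, hw, hwl, v0, hu', FIX.orb_eq R hg e6, hv0, fun v hv hyv => ?_⟩
  refine lt_of_le_of_ne (hmax v hyv) fun e => hyv ?_
  simpa [e] using e8 v hv

end Pool.Agent.Lib.MP_3a0263_al.Q
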