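import Pool.Agent.Lib.MP_3a0263_al.Q.GBlue
import Pool.Agent.Lib.MP_3a0263_al.Q.ApiL
import Pool.Agent.Lib.MP_3a0263_al.Q.ApiP
import Pool.Agent.Lib.MP_3a0263_al.Q.ApiZ1

namespace Pool.Agent.Lib.MP_3a0263_al.Q

open Matrix Pool.Agent.Lib.MP_3a0263_al.R

universe u

namespace FR

variable {k : Type u} [Field k] {n : Type} [Fintype n] [DecidableEq n]

theorem exists_lf (φ : Matrix n n k →ₗ[k] k) : ∃ c : Matrix n n k, ∀ x, lf c x = φ x := by
  refine ⟨Matrix.of fun i j => φ (Matrix.single i j 1), fun x => ?_⟩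
  have e : x = ∑ ij : n × n, x ij.1 ij.2 • Matrix.single ij.1 ij.2 (1 : k) := by
    rw [Fintype.sum_prod_type]
    simp only [Matrix.smul_single, smul_eq_mul, mul_one]
    exact Matrix.matrix_eq_sum_single x
  have e2 : φ x = ∑ ij : n × n, x ij.1 ij.2 • φ (Matrix.single ij.1 ij.2 (1 : k)) := by
    conv_lhs => rw [e]
    simp only [map_sum, map_smul]
  rw [e2, lf]
  refine Finset.sum_congr rfl fun ij _ => ?_
  rw [Matrix.of_apply, smul_eq_mul, smul_eq_mul, mul_comm]

omit [DecidableEq n] in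
theorem lf_wcomp {Ys : Submodule ℤ (n → ℤ)} {a : XX Ys} (c : Matrix n n k) {x : Matrix n n k}
    (hx : Wt a x) : lf (wcomp a c) x = lf c x := by
  refine Finset.sum_congr rfl fun q _ => ?_
  by_cases h : x q.1 q.2 = 0
  · rw [h, smul_zero, smul_zero]
  · rw [wcomp_of_eq c (hx _ _ h)]

theorem exists_dual {V : Type*} [AddCommGroup V] [Module k V] {d : ℕ} {y : Fin d → V}
    (hy : LinearIndependent k y) (i : Fin d) :
    ∃ φ : V →ₗ[k] k, ∀ j, φ (y j) = if i = j then 1 else 0 := by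
  obtain ⟨φ, hφ⟩ := LinearMap.exists_extend ((Finsupp.lapply i).comp hy.repr)
  refine ⟨φ, fun j => ?_⟩
  have h1 := DFunLike.congr_fun hφ ⟨y j, Submodule.subset_span (Set.mem_range_self j)⟩
  rw [LinearMap.comp_apply, LinearMap.comp_apply, Submodule.subtype_apply,
    hy.repr_eq_single j _ rfl, Finsupp.lapply_apply, Finsupp.single_apply] at h1
  rw [h1]
  by_cases h : i = j
  · rw [if_pos h, if_pos h.symm]
  · rw [if_neg h, if_neg (Ne.symm h)]

end FR

theorem st_fr (k : Type u) [Field k] [IsAlgClosed k] (p : ℕ) [Fact p.Prime] [CharP k p]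
    (n : Type) [Fintype n] [DecidableEq n] : S_fr k n := by
  classical
  intro H Ys hN
  let S : Set (Matrix n n k) := {x | x ∈ lie H ∧ ∃ a : XX Ys, Wt a x}
  have hS : ∀ x ∈ lie H, x ∈ Submodule.span k S := by
    intro x hx
    rw [← sum_wcomp (Finset.univ.image fun q : n × n => eps Ys q.1 - eps Ys q.2) x
      fun i j _ => Finset.mem_image.2 ⟨(i, j), Finset.mem_univ _, rfl⟩]
    refine Submodule.sum_mem _ fun a _ => Submodule.subset_span ⟨?_, a, wt_wcomp a x⟩
    exact wcomp_mem (lieSub H) (fun l s => conj_mem_lie (hN l.1 l.2 s) hx) a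
  obtain ⟨b, hbS, hsp, hli⟩ := exists_linearIndependent k S
  have hfin : Finite b := hli.finite
  obtain ⟨d, ⟨e⟩⟩ := Finite.exists_equiv_fin b
  let y : Fin d → Matrix n n k := fun i => (e.symm i).1
  have hy : LinearIndependent k y := hli.comp e.symm e.symm.injective
  have hr : Set.range y = b := by
    ext x
    constructor
    · rintro ⟨i, rfl⟩
      exact (e.symm i).2
    · intro hx
      exact ⟨e ⟨x, hx⟩, by simp [y]⟩
  have hyS : ∀ i, y i ∈ S := fun i => hbS (e.symm i).2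
  choose a ha using fun i => (hyS i).2
  choose φ hφ using FR.exists_dual hy
  choose c2 hc2 using fun i => FR.exists_lf (φ i)
  have hlf : ∀ i j, lf (wcomp (a i) (c2 i)) (y j) = if i = j then 1 else 0 := by
    intro i j
    by_cases h : a i = a j
    · rw [FR.lf_wcomp (c2 i) (h ▸ ha j), hc2, hφ]
    · rw [lf_wt (wt_wcomp _ _) (ha j) h, if_neg]
      rintro rfl
      exact h rfl
  refine ⟨⟨d, a, y, fun i => wcomp (a i) (c2 i), fun i => (hyS i).1, ha,
    fun i => wt_wcomp _ _, hlf, fun x hx => ?_⟩⟩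
  have hx2 : x ∈ Submodule.span k (Set.range y) := by
    rw [hr, hsp]; exact hS x hx
  obtain ⟨t, ht⟩ := (Submodule.mem_span_range_iff_exists_fun k).1 hx2
  have h3 : ∀ i, lf (wcomp (a i) (c2 i)) x = t i := by
    intro i
    obtain ⟨ψ, hψ⟩ := exists_lf_lin (R := k) (wcomp (a i) (c2 i))
    rw [← hψ, ← ht, map_sum]
    simp only [map_smul]
    simp only [hψ, hlf, smul_eq_mul, mul_ite, mul_one, mul_zero]
    rw [Finset.sum_ite_eq, if_pos (Finset.mem_univ _)]
  simp only [h3]
  exact ht.symm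

end Pool.Agent.Lib.MP_3a0263_al.Q
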