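import Pool.Agent.Lib.MP_3a0263_al.Q.GBlue

namespace Pool.Agent.Lib.MP_3a0263_al.Q

universe u

namespace GENX

open MvPolynomial

/-- a polynomial map of affine spaces is a ring map of finite presentation -/
theorem fp {k : Type u} [Field k] {ι m : Type} [Fintype ι] [Fintype m]
    (P : m → MvPolynomial ι k) :
    (aeval P : MvPolynomial m k →ₐ[k] MvPolynomial ι k).toRingHom.FinitePresentation := by
  rw [← RingHom.FinitePresentation.of_finiteType]
  have h : ((aeval P : MvPolynomial m k →ₐ[k] MvPolynomial ι k).toRingHom.comp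
      (algebraMap k (MvPolynomial m k))).FiniteType := by
    have e : (aeval P : MvPolynomial m k →ₐ[k] MvPolynomial ι k).toRingHom.comp
        (algebraMap k (MvPolynomial m k)) = algebraMap k (MvPolynomial ι k) :=
      RingHom.ext fun c => (aeval P : MvPolynomial m k →ₐ[k] MvPolynomial ι k).commutes c
    rw [e, RingHom.finiteType_algebraMap]
    infer_instance
  exact h.of_comp_finiteType

end GENX

open MvPolynomial in
theorem st_genx (k : Type u) [Field k] [IsAlgClosed k] (p : ℕ) [Fact p.Prime] [CharP k p]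
    (n : Type) [Fintype n] [DecidableEq n] : S_genx k := by
  intro ι m _ _ P
  obtain ⟨S, hS⟩ := PrimeSpectrum.exists_constructibleSetData_iff.mpr
    (PrimeSpectrum.isConstructible_range_comap (GENX.fp P))
  have h0 : PrimeSpectrum.comap (aeval P : MvPolynomial m k →ₐ[k] MvPolynomial ι k).toRingHom
      ⟨⊥, Ideal.isPrime_bot⟩ ∈ S.toSet := by
    rw [hS]; exact ⟨_, rfl⟩
  simp only [PrimeSpectrum.ConstructibleSetData.toSet, Set.mem_iUnion] at h0
  obtain ⟨C, hC, h1, h2⟩ := h0
  have hf : aeval P C.f ≠ 0 := by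
    intro h
    apply h2
    rw [PrimeSpectrum.mem_zeroLocus, Set.singleton_subset_iff]
    exact h
  have hg : ∀ i, aeval P (C.g i) = 0 := by
    intro i
    rw [PrimeSpectrum.mem_zeroLocus] at h1
    exact h1 ⟨i, rfl⟩
  refine ⟨C.f, hf, fun y hy hyf => ?_⟩
  have hmem : (⟨vanishingIdeal k {y}, inferInstance⟩ : PrimeSpectrum (MvPolynomial m k))
      ∈ S.toSet := by
    simp only [PrimeSpectrum.ConstructibleSetData.toSet, Set.mem_iUnion]
    refine ⟨C, hC, ?_, ?_⟩
    · rw [PrimeSpectrum.mem_zeroLocus]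
      rintro _ ⟨i, rfl⟩
      exact (mem_vanishingIdeal_singleton_iff y _).2 (hy _ (hg i))
    · rw [PrimeSpectrum.mem_zeroLocus, Set.singleton_subset_iff]
      exact fun h => hyf ((mem_vanishingIdeal_singleton_iff y _).1 h)
  rw [hS] at hmem
  obtain ⟨Q, hQ⟩ := hmem
  obtain ⟨M, hM, hQM⟩ := Ideal.exists_le_maximal Q.asIdeal Q.isPrime.ne_top
  obtain ⟨z, rfl⟩ := isMaximal_iff_eq_vanishingIdeal_singleton.1 hM
  refine ⟨z, fun j => ?_⟩
  have h3 : (X j - MvPolynomial.C (y j) : MvPolynomial m k) ∈ vanishingIdeal k {y} :=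
    (mem_vanishingIdeal_singleton_iff y _).2 (by simp)
  have h4 : (X j - MvPolynomial.C (y j) : MvPolynomial m k) ∈ (PrimeSpectrum.comap
      (aeval P : MvPolynomial m k →ₐ[k] MvPolynomial ι k).toRingHom Q).asIdeal := by
    rw [hQ]; exact h3
  have h5 : aeval P (X j - MvPolynomial.C (y j) : MvPolynomial m k) ∈ vanishingIdeal k {z} :=
    hQM h4
  have h6 := (mem_vanishingIdeal_singleton_iff z _).1 h5
  simp only [map_sub, aeval_X, aeval_C, AlgHom.commutes, Algebra.algebraMap_self,
    RingHom.id_apply] at h6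
  exact (sub_eq_zero.1 h6).symm

end Pool.Agent.Lib.MP_3a0263_al.Q
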