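import Pool.Agent.Lib.MP_3a0263_al.Q.GBlue
import Pool.Agent.Lib.MP_3a0263_al.Q.ApiL
import Pool.Agent.Lib.MP_3a0263_al.Q.ApiC

namespace Pool.Agent.Lib.MP_3a0263_al.Q

open Matrix Pool.Agent.Lib.MP_3a0263_al.R

universe u

namespace GTr

variable {k : Type u} [Field k] {n : Type} [Fintype n] [DecidableEq n]
variable {P : GL n k} {G T : Subgroup (GL n k)}

/-- the point of `T` given by a cocharacter of the conjugate torus -/
def pt (P : GL n k) (T : Subgroup (GL n k)) (l : Y (cjs P T)) (s : kˣ) : T :=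
  ⟨P⁻¹ * coch l.1 s * P, mem_cjs.1 (l.2 s)⟩

/-- the weight `a` is the character `χ` -/
def Rel (P : GL n k) (T : Subgroup (GL n k)) (a : XX (Y (cjs P T))) (χ : T →* kˣ) : Prop :=
  ∀ l s, χ (pt P T l s) = s ^ a l

theorem Rel.right (hA : TorA (cjs P T)) {a : XX (Y (cjs P T))} {χ ψ : T →* kˣ}
    (h : Rel P T a χ) (h' : Rel P T a ψ) : χ = ψ := by
  have h1 := hA.gen (cjs P ((χ.eqLocus ψ).map T.subtype)) fun l s =>
    mem_cjs.2 ⟨pt P T l s, (h l s).trans (h' l s).symm, rfl⟩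
  refine MonoidHom.ext fun t => ?_
  obtain ⟨t', ht', e⟩ := mem_cjs.1 (h1 (conj_mem_cjs t.2))
  have e2 : t' = t := Subtype.ext (e.trans (by group))
  exact e2 ▸ ht'

theorem Rel.left [Infinite k] {a b : XX (Y (cjs P T))} {χ : T →* kˣ}
    (h : Rel P T a χ) (h' : Rel P T b χ) : a = b :=
  LinearMap.ext fun l => zpow_inj (k := k) fun s => (h l s).symm.trans (h' l s)

theorem rel_zero : Rel P T 0 1 := fun l s => by simp

theorem Rel.add {a b : XX (Y (cjs P T))} {χ ψ : T →* kˣ} (h : Rel P T a χ) (h' : Rel P T b ψ) :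
    Rel P T (a + b) (χ * ψ) := fun l s => by
  rw [MonoidHom.mul_apply, h, h', LinearMap.add_apply, _root_.zpow_add]

theorem Rel.neg {a : XX (Y (cjs P T))} {χ : T →* kˣ} (h : Rel P T a χ) :
    Rel P T (-a) χ⁻¹ := fun l s => by
  rw [MonoidHom.inv_apply, h, LinearMap.neg_apply, _root_.zpow_neg]

theorem Rel.zsmul {a : XX (Y (cjs P T))} {χ : T →* kˣ} (h : Rel P T a χ) (c : ℤ) :
    Rel P T (c • a) (χ ^ c) := fun l s => by
  rw [MonoidHom.zpow_apply, h, LinearMap.smul_apply, smul_eq_mul, mul_comm, _root_.zpow_mul]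

theorem Rel.nsmul {a : XX (Y (cjs P T))} {χ : T →* kˣ} (h : Rel P T a χ) (c : ℕ) :
    Rel P T (c • a) (χ ^ c) := fun l s => by
  rw [MonoidHom.pow_apply, h, LinearMap.smul_apply, nsmul_eq_mul, mul_comm, _root_.zpow_mul,
    _root_.zpow_natCast]

theorem rel_sum {ι : Type*} (F : Finset ι) {a : ι → XX (Y (cjs P T))} {χ : ι → T →* kˣ}
    (h : ∀ i ∈ F, Rel P T (a i) (χ i)) : Rel P T (∑ i ∈ F, a i) (∏ i ∈ F, χ i) := by
  classical
  induction F using Finset.induction_on with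
  | empty => exact rel_zero
  | insert i F hi ih =>
    rw [Finset.sum_insert hi, Finset.prod_insert hi]
    exact (h i (Finset.mem_insert_self _ _)).add (ih fun j hj => h j (Finset.mem_insert_of_mem hj))

/-- conjugation of matrices -/
def cj (g : GL n k) (x : Matrix n n k) : Matrix n n k :=
  (g : Matrix n n k) * x * ((g⁻¹ : GL n k) : Matrix n n k)

theorem cj_mul (g h : GL n k) (x : Matrix n n k) : cj (g * h) x = cj g (cj h x) := by
  simp only [cj, _root_.mul_inv_rev, Units.val_mul, mul_assoc]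

theorem cj_one (x : Matrix n n k) : cj 1 x = x := by simp [cj]

theorem cj_smul (g : GL n k) (c : k) (x : Matrix n n k) : cj g (c • x) = c • cj g x := by
  simp [cj]

theorem cj_ne (g : GL n k) {x : Matrix n n k} (h : x ≠ 0) : cj g x ≠ 0 := fun e => h (by
  rw [← cj_one x, ← inv_mul_cancel g, cj_mul, e, cj, mul_zero, zero_mul])

theorem mem_lie {x : Matrix n n k} : x ∈ lie (cjs P G) ↔ cj P⁻¹ x ∈ lie G := mem_lie_cjs

theorem of_root [Infinite k] (hA : TorA (cjs P T)) {χ : T →* kˣ} (h : IsRoot G T χ) :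
    ∃ a, Rel P T a χ ∧ Root (cjs P G) (cjs P T) a := by
  obtain ⟨h1, x, hx, hx0, h2⟩ := h
  have h3 : ∀ l s, cj (coch l.1 s) (cj P x) = (χ (pt P T l s) : k) • cj P x := fun l s => by
    have := congrArg (cj P) (h2 (pt P T l s))
    rw [cj_smul] at this
    rw [← this, ← cj_mul, show coch l.1 s * P = P * (pt P T l s : GL n k) by simp [pt, mul_assoc],
      cj_mul]
    rfl
  obtain ⟨i, j, hij⟩ : ∃ i j, cj P x i j ≠ 0 := by
    by_contra! c
    exact cj_ne P hx0 (Matrix.ext c)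
  have h4 : Rel P T (eps _ i - eps _ j) χ := fun l s => Units.ext (mul_right_cancel₀ hij
    ((congrFun (congrFun (h3 l s) i) j).symm.trans (coch_conj l.1 s _ i j)))
  refine ⟨_, h4, fun e => h1 (h4.right hA (e ▸ rel_zero)), cj P x, mem_lie.2 ?_, cj_ne P hx0,
    wt_of_conj fun l s => (h3 l s).trans (by rw [h4])⟩
  rwa [← cj_mul, inv_mul_cancel, cj_one]

theorem to_root [Infinite k] (hA : TorA (cjs P T)) {a : XX (Y (cjs P T))}
    (h : Root (cjs P G) (cjs P T) a) : ∃ χ, Rel P T a χ ∧ IsRoot G T χ := by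
  obtain ⟨h1, x, hx, hx0, h2⟩ := h
  choose c hc using fun t : T => hA.wt a x h2 _ (conj_mem_cjs (P := P) t.2)
  have hc' : ∀ t : T, cj t (cj P⁻¹ x) = c t • cj P⁻¹ x := fun t => by
    have := congrArg (cj P⁻¹) (hc t)
    rw [cj_smul] at this
    rw [← this, ← cj_mul, show (t : GL n k) * P⁻¹ = P⁻¹ * (P * t * P⁻¹) by group, cj_mul]
    rfl
  have inj := smul_left_injective k (cj_ne P⁻¹ hx0)
  let f : T →* k :=
    { toFun := c
      map_one' := inj (by
        simp only [← hc', one_smul]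
        exact cj_one _)
      map_mul' := fun s t => inj (by
        simp only [← hc']
        rw [Subgroup.coe_mul, cj_mul, hc', cj_smul, hc', smul_smul, mul_comm]) }
  have h4 : Rel P T a f.toHomUnits := fun l s => Units.ext (smul_left_injective k hx0 (by
    have := hc (pt P T l s)
    rw [show P * (pt P T l s : GL n k) * P⁻¹ = coch l.1 s by simp [pt, mul_assoc]] at this
    exact this.symm.trans (h2.conj l s)))
  exact ⟨_, h4, fun e => h1 (h4.left (e ▸ rel_zero)), _, mem_lie.1 hx, cj_ne _ hx0, hc'⟩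

end GTr

open GTr in
theorem st_gt (k : Type u) [Field k] [IsAlgClosed k] (p : ℕ) [Fact p.Prime] [CharP k p]
    (n : Type) [Fintype n] [DecidableEq n] (hta : S_ta k n) : S_gt k p n := by
  classical
  rintro G hG ⟨T, hT, Δ, hΔ, hgood⟩
  obtain ⟨P, hP⟩ := exists_diag_torus hT.2.1
  have hA := hta _ (torus_cjs P hT.2.1) hP
  choose! A hA1 hA2 using fun χ (h : IsRoot G T χ) => of_root hA h
  choose! B hB1 hB2 using fun a (h : Root (cjs P G) (cjs P T) a) => to_root hA h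
  have BA : ∀ α ∈ Δ, B (A α) = α := fun α h =>
    (hB1 _ (hA2 α (hΔ.1 α h))).right hA (hA1 α (hΔ.1 α h))
  have inj : Set.InjOn A Δ := fun α h β h' e => by rw [← BA α h, e, BA β h']
  have sZ : ∀ c : XX (Y (cjs P T)) → ℤ,
      Rel P T (∑ a ∈ Δ.image A, c a • a) (∏ α ∈ Δ, α ^ c (A α)) := fun c => by
    rw [Finset.sum_image inj]
    exact rel_sum Δ fun α h => (hA1 α (hΔ.1 α h)).zsmul _
  have sN : ∀ c : XX (Y (cjs P T)) → ℕ,
      Rel P T (∑ a ∈ Δ.image A, c a • a) (∏ α ∈ Δ, α ^ c (A α)) := fun c => by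
    rw [Finset.sum_image inj]
    exact rel_sum Δ fun α h => (hA1 α (hΔ.1 α h)).nsmul _
  have sB : ∀ c : (T →* kˣ) → ℕ,
      Rel P T (∑ a ∈ Δ.image A, c (B a) • a) (∏ α ∈ Δ, α ^ c α) := fun c => by
    have := sN fun a => c (B a)
    rwa [Finset.prod_congr rfl fun α h => show α ^ c (B (A α)) = α ^ c α by rw [BA α h]] at this
  refine ⟨P, cjs P T, Δ.image A, ⟨conn_cjs P hG, maxTorus_cjs P hT, hP⟩, ?_, ?_, ?_, ?_⟩
  · intro a ha
    obtain ⟨α, h, rfl⟩ := Finset.mem_image.1 ha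
    exact hA2 α (hΔ.1 α h)
  · intro c hc a ha
    obtain ⟨α, h, rfl⟩ := Finset.mem_image.1 ha
    exact hΔ.2.1 (fun α => c (A α)) ((sZ c).right hA (hc ▸ rel_zero)) α h
  · intro b hb
    obtain ⟨c, hc⟩ := hΔ.2.2 _ (hB2 b hb)
    have h1 := sB c
    rcases hc with e | e <;> rw [← e] at h1
    exacts [⟨fun a => c (B a), Or.inl ((hB1 b hb).left h1)⟩,
      ⟨fun a => c (B a), Or.inr ((hB1 b hb).neg.left h1)⟩]
  · intro θ hθ hmax c hc a ha
    obtain ⟨α, h, rfl⟩ := Finset.mem_image.1 ha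
    refine hgood (B θ) ⟨hB2 θ hθ, fun c' hc' β hβ => ?_⟩ (fun α => c (A α))
      ((hB1 θ hθ).right hA (hc ▸ sN c)) α h
    have h1 := hA2 _ hc'
    rw [(hA1 _ hc').left ((hB1 θ hθ).add (sB c'))] at h1
    have := hmax (fun a => c' (B a)) h1 _ (Finset.mem_image_of_mem A hβ)
    rwa [BA β hβ] at this

end Pool.Agent.Lib.MP_3a0263_al.Q
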