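import Pool.Agent.Lib.MP_3a0263_al.Q.GBlue
import Pool.Agent.Lib.MP_3a0263_al.Q.ApiP

namespace Pool.Agent.Lib.MP_3a0263_al.Q

open Matrix Pool.Agent.Lib.MP_3a0263_al.R

universe u

namespace KR

variable {k : Type u} [Field k] {n : Type} [Fintype n] [DecidableEq n]

omit [Fintype n] in
theorem map_one' {R R' : Type u} [CommRing R] [Algebra k R] [CommRing R'] [Algebra k R']
    (φ : R →ₐ[k] R') (i j : n) : φ ((1 : Matrix n n R) i j) = (1 : Matrix n n R') i j := by
  simp only [Matrix.one_apply]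
  split_ifs <;> simp

omit [DecidableEq n] in
theorem lf_mem {R : Type u} [CommRing R] [Algebra k R] {J : Ideal R} (c : Matrix n n k)
    {x : Matrix n n R} (h : ∀ i j, x i j ∈ J) : lf c x ∈ J :=
  J.sum_mem fun ij _ => Submodule.smul_of_tower_mem J _ (h ij.1 ij.2)

theorem pow_mem {R : Type u} [CommRing R] [Algebra k R] {J : Ideal R} {d : ℕ}
    (σ : MvPolynomial (Fin d) k →ₐ[k] R) (h : ∀ i, σ (MvPolynomial.X i) ∈ J) (N : ℕ) :
    ∀ r ∈ mm k d ^ N, σ r ∈ J ^ N := by
  intro r hr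
  have h1 : Ideal.map σ (mm k d) ≤ J := by
    rw [Ideal.map_le_iff_le_comap]
    refine Ideal.span_le.2 ?_
    rintro _ ⟨i, rfl⟩
    exact h i
  have h2 := Ideal.mem_map_of_mem σ hr
  rw [Ideal.map_pow] at h2
  exact Ideal.pow_right_mono h1 N h2

theorem step (huniq : S_uniq k n) {H : Subgroup (GL n k)} {Ys : Submodule ℤ (n → ℤ)} (F : Fr H Ys)
    {R : Type u} [CommRing R] [Algebra k R] {J : Ideal R} {x : Matrix n n R} {N : ℕ}
    (hx : PtMod (H : Set (GL n k)) (J ^ N) x) (h1 : Cong J x 1)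
    {g : Matrix n n (MvPolynomial (Fin F.d) k)} (hg : IsFC F N g) {f : MvPolynomial (n × n) k}
    (hf : evx g f ∈ mm k F.d ^ N) : evx x f ∈ J ^ N := by
  let σ : MvPolynomial (Fin F.d) k →ₐ[k] R := MvPolynomial.aeval fun i => lf (F.c i) (x - 1)
  have hσ : ∀ i, σ (MvPolynomial.X i) = lf (F.c i) (x - 1) := fun i => MvPolynomial.aeval_X _ i
  have hJ : ∀ i, σ (MvPolynomial.X i) ∈ J := fun i => by
    rw [hσ]
    exact lf_mem _ fun a b => h1 a b
  have hp := pow_mem σ hJ
  have c1 : Cong J (g.map σ) 1 := fun a b => by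
    have h2 := hp 1 _ (by rw [pow_one]; exact hg.one a b)
    rw [pow_one, map_sub, map_one'] at h2
    exact h2
  have e1 : (g - 1).map σ = g.map σ - 1 := by
    ext a b
    simp only [Matrix.map_apply, Matrix.sub_apply, map_sub, map_one']
  have c2 : ∀ i, lf (F.c i) (g.map σ - x) ∈ J ^ N := fun i => by
    have h2 := hp N _ (hg.lf i)
    obtain ⟨φ, hφ⟩ := exists_lf_lin (R := R) (F.c i)
    rw [map_sub, ← lf_map, e1, hσ, ← hφ, ← hφ, ← map_sub, sub_sub_sub_cancel_right, hφ] at h2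
    exact h2
  have c3 := (huniq H Ys F R J N (g.map σ) x (hg.pt.map σ (hp N)) hx c1 h1 c2).aeval f
  rw [ApiP.aeval_map_entries] at c3
  have c4 := (J ^ N).sub_mem (hp N _ hf) c3
  rwa [sub_sub_cancel] at c4

end KR

theorem st_kr (k : Type u) [Field k] [IsAlgClosed k] (p : ℕ) [Fact p.Prime] [CharP k p] (n : Type)
    [Fintype n] [DecidableEq n] (huniq : S_uniq k n) : S_kr k n := by
  intro H Ys F hH f hf
  have := hH.2
  let π := Ideal.Quotient.mkₐ k (vanish (H : Set (GL n k)))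
  let x : Matrix n n (MvPolynomial (n × n) k ⧸ vanish (H : Set (GL n k))) :=
    Matrix.of fun i j => π (MvPolynomial.X (i, j))
  have hx : ∀ q : MvPolynomial (n × n) k, evx x q = π q := fun q => by
    have h := MvPolynomial.comp_aeval_apply
      (fun ij : n × n => (MvPolynomial.X ij : MvPolynomial (n × n) k)) π q
    rw [MvPolynomial.aeval_X_left_apply] at h
    exact h.symm
  let ev : (MvPolynomial (n × n) k ⧸ vanish (H : Set (GL n k))) →ₐ[k] k :=
    Ideal.Quotient.liftₐ _ (MvPolynomial.aeval (entries (1 : GL n k)))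
      fun q hq => mem_vanish.1 hq 1 H.one_mem
  have hev : ∀ q, ev (π q) = MvPolynomial.aeval (entries (1 : GL n k)) q := fun q => rfl
  have h1 : Cong (RingHom.ker ev) x 1 := fun a b => by
    rw [RingHom.mem_ker, map_sub, KR.map_one']
    change ev (π _) - _ = 0
    rw [hev, MvPolynomial.aeval_X]
    exact sub_self _
  have h2 : π f ∈ ⨅ N : ℕ, RingHom.ker ev ^ N := by
    refine Ideal.mem_iInf.2 fun N => ?_
    obtain ⟨g, hg, hfg⟩ := hf N
    rw [← hx]
    refine KR.step huniq F (fun q hq => ?_) h1 hg hfg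
    have h3 : evx x q = 0 := by
      rw [hx]
      exact Ideal.Quotient.eq_zero_iff_mem.2 hq
    change evx x q ∈ _
    rw [h3]
    exact (RingHom.ker ev ^ N).zero_mem
  rw [Ideal.iInf_pow_eq_bot_of_isDomain _ (RingHom.ker_ne_top ev)] at h2
  exact Ideal.Quotient.eq_zero_iff_mem.1 h2

end Pool.Agent.Lib.MP_3a0263_al.Q
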