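import Pool.Agent.Lib.MP_3a0263_al.Q.GBlue
import Pool.Agent.Lib.MP_3a0263_al.Q.ApiR
import Pool.Agent.Lib.MP_3a0263_al.Q.ApiZ1

namespace Pool.Agent.Lib.MP_3a0263_al.Q

open Matrix Pool.Agent.Lib.MP_3a0263_al.R

universe u

namespace KRO

open MvPolynomial

variable {k : Type u} [Field k] {m : Type}

/-- polynomials all of whose monomials have weight below `d` -/
def Fl (k : Type u) [Field k] (w : m → ℕ) (d : ℕ) : Submodule k (MvPolynomial m k) where
  carrier := {f | ∀ e, d ≤ Finsupp.weight w e → f.coeff e = 0}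
  zero_mem' := fun _ _ => rfl
  add_mem' := fun {f g} hf hg e h => by rw [coeff_add, hf e h, hg e h, add_zero]
  smul_mem' := fun c f hf e h => by rw [coeff_smul, hf e h, smul_zero]

theorem mem_Fl {w : m → ℕ} {d : ℕ} {f : MvPolynomial m k} :
    f ∈ Fl k w d ↔ ∀ e, d ≤ Finsupp.weight w e → f.coeff e = 0 := Iff.rfl

theorem Fl_mono {w : m → ℕ} {d d' : ℕ} (h : d ≤ d') {f : MvPolynomial m k} (hf : f ∈ Fl k w d) :
    f ∈ Fl k w d' := fun e he => hf e (h.trans he)

theorem Fl_mul {w : m → ℕ} {a b : ℕ} {f g : MvPolynomial m k} (hf : f ∈ Fl k w (a + 1))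
    (hg : g ∈ Fl k w b) : f * g ∈ Fl k w (a + b) := fun e he => by
  classical
  rw [coeff_mul]
  refine Finset.sum_eq_zero fun x hx => ?_
  have h1 : Finsupp.weight w e = Finsupp.weight w x.1 + Finsupp.weight w x.2 := by
    rw [← map_add, Finset.HasAntidiagonal.mem_antidiagonal.1 hx]
  by_cases h2 : a + 1 ≤ Finsupp.weight w x.1
  · rw [hf _ h2, zero_mul]
  · rw [hg _ (by omega), mul_zero]

theorem monomial_mem {w : m → ℕ} {d : ℕ} {e : m →₀ ℕ} (h : Finsupp.weight w e < d) (c : k) :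
    monomial e c ∈ Fl k w d := fun e' he => by
  classical
  rw [coeff_monomial, if_neg]
  rintro rfl
  omega

theorem exists_Fl (w : m → ℕ) (f : MvPolynomial m k) : ∃ d, f ∈ Fl k w d :=
  ⟨f.support.sup (Finsupp.weight w) + 1, fun e he => by
    by_contra h
    have := Finset.le_sup (f := Finsupp.weight w) (mem_support_iff.2 h)
    omega⟩

theorem step_mul {w : m → ℕ} (σ : MvPolynomial m k →ₐ[k] MvPolynomial m k) {e e' : m →₀ ℕ}
    (h : σ (monomial e 1) - monomial e 1 ∈ Fl k w (Finsupp.weight w e))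
    (h' : σ (monomial e' 1) - monomial e' 1 ∈ Fl k w (Finsupp.weight w e')) :
    σ (monomial (e + e') 1) - monomial (e + e') 1 ∈ Fl k w (Finsupp.weight w (e + e')) := by
  have h1 : (monomial e 1 : MvPolynomial m k) ∈ Fl k w (Finsupp.weight w e + 1) :=
    monomial_mem (by omega) 1
  have h2 : σ (monomial e' 1) ∈ Fl k w (Finsupp.weight w e' + 1) := by
    simpa using add_mem (Fl_mono (Nat.le_succ _) h') (monomial_mem (k := k) (Nat.lt_succ_self _) 1)
  have e1 : σ (monomial (e + e') 1) - monomial (e + e') 1 =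
      σ (monomial e' 1) * (σ (monomial e 1) - monomial e 1) +
        monomial e 1 * (σ (monomial e' 1) - monomial e' 1) := by
    rw [← one_mul (1 : k), ← monomial_mul, map_mul, one_mul]; ring
  rw [e1, map_add]
  exact add_mem (by rw [add_comm]; exact Fl_mul h2 h) (Fl_mul h1 h')

theorem step_mono {w : m → ℕ} (σ : MvPolynomial m k →ₐ[k] MvPolynomial m k)
    (hσ : ∀ a, σ (X a) - X a ∈ Fl k w (w a)) (e : m →₀ ℕ) :
    σ (monomial e 1) - monomial e 1 ∈ Fl k w (Finsupp.weight w e) := by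
  have h0 : σ (monomial 0 1) - monomial 0 1 ∈ Fl k w (Finsupp.weight w (0 : m →₀ ℕ)) := by
    rw [monomial_zero', C_1, map_one, sub_self]; exact zero_mem _
  induction e using Finsupp.induction_linear with
  | zero => exact h0
  | add e e' h h' => exact step_mul σ h h'
  | single a j =>
    induction j with
    | zero => rw [Finsupp.single_zero]; exact h0
    | succ j ih =>
      rw [Finsupp.single_add]
      refine step_mul σ ih ?_
      rw [Finsupp.weight_single, one_smul]
      exact hσ a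

theorem step {w : m → ℕ} (σ : MvPolynomial m k →ₐ[k] MvPolynomial m k)
    (hσ : ∀ a, σ (X a) - X a ∈ Fl k w (w a)) {d : ℕ} {f : MvPolynomial m k}
    (hf : f ∈ Fl k w (d + 1)) : σ f - f ∈ Fl k w d := by
  rw [f.as_sum, map_sum, ← Finset.sum_sub_distrib]
  refine Submodule.sum_mem _ fun e he => ?_
  have h1 : Finsupp.weight w e ≤ d := by
    by_contra h
    exact mem_support_iff.1 he (hf e (by omega))
  have e1 : (monomial e (f.coeff e) : MvPolynomial m k) = f.coeff e • monomial e 1 := by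
    rw [smul_monomial, smul_eq_mul, mul_one]
  rw [e1, map_smul, ← smul_sub]
  exact Submodule.smul_mem _ _ (Fl_mono h1 (step_mono σ hσ e))

variable [Fintype m] [DecidableEq m]

/-- substitution of a linear map -/
noncomputable def sub (A : Matrix m m k) : MvPolynomial m k →ₐ[k] MvPolynomial m k :=
  aeval fun a => ∑ b, A a b • X b

omit [DecidableEq m] in
theorem eval_sub' (A : Matrix m m k) (x : m → k) (f : MvPolynomial m k) :
    eval x (sub A f) = eval (A *ᵥ x) f := by
  have : (aeval x : MvPolynomial m k →ₐ[k] k).comp (sub A) = aeval (A *ᵥ x) := by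
    ext a
    simp [sub, mulVec, dotProduct]
  simpa [coe_aeval_eq_eval] using congrArg (fun φ => φ f) this

theorem sub_X {w : m → ℕ} {A : Matrix m m k} (hA : ∀ a b, ¬ w b < w a → (A - 1) a b = 0) (a : m) :
    sub A (X a) - X a ∈ Fl k w (w a) := by
  have e1 : sub A (X a) - X a = ∑ b, (A - 1) a b • X b := by
    simp [sub, sub_smul, Finset.sum_sub_distrib, one_apply]
  rw [e1]
  refine Submodule.sum_mem _ fun b _ => ?_
  by_cases h : w b < w a
  · refine Submodule.smul_mem _ _ (monomial_mem ?_ 1)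
    rwa [Finsupp.weight_single, one_smul]
  · rw [hA a b h, zero_smul]; exact zero_mem _

theorem abs (w : m → ℕ) (O : Set (m → k)) (M : Set (Matrix m m k))
    (hM : ∀ A ∈ M, ∀ a b, ¬ w b < w a → (A - 1) a b = 0) (hO : ∀ A ∈ M, ∀ x, A *ᵥ x ∈ O ↔ x ∈ O)
    {x0 : m → k} (hx0 : x0 ∈ O) (htr : ∀ x ∈ O, ∃ A ∈ M, x = A *ᵥ x0) {y0 : m → k}
    (hy0 : y0 ∈ clA O) (hy0' : y0 ∉ O) (d : ℕ) : ∀ f ∈ Fl k w d,
      (∀ y ∈ clA O, y ∉ O → eval y f = 0) → ∀ x ∈ O, eval x f = 0 := by
  induction d with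
  | zero =>
    intro f hf _ x _
    have : f = 0 := MvPolynomial.ext _ _ fun e => hf e (Nat.zero_le _)
    rw [this, map_zero]
  | succ d ih =>
    intro f hf hb
    have h1 : ∀ x ∈ O, eval x f = eval x0 f := fun x hx => by
      obtain ⟨A, hA, rfl⟩ := htr x hx
      have h2 := ih _ (step (sub A) (sub_X (hM A hA)) hf) (fun y hy hy' => by
        rw [map_sub, eval_sub', hb y hy hy', hb _ (fun q hq => ?_) fun h => hy' ((hO A hA y).1 h),
          sub_self]
        rw [← eval_sub']
        exact hy _ fun x hx => by rw [eval_sub']; exact hq _ ((hO A hA x).2 hx)) x0 hx0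
      rwa [map_sub, eval_sub', sub_eq_zero] at h2
    have h3 := hy0 (f - C (eval x0 f)) fun x hx => by rw [map_sub, eval_C, h1 x hx, sub_self]
    rw [map_sub, eval_C, hb y0 hy0 hy0', zero_sub, neg_eq_zero] at h3
    exact fun x hx => (h1 x hx).trans h3

end KRO

theorem st_kro (k : Type u) [Field k] [IsAlgClosed k] (p : ℕ) [Fact p.Prime] [CharP k p] (n : Type)
    [Fintype n] [DecidableEq n] (hd1 : S_d1 k n) (hgenx : S_genx k) : S_kro k n := by
  intro H T hH hT R l u hu y hy
  by_contra hy'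
  obtain ⟨C⟩ := hd1 H (Y T) hH (nrm_of_le hT) (-l)
  let P : Fin R.m → MvPolynomial (Fin C.d) k := fun a =>
    ∑ ij : n × n, R.ρ (Matrix.single ij.1 ij.2 1) a u • C.g ij.1 ij.2
  have hP : ∀ z a, MvPolynomial.eval z (P a) = R.col (C.pt z) u a := fun z a => by
    have := lin_eq_sum ((Matrix.entryLinearMap k k a u).comp R.ρ) (C.pt z : Matrix n n k)
    simp only [LinearMap.comp_apply, entryLinearMap_apply] at this
    rw [IRep.col, this, C.pt_val]
    simp [P]
  have hev : ∀ z q, MvPolynomial.eval z (MvPolynomial.aeval P q) =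
      MvPolynomial.eval (R.col (C.pt z) u) q := fun z q => by
    have : (MvPolynomial.aeval z : _ →ₐ[k] k).comp (MvPolynomial.aeval P) =
        MvPolynomial.aeval (R.col (C.pt z) u) := by
      ext a
      simp [← hP]
    simpa [MvPolynomial.coe_aeval_eq_eval] using congrArg (fun φ => φ q) this
  obtain ⟨f, hf, hf'⟩ := hgenx (Fin C.d) (Fin R.m) P
  have hw : ∀ a, 0 ≤ l.1 (R.ix u) - l.1 (R.ix a) := fun a => by
    by_cases h : a = u
    · rw [h, sub_self]
    · have := hu a h; omega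
  obtain ⟨d, hd⟩ := KRO.exists_Fl (fun a => (l.1 (R.ix u) - l.1 (R.ix a)).toNat) f
  have key := KRO.abs (fun a => (l.1 (R.ix u) - l.1 (R.ix a)).toNat)
    {y | ∃ v ∈ H ⊓ Up k (-l.1), y = R.col v u}
    {A | ∃ v ∈ H ⊓ Up k (-l.1), A = R.ρ (v : Matrix n n k)} (by
      rintro A ⟨v, hv, rfl⟩ a b hab
      refine R.rho_Up hT (-l) hv a b ?_
      have h1 := hw a
      have h2 := hw b
      simp only [Submodule.coe_neg, Pi.neg_apply] at hab ⊢
      omega) (by
      rintro A ⟨v, hv, rfl⟩ x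
      constructor
      · rintro ⟨v', hv', h⟩
        refine ⟨v⁻¹ * v', mul_mem (inv_mem hv) hv', ?_⟩
        rw [R.col_mul (inv_mem hv.1) hv'.1, ← h, mulVec_mulVec, R.inv_mul hv.1, one_mulVec]
      · rintro ⟨v', hv', rfl⟩
        exact ⟨v * v', mul_mem hv hv', (R.col_mul hv.1 hv'.1 u).symm⟩)
    (x0 := R.col 1 u) ⟨1, one_mem _, rfl⟩ (by
      rintro x ⟨v, hv, rfl⟩
      exact ⟨_, ⟨v, hv, rfl⟩, by rw [← R.col_mul hv.1 H.one_mem, mul_one]⟩) hy hy' d f hd
    (fun x hx hx' => by
      by_contra h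
      obtain ⟨z, hz⟩ := hf' x (fun q hq => hx q (by
        rintro _ ⟨v, hv, rfl⟩
        rw [← C.pt_lf v hv, ← hev, hq, map_zero])) h
      exact hx' ⟨C.pt z, C.pt_mem z, funext fun j => (hz j).trans (hP z j)⟩)
  exact hf (MvPolynomial.funext fun z => by
    rw [hev, map_zero]; exact key _ ⟨C.pt z, C.pt_mem z, rfl⟩)

end Pool.Agent.Lib.MP_3a0263_al.Q
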