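import Pool.Agent.Lib.MP_3a0263_al.Q.GBlue
import Pool.Agent.Lib.MP_3a0263_al.Q.ApiC
import Pool.Agent.Lib.MP_3a0263_al.Q.ApiR

namespace Pool.Agent.Lib.MP_3a0263_al.Q

open Matrix Pool.Agent.Lib.MP_3a0263_al.R

universe u

namespace LA1

variable {k : Type u} [Field k] {n : Type} [Fintype n] [DecidableEq n]

theorem reg_vec {H T : Subgroup (GL n k)} (R : IRep H T) (x : Fin R.m → k)
    (q : MvPolynomial (Fin R.m) k) :
    (fun g : GL n k => MvPolynomial.eval (R.ρ (g : Matrix n n k) *ᵥ x) q) ∈ reg k n := by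
  have h1 : RegM fun g : GL n k => R.ρ (g : Matrix n n k) := RegM.lin RegM.id R.ρ
  have h2 : ∀ i, (fun g : GL n k => ∑ j, R.ρ (g : Matrix n n k) i j * x j) ∈ reg k n := fun i =>
    reg_sum Finset.univ (φ := fun j (g : GL n k) => R.ρ (g : Matrix n n k) i j * x j) fun j _ =>
      reg_mul (h1 i j) (reg_const (x j))
  have h3 := reg_eval q
    (φ := fun i (g : GL n k) => ∑ j, R.ρ (g : Matrix n n k) i j * x j) h2
  exact h3

theorem single_one {m : Type} [DecidableEq m] (u v : m) :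
    Pi.single (M := fun _ => k) u 1 v = (1 : Matrix m m k) u v := by
  rw [Pi.single_apply, Matrix.one_apply]
  by_cases e' : u = v
  · simp [e']
  · simp [e', Ne.symm e']

theorem eq_one {H T : Subgroup (GL n k)} (R : IRep H T) (u : Fin R.m)
    (A : Matrix (Fin R.m) (Fin R.m) k) (h : ∀ g ∈ H, A *ᵥ R.col g u = R.col g u) : A = 1 := by
  have key : ∀ M : Matrix (Fin R.m) (Fin R.m) k, ∀ v, (A * M) v u = M v u := fun M => by
    induction R.span M using Submodule.span_induction with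
    | zero => simp
    | add a b _ _ ha hb => intro v; rw [mul_add, Matrix.add_apply, Matrix.add_apply, ha, hb]
    | smul c a _ ha => intro v; rw [Matrix.mul_smul, Matrix.smul_apply, Matrix.smul_apply, ha]
    | mem x hx =>
      obtain ⟨g, hg, rfl⟩ := hx
      exact fun v => congrFun (h g hg) v
  ext v j
  have := key (Matrix.single j u 1) v
  rw [Matrix.mul_single_apply_same, mul_one] at this
  rw [this, Matrix.one_apply, Matrix.single_apply]
  by_cases e : v = j
  · simp [e]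
  · simp [e, Ne.symm e]

/-- the transposed representation -/
def trR {H T : Subgroup (GL n k)} (R : IRep H T) : IRep (trS H) T where
  m := R.m
  ρ := (transposeLinearEquiv (Fin R.m) (Fin R.m) k k).toLinearMap ∘ₗ R.ρ ∘ₗ
    (transposeLinearEquiv n n k k).toLinearMap
  ix := R.ix
  pos := R.pos
  one := by
    show (R.ρ (1 : Matrix n n k)ᵀ)ᵀ = 1
    rw [transpose_one, R.one, transpose_one]
  mul := fun g hg h hh => by
    show (R.ρ (trG (g * h) : Matrix n n k))ᵀ =
      (R.ρ (trG g : Matrix n n k))ᵀ * (R.ρ (trG h : Matrix n n k))ᵀ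
    rw [trG_mul, R.mul _ hh _ hg, transpose_mul]
  span := fun y => by
    have : ∀ z : Matrix (Fin R.m) (Fin R.m) k, zᵀ ∈ Submodule.span k
        {x | ∃ h ∈ trS H, x = (R.ρ (trG h : Matrix n n k))ᵀ} := fun z => by
      induction R.span z using Submodule.span_induction with
      | zero => rw [transpose_zero]; exact zero_mem _
      | add a b _ _ ha hb => rw [transpose_add]; exact add_mem ha hb
      | smul c a _ ha => rw [transpose_smul]; exact Submodule.smul_mem _ c ha
      | mem x hx =>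
        obtain ⟨g, hg, rfl⟩ := hx
        exact Submodule.subset_span ⟨trG g, by rw [mem_trS, trG_trG]; exact hg, by rw [trG_trG]⟩
    exact this yᵀ
  diag := fun d hd => by
    show (R.ρ (dg d : Matrix n n k)ᵀ)ᵀ = _
    rw [dg_val, diagonal_transpose, ← dg_val, R.diag d hd, diagonal_transpose]

end LA1

theorem st_la1 (k : Type u) [Field k] [IsAlgClosed k] (p : ℕ) [Fact p.Prime] [CharP k p]
    (n : Type) [Fintype n] [DecidableEq n] (htop : S_top k n) (hfix : S_fix k n)
    (hfinf : S_finf k) : S_la1 k n := by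
  intro H T hT R S hS hI h1 hV g hg
  obtain ⟨l, hl⟩ := exists_gen (Y T)
  obtain ⟨u, hu⟩ := htop H T hT R l hl
  refine LA1.eq_one R u _ fun h hh => ?_
  have := hfinf (Fin R.m) (R.orb u) {y | ∃ g ∈ S, y = R.ρ (g : Matrix n n k) *ᵥ R.col h u}
    {v | R.Vert v} ?_ ?_ ?_ ?_ ?_ _ ⟨g, hg, rfl⟩ _ ⟨1, h1, rfl⟩
  · rw [this, Units.val_one, R.one, one_mulVec]
  · rintro a _ ⟨b, x, hx, rfl⟩
    exact ⟨a * b, x, hx, smul_smul _ _ _⟩
  · intro y hy h0
    by_contra hne
    obtain ⟨_, _, w, _, hw, u', hu', _, hy', _⟩ := hfix H T hT R l u hl hu y hy hne l hl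
    exact hy' (h0 u' ⟨w l, hw, hu'⟩)
  · rintro _ ⟨x, hx, rfl⟩ q hq
    exact hq _ ⟨1, x * h, H.mul_mem (hS hx) hh, by rw [one_smul, R.col_mul (hS hx) hh]⟩
  · intro q q' hq
    refine (irr_reg hI (LA1.reg_vec R (R.col h u) q) (LA1.reg_vec R (R.col h u) q')
      fun x hx => ?_).imp ?_ ?_
    · rw [← map_mul]; exact hq _ ⟨x, hx, rfl⟩
    · rintro e _ ⟨x, hx, rfl⟩; exact e x hx
    · rintro e _ ⟨x, hx, rfl⟩; exact e x hx
  · rintro v hv _ ⟨x, hx, rfl⟩ _ ⟨x', hx', rfl⟩
    simp only [mulVec, dotProduct, hV v hv x hx, hV v hv x' hx']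

theorem st_la (k : Type u) [Field k] [IsAlgClosed k] (p : ℕ) [Fact p.Prime] [CharP k p]
    (n : Type) [Fintype n] [DecidableEq n] (h : S_la1 k n) : S_la k n := by
  intro H T hT R S hS hI h1 hV g hg
  have key := h (trS H) T hT.tr (LA1.trR R) (trG '' S) ?_ (irr_trG hI) ?_ ?_ (trG g) ⟨g, hg, rfl⟩
  · have e : (R.ρ (g : Matrix n n k))ᵀ = 1 := key
    rw [← transpose_transpose (R.ρ _), e, transpose_one]
  · rintro _ ⟨x, hx, rfl⟩
    exact mem_trS.2 (by rw [trG_trG]; exact hS hx)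
  · exact ⟨1, h1, Units.ext transpose_one⟩
  · rintro u hu _ ⟨x, hx, rfl⟩ v
    exact (congrFun (hV u hu x hx) v).trans (LA1.single_one (m := Fin R.m) u v)

end Pool.Agent.Lib.MP_3a0263_al.Q
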