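import Pool.Agent.Lib.MP_3a0263_al.Q.GBlue

namespace Pool.Agent.Lib.MP_3a0263_al.Q

open Matrix Pool.Agent.Lib.MP_3a0263_al.R

universe u

namespace LAT1

/-- the character of `n → ℤ` attached to a diagonal vector -/
def ch {G : Type*} [CommGroup G] {n : Type} [Fintype n] (d : n → G) :
    (n → ℤ) →ₗ[ℤ] Additive G :=
  (AddMonoidHom.mk' (fun χ : n → ℤ => Additive.ofMul (∏ i, d i ^ χ i)) fun a b => by
    rw [← ofMul_mul, ← Finset.prod_mul_distrib]
    exact congrArg Additive.ofMul (Finset.prod_congr rfl fun i _ => zpow_add _ _ _)).toIntLinearMap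

theorem ch_apply {G : Type*} [CommGroup G] {n : Type} [Fintype n] (d : n → G) (χ : n → ℤ) :
    ch d χ = Additive.ofMul (∏ i, d i ^ χ i) := rfl

theorem ch_single {G : Type*} [CommGroup G] {n : Type} [Fintype n] [DecidableEq n] (d : n → G)
    (i : n) : ch d (Pi.single i 1) = Additive.ofMul (d i) := by
  rw [ch_apply, Finset.prod_eq_single i]
  · simp
  · intro b _ hb
    simp [Pi.single_eq_of_ne hb]
  · simp

end LAT1

theorem st_lat1 (k : Type u) [Field k] [IsAlgClosed k] (p : ℕ) [Fact p.Prime] [CharP k p]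
    (n : Type) [Fintype n] [DecidableEq n] : S_lat1 k n := by
  intro Λ hΛ d hd P hP
  have : Module.IsTorsionFree ℤ ((n → ℤ) ⧸ Λ) := by
    refine Module.IsTorsionFree.of_smul_eq_zero fun m x hx => ?_
    obtain ⟨χ, rfl⟩ := Submodule.Quotient.mk_surjective Λ x
    by_cases hm : m = 0
    · exact Or.inl hm
    · right
      rw [← Submodule.Quotient.mk_smul, Submodule.Quotient.mk_eq_zero] at hx
      exact (Submodule.Quotient.mk_eq_zero _).2 (hΛ m χ hm hx)
  have : Module.Free ℤ ((n → ℤ) ⧸ Λ) := Module.free_of_finite_type_torsion_free'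
  let q := Module.Free.chooseBasis ℤ ((n → ℤ) ⧸ Λ)
  let l : Module.Free.ChooseBasisIndex ℤ ((n → ℤ) ⧸ Λ) → n → ℤ := fun j i =>
    q.repr (Λ.mkQ (Pi.single i 1)) j
  have hl : ∀ j, ∀ χ ∈ Λ, ∑ i, χ i * l j i = 0 := by
    intro j χ hχ
    have h0 : Λ.mkQ χ = 0 := (Submodule.Quotient.mk_eq_zero _).2 hχ
    have h1 : χ = ∑ i, χ i • (Pi.single i 1 : n → ℤ) := by
      funext a
      simp [Finset.sum_apply, Pi.single_apply]
    have h2 : q.repr (Λ.mkQ χ) j = ∑ i, χ i * l j i := by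
      conv_lhs => rw [h1]
      simp only [map_sum, map_smul, Finsupp.coe_finsetSum, Finset.sum_apply, Finsupp.coe_smul,
        Pi.smul_apply, smul_eq_mul, l]
    rw [← h2, h0, map_zero, Finsupp.zero_apply]
  let φ : ((n → ℤ) ⧸ Λ) →ₗ[ℤ] Additive kˣ := Λ.liftQ (LAT1.ch d) fun χ hχ => by
    rw [LinearMap.mem_ker, LAT1.ch_apply, hd χ hχ, ofMul_one]
  have hφ : ∀ i, d i = ∏ j, (Additive.toMul (φ (q j))) ^ l j i := by
    intro i
    have h1 : φ (Λ.mkQ (Pi.single i 1)) = Additive.ofMul (d i) := by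
      rw [← LAT1.ch_single]; rfl
    have h2 := q.sum_repr (Λ.mkQ (Pi.single i 1))
    rw [← h2, map_sum] at h1
    have h3 := congrArg Additive.toMul h1
    rw [toMul_sum, toMul_ofMul] at h3
    rw [← h3]
    refine Finset.prod_congr rfl fun j _ => ?_
    rw [map_smul, toMul_zsmul]
  have hd' : d = ∏ j, fun i => (Additive.toMul (φ (q j))) ^ l j i := by
    funext i
    rw [Finset.prod_apply]
    exact hφ i
  have : d ∈ P.comap dgHom := by
    rw [hd']
    exact Subgroup.prod_mem _ fun j _ => hP (l j) (hl j) _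
  exact this

end Pool.Agent.Lib.MP_3a0263_al.Q
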