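import Pool.Agent.Lib.MP_3a0263_al.Q.GBlue

namespace Pool.Agent.Lib.MP_3a0263_al.Q

open Matrix Pool.Agent.Lib.MP_3a0263_al.R

universe u

namespace Lat2

theorem regroup {k : Type u} [Field k] {α D : Type*} [Monoid D] (S : Finset α) (c v : α → k)
    (ψ : α → D →* k) (h0 : ∀ x : D, ∑ e ∈ S, c e * ψ e x = 0)
    (hv : ∀ e ∈ S, ∀ e' ∈ S, ψ e = ψ e' → v e = v e') : ∑ e ∈ S, c e * v e = 0 := by
  classical
  have hm : ∀ e ∈ S, ψ e ∈ S.image ψ := fun e he => Finset.mem_image_of_mem ψ he
  have h1 := linearIndependent_iff'.1 (linearIndependent_monoidHom D k) (S.image ψ)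
    (fun φ => ∑ e ∈ S with ψ e = φ, c e) (by
      funext x
      rw [Finset.sum_apply, Pi.zero_apply, ← h0 x, ← Finset.sum_fiberwise_of_maps_to hm]
      refine Finset.sum_congr rfl fun φ _ => ?_
      rw [Pi.smul_apply, smul_eq_mul, Finset.sum_mul]
      exact Finset.sum_congr rfl fun e he => by rw [(Finset.mem_filter.1 he).2])
  rw [← Finset.sum_fiberwise_of_maps_to hm]
  refine Finset.sum_eq_zero fun φ hφ => ?_
  obtain ⟨e0, he0, rfl⟩ := Finset.mem_image.1 hφ
  rw [← zero_mul (v e0), ← h1 _ hφ, Finset.sum_mul]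
  exact Finset.sum_congr rfl fun e he => by
    rw [hv e (Finset.mem_filter.1 he).1 e0 he0 (Finset.mem_filter.1 he).2]

variable {k : Type u} [Field k] {n : Type} [Fintype n] [DecidableEq n]

/-- the character attached to the diagonal part of a monomial -/
def chi (e : n × n →₀ ℕ) : (n → kˣ) →* kˣ where
  toFun d := ∏ i, d i ^ e (i, i)
  map_one' := by simp
  map_mul' d d' := by simp [mul_pow, Finset.prod_mul_distrib]

theorem aeval_dg (f : MvPolynomial (n × n) k) (d : n → kˣ) :
    MvPolynomial.aeval (entries (dg d)) f =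
      ∑ e ∈ f.support with ∀ i j, i ≠ j → e (i, j) = 0, f.coeff e * (chi e d : k) := by
  rw [MvPolynomial.aeval_eq_eval, MvPolynomial.eval_eq', Finset.sum_filter]
  refine Finset.sum_congr rfl fun e _ => ?_
  split_ifs with h
  · refine congrArg (f.coeff e * ·) ?_
    rw [Fintype.prod_prod_type]
    simp only [chi, MonoidHom.coe_mk, OneHom.coe_mk, Units.coe_prod, Units.val_pow_eq_pow_val]
    refine Finset.prod_congr rfl fun i _ => ?_
    rw [Finset.prod_eq_single i (fun j _ hj => by rw [h i j hj.symm, pow_zero]) (by simp)]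
    simp [entries, dg_val]
  · push Not at h
    obtain ⟨i, j, hij, he⟩ := h
    rw [Finset.prod_eq_zero (Finset.mem_univ (i, j)), mul_zero]
    simp [entries, dg_val, diagonal_apply_ne _ hij, he]

omit [DecidableEq n] in
theorem chi_div (e e' : n × n →₀ ℕ) (d : n → kˣ) :
    ∏ i, d i ^ ((e (i, i) : ℤ) - e' (i, i)) = chi e d / chi e' d := by
  simp only [chi, MonoidHom.coe_mk, OneHom.coe_mk, ← Finset.prod_div_distrib]
  exact Finset.prod_congr rfl fun i _ => by
    rw [_root_.zpow_sub, _root_.zpow_natCast, _root_.zpow_natCast, div_eq_mul_inv]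

omit [Fintype n] [DecidableEq n] in
theorem le_deg {f : MvPolynomial (n × n) k} {e : n × n →₀ ℕ} (he : e ∈ f.support) (ij : n × n) :
    e ij ≤ f.totalDegree :=
  (Finsupp.le_degree ij e).trans (MvPolynomial.le_totalDegree he)

end Lat2

theorem st_lat2 (k : Type u) [Field k] [IsAlgClosed k] (p : ℕ) [Fact p.Prime] [CharP k p] (n : Type)
    [Fintype n] [DecidableEq n] : S_lat2 k n := by
  intro D K F hF hK d hd
  refine (hK _).2 fun f hf => ?_
  rw [Lat2.aeval_dg]
  refine Lat2.regroup (D := K.comap dgHom) _ _ _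
    (fun e => ((Units.coeHom k).comp (Lat2.chi e)).comp (K.comap dgHom).subtype) (fun x => ?_) ?_
  · have := (hK _).1 x.2 f hf
    rwa [show dgHom x.1 = dg x.1 from rfl, Lat2.aeval_dg] at this
  · intro e he e' he' h
    have h1 := hd (fun i => (e (i, i) : ℤ) - e' (i, i)) (fun i => by
      have a1 := (Lat2.le_deg (Finset.mem_filter.1 he).1 (i, i)).trans (hF f hf)
      have a2 := (Lat2.le_deg (Finset.mem_filter.1 he').1 (i, i)).trans (hF f hf)
      rw [abs_le]; omega) (fun d' hd' => by
      rw [Lat2.chi_div, div_eq_one]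
      exact Units.ext (DFunLike.congr_fun h (⟨d', hd'⟩ : K.comap dgHom)))
    rw [Lat2.chi_div, div_eq_one] at h1
    rw [h1]

end Pool.Agent.Lib.MP_3a0263_al.Q
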