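import Pool.Agent.Lib.MP_3a0263_al.Q.GBlue
import Pool.Agent.Lib.MP_3a0263_al.Q.ApiZ2
import Pool.Agent.Lib.MP_3a0263_al.Q.ApiC

namespace Pool.Agent.Lib.MP_3a0263_al.Q

open Matrix Pool.Agent.Lib.MP_3a0263_al.R

universe u

namespace LAT3

variable {k : Type u} [Field k] {n : Type} [Fintype n] [DecidableEq n]

/-- the value of a character -/
def chv (χ : n → ℤ) : (n → kˣ) →* kˣ where
  toFun d := ∏ i, d i ^ χ i
  map_one' := by simp
  map_mul' d e := by simp [mul_zpow, Finset.prod_mul_distrib]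

omit [DecidableEq n] in
theorem chv_apply (χ : n → ℤ) (d : n → kˣ) : chv χ d = ∏ i, d i ^ χ i := rfl

omit [DecidableEq n] in
theorem chv_smul (m : ℤ) (χ : n → ℤ) (d : n → kˣ) : chv (m • χ) d = chv χ d ^ m := by
  rw [chv_apply, chv_apply, ← Finset.prod_zpow]
  exact Finset.prod_congr rfl fun i _ => by rw [Pi.smul_apply, smul_eq_mul, mul_comm, _root_.zpow_mul]

/-- the characters killing `d` -/
def ann (d : n → kˣ) : Submodule ℤ (n → ℤ) where
  carrier := {χ | chv χ d = 1}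
  zero_mem' := by simp [chv_apply]
  add_mem' := fun {a b} ha hb => by
    have e : chv (a + b) d = chv a d * chv b d := by
      simp [chv_apply, _root_.zpow_add, Finset.prod_mul_distrib]
    rw [Set.mem_ofPred_eq] at ha hb ⊢
    rw [e, ha, hb, one_mul]
  smul_mem' := fun m a ha => by
    rw [Set.mem_ofPred_eq] at ha ⊢
    rw [chv_smul, ha, _root_.one_zpow]

omit [DecidableEq n] in
theorem chv_pow (χ l : n → ℤ) (s : kˣ) : chv χ (fun i => s ^ l i) = s ^ ∑ i, χ i * l i := by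
  classical
  rw [chv_apply]
  induction (Finset.univ : Finset n) using Finset.induction_on with
  | empty => simp
  | insert a t ha ih =>
    rw [Finset.prod_insert ha, Finset.sum_insert ha, ih, _root_.zpow_add, mul_comm (χ a),
      _root_.zpow_mul]

/-- saturation of a lattice -/
def sat (Λ : Submodule ℤ (n → ℤ)) : Submodule ℤ (n → ℤ) where
  carrier := {χ | ∃ m : ℤ, m ≠ 0 ∧ m • χ ∈ Λ}
  zero_mem' := ⟨1, one_ne_zero, by simp⟩
  add_mem' := by
    rintro a b ⟨m, hm, ha⟩ ⟨m', hm', hb⟩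
    refine ⟨m * m', mul_ne_zero hm hm', ?_⟩
    rw [smul_add]
    exact Λ.add_mem (by rw [mul_comm, mul_smul]; exact Λ.smul_mem _ ha)
      (by rw [mul_smul]; exact Λ.smul_mem _ hb)
  smul_mem' := by
    rintro c a ⟨m, hm, ha⟩
    exact ⟨m, hm, by rw [smul_comm]; exact Λ.smul_mem _ ha⟩

omit [DecidableEq n] in
theorem exists_e (Λ : Submodule ℤ (n → ℤ)) :
    ∃ e : ℕ, e ≠ 0 ∧ ∀ χ ∈ sat Λ, (e : ℤ) • χ ∈ Λ := by
  classical
  obtain ⟨s, hs⟩ := IsNoetherian.noetherian (sat Λ)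
  have h : ∀ χ ∈ s, ∃ m : ℤ, m ≠ 0 ∧ m • χ ∈ Λ := fun χ hχ =>
    (hs ▸ Submodule.subset_span hχ : χ ∈ sat Λ)
  choose! m hm hm' using h
  refine ⟨(∏ χ ∈ s, m χ).natAbs, Int.natAbs_ne_zero.2 (Finset.prod_ne_zero_iff.2 hm), ?_⟩
  have h2 : sat Λ ≤ Λ.comap (LinearMap.lsmul ℤ (n → ℤ) ((∏ χ ∈ s, m χ).natAbs : ℤ)) := by
    rw [← hs, Submodule.span_le]
    intro χ hχ
    obtain ⟨c, hc⟩ : m χ ∣ ((∏ χ ∈ s, m χ).natAbs : ℤ) :=
      Int.dvd_natAbs.2 (Finset.dvd_prod_of_mem m hχ)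
    change ((∏ χ ∈ s, m χ).natAbs : ℤ) • χ ∈ Λ
    rw [hc, mul_comm, mul_smul]
    exact Λ.smul_mem _ (hm' χ hχ)
  exact fun χ hχ => h2 hχ

omit [DecidableEq n] in
theorem exists_e_box (D : ℕ) : ∃ e : ℕ, e ≠ 0 ∧ ∀ B : Set (n → ℤ), (∀ χ ∈ B, ∀ i, |χ i| ≤ D) →
    ∀ χ ∈ sat (Submodule.span ℤ B), (e : ℤ) • χ ∈ Submodule.span ℤ B := by
  have h1 : (Set.univ.pi fun _ : n => Set.Icc (-(D : ℤ)) D).Finite :=
    Set.Finite.pi fun _ => Set.finite_Icc _ _
  choose e he he' using fun B : Set (n → ℤ) => exists_e (Submodule.span ℤ B)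
  refine ⟨∏ B ∈ h1.finite_subsets.toFinset, e B, Finset.prod_ne_zero_iff.2 fun B _ => he B,
    fun B hB χ hχ => ?_⟩
  obtain ⟨c, hc⟩ := Finset.dvd_prod_of_mem e (a := B) (s := h1.finite_subsets.toFinset)
    (h1.finite_subsets.mem_toFinset.2 fun χ hχ i _ => abs_le.1 (hB χ hχ i))
  rw [hc, Nat.cast_mul, mul_comm, mul_smul]
  exact Submodule.smul_mem _ _ (he' B χ hχ)

/-- a regular function extending a character -/
def psi (χ : n → ℤ) (g : GL n k) : k :=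
  ∏ i, ((g : Matrix n n k) i i ^ (χ i).toNat *
    ((g⁻¹ : GL n k) : Matrix n n k) i i ^ (-χ i).toNat)

theorem psi_reg (χ : n → ℤ) : psi χ ∈ reg k n := by
  have e : psi (k := k) χ = ∏ i, ((fun g : GL n k => (g : Matrix n n k) i i) ^ (χ i).toNat *
      (fun g : GL n k => ((g⁻¹ : GL n k) : Matrix n n k) i i) ^ (-χ i).toNat) :=
    funext fun g => by rw [Finset.prod_apply]; rfl
  rw [e]
  exact (reg k n).prod_mem fun i _ => (reg k n).mul_mem ((reg k n).pow_mem (reg_entry i i) _)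
    ((reg k n).pow_mem (reg_inv_entry i i) _)

theorem psi_dg (χ : n → ℤ) (d : n → kˣ) : psi χ (dg d) = (chv χ d : kˣ) := by
  rw [psi, ← dg_inv, chv_apply, Units.coe_prod]
  refine Finset.prod_congr rfl fun i _ => ?_
  rw [dg_val, dg_val, diagonal_apply_eq, diagonal_apply_eq, Pi.inv_apply, ← Units.val_pow_eq_pow_val,
    ← Units.val_pow_eq_pow_val, ← Units.val_mul, ← zpow_natCast, ← zpow_natCast, _root_.inv_zpow',
    ← _root_.zpow_add]
  congr 2
  omega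

theorem exists_dg {g : GL n k} (h : ∀ i j, i ≠ j → (g : Matrix n n k) i j = 0) :
    ∃ d, g = dg d := by
  have h1 : ∀ i, (g : Matrix n n k) i i * ((g⁻¹ : GL n k) : Matrix n n k) i i = 1 := fun i => by
    have := congrFun (congrFun g.mul_inv i) i
    rwa [Matrix.mul_apply, Finset.sum_eq_single i (fun j _ hj => by rw [h i j hj.symm, zero_mul])
      (by simp), one_apply_eq] at this
  refine ⟨fun i => Units.mk0 _ (left_ne_zero_of_mul_eq_one (h1 i)), Units.ext ?_⟩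
  ext i j
  rw [dg_val]
  by_cases e : i = j
  · subst e; simp
  · rw [diagonal_apply_ne _ e, h i j e]

/-- the diagonal group killed by a lattice of characters -/
def kerT (k : Type u) [Field k] (Λ : Submodule ℤ (n → ℤ)) : Subgroup (GL n k) :=
  (⨅ χ ∈ Λ, (chv (k := k) χ).ker).map dgHom

theorem mem_kerT {Λ : Submodule ℤ (n → ℤ)} {g : GL n k} :
    g ∈ kerT k Λ ↔ ∃ d, (∀ χ ∈ Λ, chv χ d = 1) ∧ dg d = g := by
  simp only [kerT, Subgroup.mem_map, Subgroup.mem_iInf, MonoidHom.mem_ker]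
  rfl

theorem closed_kerT (Λ : Submodule ℤ (n → ℤ)) : IsZClosed (kerT k Λ : Set (GL n k)) := by
  have e : (kerT k Λ : Set (GL n k)) = {g | ∀ φ ∈ {φ : GL n k → k |
      (∃ i j, i ≠ j ∧ φ = fun g : GL n k => (g : Matrix n n k) i j) ∨
        ∃ χ ∈ Λ, φ = fun g => psi χ g - 1}, φ g = 0} := by
    ext g
    rw [SetLike.mem_coe, mem_kerT]
    constructor
    · rintro ⟨d, hd, rfl⟩ φ (⟨i, j, hij, rfl⟩ | ⟨χ, hχ, rfl⟩)
      · exact diagonal_apply_ne _ hij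
      · change psi χ (dg d) - 1 = 0
        rw [psi_dg, hd χ hχ, Units.val_one, sub_self]
    · intro h
      obtain ⟨d, rfl⟩ := exists_dg (g := g) fun i j hij => h _ (Or.inl ⟨i, j, hij, rfl⟩)
      refine ⟨d, fun χ hχ => Units.ext ?_, rfl⟩
      have : psi χ (dg d) - 1 = 0 := h _ (Or.inr ⟨χ, hχ, rfl⟩)
      rwa [psi_dg, sub_eq_zero] at this
  rw [e]
  refine closed_reg ?_
  rintro φ (⟨i, j, -, rfl⟩ | ⟨χ, -, rfl⟩)
  · exact reg_entry i j
  · exact reg_sub (psi_reg χ) (reg_const 1)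

theorem finite_roots {m : ℤ} (hm : m ≠ 0) : {x : k | x ^ m.natAbs = 1}.Finite :=
  (Polynomial.nthRoots m.natAbs (1 : k)).finite_toSet.subset fun _ hx =>
    (Polynomial.mem_nthRoots (Int.natAbs_pos.2 hm)).2 hx

end LAT3

open LAT3 in
theorem st_lat3 (k : Type u) [Field k] [IsAlgClosed k] (p : ℕ) [Fact p.Prime] [CharP k p]
    (n : Type) [Fintype n] [DecidableEq n] (hlat1 : S_lat1 k n) (hlat2 : S_lat2 k n) :
    S_lat3 k n := by
  intro D
  obtain ⟨e, he, hbox⟩ := exists_e_box (n := n) D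
  refine ⟨e, he, fun K F hF hK => ?_⟩
  let B : Set (n → ℤ) := {χ | (∀ i, |χ i| ≤ D) ∧ ∀ d : n → kˣ, dg d ∈ K → chv χ d = 1}
  have hB : ∀ d : n → kˣ, dg d ∈ K → ∀ χ ∈ Submodule.span ℤ B, chv χ d = 1 := fun d hd χ hχ =>
    (Submodule.span_le (p := ann d)).2 (fun χ' h => h.2 d hd) hχ
  have hgen : ∀ P : Subgroup (GL n k), (∀ (l : Y (kerT k (sat (Submodule.span ℤ B)))) (s : kˣ),
      coch l.1 s ∈ P) → kerT k (sat (Submodule.span ℤ B)) ≤ P := fun P hP g hg => by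
    obtain ⟨d, hd, rfl⟩ := mem_kerT.1 hg
    refine hlat1 (sat (Submodule.span ℤ B)) ?_ d hd P fun l hl s => hP ⟨l, fun s' => ?_⟩ s
    · rintro m χ hm ⟨m', hm', h⟩
      exact ⟨m' * m, mul_ne_zero hm' hm, by rwa [mul_smul]⟩
    · exact mem_kerT.2 ⟨_, fun χ hχ => by rw [chv_pow, hl χ hχ, zpow_zero], rfl⟩
  have hdiag : IsDiagG (kerT k (sat (Submodule.span ℤ B))) := fun t ht => by
    obtain ⟨d, -, rfl⟩ := mem_kerT.1 ht
    exact ⟨d, rfl⟩
  refine ⟨kerT k (sat (Submodule.span ℤ B)), fun g hg => ?_, ⟨?_, fun s hs t ht => ?_,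
    fun t ht => ?_⟩, hdiag, fun d hd => ?_, fun S hSK hS hc g hg => ?_, hgen⟩
  · obtain ⟨d, hd, rfl⟩ := mem_kerT.1 hg
    exact hlat2 D K F hF hK d fun χ h1 h2 =>
      hd χ ⟨1, one_ne_zero, by rw [one_smul]; exact Submodule.subset_span ⟨h1, h2⟩⟩
  · have h := conn_idc (closed_kerT (k := k) (sat (Submodule.span ℤ B)))
    rwa [le_antisymm (idc_le _) (hgen _ fun l s => subset_idc (by
      rintro _ ⟨s', rfl⟩
      exact l.2 s') (irr_coch l.1) ⟨1, by simp [coch, ← dg_one]; rfl⟩ ⟨s, rfl⟩)] at h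
  · obtain ⟨d, rfl⟩ := hdiag s hs
    obtain ⟨d', rfl⟩ := hdiag t ht
    rw [← dg_mul, ← dg_mul, mul_comm]
  · obtain ⟨d, rfl⟩ := hdiag t ht
    exact ss_dg d
  · refine mem_kerT.2 ⟨d ^ e, fun χ hχ => ?_, map_pow (dgHom (k := k) (n := n)) d e⟩
    rw [map_pow, ← zpow_natCast, ← chv_smul]
    exact hB d hd _ (hbox B (fun _ h => h.1) χ hχ)
  · obtain ⟨d, rfl⟩ := hS g hg
    refine mem_kerT.2 ⟨d, ?_, rfl⟩
    rintro χ ⟨m, hm, hχ⟩
    have h := irr_const (irr_of_conn hc) (psi_reg χ) (finite_roots hm) (fun g' hg' => by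
      obtain ⟨d', rfl⟩ := hS g' hg'
      have h1 := hB d' (hSK hg') _ hχ
      rw [chv_smul] at h1
      rw [Set.mem_ofPred_eq, psi_dg, ← Units.val_pow_eq_pow_val, pow_natAbs_eq_one.2 h1,
        Units.val_one]) _ hg _ S.one_mem
    rw [← dg_one, psi_dg, psi_dg, map_one] at h
    exact Units.ext h

end Pool.Agent.Lib.MP_3a0263_al.Q
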