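import Pool.Agent.Lib.MP_3a0263_al.Q.GBlue
import Pool.Agent.Lib.MP_3a0263_al.Q.ApiZ3
import Pool.Agent.Lib.MP_3a0263_al.Q.ApiR
import Pool.Agent.Lib.MP_3a0263_al.Q.ApiC

namespace Pool.Agent.Lib.MP_3a0263_al.Q

open Matrix Pool.Agent.Lib.MP_3a0263_al.R

universe u

namespace LB1

variable {k : Type u} [Field k] {n : Type} [Fintype n] [DecidableEq n]
variable {G T : Subgroup (GL n k)} (R : IRep G T)

/-- the span of the orbit of the basis vector `u` under `Z` -/
def MM (Z : Subgroup (GL n k)) (u : Fin R.m) : Submodule k (Fin R.m → k) :=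
  Submodule.span k {y | ∃ z ∈ Z, y = R.col z u}

/-- the part of `MM` moved by `N` -/
def M2 (Z N : Subgroup (GL n k)) (u : Fin R.m) : Submodule k (Fin R.m → k) :=
  Submodule.span k {y | ∃ x ∈ N, ∃ m ∈ MM R Z u, y = R.ρ (x : Matrix n n k) *ᵥ m - m}

theorem e_mem_MM (Z : Subgroup (GL n k)) (u : Fin R.m) :
    (Pi.single u 1 : Fin R.m → k) ∈ MM R Z u :=
  Submodule.subset_span ⟨1, Z.one_mem, (R.col_one u).symm⟩

theorem MM_stab {Z : Subgroup (GL n k)} (hZ : Z ≤ G) (u : Fin R.m) {z : GL n k} (hz : z ∈ Z)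
    {m : Fin R.m → k} (hm : m ∈ MM R Z u) : R.ρ (z : Matrix n n k) *ᵥ m ∈ MM R Z u := by
  induction hm using Submodule.span_induction with
  | zero => rw [mulVec_zero]; exact zero_mem _
  | add a b _ _ ha hb => rw [mulVec_add]; exact add_mem ha hb
  | smul c a _ ha => rw [mulVec_smul]; exact Submodule.smul_mem _ c ha
  | mem a ha =>
    obtain ⟨z', hz', rfl⟩ := ha
    rw [← R.col_mul (hZ hz) (hZ hz')]
    exact Submodule.subset_span ⟨z * z', Z.mul_mem hz hz', rfl⟩

theorem M2_stab {Z N : Subgroup (GL n k)} (hZ : Z ≤ G) (hN : N ≤ Z)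
    (hn : ∀ g ∈ Z, ∀ x ∈ N, g * x * g⁻¹ ∈ N) (u : Fin R.m) {z : GL n k} (hz : z ∈ Z)
    {m : Fin R.m → k} (hm : m ∈ M2 R Z N u) : R.ρ (z : Matrix n n k) *ᵥ m ∈ M2 R Z N u := by
  induction hm using Submodule.span_induction with
  | zero => rw [mulVec_zero]; exact zero_mem _
  | add a b _ _ ha hb => rw [mulVec_add]; exact add_mem ha hb
  | smul c a _ ha => rw [mulVec_smul]; exact Submodule.smul_mem _ c ha
  | mem a ha =>
    obtain ⟨x, hx, m, hm, rfl⟩ := ha
    refine Submodule.subset_span ⟨z * x * z⁻¹, hn z hz x hx, _, MM_stab R hZ u hz hm, ?_⟩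
    have h1 := R.mul _ (hZ (hN (hn z hz x hx))) _ (hZ hz)
    have h2 := R.mul _ (hZ hz) _ (hZ (hN hx))
    rw [inv_mul_cancel_right] at h1
    rw [mulVec_sub, mulVec_mulVec, mulVec_mulVec, ← h1, ← h2]

theorem e_not_mem [IsAlgClosed k] {Z N : Subgroup (GL n k)} (hZ : Z ≤ G) (hN : N ≤ Z)
    (hn : ∀ g ∈ Z, ∀ x ∈ N, g * x * g⁻¹ ∈ N)
    (hu : ∀ x ∈ N, IsNilpotent ((x : Matrix n n k) - 1)) (u : Fin R.m) :
    (Pi.single u 1 : Fin R.m → k) ∉ M2 R Z N u := fun he => by
  have hle : MM R Z u ≤ M2 R Z N u := by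
    refine Submodule.span_le.2 ?_
    rintro _ ⟨z, hz, rfl⟩
    rw [R.col_eq]
    exact M2_stab R hZ hN hn u hz he
  obtain ⟨r, hr⟩ := kolchin_span hu
  set J := Submodule.span k {x | ∃ u ∈ N, x = (u : Matrix n n k) - 1} with hJ
  have h1 : (1 : Matrix n n k) ∈ spanG G := mem_spanG G.one_mem
  have step : ∀ j : ℕ, (∀ a ∈ J ^ (j + 1), a ∈ spanG G → ∀ m ∈ MM R Z u, R.ρ a *ᵥ m = 0) →
      ∀ a ∈ J ^ j, a ∈ spanG G → ∀ m ∈ MM R Z u, R.ρ a *ᵥ m = 0 := fun j ih a ha haG m hm => by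
    have hm2 := hle hm
    clear hm
    induction hm2 using Submodule.span_induction with
    | zero => exact mulVec_zero _
    | add a b _ _ ha hb => rw [mulVec_add, ha, hb, add_zero]
    | smul c a _ ha => rw [mulVec_smul, ha, smul_zero]
    | mem b hb =>
      obtain ⟨x, hx, m, hm, rfl⟩ := hb
      have hxG : (x : Matrix n n k) - 1 ∈ spanG G := sub_mem (mem_spanG (hZ (hN hx))) h1
      have hxJ : (x : Matrix n n k) - 1 ∈ J := Submodule.subset_span ⟨x, hx, rfl⟩
      have h2 := ih (a * ((x : Matrix n n k) - 1))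
        (by rw [pow_succ]; exact Submodule.mul_mem_mul ha hxJ) (spanG_mul haG hxG) m hm
      rw [R.mul_span haG hxG, map_sub, R.one, ← mulVec_mulVec, sub_mulVec, one_mulVec] at h2
      exact h2
  have all : ∀ i j : ℕ, i + j = r + 1 →
      ∀ a ∈ J ^ j, a ∈ spanG G → ∀ m ∈ MM R Z u, R.ρ a *ᵥ m = 0 := fun i => by
    induction i with
    | zero =>
      intro j hj a ha _ m _
      rw [show j = r + 1 by omega, hr, Submodule.mem_bot] at ha
      rw [ha, map_zero, zero_mulVec]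
    | succ i ih => exact fun j hj => step j (ih (j + 1) (by omega))
  have h3 := all (r + 1) 0 rfl 1 (by rw [pow_zero]; exact Submodule.one_le.1 le_rfl) h1 _
    (e_mem_MM R Z u)
  rw [R.one, one_mulVec] at h3
  simpa using congrFun h3 u

/-- a matrix raising the degree does not change the lowest component -/
theorem up_apply {m : Type} [Fintype m] [DecidableEq m] {d : m → ℤ} {A : Matrix m m k}
    (hA : A - 1 ∈ degGE k d 1) {y : m → k} {v : m} (hy : ∀ v', y v' ≠ 0 → d v ≤ d v') :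
    (A *ᵥ y) v = y v := by
  have h1 : ((A - 1) *ᵥ y) v = 0 := by
    show ∑ v', (A - 1) v v' * y v' = 0
    refine Finset.sum_eq_zero fun v' _ => ?_
    by_cases h : y v' = 0
    · rw [h, mul_zero]
    · have := hy v' h
      rw [hA v v' (by omega), zero_mul]
  rw [sub_mulVec, one_mulVec, Pi.sub_apply] at h1
  exact sub_eq_zero.1 h1

/-- comparison of the components of degree `ν (ix u)` -/
theorem cmp [Infinite k] (hT : T ≤ G) (ν : Y T) {a c b : GL n k} (ha : a ∈ G ⊓ Up k ν.1)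
    (hc : c ∈ G ⊓ Zc k ν.1) (hb : b ∈ G ⊓ Up k (-ν).1) {u : Fin R.m} {y : Fin R.m → k} {t : k}
    (hy : ∀ v, y v ≠ 0 → ν.1 (R.ix v) = ν.1 (R.ix u)) (h : y = t • R.col (a * c * b) u) :
    y = t • R.col c u := by
  have ha' := (G ⊓ Up k ν.1).inv_mem ha
  have h1 : R.ρ ((a⁻¹ : GL n k) : Matrix n n k) *ᵥ y =
      t • (R.ρ (c : Matrix n n k) *ᵥ R.col b u) := by
    rw [h, mulVec_smul, ← R.col_mul ha'.1 (G.mul_mem (G.mul_mem ha.1 hc.1) hb.1),
      ← R.col_mul hc.1 hb.1, mul_assoc a, inv_mul_cancel_left]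
  funext v
  by_cases hv : ν.1 (R.ix v) = ν.1 (R.ix u)
  · have h2 := up_apply (R.rho_Up hT ν ha') (y := y) (v := v) fun v' hv' => by
      have := hy v' hv'
      show ν.1 (R.ix v) ≤ ν.1 (R.ix v')
      omega
    have h3 : (R.ρ (c : Matrix n n k) *ᵥ R.col b u) v = R.col c u v := by
      rw [R.col_eq c u]
      show ∑ v', R.ρ (c : Matrix n n k) v v' * R.ρ (b : Matrix n n k) v' u =
        ∑ v', R.ρ (c : Matrix n n k) v v' * (Pi.single u 1 : Fin R.m → k) v'
      refine Finset.sum_congr rfl fun v' _ => ?_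
      by_cases h4 : ν.1 (R.ix v) = ν.1 (R.ix v')
      · have h5 := R.rho_Up hT (-ν) hb v' u (by
          show -ν.1 (R.ix v') - -ν.1 (R.ix u) < 1
          omega)
        rw [Matrix.sub_apply, sub_eq_zero] at h5
        rw [h5, Matrix.one_apply, Pi.single_apply]
      · rw [R.rho_Zc hT ν hc v v' h4, zero_mul, zero_mul]
    rw [← h2, h1, Pi.smul_apply, Pi.smul_apply, h3]
  · have h2 : y v = 0 := by
      by_contra h3
      exact hv (hy v h3)
    have h3 : R.col c u v = 0 := R.rho_Zc hT ν hc v u hv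
    rw [h2, Pi.smul_apply, h3, smul_zero]

end LB1

theorem st_lb1 (k : Type u) [Field k] [IsAlgClosed k] (p : ℕ) [Fact p.Prime] [CharP k p]
    (n : Type) [Fintype n] [DecidableEq n] (hfix : S_fix k n) (hchart : S_chart k n)
    (hdec : S_dec k n) : S_lb1 k n := by
  intro G T hGT ν N hN hn hnil R u hu x hx
  obtain ⟨l, hl, hu⟩ := hu
  have hT : T ≤ G := hGT.max.1
  have hTZ0 : T ≤ G ⊓ Zc k ν.1 := fun t ht => ⟨hT ht, by
    obtain ⟨d, rfl⟩ := hGT.diag t ht
    exact dg_mem_Zc d ν.1⟩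
  set Z := idc (G ⊓ Zc k ν.1) with hZdef
  have hTZ : T ≤ Z := le_idc hTZ0 hGT.max.2.1.1
  have hZ0 : Z ≤ G ⊓ Zc k ν.1 := idc_le _
  have hZ : Z ≤ G := fun z hz => (hZ0 hz).1
  have hxG : x ∈ G := hZ (hN hx)
  have hne := LB1.e_not_mem R hZ hN hn hnil u
  have hdiff : R.col x u - Pi.single u 1 ∈ LB1.M2 R Z N u :=
    Submodule.subset_span ⟨x, hx, _, LB1.e_mem_MM R Z u, by rw [R.col_eq]⟩
  have hcl : R.col x u ∈ clA (R.orb u) := fun q hq => hq _ ⟨1, x, hxG, (one_smul _ _).symm⟩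
  obtain ⟨g, -, w, -, -, u', hu', horb, hy, hlt⟩ :=
    hfix G T hGT R l u hl hu _ hcl (R.col_ne_zero hxG u) (-l) hl.neg
  have hlt' : ∀ v, v ≠ u' → R.col x u v ≠ 0 → l.1 (R.ix u') < l.1 (R.ix v) := fun v h1 h2 => by
    have h3 : -l.1 (R.ix v) < -l.1 (R.ix u') := hlt v h1 h2
    omega
  by_cases huu : u' = u
  · subst huu
    have h0 : ∀ v, v ≠ u' → R.col x u' v = 0 := fun v hv => by
      by_contra h1
      have h2 := hlt' v hv h1
      have h3 := hu v hv
      omega
    by_contra hne'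
    apply hne
    have h1 : R.col x u' u' - 1 ≠ 0 := fun h1 => hne' (by
      funext v
      by_cases hv : v = u'
      · rw [hv, Pi.single_eq_same]; exact sub_eq_zero.1 h1
      · rw [h0 v hv, Pi.single_eq_of_ne hv])
    have h2 : (Pi.single u' 1 : Fin R.m → k) =
        (R.col x u' u' - 1)⁻¹ • (R.col x u' - Pi.single u' 1) := by
      funext v
      by_cases hv : v = u'
      · rw [hv, Pi.smul_apply, Pi.sub_apply, Pi.single_eq_same, smul_eq_mul, inv_mul_cancel₀ h1]
      · rw [Pi.smul_apply, Pi.sub_apply, h0 v hv, Pi.single_eq_of_ne hv, sub_zero, smul_zero]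
    rw [h2]
    exact Submodule.smul_mem _ _ hdiff
  · exfalso
    have hcomp := vec_comp (LB1.M2 R Z N u) (fun v => l.1 (R.ix v))
      (y := R.col x u - Pi.single u 1) (fun s => by
        have h1 := LB1.M2_stab R hZ hN hn u (hTZ (l.2 s)) hdiff
        rw [R.rho_coch] at h1
        have h2 : diagonal (fun v => ((s ^ l.1 (R.ix v) : kˣ) : k)) *ᵥ
            (R.col x u - Pi.single u 1) = fun v => ((s ^ l.1 (R.ix v) : kˣ) : k) *
              (R.col x u - Pi.single u 1 : Fin R.m → k) v := by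
          funext v; rw [mulVec_diagonal]
        rw [h2] at h1; exact h1) (l.1 (R.ix u'))
    have he' : (Pi.single u' 1 : Fin R.m → k) ∈ LB1.M2 R Z N u := by
      have h2 : (Pi.single u' 1 : Fin R.m → k) = (R.col x u u')⁻¹ • fun v =>
          if l.1 (R.ix v) = l.1 (R.ix u') then (R.col x u - Pi.single u 1 : Fin R.m → k) v
            else 0 := by
        funext v
        rw [Pi.smul_apply]
        by_cases hv : v = u'
        · rw [hv, if_pos rfl, Pi.sub_apply, Pi.single_eq_same, Pi.single_eq_of_ne huu, sub_zero,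
            smul_eq_mul, inv_mul_cancel₀ hy]
        · rw [Pi.single_eq_of_ne hv]
          split_ifs with h3
          · have h4 : v ≠ u := fun h4 => by
              have h5 := hu u' huu
              rw [h4] at h3
              omega
            have h5 : R.col x u v = 0 := by
              by_contra h5
              have := hlt' v hv h5
              omega
            rw [Pi.sub_apply, h5, Pi.single_eq_of_ne h4, sub_zero, smul_zero]
          · rw [smul_zero]
      rw [h2]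
      exact Submodule.smul_mem _ _ hcomp
    obtain ⟨v, hv, hyv⟩ := (hchart G T hGT.conn hT R (w l) u' hu' _ (horb ▸ hcl)).1 hy
    obtain ⟨a, ha, c, hc, b, hb, ha', hc', hb', rfl⟩ :=
      hdec G (Y T) hGT.conn (nrm_of_le hT) (-(w l)) ν v hv
    have hsupp : ∀ v, R.col x u v ≠ 0 → ν.1 (R.ix v) = ν.1 (R.ix u) := fun v hv => by
      by_contra h1
      exact hv (R.rho_Zc hT ν (hZ0 (hN hx)) v u h1)
    have h1 := LB1.cmp R hT ν ⟨ha.1, ha'⟩ ⟨hc.1, hc'⟩ ⟨hb.1, hb'⟩
      (fun v hv => (hsupp v hv).trans (hsupp u' hy).symm) hyv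
    have hcZ : c ∈ Z := mem_idc_of_Up hc.2 fun s => by
      have h2 := hTZ0 ((-(w l)).2 s)
      exact Subgroup.mul_mem _ (Subgroup.mul_mem _ h2 ⟨hc.1, hc'⟩) (Subgroup.inv_mem _ h2)
    have h2 : R.col x u ∈ LB1.M2 R Z N u := by
      rw [h1, R.col_eq c u']
      exact Submodule.smul_mem _ _ (LB1.M2_stab R hZ hN hn u hcZ he')
    exact hne (by simpa using sub_mem h2 hdiff)

end Pool.Agent.Lib.MP_3a0263_al.Q
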