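import Pool.Agent.Lib.MP_3a0263_al.Q.GBlue
import Pool.Agent.Lib.MP_3a0263_al.Q.ApiR
import Pool.Agent.Lib.MP_3a0263_al.Q.ApiC
import Pool.Agent.Lib.MP_3a0263_al.Q.ApiZ3

namespace Pool.Agent.Lib.MP_3a0263_al.Q

open Matrix Pool.Agent.Lib.MP_3a0263_al.R

universe u

namespace LIM

variable {k : Type u} [Field k]

/-- the value at `0` of a polynomial curve lies in the closure -/
theorem core [Infinite k] {m : Type} {S : Set (m → k)} (c : m → Polynomial k)
    (h : ∀ z : kˣ, (fun v => (c v).eval (z : k)) ∈ clA S) : (fun v => (c v).eval 0) ∈ clA S := by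
  intro q hq
  have e : ∀ z : k, (MvPolynomial.aeval c q).eval z =
      MvPolynomial.eval (fun v => (c v).eval z) q := fun z => by
    rw [← Polynomial.coe_aeval_eq_eval, ← AlgHom.comp_apply, MvPolynomial.comp_aeval,
      MvPolynomial.aeval_eq_eval]
  have h0 : MvPolynomial.aeval c q = 0 := by
    refine Polynomial.eq_zero_of_infinite_isRoot _
      (Set.Infinite.mono (s := ({0}ᶜ : Set k)) (fun z hz => ?_) (Set.finite_singleton 0).infinite_compl)
    rw [Set.mem_ofPred_eq, Polynomial.IsRoot.def, e]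
    exact h (Units.mk0 z hz) q hq
  rw [← e, h0, Polynomial.eval_zero]

theorem pow_toNat (z : kˣ) {D d : ℤ} (h : d ≤ D) :
    (z : k) ^ (D - d).toNat = ((z ^ D : kˣ) : k) * ((z⁻¹ ^ d : kˣ) : k) := by
  rw [← Units.val_pow_eq_pow_val, ← zpow_natCast, Int.toNat_of_nonneg (by omega), ← Units.val_mul,
    _root_.zpow_sub, _root_.inv_zpow]

/-- the top component of a Laurent curve lies in the closure -/
theorem top [Infinite k] {m : Type} {S : Set (m → k)} (F : Finset ℤ) (y : ℤ → m → k) {D : ℤ}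
    (hD : D ∈ F) (hy : ∀ d ∈ F, y d ≠ 0 → d ≤ D)
    (h : ∀ z : kˣ, ((z ^ D : kˣ) : k) • ∑ d ∈ F, ((z⁻¹ ^ d : kˣ) : k) • y d ∈ clA S) :
    y D ∈ clA S := by
  have h1 := core (S := S) (fun v => ∑ d ∈ F, Polynomial.C (y d v) * Polynomial.X ^ (D - d).toNat)
    (fun z => by
      have e : (fun v => (∑ d ∈ F, Polynomial.C (y d v) *
          Polynomial.X ^ (D - d).toNat).eval (z : k)) =
          ((z ^ D : kˣ) : k) • ∑ d ∈ F, ((z⁻¹ ^ d : kˣ) : k) • y d := by
        funext v
        rw [Polynomial.eval_finsetSum, Pi.smul_apply, Finset.sum_apply, Finset.smul_sum]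
        refine Finset.sum_congr rfl fun d hd => ?_
        rw [Polynomial.eval_mul, Polynomial.eval_C, Polynomial.eval_pow, Polynomial.eval_X,
          Pi.smul_apply, smul_eq_mul, smul_eq_mul]
        by_cases h0 : y d = 0
        · simp [h0]
        · rw [pow_toNat z (hy d hd h0)]; ring
      rw [e]
      exact h z)
  have e : (fun v => (∑ d ∈ F, Polynomial.C (y d v) *
      Polynomial.X ^ (D - d).toNat).eval (0 : k)) = y D := by
    funext v
    rw [Polynomial.eval_finsetSum, Finset.sum_eq_single_of_mem D hD]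
    · simp
    · intro d hd hne
      rw [Polynomial.eval_mul, Polynomial.eval_C, Polynomial.eval_pow, Polynomial.eval_X]
      by_cases h0 : y d = 0
      · simp [h0]
      · have := hy d hd h0
        rw [zero_pow (by omega), mul_zero]
  rwa [e] at h1

variable {n : Type} [Fintype n] [DecidableEq n]

theorem part1 [Infinite k] {H T : Subgroup (GL n k)} (hT : T ≤ H) (R : IRep H T) (u : Fin R.m)
    (l : Y T) (d : ℤ) {y : Fin R.m → k} (hy : y ∈ clA (R.orb u))
    (hd : ∀ v, y v ≠ 0 → l.1 (R.ix v) ≤ d) :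
    (fun v => if l.1 (R.ix v) = d then y v else 0) ∈ clA (R.orb u) := by
  have h1 := core (S := R.orb u)
    (fun v => Polynomial.C (y v) * Polynomial.X ^ (d - l.1 (R.ix v)).toNat) (fun z => by
      have e : (fun v => (Polynomial.C (y v) *
          Polynomial.X ^ (d - l.1 (R.ix v)).toNat).eval (z : k)) =
          ((z ^ d : kˣ) : k) • (R.ρ ((coch l.1 z⁻¹ : GL n k) : Matrix n n k) *ᵥ y) := by
        funext v
        rw [R.rho_coch, Pi.smul_apply, mulVec_diagonal, Polynomial.eval_mul, Polynomial.eval_C,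
          Polynomial.eval_pow, Polynomial.eval_X, smul_eq_mul]
        by_cases h0 : y v = 0
        · simp [h0]
        · rw [pow_toNat z (hd v h0)]; ring
      rw [e]
      exact R.mulVec_mem_clA hy _ (hT (l.2 _)))
  have e : (fun v => (Polynomial.C (y v) *
      Polynomial.X ^ (d - l.1 (R.ix v)).toNat).eval (0 : k)) =
      fun v => if l.1 (R.ix v) = d then y v else 0 := by
    funext v
    rw [Polynomial.eval_mul, Polynomial.eval_C, Polynomial.eval_pow, Polynomial.eval_X]
    by_cases h2 : l.1 (R.ix v) = d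
    · simp [h2]
    · rw [if_neg h2]
      by_cases h0 : y v = 0
      · simp [h0]
      · have := hd v h0
        rw [zero_pow (by omega), mul_zero]
  rwa [e] at h1

/-- the projector on the part of degree `d` -/
def prj (k : Type u) [Field k] (l : n → ℤ) (d : ℤ) : Matrix n n k :=
  diagonal fun i => if l i = d then 1 else 0

theorem coch_eq_sum (l : n → ℤ) (s : kˣ) : ((coch l s : GL n k) : Matrix n n k) =
    ∑ d ∈ Finset.univ.image l, ((s ^ d : kˣ) : k) • prj k l d := by
  ext i j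
  rw [coch_val, Matrix.sum_apply, Finset.sum_eq_single_of_mem (l i)
    (Finset.mem_image.2 ⟨i, Finset.mem_univ _, rfl⟩)]
  · by_cases h : i = j
    · subst h; simp [prj]
    · simp [prj, h]
  · intro d _ hd
    by_cases h : i = j
    · subst h; simp [prj, hd.symm]
    · simp [prj, h]

theorem dg_mul_prj {l : n → ℤ} {e : n → kˣ} (he : ∀ i j, l i = l j → e i = e j) (i : n) :
    ((dg e : GL n k) : Matrix n n k) * prj k l (l i) = (e i : k) • prj k l (l i) := by
  rw [dg_val, prj, diagonal_mul_diagonal, ← diagonal_smul]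
  refine congrArg diagonal (funext fun j => ?_)
  by_cases h : l j = l i
  · simp [h, he j i h]
  · simp [h]

theorem part2 [IsAlgClosed k] (hta : S_ta k n) {H T : Subgroup (GL n k)} (R : IRep H T)
    (u : Fin R.m) {T' : Subgroup (GL n k)} (hT' : T' ≤ H) (ht : IsTorus T') :
    ∃ y ∈ clA (R.orb u), y ≠ 0 ∧ ∀ t ∈ T', ∃ a : k, R.ρ (t : Matrix n n k) *ᵥ y = a • y := by
  obtain ⟨P, hP⟩ := exists_diag_torus ht
  have hA := hta _ (torus_cjs P ht) hP
  obtain ⟨l, hl⟩ := exists_gen (Y (cjs P T'))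
  let E : ℤ → Matrix n n k := fun d => ((P⁻¹ : GL n k) : Matrix n n k) * prj k l.1 d * P
  have hm : ∀ s, P⁻¹ * coch l.1 s * P ∈ H := fun s => hT' (mem_cjs.1 (l.2 s))
  have hs : ∀ s : kˣ, ((P⁻¹ * coch l.1 s * P : GL n k) : Matrix n n k) =
      ∑ d ∈ Finset.univ.image l.1, ((s ^ d : kˣ) : k) • E d := fun s => by
    rw [Units.val_mul, Units.val_mul, coch_eq_sum, Finset.mul_sum, Finset.sum_mul]
    exact Finset.sum_congr rfl fun d _ => by rw [mul_smul_comm, smul_mul_assoc]
  have hE := coef_mem (spanG H) _ E fun s => hs s ▸ mem_spanG (hm s)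
  let y : ℤ → Fin R.m → k := fun d => R.ρ (E d) *ᵥ Pi.single u 1
  have hc : ∀ s : kˣ, R.col (P⁻¹ * coch l.1 s * P) u =
      ∑ d ∈ Finset.univ.image l.1, ((s ^ d : kˣ) : k) • y d := fun s => by
    rw [R.col_eq, hs, map_sum, Matrix.sum_mulVec]
    exact Finset.sum_congr rfl fun d _ => by rw [map_smul, Matrix.smul_mulVec]
  have hne : {d | d ∈ Finset.univ.image l.1 ∧ y d ≠ 0}.Nonempty := by
    by_contra h0
    refine R.col_ne_zero (hm 1) u ?_
    rw [hc]
    refine Finset.sum_eq_zero fun d hd => ?_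
    have h1 : y d = 0 := by
      by_contra h2
      exact h0 ⟨d, hd, h2⟩
    rw [h1, smul_zero]
  obtain ⟨D, ⟨hD, hD0⟩, hmax⟩ := Set.exists_max_image _ (fun d : ℤ => d)
    ((Finset.univ.image l.1).finite_toSet.subset fun _ h => h.1) hne
  refine ⟨y D, top _ y hD (fun d hd h0 => hmax d ⟨hd, h0⟩) fun z => ?_, hD0, fun t htT => ?_⟩
  · rw [← hc]
    exact fun q hq => hq _ ⟨_, _, hm _, rfl⟩
  · obtain ⟨e, he⟩ := hP _ (conj_mem_cjs (P := P) htT)
    obtain ⟨i, -, rfl⟩ := Finset.mem_image.1 hD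
    have h1 : (t : Matrix n n k) * E (l.1 i) = (e i : k) • E (l.1 i) := by
      have h2 : t * P⁻¹ = P⁻¹ * dg e := by rw [← he]; group
      have h3 := dg_mul_prj (fun a b hab => hA.eq a b (hl a b hab) e (he ▸ conj_mem_cjs htT)) i
      change (t : Matrix n n k) * (_ * _ * _) = _ • (_ * _ * _)
      rw [← mul_assoc, ← mul_assoc, ← Units.val_mul, h2, Units.val_mul, mul_assoc _ _ (prj _ _ _),
        h3, mul_smul_comm, smul_mul_assoc]
    refine ⟨e i, ?_⟩
    change _ *ᵥ (_ *ᵥ _) = _ • (_ *ᵥ _)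
    rw [mulVec_mulVec, ← R.mul_span (mem_spanG (hT' htT)) (hE _ hD), h1, map_smul,
      Matrix.smul_mulVec]

end LIM

theorem st_lim (k : Type u) [Field k] [IsAlgClosed k] (p : ℕ) [Fact p.Prime] [CharP k p] (n : Type)
    [Fintype n] [DecidableEq n] (hta : S_ta k n) : S_lim k n := fun _ _ hT R u =>
  ⟨fun l d _ hy hd => LIM.part1 hT R u l d hy hd, fun _ h1 h2 => LIM.part2 hta R u h1 h2⟩

end Pool.Agent.Lib.MP_3a0263_al.Q
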