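import Pool.Agent.Lib.MP_3a0263_al.Q.GBlue
import Pool.Agent.Lib.MP_3a0263_al.Q.ApiL
import Pool.Agent.Lib.MP_3a0263_al.Q.ApiZ2
import Pool.Agent.Lib.MP_3a0263_al.Q.ApiZ3

namespace Pool.Agent.Lib.MP_3a0263_al.Q

open Matrix Pool.Agent.Lib.MP_3a0263_al.R

universe u

namespace PACK

variable {k : Type u} [Field k] {n : Type} [Fintype n] [DecidableEq n]

omit [Fintype n] [DecidableEq n] in
theorem wt_ne {Ys : Submodule ℤ (n → ℤ)} {b : XX Ys} {y : Matrix n n k} {l : Ys} (hl : Gen l)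
    (hb : b ≠ 0) (hy : y ≠ 0) (h : Wt b y) : b l ≠ 0 := fun e => hy <| by
  ext i j
  by_contra hij
  have h1 := h.apply hij l
  exact hb (by rw [← h i j hij, hl i j (by omega), sub_self])

omit [DecidableEq n] in
theorem lf_zero (c : Matrix n n k) : lf c (0 : Matrix n n k) = 0 := by simp [lf]

variable {Z : Subgroup (GL n k)} {Ys : Submodule ℤ (n → ℤ)} {l : Ys}

theorem exists_index (C : Chart Z Ys l) {b : XX Ys} {y : Matrix n n k} (h1 : y ∈ lie Z)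
    (h2 : y ≠ 0) (h3 : Wt b y) (h4 : 0 < b l) : Nonempty (Fin C.d) := by
  by_contra h
  rw [not_nonempty_iff] at h
  exact h2 ((C.span y h1 (degGE_mono (by omega) (h3.mem_degGE l))).trans (by simp))

theorem not_tri [Infinite k] (p : ℕ) [Fact p.Prime] [CharP k p] (hZ : IsReductive Z)
    (C : Chart Z Ys l) (i : Fin C.d) : ¬ Tri Z := fun h => by
  obtain ⟨U, hU⟩ := tri_unip p h
  have h1 : IsZClosed (U : Set (GL n k)) := by
    have e : (U : Set (GL n k)) =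
        (Z : Set (GL n k)) ∩ {x : GL n k | IsNilpotent ((x : Matrix n n k) - 1)} :=
      Set.ext fun x => hU x
    rw [e]
    exact hZ.1.1.inter closed_unip
  have h2 : ∀ g ∈ Z, ∀ x ∈ U, g * x * g⁻¹ ∈ U := fun g hg x hx => by
    obtain ⟨a, N, b⟩ := (hU x).1 hx
    refine (hU _).2 ⟨Z.mul_mem (Z.mul_mem hg a) (Z.inv_mem hg), N, ?_⟩
    have e : ((g * x * g⁻¹ : GL n k) : Matrix n n k) - 1 =
        g * ((x : Matrix n n k) - 1) * ((g⁻¹ : GL n k) : Matrix n n k) := by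
      rw [mul_sub, sub_mul, mul_one, Units.mul_inv, Units.val_mul, Units.val_mul]
    rw [e, Units.conj_pow, b, mul_zero, zero_mul]
  have h3 := red_unip hZ h1 (fun x hx => ((hU x).1 hx).1) h2 (fun x hx => ((hU x).1 hx).2)
    (irr_param C.pt C.g C.pt_val) ⟨_, C.pt_lf 1 (one_mem _)⟩
    (by rintro _ ⟨z, rfl⟩; exact (hU _).2 ⟨(C.pt_mem z).1, nilp_of_Up (C.pt_mem z).2⟩)
    (C.pt fun _ => 1) ⟨_, rfl⟩
  have h4 := C.lf_pt (fun _ => 1) i
  rw [h3, Units.val_one, sub_self, lf_zero] at h4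
  exact zero_ne_one h4

theorem half (hc : S_curve k n) {G : Subgroup (GL n k)} (hG : Z ≤ G) (C : Chart Z Ys l)
    (hd : C.d ≤ 1) {b : XX Ys} {y : Matrix n n k} (h1 : y ∈ lie Z) (h2 : y ≠ 0) (h3 : Wt b y)
    (h4 : 0 < b l) : ∃ (e : Matrix n n k) (X : Curve G b e), e ∈ lie G ∧ e ≠ 0 ∧ Wt b e ∧
      (∀ v ∈ lie Z, v ∈ degGE k l.1 1 → ∃ c : k, v = c • e) ∧
      ∀ u ∈ Z ⊓ Up k l.1, ∃ z, X.x z = u := by
  obtain ⟨i⟩ := exists_index C h1 h2 h3 h4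
  have hi : ∀ j, j = i := fun j => Fin.ext (by omega)
  have h5 : ∀ v ∈ lie Z, v ∈ degGE k l.1 1 → ∃ c : k, v = c • C.y i := fun v a b =>
    ⟨_, (C.span v a b).trans (Fintype.sum_eq_single i fun j hj => absurd (hi j) hj)⟩
  obtain ⟨c, hy⟩ := h5 y h1 (degGE_mono (by omega) (h3.mem_degGE l))
  have h6 : C.a i = b := by
    by_contra h
    exact h2 (Wt.eq_zero (hy ▸ (C.y_wt i).smul c) h3 h)
  subst h6
  obtain ⟨X, hX⟩ := hc Z G Ys l C i hG hi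
  refine ⟨C.y i, X, lie_mono hG (C.y_mem i), fun e => h2 (by rw [hy, e, smul_zero]), C.y_wt i, h5,
    fun u hu => ⟨lf (C.c i) ((u : Matrix n n k) - 1), ?_⟩⟩
  rw [hX, ← C.pt_lf u hu]
  refine congrArg C.pt (funext fun j => ?_)
  rw [hi j, C.pt_lf u hu]

end PACK

open PACK

theorem st_pack (k : Type u) [Field k] [IsAlgClosed k] (p : ℕ) [Fact p.Prime] [CharP k p]
    (n : Type) [Fintype n] [DecidableEq n] (hlb : S_lb k n) (hct : S_ct k n) (hd1 : S_d1 k n)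
    (hd2 : S_d2 k n) (hd3 : S_d3 k n) (htri : S_tri k n) (hswap : S_swap k n) (hr1b : S_r1b k n)
    (hcurve : S_curve k n) (htc : S_tc k n) : S_pack k n := by
  rintro G T hG hM α ⟨hα, x, x1, x2, x3⟩
  obtain ⟨ν, hν⟩ := exists_wall α
  obtain ⟨l, hl, hp⟩ : ∃ l : Y T, Gen l ∧ 0 < α l := by
    obtain ⟨l, hl⟩ := exists_gen (Y T)
    rcases (wt_ne hl hα x2 x3).lt_or_gt with h | h
    · exact ⟨-l, hl.neg, by rw [map_neg]; omega⟩
    · exact ⟨l, hl, h⟩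
  obtain ⟨hZ, hT⟩ := hlb G T hG hM ν
  have hZG : idc (G ⊓ Zc k ν.1) ≤ G := (idc_le _).trans inf_le_left
  have hZc : idc (G ⊓ Zc k ν.1) ≤ Zc k ν.1 := (idc_le _).trans inf_le_right
  have hA : ∀ (b : XX (Y T)) (y : Matrix n n k), b ν = 0 → y ∈ lie G → Wt b y →
      y ∈ lie (idc (G ⊓ Zc k ν.1)) := fun b y h1 h2 h3 =>
    hd2 G (Y T) hM.conn (nrm_of_le hM.max.1) ν y h2 fun i j hij => by
      by_contra h
      have := h3.apply h ν
      omega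
  generalize idc (G ⊓ Zc k ν.1) = Z at hZ hT hZG hZc hA
  have hN : Nrm (Y T) Z := nrm_of_le hT.max.1
  obtain ⟨Cp⟩ := hd1 Z (Y T) hT.conn hN l
  obtain ⟨Cm⟩ := hd1 Z (Y T) hT.conn hN (-l)
  have x4 := hA α x hν.1 x1 x3
  obtain ⟨R, hR⟩ : ∃ R : IRep Z T, 1 < R.m := by
    by_contra h
    obtain ⟨i⟩ := exists_index Cp x4 x2 x3 hp
    exact not_tri p hZ Cp i (htri Z T hT.max.1 hT.diag (not_exists.1 h))
  obtain ⟨g, hg, w, w1, w2, w3⟩ := hswap Z T hT α ν l hν hZc hl hp.ne' R hR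
  have y3 : Wt (-α) ((g : Matrix n n k) * x * ((g⁻¹ : GL n k) : Matrix n n k)) := by
    have e : α ∘ₗ w.symm.toLinearMap = -α := LinearMap.ext fun l' => by
      have := w2 (w.symm l')
      rw [w.apply_symm_apply] at this
      simp only [LinearMap.comp_apply, LinearEquiv.coe_coe, LinearMap.neg_apply, this, neg_neg]
    rw [← e]
    exact (htc T hT.max.2.1 hT.diag).wt g w w1 α x x3
  have y2 : (g : Matrix n n k) * x * ((g⁻¹ : GL n k) : Matrix n n k) ≠ 0 := fun h =>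
    x2 ((Units.mul_right_eq_zero g).1 ((Units.mul_left_eq_zero g⁻¹).1 h))
  obtain ⟨e, xp, e1, e2, e3, e4, e5⟩ := half hcurve hZG Cp
    (hr1b Z T hZ hT α ν l hν hZc hl hp.ne' R hR Cp) x4 x2 x3 hp
  obtain ⟨f, xm, f1, f2, f3, f4, f5⟩ := half hcurve hZG Cm
    (hr1b Z T hZ hT α ν (-l) hν hZc hl.neg (by rw [map_neg]; omega) R hR Cm)
    (conj_mem_lie (fun x hx => Z.mul_mem (Z.mul_mem hg hx) (Z.inv_mem hg)) x4) y2 y3
    (by simpa using hp)
  refine ⟨⟨e, f, xp, xm, g, w, e1, f1, e2, f2, e3, f3, fun b b1 b2 y y1 y2 y3 => ?_, hZG hg, w1,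
    w2, w3, fun C hC h => ?_⟩⟩
  · have y4 := hA b y (b2 ν hν.1) y1 y3
    rcases (wt_ne hl b1 y2 y3).lt_or_gt with h | h
    · obtain ⟨c, hc⟩ := f4 y y4 (degGE_mono (by rw [map_neg]; omega) (y3.mem_degGE (-l)))
      refine Or.inr ⟨?_, c, hc⟩
      by_contra h'
      exact y2 (y3.eq_zero (hc ▸ f3.smul c) h')
    · obtain ⟨c, hc⟩ := e4 y y4 (degGE_mono (by omega) (y3.mem_degGE l))
      refine Or.inl ⟨?_, c, hc⟩
      by_contra h'
      exact y2 (y3.eq_zero (hc ▸ e3.smul c) h')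
  · refine subset_of_dense (hd3 Z (Y T) hT.conn hN l) hC ?_ hg
    rintro _ ⟨a, ha, c, hc, b, hb, rfl⟩
    obtain ⟨z, rfl⟩ := f5 a ha
    obtain ⟨z', rfl⟩ := e5 b hb
    rw [hct Z T hZ hT l hl] at hc
    exact h z z' c hc

end Pool.Agent.Lib.MP_3a0263_al.Q
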