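import Pool.Agent.Lib.MP_3a0263_al.Q.GBlue

namespace Pool.Agent.Lib.MP_3a0263_al.Q

open Matrix Pool.Agent.Lib.MP_3a0263_al.R

universe u

namespace PROD

theorem lin {k : Type u} [Field k] {σ : Type} {A : Type u} [CommRing A] [Algebra k A]
    (T : Set (σ → k)) (y : σ → A)
    (hy : ∀ f ∈ MvPolynomial.vanishingIdeal k T, MvPolynomial.aeval y f = 0)
    {ι : Type} (s : Finset ι) (c : ι → A) (u : ι → MvPolynomial σ k)
    (h : ∀ t ∈ T, ∑ m ∈ s, MvPolynomial.aeval t (u m) • c m = 0) :
    ∑ m ∈ s, MvPolynomial.aeval y (u m) * c m = 0 := by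
  classical
  let b := Module.Basis.ofVectorSpace k A
  let S := s.biUnion fun m => (b.repr (c m)).support
  have e : ∀ m ∈ s, c m = ∑ i ∈ S, b.repr (c m) i • b i := by
    intro m hm
    have h1 := b.linearCombination_repr (c m)
    rw [Finsupp.linearCombination_apply, Finsupp.sum_of_support_subset _
      (Finset.subset_biUnion_of_mem (fun m => (b.repr (c m)).support) hm) (fun i a => a • b i)
      (fun i _ => zero_smul _ _)] at h1
    exact h1.symm
  have z : ∀ i, MvPolynomial.aeval y (∑ m ∈ s, b.repr (c m) i • u m) = 0 := by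
    intro i
    refine hy _ (MvPolynomial.mem_vanishingIdeal_iff.2 fun t ht => ?_)
    have h1 := congrArg (fun a => b.repr a i) (h t ht)
    simp only [map_sum, map_smul, Finsupp.finsetSum_apply, Finsupp.smul_apply, smul_eq_mul,
      map_zero, Finsupp.zero_apply] at h1
    simp only [map_sum, map_smul, smul_eq_mul]
    rw [← h1]
    exact Finset.sum_congr rfl fun m _ => mul_comm _ _
  calc ∑ m ∈ s, MvPolynomial.aeval y (u m) * c m
      = ∑ m ∈ s, ∑ i ∈ S, (b.repr (c m) i • MvPolynomial.aeval y (u m)) * b i := by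
        refine Finset.sum_congr rfl fun m hm => ?_
        conv_lhs => rw [e m hm]
        rw [Finset.mul_sum]
        exact Finset.sum_congr rfl fun i _ => by rw [mul_smul_comm, smul_mul_assoc]
    _ = ∑ i ∈ S, MvPolynomial.aeval y (∑ m ∈ s, b.repr (c m) i • u m) * b i := by
        rw [Finset.sum_comm]
        refine Finset.sum_congr rfl fun i _ => ?_
        simp only [map_sum, map_smul, Finset.sum_mul]
    _ = 0 := Finset.sum_eq_zero fun i _ => by rw [z i, zero_mul]

theorem ev_sum {k : Type u} [Field k] {σ : Type} {A : Type u} [CommRing A] [Algebra k A]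
    (F : MvPolynomial σ A) (y : σ → A) :
    MvPolynomial.aeval y F = ∑ m ∈ F.support,
      MvPolynomial.aeval y (MvPolynomial.monomial m (1 : k)) * F.coeff m := by
  conv_lhs => rw [F.as_sum]
  rw [map_sum]
  refine Finset.sum_congr rfl fun m _ => ?_
  rw [MvPolynomial.aeval_monomial, MvPolynomial.aeval_monomial, map_one, one_mul, mul_comm]
  rfl

theorem key {k : Type u} [Field k] {σ : Type} {A : Type u} [CommRing A] [Algebra k A]
    (T : Set (σ → k)) (y : σ → A)
    (hy : ∀ f ∈ MvPolynomial.vanishingIdeal k T, MvPolynomial.aeval y f = 0)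
    (F : MvPolynomial σ A)
    (h : ∀ t ∈ T, MvPolynomial.aeval (fun i => algebraMap k A (t i)) F = 0) :
    MvPolynomial.aeval y F = 0 := by
  rw [ev_sum (k := k)]
  refine lin T y hy _ _ _ fun t ht => ?_
  rw [← h t ht, ev_sum (k := k)]
  refine Finset.sum_congr rfl fun m _ => ?_
  rw [Algebra.smul_def]
  have h1 := MvPolynomial.comp_aeval_apply t (Algebra.ofId k A) (MvPolynomial.monomial m (1 : k))
  exact congrArg (· * F.coeff m) h1

theorem ex_tr {k : Type u} [Field k] {n : Type} [Fintype n] [DecidableEq n] {A : Type u}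
    [CommRing A] [Algebra k A] (a b : Matrix n n A) (f : MvPolynomial (n × n) k) :
    ∃ F : MvPolynomial (n × n) A, ∀ y : Matrix n n A,
      MvPolynomial.aeval (fun ij : n × n => y ij.1 ij.2) F =
        MvPolynomial.aeval (fun ij : n × n => (a * y * b) ij.1 ij.2) f := by
  refine ⟨MvPolynomial.aeval (fun ij : n × n => ∑ l, (∑ m, MvPolynomial.C (a ij.1 m) *
    MvPolynomial.X (m, l)) * MvPolynomial.C (b l ij.2)) f, fun y => ?_⟩
  have h := MvPolynomial.comp_aeval_apply (fun ij : n × n => ∑ l, (∑ m, MvPolynomial.C (a ij.1 m) *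
    (MvPolynomial.X (m, l) : MvPolynomial (n × n) A)) * MvPolynomial.C (b l ij.2))
    ((MvPolynomial.aeval (fun ij : n × n => y ij.1 ij.2) :
      MvPolynomial (n × n) A →ₐ[A] A).restrictScalars k) f
  refine h.trans (congrArg (fun w => MvPolynomial.aeval w f) (funext fun ij => ?_))
  simp only [AlgHom.restrictScalars_apply, map_sum, map_mul, MvPolynomial.aeval_C,
    MvPolynomial.aeval_X, Algebra.algebraMap_self, RingHom.id_apply, Matrix.mul_apply]

theorem zero {k : Type u} [Field k] {n : Type} [Fintype n] [DecidableEq n] {A : Type u}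
    [CommRing A] [Algebra k A] (S : Set (GL n k)) (a b y : Matrix n n A)
    (hy : ∀ f ∈ vanish S, MvPolynomial.aeval (fun ij : n × n => y ij.1 ij.2) f = 0)
    (f : MvPolynomial (n × n) k)
    (h : ∀ g ∈ S, MvPolynomial.aeval
      (fun ij : n × n => (a * (g : Matrix n n k).map (algebraMap k A) * b) ij.1 ij.2) f = 0) :
    MvPolynomial.aeval (fun ij : n × n => (a * y * b) ij.1 ij.2) f = 0 := by
  obtain ⟨F, hF⟩ := ex_tr a b f
  rw [← hF]
  refine key (entries '' S) _ hy F ?_
  rintro _ ⟨g, hg, rfl⟩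
  exact (hF ((g : Matrix n n k).map (algebraMap k A))).trans (h g hg)

end PROD

theorem st_prod (k : Type u) [Field k] [IsAlgClosed k] (p : ℕ) [Fact p.Prime] [CharP k p]
    (n : Type) [Fintype n] [DecidableEq n] : S_prod k n := by
  intro R _ _ I S S' x x' hx hx' f hf
  let φ : R →ₐ[k] R ⧸ I := Ideal.Quotient.mkₐ k I
  have e : ∀ (z : Matrix n n R) (q : MvPolynomial (n × n) k),
      MvPolynomial.aeval (fun ij : n × n => z ij.1 ij.2) q ∈ I ↔
        MvPolynomial.aeval (fun ij : n × n => (z.map φ) ij.1 ij.2) q = 0 := by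
    intro z q
    have h := MvPolynomial.comp_aeval_apply (fun ij : n × n => z ij.1 ij.2) φ q
    rw [← Ideal.Quotient.eq_zero_iff_mem]
    exact Eq.congr_left h
  rw [e]
  have m : (x * x').map φ = x.map φ * x'.map φ * 1 := by
    rw [Matrix.mul_one]
    exact Matrix.map_mul (f := φ)
  rw [m]
  refine PROD.zero S' _ _ _ (fun q hq => (e _ _).1 (hx' q hq)) f fun g' hg' => ?_
  rw [Matrix.mul_one, ← Matrix.one_mul (x.map φ)]
  refine PROD.zero S _ _ _ (fun q hq => (e _ _).1 (hx q hq)) f fun g hg => ?_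
  have h0 : MvPolynomial.aeval (entries (g * g')) f = 0 :=
    MvPolynomial.mem_vanishingIdeal_iff.1 hf _ ⟨g * g', ⟨g, hg, g', hg', rfl⟩, rfl⟩
  have h1 := MvPolynomial.comp_aeval_apply (entries (g * g')) (Algebra.ofId k (R ⧸ I)) f
  rw [h0, map_zero] at h1
  rw [h1, Matrix.one_mul, ← Matrix.map_mul]
  rfl

end Pool.Agent.Lib.MP_3a0263_al.Q
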