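import Pool.Agent.Lib.MP_3a0263_al.Q.GBlue
import Pool.Agent.Lib.MP_3a0263_al.Q.ApiZ2
import Pool.Agent.Lib.MP_3a0263_al.Q.ApiZ3
import Pool.Agent.Lib.MP_3a0263_al.Q.ApiR
import Pool.Agent.Lib.MP_3a0263_al.Q.ApiC

namespace Pool.Agent.Lib.MP_3a0263_al.Q

open Matrix Pool.Agent.Lib.MP_3a0263_al.R

universe u

namespace R1A

variable {k : Type u} [Field k] {n : Type} [Fintype n] [DecidableEq n]
variable {Z T : Subgroup (GL n k)}

/-- differences of weights are proportional to the root -/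
theorem prop_ix [Infinite k] (hT : T ≤ Z) {α : XX (Y T)} {ν : Y T} (hw : Wall α ν)
    (hZ : Z ≤ Zc k ν.1) (R : IRep Z T) (v v' : Fin R.m) (l l' : Y T) :
    α l * (l'.1 (R.ix v) - l'.1 (R.ix v')) = (l.1 (R.ix v) - l.1 (R.ix v')) * α l' :=
  prop_of_ker (α := α) (b := eps (Y T) (R.ix v) - eps (Y T) (R.ix v'))
    (fun l0 h => sub_eq_zero.2 (hw.2 _ _ (R.const_of_le_Zc hT ν hZ v v') l0 h)) l l'

/-- in semisimple rank one the extremal indices are the top and the bottom one -/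
theorem vert_top [Infinite k] (hT : T ≤ Z) {α : XX (Y T)} {ν l : Y T} (hw : Wall α ν)
    (hZ : Z ≤ Zc k ν.1) (hl : α l ≠ 0) (R : IRep Z T) {v : Fin R.m} (hv : R.Vert v) :
    R.Top l.1 v ∨ R.Top (-l).1 v := by
  obtain ⟨l0, -, h0⟩ := hv
  have h2 : 0 < α l * α l := mul_self_pos.2 hl
  rcases le_total 0 (α l * α l0) with h | h
  · refine Or.inl fun v' hv' => ?_
    have e := prop_ix hT hw hZ R v v' l l0
    have e1 := h0 v' hv'
    by_contra hc
    have e2 := congrArg (fun t => α l * t) e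
    nlinarith [mul_pos h2 (sub_pos.2 e1), mul_nonneg h (sub_nonneg.2 (not_lt.1 hc))]
  · refine Or.inr fun v' hv' => ?_
    have e := prop_ix hT hw hZ R v v' l l0
    have e1 := h0 v' hv'
    by_contra hc
    have hc' : l.1 (R.ix v') ≤ l.1 (R.ix v) := by
      simpa using hc
    have e2 := congrArg (fun t => α l * t) e
    nlinarith [mul_pos h2 (sub_pos.2 e1), mul_nonneg (neg_nonneg.2 h) (sub_nonneg.2 hc')]

theorem col_top [Infinite k] (hT : T ≤ Z) (R : IRep Z T) (l : Y T) {v : Fin R.m}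
    (hv : R.Top l.1 v) {x : GL n k} (hx : x ∈ Z ⊓ Up k l.1) : R.col x v = Pi.single v 1 := by
  funext a
  have h := R.rho_Up hT l hx a v (by
    by_cases e : a = v
    · subst e
      simp
    · have := hv a e
      beta_reduce
      omega)
  rw [Matrix.sub_apply, sub_eq_zero] at h
  rw [IRep.col, h, Matrix.one_apply, Pi.single_apply]

theorem col_conj (hT : T ≤ Z) (R : IRep Z T) (l : Y T) (s : kˣ) {v : Fin R.m} {x : GL n k}
    (hx : x ∈ Z) (h : R.col x v = Pi.single v 1) :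
    R.col (coch l.1 s * x * (coch l.1 s)⁻¹) v = Pi.single v 1 := by
  funext a
  have h1 : R.ρ (x : Matrix n n k) a v = (Pi.single v 1 : Fin R.m → k) a := congrFun h a
  rw [IRep.col, Units.val_mul, Units.val_mul, R.rho_conj hT l s hx, h1]
  by_cases e : a = v
  · subst e
    simp
  · simp [e]

/-- the kernel of a representation -/
def ker (R : IRep Z T) : Subgroup (GL n k) where
  carrier := {z | z ∈ Z ∧ R.ρ (z : Matrix n n k) = 1}
  one_mem' := ⟨Z.one_mem, R.one⟩
  mul_mem' := fun {a b} ha hb => ⟨Z.mul_mem ha.1 hb.1, by rw [R.mul a ha.1 b hb.1, ha.2, hb.2, mul_one]⟩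
  inv_mem' := fun {a} ha => ⟨Z.inv_mem ha.1, by simpa [ha.2] using R.mul_inv ha.1⟩

theorem ker_conj (R : IRep Z T) {g : GL n k} (hg : g ∈ Z) : ∀ x ∈ ker R, g * x * g⁻¹ ∈ ker R :=
  fun x hx => ⟨Z.mul_mem (Z.mul_mem hg hx.1) (Z.inv_mem hg), by
    rw [R.mul _ (Z.mul_mem hg hx.1) _ (Z.inv_mem hg), R.mul _ hg _ hx.1, hx.2, mul_one,
      R.mul_inv hg]⟩

theorem closed_ker (hZ : IsZClosed (Z : Set (GL n k))) (R : IRep Z T) :
    IsZClosed (ker R : Set (GL n k)) :=
  hZ.inter (closed_eq (RegM.id.lin R.ρ) (RegM.const 1))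

/-- the diagonal matrices -/
def diagSub (k : Type u) [Field k] (m : Type) [DecidableEq m] : Submodule k (Matrix m m k) :=
  LinearMap.range (diagonalLinearMap m k k)

theorem mem_diagSub {m : Type} [DecidableEq m] {x : Matrix m m k} :
    x ∈ diagSub k m ↔ ∃ d, diagonal d = x := Iff.rfl

theorem diag_ne {m : Type} [Fintype m] [DecidableEq m] {d : m → k} {y : Matrix m m k}
    (h : diagonal d * y = 1) (a : m) : d a ≠ 0 := by
  intro e
  have := congrFun (congrFun h a) a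
  simp [e] at this

/-- the elements acting diagonally -/
def dia (R : IRep Z T) : Subgroup (GL n k) where
  carrier := {z | z ∈ Z ∧ R.ρ (z : Matrix n n k) ∈ diagSub k (Fin R.m)}
  one_mem' := ⟨Z.one_mem, ⟨1, by rw [Units.val_one, R.one]; exact diagonal_one⟩⟩
  mul_mem' := fun {a b} ha hb => ⟨Z.mul_mem ha.1 hb.1, by
    obtain ⟨d, hd⟩ := mem_diagSub.1 ha.2
    obtain ⟨e, he⟩ := mem_diagSub.1 hb.2
    rw [R.mul a ha.1 b hb.1, ← hd, ← he, diagonal_mul_diagonal]
    exact mem_diagSub.2 ⟨_, rfl⟩⟩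
  inv_mem' := fun {a} ha => ⟨Z.inv_mem ha.1, by
    obtain ⟨d, hd⟩ := mem_diagSub.1 ha.2
    have h := R.mul_inv ha.1
    rw [← hd] at h
    refine mem_diagSub.2 ⟨fun i => (d i)⁻¹, ?_⟩
    have h' : diagonal (fun i => (d i)⁻¹) * diagonal d = 1 := by
      rw [diagonal_mul_diagonal, ← diagonal_one]
      exact congrArg diagonal (funext fun i => inv_mul_cancel₀ (diag_ne h i))
    rw [← mul_one (diagonal fun i => (d i)⁻¹), ← h, ← mul_assoc, h', one_mul]⟩

theorem closed_dia (hZ : IsZClosed (Z : Set (GL n k))) (R : IRep Z T) :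
    IsZClosed (dia R : Set (GL n k)) :=
  hZ.inter (S' := {g : GL n k | R.ρ (g : Matrix n n k) ∈ diagSub k (Fin R.m)})
    (closed_regM (RegM.id.lin R.ρ) _)

theorem le_dia (hT : T ≤ Z) (hd : IsDiagG T) (R : IRep Z T) : T ≤ dia R := fun t ht => by
  obtain ⟨d, rfl⟩ := hd t ht
  exact ⟨hT ht, mem_diagSub.2 ⟨_, (R.diag d ht).symm⟩⟩

theorem ker_le_dia (R : IRep Z T) : ker R ≤ dia R := fun z hz =>
  ⟨hz.1, mem_diagSub.2 ⟨1, by rw [hz.2]; exact diagonal_one⟩⟩

theorem act_fix [Infinite k] (hT : T ≤ Z) (R : IRep Z T) {g : GL n k} (hg : g ∈ dia R)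
    {w : Y T ≃ₗ[ℤ] Y T} (h : Act T g w) (l : Y T) (a : Fin R.m) :
    (w l).1 (R.ix a) = l.1 (R.ix a) := by
  obtain ⟨d, hd⟩ := mem_diagSub.1 hg.2
  have h1 := R.mul_inv hg.1
  rw [← hd] at h1
  refine zpow_inj (k := k) fun s => ?_
  have e : coch (w l).1 s * g = g * coch l.1 s := by
    rw [← h.coch l s, inv_mul_cancel_right]
  have e1 := R.mul _ (hT ((w l).2 s)) _ hg.1
  rw [e, R.mul _ hg.1 _ (hT (l.2 s)), R.rho_coch, R.rho_coch, ← hd, diagonal_mul_diagonal,
    diagonal_mul_diagonal] at e1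
  have e2 := congrFun (diagonal_injective e1) a
  rw [mul_comm] at e2
  exact Units.ext (mul_right_cancel₀ (diag_ne h1 a) e2).symm

theorem nilp_conj (g : GL n k) {x : GL n k} (h : IsNilpotent ((x : Matrix n n k) - 1)) :
    IsNilpotent (((g * x * g⁻¹ : GL n k) : Matrix n n k) - 1) := by
  obtain ⟨N, hN⟩ := h
  refine ⟨N, ?_⟩
  have e : ((g * x * g⁻¹ : GL n k) : Matrix n n k) - 1 =
      (g : Matrix n n k) * ((x : Matrix n n k) - 1) * ((g⁻¹ : GL n k) : Matrix n n k) := by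
    rw [mul_sub, sub_mul, mul_one, Units.mul_inv, Units.val_mul, Units.val_mul]
  rw [e, Units.conj_pow, hN, mul_zero, zero_mul]

end R1A

open R1A in
theorem st_r1a (k : Type u) [Field k] [IsAlgClosed k] (p : ℕ) [Fact p.Prime] [CharP k p] (n : Type)
    [Fintype n] [DecidableEq n] (hla : S_la k n) (hswap : S_swap k n) (htri : S_tri k n) :
    S_r1a k n := by
  intro Z T hred hMT α ν l hw hZ hg hl R hm u hu x hx hcol
  have hT : T ≤ Z := hMT.max.1
  obtain ⟨S, hS, h1, hxS, hSx⟩ := contract hx.2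
  have hSZ : S ⊆ Z := fun g hg => by
    rcases hSx g hg with rfl | ⟨s, rfl⟩
    · exact Z.one_mem
    · exact nrm_of_le hT l.1 l.2 s x hx.1
  have hρ : ∀ g ∈ S, R.ρ (g : Matrix n n k) = 1 := by
    refine hla Z T hMT R S hSZ hS h1 fun v hv g hg => ?_
    rcases hSx g hg with rfl | ⟨s, rfl⟩
    · exact R.col_one v
    · refine col_conj hT R l s hx.1 ?_
      rcases vert_top hT hw hZ hl R hv with h | h
      · exact col_top hT R l h hx
      · rw [IRep.Top.unique R h hu]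
        exact hcol
  have hcD := conn_idc (closed_dia hMT.conn.1 R)
  have hTD : T ≤ idc (dia R) := le_idc (le_dia hT hMT.diag R) hMT.max.2.1.1
  have hDZ : idc (dia R) ≤ Z := fun z hz => (idc_le _ hz).1
  have htr : Tri (idc (dia R)) := by
    refine htri _ T hTD hMT.diag fun R2 hm2 => ?_
    obtain ⟨g, hgD, w, hact, hneg, -⟩ :=
      hswap _ T (hMT.sub hcD hTD hDZ) α ν l hw (hDZ.trans hZ) hg hl R2 hm2
    have : Nontrivial (Fin R.m) := Fin.nontrivial_iff_two_le.2 hm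
    obtain ⟨u1, hu1⟩ := exists_ne u
    have e := prop_ix hT hw hZ R u u1 l (w l)
    rw [act_fix hT R (idc_le _ hgD) hact, act_fix hT R (idc_le _ hgD) hact, hneg] at e
    have e1 : l.1 (R.ix u) < l.1 (R.ix u1) := by simpa using hu u1 hu1
    have e2 : α l * (l.1 (R.ix u) - l.1 (R.ix u1)) = 0 := by linarith
    rcases mul_eq_zero.1 e2 with h | h
    · exact hl h
    · omega
  obtain ⟨U, hU⟩ := tri_unip p (htr.mono (idc_mono (ker_le_dia R)))
  have hUc : IsZClosed (U : Set (GL n k)) := by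
    have : (U : Set (GL n k)) = (idc (ker R) : Set (GL n k)) ∩
        {x : GL n k | IsNilpotent ((x : Matrix n n k) - 1)} := Set.ext fun x => hU x
    rw [this]
    exact (conn_idc (closed_ker hMT.conn.1 R)).1.inter closed_unip
  refine red_unip hred hUc (fun z hz => (idc_le _ ((hU z).1 hz).1).1) (fun g hg z hz => ?_)
    (fun z hz => ((hU z).1 hz).2) hS h1 (fun g hg => (hU g).2 ⟨?_, ?_⟩) x hxS
  · exact (hU _).2 ⟨idc_conj (ker_conj R hg) z ((hU z).1 hz).1, nilp_conj g ((hU z).1 hz).2⟩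
  · exact subset_idc (K := ker R) (fun g hg => ⟨hSZ hg, hρ g hg⟩) hS h1 hg
  · rcases hSx g hg with rfl | ⟨s, rfl⟩
    · simp
    · exact nilp_conj _ (nilp_of_Up hx.2)

end Pool.Agent.Lib.MP_3a0263_al.Q
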