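import Pool.Agent.Lib.MP_3a0263_al.Q.GBlue
import Pool.Agent.Lib.MP_3a0263_al.Q.ApiR
import Pool.Agent.Lib.MP_3a0263_al.Q.ApiZ1

namespace Pool.Agent.Lib.MP_3a0263_al.Q

open Matrix Pool.Agent.Lib.MP_3a0263_al.R

universe u

namespace R1B

variable {k : Type u} [Field k] {n : Type} [Fintype n] [DecidableEq n]

/-- in rank one an extremal index is top for `l` or for `-l` -/
theorem top_or [Infinite k] {Z T : Subgroup (GL n k)} (hT : T ≤ Z) {α : XX (Y T)} {ν l : Y T}
    (hw : Wall α ν) (hZ : Z ≤ Zc k ν.1) (hl : α l ≠ 0) (R : IRep Z T) {l' : Y T} {u : Fin R.m}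
    (hu : R.Top l'.1 u) : R.Top l.1 u ∨ R.Top (-l).1 u := by
  have key : ∀ v, α l * (l'.1 (R.ix u) - l'.1 (R.ix v)) =
      (l.1 (R.ix u) - l.1 (R.ix v)) * α l' := fun v =>
    prop_of_ker (α := α) (b := eps (Y T) (R.ix u) - eps (Y T) (R.ix v)) (fun m hm => by
      have := hw.2 _ _ (R.const_of_le_Zc hT ν hZ u v) m hm
      simp only [LinearMap.sub_apply, eps_apply]
      omega) l l'
  have h2 : 0 < α l * α l := mul_self_pos.2 hl
  by_cases h : 0 < α l * α l'
  · refine Or.inl fun v hv => ?_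
    have h1 := hu v hv
    have h3 := key v
    by_contra h4
    have h5 : (l.1 (R.ix u) - l.1 (R.ix v)) * (α l * α l') ≤ 0 :=
      mul_nonpos_of_nonpos_of_nonneg (by omega) h.le
    have h6 : 0 < (α l * α l) * (l'.1 (R.ix u) - l'.1 (R.ix v)) := mul_pos h2 (by omega)
    have h7 : (α l * α l) * (l'.1 (R.ix u) - l'.1 (R.ix v)) =
        (l.1 (R.ix u) - l.1 (R.ix v)) * (α l * α l') := by
      rw [mul_assoc, h3]; ring
    omega
  · refine Or.inr fun v hv => ?_
    have h1 := hu v hv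
    have h3 := key v
    change -l.1 (R.ix v) < -l.1 (R.ix u)
    by_contra h4
    have h5 : (l.1 (R.ix u) - l.1 (R.ix v)) * (α l * α l') ≤ 0 :=
      mul_nonpos_of_nonneg_of_nonpos (by omega) (not_lt.1 h)
    have h6 : 0 < (α l * α l) * (l'.1 (R.ix u) - l'.1 (R.ix v)) := mul_pos h2 (by omega)
    have h7 : (α l * α l) * (l'.1 (R.ix u) - l'.1 (R.ix v)) =
        (l.1 (R.ix u) - l.1 (R.ix v)) * (α l * α l') := by
      rw [mul_assoc, h3]; ring
    omega

omit [DecidableEq n] in
theorem lf_zero (c : Matrix n n k) : lf c (0 : Matrix n n k) = 0 := by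
  simp [lf]

end R1B

theorem st_r1b (k : Type u) [Field k] [IsAlgClosed k] (p : ℕ) [Fact p.Prime] [CharP k p]
    (n : Type) [Fintype n] [DecidableEq n] (htop : S_top k n) (hfix : S_fix k n)
    (hr1a : S_r1a k n) (hzero : S_zero k) : S_r1b k n := by
  intro Z T hZ hMT α ν l hw hZc hl hα R hm C
  have hT : T ≤ Z := hMT.max.1
  obtain ⟨u0, hu0⟩ := htop Z T hMT R (-l) hl.neg
  obtain ⟨u1, hu1⟩ := htop Z T hMT R l hl
  have hne : u1 ≠ u0 := by
    rintro rfl
    have : Nontrivial (Fin R.m) := Fin.nontrivial_iff_two_le.2 hm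
    obtain ⟨v, hv⟩ := exists_ne u1
    have h1 := hu1 v hv
    have h2 : -l.1 (R.ix v) < -l.1 (R.ix u1) := hu0 v hv
    omega
  let σ : Matrix n n k →ₗ[k] k := (Matrix.entryLinearMap k k u1 u0).comp R.ρ
  have hf : ∀ z, MvPolynomial.eval z (∑ ij : n × n,
      MvPolynomial.C (σ (Matrix.single ij.1 ij.2 1)) * C.g ij.1 ij.2) = R.col (C.pt z) u0 u1 := by
    intro z
    change _ = σ (C.pt z : Matrix n n k)
    rw [lin_eq_sum σ, map_sum, C.pt_val]
    refine Finset.sum_congr rfl fun ij _ => ?_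
    rw [map_mul, MvPolynomial.eval_C, Matrix.map_apply]
  refine hzero C.d (∑ ij : n × n,
      MvPolynomial.C (σ (Matrix.single ij.1 ij.2 1)) * C.g ij.1 ij.2) fun z => ?_
  rw [hf]
  refine ⟨fun h0 => ?_, ?_⟩
  · have hz := C.pt_mem z
    obtain ⟨g, -, w, -, -, u', hu', -, hy, hlt⟩ := hfix Z T hMT R (-l) u0 hl.neg hu0
      (R.col (C.pt z) u0) (fun q hq => hq _ ⟨1, C.pt z, hz.1, (one_smul _ _).symm⟩)
      (R.col_ne_zero hz.1 u0) l hl
    rcases R1B.top_or hT hw hZc hα R hu' with h | h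
    · exact absurd h0 (IRep.Top.unique R h hu1 ▸ hy)
    · have e := IRep.Top.unique R h hu0
      subst e
      have h1 : C.pt z = 1 := by
        refine hr1a Z T hZ hMT α ν l hw hZc hl hα R hm u' hu0 _ hz (funext fun v => ?_)
        by_cases hv : v = u'
        · subst hv
          have := R.rho_Up hT l hz v v (by omega)
          rw [Matrix.sub_apply, Matrix.one_apply_eq, sub_eq_zero] at this
          rw [Pi.single_eq_same]
          exact this
        · rw [Pi.single_eq_of_ne hv]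
          by_contra h2
          have h3 := hlt v hv h2
          have h4 : -l.1 (R.ix v) < -l.1 (R.ix u') := hu0 v hv
          omega
      funext i
      rw [← C.lf_pt z i, h1, Units.val_one, sub_self, R1B.lf_zero, Pi.zero_apply]
  · rintro rfl
    have h1 := C.pt_lf 1 (Subgroup.one_mem _)
    simp only [Units.val_one, sub_self, R1B.lf_zero] at h1
    have h2 : C.pt 0 = 1 := h1
    rw [h2, R.col_one, Pi.single_eq_of_ne hne]

end Pool.Agent.Lib.MP_3a0263_al.Q
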