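import Pool.Agent.Lib.MP_3a0263_al.Q.GBlue
import Pool.Agent.Lib.MP_3a0263_al.R.B_DIAG

namespace Pool.Agent.Lib.MP_3a0263_al.Q

open Matrix Pool.Agent.Lib.MP_3a0263_al.R

universe u

namespace RepB

variable {k : Type u} [Field k] {n : Type} [Fintype n] [DecidableEq n]

theorem mem_spanG {H : Subgroup (GL n k)} {g : GL n k} (hg : g ∈ H) :
    (g : Matrix n n k) ∈ spanG H := Submodule.subset_span ⟨g, hg, rfl⟩

theorem spanG_mul {H : Subgroup (GL n k)} {x y : Matrix n n k} (hx : x ∈ spanG H)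
    (hy : y ∈ spanG H) : x * y ∈ spanG H := by
  induction hx using Submodule.span_induction with
  | mem x hx =>
    obtain ⟨g, hg, rfl⟩ := hx
    induction hy using Submodule.span_induction with
    | mem y hy =>
      obtain ⟨h, hh, rfl⟩ := hy
      exact mem_spanG (H.mul_mem hg hh)
    | zero => simp
    | add y z _ _ hy hz => rw [mul_add]; exact add_mem hy hz
    | smul c y _ hy => rw [mul_smul_comm]; exact Submodule.smul_mem _ _ hy
  | zero => simp
  | add x z _ _ hx hz => rw [add_mul]; exact add_mem hx hz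
  | smul c x _ hx => rw [smul_mul_assoc]; exact Submodule.smul_mem _ _ hx

/-- the span of `H` as an algebra -/
def alg (H : Subgroup (GL n k)) : Subalgebra k (Matrix n n k) :=
  (spanG H).toSubalgebra (mem_spanG H.one_mem) fun _ _ hx hy => spanG_mul hx hy

/-- an element of `H` as an element of the algebra -/
def el {H : Subgroup (GL n k)} {g : GL n k} (hg : g ∈ H) : alg H := ⟨g, mem_spanG hg⟩

theorem ss_image {H : Subgroup (GL n k)} {m : Type} [Fintype m] [DecidableEq m]
    (π : alg H →ₐ[k] Matrix m m k) {d : n → kˣ} (hd : dg d ∈ H) : DiagB.SS (π (el hd)) := by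
  classical
  set e : n → k := fun i => (d i : k) with he
  have hq : Squarefree (∏ a ∈ Finset.univ.image e, (Polynomial.X - Polynomial.C a)) :=
    (Polynomial.separable_prod_X_sub_C_iff'.2 fun _ _ _ _ e => e).squarefree
  refine Module.End.isSemisimple_of_squarefree_aeval_eq_zero hq ?_
  have e1 : Polynomial.aeval e (∏ a ∈ Finset.univ.image e, (Polynomial.X - Polynomial.C a)) = 0 := by
    funext i
    rw [map_prod, Finset.prod_apply]
    exact Finset.prod_eq_zero (Finset.mem_image_of_mem e (Finset.mem_univ i)) (by simp)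
  have e2 := Polynomial.aeval_algHom_apply (diagonalAlgHom (n := n) (α := k) k) e
    (∏ a ∈ Finset.univ.image e, (Polynomial.X - Polynomial.C a))
  rw [e1, map_zero] at e2
  have e3 : Polynomial.aeval (el hd)
      (∏ a ∈ Finset.univ.image e, (Polynomial.X - Polynomial.C a)) = 0 := by
    refine Subtype.ext ?_
    have := Polynomial.aeval_algHom_apply (alg H).val (el hd)
      (∏ a ∈ Finset.univ.image e, (Polynomial.X - Polynomial.C a))
    exact this.symm.trans e2
  have e4 := Polynomial.aeval_algHom_apply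
    ((toLinAlgEquiv' (R := k) (n := m)).toAlgHom.comp π) (el hd)
    (∏ a ∈ Finset.univ.image e, (Polynomial.X - Polynomial.C a))
  rw [e3, map_zero] at e4
  exact e4

theorem diag_sum (e : n → k) : diagonal e = ∑ i, e i • diagonal (Pi.single i (1 : k)) := by
  ext a b
  rw [Matrix.sum_apply]
  by_cases h : a = b
  · subst h
    simp [Pi.single_apply]
  · simp [diagonal_apply_ne _ h]

theorem factor [IsAlgClosed k] {H T : Subgroup (GL n k)} (hT : T ≤ H) (hd : IsDiagG T) {m : ℕ}
    (hm : 0 < m) (π : alg H →ₐ[k] Matrix (Fin m) (Fin m) k) (hs : Function.Surjective π) :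
    ∃ R : IRep H T, ∀ x : alg H, R.ρ x = 0 → π x = 0 := by
  obtain ⟨θ, hθ⟩ := DiagB.exists_diag {y | ∃ (d : n → kˣ) (h : dg d ∈ T), y = π (el (hT h))}
    (by rintro _ ⟨d, h, rfl⟩; exact ss_image π _) (by
      rintro _ ⟨d, h, rfl⟩ _ ⟨d', h', rfl⟩
      refine Commute.map (Subtype.ext ?_) π
      show (dg d : Matrix n n k) * (dg d' : Matrix n n k) =
        (dg d' : Matrix n n k) * (dg d : Matrix n n k)
      rw [← Units.val_mul, ← Units.val_mul, ← dg_mul, ← dg_mul, mul_comm])
  let σ : alg H →ₐ[k] Matrix (Fin m) (Fin m) k := θ.toAlgHom.comp π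
  have hσ : Function.Surjective σ := θ.surjective.comp hs
  let f : spanG H →ₗ[k] Matrix (Fin m) (Fin m) k :=
    { toFun := fun x => σ ⟨x.1, x.2⟩
      map_add' := fun x y => map_add σ ⟨x.1, x.2⟩ ⟨y.1, y.2⟩
      map_smul' := fun c x => map_smul σ c ⟨x.1, x.2⟩ }
  obtain ⟨ρ, hρ⟩ := LinearMap.exists_extend f
  have hρ' : ∀ x : alg H, ρ x = σ x := fun x => LinearMap.congr_fun hρ ⟨x.1, x.2⟩
  have hmul : ∀ g ∈ H, ∀ h ∈ H, ρ ((g * h : GL n k) : Matrix n n k) = ρ g * ρ h := by
    intro g hg h hh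
    have e1 := hρ' (el hg * el hh)
    rw [map_mul, ← hρ', ← hρ'] at e1
    exact e1
  have hone : ρ 1 = 1 := (hρ' 1).trans (map_one σ)
  have hdg : ∀ d, dg d ∈ T → ∃ δ, ρ (dg d : Matrix n n k) = diagonal δ := fun d h => by
    obtain ⟨δ, hδ⟩ := hθ _ ⟨d, h, rfl⟩
    exact ⟨δ, (hρ' (el (hT h))).trans hδ⟩
  let D : Subgroup (n → kˣ) := T.comap dgHom
  let χ : Fin m → (D →* k) := fun u =>
    { toFun := fun d => ρ (dg d.1 : Matrix n n k) u u
      map_one' := by
        show ρ (dg (1 : n → kˣ) : Matrix n n k) u u = 1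
        rw [dg_one, Units.val_one, hone, Matrix.one_apply_eq]
      map_mul' := fun d d' => by
        show ρ (dg (d.1 * d'.1) : Matrix n n k) u u = _
        obtain ⟨δ, hδ⟩ := hdg d.1 d.2
        rw [dg_mul, hmul (dg d.1) (hT d.2) (dg d'.1) (hT d'.2), hδ, diagonal_mul,
          diagonal_apply_eq] }
  let ψ : n → (D →* k) := fun i =>
    { toFun := fun d => (d.1 i : k)
      map_one' := rfl
      map_mul' := fun d d' => Units.val_mul _ _ }
  have hix : ∀ u, ∃ i, ψ i = χ u := fun u => by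
    by_contra hc
    refine (linearIndependent_monoidHom D k).notMem_span_image (s := Set.range ψ) (x := χ u) hc ?_
    have e1 : (χ u : D → k) = ∑ i, ρ (diagonal (Pi.single i (1 : k))) u u • (ψ i : D → k) := by
      funext d
      show ρ (dg d.1 : Matrix n n k) u u = _
      rw [dg_val, diag_sum, map_sum, Matrix.sum_apply, Finset.sum_apply]
      refine Finset.sum_congr rfl fun i _ => ?_
      rw [map_smul, Matrix.smul_apply, smul_eq_mul, mul_comm]
      rfl
    show (χ u : D → k) ∈ _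
    rw [e1]
    exact Submodule.sum_mem _ fun i _ => Submodule.smul_mem _ _
      (Submodule.subset_span ⟨ψ i, ⟨i, rfl⟩, rfl⟩)
  choose ix hix using hix
  refine ⟨⟨m, ρ, ix, hm, hone, hmul, fun y => ?_, fun d h => ?_⟩, fun x hx => ?_⟩
  · obtain ⟨x, rfl⟩ := hσ y
    rw [← hρ']
    obtain ⟨x, hx⟩ := x
    show ρ x ∈ _
    have hx' : x ∈ spanG H := hx
    clear hx
    induction hx' using Submodule.span_induction with
    | mem x hx =>
      obtain ⟨g, hg, rfl⟩ := hx
      exact Submodule.subset_span ⟨g, hg, rfl⟩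
    | zero => simp
    | add x z _ _ hx hz => rw [map_add]; exact add_mem hx hz
    | smul c x _ hx => rw [map_smul]; exact Submodule.smul_mem _ _ hx
  · obtain ⟨δ, hδ⟩ := hdg d h
    rw [hδ]
    refine congrArg diagonal (funext fun u => ?_)
    have e1 : ψ (ix u) ⟨d, h⟩ = χ u ⟨d, h⟩ := by rw [hix u]
    have e2 : χ u ⟨d, h⟩ = δ u := by
      show ρ (dg d : Matrix n n k) u u = _
      rw [hδ, diagonal_apply_eq]
    exact (e1.trans e2).symm
  · have e1 : θ (π x) = 0 := (hρ' x).symm.trans hx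
    exact θ.map_eq_zero_iff.1 e1

end RepB

open RepB in
theorem st_rep (k : Type u) [Field k] [IsAlgClosed k] (p : ℕ) [Fact p.Prime] [CharP k p]
    (n : Type) [Fintype n] [DecidableEq n] : S_rep k n := by
  intro H T hT hd
  have inj : Function.Injective (alg H).val.toLinearMap := Subtype.val_injective
  have : FiniteDimensional k (alg H) := FiniteDimensional.of_injective _ inj
  have : IsArtinianRing (alg H) := IsArtinianRing.of_finite k (alg H)
  obtain ⟨m, d, hd0, ⟨e⟩⟩ := IsSemisimpleRing.exists_algEquiv_pi_matrix_of_isAlgClosed k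
    (alg H ⧸ Ring.jacobson (alg H))
  let π : alg H →ₐ[k] _ := e.toAlgHom.comp (Ideal.Quotient.mkₐ k (Ring.jacobson (alg H)))
  have hs : Function.Surjective π := e.surjective.comp Ideal.Quotient.mk_surjective
  refine ⟨((Ring.jacobson (alg H)).restrictScalars k).map (alg H).val.toLinearMap,
    ⟨?_, ?_, ?_, ?_⟩, fun x hx h => ?_⟩
  · rintro _ ⟨y, -, rfl⟩
    exact y.2
  · rintro g hg _ ⟨y, hy, rfl⟩
    exact ⟨el hg * y, Ideal.mul_mem_left _ _ hy, rfl⟩
  · rintro g hg _ ⟨y, hy, rfl⟩
    exact ⟨y * el hg, Ideal.mul_mem_right _ _ hy, rfl⟩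
  · obtain ⟨N, hN⟩ := IsSemiprimaryRing.isNilpotent (R := alg H)
    refine ⟨N, ?_⟩
    rw [← Submodule.map_pow, ← Submodule.restrictScalars_pow N.succ_ne_zero, Submodule.pow_succ, hN]
    simp
  · refine ⟨⟨x, hx⟩, ?_, rfl⟩
    have h0 : π ⟨x, hx⟩ = 0 := funext fun i => by
      obtain ⟨R, hR⟩ := factor hT hd (Nat.pos_of_ne_zero (hd0 i).out)
        ((Pi.evalAlgHom k _ i).comp π) ((Function.surjective_eval i).comp hs)
      exact hR ⟨x, hx⟩ (h R)
    exact Ideal.Quotient.eq_zero_iff_mem.1 (e.map_eq_zero_iff.1 h0)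

end Pool.Agent.Lib.MP_3a0263_al.Q
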