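import Pool.Agent.Lib.MP_3a0263_al.Q.GBlue
import Pool.Agent.Lib.MP_3a0263_al.Q.ApiZ1

/-! An irreducible representation of a connected group by matrices with a scalar power has
dimension at most one. -/

namespace Pool.Agent.Lib.MP_3a0263_al.Q

open Matrix Pool.Agent.Lib.MP_3a0263_al.R

universe u

namespace SCAL

variable {k : Type u} [Field k]

theorem fin_roots {m : ℕ} (hm : m ≠ 0) (a : k) : {z : k | z ^ m = a}.Finite := by
  classical
  exact (Polynomial.nthRoots m a).toFinset.finite_toSet.subset fun z hz => by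
    simpa [Polynomial.mem_nthRoots (Nat.pos_of_ne_zero hm)] using hz

theorem fin_sums {U : Set k} (hU : U.Finite) (d : ℕ) : ∃ F : Set k, F.Finite ∧
    ∀ s : Multiset k, s.card = d → (∀ x ∈ s, x ∈ U) → s.sum ∈ F := by
  induction d with
  | zero => exact ⟨{0}, Set.finite_singleton 0, fun s hs _ => by simp [Multiset.card_eq_zero.1 hs]⟩
  | succ d ih =>
    obtain ⟨F, hF, h⟩ := ih
    refine ⟨Set.image2 (· + ·) U F, hU.image2 _ hF, fun s hs hs' => ?_⟩
    obtain ⟨a, ha⟩ := Multiset.card_pos_iff_exists_mem.1 (show 0 < s.card by omega)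
    obtain ⟨t, rfl⟩ := Multiset.exists_cons_of_mem ha
    rw [Multiset.sum_cons]
    exact Set.mem_image2_of_mem (hs' a ha) (h t (by simpa using hs)
      fun x hx => hs' x (Multiset.mem_cons_of_mem hx))

/-- the invariant `tr(x)^d / det(x)` takes finitely many values on matrices with a scalar power -/
theorem fin_inv [IsAlgClosed k] (W : Type) [Fintype W] [DecidableEq W] [Nonempty W] {m : ℕ}
    (hm : m ≠ 0) : ∃ F : Set k, F.Finite ∧ ∀ (x y : Matrix W W k) (a : k), x * y = 1 →
      x ^ m = a • 1 → x.trace ^ Fintype.card W * y.det ∈ F := by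
  obtain ⟨F, hF, h⟩ := fin_sums (fin_roots hm (1 : k)) (Fintype.card W)
  refine ⟨Set.image2 (fun s t => s ^ Fintype.card W * t) F {z | z ^ m = 1},
    hF.image2 _ (fin_roots hm 1), fun x y a hxy ha => ?_⟩
  have hd : x.det * y.det = 1 := by rw [← det_mul, hxy, det_one]
  have ha0 : a ≠ 0 := by
    rintro rfl
    have h1 := congrArg det ha
    rw [det_pow, zero_smul, det_zero] at h1
    rw [pow_eq_zero_iff hm |>.1 h1, zero_mul] at hd
    exact zero_ne_one hd
  obtain ⟨b, hb⟩ := IsAlgClosed.exists_pow_nat_eq a⁻¹ (Nat.pos_of_ne_zero hm)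
  have hb0 : b ≠ 0 := by
    rintro rfl
    rw [zero_pow hm] at hb
    exact inv_ne_zero ha0 hb.symm
  have h1 : (b • x) ^ m = 1 := by rw [_root_.smul_pow, ha, hb, smul_smul, inv_mul_cancel₀ ha0, one_smul]
  have h2 : (b • x).trace ∈ F := by
    rw [trace_eq_sum_roots_charpoly]
    refine h _ ?_ fun z hz => ?_
    · rw [← (IsAlgClosed.splits _).natDegree_eq_card_roots, charpoly_natDegree_eq_dim]
    · have h3 := spectrum.pow_mem_pow (b • x) m
        (mem_spectrum_iff_isRoot_charpoly.2 (Polynomial.isRoot_of_mem_roots hz))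
      rwa [h1, spectrum.one_eq] at h3
  have h4 : (b • x).det * ((b ^ Fintype.card W)⁻¹ * y.det) = 1 := by
    rw [det_smul]
    field_simp
    exact hd
  refine ⟨_, h2, (b ^ Fintype.card W)⁻¹ * y.det, ?_, ?_⟩
  · have h5 := congrArg (· ^ m) h4
    simp only [mul_pow _ _ m, ← det_pow (b • x), h1, det_one, one_mul, one_pow] at h5
    simpa only [Set.mem_ofPred_eq, mul_pow _ _ m] using h5
  · simp only [trace_smul, smul_eq_mul, mul_pow]
    field_simp

end SCAL

open SCAL

theorem st_scal (k : Type u) [Field k] [IsAlgClosed k] (p : ℕ) [Fact p.Prime] [CharP k p]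
    (n : Type) [Fintype n] [DecidableEq n] : S_scal k n := by
  intro C hC W _ _ σ h1 hmul hspan m hm hpow
  by_contra hW
  obtain ⟨i, j, hij⟩ := Fintype.exists_pair_of_one_lt_card (not_le.1 hW)
  have : Nonempty W := ⟨i⟩
  obtain ⟨e, he⟩ : ∃ e, Fintype.card W = e + 1 := ⟨Fintype.card W - 1, by omega⟩
  have hI : ZAR.Irr (C : Set (GL n k)) := fun f g h => hC.2.mem_or_mem h
  have rT : ∀ {Φ : GL n k → Matrix W W k}, RegM Φ → ∀ r : ℕ,
      (fun g => (Φ g).trace ^ r) ∈ reg k n := fun h r =>
    (reg k n).pow_mem (h.func (traceLinearMap W k k)) r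
  have rD : (fun g : GL n k => (σ ((g⁻¹ : GL n k) : Matrix n n k)).det) ∈ reg k n :=
    (RegM.inv.lin σ).det
  have hinv : ∀ g ∈ C, σ (g : Matrix n n k) * σ ((g⁻¹ : GL n k) : Matrix n n k) = 1 := fun g hg => by
    rw [← hmul g hg _ (C.inv_mem hg), mul_inv_cancel, Units.val_one, h1]
  have hdet : ∀ g ∈ C, (σ (g : Matrix n n k)).det * (σ ((g⁻¹ : GL n k) : Matrix n n k)).det = 1 :=
    fun g hg => by rw [← det_mul, hinv g hg, det_one]
  obtain ⟨d, hd⟩ : ∃ d : k, d = Fintype.card W := ⟨_, rfl⟩
  have ht1 : (1 : Matrix W W k).trace = d := by rw [trace_one, hd]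
  have key : ∀ g ∈ C, (σ (g : Matrix n n k)).trace ^ (e + 1) =
      d ^ (e + 1) * (σ (g : Matrix n n k)).det := by
    obtain ⟨F, hF, h⟩ := fin_inv (k := k) W hm
    intro g hg
    have h2 := irr_const hI (reg_mul (rT (RegM.id.lin σ) (Fintype.card W)) rD) hF
      (fun c hc => by
        obtain ⟨a, ha⟩ := hpow c hc
        exact h _ _ a (hinv c hc) ha) g hg 1 C.one_mem
    simp only [inv_one, Units.val_one, h1, det_one, mul_one, ht1, he] at h2
    linear_combination (σ (g : Matrix n n k)).det * h2 -
      (σ (g : Matrix n n k)).trace ^ (e + 1) * hdet g hg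
  have hd0 : d ≠ 0 := by
    intro h0
    have h2 : ∀ y : Matrix W W k, y.trace = 0 := fun y => by
      induction hspan y using Submodule.span_induction with
      | mem x hx =>
        obtain ⟨g, hg, rfl⟩ := hx
        have := key g hg
        rw [h0, zero_pow e.succ_ne_zero, zero_mul] at this
        exact pow_eq_zero_iff e.succ_ne_zero |>.1 this
      | zero => simp
      | add a b _ _ ha hb => rw [trace_add, ha, hb, add_zero]
      | smul c a _ ha => rw [trace_smul, ha, smul_zero]
    simpa using h2 (single i i 1)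
  have hm2 : ∀ g ∈ C, ∀ h ∈ C, d * (σ (g : Matrix n n k) * σ (h : Matrix n n k)).trace =
      (σ (g : Matrix n n k)).trace * (σ (h : Matrix n n k)).trace := by
    intro g hg h hh
    have h2 := irr_const hI (reg_mul (reg_mul
      (rT ((RegM.const (σ (g : Matrix n n k))).mul (RegM.id.lin σ)) 1) (rT (RegM.id.lin σ) e)) rD)
      (fin_roots e.succ_ne_zero ((d ^ (e + 1)) ^ (e + 1) * (σ (g : Matrix n n k)).det))
      (fun c hc => by
        have a1 := key _ (C.mul_mem hg hc)
        rw [hmul g hg c hc, det_mul] at a1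
        have a2 : ((σ (c : Matrix n n k)).det * (σ ((c⁻¹ : GL n k) : Matrix n n k)).det) ^ (e + 1) =
            1 := by rw [hdet c hc, one_pow]
        show (_ * _ * _) ^ (e + 1) = _
        rw [pow_one, mul_pow, mul_pow, a1, pow_right_comm, key c hc]
        linear_combination (d ^ (e + 1)) ^ (e + 1) * (σ (g : Matrix n n k)).det * a2)
      h hh 1 C.one_mem
    simp only [inv_one, Units.val_one, h1, det_one, mul_one, ht1, pow_one] at h2
    refine mul_left_cancel₀ (pow_ne_zero e hd0) ?_
    linear_combination (σ (h : Matrix n n k)).trace * h2 -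
      (σ (g : Matrix n n k) * σ (h : Matrix n n k)).trace *
        (σ ((h⁻¹ : GL n k) : Matrix n n k)).det * key h hh -
      (σ (g : Matrix n n k) * σ (h : Matrix n n k)).trace * d ^ (e + 1) * hdet h hh
  have hm3 : ∀ x y : Matrix W W k, d * (x * y).trace = x.trace * y.trace := by
    intro x y
    induction hspan x using Submodule.span_induction with
    | mem x hx =>
      obtain ⟨g, hg, rfl⟩ := hx
      induction hspan y using Submodule.span_induction with
      | mem y hy =>
        obtain ⟨h, hh, rfl⟩ := hy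
        exact hm2 g hg h hh
      | zero => simp
      | add a b _ _ ha hb => rw [Matrix.mul_add, trace_add, trace_add, mul_add, mul_add, ha, hb]
      | smul c a _ ha =>
        rw [Matrix.mul_smul, trace_smul, trace_smul, smul_eq_mul, smul_eq_mul]
        linear_combination c * ha
    | zero => simp
    | add a b _ _ ha hb => rw [Matrix.add_mul, trace_add, trace_add, mul_add, add_mul, ha, hb]
    | smul c a _ ha =>
      rw [Matrix.smul_mul, trace_smul, trace_smul, smul_eq_mul, smul_eq_mul]
      linear_combination c * ha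
  have := hm3 (single i j 1) (single j i 1)
  simp [hij, hd0] at this

end Pool.Agent.Lib.MP_3a0263_al.Q
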