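import Pool.Agent.Lib.MP_3a0263_al.Q.ApiP
import Pool.Agent.Lib.MP_3a0263_al.Q.GBlue

namespace Pool.Agent.Lib.MP_3a0263_al.Q

open Matrix Pool.Agent.Lib.MP_3a0263_al.R

universe u

variable {k : Type u} [Field k] {n : Type} [Fintype n] [DecidableEq n]

namespace SM

/-- generic smoothness of an affine variety over a perfect field -/
theorem exists_smooth [PerfectField k] {σ : Type} [Finite σ] (P : Ideal (MvPolynomial σ k))
    [P.IsPrime] : ∃ f ∉ P,
      Algebra.FormallySmooth k (Localization.Away (Ideal.Quotient.mk P f)) := by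
  have hfp : Algebra.FinitePresentation k (MvPolynomial σ k ⧸ P) :=
    Algebra.FinitePresentation.quotient ((isNoetherianRing_iff_ideal_fg _).1 inferInstance P)
  have hf : IsFractionRing (MvPolynomial σ k ⧸ P)
      (Localization.AtPrime (⊥ : Ideal (MvPolynomial σ k ⧸ P))) := by
    have e : (⊥ : Ideal (MvPolynomial σ k ⧸ P)).primeCompl =
        nonZeroDivisors (MvPolynomial σ k ⧸ P) := Ideal.primeCompl_bot
    unfold IsFractionRing
    rw [← e]
    infer_instance
  let _ : Field (Localization.AtPrime (⊥ : Ideal (MvPolynomial σ k ⧸ P))) :=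
    IsFractionRing.toField (MvPolynomial σ k ⧸ P)
  have hs : Algebra.IsSmoothAt k (⊥ : Ideal (MvPolynomial σ k ⧸ P)) :=
    Algebra.FormallySmooth.of_perfectField
  obtain ⟨f, hf1, hf2⟩ := Algebra.IsSmoothAt.exists_notMem_smooth k
    (⊥ : Ideal (MvPolynomial σ k ⧸ P))
  obtain ⟨f, rfl⟩ := Ideal.Quotient.mk_surjective f
  exact ⟨f, fun h => hf1 (Ideal.Quotient.eq_zero_iff_mem.2 h), hf2.formallySmooth⟩

/-- lifting of points on the smooth locus -/
theorem lift_pt {σ : Type} {P : Ideal (MvPolynomial σ k)} {f : MvPolynomial σ k}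
    (hf : Algebra.FormallySmooth k (Localization.Away (Ideal.Quotient.mk P f)))
    {B C : Type u} [CommRing B] [Algebra k B] [CommRing C] [Algebra k C] (π : B →ₐ[k] C)
    (hπ : Function.Surjective π) (hn : IsNilpotent (RingHom.ker π)) (x : σ → C)
    (hx : ∀ q ∈ P, MvPolynomial.aeval x q = 0) (hu : IsUnit (MvPolynomial.aeval x f)) :
    ∃ y : σ → B, (∀ q ∈ P, MvPolynomial.aeval y q = 0) ∧ ∀ i, π (y i) = x i := by
  let φ : (MvPolynomial σ k ⧸ P) →ₐ[k] C := Ideal.Quotient.liftₐ P (MvPolynomial.aeval x) hx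
  have hφ : ∀ q, φ (Ideal.Quotient.mk P q) = MvPolynomial.aeval x q := fun _ => rfl
  let ψ : Localization.Away (Ideal.Quotient.mk P f) →ₐ[k] C :=
    IsLocalization.liftAlgHom (M := Submonoid.powers (Ideal.Quotient.mk P f)) (f := φ) (by
      rintro ⟨_, r, rfl⟩
      rw [map_pow, hφ]
      exact hu.pow r)
  have hψ : ∀ a, ψ (algebraMap _ _ a) = φ a := fun a => IsLocalization.lift_eq _ a
  let χ := Algebra.FormallySmooth.liftOfSurjective ψ π hπ hn
  let θ : MvPolynomial σ k →ₐ[k] B := χ.comp ((IsScalarTower.toAlgHom k (MvPolynomial σ k ⧸ P)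
    (Localization.Away (Ideal.Quotient.mk P f))).comp (Ideal.Quotient.mkₐ k P))
  have hθ : ∀ q, θ q = χ (algebraMap _ _ (Ideal.Quotient.mk P q)) := fun _ => rfl
  refine ⟨θ ∘ MvPolynomial.X, fun q hq => ?_, fun i => ?_⟩
  · rw [← MvPolynomial.aeval_unique θ, hθ, Ideal.Quotient.eq_zero_iff_mem.2 hq, map_zero, map_zero]
  · rw [Function.comp_apply, hθ, Algebra.FormallySmooth.liftOfSurjective_apply, hψ, hφ,
      MvPolynomial.aeval_X]

theorem aeval_tr_alg {R : Type u} [CommRing R] [Algebra k R] (a b : GL n k) (x : Matrix n n R)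
    (f : MvPolynomial (n × n) k) :
    MvPolynomial.aeval (fun ij : n × n => x ij.1 ij.2) (ZAR.tr a b f) =
      MvPolynomial.aeval (fun ij : n × n => ((a : Matrix n n k).map (algebraMap k R) * x *
        (b : Matrix n n k).map (algebraMap k R)) ij.1 ij.2) f := by
  rw [ZAR.tr, ← AlgHom.comp_apply, MvPolynomial.comp_aeval]
  have hc : ∀ c : Matrix n n k, (MvPolynomial.aeval (fun ij : n × n => x ij.1 ij.2) :
      _ →ₐ[k] R).mapMatrix (cP c) = c.map (algebraMap k R) := fun c => by
    ext i j; simp [cP, Algebra.ofId_apply]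
  have h : (MvPolynomial.aeval (fun ij : n × n => x ij.1 ij.2) : _ →ₐ[k] R).mapMatrix
      (cP (a : Matrix n n k) * gen k n * cP (b : Matrix n n k)) =
      (a : Matrix n n k).map (algebraMap k R) * x * (b : Matrix n n k).map (algebraMap k R) := by
    rw [map_mul, map_mul, hc, hc, aeval_gen]
  rw [← h]
  rfl

theorem ptMod_tr {R : Type u} [CommRing R] [Algebra k R] {H : Subgroup (GL n k)} {I : Ideal R}
    {x : Matrix n n R} (hx : PtMod (H : Set (GL n k)) I x) {a b : GL n k} (ha : a ∈ H)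
    (hb : b ∈ H) : PtMod (H : Set (GL n k)) I
      ((a : Matrix n n k).map (algebraMap k R) * x * (b : Matrix n n k).map (algebraMap k R)) :=
  fun f hf => by
    rw [← aeval_tr_alg]
    refine hx _ (mem_vanish.2 fun g hg => ?_)
    rw [ZAR.aeval_tr]
    exact mem_vanish.1 hf _ (H.mul_mem (H.mul_mem ha hg) hb)

omit [DecidableEq n] in
theorem cong_mul {R : Type u} [CommRing R] {I : Ideal R} (a : Matrix n n R) {x y : Matrix n n R}
    (h : Cong I x y) : Cong I (a * x) (a * y) := fun i j => by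
  rw [← Matrix.sub_apply, ← Matrix.mul_sub, Matrix.mul_apply]
  exact I.sum_mem fun c _ => I.mul_mem_left _ (h c j)

end SM

open SM in
/-- a connected group over a perfect field is smooth at `1` -/
theorem sm_lift [PerfectField k] {H : Subgroup (GL n k)} (hH : IsConnAlg H) (R : Type u)
    [CommRing R] [Algebra k R] (J : Ideal R) (N : ℕ) (hN : 1 ≤ N) (x : Matrix n n R)
    (hx : PtMod (H : Set (GL n k)) (J ^ N) x) (h1 : Cong J x 1) :
    ∃ x2 : Matrix n n R, PtMod (H : Set (GL n k)) (J ^ (N + 1)) x2 ∧ Cong (J ^ N) x2 x := by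
  have := hH.2
  obtain ⟨f, hf1, hf2⟩ := exists_smooth (vanish (H : Set (GL n k)))
  rw [mem_vanish] at hf1
  push Not at hf1
  obtain ⟨g, hg, hfg⟩ := hf1
  have hle : J ^ (N + 1) ≤ J ^ N := Ideal.pow_le_pow_right (Nat.le_succ N)
  let y : Matrix n n R := (g : Matrix n n k).map (algebraMap k R) * x
  have hy : PtMod (H : Set (GL n k)) (J ^ N) y := by
    simpa using ptMod_tr hx hg H.one_mem
  have hy1 : Cong J y ((g : Matrix n n k).map (algebraMap k R)) := by
    simpa using cong_mul ((g : Matrix n n k).map (algebraMap k R)) h1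
  have hq : ∀ (I : Ideal R) (z : Matrix n n R) (q : MvPolynomial (n × n) k),
      MvPolynomial.aeval (fun ij : n × n => Ideal.Quotient.mk I (z ij.1 ij.2)) q =
        Ideal.Quotient.mk I (MvPolynomial.aeval (fun ij : n × n => z ij.1 ij.2) q) :=
    fun I z q => ApiP.aeval_map_entries (Ideal.Quotient.mkₐ k I) z q
  have hu : IsUnit (MvPolynomial.aeval
      (fun ij : n × n => Ideal.Quotient.mk (J ^ N) (y ij.1 ij.2)) f) := by
    have e : MvPolynomial.aeval (fun ij : n × n =>
        ((g : Matrix n n k).map (algebraMap k R)) ij.1 ij.2) f =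
        algebraMap k R (MvPolynomial.aeval (entries g) f) :=
      ApiP.aeval_map_entries (Algebra.ofId k R) (g : Matrix n n k) f
    have h2 := hy1.aeval f
    rw [e] at h2
    have h3 : IsNilpotent (Ideal.Quotient.mk (J ^ N) (MvPolynomial.aeval
        (fun ij : n × n => y ij.1 ij.2) f - algebraMap k R (MvPolynomial.aeval (entries g) f))) :=
      ⟨N, by rw [← map_pow]; exact Ideal.Quotient.eq_zero_iff_mem.2 (Ideal.pow_mem_pow h2 N)⟩
    have h4 : IsUnit (Ideal.Quotient.mk (J ^ N)
        (algebraMap k R (MvPolynomial.aeval (entries g) f))) :=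
      ((Ne.isUnit hfg).map (algebraMap k R)).map _
    have h5 := h3.isUnit_add_right_of_commute h4 (Commute.all _ _)
    rwa [← map_add, sub_add_cancel, ← hq] at h5
  obtain ⟨z, hz1, hz2⟩ := lift_pt hf2 (Ideal.Quotient.factorₐ k hle)
    (Ideal.Quotient.factor_surjective hle) (by
      refine ⟨2, ?_⟩
      rw [Ideal.zero_eq_bot, eq_bot_iff, pow_two]
      refine Ideal.mul_le.2 fun a ha b hb => ?_
      obtain ⟨a, rfl⟩ := Ideal.Quotient.mk_surjective a
      obtain ⟨b, rfl⟩ := Ideal.Quotient.mk_surjective b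
      have ha' : a ∈ J ^ N := Ideal.Quotient.eq_zero_iff_mem.1 ha
      have hb' : b ∈ J ^ N := Ideal.Quotient.eq_zero_iff_mem.1 hb
      rw [← map_mul, Ideal.mem_bot, Ideal.Quotient.eq_zero_iff_mem, pow_succ]
      exact Ideal.mul_mem_mul ha' (Ideal.pow_le_self (by omega) hb'))
    (fun ij : n × n => Ideal.Quotient.mk (J ^ N) (y ij.1 ij.2))
    (fun q hq' => by rw [hq]; exact Ideal.Quotient.eq_zero_iff_mem.2 (hy q hq')) hu
  choose w hw using fun ij => Ideal.Quotient.mk_surjective (z ij)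
  let y2 : Matrix n n R := Matrix.of fun i j => w (i, j)
  have hy2 : PtMod (H : Set (GL n k)) (J ^ (N + 1)) y2 := fun q hq' => by
    rw [← Ideal.Quotient.eq_zero_iff_mem, ← hq, ← hz1 q hq']
    exact congrArg (fun t => MvPolynomial.aeval t q) (funext hw)
  have hy3 : Cong (J ^ N) y2 y := fun i j => by
    rw [← Ideal.Quotient.eq, ← hz2 (i, j), ← hw]
    rfl
  refine ⟨((g⁻¹ : GL n k) : Matrix n n k).map (algebraMap k R) * y2, ?_, ?_⟩
  · simpa only [Units.val_one, Matrix.map_one _ (map_zero _) (map_one _), Matrix.mul_one] using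
      ptMod_tr hy2 (H.inv_mem hg) H.one_mem
  · have h6 := cong_mul (((g⁻¹ : GL n k) : Matrix n n k).map (algebraMap k R)) hy3
    rwa [← Matrix.mul_assoc, ← Matrix.map_mul, Units.inv_mul,
      Matrix.map_one _ (map_zero _) (map_one _), Matrix.one_mul] at h6

theorem st_sm (k : Type u) [Field k] [IsAlgClosed k] (p : ℕ) [Fact p.Prime] [CharP k p]
    (n : Type) [Fintype n] [DecidableEq n] : S_sm k n :=
  fun _ hH R _ _ J N hN x hx h1 => sm_lift hH R J N hN x hx h1

end Pool.Agent.Lib.MP_3a0263_al.Q
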