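import Pool.Agent.Lib.MP_3a0263_al.Q.GBlue
import Pool.Agent.Lib.MP_3a0263_al.Q.ApiZ1

namespace Pool.Agent.Lib.MP_3a0263_al.Q

open Matrix Pool.Agent.Lib.MP_3a0263_al.R

universe u

namespace Stab

variable {k : Type u} [Field k] {n : Type} [Fintype n] [DecidableEq n]

/-- conjugation by `g` preserves `W` and fixes `y` modulo `W` -/
def Ok (W : Submodule k (Matrix n n k)) (y : Matrix n n k) (g : GL n k) : Prop :=
  (∀ v ∈ W, (g : Matrix n n k) * v * ((g⁻¹ : GL n k) : Matrix n n k) ∈ W) ∧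
    (g : Matrix n n k) * y * ((g⁻¹ : GL n k) : Matrix n n k) - y ∈ W

theorem Ok.mul {W : Submodule k (Matrix n n k)} {y : Matrix n n k} {g h : GL n k}
    (hg : Ok W y g) (hh : Ok W y h) : Ok W y (g * h) := by
  have e : ∀ v : Matrix n n k,
      ((g * h : GL n k) : Matrix n n k) * v * (((g * h)⁻¹ : GL n k) : Matrix n n k) =
        (g : Matrix n n k) * ((h : Matrix n n k) * v * ((h⁻¹ : GL n k) : Matrix n n k)) *
          ((g⁻¹ : GL n k) : Matrix n n k) := fun v => by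
    rw [_root_.mul_inv_rev, Units.val_mul, Units.val_mul]
    simp only [Matrix.mul_assoc]
  refine ⟨fun v hv => ?_, ?_⟩
  · rw [e]; exact hg.1 _ (hh.1 v hv)
  · have h1 := W.add_mem (hg.1 _ hh.2) hg.2
    rw [Matrix.mul_sub, Matrix.sub_mul, sub_add_sub_cancel] at h1
    rw [e]; exact h1

theorem ok_curve {G : Subgroup (GL n k)} {Ys : Submodule ℤ (n → ℤ)} {α : XX Ys} {e : Matrix n n k}
    {C : Curve G α e} (hC : AdF C) {W : Submodule k (Matrix n n k)} {y : Matrix n n k}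
    (h1 : ∀ r, ∀ v ∈ W, C.D r v ∈ W) (h2 : ∀ r, r ≠ 0 → C.D r y ∈ W) (z : k) :
    Ok W y (C.x z) := by
  refine ⟨fun v hv => ?_, ?_⟩
  · rw [hC.conj]
    exact W.sum_mem fun r _ => W.smul_mem _ (h1 r v hv)
  · obtain ⟨m, hm⟩ : ∃ m, 2 * C.N = m + 1 := ⟨2 * C.N - 1, by have := C.two; omega⟩
    rw [hC.conj, hm, Finset.sum_range_succ', pow_zero, one_smul, hC.zero, add_sub_cancel_right]
    exact W.sum_mem fun r _ => W.smul_mem _ (h2 _ (Nat.succ_ne_zero r))

end Stab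

theorem st_stab (k : Type u) [Field k] [IsAlgClosed k] (p : ℕ) [Fact p.Prime] [CharP k p]
    (n : Type) [Fintype n] [DecidableEq n] (had : S_ad k n) : S_stab k n := by
  intro G T α P W hW hT y hy hty
  refine P.dense _ (closed_conj y y W) fun z z' t ht => ?_
  have a1 : Stab.Ok W y (P.xm.x z) :=
    Stab.ok_curve (had G _ _ _ P.xm) (fun r v hv => (hW r v hv).2) (fun r hr => (hy r hr).2) z
  have a2 : Stab.Ok W y (P.xp.x z') :=
    Stab.ok_curve (had G _ _ _ P.xp) (fun r v hv => (hW r v hv).1) (fun r hr => (hy r hr).1) z'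
  have a3 : Stab.Ok W y t := ⟨hT t ht, hty t ht⟩
  exact ((a1.mul a3).mul a2).2

end Pool.Agent.Lib.MP_3a0263_al.Q
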