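import Pool.Agent.Lib.MP_3a0263_al.Q.GBlue

namespace Pool.Agent.Lib.MP_3a0263_al.Q

open Matrix Pool.Agent.Lib.MP_3a0263_al.R

universe u

namespace SYL

/-- in a finitely generated torsion group the commutator subgroup of a finite index subgroup has
finite index -/
theorem step {G : Type*} [Group G] [Group.FG G] (hG : IsMulTorsion G) (A : Subgroup G)
    [A.FiniteIndex] : (⁅A, A⁆ : Subgroup G).FiniteIndex := by
  have h1 : IsMulTorsion (Abelianization A) :=
    IsMulTorsion.of_surjective (f := Abelianization.of) (QuotientGroup.mk'_surjective _)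
      (hG.subgroup A)
  have h2 : Group.FG (Abelianization A) :=
    Group.fg_of_surjective (f := Abelianization.of) (QuotientGroup.mk'_surjective _)
  have h3 : Finite (Abelianization A) := CommGroup.finite_of_fg_isMulTorsion _ h1
  have h4 : Finite (A ⧸ commutator A) := h3
  have h5 : (commutator A).FiniteIndex := Subgroup.finiteIndex_of_finite_quotient
  rw [← Subgroup.map_subtype_commutator]
  exact ⟨by
    rw [Subgroup.index_map_subtype]
    exact mul_ne_zero h5.index_ne_zero Subgroup.FiniteIndex.index_ne_zero⟩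

variable {k : Type u} [Field k] {n : Type} [Fintype n] [DecidableEq n]

/-- stable under multiplication by `H` on both sides -/
structure Bi (H : Subgroup (GL n k)) (J : Submodule k (Matrix n n k)) : Prop where
  left : ∀ h ∈ H, ∀ x ∈ J, (h : Matrix n n k) * x ∈ J
  right : ∀ h ∈ H, ∀ x ∈ J, x * (h : Matrix n n k) ∈ J

theorem Bi.mul {H : Subgroup (GL n k)} {J J' : Submodule k (Matrix n n k)} (h : Bi H J)
    (h' : Bi H J') : Bi H (J * J') where
  left := fun g hg x hx => by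
    refine Submodule.mul_induction_on hx (fun a ha b hb => ?_) fun a b ha hb => ?_
    · rw [← mul_assoc]; exact Submodule.mul_mem_mul (h.left g hg a ha) hb
    · rw [mul_add]; exact add_mem ha hb
  right := fun g hg x hx => by
    refine Submodule.mul_induction_on hx (fun a ha b hb => ?_) fun a b ha hb => ?_
    · rw [mul_assoc]; exact Submodule.mul_mem_mul ha (h'.right g hg b hb)
    · rw [add_mul]; exact add_mem ha hb

theorem Bi.pow {H : Subgroup (GL n k)} {J : Submodule k (Matrix n n k)} (h : Bi H J) (i : ℕ) :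
    Bi H (J ^ 2 ^ i) := by
  induction i with
  | zero => simpa using h
  | succ i ih => rw [pow_succ, mul_two, pow_add]; exact ih.mul ih

/-- the congruence subgroup -/
def K {H : Subgroup (GL n k)} {J : Submodule k (Matrix n n k)} (h : Bi H J) :
    Subgroup (GL n k) where
  carrier := {g | g ∈ H ∧ (g : Matrix n n k) - 1 ∈ J}
  one_mem' := ⟨H.one_mem, by simp⟩
  mul_mem' := fun {a b} ha hb => ⟨H.mul_mem ha.1 hb.1, by
    have e : ((a * b : GL n k) : Matrix n n k) - 1 =
        ((a : Matrix n n k) - 1) * b + ((b : Matrix n n k) - 1) := by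
      rw [Units.val_mul]; noncomm_ring
    rw [e]
    exact add_mem (h.right b hb.1 _ ha.2) hb.2⟩
  inv_mem' := fun {a} ha => ⟨H.inv_mem ha.1, by
    have e : ((a⁻¹ : GL n k) : Matrix n n k) - 1 =
        -(((a : Matrix n n k) - 1) * ((a⁻¹ : GL n k) : Matrix n n k)) := by
      rw [sub_mul, Units.mul_inv, one_mul, neg_sub]
    rw [e]
    exact neg_mem (h.right _ (H.inv_mem ha.1) _ ha.2)⟩

theorem comm_mem {H : Subgroup (GL n k)} {J : Submodule k (Matrix n n k)} (h : Bi H J)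
    {a b : GL n k} (ha : a ∈ H) (hb : b ∈ H)
    (hab : (a : Matrix n n k) * b - b * a ∈ J) : a * b * a⁻¹ * b⁻¹ ∈ K h := by
  refine ⟨H.mul_mem (H.mul_mem (H.mul_mem ha hb) (H.inv_mem ha)) (H.inv_mem hb), ?_⟩
  have e : ((a * b * a⁻¹ * b⁻¹ : GL n k) : Matrix n n k) - 1 =
      ((a : Matrix n n k) * b - b * a) * ((a⁻¹ : GL n k) : Matrix n n k) *
        ((b⁻¹ : GL n k) : Matrix n n k) := by
    rw [sub_mul, sub_mul, mul_assoc (b : Matrix n n k), Units.mul_inv, mul_one, Units.mul_inv]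
    rfl
  rw [e]
  exact h.right _ (H.inv_mem hb) _ (h.right _ (H.inv_mem ha) _ hab)

theorem comm_K {H : Subgroup (GL n k)} {J : Submodule k (Matrix n n k)} (h : Bi H J)
    {a b : GL n k} (ha : a ∈ K h) (hb : b ∈ K h) :
    (a : Matrix n n k) * b - b * a ∈ J * J := by
  have e : (a : Matrix n n k) * b - b * a =
      ((a : Matrix n n k) - 1) * ((b : Matrix n n k) - 1) -
        ((b : Matrix n n k) - 1) * ((a : Matrix n n k) - 1) := by noncomm_ring
  rw [e]
  exact sub_mem (Submodule.mul_mem_mul ha.2 hb.2) (Submodule.mul_mem_mul hb.2 ha.2)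

theorem pow_eq_one (p : ℕ) [Fact p.Prime] [CharP k p] {N : ℕ} {g : GL n k}
    (h : ((g : Matrix n n k) - 1) ^ (N + 1) = 0) : g ^ p ^ (N + 1) = 1 := by
  refine Units.ext ?_
  rw [Units.val_pow_eq_pow_val, Units.val_one]
  cases isEmpty_or_nonempty n
  · exact Subsingleton.elim _ _
  have e := sub_pow_char_pow_of_commute p (N + 1) (Commute.one_right (g : Matrix n n k))
  rw [one_pow] at e
  refine sub_eq_zero.1 (e ▸ ?_)
  exact pow_eq_zero_of_le (Nat.lt_pow_self (Fact.out : p.Prime).one_lt).le h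

end SYL

open SYL in
theorem st_syl (k : Type u) [Field k] [IsAlgClosed k] (p : ℕ) [Fact p.Prime] [CharP k p]
    (n : Type) [Fintype n] [DecidableEq n] : S_syl k p n := by
  intro H E E' ⟨I, hI, hc⟩ hE hE' hfE hfE' q j hq hqp hx hx'
  have hB : Bi H I := ⟨hI.left, hI.right⟩
  obtain ⟨N, hN⟩ := hI.nil
  have hunip : ∀ g ∈ K hB, g ^ p ^ (N + 1) = 1 := fun g hg => by
    refine pow_eq_one p ?_
    have := Submodule.pow_mem_pow I hg.2 (N + 1)
    rwa [hN] at this
  have hfin : Finite ((E : Set (GL n k)) ∪ E' : Set (GL n k)) := (hfE.union hfE').to_subtype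
  obtain ⟨Γ, hΓ⟩ : ∃ Γ, Γ = Subgroup.closure ((E : Set (GL n k)) ∪ E') := ⟨_, rfl⟩
  have hfg : Group.FG Γ := hΓ ▸ Group.closure_finite_fg _
  have hΓH : Γ ≤ H := hΓ ▸ (Subgroup.closure_le _).2 (Set.union_subset hE hE')
  have hEΓ : E ≤ Γ := hΓ ▸ fun x hx => Subgroup.subset_closure (Or.inl hx)
  have hE'Γ : E' ≤ Γ := hΓ ▸ fun x hx => Subgroup.subset_closure (Or.inr hx)
  have htop : Subgroup.closure (((↑) : Γ → GL n k) ⁻¹' ((E : Set (GL n k)) ∪ E')) = ⊤ := by
    subst hΓ; exact Subgroup.closure_closure_coe_preimage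
  have hc0 : commutator Γ ≤ (K hB).subgroupOf Γ := by
    rw [commutator_def]
    exact Subgroup.commutator_le.2 fun a _ b _ =>
      comm_mem hB (hΓH a.2) (hΓH b.2) (hc _ (hΓH a.2) _ (hΓH b.2))
  have hpow : ∀ g : Γ, g ^ q ^ j ∈ commutator Γ := by
    have e : (powMonoidHom (q ^ j)).comp (Abelianization.of (G := Γ)) = 1 := by
      refine MonoidHom.eq_of_eqOn_dense htop fun g hg => ?_
      have : g ^ q ^ j = 1 := Subtype.ext (hg.elim (hx _) (hx' _))
      rw [MonoidHom.comp_apply, powMonoidHom_apply, ← map_pow, this, map_one, MonoidHom.one_apply]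
    intro g
    have e2 := DFunLike.congr_fun e g
    rw [MonoidHom.comp_apply, powMonoidHom_apply, ← map_pow, MonoidHom.one_apply] at e2
    rw [← Abelianization.ker_of]
    exact e2
  have htors : IsMulTorsion Γ := fun g => by
    refine isOfFinOrder_iff_pow_eq_one.2 ⟨q ^ j * p ^ (N + 1),
      mul_pos (pow_pos hq.pos _) (pow_pos (Fact.out : p.Prime).pos _), Subtype.ext ?_⟩
    rw [pow_mul]
    exact hunip _ (hc0 (hpow g))
  have hidx : ∀ i : ℕ, ((K (hB.pow i)).subgroupOf Γ).FiniteIndex := by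
    intro i
    induction i with
    | zero =>
      have := step htors ⊤
      refine Subgroup.finiteIndex_of_le (H := ⁅(⊤ : Subgroup Γ), ⊤⁆) fun g hg => ?_
      have h1 := hc0 hg
      exact ⟨h1.1, by simpa using h1.2⟩
    | succ i ih =>
      have := step htors ((K (hB.pow i)).subgroupOf Γ)
      refine Subgroup.finiteIndex_of_le
        (H := ⁅(K (hB.pow i)).subgroupOf Γ, (K (hB.pow i)).subgroupOf Γ⁆) ?_
      refine Subgroup.commutator_le.2 fun a ha b hb => comm_mem (hB.pow (i + 1)) ha.1 hb.1 ?_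
      rw [pow_succ, mul_two, pow_add]
      exact comm_K (hB.pow i) ha hb
  have hbot : (K (hB.pow (N + 1))).subgroupOf Γ = ⊥ := by
    refine eq_bot_iff.2 fun g hg => Subtype.ext (Units.ext (sub_eq_zero.1 ?_))
    obtain ⟨r, hr⟩ := Nat.exists_eq_add_of_le (Nat.lt_two_pow_self (n := N + 1)).le
    have h1 := hg.2
    rwa [hr, pow_add, hN, Submodule.bot_mul] at h1
  have hΓf : Finite Γ := by
    have h1 := (hidx (N + 1)).index_ne_zero
    rw [hbot, Subgroup.index_bot] at h1
    exact Nat.finite_of_card_ne_zero h1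
  have hq' : Fact q.Prime := ⟨hq⟩
  obtain ⟨Q, hQ⟩ := IsPGroup.exists_le_sylow (p := q) (P := E.subgroupOf Γ) fun g =>
    ⟨j, Subtype.ext (Subtype.ext (hx _ g.2))⟩
  obtain ⟨Q', hQ'⟩ := IsPGroup.exists_le_sylow (p := q) (P := E'.subgroupOf Γ) fun g =>
    ⟨j, Subtype.ext (Subtype.ext (hx' _ g.2))⟩
  obtain ⟨h, hh⟩ := MulAction.exists_smul_eq Γ Q' Q
  have hab : ∀ a ∈ (Q : Subgroup Γ), ∀ b ∈ (Q : Subgroup Γ), a * b = b * a := by
    intro a ha b hb
    have hm : a * b * a⁻¹ * b⁻¹ ∈ (Q : Subgroup Γ) :=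
      mul_mem (mul_mem (mul_mem ha hb) (inv_mem ha)) (inv_mem hb)
    obtain ⟨r, hr⟩ := Q.2 ⟨_, hm⟩
    have h1 : (a * b * a⁻¹ * b⁻¹) ^ q ^ r = 1 := congrArg Subtype.val hr
    have h2 : (a * b * a⁻¹ * b⁻¹) ^ p ^ (N + 1) = 1 := Subtype.ext
      (hunip _ (comm_mem hB (hΓH a.2) (hΓH b.2) (hc _ (hΓH a.2) _ (hΓH b.2))))
    have h3 : Nat.Coprime (q ^ r) (p ^ (N + 1)) :=
      Nat.Coprime.pow _ _ ((Nat.coprime_primes hq Fact.out).2 hqp)
    have h4 := pow_gcd_eq_one.2 ⟨h1, h2⟩
    rw [h3.gcd_eq_one, pow_one, mul_inv_eq_one, mul_inv_eq_iff_eq_mul] at h4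
    exact h4
  refine ⟨h, hΓH h.2, fun x hxE y hyE => ?_⟩
  have hy : h * ⟨y, hE'Γ hyE⟩ * h⁻¹ ∈ (Q : Subgroup Γ) := by
    rw [← hh, Sylow.coe_subgroup_smul]
    exact Subgroup.smul_mem_pointwise_smul _ (MulAut.conj h) _ (hQ' hyE)
  exact congrArg Subtype.val (hab ⟨x, hEΓ hxE⟩ (hQ hxE) _ hy)

end Pool.Agent.Lib.MP_3a0263_al.Q
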