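import Pool.Agent.Lib.MP_3a0263_al.Q.GBlue
import Pool.Agent.Lib.MP_3a0263_al.Q.ApiC

namespace Pool.Agent.Lib.MP_3a0263_al.Q

open Matrix Pool.Agent.Lib.MP_3a0263_al.R

universe u

namespace TA

variable {k : Type u} [Field k] {n : Type} [Fintype n] [DecidableEq n]

theorem dg_inj {d e : n → kˣ} (h : dg d = dg e) : d = e := by
  funext i
  have h1 : (dg d : Matrix n n k) i i = (dg e : Matrix n n k) i i := by rw [h]
  rw [dg_val, dg_val, diagonal_apply_eq, diagonal_apply_eq] at h1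
  exact Units.ext h1

/-- the character with exponents `c` -/
def ch (c : n → ℤ) : (n → kˣ) →* kˣ where
  toFun d := ∏ i, d i ^ c i
  map_one' := by simp
  map_mul' d e := by simp [mul_zpow, Finset.prod_mul_distrib]

omit [Fintype n] [DecidableEq n] in
theorem prod_zpow (s : kˣ) (F : Finset n) (a : n → ℤ) : ∏ i ∈ F, s ^ a i = s ^ ∑ i ∈ F, a i := by
  classical
  induction F using Finset.induction_on with
  | empty => simp
  | insert i F hi ih => rw [Finset.prod_insert hi, Finset.sum_insert hi, ih, _root_.zpow_add]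

theorem gen (hlat3 : S_lat3 k n) {T : Subgroup (GL n k)} (hT : IsTorus T) (hd : IsDiagG T)
    (P : Subgroup (GL n k)) (hP : ∀ (l : Y T) (s : kˣ), coch l.1 s ∈ P) : T ≤ P := by
  obtain ⟨D, hD⟩ := closed_deg hT.1.1
  obtain ⟨F, hF1, hF2⟩ := hD 1
  rw [cjs_one] at hF2
  obtain ⟨e, -, he⟩ := hlat3 D
  obtain ⟨T0, h1, -, -, -, h5, h6⟩ := he T F hF1 hF2
  have h7 : T0 = T := le_antisymm h1 (h5 T le_rfl hd hT.1)
  subst h7
  exact h6 P hP

theorem rel {T : Subgroup (GL n k)}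
    (hg : ∀ P : Subgroup (GL n k), (∀ (l : Y T) (s : kˣ), coch l.1 s ∈ P) → T ≤ P)
    (c : n → ℤ) (hc : ∀ l : Y T, ∑ i, c i * l.1 i = 0) (d : n → kˣ) (hd : dg d ∈ T) :
    ∏ i, d i ^ c i = 1 := by
  obtain ⟨e, he, h⟩ := hg ((ch c).ker.map dgHom) (fun l s => ⟨fun i => s ^ l.1 i, by
    show ∏ i, (s ^ l.1 i) ^ c i = 1
    simp only [← _root_.zpow_mul]
    rw [prod_zpow, Finset.sum_congr rfl fun i _ => mul_comm (l.1 i) (c i), hc l, zpow_zero],
    rfl⟩) hd
  rw [← dg_inj (show dg e = dg d from h)]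
  exact he

theorem div [IsAlgClosed k] {T : Subgroup (GL n k)} (hT : IsTorus T)
    (hg : ∀ P : Subgroup (GL n k), (∀ (l : Y T) (s : kˣ), coch l.1 s ∈ P) → T ≤ P)
    (m : ℕ) (hm : m ≠ 0) (t : GL n k) (ht : t ∈ T) : ∃ t' ∈ T, t' ^ m = t := by
  let P : Subgroup (GL n k) :=
    { carrier := {t | ∃ t' ∈ T, t' ^ m = t}
      one_mem' := ⟨1, T.one_mem, one_pow m⟩
      mul_mem' := by
        rintro _ _ ⟨a, ha, rfl⟩ ⟨b, hb, rfl⟩
        exact ⟨a * b, T.mul_mem ha hb, Commute.mul_pow (hT.2.1 a ha b hb) m⟩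
      inv_mem' := by
        rintro _ ⟨a, ha, rfl⟩
        exact ⟨a⁻¹, T.inv_mem ha, inv_pow a m⟩ }
  refine hg P (fun l s => ?_) ht
  obtain ⟨r, hr⟩ := IsAlgClosed.exists_pow_nat_eq (s : k) (Nat.pos_of_ne_zero hm)
  have hr0 : r ≠ 0 := by
    rintro rfl
    exact s.ne_zero (by rw [← hr, zero_pow hm])
  refine ⟨coch l.1 (Units.mk0 r hr0), l.2 _, ?_⟩
  have e : Units.mk0 r hr0 ^ m = s := Units.ext (by simpa using hr)
  rw [← e]
  refine ((map_pow dgHom (fun i => Units.mk0 r hr0 ^ l.1 i) m).symm).trans (congrArg dg ?_)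
  funext i
  rw [Pi.pow_apply, ← zpow_natCast, ← zpow_natCast, ← _root_.zpow_mul, ← _root_.zpow_mul,
    mul_comm]

theorem sum_single (i : n) (l : n → ℤ) :
    ∑ a, (Pi.single i 1 : n → ℤ) a * l a = l i := by
  simp [Pi.single_apply]

theorem prod_single (i : n) (d : n → kˣ) :
    ∏ a, d a ^ (Pi.single i 1 : n → ℤ) a = d i := by
  rw [Finset.prod_eq_single i (fun b _ hb => by simp [Pi.single_eq_of_ne hb]) (by simp)]
  simp

theorem ratio {T : Subgroup (GL n k)}
    (hg : ∀ P : Subgroup (GL n k), (∀ (l : Y T) (s : kˣ), coch l.1 s ∈ P) → T ≤ P)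
    {i j i' j' : n} (h : eps (Y T) i - eps (Y T) j = eps (Y T) i' - eps (Y T) j')
    (d : n → kˣ) (hd : dg d ∈ T) : d i * (d j)⁻¹ = d i' * (d j')⁻¹ := by
  have h1 := rel hg (Pi.single i 1 - Pi.single j 1 - (Pi.single i' 1 - Pi.single j' 1))
    (fun l => by
      have h2 := DFunLike.congr_fun h l
      simp only [LinearMap.sub_apply, eps_apply] at h2
      simp only [Pi.sub_apply, sub_mul, Finset.sum_sub_distrib, sum_single]
      omega) d hd
  simp only [Pi.sub_apply, _root_.zpow_sub, Finset.prod_mul_distrib, Finset.prod_inv_distrib,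
    prod_single] at h1
  exact mul_inv_eq_one.1 h1

theorem conj_apply (d : n → kˣ) (x : Matrix n n k) (i j : n) :
    ((dg d : GL n k) * x * ((dg d)⁻¹ : GL n k) : Matrix n n k) i j =
      ((d i * (d j)⁻¹ : kˣ) : k) * x i j := by
  rw [← dg_inv, dg_val, dg_val, mul_diagonal, diagonal_mul, Pi.inv_apply]
  push_cast; ring

end TA

theorem st_ta (k : Type u) [Field k] [IsAlgClosed k] (p : ℕ) [Fact p.Prime] [CharP k p] (n : Type)
    [Fintype n] [DecidableEq n] (hlat3 : S_lat3 k n) : S_ta k n := by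
  intro T hT hd
  have hg := TA.gen hlat3 hT hd
  have heq : ∀ i j, eps (Y T) i = eps (Y T) j → ∀ d, dg d ∈ T → d i = d j := fun i j h d hd' => by
    have h1 := TA.ratio hg (i := i) (j := j) (i' := j) (j' := j) (by rw [h]) d hd'
    exact mul_right_cancel h1
  refine ⟨hg, TA.div hT hg, TA.rel hg, heq, fun b x hx t ht => ?_, fun x hx t ht => ?_⟩
  · obtain ⟨d, rfl⟩ := hd t ht
    by_cases h0 : ∃ i j, x i j ≠ 0
    · obtain ⟨i0, j0, h0⟩ := h0
      refine ⟨((d i0 * (d j0)⁻¹ : kˣ) : k), Matrix.ext fun i j => ?_⟩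
      rw [TA.conj_apply, Matrix.smul_apply, smul_eq_mul]
      by_cases h1 : x i j = 0
      · rw [h1, mul_zero, mul_zero]
      · rw [TA.ratio hg ((hx i j h1).trans (hx i0 j0 h0).symm) d ht]
    · push Not at h0
      refine ⟨0, Matrix.ext fun i j => ?_⟩
      rw [TA.conj_apply, h0, Matrix.smul_apply, h0, mul_zero, smul_zero]
  · obtain ⟨d, rfl⟩ := hd t ht
    refine Matrix.ext fun i j => ?_
    rw [dg_val, mul_diagonal, diagonal_mul]
    by_cases h1 : x i j = 0
    · rw [h1, mul_zero, zero_mul]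
    · rw [heq i j (sub_eq_zero.1 (hx i j h1)) d ht, mul_comm]

end Pool.Agent.Lib.MP_3a0263_al.Q
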