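import Pool.Agent.Lib.MP_3a0263_al.Q.GBlue

namespace Pool.Agent.Lib.MP_3a0263_al.Q

open Matrix Pool.Agent.Lib.MP_3a0263_al.R

universe u

namespace Tb

variable {k : Type u} [Field k] {n : Type} [Fintype n] [DecidableEq n]

theorem offdiag {T : Subgroup (GL n k)} (hT : IsDiagG T) {x : Matrix n n k} (hx : x ∈ lie T)
    {i j : n} (h : i ≠ j) : x i j = 0 := by
  have h1 := hx (MvPolynomial.X (i, j)) (mem_vanish.2 fun g hg => by
    obtain ⟨d, rfl⟩ := hT g hg
    simp [entries, dg_val, diagonal_apply_ne _ h])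
  have h2 := congrArg TrivSqZeroExt.snd h1
  simpa using h2

/-- `z ↦ 1 + ε z` -/
def E (k : Type u) [Field k] : Multiplicative k →* DualNumber k where
  toFun z := TrivSqZeroExt.inl 1 + TrivSqZeroExt.inr z.toAdd
  map_one' := by simp
  map_mul' a b := by ext <;> simp [add_comm]

omit [DecidableEq n] in
theorem prod_dual (a : n → ℕ) (d : n → k) :
    (∏ i, (TrivSqZeroExt.inl 1 + TrivSqZeroExt.inr (d i) : DualNumber k) ^ a i).snd =
      ∑ i, (a i : k) * d i := by
  have h : ∏ i, (TrivSqZeroExt.inl 1 + TrivSqZeroExt.inr (d i) : DualNumber k) ^ a i =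
      E k (Multiplicative.ofAdd (∑ i, a i • d i)) := by
    rw [ofAdd_sum, map_prod]
    exact Finset.prod_congr rfl fun i _ => by rw [ofAdd_nsmul, map_pow]; rfl
  rw [h]
  change (TrivSqZeroExt.inl 1 + TrivSqZeroExt.inr (∑ i, a i • d i) : DualNumber k).snd = _
  rw [TrivSqZeroExt.snd_add, TrivSqZeroExt.snd_inl, TrivSqZeroExt.snd_inr, zero_add]
  exact Finset.sum_congr rfl fun i _ => nsmul_eq_mul _ _

theorem rel {T : Subgroup (GL n k)} (hT : IsDiagG T) (c : n → ℤ)
    (hc : ∀ d, dg d ∈ T → ∏ i, d i ^ c i = 1) {d : n → k} (hd : d ∈ tl T) :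
    ∑ i, (c i : k) * d i = 0 := by
  have h1 := mem_tl.1 hd (∏ i, MvPolynomial.X (i, i) ^ (c i).toNat -
      ∏ i, MvPolynomial.X (i, i) ^ (-c i).toNat) (mem_vanish.2 fun g hg => by
    obtain ⟨e, rfl⟩ := hT g hg
    have h2 : ∏ i, e i ^ (c i).toNat = ∏ i, e i ^ (-c i).toNat := by
      rw [← div_eq_one, ← Finset.prod_div_distrib, ← hc e hg]
      refine Finset.prod_congr rfl fun i _ => ?_
      rw [← zpow_natCast, ← zpow_natCast, div_eq_mul_inv, ← _root_.zpow_sub, Int.toNat_sub_toNat_neg]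
    have h3 := congrArg (fun x : kˣ => (x : k)) h2
    simp only [Units.coe_prod, Units.val_pow_eq_pow_val] at h3
    simp [entries, dg_val, h3])
  have h2 := congrArg TrivSqZeroExt.snd h1
  simp only [map_sub, map_prod, map_pow, MvPolynomial.aeval_X, diagonal_apply_eq, one_apply_eq,
    TrivSqZeroExt.snd_sub, prod_dual, TrivSqZeroExt.snd_zero] at h2
  rw [← h2, ← Finset.sum_sub_distrib]
  refine Finset.sum_congr rfl fun i _ => ?_
  rw [← sub_mul, ← Int.cast_natCast (c i).toNat, ← Int.cast_natCast (-c i).toNat, ← Int.cast_sub,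
    Int.toNat_sub_toNat_neg]

theorem cast_mem [Infinite k] {T : Subgroup (GL n k)} {l : n → ℤ} (hl : l ∈ Y T) :
    (fun i => (l i : k)) ∈ tl T := by
  have hU : ∀ s : kˣ, evM s (diagonal fun i => (LaurentPolynomial.T (l i) : LaurentPolynomial k)) =
      (coch l s : GL n k) := fun s => by
    ext i j
    rw [evM_apply, coch_val]
    by_cases h : i = j
    · subst h; rw [diagonal_apply_eq, diagonal_apply_eq, ev_T]
    · rw [diagonal_apply_ne _ h, diagonal_apply_ne _ h, map_zero]
  have h := tan_mem_lie (G := T)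
    (U := diagonal fun i => (LaurentPolynomial.T (l i) : LaurentPolynomial k))
    (by rw [hU, coch_val]; simp) (by
      rintro g ⟨s, hs⟩
      rw [hU] at hs
      rw [Units.ext hs]
      exact hl s)
  rw [mem_tl]
  have e : tan (diagonal fun i => (LaurentPolynomial.T (l i) : LaurentPolynomial k)) =
      diagonal fun i => (l i : k) := by
    ext i j
    rw [tan_apply]
    by_cases h : i = j
    · subst h; rw [diagonal_apply_eq, diagonal_apply_eq, der_T]
    · rw [diagonal_apply_ne _ h, diagonal_apply_ne _ h]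
      exact map_zero derL
  rwa [e] at h

theorem sat [IsAlgClosed k] {T : Subgroup (GL n k)} {m : ℕ} (hm : m ≠ 0) {l : n → ℤ}
    (hl : (m : ℤ) • l ∈ Y T) : l ∈ Y T := fun s => by
  obtain ⟨r, hr⟩ := IsAlgClosed.exists_pow_nat_eq (s : k) (Nat.pos_of_ne_zero hm)
  have hr0 : r ≠ 0 := by
    rintro rfl
    exact s.ne_zero (by rw [← hr, zero_pow hm])
  have h := hl (Units.mk0 r hr0)
  rw [coch_smul, zpow_natCast] at h
  rwa [show s = Units.mk0 r hr0 ^ m from Units.ext (by simp [hr])]

omit [Fintype n] [DecidableEq n] in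
theorem indep_mod {p : ℕ} {Ys : Submodule ℤ (n → ℤ)}
    (hs : ∀ l : n → ℤ, (p : ℤ) • l ∈ Ys → l ∈ Ys) {ι : Type} [Fintype ι]
    (b : Module.Basis ι ℤ Ys) :
    LinearIndependent (ZMod p) fun j i => (((b j).1 i : ℤ) : ZMod p) := by
  rw [Fintype.linearIndependent_iff]
  intro g hg j
  choose c hc using fun j => ZMod.intCast_surjective (g j)
  have h1 : ∀ i, (p : ℤ) ∣ (∑ j, c j • b j : Ys).1 i := fun i => by
    rw [← ZMod.intCast_zmod_eq_zero_iff_dvd]
    have := congrFun hg i
    simpa [← hc, Finset.sum_apply] using this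
  choose w hw using h1
  have h2 : (∑ j, c j • b j : Ys).1 = (p : ℤ) • w := funext hw
  have h3 : w ∈ Ys := hs w (h2 ▸ (∑ j, c j • b j : Ys).2)
  have h4 : (∑ j, c j • b j : Ys) = (p : ℤ) • ⟨w, h3⟩ := Subtype.ext h2
  have h5 := congrArg (fun y => b.repr y j) h4
  simp only [Module.Basis.repr_sum_self, map_smul, Finsupp.smul_apply, smul_eq_mul] at h5
  rw [← hc, h5]
  simp

end Tb

theorem st_tb (k : Type u) [Field k] [IsAlgClosed k] (p : ℕ) [Fact p.Prime] [CharP k p] (n : Type)
    [Fintype n] [DecidableEq n] (hta : S_ta k n) : S_tb k n := by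
  intro T hT hD
  have hp : p ≠ 0 := (Fact.out : p.Prime).ne_zero
  refine ⟨fun x hx => ?_, fun c hc d hd => Tb.rel hD c ((hta T hT hD).rel c hc) hd, ?_⟩
  · have e : x = diagonal x.diag := by
      ext i j
      by_cases h : i = j
      · subst h; simp
      · rw [diagonal_apply_ne _ h, Tb.offdiag hD hx h]
    exact ⟨x.diag, mem_tl.2 (e ▸ hx), e⟩
  · let _ := ZMod.algebra k p
    let b := Module.finBasis ℤ (Y T)
    have h1 := (linearIndependent_algebraMap_comp_iff (S := k)).2
      (Tb.indep_mod (fun l => Tb.sat hp) b)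
    have h2 : LinearIndependent k fun j =>
        (⟨fun i => (((b j).1 i : ℤ) : k), Tb.cast_mem (b j).2⟩ : tl T) := by
      refine LinearIndependent.of_comp (tl T).subtype ?_
      have e : ((tl T).subtype ∘ fun j =>
          (⟨fun i => (((b j).1 i : ℤ) : k), Tb.cast_mem (b j).2⟩ : tl T)) =
          fun j => algebraMap (ZMod p) k ∘ fun i => (((b j).1 i : ℤ) : ZMod p) := by
        funext j i
        simp
      rwa [e]
    simpa using h2.fintype_card_le_finrank

end Pool.Agent.Lib.MP_3a0263_al.Q
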