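import Pool.Agent.Lib.MP_3a0263_al.Q.GBlue
import Pool.Agent.Lib.MP_3a0263_al.Q.ApiL
import Pool.Agent.Lib.MP_3a0263_al.Q.ApiZ1

namespace Pool.Agent.Lib.MP_3a0263_al.Q

open Matrix Pool.Agent.Lib.MP_3a0263_al.R

universe u

namespace TC

variable {k : Type u} [Field k] {n : Type} [Fintype n] [DecidableEq n]

theorem exists_ne (g : GL n k) (i : n) : ∃ j, (g : Matrix n n k) i j ≠ 0 := by
  by_contra h
  push Not at h
  have h1 := congrFun (congrFun g.mul_inv i) i
  rw [Matrix.mul_apply, one_apply_eq] at h1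
  simp [h] at h1

theorem diag_eq {g : GL n k} {d d' : n → k}
    (h : (g : Matrix n n k) * diagonal d * ((g⁻¹ : GL n k) : Matrix n n k) = diagonal d')
    {i j : n} (hij : (g : Matrix n n k) i j ≠ 0) : d' i = d j := by
  have h1 : (g : Matrix n n k) * diagonal d = diagonal d' * g := by
    rw [← h, Matrix.mul_assoc, Units.inv_mul, Matrix.mul_one]
  have h2 := congrFun (congrFun h1 i) j
  rw [mul_diagonal, diagonal_mul, mul_comm] at h2
  exact (mul_right_cancel₀ hij h2).symm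

theorem dg_eq {g : GL n k} {d d' : n → kˣ} (h : g * dg d * g⁻¹ = dg d')
    {i j : n} (hij : (g : Matrix n n k) i j ≠ 0) : d' i = d j :=
  Units.ext (diag_eq (d := fun i => (d i : k)) (d' := fun i => (d' i : k))
    (congrArg Units.val h) hij)

theorem coch_inj [Infinite k] {l l' : n → ℤ} (h : ∀ s : kˣ, coch l s = coch l' s) : l = l' :=
  funext fun i => zpow_inj (k := k) fun s => Units.ext (by
    have h1 := congrArg (fun g : GL n k => (g : Matrix n n k) i i) (h s)
    rwa [coch_val, coch_val, diagonal_apply_eq, diagonal_apply_eq] at h1)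

theorem exists_lin {T : Subgroup (GL n k)} (hT : IsDiagG T) {g : GL n k}
    (h : ∀ t ∈ T, g * t * g⁻¹ ∈ T) :
    ∃ w : Y T →ₗ[ℤ] Y T, ∀ (l : Y T) (s : kˣ), g * coch l.1 s * g⁻¹ = coch (w l).1 s := by
  choose σ hσ using exists_ne g
  have h1 : ∀ (l : Y T) (s : kˣ), g * coch l.1 s * g⁻¹ = coch (l.1 ∘ σ) s := fun l s => by
    obtain ⟨d, hd⟩ := hT _ (h _ (l.2 s))
    rw [hd]
    exact congrArg dg (funext fun i => dg_eq hd (hσ i))
  exact ⟨⟨⟨fun l => ⟨l.1 ∘ σ, fun s => h1 l s ▸ h _ (l.2 s)⟩, fun _ _ => rfl⟩, fun _ _ => rfl⟩, h1⟩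

theorem norm [Infinite k] {T : Subgroup (GL n k)} (hT : IsDiagG T) (g : GL n k)
    (h : ∀ t, t ∈ T ↔ g * t * g⁻¹ ∈ T) : ∃ w, Act T g w := by
  obtain ⟨w, hw⟩ := exists_lin hT fun t ht => (h t).1 ht
  obtain ⟨w', hw'⟩ := exists_lin hT (g := g⁻¹) fun t ht => (h _).2 (by simpa [mul_assoc] using ht)
  refine ⟨LinearEquiv.ofLinearMap w w'
    (LinearMap.ext fun l => Subtype.ext (coch_inj (k := k) fun s => ?_))
    (LinearMap.ext fun l => Subtype.ext (coch_inj (k := k) fun s => ?_)), h, hw⟩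
  · rw [LinearMap.comp_apply, ← hw, ← hw']
    simp [mul_assoc]
  · rw [LinearMap.comp_apply, ← hw', ← hw]
    simp [mul_assoc]

theorem act_apply [Infinite k] {T : Subgroup (GL n k)} {g : GL n k} {w : Y T ≃ₗ[ℤ] Y T}
    (h : Act T g w) (l : Y T) {i j : n} (hij : (g : Matrix n n k) i j ≠ 0) :
    (w l).1 i = l.1 j :=
  zpow_inj (k := k) fun s => dg_eq (h.coch l s) hij

theorem gen [Infinite k] {T : Subgroup (GL n k)} {g : GL n k} {w : Y T ≃ₗ[ℤ] Y T}
    (h : Act T g w) {l : Y T} (hl : Gen l) : Gen (w l) := by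
  choose σ hσ using exists_ne g
  intro i j hij
  rw [act_apply h l (hσ i), act_apply h l (hσ j)] at hij
  refine LinearMap.ext fun l' => ?_
  obtain ⟨l'', rfl⟩ := w.surjective l'
  rw [eps_apply, eps_apply, act_apply h l'' (hσ i), act_apply h l'' (hσ j)]
  exact LinearMap.congr_fun (hl _ _ hij) l''

theorem wt [Infinite k] {T : Subgroup (GL n k)} {g : GL n k} {w : Y T ≃ₗ[ℤ] Y T}
    (h : Act T g w) {a : XX (Y T)} {x : Matrix n n k} (hx : Wt a x) :
    Wt (a ∘ₗ w.symm.toLinearMap)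
      ((g : Matrix n n k) * x * ((g⁻¹ : GL n k) : Matrix n n k)) := by
  refine wt_of_conj fun l s => ?_
  have h1 := h.coch (w.symm l) s
  rw [w.apply_symm_apply] at h1
  have h2 := hx.conj (w.symm l) s
  have h3 : coch l.1 s * g = g * coch (w.symm l).1 s := by rw [← h1, inv_mul_cancel_right]
  have h4 : g⁻¹ * (coch l.1 s)⁻¹ = (coch (w.symm l).1 s)⁻¹ * g⁻¹ := by
    rw [← _root_.mul_inv_rev, h3, _root_.mul_inv_rev]
  calc ((coch l.1 s : GL n k) : Matrix n n k) *
        ((g : Matrix n n k) * x * ((g⁻¹ : GL n k) : Matrix n n k)) *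
        (((coch l.1 s)⁻¹ : GL n k) : Matrix n n k)
      = ((coch l.1 s * g : GL n k) : Matrix n n k) * x *
        ((g⁻¹ * (coch l.1 s)⁻¹ : GL n k) : Matrix n n k) := by
        simp only [Units.val_mul, Matrix.mul_assoc]
    _ = (g : Matrix n n k) * (((coch (w.symm l).1 s : GL n k) : Matrix n n k) * x *
        (((coch (w.symm l).1 s)⁻¹ : GL n k) : Matrix n n k)) *
        ((g⁻¹ : GL n k) : Matrix n n k) := by
        rw [h3, h4]; simp only [Units.val_mul, Matrix.mul_assoc]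
    _ = _ := by rw [h2, Matrix.mul_smul, Matrix.smul_mul]; rfl

omit [Field k] in
theorem sum_four {R : Type*} [CommRing R] (a b c d : n) (x : n → R) :
    ∑ i, (((Pi.single a 1 - Pi.single b 1 - Pi.single c 1 + Pi.single d 1 : n → ℤ) i : ℤ) : R) *
      x i = x a - x b - x c + x d := by
  simp [Pi.single_apply, sub_mul, add_mul, Finset.sum_add_distrib, Finset.sum_sub_distrib]

theorem tl_conj [Infinite k] {T : Subgroup (GL n k)} (hB : TorB T) {g : GL n k}
    {w : Y T ≃ₗ[ℤ] Y T} (h : Act T g w) {d : n → k} (hd : d ∈ tl T) : ∃ d' ∈ tl T,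
    (g : Matrix n n k) * diagonal d * ((g⁻¹ : GL n k) : Matrix n n k) = diagonal d' ∧
    ∀ i j i' j', (eps (Y T) i - eps (Y T) j) ∘ₗ w.toLinearMap = eps (Y T) i' - eps (Y T) j' →
      d' i - d' j = d i' - d j' := by
  obtain ⟨d', hd', e⟩ := hB.diag _ (conj_mem_lie (fun x hx => (h.norm x).1 hx) (mem_tl.1 hd))
  refine ⟨d', hd', e, fun i j i' j' hw => ?_⟩
  choose σ hσ using exists_ne g
  rw [diag_eq e (hσ i), diag_eq e (hσ j)]
  have h1 := hB.rel (Pi.single (σ i) 1 - Pi.single (σ j) 1 - Pi.single i' 1 + Pi.single j' 1)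
    (fun l => by
      have h2 : (w l).1 i - (w l).1 j = l.1 i' - l.1 j' := LinearMap.congr_fun hw l
      rw [act_apply h l (hσ i), act_apply h l (hσ j)] at h2
      have h3 := sum_four (σ i) (σ j) i' j' l.1
      simp only [Int.cast_id] at h3
      rw [h3]
      omega) d hd
  rw [sum_four] at h1
  linear_combination h1

end TC

theorem st_tc (k : Type u) [Field k] [IsAlgClosed k] (p : ℕ) [Fact p.Prime] [CharP k p] (n : Type)
    [Fintype n] [DecidableEq n] (htb : S_tb k n) : S_tc k n := fun T hT hD =>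
  ⟨TC.norm hD, fun _ _ h _ hl => TC.gen h hl, fun _ _ h _ _ hx => TC.wt h hx,
    fun _ _ h _ hd => TC.tl_conj (htb T hT hD) h hd⟩

end Pool.Agent.Lib.MP_3a0263_al.Q
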