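import Pool.Agent.Lib.MP_3a0263_al.Q.GBlue
import Pool.Agent.Lib.MP_3a0263_al.Q.ApiP

/-! Row theta: a change of formal coordinates tangent to the identity. -/

namespace Pool.Agent.Lib.MP_3a0263_al.Q

open Matrix Pool.Agent.Lib.MP_3a0263_al.R

universe u

namespace Theta

variable {k : Type u} [Field k] {d : ℕ} {θ : MvPolynomial (Fin d) k →ₐ[k] MvPolynomial (Fin d) k}

theorem sq_le : mm k d ^ 2 ≤ mm k d := Ideal.pow_le_self (by norm_num)

theorem sub0 (h : ∀ i, θ (MvPolynomial.X i) - MvPolynomial.X i ∈ mm k d ^ 2)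
    (P : MvPolynomial (Fin d) k) : θ P - P ∈ mm k d := by
  induction P using MvPolynomial.induction_on with
  | C a => rw [MvPolynomial.algHom_C, MvPolynomial.algebraMap_eq, sub_self]; exact zero_mem _
  | add p q hp hq => rw [map_add, add_sub_add_comm]; exact add_mem hp hq
  | mul_X p i hp =>
    rw [map_mul, show ∀ a b c e : MvPolynomial (Fin d) k, a * b - c * e = (a - c) * b + c * (b - e)
      from fun a b c e => by ring]
    exact add_mem (Ideal.mul_mem_right _ _ hp) (Ideal.mul_mem_left _ _ (sq_le (h i)))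

theorem map_mem1 (h : ∀ i, θ (MvPolynomial.X i) - MvPolynomial.X i ∈ mm k d ^ 2)
    {P : MvPolynomial (Fin d) k} (hP : P ∈ mm k d) : θ P ∈ mm k d := by
  have := add_mem (sub0 h P) hP
  rwa [sub_add_cancel] at this

theorem sub1 (h : ∀ i, θ (MvPolynomial.X i) - MvPolynomial.X i ∈ mm k d ^ 2)
    {P : MvPolynomial (Fin d) k} (hP : P ∈ mm k d) : θ P - P ∈ mm k d ^ 2 := by
  induction hP using Submodule.span_induction with
  | mem x hx => obtain ⟨i, rfl⟩ := hx; exact h i
  | zero => rw [map_zero, sub_self]; exact zero_mem _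
  | add p q _ _ hp hq => rw [map_add, add_sub_add_comm]; exact add_mem hp hq
  | smul c b hb ih =>
    rw [smul_eq_mul, map_mul, show ∀ a b c e : MvPolynomial (Fin d) k,
      a * b - c * e = (a - c) * b + c * (b - e) from fun a b c e => by ring]
    refine add_mem ?_ (Ideal.mul_mem_left _ _ ih)
    rw [sq]
    exact Ideal.mul_mem_mul (sub0 h c) (map_mem1 h hb)

theorem subr (h : ∀ i, θ (MvPolynomial.X i) - MvPolynomial.X i ∈ mm k d ^ 2) (r : ℕ) :
    ∀ P ∈ mm k d ^ r, θ P - P ∈ mm k d ^ (r + 1) := by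
  induction r with
  | zero => intro P _; rw [zero_add, pow_one]; exact sub0 h P
  | succ r ih =>
    intro P hP
    rw [pow_succ] at hP
    refine Submodule.mul_induction_on hP (fun a ha b hb => ?_) fun p q hp hq => ?_
    · rw [map_mul, show ∀ a b c e : MvPolynomial (Fin d) k,
        a * b - c * e = (a - c) * b + c * (b - e) from fun a b c e => by ring]
      refine add_mem ?_ ?_
      · rw [pow_succ _ (r + 1)]
        exact Ideal.mul_mem_mul (ih a ha) (map_mem1 h hb)
      · rw [add_assoc, pow_add]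
        exact Ideal.mul_mem_mul ha (sub1 h hb)
    · rw [map_add, add_sub_add_comm]; exact add_mem hp hq

theorem map_mem (h : ∀ i, θ (MvPolynomial.X i) - MvPolynomial.X i ∈ mm k d ^ 2) (r : ℕ) :
    ∀ P ∈ mm k d ^ r, θ P ∈ mm k d ^ r := by
  intro P hP
  have := add_mem (Ideal.pow_le_pow_right (Nat.le_succ r) (subr h r P hP)) hP
  rwa [sub_add_cancel] at this

theorem of_map_mem (h : ∀ i, θ (MvPolynomial.X i) - MvPolynomial.X i ∈ mm k d ^ 2) {N : ℕ}
    {P : MvPolynomial (Fin d) k} (hP : θ P ∈ mm k d ^ N) : P ∈ mm k d ^ N := by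
  have key : ∀ r, r ≤ N → P ∈ mm k d ^ r := by
    intro r
    induction r with
    | zero => intro _; rw [pow_zero, Ideal.one_eq_top]; exact Submodule.mem_top
    | succ r ih =>
      intro hr
      have := sub_mem (Ideal.pow_le_pow_right hr hP) (subr h r P (ih (Nat.le_of_succ_le hr)))
      rwa [sub_sub_cancel] at this
  exact key N le_rfl

end Theta

open Theta in
theorem st_theta (k : Type u) [Field k] [IsAlgClosed k] (p : ℕ) [Fact p.Prime] [CharP k p]
    (n : Type) [Fintype n] [DecidableEq n] (huniq : S_uniq k n) : S_theta k n := by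
  intro H Ys F N g x hg hx h1 h2 f hf
  let θ : MvPolynomial (Fin F.d) k →ₐ[k] MvPolynomial (Fin F.d) k :=
    MvPolynomial.aeval fun i => lf (F.c i) (x - 1)
  have hθ : ∀ i, θ (MvPolynomial.X i) = lf (F.c i) (x - 1) := fun i => MvPolynomial.aeval_X _ i
  have h : ∀ i, θ (MvPolynomial.X i) - MvPolynomial.X i ∈ mm k F.d ^ 2 := fun i => by
    rw [hθ]; exact h2 i
  have e1 : (g - 1).map θ = g.map θ - 1 := by
    ext1 i j
    simp only [Matrix.map_apply, Matrix.sub_apply, map_sub, Matrix.one_apply]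
    split_ifs <;> simp
  have c := huniq H Ys F _ (mm k F.d) N (g.map θ) x (hg.pt.map θ (map_mem h N)) hx
    (fun i j => by
      have h3 : (g - 1).map θ i j ∈ mm k F.d := map_mem1 h (hg.one i j)
      rw [e1] at h3
      exact h3) h1
    (fun i => by
      obtain ⟨φ, hφ⟩ := exists_lf_lin (R := MvPolynomial (Fin F.d) k) (F.c i)
      have := map_mem h N _ (hg.lf i)
      rwa [map_sub, hθ, ← lf_map, e1, ← hφ, ← hφ, ← map_sub, sub_sub_sub_cancel_right, hφ] at this)
  have := add_mem (c.aeval f) hf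
  rw [sub_add_cancel, ApiP.aeval_map_entries] at this
  exact of_map_mem h this

end Pool.Agent.Lib.MP_3a0263_al.Q
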