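import Pool.Agent.Lib.MP_3a0263_al.Q.GBlue
import Pool.Agent.Lib.MP_3a0263_al.Q.ApiR
import Pool.Agent.Lib.MP_3a0263_al.Q.ApiZ2

namespace Pool.Agent.Lib.MP_3a0263_al.Q

open Matrix Pool.Agent.Lib.MP_3a0263_al.R

universe u

namespace TOP

variable {k : Type u} [Field k] {m : Type} [Fintype m] [DecidableEq m]

/-- the block of a matrix on the indices of level `M` -/
def blk (k : Type u) [Field k] (f : m → ℤ) (M : ℤ) :
    Matrix m m k →ₗ[k] Matrix {u // f u = M} {u // f u = M} k where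
  toFun x := x.submatrix Subtype.val Subtype.val
  map_add' _ _ := rfl
  map_smul' _ _ := rfl

omit [Fintype m] [DecidableEq m] in
theorem blk_apply (f : m → ℤ) (M : ℤ) (x : Matrix m m k) (u v : {u // f u = M}) :
    blk k f M x u v = x u.1 v.1 := rfl

omit [Fintype m] [DecidableEq m] in
theorem blk_surj (f : m → ℤ) (M : ℤ) (y : Matrix {u // f u = M} {u // f u = M} k) :
    ∃ x, blk k f M x = y :=
  ⟨Matrix.of fun u v => if h : f u = M ∧ f v = M then y ⟨u, h.1⟩ ⟨v, h.2⟩ else 0, by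
    ext u v
    rw [blk_apply, Matrix.of_apply, dif_pos ⟨u.2, v.2⟩]⟩

omit [Fintype m] in
theorem blk_diagonal (f : m → ℤ) (M : ℤ) (d : m → k) (a : k) (h : ∀ u, f u = M → d u = a) :
    blk k f M (diagonal d) = a • 1 := by
  ext u v
  rw [blk_apply, Matrix.smul_apply, smul_eq_mul]
  by_cases e : u = v
  · rw [e, diagonal_apply_eq, Matrix.one_apply_eq, mul_one, h _ v.2]
  · rw [diagonal_apply_ne _ fun e' => e (Subtype.ext e'), Matrix.one_apply_ne e, mul_zero]

omit [DecidableEq m] in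
theorem blk_mul (f : m → ℤ) (M : ℤ) {x : Matrix m m k} (hx : ∀ u v, f u ≠ f v → x u v = 0)
    (y : Matrix m m k) : blk k f M (x * y) = blk k f M x * blk k f M y := by
  ext u w
  rw [blk_apply, Matrix.mul_apply, Matrix.mul_apply,
    ← Fintype.sum_subtype_add_sum_subtype (fun v => f v = M) fun v => x u.1 v * y v w.1]
  have h0 : ∑ v : {v // ¬ f v = M}, x u.1 v.1 * y v.1 w.1 = 0 :=
    Finset.sum_eq_zero fun v _ => by
      rw [hx u.1 v.1 fun e => v.2 (e.symm.trans u.2), zero_mul]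
  rw [h0, add_zero]
  rfl

theorem blk_left (f : m → ℤ) (M : ℤ) (hM : ∀ v, f v ≤ M) {a : Matrix m m k}
    (ha : a - 1 ∈ degGE k (fun u => -f u) 1) (y : Matrix m m k) :
    blk k f M (a * y) = blk k f M y := by
  ext u w
  have e : a * y = (a - 1) * y + y := by rw [sub_mul, one_mul, sub_add_cancel]
  rw [blk_apply, blk_apply, e, Matrix.add_apply, Matrix.mul_apply, Finset.sum_eq_zero, zero_add]
  intro v _
  rw [ha u.1 v (show -f u.1 - -f v < 1 by have := hM v; have := u.2; omega), zero_mul]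

theorem blk_right (f : m → ℤ) (M : ℤ) (hM : ∀ v, f v ≤ M) {b : Matrix m m k}
    (hb : b - 1 ∈ degGE k f 1) (y : Matrix m m k) : blk k f M (y * b) = blk k f M y := by
  ext u w
  have e : y * b = y * (b - 1) + y := by rw [mul_sub, mul_one, sub_add_cancel]
  rw [blk_apply, blk_apply, e, Matrix.add_apply, Matrix.mul_apply, Finset.sum_eq_zero, zero_add]
  intro v _
  rw [hb v w.1 (by have := hM v; have := w.2; omega), mul_zero]

end TOP

theorem st_top (k : Type u) [Field k] [IsAlgClosed k] (p : ℕ) [Fact p.Prime] [CharP k p]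
    (n : Type) [Fintype n] [DecidableEq n] (hd3 : S_d3 k n) (hscal : S_scal k n)
    (htp : S_tp k n) (hta : S_ta k n) : S_top k n := by
  intro H T hMT R l hl
  have hT : T ≤ H := hMT.max.1
  have hA := hta T hMT.max.2.1 hMT.diag
  have : Nonempty (Fin R.m) := ⟨⟨0, R.pos⟩⟩
  obtain ⟨u0, hu0⟩ := Finite.exists_max fun u : Fin R.m => l.1 (R.ix u)
  let f : Fin R.m → ℤ := fun u => l.1 (R.ix u)
  let σ := (TOP.blk k f (f u0)).comp R.ρ
  have hσ : ∀ x, σ x = TOP.blk k f (f u0) (R.ρ x) := fun _ => rfl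
  have hle := idc_le (H ⊓ Zc k l.1)
  have hone : σ 1 = 1 := by
    rw [hσ, R.one, ← diagonal_one, TOP.blk_diagonal f (f u0) _ 1 fun _ _ => rfl, one_smul]
  have hmul : ∀ g ∈ idc (H ⊓ Zc k l.1), ∀ h ∈ idc (H ⊓ Zc k l.1),
      σ ((g * h : GL n k) : Matrix n n k) = σ g * σ h := fun g hg h hh => by
    rw [hσ, R.mul g (hle hg).1 h (hle hh).1, TOP.blk_mul f (f u0) (R.rho_Zc hT l (hle hg))]
    rfl
  have hpow : ∀ c ∈ idc (H ⊓ Zc k l.1), ∀ r : ℕ,
      σ (c : Matrix n n k) ^ r = σ ((c ^ r : GL n k) : Matrix n n k) := fun c hc r => by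
    induction r with
    | zero => rw [pow_zero, pow_zero, Units.val_one, hone]
    | succ r ih => rw [pow_succ, pow_succ, hmul _ (pow_mem hc r) _ hc, ih]
  have hH : ∀ h ∈ H, σ (h : Matrix n n k) ∈
      Submodule.span k {x | ∃ c ∈ idc (H ⊓ Zc k l.1), x = σ (c : Matrix n n k)} := by
    intro h hh
    refine subset_of_dense (hd3 H (Y T) hMT.conn (nrm_of_le hT) l)
      (closed_regM (RegM.id.lin σ)
        (Submodule.span k {x | ∃ c ∈ idc (H ⊓ Zc k l.1), x = σ (c : Matrix n n k)})) ?_ hh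
    rintro _ ⟨a, ha, c, hc, b, hb, rfl⟩
    refine Submodule.subset_span ⟨c, hc, ?_⟩
    rw [hσ, hσ, R.mul _ (H.mul_mem ha.1 (hle hc).1) _ hb.1, R.mul _ ha.1 _ (hle hc).1,
      TOP.blk_right f (f u0) hu0 (R.rho_Up hT l hb),
      TOP.blk_left f (f u0) hu0 (R.rho_Up hT (-l) ha)]
  obtain ⟨e, he, hm⟩ := htp H T hMT.conn.1 hMT.max
  have hcard := hscal _ (conn_idc (closed_inf hMT.conn.1 (closed_Zc l.1))) _ σ hone hmul
    (fun y => by
      obtain ⟨x, rfl⟩ := TOP.blk_surj f (f u0) y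
      induction R.span x using Submodule.span_induction with
      | mem x hx =>
        obtain ⟨h, hh, rfl⟩ := hx
        exact hH h hh
      | zero => rw [map_zero]; exact Submodule.zero_mem _
      | add a b _ _ ha hb => rw [map_add]; exact Submodule.add_mem _ ha hb
      | smul a b _ hb => rw [map_smul]; exact Submodule.smul_mem _ a hb) e he
    (fun c hc => by
      have hw : Wt (0 : XX (Y T)) (c : Matrix n n k) := fun i j hij =>
        sub_eq_zero.2 (hl i j (by_contra fun h => hij (mem_Zc.1 (hle hc).2 i j h)))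
      have h1 := hm c (hle hc).1 fun t ht => Units.ext (hA.wt0 _ hw t ht)
      obtain ⟨d, hd⟩ := hMT.diag _ h1
      rw [hd] at h1
      refine ⟨d (R.ix u0), ?_⟩
      rw [hpow c hc, hd, hσ, R.diag d h1]
      exact TOP.blk_diagonal f (f u0) _ _ fun u hu => by rw [hA.eq _ _ (hl _ _ hu) d h1])
  refine ⟨u0, fun v hv => lt_of_le_of_ne (hu0 v) fun h => hv ?_⟩
  exact congrArg Subtype.val
    (Fintype.card_le_one_iff.1 hcard (⟨v, h⟩ : {u // f u = f u0}) ⟨u0, rfl⟩)

end Pool.Agent.Lib.MP_3a0263_al.Q
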