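import Pool.Agent.Lib.MP_3a0263_al.Q.GBlue
import Pool.Agent.Lib.MP_3a0263_al.Q.ApiC

namespace Pool.Agent.Lib.MP_3a0263_al.Q

open Matrix Pool.Agent.Lib.MP_3a0263_al.R

universe u

namespace Tors

variable {k : Type u} [Field k] {n : Type} [Fintype n] [DecidableEq n]

theorem dg_inj {d e : n → kˣ} (h : dg d = dg e) : d = e := by
  funext i
  have h1 : (dg d : Matrix n n k) i i = (dg e : Matrix n n k) i i := by rw [h]
  rw [dg_val, dg_val, diagonal_apply_eq, diagonal_apply_eq] at h1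
  exact Units.ext h1

theorem dg_pow (d : n → kˣ) (m : ℕ) : dg (d ^ m) = dg d ^ m :=
  map_pow (dgHom (k := k) (n := n)) d m

theorem fin_diag {T : Subgroup (GL n k)} (h : IsDiagG T) {m : ℕ} (hm : m ≠ 0) :
    {t | t ∈ T ∧ t ^ m = 1}.Finite := by
  have : NeZero m := ⟨hm⟩
  have h0 : Finite (rootsOfUnity m k) := inferInstance
  have h1 : ((rootsOfUnity m k : Subgroup kˣ) : Set kˣ).Finite := Set.finite_coe_iff.1 h0
  have h2 : (Set.pi Set.univ fun _ : n => ((rootsOfUnity m k : Subgroup kˣ) : Set kˣ)).Finite :=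
    Set.Finite.pi fun _ => h1
  refine (h2.image dg).subset ?_
  rintro t ⟨ht, htm⟩
  obtain ⟨d, rfl⟩ := h t ht
  refine ⟨d, fun i _ => ?_, rfl⟩
  rw [← dg_pow, ← dg_one] at htm
  have := congrFun (dg_inj htm) i
  exact (mem_rootsOfUnity m (d i)).2 this

theorem coch_pow (l : n → ℤ) (s : kˣ) (m : ℕ) (h : s ^ m = 1) : coch l s ^ m = 1 := by
  rw [coch, ← dg_pow, ← dg_one]
  refine congrArg dg (funext fun i => ?_)
  show (s ^ l i) ^ m = 1
  rw [← zpow_natCast, ← _root_.zpow_mul, mul_comm, _root_.zpow_mul, zpow_natCast, h,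
    _root_.one_zpow]

theorem eq_zero_of_dvd {q : ℕ} (hq : q.Prime) {a : ℤ} (h : ∀ j : ℕ, ((q ^ j : ℕ) : ℤ) ∣ a) :
    a = 0 := by
  refine Int.eq_zero_of_dvd_of_natAbs_lt_natAbs (h a.natAbs) ?_
  rw [Int.natAbs_natCast]
  exact Nat.lt_pow_self hq.one_lt

theorem dense_diag [IsAlgClosed k] {p : ℕ} [Fact p.Prime] [CharP k p] {T : Subgroup (GL n k)}
    (hA : TorA T) {q : ℕ} (hq : q.Prime) (hqp : q ≠ p) (x : GL n k)
    (hx : ∀ j : ℕ, ∀ t ∈ T, t ^ q ^ j = 1 → t * x = x * t) : ∀ t ∈ T, t * x = x * t := by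
  intro t ht
  refine Units.ext (hA.wt0 (x : Matrix n n k) (fun i j hij => ?_) t ht)
  refine LinearMap.ext fun l => ?_
  rw [LinearMap.sub_apply, eps_apply, eps_apply, LinearMap.zero_apply]
  refine eq_zero_of_dvd hq fun e => ?_
  have : NeZero (q : k) := ⟨fun h0 => hqp
    ((Nat.prime_dvd_prime_iff_eq (Fact.out : p.Prime) hq).1 ((CharP.cast_eq_zero_iff k p q).1 h0)).symm⟩
  obtain ⟨z, hz⟩ := HasEnoughRootsOfUnity.exists_primitiveRoot k (q ^ e)
  obtain ⟨s, rfl⟩ := hz.isUnit (pow_ne_zero e hq.ne_zero)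
  have hs : IsPrimitiveRoot s (q ^ e) := IsPrimitiveRoot.coe_units_iff.1 hz
  have h1 := hx e (coch l.1 s) (mem_Y.1 l.2 s) (coch_pow _ _ _ hs.pow_eq_one)
  have h2 : coch l.1 s * x * (coch l.1 s)⁻¹ = x := by rw [h1, mul_inv_cancel_right]
  have h3 := coch_conj l.1 s (x : Matrix n n k) i j
  rw [← Units.val_mul, ← Units.val_mul, h2] at h3
  have h4 : ((s ^ (l.1 i - l.1 j) : kˣ) : k) = 1 :=
    mul_right_cancel₀ hij (by rw [← h3, one_mul])
  exact (hs.zpow_eq_one_iff_dvd _).1 (Units.ext h4)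

end Tors

theorem st_tors (k : Type u) [Field k] [IsAlgClosed k] (p : ℕ) [Fact p.Prime] [CharP k p]
    (n : Type) [Fintype n] [DecidableEq n] (hta : S_ta k n) : S_tors k p n := by
  intro T hT
  obtain ⟨P, hP⟩ := exists_diag_torus hT
  refine ⟨fun m hm => ?_, fun q hq hqp x hx t ht => ?_⟩
  · refine ((Tors.fin_diag hP hm).image fun t => P⁻¹ * t * P).subset ?_
    rintro t ⟨ht, htm⟩
    refine ⟨P * t * P⁻¹, ⟨conj_mem_cjs ht, ?_⟩, by simp [mul_assoc]⟩
    rw [_root_.conj_pow, htm, mul_one, mul_inv_cancel]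
  · have h := Tors.dense_diag (p := p) (hta _ (torus_cjs P hT) hP) hq hqp (P * x * P⁻¹)
      (fun j s hs hsj => by
        have h1 := hx j _ (mem_cjs.1 hs) (by
          have := _root_.conj_pow (a := P⁻¹) (b := s) (i := q ^ j)
          rw [inv_inv] at this
          rw [this, hsj, mul_one, inv_mul_cancel])
        calc s * (P * x * P⁻¹) = P * (P⁻¹ * s * P * x) * P⁻¹ := by group
          _ = P * (x * (P⁻¹ * s * P)) * P⁻¹ := by rw [h1]
          _ = P * x * P⁻¹ * s := by group) _ (conj_mem_cjs (P := P) ht)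
    calc t * x = P⁻¹ * (P * t * P⁻¹ * (P * x * P⁻¹)) * P := by group
      _ = P⁻¹ * (P * x * P⁻¹ * (P * t * P⁻¹)) * P := by rw [h]
      _ = x * t := by group

end Pool.Agent.Lib.MP_3a0263_al.Q
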