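import Pool.Agent.Lib.MP_3a0263_al.Q.GBlue
import Pool.Agent.Lib.MP_3a0263_al.Q.ApiC

namespace Pool.Agent.Lib.MP_3a0263_al.Q

open Matrix Pool.Agent.Lib.MP_3a0263_al.R

universe u

theorem st_tp (k : Type u) [Field k] [IsAlgClosed k] (p : ℕ) [Fact p.Prime] [CharP k p] (n : Type)
    [Fintype n] [DecidableEq n] (hlat3 : S_lat3 k n) : S_tp k n := by
  intro H T hH hT
  obtain ⟨N, hN⟩ := ss_pow (k := k) (n := n) p
  obtain ⟨D, hD⟩ := closed_deg hH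
  obtain ⟨e, he, hl⟩ := hlat3 D
  refine ⟨p ^ N * e, mul_ne_zero (pow_ne_zero _ (Fact.out : p.Prime).ne_zero) he,
    fun h hh hc => ?_⟩
  have hc' : ∀ t ∈ T, t * h ^ p ^ N = h ^ p ^ N * t := fun t ht =>
    ((show Commute t h from hc t ht).pow_right _).eq
  obtain ⟨P, hP⟩ := exists_diag_set ((T : Set (GL n k)) ∪ {h ^ p ^ N}) (by
      rintro t (ht | rfl)
      · exact hT.2.1.2.2 t ht
      · exact hN h) (by
      rintro s (hs | rfl) t (ht | rfl)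
      · exact hT.2.1.2.1 s hs t ht
      · exact hc' s hs
      · exact (hc' t ht).symm
      · rfl)
  obtain ⟨F, hF, hK⟩ := hD P
  obtain ⟨T0, h0, h1, -, h3, h4, -⟩ := hl _ F hF hK
  have hM := maxTorus_cjs P hT
  have hdiag : IsDiagG (cjs P T) := fun t ht => by
    obtain ⟨d, hd⟩ := hP _ (Or.inl (mem_cjs.1 ht))
    exact ⟨d, by rw [← hd]; simp [mul_assoc]⟩
  have hT0 : T0 = cjs P T := hM.2.2 T0 (h4 _ hM.1 hdiag hM.2.1.1) h0 h1
  obtain ⟨d, hd⟩ := hP _ (Or.inr rfl)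
  have hmem := h3 d (hd ▸ conj_mem_cjs (H.pow_mem hh _))
  rw [hT0, mem_cjs, ← hd, conj_pow] at hmem
  simpa [mul_assoc, pow_mul] using hmem

end Pool.Agent.Lib.MP_3a0263_al.Q
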