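import Pool.Agent.Lib.MP_3a0263_al.Q.GBlue
import Pool.Agent.Lib.MP_3a0263_al.Q.ApiZ2
import Pool.Agent.Lib.MP_3a0263_al.Q.ApiZ3

namespace Pool.Agent.Lib.MP_3a0263_al.Q

open Matrix Pool.Agent.Lib.MP_3a0263_al.R

universe u

theorem st_tri (k : Type u) [Field k] [IsAlgClosed k] (p : ℕ) [Fact p.Prime] [CharP k p]
    (n : Type) [Fintype n] [DecidableEq n] (hrep : S_rep k n) : S_tri k n := by
  intro H T h1 h2 h3
  obtain ⟨I, a, b⟩ := hrep H T h1 h2
  refine ⟨I, a, fun g hg h hh => b _ (sub_mem (spanG_mul (mem_spanG hg) (mem_spanG hh))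
    (spanG_mul (mem_spanG hh) (mem_spanG hg))) fun R => ?_⟩
  have : Subsingleton (Fin R.m) := Fin.subsingleton_iff_le_one.2 (not_lt.1 (h3 R))
  rw [map_sub, ← Units.val_mul, ← Units.val_mul, R.mul g hg h hh, R.mul h hh g hg, sub_eq_zero]
  ext i j
  rw [Matrix.mul_apply, Matrix.mul_apply, Fintype.sum_subsingleton _ i,
    Fintype.sum_subsingleton _ i, Subsingleton.elim j i, mul_comm]

theorem st_ker (k : Type u) [Field k] [IsAlgClosed k] (p : ℕ) [Fact p.Prime] [CharP k p]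
    (n : Type) [Fintype n] [DecidableEq n] (hrep : S_rep k n) : S_ker k n := by
  intro G T hG h1 h2 S s1 s2 s3 s4
  obtain ⟨I, a, b⟩ := hrep G T h1 h2
  let K : Subgroup (GL n k) :=
    { carrier := {g | g ∈ G ∧ ∀ R : IRep G T, R.ρ (g : Matrix n n k) = 1}
      one_mem' := ⟨G.one_mem, fun R => R.one⟩
      mul_mem' := fun {g h} hg hh => ⟨G.mul_mem hg.1 hh.1, fun R => by
        rw [R.mul g hg.1 h hh.1, hg.2, hh.2, mul_one]⟩
      inv_mem' := fun {g} hg => ⟨G.inv_mem hg.1, fun R => by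
        have e := R.mul g hg.1 g⁻¹ (G.inv_mem hg.1)
        rw [mul_inv_cancel, hg.2, one_mul] at e
        exact e.symm.trans R.one⟩ }
  refine red_unip (K := K) hG (fun g hg => ⟨hG.1.1 g fun f hf => hg f (vanish_anti
    (fun x hx => hx.1) hf), fun R => closed_eq (RegM.id.lin R.ρ) (RegM.const 1) g fun f hf =>
      hg f (vanish_anti (fun x hx => hx.2 R) hf)⟩) (fun x hx => hx.1) (fun g hg x hx =>
    ⟨G.mul_mem (G.mul_mem hg hx.1) (G.inv_mem hg), fun R => ?_⟩) (fun x hx => ?_) s2 s3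
    fun g hg => ⟨s1 hg, fun R => s4 R g hg⟩
  · rw [R.mul _ (G.mul_mem hg hx.1) _ (G.inv_mem hg), R.mul g hg x hx.1, hx.2, mul_one,
      ← R.mul g hg _ (G.inv_mem hg), mul_inv_cancel]
    exact R.one
  · obtain ⟨N, hN⟩ := a.nil
    have c := b _ (sub_mem (mem_spanG hx.1) (mem_spanG G.one_mem)) fun R => by
      rw [map_sub, hx.2, Units.val_one, R.one, sub_self]
    exact ⟨N + 1, (Submodule.mem_bot k).1 (hN ▸ Submodule.pow_mem_pow I c (N + 1))⟩

end Pool.Agent.Lib.MP_3a0263_al.Q
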