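import Pool.Agent.Lib.MP_3a0263_al.Q.GBlue
import Pool.Agent.Lib.MP_3a0263_al.Q.ApiC

namespace Pool.Agent.Lib.MP_3a0263_al.Q

open Matrix Pool.Agent.Lib.MP_3a0263_al.R

universe u

theorem st_tt (k : Type u) [Field k] [IsAlgClosed k] (p : ℕ) [Fact p.Prime] [CharP k p] (n : Type)
    [Fintype n] [DecidableEq n] (hlat3 : S_lat3 k n) : S_tt k n := by
  intro H T T' hH hT hT' hc
  obtain ⟨P, hP⟩ := exists_diag_set ((T : Set (GL n k)) ∪ T')
    (fun t ht => ht.elim (hT.2.1.2.2 t) (hT'.2.1.2.2 t)) (by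
      rintro s (hs | hs) t (ht | ht)
      exacts [hT.2.1.2.1 s hs t ht, hc s hs t ht, (hc t ht s hs).symm, hT'.2.1.2.1 s hs t ht])
  obtain ⟨D, hD⟩ := closed_deg hH
  obtain ⟨F, hF, hF'⟩ := hD P
  obtain ⟨e, -, he⟩ := hlat3 D
  obtain ⟨T0, h1, h2, -, -, h5, -⟩ := he (cjs P H) F hF hF'
  have key : ∀ S : Subgroup (GL n k), IsMaxTorus H S → (S : Set (GL n k)) ⊆ (T : Set (GL n k)) ∪ T' →
      T0 = cjs P S := fun S hS hsub =>
    (maxTorus_cjs P hS).2.2 T0 (h5 _ (cjs_mono P hS.1) (by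
      rintro _ ⟨t, ht, rfl⟩
      exact hP t (hsub ht)) (conn_cjs P hS.2.1.1)) h1 h2
  rw [← ApiC.inv_cjs P T', ← key T' hT' Set.subset_union_right, key T hT Set.subset_union_left,
    ApiC.inv_cjs]

end Pool.Agent.Lib.MP_3a0263_al.Q
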