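import Pool.Agent.Lib.MP_3a0263_al.Q.GBlue

namespace Pool.Agent.Lib.MP_3a0263_al.Q

universe u

namespace Zero

variable {k : Type u} [Field k] {d : ℕ}

/-- restriction of a polynomial to the line `u + t v` -/
noncomputable def ln (f : MvPolynomial (Fin d) k) (u v : Fin d → k) : Polynomial k :=
  MvPolynomial.aeval (fun i => Polynomial.C (u i) + Polynomial.C (v i) * Polynomial.X) f

theorem eval_ln (f : MvPolynomial (Fin d) k) (u v : Fin d → k) (t : k) :
    (ln f u v).eval t = MvPolynomial.eval (u + t • v) f := by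
  unfold ln
  induction f using MvPolynomial.induction_on with
  | C a => simp
  | add p q hp hq => simp only [map_add, Polynomial.eval_add, hp, hq]
  | mul_X p i hp =>
    simp only [map_mul, Polynomial.eval_mul, hp, MvPolynomial.aeval_X, MvPolynomial.eval_X,
      Polynomial.eval_add, Polynomial.eval_C, Polynomial.eval_X, Pi.add_apply, Pi.smul_apply,
      smul_eq_mul]
    ring

theorem const_on_line [IsAlgClosed k] (f : MvPolynomial (Fin d) k) (u v : Fin d → k)
    (h : ∀ t : k, MvPolynomial.eval (u + t • v) f ≠ 0) :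
    MvPolynomial.eval (u + v) f = MvPolynomial.eval u f := by
  have hdeg : (ln f u v).degree = 0 := by
    by_contra hne
    obtain ⟨t, ht⟩ := IsAlgClosed.exists_root _ hne
    exact h t (by rw [← eval_ln]; exact ht)
  have hC := Polynomial.eq_C_of_degree_eq_zero hdeg
  have h1 := eval_ln f u v 1
  have h0 := eval_ln f u v 0
  rw [hC, Polynomial.eval_C] at h1 h0
  rw [one_smul] at h1
  rw [zero_smul, add_zero] at h0
  rw [← h1, ← h0]

end Zero

theorem st_zero (k : Type u) [Field k] [IsAlgClosed k] (p : ℕ) [Fact p.Prime] [CharP k p] (n : Type)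
    [Fintype n] [DecidableEq n] : S_zero k := by
  intro d f hf
  by_contra hd
  obtain ⟨e, rfl⟩ : ∃ e, d = e + 2 := ⟨d - 2, by omega⟩
  let e0 : Fin (e + 2) → k := Pi.single 0 1
  let e1 : Fin (e + 2) → k := Pi.single 1 1
  have h01 : (0 : Fin (e + 2)) ≠ 1 := Fin.zero_ne_one
  have key : ∀ a : k, a ≠ 0 → (Zero.ln f e1 e0 - Zero.ln f 0 e0).eval a = 0 := by
    intro a ha
    rw [Polynomial.eval_sub, Zero.eval_ln, Zero.eval_ln, zero_add, add_comm e1, sub_eq_zero]
    refine Zero.const_on_line f _ _ fun t ht => ha ?_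
    have := congrFun ((hf _).1 ht) 0
    simpa [e0, e1, Pi.single_eq_of_ne h01] using this
  have hP : Zero.ln f e1 e0 - Zero.ln f 0 e0 = 0 := by
    refine Polynomial.eq_zero_of_infinite_isRoot _ ?_
    refine Set.Infinite.mono (s := ({0} : Set k)ᶜ) (fun a ha => key a ha) ?_
    exact (Set.finite_singleton (0 : k)).infinite_compl
  have h0 := congrArg (Polynomial.eval 0) hP
  rw [Polynomial.eval_sub, Zero.eval_ln, Zero.eval_ln, zero_smul, add_zero, add_zero,
    Polynomial.eval_zero, (hf 0).2 rfl, sub_zero] at h0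
  have := congrFun ((hf _).1 h0) 1
  simp [e1] at this

end Pool.Agent.Lib.MP_3a0263_al.Q
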