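import Pool.Agent.Lib.MP_3a0263_al.Q.G_AD
import Pool.Agent.Lib.MP_3a0263_al.Q.G_CH0
import Pool.Agent.Lib.MP_3a0263_al.Q.G_CH1
import Pool.Agent.Lib.MP_3a0263_al.Q.G_CHART
import Pool.Agent.Lib.MP_3a0263_al.Q.G_COMB
import Pool.Agent.Lib.MP_3a0263_al.Q.G_CONJ
import Pool.Agent.Lib.MP_3a0263_al.Q.G_CONJ0
import Pool.Agent.Lib.MP_3a0263_al.Q.G_CR
import Pool.Agent.Lib.MP_3a0263_al.Q.G_CRG
import Pool.Agent.Lib.MP_3a0263_al.Q.G_CRH
import Pool.Agent.Lib.MP_3a0263_al.Q.G_CRM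
import Pool.Agent.Lib.MP_3a0263_al.Q.G_CT
import Pool.Agent.Lib.MP_3a0263_al.Q.G_CURVE
import Pool.Agent.Lib.MP_3a0263_al.Q.G_D1
import Pool.Agent.Lib.MP_3a0263_al.Q.G_D1A
import Pool.Agent.Lib.MP_3a0263_al.Q.G_D2
import Pool.Agent.Lib.MP_3a0263_al.Q.G_D2G
import Pool.Agent.Lib.MP_3a0263_al.Q.G_D2K
import Pool.Agent.Lib.MP_3a0263_al.Q.G_D3
import Pool.Agent.Lib.MP_3a0263_al.Q.G_DEC
import Pool.Agent.Lib.MP_3a0263_al.Q.G_FCU
import Pool.Agent.Lib.MP_3a0263_al.Q.G_FINF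
import Pool.Agent.Lib.MP_3a0263_al.Q.G_FIX
import Pool.Agent.Lib.MP_3a0263_al.Q.G_FR
import Pool.Agent.Lib.MP_3a0263_al.Q.G_GENX
import Pool.Agent.Lib.MP_3a0263_al.Q.G_GT
import Pool.Agent.Lib.MP_3a0263_al.Q.G_KR
import Pool.Agent.Lib.MP_3a0263_al.Q.G_KRO
import Pool.Agent.Lib.MP_3a0263_al.Q.G_LA1
import Pool.Agent.Lib.MP_3a0263_al.Q.G_LAT1
import Pool.Agent.Lib.MP_3a0263_al.Q.G_LAT2
import Pool.Agent.Lib.MP_3a0263_al.Q.G_LAT3
import Pool.Agent.Lib.MP_3a0263_al.Q.G_LB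
import Pool.Agent.Lib.MP_3a0263_al.Q.G_LB1
import Pool.Agent.Lib.MP_3a0263_al.Q.G_LIM
import Pool.Agent.Lib.MP_3a0263_al.Q.G_PACK
import Pool.Agent.Lib.MP_3a0263_al.Q.G_PROD
import Pool.Agent.Lib.MP_3a0263_al.Q.G_R1A
import Pool.Agent.Lib.MP_3a0263_al.Q.G_R1B
import Pool.Agent.Lib.MP_3a0263_al.Q.G_REP
import Pool.Agent.Lib.MP_3a0263_al.Q.G_SCAL
import Pool.Agent.Lib.MP_3a0263_al.Q.G_SM
import Pool.Agent.Lib.MP_3a0263_al.Q.G_STAB
import Pool.Agent.Lib.MP_3a0263_al.Q.G_SWAP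
import Pool.Agent.Lib.MP_3a0263_al.Q.G_SYL
import Pool.Agent.Lib.MP_3a0263_al.Q.G_TA
import Pool.Agent.Lib.MP_3a0263_al.Q.G_TB
import Pool.Agent.Lib.MP_3a0263_al.Q.G_TC
import Pool.Agent.Lib.MP_3a0263_al.Q.G_THETA
import Pool.Agent.Lib.MP_3a0263_al.Q.G_TOP
import Pool.Agent.Lib.MP_3a0263_al.Q.G_TORS
import Pool.Agent.Lib.MP_3a0263_al.Q.G_TP
import Pool.Agent.Lib.MP_3a0263_al.Q.G_TRI
import Pool.Agent.Lib.MP_3a0263_al.Q.G_TT
import Pool.Agent.Lib.MP_3a0263_al.Q.G_UNIQ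
import Pool.Agent.Lib.MP_3a0263_al.Q.G_ZERO
import Pool.Agent.Lib.MP_3a0263_al.Q.ApiC

namespace Pool.Agent.Lib.MP_3a0263_al.Q

open Matrix Pool.Agent.Lib.MP_3a0263_al.R

universe u

/-- the group half -/
theorem st_group (k : Type u) [Field k] [IsAlgClosed k] (p : ℕ) [Fact p.Prime] [CharP k p] :
    S_group k p := by
  intro n _ _ G hG hg
  have hlat1 := st_lat1 k p n
  have hlat2 := st_lat2 k p n
  have hlat3 := st_lat3 k p n hlat1 hlat2
  have hta := st_ta k p n hlat3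
  have hgt := st_gt k p n hta
  have hrep := st_rep k p n
  have htri := st_tri k p n hrep
  have hsyl := st_syl k p n
  have htors := st_tors k p n hta
  have htt := st_tt k p n hlat3
  have hconj0 := st_conj0 k p n hsyl htors htt
  have hfr := st_fr k p n
  have hsm := st_sm k p n
  have hch0 := st_ch0 k p n hsm
  have huniq := st_uniq k p n
  have hch1 := st_ch1 k p n hch0 huniq
  have hfcu := st_fcu k p n huniq
  have hd2g := st_d2g k p n
  have hd2k := st_d2k k p n hd2g hfcu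
  have hprod := st_prod k p n
  have htheta := st_theta k p n huniq
  have hkr := st_kr k p n huniq
  have hd3 := st_d3 k p n hfr hch1 hfcu hd2k hprod htheta hkr
  have hscal := st_scal k p n
  have htp := st_tp k p n hlat3
  have htop := st_top k p n hd3 hscal htp hta
  have hd1a := st_d1a k p n hch1 huniq hfcu
  have hd1 := st_d1 k p n hfr hd1a huniq
  have hgenx := st_genx k p n
  have hkro := st_kro k p n hd1 hgenx
  have hchart := st_chart k p n hd3 hkro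
  have hlim := st_lim k p n hta
  have hconj := st_conj k p n htri hconj0 htop hchart hlim
  have htb := st_tb k p n hta
  have htc := st_tc k p n htb
  have hfix := st_fix k p n hconj hchart htop hlim hta htc
  have hdec := st_dec k p n hd1
  have hlb1 := st_lb1 k p n hfix hchart hdec
  have hfinf := st_finf k p n
  have hla1 := st_la1 k p n htop hfix hfinf
  have hla := st_la k p n hla1
  have hker := st_ker k p n hrep
  have hlb := st_lb k p n hlb1 hla hker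
  have hct := st_ct k p n htp hta hla hker
  have hd2 := st_d2 k p n hfr hch1 hfcu hd2k
  have hswap := st_swap k p n htop hfix
  have hr1a := st_r1a k p n hla hswap htri
  have hzero := st_zero k p n
  have hr1b := st_r1b k p n htop hfix hr1a hzero
  have hcurve := st_curve k p n
  have hpack := st_pack k p n hlb hct hd1 hd2 hd3 htri hswap hr1b hcurve htc
  have had := st_ad k p n
  have hstab := st_stab k p n had
  have hcrm := st_crm k p n had hstab hta htc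
  have hcomb := st_comb k p n hcrm
  have hcrh := st_crh k p n had hstab hta htc
  have hcrg := st_crg k p n had hstab hta
  have hcr := st_cr k p n hpack hcomb hcrm hcrh hcrg hd2 hct hta htb htc
  obtain ⟨P, T, Δ, h1, h2⟩ := hgt G hG.1 hg
  refine ⟨P⁻¹, fun L hL => hcr (cjs P G) T (red_cjs P hG) h1 Δ h2 L fun x => ?_⟩
  rw [hL, mem_lie_cjs, inv_inv]

end Pool.Agent.Lib.MP_3a0263_al.Q
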