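import Pool.Agent.Lib.MP_3a0263_al.Q.GBlue
import Pool.Agent.Lib.MP_3a0263_al.Q.ApiZ1
import Pool.Agent.Lib.MP_3a0263_al.Q.ApiL

namespace Pool.Agent.Lib.MP_3a0263_al.Q

open Matrix Finset Pool.Agent.Lib.MP_3a0263_al.R

universe u

namespace AD

theorem sum_box {V : Type*} [AddCommMonoid V] (N : ℕ) (f : ℕ → ℕ → V)
    (h : ∀ a b, N ≤ a ∨ N ≤ b → f a b = 0) :
    ∑ a ∈ range N, ∑ b ∈ range N, f a b =
      ∑ r ∈ range (2 * N), ∑ ab ∈ antidiagonal r, f ab.1 ab.2 := by
  rw [← sum_product', ← sum_fiberwise_of_maps_to (s := range N ×ˢ range N) (t := range (2 * N))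
    (g := fun ab => ab.1 + ab.2) (fun ab hab => by
      simp only [mem_product, mem_range] at hab ⊢
      omega)]
  refine sum_congr rfl fun r _ => sum_subset (fun ab hab => ?_) fun ab hab hn => h _ _ ?_
  · exact mem_antidiagonal.2 (mem_filter.1 hab).2
  · simp only [mem_filter, mem_product, mem_range, HasAntidiagonal.mem_antidiagonal] at hab hn
    omega

variable {k : Type u} [Field k] {n : Type} [Fintype n] [DecidableEq n] {G : Subgroup (GL n k)}
  {Ys : Submodule ℤ (n → ℤ)} {α : XX Ys} {e : Matrix n n k} (C : Curve G α e)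

theorem x_zero : C.x 0 = 1 := by
  have := C.add 0 0
  rw [add_zero] at this
  exact left_eq_mul.1 this

theorem x_inv (z : k) : (C.x z)⁻¹ = C.x (-z) :=
  inv_eq_of_mul_eq_one_right (by rw [← C.add, add_neg_cancel, x_zero])

theorem conj (z : k) (y : Matrix n n k) :
    (C.x z : Matrix n n k) * y * (((C.x z)⁻¹ : GL n k) : Matrix n n k) =
      ∑ r ∈ range (2 * C.N), z ^ r • C.D r y := by
  rw [x_inv, C.val, C.val, sum_mul, sum_mul]
  simp only [mul_sum]
  rw [sum_box C.N (fun a b => z ^ a • C.X a * y * ((-z) ^ b • C.X b)) (fun a b h => by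
    rcases h with h | h <;> simp [C.XN _ h])]
  refine sum_congr rfl fun r _ => ?_
  rw [Curve.D, smul_sum]
  refine sum_congr rfl fun ab hab => ?_
  rw [← mem_antidiagonal.1 hab, smul_mul_assoc, smul_mul_assoc, mul_smul_comm, smul_smul,
    smul_smul, neg_pow z, pow_add]
  congr 1
  ring

theorem D_big {r : ℕ} (h : 2 * C.N ≤ r) (y : Matrix n n k) : C.D r y = 0 := by
  refine sum_eq_zero fun ab hab => ?_
  have := mem_antidiagonal.1 hab
  rcases (show C.N ≤ ab.1 ∨ C.N ≤ ab.2 by omega) with h | h <;> simp [C.XN _ h]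

theorem X_mul [Infinite k] (a b : ℕ) :
    C.X a * C.X b = (((a + b).choose a : ℕ) : k) • C.X (a + b) := by
  by_cases hab : C.N ≤ a ∨ C.N ≤ b
  · rw [C.XN (a + b) (by omega), smul_zero]
    rcases hab with h | h <;> simp [C.XN _ h]
  have key : ∀ z z' : k, ∑ a ∈ range C.N, z ^ a • ∑ b ∈ range C.N, z' ^ b •
      (C.X a * C.X b - (((a + b).choose a : ℕ) : k) • C.X (a + b)) = 0 := by
    intro z z'
    have h1 := congrArg Units.val (C.add z z')
    rw [Units.val_mul, C.val, C.val, C.val, sum_mul_sum] at h1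
    have h2 : ∑ r ∈ range C.N, (z + z') ^ r • C.X r = ∑ a ∈ range C.N, ∑ b ∈ range C.N,
        z ^ a • z' ^ b • (((a + b).choose a : ℕ) : k) • C.X (a + b) := by
      rw [sum_box C.N (fun a b => z ^ a • z' ^ b • (((a + b).choose a : ℕ) : k) • C.X (a + b))
        (fun a b h => by rw [C.XN (a + b) (by omega)]; simp),
        sum_subset (range_subset_range.2 (show C.N ≤ 2 * C.N by omega)) (fun r _ hr => by
          rw [C.XN r (by simpa using hr), smul_zero])]
      refine sum_congr rfl fun r _ => ?_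
      rw [(Commute.all z z').add_pow', sum_smul]
      refine sum_congr rfl fun ab hab => ?_
      rw [mem_antidiagonal.1 hab, smul_smul, smul_smul, nsmul_eq_mul, mul_comm]
    simp only [smul_sub, smul_sum, sum_sub_distrib]
    rw [← h2, h1, sub_eq_zero]
    refine sum_congr rfl fun i _ => sum_congr rfl fun j _ => ?_
    rw [smul_mul_assoc, mul_smul_comm]
  have h3 := coef_mem_nat (⊥ : Submodule k (Matrix n n k)) (range C.N)
    (fun b => C.X a * C.X b - (((a + b).choose a : ℕ) : k) • C.X (a + b)) (fun z' _ =>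
      coef_mem_nat (⊥ : Submodule k (Matrix n n k)) (range C.N)
        (fun a => ∑ b ∈ range C.N, z' ^ b •
          (C.X a * C.X b - (((a + b).choose a : ℕ) : k) • C.X (a + b)))
        (fun z _ => (Submodule.mem_bot k).2 (key z z')) a (mem_range.2 (by omega)))
    b (mem_range.2 (by omega))
  exact sub_eq_zero.1 ((Submodule.mem_bot k).1 h3)

theorem D_one (y : Matrix n n k) : C.D 1 y = e * y - y * e := by
  rw [Curve.D, Nat.sum_antidiagonal_succ]
  simp [C.X0, C.X1, sub_eq_neg_add]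

theorem D_succ [Infinite k] (r : ℕ) (y : Matrix n n k) :
    C.D 1 (C.D r y) = ((r + 1 : ℕ) : k) • C.D (r + 1) y := by
  have e1 : ∀ a, e * C.X a = ((a + 1 : ℕ) : k) • C.X (a + 1) := fun a => by
    have := X_mul C 1 a
    rwa [C.X1, Nat.choose_one_right, add_comm] at this
  have e2 : ∀ a, C.X a * e = ((a + 1 : ℕ) : k) • C.X (a + 1) := fun a => by
    have := X_mul C a 1
    rwa [C.X1, Nat.choose_succ_self_right] at this
  have h : ((r + 1 : ℕ) : k) • C.D (r + 1) y =
      ∑ ab ∈ antidiagonal (r + 1), ((ab.1 : k) * (-1) ^ ab.2) • (C.X ab.1 * y * C.X ab.2) +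
      ∑ ab ∈ antidiagonal (r + 1), ((ab.2 : k) * (-1) ^ ab.2) • (C.X ab.1 * y * C.X ab.2) := by
    rw [Curve.D, smul_sum, ← sum_add_distrib]
    refine sum_congr rfl fun ab hab => ?_
    rw [← mem_antidiagonal.1 hab, smul_smul, ← add_smul, Nat.cast_add, add_mul]
  rw [h, Nat.sum_antidiagonal_succ, Nat.sum_antidiagonal_succ', D_one, Curve.D, mul_sum, sum_mul,
    sub_eq_add_neg, ← sum_neg_distrib]
  simp only [Nat.cast_zero, zero_mul, zero_smul, zero_add]
  congr 1
  · refine sum_congr rfl fun ab _ => ?_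
    rw [mul_smul_comm, ← mul_assoc, ← mul_assoc, e1, smul_mul_assoc, smul_mul_assoc, smul_smul,
      mul_comm]
  · refine sum_congr rfl fun ab _ => ?_
    rw [smul_mul_assoc, mul_assoc _ _ e, e2, mul_smul_comm, smul_smul, ← neg_smul, pow_succ]
    congr 1
    ring

end AD

theorem st_ad (k : Type u) [Field k] [IsAlgClosed k] (p : ℕ) [Fact p.Prime] [CharP k p] (n : Type)
    [Fintype n] [DecidableEq n] : S_ad k n := by
  intro G Ys α e C
  refine ⟨AD.conj C, fun r y hy => ?_, fun r b y hy => ?_, fun y => ?_, AD.D_one C, AD.D_succ C,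
    fun r => ?_⟩
  · by_cases h : 2 * C.N ≤ r
    · rw [AD.D_big C h]
      exact (lieSub G).zero_mem
    · refine coef_mem_nat (lieSub G) (range (2 * C.N)) (fun r => C.D r y) (fun z _ => ?_) r
        (mem_range.2 (by omega))
      rw [← AD.conj]
      exact conj_mem_lie (fun x hx => G.mul_mem (G.mul_mem (C.mem z) hx) (G.inv_mem (C.mem z))) hy
  · refine Wt.sum _ fun ab hab => Wt.smul ?_ _
    have := ((C.wt ab.1).mul hy).mul (C.wt ab.2)
    rwa [add_comm _ b, add_assoc, ← add_smul, mem_antidiagonal.1 hab] at this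
  · simp [Curve.D, C.X0]
  · refine ⟨∑ ab ∈ antidiagonal r, (-1 : k) ^ ab.2 •
      (LinearMap.mulRight k (C.X ab.2) ∘ₗ LinearMap.mulLeft k (C.X ab.1)), fun y => ?_⟩
    simp [Curve.D]

end Pool.Agent.Lib.MP_3a0263_al.Q
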