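import Pool.Agent.Lib.MP_3a0263_al.Q.GBlue
import Pool.Agent.Lib.MP_3a0263_al.Q.ApiL
import Pool.Agent.Lib.MP_3a0263_al.Q.ApiZ1

namespace Pool.Agent.Lib.MP_3a0263_al.Q

open Matrix Pool.Agent.Lib.MP_3a0263_al.R

universe u

theorem st_crm (k : Type u) [Field k] [IsAlgClosed k] (p : ℕ) [Fact p.Prime] [CharP k p]
    (n : Type) [Fintype n] [DecidableEq n] (had : S_ad k n) (hstab : S_stab k n)
    (hta : S_ta k n) (htc : S_tc k n) : S_crm k n := by
  intro G T hMT α P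
  have hA := hta T hMT.max.2.1 hMT.diag
  have hC := htc T hMT.max.2.1 hMT.diag
  have hww : ∀ l, P.w (P.w l) = l := fun l => by
    have h := P.w_fix (l + P.w l) (by rw [map_add, P.w_neg, add_neg_cancel])
    rw [map_add, add_comm] at h
    exact add_right_cancel h
  refine ⟨hww, ?_⟩
  rintro β ⟨hβ, x, hx, hx0, hxw⟩
  let W : Submodule k (Matrix n n k) :=
    Submodule.span k {v | v ∈ lie G ∧ ∃ r : ℤ, Wt (β + r • α) v}
  have lin : ∀ φ : Matrix n n k →ₗ[k] Matrix n n k, ∀ V : Submodule k (Matrix n n k),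
      (∀ v ∈ lie G, ∀ r : ℤ, Wt (β + r • α) v → φ v ∈ V) → ∀ v ∈ W, φ v ∈ V := by
    intro φ V h v hv
    have : W ≤ V.comap φ := Submodule.span_le.2 fun v hv => by
      obtain ⟨h1, r, h2⟩ := hv
      exact h v h1 r h2
    exact this hv
  have hxW : x ∈ W := Submodule.subset_span ⟨hx, 0, by simpa using hxw⟩
  have hp := had G _ α P.e P.xp
  have hm := had G _ (-α) P.f P.xm
  have hD : ∀ r, ∀ v ∈ W, P.xp.D r v ∈ W ∧ P.xm.D r v ∈ W := by
    intro r v hv
    obtain ⟨φ, hφ⟩ := hp.lin r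
    obtain ⟨ψ, hψ⟩ := hm.lin r
    rw [← hφ, ← hψ]
    refine ⟨lin φ W (fun v h1 s h2 => ?_) v hv, lin ψ W (fun v h1 s h2 => ?_) v hv⟩
    · rw [hφ]
      refine Submodule.subset_span ⟨hp.mem r v h1, s + r, ?_⟩
      have := hp.wt r _ v h2
      rwa [add_assoc, ← natCast_zsmul, ← add_smul] at this
    · rw [hψ]
      refine Submodule.subset_span ⟨hm.mem r v h1, s - r, ?_⟩
      have := hm.wt r _ v h2
      rwa [add_assoc, ← natCast_zsmul, smul_neg, ← sub_eq_add_neg, ← sub_smul] at this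
  have hT : ∀ t ∈ T, ∀ v ∈ W,
      (t : Matrix n n k) * v * ((t⁻¹ : GL n k) : Matrix n n k) ∈ W := by
    intro t ht v hv
    refine lin ((LinearMap.mulRight k ((t⁻¹ : GL n k) : Matrix n n k)).comp
      (LinearMap.mulLeft k (t : Matrix n n k))) W (fun v h1 s h2 => ?_) v hv
    obtain ⟨c, hc⟩ := hA.wt _ v h2 t ht
    change (t : Matrix n n k) * v * ((t⁻¹ : GL n k) : Matrix n n k) ∈ W
    rw [hc]
    exact W.smul_mem c (Submodule.subset_span ⟨h1, s, h2⟩)
  have h1 := hstab G T α P W hD hT x (fun r _ => hD r x hxW)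
    fun t ht => W.sub_mem (hT t ht x hxW) hxW
  have h2 : (P.n0 : Matrix n n k) * x * ((P.n0⁻¹ : GL n k) : Matrix n n k) ∈ W := by
    simpa using W.add_mem h1 hxW
  have hsym : P.w.symm.toLinearMap = P.w.toLinearMap := LinearMap.ext fun l =>
    P.w.symm_apply_eq.2 (hww l).symm
  have h3 := hC.wt _ _ P.act β x hxw
  rw [hsym] at h3
  have h4 : (P.n0 : Matrix n n k) * x * ((P.n0⁻¹ : GL n k) : Matrix n n k) ∈ lie G :=
    conj_mem_lie (fun y hy => G.mul_mem (G.mul_mem P.n0_mem hy) (G.inv_mem P.n0_mem)) hx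
  have h5 : (P.n0 : Matrix n n k) * x * ((P.n0⁻¹ : GL n k) : Matrix n n k) ≠ 0 := fun h =>
    hx0 ((Units.mul_right_eq_zero _).1 ((Units.mul_left_eq_zero _).1 h))
  have h6 : ∃ r : ℤ, β + r • α = β ∘ₗ P.w.toLinearMap := by
    by_contra hn
    obtain ⟨π, hπ⟩ := exists_wcomp_lin (k := k) (β ∘ₗ P.w.toLinearMap)
    have := lin π ⊥ (fun v _ s h => by
      rw [hπ, h.wcomp_ne fun e => hn ⟨s, e⟩]; exact Submodule.zero_mem _) _ h2
    rw [hπ, h3.wcomp_self] at this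
    exact h5 this
  obtain ⟨r, hr⟩ := h6
  have e : β - (-r) • α = β ∘ₗ P.w.toLinearMap := by rw [← hr, neg_smul, sub_neg_eq_add]
  refine ⟨-r, e.symm, ?_⟩
  rw [e]
  refine ⟨fun h => hβ (LinearMap.ext fun l => ?_), _, h4, h5, h3⟩
  have := LinearMap.congr_fun h (P.w l)
  simpa [hww] using this

end Pool.Agent.Lib.MP_3a0263_al.Q
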