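import Pool.Agent.Lib.MP_3a0263_al.Q.GBlue

namespace Pool.Agent.Lib.MP_3a0263_al.Q

open MvPolynomial

universe u

namespace FINF

variable {k : Type u} [Field k] {m : Type}

lemma eval_line (y : m → k) (a : k) (s : MvPolynomial m k) :
    (aeval (fun j => Polynomial.C (y j) * Polynomial.X) s).eval a = eval (a • y) s := by
  induction s using MvPolynomial.induction_on with
  | C c => simp
  | add p q hp hq => simp [hp, hq]
  | mul_X p j hp => rw [map_mul, Polynomial.eval_mul, hp]; simp [mul_comm a]

lemma coeff_line (y : m → k) (N : ℕ) (s : MvPolynomial m k) :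
    (aeval (fun j => Polynomial.C (y j) * Polynomial.X) s).coeff N =
      eval y (homogeneousComponent N s) := by
  induction s using MvPolynomial.induction_on' with
  | add p q hp hq => simp [hp, hq]
  | monomial e c =>
    have h : aeval (fun j => Polynomial.C (y j) * Polynomial.X) (monomial e c) =
        Polynomial.C (eval y (monomial e c)) * Polynomial.X ^ e.degree := by
      rw [aeval_monomial, eval_monomial, Finsupp.prod, Finsupp.prod, Finsupp.degree_apply]
      simp [mul_pow, Finset.prod_mul_distrib, Finset.prod_pow_eq_pow_sum, mul_assoc, map_prod]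
    rw [h, Polynomial.coeff_C_mul_X_pow,
      homogeneousComponent_of_mem (isHomogeneous_monomial c rfl)]
    split_ifs <;> simp

lemma eval_scale (y : m → k) (a : k) (s : MvPolynomial m k) :
    eval y (aeval (fun j => (C a * X j : MvPolynomial m k)) s) = eval (a • y) s := by
  induction s using MvPolynomial.induction_on with
  | C c => simp
  | add p q hp hq => rw [map_add, map_add, map_add, hp, hq]
  | mul_X p j hp => rw [map_mul, map_mul, hp]; simp

lemma integral [Fintype m] {A : Type*} [CommRing A] [Algebra k A] (x : m → A) (N : m → ℕ)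
    (s : m → MvPolynomial m k) (hs : ∀ i, (s i).totalDegree ≤ N i)
    (h : ∀ i, x i ^ (N i + 1) = aeval x (s i)) (i : m) : IsIntegral k (x i) := by
  classical
  set W : Submodule k A := (restrictTotalDegree m k (∑ j, N j)).map (aeval x).toLinearMap
  have key : ∀ (d : ℕ) (φ : MvPolynomial m k), φ.totalDegree ≤ d → aeval x φ ∈ W := by
    intro d
    induction d using Nat.strong_induction_on with
    | _ d ih =>
    intro φ hφ
    rw [φ.as_sum, map_sum]
    refine W.sum_mem fun e he => ?_
    have hd : e.sum (fun _ r => r) ≤ d := (le_totalDegree he).trans hφ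
    by_cases hN : ∀ j, e j ≤ N j
    · refine ⟨monomial e (coeff e φ), (mem_restrictTotalDegree _ _ _).2 ?_, rfl⟩
      refine (totalDegree_monomial_le _ _).trans ?_
      rw [Finsupp.sum_fintype _ _ fun _ => rfl]
      exact Finset.sum_le_sum fun j _ => hN j
    push Not at hN
    obtain ⟨j, hj⟩ := hN
    obtain ⟨e', rfl⟩ : ∃ e', e = e' + Finsupp.single j (N j + 1) :=
      ⟨e - Finsupp.single j (N j + 1), (tsub_add_cancel_of_le (Finsupp.single_le_iff.2 hj)).symm⟩
    rw [Finsupp.sum_add_index' (fun _ => rfl) fun _ _ _ => rfl, Finsupp.sum_single_index rfl] at hd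
    rw [monomial_add_single, map_mul, map_pow, aeval_X, h j, ← map_mul]
    refine ih (d - 1) (by omega) _ ((totalDegree_mul _ _).trans ?_)
    have h1 : (monomial e' (coeff (e' + Finsupp.single j (N j + 1)) φ)).totalDegree ≤
      e'.sum (fun _ r => r) := totalDegree_monomial_le _ _
    have h2 := hs j
    omega
  have hW : Subalgebra.toSubmodule (aeval x : MvPolynomial m k →ₐ[k] A).range = W := by
    refine le_antisymm ?_ ?_
    · rintro _ ⟨φ, rfl⟩
      exact key _ φ le_rfl
    · rintro _ ⟨φ, -, rfl⟩
      exact ⟨φ, rfl⟩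
  refine IsIntegral.of_mem_of_fg (aeval x : MvPolynomial m k →ₐ[k] A).range ?_ _ ⟨X i, aeval_X _ _⟩
  rw [hW]
  exact Submodule.FG.map _ (Module.Finite.iff_fg.1 inferInstance)

/-- polynomials whose values on the cone over `Z` are divisible by the scaling parameter -/
def J (Z : Set (m → k)) : Ideal (MvPolynomial m k) where
  carrier := {r | ∃ s, ∀ a : k, ∀ y ∈ Z, eval (a • y) r = a * eval (a • y) s}
  zero_mem' := ⟨0, fun _ _ _ => by simp⟩
  add_mem' := fun ⟨s, hs⟩ ⟨s', hs'⟩ => ⟨s + s', fun a y hy => by
    rw [map_add, map_add, hs a y hy, hs' a y hy, mul_add]⟩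
  smul_mem' := fun g _ ⟨s, hs⟩ => ⟨g * s, fun a y hy => by
    rw [smul_eq_mul, map_mul, map_mul, hs a y hy, mul_left_comm]⟩

end FINF

open FINF in
theorem st_finf (k : Type u) [Field k] [IsAlgClosed k] (p : ℕ) [Fact p.Prime] [CharP k p]
    (n : Type) [Fintype n] [DecidableEq n] : S_finf k := by
  intro m _ O Z V hO h0 hZ hirr hV y0 hy0
  classical
  have h1 : ∀ i, ∃ (N : ℕ) (s : MvPolynomial m k), s.totalDegree ≤ N ∧
      ∀ y ∈ Z, y i ^ (N + 1) = eval y s := by
    intro i
    have hi : (X i : MvPolynomial m k) ∈ (J Z).radical := by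
      rw [← vanishingIdeal_zeroLocus_eq_radical (K := k), mem_vanishingIdeal_iff]
      intro y hy
      rw [mem_zeroLocus_iff] at hy
      rw [h0 y (fun q hq => hy q ⟨0, fun a z hz => ?_⟩) fun u hu => ?_, aeval_X, Pi.zero_apply]
      · rw [map_zero, mul_zero, ← eval_scale]
        exact hZ hz _ fun x hx => by rw [eval_scale]; exact hq _ (hO a x hx)
      · simpa using hy (X u) ⟨C (y0 u), fun a z hz => by simp [hV u hu z hz y0 hy0]⟩
    obtain ⟨N, hN⟩ := hi
    obtain ⟨s, hs⟩ : (X i : MvPolynomial m k) ^ (N + 1) ∈ J Z :=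
      pow_succ (X i : MvPolynomial m k) N ▸ Ideal.mul_mem_right _ _ hN
    refine ⟨N, homogeneousComponent N s, (homogeneousComponent_isHomogeneous N s).totalDegree_le,
      fun y hy => ?_⟩
    have e : Polynomial.C (y i ^ (N + 1)) * Polynomial.X ^ (N + 1) =
        aeval (fun j => Polynomial.C (y j) * Polynomial.X) s * Polynomial.X :=
      Polynomial.funext fun a => by
        rw [Polynomial.eval_mul_X, eval_line, mul_comm _ a, ← hs a y hy]
        simp [mul_pow, mul_comm]
    have e' := congrArg (fun P => Polynomial.coeff P (N + 1)) e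
    simpa only [Polynomial.coeff_mul_X, coeff_line, Polynomial.coeff_C_mul_X_pow, if_true] using e'
  choose N s hs hN using h1
  have h2 : ∀ φ : MvPolynomial m k, ∀ y : Z,
      aeval (fun i (z : Z) => z.1 i) φ y = eval y.1 φ := fun φ y => by
    induction φ using MvPolynomial.induction_on with
    | C c => simp
    | add p q hp hq => simp [hp, hq]
    | mul_X p j hp => simp [hp]
  have h3 : ∀ (i : m) (F : Finset k),
      (∀ y ∈ Z, eval y (∏ r ∈ F, (X i - C r : MvPolynomial m k)) = 0) →
      ∀ y ∈ Z, y0 i = y i := by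
    intro i F
    induction F using Finset.induction_on with
    | empty => intro h; simpa using h y0 hy0
    | insert r F hr ih =>
      intro h y hy
      rw [Finset.prod_insert hr] at h
      rcases hirr _ _ h with h | h
      · have a1 := h y0 hy0
        have a2 := h y hy
        simp only [map_sub, eval_X, eval_C, sub_eq_zero] at a1 a2
        rw [a1, a2]
      · exact ih h y hy
  intro y1 hy1
  funext i
  obtain ⟨P, hP, hP0⟩ := integral (fun i (z : Z) => z.1 i) N s hs
    (fun i => funext fun z => by rw [h2]; exact hN i z.1 z.2) i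
  refine h3 i P.roots.toFinset (fun y hy => ?_) y1 hy1
  rw [map_prod]
  refine Finset.prod_eq_zero (i := y i) ?_ (by simp)
  rw [Multiset.mem_toFinset, Polynomial.mem_roots hP.ne_zero, Polynomial.IsRoot.def]
  have := congrArg (Pi.evalAlgHom k (fun _ : Z => k) ⟨y, hy⟩) hP0
  rwa [← Polynomial.aeval_def, ← Polynomial.aeval_algHom_apply, map_zero,
    Polynomial.coe_aeval_eq_eval] at this

end Pool.Agent.Lib.MP_3a0263_al.Q
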