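import Pool.Agent.Lib.MP_3a0263_al.Q.GBlue
import Pool.Agent.Lib.MP_3a0263_al.Q.ApiC
import Pool.Agent.Lib.MP_3a0263_al.Q.ApiZ2
import Pool.Agent.Lib.MP_3a0263_al.Q.ApiZ3

namespace Pool.Agent.Lib.MP_3a0263_al.Q

open Matrix Pool.Agent.Lib.MP_3a0263_al.R

universe u

/-- the connected centraliser of a cocharacter in a reductive group is reductive -/
theorem st_lb (k : Type u) [Field k] [IsAlgClosed k] (p : ℕ) [Fact p.Prime] [CharP k p]
    (n : Type) [Fintype n] [DecidableEq n] (hlb1 : S_lb1 k n) (hla : S_la k n)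
    (hker : S_ker k n) : S_lb k n := by
  intro G T hG hT ν
  have hc : IsConnAlg (idc (G ⊓ Zc k ν.1)) := conn_idc (closed_inf hG.1.1 (closed_Zc ν.1))
  have hle : idc (G ⊓ Zc k ν.1) ≤ G := (idc_le _).trans inf_le_left
  have hTG : T ≤ G := hT.max.1
  have hTZ : T ≤ idc (G ⊓ Zc k ν.1) := by
    refine le_idc (fun t ht => ⟨hTG ht, ?_⟩) hT.max.2.1.1
    obtain ⟨d, rfl⟩ := hT.diag t ht
    exact dg_mem_Zc d ν.1
  refine ⟨⟨hc, fun N hN hNc hn hu => ?_⟩, hT.sub hc hTZ hle⟩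
  have hNG : (N : Set (GL n k)) ⊆ G := fun x hx => hle (hN hx)
  have hI := irr_of_conn hNc
  refine (Subgroup.eq_bot_iff_forall N).2 (hker G T hG hTG hT.diag N hNG hI N.one_mem fun R => ?_)
  exact hla G T hT R N hNG hI N.one_mem fun u hv => hlb1 G T hT ν N hN hn hu R u hv

end Pool.Agent.Lib.MP_3a0263_al.Q
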