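import Pool.Agent.Lib.MP_3a0263_al.Q.GBlue
import Pool.Agent.Lib.MP_3a0263_al.Q.ApiR

namespace Pool.Agent.Lib.MP_3a0263_al.Q

open Matrix Pool.Agent.Lib.MP_3a0263_al.R

universe u

namespace SWAP

theorem abs_eq {M : Type} [AddCommGroup M] (α : M →ₗ[ℤ] ℤ) (w : M ≃ₗ[ℤ] M) {l : M} (hl : α l ≠ 0)
    (hw : α (w l) ≠ 0) (h : ∀ l', α l * α (w l') = α (w l) * α l') : |α (w l)| = |α l| := by
  classical
  have ex : ∃ N : ℕ, ∃ x, α x ≠ 0 ∧ (α x).natAbs = N := ⟨_, l, hl, rfl⟩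
  obtain ⟨x, hx, e⟩ := Nat.find_spec ex
  have hm : ∀ y, α y ≠ 0 → |α x| ≤ |α y| := fun y hy => by
    have := Nat.find_min' ex ⟨y, hy, rfl⟩
    rw [← e] at this
    rw [← Int.natCast_natAbs, ← Int.natCast_natAbs]
    exact_mod_cast this
  have p0 := abs_pos.2 hx
  have a1 := h x
  have a2 := h (w.symm x)
  rw [w.apply_symm_apply] at a2
  have b1 := hm (w x) fun z => mul_ne_zero hw hx (by rw [← a1, z, mul_zero])
  have b2 := hm (w.symm x) fun z => mul_ne_zero hl hx (by rw [a2, z, mul_zero])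
  have c1 := congrArg abs a1
  have c2 := congrArg abs a2
  rw [abs_mul, abs_mul] at c1 c2
  refine le_antisymm (le_of_mul_le_mul_right ?_ p0) (le_of_mul_le_mul_right ?_ p0)
  · rw [c2]; exact mul_le_mul_of_nonneg_left b2 (abs_nonneg _)
  · rw [← c1]; exact mul_le_mul_of_nonneg_left b1 (abs_nonneg _)

end SWAP

theorem st_swap (k : Type u) [Field k] [IsAlgClosed k] (p : ℕ) [Fact p.Prime] [CharP k p]
    (n : Type) [Fintype n] [DecidableEq n] (htop : S_top k n) (hfix : S_fix k n) :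
    S_swap k n := by
  intro H T hM α ν l hW hZ hl hα R hm
  obtain ⟨u0, h0⟩ := htop H T hM R l hl
  obtain ⟨u1, h1⟩ := htop H T hM R (-l) hl.neg
  have hne : u0 ≠ u1 := by
    rintro rfl
    have : Nontrivial (Fin R.m) := Fin.nontrivial_iff_two_le.2 hm
    obtain ⟨v, hv⟩ := exists_ne u0
    have a := h0 v hv
    have b : -l.1 (R.ix v) < -l.1 (R.ix u0) := h1 v hv
    omega
  obtain ⟨h, hh, hy⟩ := R.exists_mulVec_ne (y := Pi.single u0 1) (by simp) u1
  rw [← R.col_eq] at hy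
  obtain ⟨g, hg, w, ha, -, u', ht, -, -, hv⟩ := hfix H T hM R l u0 hl h0 (R.col h u0)
    (fun q hq => hq _ ⟨1, h, hh, (one_smul _ _).symm⟩) (R.col_ne_zero hh u0) (-l) hl.neg
  obtain rfl : u1 = u' := by
    by_contra c
    exact lt_asymm (hv u1 c hy) (h1 u' (Ne.symm c))
  have hz : ∀ l' : Y T, α l' = 0 → H ≤ Zc k l'.1 := fun l' e x hx =>
    mem_Zc.2 fun i j hij => mem_Zc.1 (hZ hx) i j fun a => hij (hW.2 i j a l' e)
  have hf : ∀ l', α l' = 0 → w l' = l' := by
    intro l' e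
    refine Subtype.ext (funext fun i => zpow_inj (k := k) fun s => ?_)
    have a := ha.coch l' s
    rw [← mem_Zc_iff.1 (hz l' e hg) s, mul_inv_cancel_right] at a
    have b := congrFun (congrFun (congrArg (fun x : GL n k => (x : Matrix n n k)) a) i) i
    simp only [coch_val, diagonal_apply_eq] at b
    exact Units.ext b.symm
  have k1 := prop_of_ker (α := α) (b := eps (Y T) (R.ix u0) - eps (Y T) (R.ix u1))
    (fun l' e => sub_eq_zero.2 (R.const_of_le_Zc hM.max.1 l' (hz l' e) u0 u1)) l (w l)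
  have k2 := prop_of_ker (α := α) (b := α ∘ₗ w.toLinearMap)
    (fun l' e => (congrArg α (hf l' e)).trans e) l
  have s0 := sub_pos.2 (h0 u1 hne.symm)
  have s1 := sub_neg.2 (ht u0 hne)
  simp only [LinearMap.sub_apply, eps_apply] at k1
  have k3 : α (w l) ≠ 0 := fun z => mul_ne_zero hα s1.ne (by rw [k1, z, mul_zero])
  have k4 : α (w l) = -α l := by
    rcases abs_eq_abs.1 (SWAP.abs_eq α w hα k3 k2) with e | e
    · rw [e, mul_comm] at k1
      have := mul_right_cancel₀ hα k1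
      omega
    · exact e
  refine ⟨g, hg, w, ha, fun l' => mul_left_cancel₀ hα ?_, hf⟩
  have := k2 l'
  simp only [LinearMap.comp_apply, LinearEquiv.coe_coe, k4] at this
  linarith

end Pool.Agent.Lib.MP_3a0263_al.Q
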