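import Pool.Agent.Lib.MP_3a0263_al.Q.GBlue
import Pool.Agent.Lib.MP_3a0263_al.Q.ApiP

namespace Pool.Agent.Lib.MP_3a0263_al.Q

open Matrix Pool.Agent.Lib.MP_3a0263_al.R

universe u

variable {k : Type u} [Field k] {n : Type} [Fintype n] [DecidableEq n]

namespace UNIQ

/-- linear functionals killing an ideal detect membership -/
theorem mem_of_dual {R : Type u} [CommRing R] [Algebra k R] (I : Ideal R) (z : R)
    (h : ∀ φ : R →ₗ[k] k, (∀ w ∈ I, φ w = 0) → φ z = 0) : z ∈ I := by
  have h1 : (I.restrictScalars k).mkQ z = 0 := by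
    rw [← Module.forall_dual_apply_eq_zero_iff k]
    intro ψ
    refine h (ψ ∘ₗ (I.restrictScalars k).mkQ) fun w hw => ?_
    have : (I.restrictScalars k).mkQ w = 0 := (Submodule.Quotient.mk_eq_zero _).2 hw
    simp only [LinearMap.comp_apply, this, map_zero]
  exact (Submodule.Quotient.mk_eq_zero _).1 h1

/-- a matrix tangent to `H` modulo `I` whose coordinates vanish modulo `I` vanishes modulo `I` -/
theorem tangent {H : Subgroup (GL n k)} {Ys : Submodule ℤ (n → ℤ)} (F : Fr H Ys) {R : Type u}
    [CommRing R] [Algebra k R] (I : Ideal R) (δ : Matrix n n R)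
    (h1 : ∀ f ∈ vanish (H : Set (GL n k)),
      ∑ ij : n × n, MvPolynomial.aeval (entries (1 : GL n k)) (MvPolynomial.pderiv ij f) •
        δ ij.1 ij.2 ∈ I)
    (h2 : ∀ i, lf (F.c i) δ ∈ I) (i j : n) : δ i j ∈ I := by
  refine mem_of_dual (k := k) I _ fun φ hφ => ?_
  have hl : δ.map φ ∈ lie H := by
    rw [mem_lie_iff]
    intro f hf
    have := hφ _ (h1 f hf)
    rw [map_sum] at this
    rw [← this]
    refine Finset.sum_congr rfl fun ij _ => ?_
    rw [map_smul, Matrix.map_apply, smul_eq_mul, mul_comm]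
  have hc : ∀ v, lf (F.c v) (δ.map φ) = 0 := fun v => by
    rw [← hφ _ (h2 v)]
    simp only [lf, Matrix.map_apply, map_sum, map_smul]
  have h0 : δ.map φ = 0 := by
    rw [F.span _ hl]
    simp only [hc, zero_smul, Finset.sum_const_zero]
  have := congrFun (congrFun h0 i) j
  simpa only [Matrix.map_apply, Matrix.zero_apply] using this

end UNIQ

theorem st_uniq (k : Type u) [Field k] [IsAlgClosed k] (p : Nat) [Fact p.Prime] [CharP k p]
    (n : Type) [Fintype n] [DecidableEq n] : S_uniq k n := by
  intro H Ys F R _ _ J N x x' hx hx' h1 h1' hl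
  have key : ∀ r, r ≤ N → ∀ i j, (x - x') i j ∈ J ^ r := by
    intro r
    induction r with
    | zero => intro _ i j; simp
    | succ r ih =>
      intro hr
      rcases Nat.eq_zero_or_pos r with rfl | hpos
      · intro i j
        have := J.sub_mem (h1 i j) (h1' i j)
        rw [zero_add, pow_one, Matrix.sub_apply]
        rwa [sub_sub_sub_cancel_right] at this
      · have hN : J ^ N ≤ J ^ (r + 1) := Ideal.pow_le_pow_right hr
        have hI : J ^ r ≤ J := Ideal.pow_le_self hpos.ne'
        refine UNIQ.tangent F _ _ (fun f hf => ?_) fun i => hN (hl i)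
        have ht := taylor h1' (ih (Nat.le_of_succ_le hr)) hI f
        rw [add_sub_cancel, ← pow_succ] at ht
        have := (J ^ (r + 1)).sub_mem ((J ^ (r + 1)).sub_mem (hN (hx f hf)) (hN (hx' f hf))) ht
        rwa [sub_sub_cancel] at this
  intro i j
  exact key N le_rfl i j

end Pool.Agent.Lib.MP_3a0263_al.Q
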