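import Pool.Agent.Lib.MP_3a0263_al.Q.GDefs

namespace Pool.Agent.Lib.MP_3a0263_al.Q

open Matrix Pool.Agent.Lib.MP_3a0263_al.R

attribute [local instance 100] LieRing.ofAssociativeRing

universe u

variable {k : Type u} [Field k] {n : Type} [Fintype n] [DecidableEq n]

/-- the matrix of `x ↦ a * x * b` in the basis of matrix units -/
def adM {R : Type*} [CommRing R] (a b : Matrix n n R) : Matrix (n × n) (n × n) R :=
  Matrix.of fun ij ij' => a ij.1 ij'.1 * b ij'.2 ij.2

omit [Fintype n] [DecidableEq n] in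
theorem adM_apply {R : Type*} [CommRing R] (a b : Matrix n n R) (ij ij' : n × n) :
    adM a b ij ij' = a ij.1 ij'.1 * b ij'.2 ij.2 := rfl

omit [DecidableEq n] in
theorem adM_mul {R : Type*} [CommRing R] (a b a' b' : Matrix n n R) :
    adM a b * adM a' b' = adM (a * a') (b' * b) := by
  ext ij ij'
  simp only [Matrix.mul_apply, adM_apply, Fintype.sum_prod_type, Finset.sum_mul_sum]
  exact Finset.sum_congr rfl fun c _ => Finset.sum_congr rfl fun d _ => by ring

omit [Fintype n] in
theorem adM_one {R : Type*} [CommRing R] : adM (1 : Matrix n n R) 1 = 1 := by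
  ext ⟨i, j⟩ ⟨i', j'⟩
  simp only [adM_apply, one_apply, Prod.mk.injEq]
  by_cases h : i = i' <;> by_cases h' : j = j' <;> simp [h, h', eq_comm]

omit [DecidableEq n] in
theorem adM_mulVec {R : Type*} [CommRing R] (a b x : Matrix n n R) :
    (adM a b *ᵥ fun ij => x ij.1 ij.2) = fun ij => (a * x * b) ij.1 ij.2 := by
  funext ij
  simp only [mulVec, dotProduct, adM_apply, Fintype.sum_prod_type, Matrix.mul_apply,
    Finset.sum_mul]
  rw [Finset.sum_comm]
  exact Finset.sum_congr rfl fun c _ => Finset.sum_congr rfl fun d _ => by ring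

/-- the adjoint representation of `GL n` -/
def AdH (k : Type u) [Field k] (n : Type) [Fintype n] [DecidableEq n] :
    GL n k →* GL (n × n) k where
  toFun g := ⟨adM (g : Matrix n n k) ((g⁻¹ : GL n k) : Matrix n n k),
    adM ((g⁻¹ : GL n k) : Matrix n n k) (g : Matrix n n k),
    by rw [adM_mul, Units.mul_inv, adM_one], by rw [adM_mul, Units.inv_mul, adM_one]⟩
  map_one' := Units.ext (by simpa using adM_one)
  map_mul' g h := Units.ext (by simp [adM_mul])

theorem AdH_val (g : GL n k) : (AdH k n g : Matrix (n × n) (n × n) k) =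
    adM (g : Matrix n n k) ((g⁻¹ : GL n k) : Matrix n n k) := rfl

/-- the adjoint representation of `gl n` -/
def adL (k : Type u) [Field k] (n : Type) [Fintype n] [DecidableEq n] :
    Matrix n n k →ₗ⁅k⁆ Matrix (n × n) (n × n) k where
  toFun x := adM x 1 - adM 1 x
  map_add' x y := by ext; simp [adM_apply]; ring
  map_smul' c x := by ext; simp [adM_apply]; ring
  map_lie' := fun {x y} => by
    simp only [Ring.lie_def, mul_sub, sub_mul, adM_mul, mul_one, one_mul]
    ext; simp [adM_apply]; ring

theorem adL_apply (x : Matrix n n k) : adL k n x = adM x 1 - adM 1 x := rfl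

theorem adL_mulVec (x y : Matrix n n k) :
    (adL k n x *ᵥ fun ij => y ij.1 ij.2) = fun ij => (x * y - y * x) ij.1 ij.2 := by
  rw [adL_apply, sub_mulVec, adM_mulVec, adM_mulVec, mul_one, one_mul]; rfl

theorem adL_eq_zero [Nonempty n] {x : Matrix n n k} : adL k n x = 0 ↔ ∃ c : k, x = c • 1 := by
  refine ⟨fun h => ?_, ?_⟩
  · obtain ⟨c, hc⟩ := (mem_range_scalar_iff_commute_single' (M := x)).2 fun i j => by
      have := adL_mulVec x (single i j 1)
      rw [h, zero_mulVec] at this
      refine (sub_eq_zero.1 (Matrix.ext fun a b => (congrFun this (a, b)).symm) : _).symm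
    exact ⟨c, by rw [← hc, scalar_apply, smul_one_eq_diagonal]⟩
  · rintro ⟨c, rfl⟩
    rw [map_smul, adL_apply, sub_self, smul_zero]

theorem AdH_conj (g : GL n k) (x : Matrix n n k) :
    (AdH k n g : Matrix (n × n) (n × n) k) * adL k n x *
      (((AdH k n g)⁻¹ : GL (n × n) k) : Matrix (n × n) (n × n) k) =
      adL k n ((g : Matrix n n k) * x * ((g⁻¹ : GL n k) : Matrix n n k)) := by
  rw [← map_inv, AdH_val, AdH_val, adL_apply, adL_apply, inv_inv]
  simp only [mul_sub, sub_mul, adM_mul, mul_one, one_mul, Units.mul_inv, mul_assoc]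

/-- the projective linear group in its adjoint representation -/
def PG (k : Type u) [Field k] (n : Type) [Fintype n] [DecidableEq n] : Subgroup (GL (n × n) k) :=
  (AdH k n).range

/-- its diagonal torus -/
def PT (k : Type u) [Field k] (n : Type) [Fintype n] [DecidableEq n] : Subgroup (GL (n × n) k) :=
  ((AdH k n).comp dgHom).range

variable (k : Type u) [Field k] (p : ℕ) (N : ℕ)

def S_pg1 : Prop := IsConnAlg (PG k (Fin N))

def S_pg2 : Prop := lie (PG k (Fin N)) = Set.range (adL k (Fin N))

def S_pg3 : Prop :=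
  ∀ U : Subgroup (GL (Fin N × Fin N) k), U ≤ PG k (Fin N) →
    (∀ g ∈ PG k (Fin N), ∀ u ∈ U, g * u * g⁻¹ ∈ U) →
    (∀ u ∈ U, IsNilpotent ((u : Matrix (Fin N × Fin N) (Fin N × Fin N) k) - 1)) → U = ⊥

def S_pg4 : Prop := IsMaxTorus (PG k (Fin N)) (PT k (Fin N))

def S_pg5 : Prop := IsGood p (PG k (Fin N))

end Pool.Agent.Lib.MP_3a0263_al.Q
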