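import Pool.Agent.Lib.MP_3a0263_al.Q.PDefs
import Pool.Agent.Lib.MP_3a0263_al.Q.ClassC
import Pool.Agent.Lib.MP_3a0263_al.Dims

namespace Pool.Agent.Lib.MP_3a0263_al.Q

open Matrix Pool.Agent.Lib.MP_3a0263_al.R

attribute [local instance 100] LieRing.ofAssociativeRing

universe u

variable {k : Type u} [Field k]

theorem adL_pow (p : ℕ) [Fact p.Prime] [CharP k p] {n : Type} [Fintype n] [DecidableEq n]
    [Nonempty n] (x : Matrix n n k) : adL k n (x ^ p) = adL k n x ^ p := by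
  have h1 : ∀ j : ℕ, adM x (1 : Matrix n n k) ^ j = adM (x ^ j) 1 := fun j => by
    induction j with
    | zero => simpa using adM_one.symm
    | succ j ih => rw [pow_succ, ih, adM_mul, pow_succ, mul_one]
  have h2 : ∀ j : ℕ, adM (1 : Matrix n n k) x ^ j = adM 1 (x ^ j) := fun j => by
    induction j with
    | zero => simpa using adM_one.symm
    | succ j ih => rw [pow_succ, ih, adM_mul, pow_succ', mul_one]
  have hc : Commute (adM x (1 : Matrix n n k)) (adM 1 x) := by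
    simp [Commute, SemiconjBy, adM_mul]
  rw [adL_apply, adL_apply, sub_pow_char_of_commute p hc, h1, h2]

theorem exists_pgl_hom (N : ℕ) (hN : 0 < N) :
    ∃ r : (Matrix (Fin N) (Fin N) k ⧸ scalarIdealGl k N) →ₗ⁅k⁆
      Matrix (Fin N × Fin N) (Fin N × Fin N) k, ∀ x, r (quotHom _ x) = adL k (Fin N) x := by
  have : Nonempty (Fin N) := ⟨⟨0, hN⟩⟩
  let r0 : (Matrix (Fin N) (Fin N) k ⧸ scalarIdealGl k N) →ₗ[k]
      Matrix (Fin N × Fin N) (Fin N × Fin N) k :=
    (scalarIdealGl k N).toSubmodule.liftQ (adL k (Fin N)).toLinearMap fun x hx => adL_eq_zero.2 hx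
  have h0 : ∀ x, r0 (quotHom _ x) = adL k (Fin N) x := fun _ => rfl
  refine ⟨{ r0 with map_lie' := fun {x y} => ?_ }, h0⟩
  obtain ⟨x, rfl⟩ := quotHom_surj _ x
  obtain ⟨y, rfl⟩ := quotHom_surj _ y
  show r0 _ = ⁅r0 _, r0 _⁆
  rw [← LieHom.map_lie, h0, h0, h0, LieHom.map_lie]

theorem pgl_inClassC (p : ℕ) [hp : Fact p.Prime] [CharP k p] (r : ℕ) (hr : 1 ≤ r)
    (h1 : S_pg1 k (r * p)) (h2 : S_pg2 k (r * p)) (h3 : S_pg3 k (r * p))
    (h5 : S_pg5 k p (r * p)) :
    InClassC k p (Matrix (Fin (r * p)) (Fin (r * p)) k ⧸ scalarIdealGl k (r * p)) := by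
  have hp2 : 2 ≤ p := hp.out.two_le
  have hn : 0 < r * p := by positivity
  have : Nonempty (Fin (r * p)) := ⟨⟨0, hn⟩⟩
  obtain ⟨ρ, hρ⟩ := exists_pgl_hom (k := k) (r * p) hn
  have hinj : Function.Injective ρ := by
    rw [injective_iff_map_eq_zero]
    intro x hx
    obtain ⟨x, rfl⟩ := quotHom_surj _ x
    exact (quotHom_eq_zero _ x).2 (adL_eq_zero.1 (hρ x ▸ hx))
  refine ⟨⟨_, inferInstance, inferInstance, PG k (Fin (r * p)), ρ,
    ⟨h1, fun U hU _ => h3 U hU⟩, h5, hinj, ?_, fun hc x y hxy => ?_⟩,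
    not_iso_psl k p r (finrank_pgl k _ hn)⟩
  · rw [h2]
    ext z
    refine ⟨?_, ?_⟩
    · rintro ⟨x, rfl⟩
      obtain ⟨x, rfl⟩ := quotHom_surj _ x
      exact ⟨x, (hρ x).symm⟩
    · rintro ⟨x, rfl⟩
      exact ⟨_, hρ x⟩
  · obtain ⟨x, rfl⟩ := quotHom_surj _ x
    have h6 : ∀ (j : ℕ) z, ((LieAlgebra.ad k _ (quotHom (scalarIdealGl k (r * p)) x)) ^ j)
        (quotHom _ z) = quotHom _ ((LieAlgebra.ad k _ x ^ j) z) := fun j => by
      induction j with
      | zero => intro z; rfl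
      | succ j ih =>
        intro z
        rw [pow_succ', pow_succ', Module.End.mul_apply, Module.End.mul_apply, ih,
          LieAlgebra.ad_apply, LieAlgebra.ad_apply, LieHom.map_lie]
    have h7 : LieAlgebra.ad k _ x ^ p = LieAlgebra.ad k _ (x ^ p) := by
      have : Nontrivial (Module.End k (Matrix (Fin (r * p)) (Fin (r * p)) k)) := inferInstance
      have : CharP (Module.End k (Matrix (Fin (r * p)) (Fin (r * p)) k)) p :=
        charP_of_injective_algebraMap (algebraMap k _).injective p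
      rw [LieAlgebra.ad_eq_lmul_left_sub_lmul_right, Pi.sub_apply, Pi.sub_apply,
        sub_pow_char_of_commute p (LinearMap.commute_mulLeft_right x x), LinearMap.pow_mulLeft,
        LinearMap.pow_mulRight]
    have h8 : y - quotHom _ (x ^ p) ∈ LieAlgebra.center k _ := by
      rw [LieModule.mem_maxTrivSubmodule]
      intro z
      obtain ⟨z, rfl⟩ := quotHom_surj _ z
      rw [← lie_skew, neg_eq_zero, sub_lie, ← LieAlgebra.ad_apply k, hxy, h6, h7,
        LieAlgebra.ad_apply, LieHom.map_lie, sub_self]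
    rw [hc, LieSubmodule.mem_bot, sub_eq_zero] at h8
    rw [h8, hρ, hρ, adL_pow]

end Pool.Agent.Lib.MP_3a0263_al.Q
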