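import Pool.Agent.Lib.MP_3a0263_al.Q.PDefs
import Pool.Agent.Lib.MP_3a0263_al.Q.ApiZ2
import Pool.Agent.Lib.MP_3a0263_al.R.B_KOL

namespace Pool.Agent.Lib.MP_3a0263_al.Q

open Matrix Pool.Agent.Lib.MP_3a0263_al.R

attribute [local instance 100] LieRing.ofAssociativeRing

universe u

namespace PG1

variable {k : Type u} [Field k] {n : Type} [Fintype n] [DecidableEq n]

/-- the action of a big matrix on small matrices -/
def act (w : Matrix (n × n) (n × n) k) : Matrix n n k →ₗ[k] Matrix n n k where
  toFun x := Matrix.of fun i j => (w *ᵥ fun ij => x ij.1 ij.2) (i, j)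
  map_add' x y := by
    ext i j
    simp [mulVec, dotProduct, mul_add, Finset.sum_add_distrib]
  map_smul' c x := by
    ext i j
    simp [mulVec, dotProduct, Finset.mul_sum, mul_left_comm]

omit [DecidableEq n] in
theorem act_apply (w : Matrix (n × n) (n × n) k) (x : Matrix n n k) (i j : n) :
    act w x i j = (w *ᵥ fun ij => x ij.1 ij.2) (i, j) := rfl

omit [DecidableEq n] in
theorem act_mul (w w' : Matrix (n × n) (n × n) k) (x : Matrix n n k) :
    act (w * w') x = act w (act w' x) := by
  ext i j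
  rw [act_apply, act_apply, ← mulVec_mulVec]
  rfl

theorem act_one (x : Matrix n n k) : act 1 x = x := by
  ext i j
  rw [act_apply, one_mulVec]

omit [DecidableEq n] in
theorem act_adM (a b x : Matrix n n k) : act (adM a b) x = a * x * b := by
  ext i j
  rw [act_apply, adM_mulVec]

omit [DecidableEq n] in
theorem act_inj {w w' : Matrix (n × n) (n × n) k} (h : ∀ x, act w x = act w' x) : w = w' := by
  rw [Matrix.ext_iff_mulVec]
  intro v
  funext ij
  exact congrFun (congrFun (h (Matrix.of fun i j => v (i, j))) ij.1) ij.2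

theorem regM_act (x : Matrix n n k) :
    RegM fun w : GL (n × n) k => act (w : Matrix (n × n) (n × n) k) x := fun i j =>
  reg_sum Finset.univ
    (φ := fun ij (w : GL (n × n) k) => (w : Matrix (n × n) (n × n) k) (i, j) ij * x ij.1 ij.2)
    fun _ _ => reg_mul (reg_entry _ _) (reg_const _)

theorem mem_PG {w : GL (n × n) k} : w ∈ PG k n ↔ ∀ a b : Matrix n n k,
    act (w : Matrix (n × n) (n × n) k) (a * b) = act w a * act w b := by
  constructor
  · rintro ⟨g, rfl⟩ a b
    rw [AdH_val, act_adM, act_adM, act_adM]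
    simp only [mul_assoc, Units.inv_mul_cancel_left]
  · intro h
    have h1 : ∀ x, act (w : Matrix (n × n) (n × n) k) (act (w⁻¹ : GL (n × n) k) x) = x := fun x => by
      rw [← act_mul, Units.mul_inv, act_one]
    have h2 : ∀ x, act (w⁻¹ : GL (n × n) k) (act (w : Matrix (n × n) (n × n) k) x) = x := fun x => by
      rw [← act_mul, Units.inv_mul, act_one]
    let e : Matrix n n k ≃ₗ[k] Matrix n n k :=
      LinearEquiv.ofLinearMap (act (w : Matrix (n × n) (n × n) k))
        (act ((w⁻¹ : GL (n × n) k) : Matrix (n × n) (n × n) k)) (LinearMap.ext h1) (LinearMap.ext h2)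
    have h3 : act (w : Matrix (n × n) (n × n) k) 1 = 1 := by
      have := h 1 (act (w⁻¹ : GL (n × n) k) 1)
      rw [one_mul, h1, mul_one] at this
      exact this.symm
    obtain ⟨z, ⟨g, rfl⟩, hz⟩ := Kol.inner (AlgEquiv.ofLinearEquiv e h3 h)
    refine ⟨g, Units.ext (act_inj fun x => ?_)⟩
    rw [AdH_val, act_adM, ← hz x, Units.mul_inv_cancel_right]
    rfl

theorem closed_PG : IsZClosed (PG k n : Set (GL (n × n) k)) := fun w hw =>
  mem_PG.2 fun a b => closed_eq (regM_act (a * b)) ((regM_act a).mul (regM_act b)) w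
    fun f hf => hw f (vanish_anti (fun _ hg => mem_PG.1 hg a b) hf)

theorem irr_univ [IsAlgClosed k] : ZAR.Irr (Set.univ : Set (GL n k)) := by
  have h := vanish_zero (n := n) (P := ⊥) (k := k) Ideal.isPrime_bot (fun f hf => by
    rw [Ideal.mem_bot.1 hf, map_zero])
  have e : {g : GL n k | ∀ f ∈ (⊥ : Ideal (MvPolynomial (n × n) k)),
      MvPolynomial.aeval (entries g) f = 0} = Set.univ :=
    Set.eq_univ_of_forall fun g f hf => by rw [Ideal.mem_bot.1 hf, map_zero]
  rw [e] at h
  intro f g hfg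
  rw [h] at hfg ⊢
  exact Ideal.isPrime_bot.mem_or_mem hfg

theorem regM_AdH : RegM fun g : GL n k => (AdH k n g : Matrix (n × n) (n × n) k) := fun _ _ =>
  reg_mul (reg_entry _ _) (reg_inv_entry _ _)

end PG1

theorem st_pg1 (k : Type u) [Field k] [IsAlgClosed k] (p : ℕ) [Fact p.Prime] [CharP k p] (N : ℕ)
    (hN : 2 ≤ N) : S_pg1 k N := by
  refine ⟨PG1.closed_PG, prime_of_irr ?_ (PG k (Fin N)).one_mem⟩
  have h := irr_image (PG1.irr_univ (k := k) (n := Fin N)) PG1.regM_AdH
  rwa [Set.image_univ] at h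

end Pool.Agent.Lib.MP_3a0263_al.Q
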