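import Pool.Agent.Lib.MP_3a0263_al.Q.PDefs

namespace Pool.Agent.Lib.MP_3a0263_al.Q

open Matrix Pool.Agent.Lib.MP_3a0263_al.R LaurentPolynomial

attribute [local instance 100] LieRing.ofAssociativeRing

universe u

namespace PG2

variable {k : Type u} [Field k] {n : Type} [Fintype n] [DecidableEq n]

theorem lin_eq {y : Matrix (n × n) (n × n) k} (hy : y ∈ lie (PG k n)) (i j p q r s : n) :
    (if i = p then y (q, j) (r, s) else 0) + (if j = s then y (i, r) (p, q) else 0) =
      if q = r then y (i, j) (p, s) else 0 := by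
  have h := hy (∑ l, MvPolynomial.X ((i, l), (p, q)) * MvPolynomial.X ((l, j), (r, s)) -
    MvPolynomial.C ((1 : Matrix n n k) q r) * MvPolynomial.X ((i, j), (p, s)))
    (mem_vanish.2 (by
      rintro _ ⟨g, rfl⟩
      simp only [map_sub, map_sum, map_mul, MvPolynomial.aeval_X, MvPolynomial.aeval_C, entries,
        AdH_val, adM_apply, Algebra.algebraMap_self, RingHom.id_apply]
      rw [← Units.inv_mul g, Matrix.mul_apply, Finset.sum_mul, ← Finset.sum_sub_distrib]
      exact Finset.sum_eq_zero fun l _ => by ring))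
  have h2 := congrArg TrivSqZeroExt.snd h
  simp only [map_sub, map_sum, map_mul, MvPolynomial.aeval_X, MvPolynomial.aeval_C,
    TrivSqZeroExt.snd_sub, TrivSqZeroExt.snd_sum, DualNumber.snd_mul, TrivSqZeroExt.fst_add,
    TrivSqZeroExt.snd_add, TrivSqZeroExt.fst_inl, TrivSqZeroExt.snd_inl, TrivSqZeroExt.fst_inr,
    TrivSqZeroExt.snd_inr, TrivSqZeroExt.algebraMap_eq_inl, add_zero, zero_add, zero_mul,
    TrivSqZeroExt.snd_zero, Finset.sum_add_distrib, one_apply, Prod.mk.injEq] at h2
  rw [sub_eq_zero] at h2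
  by_cases h1 : i = p <;> by_cases h3 : j = s <;> by_cases h4 : q = r <;>
    simpa [h1, h3, h4] using h2

theorem sub [Nonempty n] {y : Matrix (n × n) (n × n) k} (hy : y ∈ lie (PG k n)) :
    y ∈ Set.range (adL k n) := by
  obtain ⟨o⟩ := ‹Nonempty n›
  refine ⟨Matrix.of fun i i' => y (i, o) (i', o), ?_⟩
  have h0 : y (o, o) (o, o) = 0 := by simpa using lin_eq hy o o o o o o
  ext ⟨i, j⟩ ⟨p, s⟩
  have h1 := lin_eq hy i j p o o s
  have h2 := lin_eq hy o o o s j o
  have h3 : y (s, o) (j, o) + y (o, j) (o, s) = 0 := by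
    by_cases h : s = j <;> simpa [h, h0] using h2
  have h4 : y (o, j) (o, s) = -y (s, o) (j, o) := by linear_combination h3
  rw [if_pos rfl, h4] at h1
  rw [← h1, adL_apply, Matrix.sub_apply, adM_apply, adM_apply]
  by_cases a : i = p <;> by_cases b : j = s <;> simp [a, b, one_apply, eq_comm, sub_eq_neg_add]

theorem curve [Infinite k] {A B : Matrix n n k[T;T⁻¹]} (h : A * B = 1) (h1 : evM 1 A = 1) :
    adL k n (tan A) ∈ lie (PG k n) := by
  have hs : ∀ s, evM s A * evM s B = 1 := fun s => by rw [← map_mul, h, map_one]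
  have h2 : evM 1 B = 1 := by simpa [h1] using hs 1
  have hv : ∀ s, evM s (adM A B) = adM (evM s A) (evM s B) := fun s => by
    ext ij ij'
    simp only [evM_apply, adM_apply, map_mul]
  have h3 : tan B = -tan A := by
    have := tan_mul A B
    rw [h, h1, h2, ← map_one cM, tan_cM, one_mul, mul_one] at this
    exact eq_neg_of_add_eq_zero_left this.symm
  have h4 : tan (adM A B) = adL k n (tan A) := by
    ext ij ij'
    rw [tan_apply, adM_apply, der_mul, ← evM_apply, ← evM_apply, ← tan_apply, ← tan_apply, h1, h2,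
      h3, adL_apply, Matrix.sub_apply, adM_apply, adM_apply, Matrix.neg_apply]
    ring
  rw [← h4]
  refine tan_mem_lie (by rw [hv, h1, h2, adM_one]) ?_
  rintro g ⟨s, hg⟩
  exact ⟨⟨evM s A, evM s B, hs s, mul_eq_one_comm.1 (hs s)⟩, Units.ext (hg.trans (hv s)).symm⟩

theorem curve' [Infinite k] {e : Matrix n n k} {g : k[T;T⁻¹]}
    (h : (T 1 - 1 + g) • cM e + ((T 1 - 1) * g) • cM (e * e) = 0) : adL k n e ∈ lie (PG k n) := by
  have e1 : ev 1 (T 1 - 1 : k[T;T⁻¹]) = 0 := by rw [map_sub, ev_T]; simp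
  have e2 : der (T 1 - 1 : k[T;T⁻¹]) = 1 := by
    have := (derL (k := k)).map_sub (T 1) (T 0)
    change der _ = der _ - der _ at this
    rw [der_T, der_T, T_zero] at this
    simpa using this
  have := curve (A := 1 + (T 1 - 1 : k[T;T⁻¹]) • cM e) (B := 1 + g • cM e) (by
    rw [add_mul, one_mul, mul_add, mul_one, smul_mul_smul_comm, ← map_mul, add_assoc,
      ← add_assoc (g • _), ← add_smul, add_comm g, h, add_zero]) (by
    ext i j
    simp [evM_apply, e1, one_apply, apply_ite])
  rwa [← tanL_apply, map_add, tanL_apply, tanL_apply, tan_smul, ← map_one cM, tan_cM, e1, e2,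
    evM_cM, zero_smul, one_smul, zero_add, zero_add] at this

theorem sup [Infinite k] (x : Matrix n n k) : adL k n x ∈ lie (PG k n) := by
  rw [← mem_lieSub]
  induction x using Matrix.induction_on' with
  | h_zero => rw [map_zero]; exact zero_mem _
  | h_add a b ha hb => rw [map_add]; exact add_mem ha hb
  | h_std_basis i j c =>
    rw [show single i j c = c • single i j (1 : k) by simp, map_smul]
    refine Submodule.smul_mem _ _ (mem_lieSub.2 ?_)
    by_cases h : j = i
    · subst h
      refine curve' (g := T (-1) - 1) ?_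
      have : (T 1 * T (-1) : k[T;T⁻¹]) = 1 := by rw [← T_add]; simp
      rw [single_mul_single_same, mul_one, ← add_smul,
        show (T 1 - 1 + (T (-1) - 1) + (T 1 - 1) * (T (-1) - 1) : k[T;T⁻¹]) = 0 by
          linear_combination this, zero_smul]
    · refine curve' (g := -(T 1 - 1)) ?_
      rw [single_mul_single_of_ne _ _ _ _ h, map_zero, add_neg_cancel, zero_smul, smul_zero,
        add_zero]

end PG2

theorem st_pg2 (k : Type u) [Field k] [IsAlgClosed k] (p : ℕ) [Fact p.Prime] [CharP k p] (N : ℕ)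
    (hN : 2 ≤ N) : S_pg2 k N := by
  have : Nonempty (Fin N) := ⟨⟨0, by omega⟩⟩
  exact Set.Subset.antisymm (fun y hy => PG2.sub hy) (by rintro _ ⟨x, rfl⟩; exact PG2.sup x)

end Pool.Agent.Lib.MP_3a0263_al.Q
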