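import Pool.Agent.Lib.MP_3a0263_al.Q.PDefs
import Pool.Agent.Lib.MP_3a0263_al.R.B_KOL

namespace Pool.Agent.Lib.MP_3a0263_al.Q

open Matrix Pool.Agent.Lib.MP_3a0263_al.R

attribute [local instance 100] LieRing.ofAssociativeRing

universe u

namespace PG3

variable {k : Type u} [Field k] {n : Type} [Fintype n] [DecidableEq n]

/-- conjugation as an algebra automorphism -/
noncomputable def cj (k : Type u) [Field k] (n : Type) [Fintype n] [DecidableEq n] :
    GL n k →* (Matrix n n k ≃ₐ[k] Matrix n n k) :=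
  (MulSemiringAction.toAlgAut (ConjAct (Matrix n n k)ˣ) k (Matrix n n k)).comp
    ConjAct.toConjAct.toMonoidHom

theorem cj_apply (g : GL n k) (x : Matrix n n k) :
    cj k n g x = (g : Matrix n n k) * x * ((g⁻¹ : GL n k) : Matrix n n k) := rfl

theorem ad_vec (g : GL n k) (x : Matrix n n k) :
    ((AdH k n g : Matrix (n × n) (n × n) k) *ᵥ fun ij => x ij.1 ij.2) =
      fun ij => cj k n g x ij.1 ij.2 := by
  rw [AdH_val, adM_mulVec, cj_apply]

theorem pow_vec (g : GL n k) (r : ℕ) (x : Matrix n n k) :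
    (((AdH k n g : Matrix (n × n) (n × n) k) - 1) ^ r *ᵥ fun ij => x ij.1 ij.2) =
      fun ij => (((cj k n g).toLinearMap - 1 : Module.End k (Matrix n n k)) ^ r) x ij.1 ij.2 := by
  induction r generalizing x with
  | zero => simp
  | succ r ih =>
    rw [pow_succ, pow_succ, ← mulVec_mulVec, sub_mulVec, one_mulVec, ad_vec, Module.End.mul_apply,
      ← ih]
    rfl

theorem nilp {g : GL n k} (h : IsNilpotent ((AdH k n g : Matrix (n × n) (n × n) k) - 1)) :
    IsNilpotent ((cj k n g).toLinearMap - 1 : Module.End k (Matrix n n k)) := by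
  obtain ⟨r, hr⟩ := h
  refine ⟨r, LinearMap.ext fun x => Matrix.ext fun i j => ?_⟩
  have h1 := pow_vec g r x
  rw [hr, zero_mulVec] at h1
  exact (congrFun h1 (i, j)).symm

theorem eq_one {g : GL n k} (h : cj k n g = 1) : AdH k n g = 1 := by
  refine Units.ext (Matrix.toLin'.injective (LinearMap.ext fun v => ?_))
  have h1 := ad_vec g (Matrix.of fun i j => v (i, j))
  rw [h] at h1
  rw [toLin'_apply, toLin'_apply, Units.val_one, one_mulVec]
  exact h1

theorem two [Infinite k] : ∃ c d : k, c ≠ 0 ∧ c ≠ 1 ∧ d ≠ 0 ∧ d ≠ 1 ∧ c ≠ d := by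
  classical
  obtain ⟨c, hc⟩ := Infinite.exists_notMem_finset ({0, 1} : Finset k)
  obtain ⟨d, hd⟩ := Infinite.exists_notMem_finset ({0, 1, c} : Finset k)
  simp only [Finset.mem_insert, Finset.mem_singleton, not_or] at hc hd
  exact ⟨c, d, hc.1, hc.2, hd.1, hd.2.1, fun h => hd.2.2 h.symm⟩

variable {J : Submodule k (Matrix n n k)}

theorem sq_zero [Infinite k] (hJ : ∀ g : GL n k, ∀ a ∈ J, cj k n g a ∈ J) {e : Matrix n n k}
    (he : e * e = 0) {a : Matrix n n k} (ha : a ∈ J) : e * a - a * e ∈ J := by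
  have key : ∀ z : k, z • (e * a - a * e) - (z * z) • (e * a * e) ∈ J := by
    intro z
    have h1 : ∀ w : k, (1 + w • e) * (1 + (-w) • e) = 1 := fun w => by
      simp only [mul_add, add_mul, one_mul, mul_one, smul_mul_assoc, mul_smul_comm, he, smul_zero,
        add_zero, neg_smul]
      simp [he]
    have h2 := J.sub_mem (hJ ⟨1 + z • e, 1 + (-z) • e, h1 z, by simpa using h1 (-z)⟩ a ha) ha
    have h3 : (1 + z • e) * a * (1 + (-z) • e) - a =
        z • (e * a - a * e) - (z * z) • (e * a * e) := by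
      simp only [mul_add, add_mul, one_mul, mul_one, smul_mul_assoc, mul_smul_comm]
      module
    exact h3 ▸ h2
  obtain ⟨c, -, h0, h1, -⟩ := two (k := k)
  have h2 := J.sub_mem (J.smul_mem (c * c) (key 1)) (key c)
  have h3 : (c * c) • ((1 : k) • (e * a - a * e) - ((1 : k) * 1) • (e * a * e)) -
      (c • (e * a - a * e) - (c * c) • (e * a * e)) = (c * (c - 1)) • (e * a - a * e) := by
    module
  rw [h3] at h2
  exact (J.smul_mem_iff (mul_ne_zero h0 (sub_ne_zero.2 h1))).1 h2

theorem idem [Infinite k] (hJ : ∀ g : GL n k, ∀ a ∈ J, cj k n g a ∈ J) {e : Matrix n n k}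
    (he : e * e = e) {a : Matrix n n k} (ha : a ∈ J) : e * a - a * e ∈ J := by
  have key : ∀ s : k, s ≠ 0 → s ≠ 1 → s • (e * a - e * a * e) - (a * e - e * a * e) ∈ J := by
    intro s h0 h1
    have h2 : ∀ w v : k, w * v = 1 → (1 + (w - 1) • e) * (1 + (v - 1) • e) = 1 := fun w v h => by
      simp only [mul_add, add_mul, one_mul, mul_one, smul_mul_assoc, mul_smul_comm, he]
      linear_combination (norm := module) (h) • e
    have h3 := J.smul_mem s (J.sub_mem (hJ ⟨1 + (s - 1) • e, 1 + (s⁻¹ - 1) • e,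
      h2 _ _ (mul_inv_cancel₀ h0), h2 _ _ (inv_mul_cancel₀ h0)⟩ a ha) ha)
    have h4 : s • ((1 + (s - 1) • e) * a * (1 + (s⁻¹ - 1) • e) - a) =
        (s - 1) • (s • (e * a - e * a * e) - (a * e - e * a * e)) := by
      simp only [mul_add, add_mul, one_mul, mul_one, smul_mul_assoc, mul_smul_comm]
      linear_combination (norm := module)
        (mul_inv_cancel₀ h0) • (a * e + (s - 1) • (e * a * e))
    exact (J.smul_mem_iff (sub_ne_zero.2 h1)).1 (h4 ▸ h3)
  obtain ⟨c, d, c0, c1, d0, d1, hcd⟩ := two (k := k)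
  have h1 := J.sub_mem (key c c0 c1) (key d d0 d1)
  have h2 : c • (e * a - e * a * e) - (a * e - e * a * e) -
      (d • (e * a - e * a * e) - (a * e - e * a * e)) = (c - d) • (e * a - e * a * e) := by
    module
  rw [h2] at h1
  have h3 := (J.smul_mem_iff (sub_ne_zero.2 hcd)).1 h1
  have h4 := J.add_mem (key c c0 c1) (J.smul_mem (1 - c) h3)
  have h5 : c • (e * a - e * a * e) - (a * e - e * a * e) + (1 - c) • (e * a - e * a * e) =
      e * a - a * e := by module
  exact h5 ▸ h4

theorem ad_mem [Infinite k] (hJ : ∀ g : GL n k, ∀ a ∈ J, cj k n g a ∈ J) (x : Matrix n n k)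
    {a : Matrix n n k} (ha : a ∈ J) : x * a - a * x ∈ J := by
  induction x using Matrix.induction_on' with
  | h_zero => simp
  | h_add x y hx hy =>
    have : (x + y) * a - a * (x + y) = x * a - a * x + (y * a - a * y) := by noncomm_ring
    exact this ▸ J.add_mem hx hy
  | h_std_basis i j c =>
    have h1 : (single i j c : Matrix n n k) = c • single i j 1 := by simp
    rw [h1, smul_mul_assoc, mul_smul_comm, ← smul_sub]
    refine J.smul_mem c ?_
    by_cases h : i = j
    · subst h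
      exact idem hJ (by simp) ha
    · exact sq_zero hJ (single_mul_single_of_ne _ _ _ _ (Ne.symm h) _) ha

end PG3

open PG3 in
theorem st_pg3 (k : Type u) [Field k] [IsAlgClosed k] (p : ℕ) [Fact p.Prime] [CharP k p] (N : ℕ)
    (_hN : 2 ≤ N) : S_pg3 k N := by
  intro U hU hn hu
  have H := st_kol k (Fin N) ⊤ (by simp) ((U.comap (AdH k (Fin N))).map (cj k (Fin N)))
    (Set.range (cj k (Fin N))) ?_ ?_ ?_
  · refine (Subgroup.eq_bot_iff_forall _).2 fun u hu' => ?_
    obtain ⟨a, rfl⟩ := hU hu'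
    exact eq_one ((Subgroup.eq_bot_iff_forall _).1 H _ ⟨a, hu', rfl⟩)
  · rintro _ ⟨a, ha, rfl⟩
    exact nilp (hu _ ha)
  · rintro _ ⟨g, rfl⟩ _ ⟨a, ha, rfl⟩
    refine ⟨g * a * g⁻¹, ?_, by simp⟩
    have := hn _ ⟨g, rfl⟩ _ ha
    rw [← map_inv, ← map_mul, ← map_mul] at this
    exact this
  · intro J hJ x _ a ha
    exact ad_mem (fun g b hb => hJ _ ⟨g, rfl⟩ b hb) x ha

end Pool.Agent.Lib.MP_3a0263_al.Q
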