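import Pool.Agent.Lib.MP_3a0263_al.Q.PDefs
import Pool.Agent.Lib.MP_3a0263_al.Q.ApiZ2
import Pool.Agent.Lib.MP_3a0263_al.Q.ApiC
import Pool.Agent.Lib.MP_3a0263_al.Q.ApiL

namespace Pool.Agent.Lib.MP_3a0263_al.Q

open Matrix Pool.Agent.Lib.MP_3a0263_al.R

universe u

namespace PG4

variable {k : Type u} [Field k] {n : Type} [Fintype n] [DecidableEq n]

theorem ex_dg {g : GL n k} (h : ∀ i j, i ≠ j → (g : Matrix n n k) i j = 0) :
    ∃ d, g = dg d := by
  have h1 : ∀ i, (g : Matrix n n k) i i * ((g⁻¹ : GL n k) : Matrix n n k) i i = 1 := fun i => by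
    have := congrFun (congrFun g.mul_inv i) i
    rwa [Matrix.mul_apply, Finset.sum_eq_single i (fun j _ hj => by rw [h i j hj.symm, zero_mul])
      (by simp), one_apply_eq] at this
  refine ⟨fun i => Units.mk0 _ (left_ne_zero_of_mul_eq_one (h1 i)), Units.ext ?_⟩
  ext i j
  rw [dg_val]
  by_cases e : i = j
  · subst e
    rw [diagonal_apply_eq, Units.val_mk0]
  · rw [diagonal_apply_ne _ e, h i j e]

theorem AdH_dg (d : n → kˣ) : AdH k n (dg d) = dg fun ij : n × n => d ij.1 * (d ij.2)⁻¹ := by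
  refine Units.ext ?_
  ext ⟨i, j⟩ ⟨i', j'⟩
  rw [AdH_val, ← dg_inv, dg_val, dg_val, dg_val, adM_apply]
  simp only [diagonal_apply, Prod.mk.injEq, Pi.inv_apply]
  by_cases h : i = i' <;> by_cases h' : j = j' <;> simp [h, h', eq_comm]

theorem AdH_coch (l : n → ℤ) (s : kˣ) :
    AdH k n (coch l s) = coch (fun ij : n × n => l ij.1 - l ij.2) s := by
  rw [coch, AdH_dg, coch]
  exact congrArg dg (funext fun ij => (_root_.zpow_sub s _ _).symm)

theorem mem_PT {g : GL (n × n) k} : g ∈ PT k n ↔ ∃ d, AdH k n (dg d) = g := Iff.rfl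

theorem row_zero {g : GL n k} {i : n} {c : k}
    (h : ∀ j, c * ((g⁻¹ : GL n k) : Matrix n n k) i j = 0) : c = 0 := by
  have h1 := congrFun (congrFun g.inv_mul i) i
  rw [Matrix.mul_apply, one_apply_eq] at h1
  rw [← mul_one c, ← h1, Finset.mul_sum]
  exact Finset.sum_eq_zero fun j _ => by rw [← mul_assoc, h j, zero_mul]

theorem closed_PT (h : IsZClosed (PG k n : Set (GL (n × n) k))) :
    IsZClosed (PT k n : Set (GL (n × n) k)) := by
  have h2 := closed_reg (k := k) (n := n × n)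
    (F := {φ | ∃ a b, a ≠ b ∧ φ = fun g : GL (n × n) k => (g : Matrix (n × n) (n × n) k) a b})
    (by rintro _ ⟨a, b, _, rfl⟩; exact reg_entry a b)
  have e : (PT k n : Set (GL (n × n) k)) = (PG k n : Set (GL (n × n) k)) ∩
      {g : GL (n × n) k | ∀ φ ∈ {φ | ∃ a b, a ≠ b ∧
        φ = fun g : GL (n × n) k => (g : Matrix (n × n) (n × n) k) a b}, φ g = 0} := by
    ext g
    refine ⟨?_, ?_⟩
    · rintro ⟨d, rfl⟩
      refine ⟨⟨dg d, rfl⟩, ?_⟩
      rintro _ ⟨a, b, hab, rfl⟩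
      show ((AdH k n (dg d) : GL (n × n) k) : Matrix (n × n) (n × n) k) a b = 0
      rw [AdH_dg, dg_val, diagonal_apply_ne _ hab]
    · rintro ⟨⟨a, rfl⟩, h3⟩
      obtain ⟨d, hd⟩ := ex_dg (g := a) fun i i' hi => row_zero (g := a) (i := i) fun j =>
        h3 _ ⟨(i, j), (i', i), fun e => hi (congrArg Prod.fst e), rfl⟩
      exact ⟨d, congrArg (AdH k n) hd.symm⟩
  rw [e]
  exact h.inter h2

theorem le_idc_PT [Infinite k] : PT k n ≤ idc (PT k n) := by
  rintro _ ⟨d, rfl⟩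
  show AdH k n (dg d) ∈ idc (PT k n)
  induction d using Pi.mulSingle_induction with
  | one => rw [dg_one, map_one]; exact one_mem _
  | mul f g hf hg => rw [dg_mul, map_mul]; exact mul_mem hf hg
  | mulSingle i s =>
    have e : dg (Pi.mulSingle i s) = coch (Pi.single i 1) s :=
      congrArg dg (funext fun j => by
        by_cases hj : j = i
        · subst hj; simp
        · simp [hj])
    rw [e, AdH_coch]
    refine subset_idc ?_ (irr_coch _) ⟨1, ?_⟩ ⟨s, rfl⟩
    · rintro _ ⟨t, rfl⟩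
      rw [← AdH_coch]
      exact ⟨_, rfl⟩
    · rw [coch, ← dg_one]
      exact congrArg dg (funext fun j => one_zpow _)

theorem diag_of_comm [Infinite k] {a : GL n k}
    (h : ∀ d, AdH k n (dg d) * AdH k n a = AdH k n a * AdH k n (dg d)) : ∃ d, a = dg d := by
  refine ex_dg fun i i' hi => row_zero (g := a) (i := i) fun j => ?_
  by_contra hne
  have h1 : (Pi.single i' 1 : n → ℤ) i - (Pi.single i' 1 : n → ℤ) j =
      (Pi.single i' 1 : n → ℤ) i' - (Pi.single i' 1 : n → ℤ) i := by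
    refine zpow_inj (k := k) fun s => Units.ext ?_
    have h2 : AdH k n (coch (Pi.single i' 1) s) * AdH k n a =
        AdH k n a * AdH k n (coch (Pi.single i' 1) s) := h _
    have h3 : ((AdH k n (coch (Pi.single i' 1) s) * AdH k n a : GL (n × n) k) :
        Matrix (n × n) (n × n) k) (i, j) (i', i) =
        ((AdH k n a * AdH k n (coch (Pi.single i' 1) s) : GL (n × n) k) :
        Matrix (n × n) (n × n) k) (i, j) (i', i) := by rw [h2]
    rw [AdH_coch, Units.val_mul, Units.val_mul, coch_val, diagonal_mul, mul_diagonal, AdH_val,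
      adM_apply, mul_comm] at h3
    exact mul_left_cancel₀ hne h3
  by_cases hj : j = i'
  · subst hj
    simp [hi] at h1
  · simp [hi, hj] at h1

end PG4

theorem st_pg4 (k : Type u) [Field k] [IsAlgClosed k] (p : ℕ) [Fact p.Prime] [CharP k p] (N : ℕ)
    (hN : 2 ≤ N) (h1 : S_pg1 k N) : S_pg4 k N := by
  have hc := PG4.closed_PT h1.1
  refine ⟨?_, ⟨?_, ?_, ?_⟩, fun T' hT hG hT' => le_antisymm (fun t ht => ?_) hT⟩
  · rintro _ ⟨d, rfl⟩
    exact ⟨dg d, rfl⟩
  · have := conn_idc hc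
    rwa [le_antisymm (idc_le _) PG4.le_idc_PT] at this
  · rintro _ ⟨d, rfl⟩ _ ⟨e, rfl⟩
    rw [← map_mul, ← map_mul, mul_comm]
  · rintro _ ⟨d, rfl⟩
    have := ss_dg (k := k) fun ij : Fin N × Fin N => d ij.1 * (d ij.2)⁻¹
    rw [← PG4.AdH_dg] at this
    exact this
  · obtain ⟨a, rfl⟩ := hG ht
    obtain ⟨d, rfl⟩ := PG4.diag_of_comm (a := a) fun d => hT'.2.1 _ (hT ⟨d, rfl⟩) _ ht
    exact ⟨d, rfl⟩

end Pool.Agent.Lib.MP_3a0263_al.Q
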