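import Pool.Agent.Lib.MP_3a0263_al.Q.PDefs
import Pool.Agent.Lib.MP_3a0263_al.Q.ApiL

namespace Pool.Agent.Lib.MP_3a0263_al.Q

open Matrix Pool.Agent.Lib.MP_3a0263_al.R

attribute [local instance 100] LieRing.ofAssociativeRing

universe u

namespace PG5

variable {k : Type u} [Field k] {n : Type} [Fintype n] [DecidableEq n]

/-- the parametrisation of the diagonal torus -/
def rho (k : Type u) [Field k] (n : Type) [Fintype n] [DecidableEq n] :
    (n → kˣ) →* PT k n := ((AdH k n).comp dgHom).rangeRestrict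

theorem rho_surj : Function.Surjective (rho k n) :=
  ((AdH k n).comp dgHom).rangeRestrict_surjective

theorem rho_val (d : n → kˣ) : ((rho k n d : PT k n) : GL (n × n) k) = AdH k n (dg d) := rfl

theorem ext_rho {χ χ' : PT k n →* kˣ} (h : ∀ d, χ (rho k n d) = χ' (rho k n d)) : χ = χ' :=
  MonoidHom.ext fun t => by
    obtain ⟨d, rfl⟩ := rho_surj t
    exact h d

theorem exists_chi (i j : n) : ∃ χ : PT k n →* kˣ, ∀ d, χ (rho k n d) = d i / d j := by
  let ψ : (n → kˣ) →* kˣ := Pi.evalMonoidHom (fun _ => kˣ) i / Pi.evalMonoidHom (fun _ => kˣ) j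
  have hψ : (rho k n).ker ≤ ψ.ker := by
    intro d hd
    have h1 : AdH k n (dg d) = 1 := congrArg Subtype.val (MonoidHom.mem_ker.1 hd)
    have h2 : (AdH k n (dg d) : Matrix (n × n) (n × n) k) (i, j) (i, j) =
        ((1 : GL (n × n) k) : Matrix (n × n) (n × n) k) (i, j) (i, j) := by rw [h1]
    rw [AdH_val, adM_apply, ← dg_inv, dg_val, dg_val] at h2
    simp only [diagonal_apply_eq, Units.val_one, one_apply_eq] at h2
    refine MonoidHom.mem_ker.2 (Units.ext ?_)
    change ((d i / d j : kˣ) : k) = 1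
    rw [div_eq_mul_inv, Units.val_mul]
    exact h2
  exact ⟨(rho k n).liftOfSurjective rho_surj ⟨ψ, hψ⟩, fun d =>
    (rho k n).liftOfRightInverse_comp_apply _ _ ⟨ψ, hψ⟩ d⟩

/-- the characters `d i / d j` -/
noncomputable def chi (k : Type u) [Field k] {n : Type} [Fintype n] [DecidableEq n] (i j : n) :
    PT k n →* kˣ := (exists_chi i j).choose

theorem chi_rho (i j : n) (d : n → kˣ) : chi k i j (rho k n d) = d i / d j :=
  (exists_chi i j).choose_spec d

theorem conj_apply (d : n → kˣ) (y : Matrix n n k) (i j : n) :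
    ((dg d : Matrix n n k) * y * (((dg d)⁻¹ : GL n k) : Matrix n n k)) i j =
      ((d i / d j : kˣ) : k) * y i j := by
  rw [← dg_inv, dg_val, dg_val, mul_diagonal, diagonal_mul, div_eq_mul_inv, Units.val_mul,
    Pi.inv_apply]
  ring

theorem isRoot_iff [Infinite k] [Nonempty n] (h2 : lie (PG k n) = Set.range (adL k n))
    (χ : PT k n →* kˣ) : IsRoot (PG k n) (PT k n) χ ↔ ∃ i j, i ≠ j ∧ χ = chi k i j := by
  constructor
  · rintro ⟨h1, x, hx, hx0, h⟩
    rw [h2] at hx
    obtain ⟨y, rfl⟩ := hx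
    have h3 : ∀ d, adL k n ((dg d : Matrix n n k) * y * (((dg d)⁻¹ : GL n k) : Matrix n n k)) =
        (χ (rho k n d) : k) • adL k n y := fun d => by
      rw [← AdH_conj]
      exact h (rho k n d)
    by_contra hc
    push Not at hc
    have h4 : ∀ i j, i ≠ j → y i j = 0 := by
      intro i j hij
      by_contra hy
      refine hc i j hij (ext_rho fun d => ?_)
      have h5 := h3 d
      rw [← map_smul, ← sub_eq_zero, ← map_sub] at h5
      obtain ⟨c, hc'⟩ := adL_eq_zero.1 h5
      have h6 := congrFun (congrFun hc' i) j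
      rw [Matrix.sub_apply, conj_apply, Matrix.smul_apply, Matrix.smul_apply, one_apply_ne hij,
        smul_zero, smul_eq_mul, sub_eq_zero] at h6
      rw [chi_rho]
      exact Units.ext (mul_right_cancel₀ hy h6).symm
    refine h1 (ext_rho fun d => ?_)
    have h5 : (dg d : Matrix n n k) * y * (((dg d)⁻¹ : GL n k) : Matrix n n k) = y := by
      ext i j
      rw [conj_apply]
      by_cases hij : i = j
      · simp [hij]
      · simp [h4 i j hij]
    have h6 := h3 d
    rw [h5] at h6
    have h7 : ((χ (rho k n d) : k) - 1) • adL k n y = 0 := by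
      rw [sub_smul, one_smul, ← h6, sub_self]
    exact Units.ext (sub_eq_zero.1 ((smul_eq_zero.1 h7).resolve_right hx0))
  · rintro ⟨i, j, hij, rfl⟩
    refine ⟨fun h => ?_, adL k n (single i j 1), h2 ▸ ⟨_, rfl⟩, fun h => ?_, fun t => ?_⟩
    · have h1 : (1 : ℤ) = 0 := zpow_inj (k := k) fun s => by
        have h3 := chi_rho (k := k) i j (Pi.mulSingle i s)
        rw [h] at h3
        simpa [Pi.mulSingle_eq_of_ne hij.symm] using h3.symm
      exact one_ne_zero h1
    · obtain ⟨c, hc⟩ := adL_eq_zero.1 h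
      have h1 := congrFun (congrFun hc i) j
      simp [one_apply_ne hij] at h1
    · obtain ⟨d, rfl⟩ := rho_surj t
      rw [rho_val, AdH_conj, ← map_smul, chi_rho]
      refine congrArg _ (Matrix.ext fun a b => ?_)
      rw [conj_apply, Matrix.smul_apply, smul_eq_mul]
      by_cases hab : i = a ∧ j = b
      · rw [hab.1, hab.2]
      · simp [single_apply_of_ne _ _ _ _ _ hab]

/-- the simple roots -/
noncomputable def al (k : Type u) [Field k] {M : ℕ} (m : Fin M) : PT k (Fin (M + 1)) →* kˣ :=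
  chi k m.castSucc m.succ

/-- the fundamental coweights -/
def tau {M : ℕ} (m : Fin M) (s : kˣ) : Fin (M + 1) → kˣ :=
  fun a => s ^ (if a ≤ m.castSucc then (1 : ℤ) else 0)

theorem al_tau {M : ℕ} (m m' : Fin M) (s : kˣ) :
    al k m' (rho k _ (tau m s)) = if m' = m then s else 1 := by
  rw [al, chi_rho, tau, tau]
  rcases lt_trichotomy m' m with h | h | h
  · have h1 : m'.castSucc ≤ m.castSucc := Fin.castSucc_le_castSucc_iff.2 h.le
    have h2 : m'.succ ≤ m.castSucc := Fin.succ_le_castSucc_iff.2 h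
    simp [h1, h2, h.ne]
  · subst h
    have h2 : ¬ m'.succ ≤ m'.castSucc := not_le.2 Fin.castSucc_lt_succ
    simp [h2]
  · have h1 : ¬ m'.castSucc ≤ m.castSucc := not_le.2 (Fin.castSucc_lt_castSucc_iff.2 h)
    have h2 : ¬ m'.succ ≤ m.castSucc := fun h2 => h1 (Fin.castSucc_lt_succ.le.trans h2)
    simp [h1, h2, h.ne']

theorem prod_tau {M : ℕ} (c : Fin M → ℤ) (m : Fin M) (s : kˣ) :
    (∏ m', al k m' ^ c m') (rho k _ (tau m s)) = s ^ c m := by
  rw [MonoidHom.finsetProd_apply, Finset.prod_eq_single m]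
  · rw [MonoidHom.zpow_apply, al_tau, if_pos rfl]
  · intro b _ hb
    rw [MonoidHom.zpow_apply, al_tau, if_neg hb, _root_.one_zpow]
  · simp

theorem al_inj [Infinite k] {M : ℕ} : Function.Injective (al k : Fin M → _) := by
  intro m m' h
  by_contra hm
  have h1 : (1 : ℤ) = 0 := zpow_inj (k := k) fun s => by
    have h3 := al_tau (k := k) m m s
    rw [h, al_tau, if_pos rfl, if_neg (Ne.symm hm)] at h3
    simpa using h3.symm
  exact one_ne_zero h1

theorem chi_mem {M : ℕ} (i j : Fin (M + 1)) (h : i ≤ j) :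
    chi k i j ∈ Submonoid.closure (Set.range (al k : Fin M → _)) := by
  have h0 : ∀ i : Fin (M + 1), chi k i i ∈ Submonoid.closure (Set.range (al k : Fin M → _)) := by
    intro i
    rw [show chi k i i = 1 from ext_rho fun d => by simp [chi_rho]]
    exact one_mem _
  induction j using Fin.induction with
  | zero =>
    rw [Fin.le_zero_iff.1 h]
    exact h0 _
  | succ m ih =>
    rcases h.eq_or_lt with rfl | h1
    · exact h0 _
    · rw [show chi k i m.succ = chi k i m.castSucc * al k m from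
        ext_rho fun d => by simp [al, chi_rho]]
      exact mul_mem (ih (Fin.le_castSucc_iff.2 h1)) (Submonoid.subset_closure ⟨m, rfl⟩)

theorem chi_prod [Infinite k] {M : ℕ} (i j : Fin (M + 1)) (h : i ≤ j) :
    ∃ c : (PT k (Fin (M + 1)) →* kˣ) → ℕ,
      chi k i j = ∏ α ∈ Finset.univ.map ⟨al k, al_inj⟩, α ^ c α := by
  obtain ⟨a, ha⟩ := Submonoid.mem_closure_range_iff_of_fintype.1 (chi_mem (k := k) i j h)
  refine ⟨Function.extend (al k) a 0, ?_⟩
  rw [Finset.prod_map, ha]
  exact Finset.prod_congr rfl fun m _ => by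
    rw [Function.Embedding.coeFn_mk, al_inj.extend_apply]

end PG5

open PG5 in
theorem st_pg5 (k : Type u) [Field k] [IsAlgClosed k] (p : ℕ) [Fact p.Prime] [CharP k p] (N : ℕ)
    (hN : 2 ≤ N) (h2 : S_pg2 k N) (h4 : S_pg4 k N) : S_pg5 k p N := by
  obtain ⟨M, rfl⟩ : ∃ M, N = M + 1 := ⟨N - 1, by omega⟩
  refine ⟨_, h4, Finset.univ.map ⟨al k, al_inj⟩, ⟨fun α hα => ?_, fun c hc α hα => ?_,
    fun β hβ => ?_⟩, fun θ hθ c hc α hα h0 hp => ?_⟩
  · obtain ⟨m, -, rfl⟩ := Finset.mem_map.1 hα
    exact (isRoot_iff h2 _).2 ⟨_, _, Fin.castSucc_lt_succ.ne, rfl⟩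
  · obtain ⟨m, -, rfl⟩ := Finset.mem_map.1 hα
    rw [Finset.prod_map] at hc
    refine zpow_inj (k := k) fun s => ?_
    have h1 := prod_tau (k := k) (fun m => c (al k m)) m s
    rw [zpow_zero]
    exact h1.symm.trans (DFunLike.congr_fun hc _)
  · obtain ⟨i, j, -, rfl⟩ := (isRoot_iff h2 _).1 hβ
    rcases le_total i j with h | h
    · exact (chi_prod i j h).imp fun c hc => Or.inl hc
    · refine (chi_prod j i h).imp fun c hc => Or.inr ?_
      rw [← hc]
      exact ext_rho fun d => by simp [chi_rho]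
  · obtain ⟨m, -, rfl⟩ := Finset.mem_map.1 hα
    obtain ⟨i, j, -, rfl⟩ := (isRoot_iff h2 _).1 hθ.1
    rw [Finset.prod_map] at hc
    have h1 : ((c (al k m) : ℕ) : ℤ) = (if i ≤ m.castSucc then (1 : ℤ) else 0) -
        (if j ≤ m.castSucc then (1 : ℤ) else 0) := zpow_inj (k := k) fun s => by
      have h3 := prod_tau (k := k) (fun m => (c (al k m) : ℤ)) m s
      have h6 : (∏ m', al k m' ^ (c (al k m') : ℤ)) = ∏ m', al k m' ^ c (al k m') :=
        Finset.prod_congr rfl fun m' _ => MonoidHom.ext fun t => by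
          rw [MonoidHom.zpow_apply, MonoidHom.pow_apply, _root_.zpow_natCast]
      rw [h6] at h3
      have h5 := DFunLike.congr_fun hc (rho k _ (tau m s))
      rw [chi_rho, tau, tau, div_eq_mul_inv, ← _root_.zpow_sub] at h5
      exact h3.symm.trans h5.symm
    have h3 : c (al k m) = 1 := by
      have h0' : c (al k m) ≠ 0 := h0
      split_ifs at h1 <;> omega
    have hp' : p ∣ c (al k m) := hp
    rw [h3] at hp'
    exact (Fact.out : p.Prime).one_lt.ne' (Nat.dvd_one.1 hp')

end Pool.Agent.Lib.MP_3a0263_al.Q
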