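import Pool.Agent.Lib.MP_3a0263_al.Q.Iface

namespace Pool.Agent.Lib.MP_3a0263_al.Q.C1

open Finset

universe u

variable {Φ : Type u} [Fintype Φ] (C : Comb Φ)

/-- the coroot of `g` evaluated on a coordinate vector -/
def mv (g : Φ) (x : Φ → ℤ) : ℤ := ∑ i ∈ C.Δ, x i * C.m g i

/-- the invariant form on coordinate vectors -/
def B (x y : Φ → ℤ) : ℤ := ∑ g, mv C g x * mv C g y

/-- squared length of a root -/
def d (a : Φ) : ℤ := B C (C.co a) (C.co a)

/-- squared length of a coroot for the Killing form -/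
def kap (a : Φ) : ℤ := ∑ b, C.m a b ^ 2

/-- positive roots -/
def Pos (b : Φ) : Prop := ∀ i ∈ C.Δ, 0 ≤ C.co b i

/-- height -/
def ht (b : Φ) : ℤ := ∑ i ∈ C.Δ, C.co b i

/-- dominant roots -/
def Dom (b : Φ) : Prop := ∀ i ∈ C.Δ, 0 ≤ C.m i b

/-- connected Dynkin diagram -/
def Conn : Prop :=
  ∀ D : Set Φ, (∃ i ∈ C.Δ, i ∈ D) → (∀ i ∈ C.Δ, ∀ j ∈ C.Δ, i ∈ D → j ∉ D → C.m i j = 0) →
    ∀ j ∈ C.Δ, j ∈ D

theorem mv_co (g b : Φ) : mv C g (C.co b) = C.m g b := (C.lin g b).symm

theorem mv_congr (g : Φ) {x y : Φ → ℤ} (h : ∀ i ∈ C.Δ, x i = y i) : mv C g x = mv C g y :=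
  sum_congr rfl fun i hi => by rw [h i hi]

theorem mv_comb (g : Φ) (p q : ℤ) {x y z : Φ → ℤ} (h : ∀ i ∈ C.Δ, z i = p * x i + q * y i) :
    mv C g z = p * mv C g x + q * mv C g y := by
  unfold mv
  rw [mul_sum, mul_sum, ← sum_add_distrib]
  exact sum_congr rfl fun i hi => by rw [h i hi]; ring

theorem m_comb (g : Φ) (p q : ℤ) {a b c : Φ}
    (h : ∀ i ∈ C.Δ, C.co c i = p * C.co a i + q * C.co b i) :
    C.m g c = p * C.m g a + q * C.m g b := by
  rw [← mv_co, ← mv_co, ← mv_co]; exact mv_comb C g p q h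

theorem m_s (g a b : Φ) : C.m g (C.s a b) = C.m g b - C.m a b * C.m g a := by
  rw [m_comb C g 1 (-C.m a b) (a := b) (b := a) fun i hi => by rw [C.refl a b i hi]; ring]
  ring

theorem m_neg (g b : Φ) : C.m g (C.neg b) = - C.m g b := by
  rw [m_comb C g (-1) 0 (a := b) (b := b) fun i hi => by rw [C.co_neg b i hi]; ring]
  ring

theorem neg_neg (b : Φ) : C.neg (C.neg b) = b :=
  C.inj _ _ fun i hi => by rw [C.co_neg _ i hi, C.co_neg _ i hi]; ring

theorem s_s (a b : Φ) : C.s a (C.s a b) = b :=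
  C.inj _ _ fun i hi => by rw [C.refl _ _ i hi, C.refl _ _ i hi, m_s, C.two]; ring

theorem s_self (a : Φ) : C.s a a = C.neg a :=
  C.inj _ _ fun i hi => by rw [C.refl _ _ i hi, C.co_neg _ i hi, C.two]; ring

theorem s_neg (a b : Φ) : C.s a (C.neg b) = C.neg (C.s a b) :=
  C.inj _ _ fun i hi => by
    rw [C.refl _ _ i hi, C.co_neg _ i hi, C.co_neg _ i hi, C.refl _ _ i hi, m_neg]; ring

/-- the reflection as a permutation of the roots -/
def sE (a : Φ) : Φ ≃ Φ := ⟨C.s a, C.s a, s_s C a, s_s C a⟩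

/-- negation as a permutation of the roots -/
def nE : Φ ≃ Φ := ⟨C.neg, C.neg, neg_neg C, neg_neg C⟩

theorem sum_s {M : Type*} [AddCommMonoid M] (a : Φ) (f : Φ → M) :
    ∑ b, f (C.s a b) = ∑ b, f b := (sE C a).sum_comp f

theorem sum_neg {M : Type*} [AddCommMonoid M] (f : Φ → M) :
    ∑ b, f (C.neg b) = ∑ b, f b := (nE C).sum_comp f

theorem co_ne (a : Φ) : ∃ i ∈ C.Δ, C.co a i ≠ 0 := by
  by_contra h
  push Not at h
  have := C.lin a a
  rw [C.two, sum_eq_zero fun i hi => by rw [h i hi, zero_mul]] at this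
  exact absurd this (by norm_num)

theorem neg_ne (a : Φ) : C.neg a ≠ a := by
  intro h
  have := m_neg C a a
  rw [h, C.two] at this
  exact absurd this (by norm_num)

/-- uniqueness of reflections -/
theorem uniq (a : Φ) (f : Φ → ℤ) (σ : Φ → Φ) (hl : ∀ b, f b = ∑ i ∈ C.Δ, C.co b i * f i)
    (h2 : f a = 2) (hσ : ∀ b, ∀ i ∈ C.Δ, C.co (σ b) i = C.co b i - f b * C.co a i) (b : Φ) :
    f b = C.m a b := by
  have f_comb : ∀ (p q : ℤ) (x y z : Φ),
      (∀ i ∈ C.Δ, C.co z i = p * C.co x i + q * C.co y i) → f z = p * f x + q * f y := by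
    intro p q x y z h
    rw [hl x, hl y, hl z, mul_sum, mul_sum, ← sum_add_distrib]
    exact sum_congr rfl fun i hi => by rw [h i hi]; ring
  have step : ∀ x, ∀ i ∈ C.Δ,
      C.co (C.s a (σ x)) i = 1 * C.co x i + (f x - C.m a x) * C.co a i := by
    intro x i hi
    have e : C.m a (σ x) = 1 * C.m a x + (-f x) * C.m a a :=
      m_comb C a 1 (-f x) fun j hj => by rw [hσ x j hj]; ring
    rw [C.refl _ _ i hi, hσ x i hi, e, C.two]; ring
  have key : ∀ j : ℕ, ∀ i ∈ C.Δ, C.co ((fun x => C.s a (σ x))^[j] b) i =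
      1 * C.co b i + (j * (f b - C.m a b)) * C.co a i := by
    intro j
    induction j with
    | zero => intro i _; simp
    | succ j ih =>
      intro i hi
      rw [Function.iterate_succ_apply', step _ i hi, ih i hi, f_comb _ _ _ _ _ ih,
        m_comb C a _ _ ih, h2, C.two]
      push_cast; ring
  obtain ⟨p, q, hpq, he⟩ :=
    Finite.exists_ne_map_eq_of_infinite (fun j : ℕ => (fun x => C.s a (σ x))^[j] b)
  obtain ⟨i, hi, hne⟩ := co_ne C a
  have hp := key p i hi
  have hq := key q i hi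
  have he' : (fun x => C.s a (σ x))^[p] b = (fun x => C.s a (σ x))^[q] b := he
  rw [he', hq] at hp
  have h0 : (((p : ℤ) - q) * (f b - C.m a b)) * C.co a i = 0 := by linarith
  rcases mul_eq_zero.1 h0 with h0 | h0
  · rcases mul_eq_zero.1 h0 with h0 | h0
    · exfalso; apply hpq; omega
    · linarith
  · exact absurd h0 hne

theorem m_s_left (g a b : Φ) : C.m (C.s g a) b = C.m a (C.s g b) := by
  symm
  refine uniq C (C.s g a) (fun x => C.m a (C.s g x)) (fun x => C.s g (C.s a (C.s g x)))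
    (fun x => ?_) ?_ (fun x i hi => ?_) b
  · simp only [m_s]
    rw [C.lin a x, C.lin g x, sum_mul, ← sum_sub_distrib]
    exact sum_congr rfl fun i _ => by ring
  · show C.m a (C.s g (C.s g a)) = 2
    rw [s_s, C.two]
  · show C.co (C.s g (C.s a (C.s g x))) i = C.co x i - C.m a (C.s g x) * C.co (C.s g a) i
    rw [C.refl g _ i hi, C.refl a _ i hi, C.refl g x i hi, C.refl g a i hi, m_s C g a,
      m_s C g g x, C.two]
    ring

theorem m_s_left' (g a b : Φ) : C.m (C.s g a) b = C.m a b - C.m g b * C.m a g := by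
  rw [m_s_left, m_s]

theorem m_s_s (g a b : Φ) : C.m (C.s g a) (C.s g b) = C.m a b := by rw [m_s_left, s_s]

theorem m_neg_left (a b : Φ) : C.m (C.neg a) b = - C.m a b := by
  rw [← s_self, m_s_left', C.two]; ring

theorem s_neg_left (a b : Φ) : C.s (C.neg a) b = C.s a b :=
  C.inj _ _ fun i hi => by
    rw [C.refl _ _ i hi, C.refl _ _ i hi, C.co_neg _ i hi, m_neg_left]; ring

theorem mv_s_left (g a : Φ) (x : Φ → ℤ) :
    mv C (C.s g a) x = mv C a x - mv C g x * C.m a g := by
  unfold mv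
  rw [sum_mul, ← sum_sub_distrib]
  exact sum_congr rfl fun i _ => by rw [m_s_left']; ring

theorem B_symm (x y : Φ → ℤ) : B C x y = B C y x := sum_congr rfl fun _ _ => mul_comm _ _

theorem B_comb (w : Φ → ℤ) (p q : ℤ) {x y z : Φ → ℤ} (h : ∀ i ∈ C.Δ, z i = p * x i + q * y i) :
    B C w z = p * B C w x + q * B C w y := by
  unfold B
  rw [mul_sum, mul_sum, ← sum_add_distrib]
  exact sum_congr rfl fun g _ => by rw [mv_comb C g p q h]; ring

theorem B_congr (w : Φ → ℤ) {x y : Φ → ℤ} (h : ∀ i ∈ C.Δ, x i = y i) : B C w x = B C w y :=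
  sum_congr rfl fun g _ => by rw [mv_congr C g h]

theorem B_expand (x y : Φ → ℤ) : B C x y = ∑ i ∈ C.Δ, x i * B C (C.co i) y := by
  unfold B
  simp only [mul_sum, mv_co]
  rw [sum_comm]
  refine sum_congr rfl fun g _ => ?_
  rw [mv, sum_mul]
  exact sum_congr rfl fun i _ => by ring

theorem B_nonneg (x : Φ → ℤ) : 0 ≤ B C x x := sum_nonneg fun _ _ => mul_self_nonneg _

/-- `d a * ⟨x, a^∨⟩ = 2 B(a, x)` -/
theorem d_mv (a : Φ) (x : Φ → ℤ) : d C a * mv C a x = 2 * B C (C.co a) x := by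
  have h := sum_s C a fun g => mv C g (C.co a) * mv C g x
  have e : ∀ g, mv C (C.s a g) (C.co a) * mv C (C.s a g) x =
      mv C g (C.co a) * mv C g (C.co a) * mv C a x - mv C g (C.co a) * mv C g x := by
    intro g
    rw [mv_s_left, mv_s_left, mv_co, mv_co, C.two]; ring
  simp only [e] at h
  rw [sum_sub_distrib, ← sum_mul] at h
  unfold d B
  linarith

theorem d_m (a b : Φ) : d C a * C.m a b = 2 * B C (C.co a) (C.co b) := by
  rw [← d_mv, mv_co]

theorem d_m_symm (a b : Φ) : d C a * C.m a b = d C b * C.m b a := by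
  rw [d_m, d_m, B_symm]

theorem d_eq (a : Φ) : d C a = ∑ g, C.m g a ^ 2 :=
  sum_congr rfl fun g _ => by rw [mv_co, sq]

theorem d_pos (a : Φ) : 0 < d C a := by
  rw [d_eq]
  have := single_le_sum (f := fun g => C.m g a ^ 2) (fun g _ => sq_nonneg _) (mem_univ a)
  simp only [C.two] at this
  linarith

theorem kap_pos (a : Φ) : 0 < kap C a := by
  have := single_le_sum (f := fun g => C.m a g ^ 2) (fun g _ => sq_nonneg _) (mem_univ a)
  simp only [C.two] at this
  unfold kap
  linarith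

theorem d_s (g a : Φ) : d C (C.s g a) = d C a := by
  rw [d_eq, d_eq, ← sum_s C g]
  exact sum_congr rfl fun b _ => by rw [m_s_s]

theorem d_neg (a : Φ) : d C (C.neg a) = d C a := by rw [← s_self, d_s]

theorem kap_s (g a : Φ) : kap C (C.s g a) = kap C a := by
  unfold kap
  rw [← sum_s C g]
  exact sum_congr rfl fun b _ => by rw [m_s_s]

theorem kap_neg (a : Φ) : kap C (C.neg a) = kap C a := by rw [← s_self, kap_s]

theorem m_zero_symm {a b : Φ} (h : C.m a b = 0) : C.m b a = 0 := by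
  have := d_m_symm C a b
  rw [h, mul_zero] at this
  exact (mul_eq_zero.1 this.symm).resolve_left (d_pos C b).ne'

theorem m_pos_symm {a b : Φ} (h : 0 < C.m a b) : 0 < C.m b a := by
  have e := d_m_symm C a b
  have := mul_pos (d_pos C a) h
  rw [e] at this
  exact (mul_pos_iff_of_pos_left (d_pos C b)).1 this

theorem m_neg_symm {a b : Φ} (h : C.m a b < 0) : C.m b a < 0 := by
  have h1 : 0 < C.m a (C.neg b) := by rw [m_neg]; linarith
  have := m_pos_symm C h1
  rw [m_neg_left] at this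
  linarith

/-- `2 ∑ ⟨b, a^∨⟩ b = kap a • a` -/
theorem kap_co (a : Φ) (i : Φ) (hi : i ∈ C.Δ) :
    kap C a * C.co a i = 2 * ∑ b, C.m a b * C.co b i := by
  have h := sum_s C a fun b => C.m a b * C.co b i
  have e : ∀ b, C.m a (C.s a b) * C.co (C.s a b) i =
      C.m a b ^ 2 * C.co a i - C.m a b * C.co b i := by
    intro b
    rw [m_s, C.refl a b i hi, C.two]; ring
  simp only [e] at h
  rw [sum_sub_distrib, ← sum_mul] at h
  unfold kap
  linarith

theorem kap_m (a c : Φ) : kap C a * C.m c a = 2 * ∑ b, C.m a b * C.m c b := by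
  rw [C.lin c a, mul_sum]
  have e : ∀ i ∈ C.Δ, kap C a * (C.co a i * C.m c i) =
      2 * ∑ b, C.m a b * (C.co b i * C.m c i) := by
    intro i hi
    rw [← mul_assoc, kap_co C a i hi, mul_assoc, sum_mul]
    simp only [mul_assoc]
  rw [sum_congr rfl e, ← mul_sum, sum_comm]
  refine congrArg _ (sum_congr rfl fun b _ => ?_)
  rw [← mul_sum, ← C.lin]

theorem kap_m_symm (a c : Φ) : kap C a * C.m c a = kap C c * C.m a c := by
  rw [kap_m, kap_m]
  exact congrArg _ (sum_congr rfl fun b _ => mul_comm _ _)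

theorem d_kap_of_ne {a b : Φ} (h : C.m a b ≠ 0) : d C a * kap C a = d C b * kap C b := by
  have h1 := d_m_symm C a b
  have h2 := kap_m_symm C a b
  have h3 : C.m b a ≠ 0 := fun h0 => h (m_zero_symm C h0)
  apply mul_right_cancel₀ h3
  calc d C a * kap C a * C.m b a = d C a * (kap C a * C.m b a) := by ring
    _ = kap C b * (d C a * C.m a b) := by rw [h2]; ring
    _ = d C b * kap C b * C.m b a := by rw [h1]; ring

/-- the Cartan matrix is nonsingular -/
theorem cartan_inj (x : Φ → ℤ) (h : ∀ i ∈ C.Δ, mv C i x = 0) : ∀ i ∈ C.Δ, x i = 0 := by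
  classical
  let M : Matrix C.Δ C.Δ ℤ := fun i j => C.m i j
  let G : Matrix C.Δ C.Δ ℤ := fun i j => 2 * ∑ b, C.co b i * C.co b j
  have hMG : M * G = Matrix.diagonal fun i : C.Δ => kap C i := by
    ext i j
    have e := kap_co C i j j.2
    have e2 : (M * G) i j = 2 * ∑ b, C.m i b * C.co b j := by
      rw [Matrix.mul_apply]
      have : ∀ b, C.m i b * C.co b j = ∑ l : C.Δ, C.m i l * (C.co b l * C.co b j) := by
        intro b
        rw [C.lin i b, sum_mul, ← sum_coe_sort C.Δ]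
        exact sum_congr rfl fun l _ => by ring
      simp only [this]
      rw [sum_comm, mul_sum]
      refine sum_congr rfl fun l _ => ?_
      show C.m i l * (2 * ∑ b, C.co b l * C.co b j) = _
      rw [← mul_sum]; ring
    rw [e2, ← e]
    by_cases hij : i = j
    · subst hij
      rw [Matrix.diagonal_apply_eq, C.self _ i.2, mul_one]
    · rw [Matrix.diagonal_apply_ne _ hij, C.ne _ i.2 _ j.2 (fun h0 => hij (Subtype.ext h0)),
        mul_zero]
  have hdet : M.det ≠ 0 := by
    intro h0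
    have := congrArg Matrix.det hMG
    rw [Matrix.det_mul, h0, zero_mul, Matrix.det_diagonal] at this
    exact (prod_pos fun i _ => kap_pos C (i : C.Δ)).ne' this.symm
  have hv : M.mulVec (fun j : C.Δ => x j) = 0 := by
    funext i
    have := h i i.2
    rw [mv, ← sum_coe_sort C.Δ] at this
    rw [Pi.zero_apply, ← this]
    exact sum_congr rfl fun j _ => mul_comm _ _
  have := Matrix.eq_zero_of_mulVec_eq_zero hdet hv
  intro i hi
  exact congrFun this ⟨i, hi⟩

theorem B_def (x : Φ → ℤ) (h : B C x x = 0) : ∀ i ∈ C.Δ, x i = 0 := by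
  refine cartan_inj C x fun i _ => ?_
  have := (sum_eq_zero_iff_of_nonneg fun g _ => mul_self_nonneg (mv C g x)).1 h i (mem_univ i)
  exact mul_self_eq_zero.1 this

theorem B_pos (x : Φ → ℤ) (h : ∃ i ∈ C.Δ, x i ≠ 0) : 0 < B C x x := by
  refine lt_of_le_of_ne (B_nonneg C x) fun h0 => ?_
  obtain ⟨i, hi, hne⟩ := h
  exact hne (B_def C x h0.symm i hi)

/-- positive definiteness in terms of the symmetrised Cartan matrix -/
theorem cartan_pos (x : Φ → ℤ) (h : ∃ i ∈ C.Δ, x i ≠ 0) :
    0 < ∑ i ∈ C.Δ, ∑ j ∈ C.Δ, x i * x j * (d C i * C.m i j) := by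
  have e : ∑ i ∈ C.Δ, ∑ j ∈ C.Δ, x i * x j * (d C i * C.m i j) = 2 * B C x x := by
    rw [B_expand, mul_sum]
    refine sum_congr rfl fun i _ => ?_
    have := d_mv C i x
    rw [mul_left_comm, ← this, mv, mul_sum, mul_sum]
    exact sum_congr rfl fun j _ => by ring
  rw [e]
  have := B_pos C x h
  linarith

theorem m_inj {a b : Φ} (h : ∀ i ∈ C.Δ, C.m i a = C.m i b) : a = b := by
  refine C.inj _ _ fun i hi => ?_
  have := cartan_inj C (fun j => 1 * C.co a j + (-1) * C.co b j) (fun j hj => by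
    rw [mv_comb C j 1 (-1) (x := C.co a) (y := C.co b) fun _ _ => rfl, mv_co, mv_co, h j hj]
    ring) i hi
  linarith

theorem mm_nonneg (a b : Φ) : 0 ≤ C.m a b * C.m b a := by
  rcases lt_trichotomy (C.m a b) 0 with h | h | h
  · exact (mul_pos_of_neg_of_neg h (m_neg_symm C h)).le
  · rw [h, zero_mul]
  · exact (mul_pos h (m_pos_symm C h)).le

theorem mm_le {a b : Φ} (h1 : b ≠ a) (h2 : b ≠ C.neg a) : C.m a b * C.m b a ≤ 3 := by
  set x : Φ → ℤ := fun i => d C a * C.co b i + (-B C (C.co a) (C.co b)) * C.co a i with hx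
  have hne : ∃ i ∈ C.Δ, x i ≠ 0 := by
    by_contra hn
    push Not at hn
    rcases C.red a b (d C a) (B C (C.co a) (C.co b)) (d_pos C a).ne' (fun i hi => by
      have := hn i hi
      simp only [hx] at this
      linarith) with h | h
    · exact h1 h
    · exact h2 h
  have hp := B_pos C x hne
  have e1 : ∀ w, B C w x = d C a * B C w (C.co b) + (-B C (C.co a) (C.co b)) * B C w (C.co a) :=
    fun w => B_comb C w _ _ fun _ _ => rfl
  rw [e1, B_symm C x, B_symm C x, e1, e1, B_symm C (C.co b) (C.co a)] at hp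
  have ea : B C (C.co a) (C.co a) = d C a := rfl
  have eb : B C (C.co b) (C.co b) = d C b := rfl
  rw [ea, eb] at hp
  have h3 := d_m C a b
  have h4 := d_m C b a
  rw [B_symm] at h4
  have pa := d_pos C a
  have pb := d_pos C b
  set t := B C (C.co a) (C.co b)
  have h5 : t * t < d C a * d C b := by
    have : 0 < d C a * (d C a * d C b - t * t) := by linarith
    have := (mul_pos_iff_of_pos_left pa).1 this
    linarith
  have h6 : d C a * d C b * (C.m a b * C.m b a) = 4 * (t * t) := by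
    calc _ = (d C a * C.m a b) * (d C b * C.m b a) := by ring
      _ = _ := by rw [h3, h4]; ring
  have h7 : d C a * d C b * (C.m a b * C.m b a) < d C a * d C b * 4 := by linarith
  have := lt_of_mul_lt_mul_left h7 (mul_pos pa pb).le
  omega

theorem sub_root {a b : Φ} (h : 0 < C.m a b) (hne : b ≠ a) :
    ∃ c, ∀ i ∈ C.Δ, C.co c i = C.co b i - C.co a i := by
  have h2 : b ≠ C.neg a := by
    rintro rfl
    rw [m_neg, C.two] at h
    omega
  have h3 := mm_le C hne h2
  have h4 := m_pos_symm C h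
  by_cases h5 : C.m a b = 1
  · exact ⟨C.s a b, fun i hi => by rw [C.refl a b i hi, h5]; ring⟩
  · have h6 : C.m b a = 1 := by
      have : 2 ≤ C.m a b := by omega
      nlinarith
    exact ⟨C.neg (C.s b a), fun i hi => by rw [C.co_neg _ i hi, C.refl b a i hi, h6]; ring⟩

theorem add_root {a b : Φ} (h : C.m a b < 0) (hne : b ≠ C.neg a) :
    ∃ c, ∀ i ∈ C.Δ, C.co c i = C.co b i + C.co a i := by
  obtain ⟨c, hc⟩ := sub_root C (a := C.neg a) (b := b) (by rw [m_neg_left]; linarith) hne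
  exact ⟨c, fun i hi => by rw [hc i hi, C.co_neg a i hi]; ring⟩

theorem pos_of_co {b j : Φ} (hj : j ∈ C.Δ) (h : 0 < C.co b j) : Pos C b :=
  (C.sign b).resolve_right fun h' => absurd (h' j hj) (not_le.2 h)

theorem pos_simple {i : Φ} (hi : i ∈ C.Δ) : Pos C i :=
  pos_of_co C hi (by rw [C.self i hi]; norm_num)

theorem pos_or (b : Φ) : Pos C b ∨ Pos C (C.neg b) :=
  (C.sign b).imp id fun h i hi => by rw [C.co_neg b i hi]; linarith [h i hi]

theorem not_pos_neg {b : Φ} (h : Pos C b) : ¬ Pos C (C.neg b) := by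
  intro h'
  obtain ⟨i, hi, hne⟩ := co_ne C b
  have h1 := h i hi
  have h2 := h' i hi
  rw [C.co_neg b i hi] at h2
  omega

theorem pos_neg_iff (b : Φ) : Pos C (C.neg b) ↔ ¬ Pos C b :=
  ⟨fun h h' => not_pos_neg C h' h, fun h => (pos_or C b).resolve_left h⟩

theorem m_simple_le {i j : Φ} (hi : i ∈ C.Δ) (hj : j ∈ C.Δ) (hij : i ≠ j) : C.m i j ≤ 0 := by
  have h1 : Pos C (C.s i j) :=
    pos_of_co C hj (by rw [C.refl i j j hj, C.self j hj, C.ne i hi j hj hij]; norm_num)
  have := h1 i hi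
  rw [C.refl i j i hi, C.self i hi, C.ne j hj i hi hij.symm] at this
  linarith

theorem exists_co_pos {i b : Φ} (hi : i ∈ C.Δ) (hb : Pos C b) (hne : b ≠ i) :
    ∃ j ∈ C.Δ, j ≠ i ∧ 0 < C.co b j := by
  by_contra hn
  push Not at hn
  rcases C.red i b 1 (C.co b i) one_ne_zero (fun j hj => by
    by_cases hji : j = i
    · subst hji; rw [C.self j hj]; ring
    · rw [C.ne i hi j hj (Ne.symm hji), le_antisymm (hn j hj hji) (hb j hj)]; ring) with h | h
  · exact hne h
  · exact not_pos_neg C (pos_simple C hi) (h ▸ hb)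

theorem pos_s {i b : Φ} (hi : i ∈ C.Δ) (hb : Pos C b) (hne : b ≠ i) : Pos C (C.s i b) := by
  obtain ⟨j, hj, hji, hp⟩ := exists_co_pos C hi hb hne
  exact pos_of_co C hj (by rw [C.refl i b j hj, C.ne i hi j hj hji.symm]; linarith)

theorem s_ne {i b : Φ} (hi : i ∈ C.Δ) (hb : Pos C b) : C.s i b ≠ i := by
  intro h
  have : b = C.neg i := by rw [← s_s C i b, h, s_self]
  exact not_pos_neg C (pos_simple C hi) (this ▸ hb)

theorem ht_simple {i : Φ} (hi : i ∈ C.Δ) : ht C i = 1 := by
  unfold ht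
  rw [sum_eq_single_of_mem i hi fun j hj hji => C.ne i hi j hj hji.symm, C.self i hi]

theorem ht_comb (p q : ℤ) {a b c : Φ} (h : ∀ i ∈ C.Δ, C.co c i = p * C.co a i + q * C.co b i) :
    ht C c = p * ht C a + q * ht C b := by
  unfold ht
  rw [mul_sum, mul_sum, ← sum_add_distrib]
  exact sum_congr rfl h

theorem ht_s (a b : Φ) : ht C (C.s a b) = ht C b - C.m a b * ht C a := by
  rw [ht_comb C 1 (-C.m a b) (a := b) (b := a) fun i hi => by rw [C.refl a b i hi]; ring]
  ring

theorem ht_neg (b : Φ) : ht C (C.neg b) = - ht C b := by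
  rw [ht_comb C (-1) 0 (a := b) (b := b) fun i hi => by rw [C.co_neg b i hi]; ring]
  ring

theorem ht_pos {b : Φ} (hb : Pos C b) : 0 < ht C b := by
  obtain ⟨i, hi, hne⟩ := co_ne C b
  have := single_le_sum (f := fun i => C.co b i) hb hi
  have := hb i hi
  unfold ht
  omega

theorem pos_iff_ht (b : Φ) : Pos C b ↔ 0 < ht C b := by
  refine ⟨ht_pos C, fun h => (pos_or C b).resolve_right fun h' => ?_⟩
  have := ht_pos C h'
  rw [ht_neg] at this
  omega

theorem exists_m_pos {b : Φ} (hb : Pos C b) : ∃ i ∈ C.Δ, 0 < C.co b i ∧ 0 < C.m i b := by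
  by_contra hn
  push Not at hn
  have h1 := C.lin b b
  have h2 : ∑ i ∈ C.Δ, C.co b i * C.m b i ≤ 0 := by
    refine sum_nonpos fun i hi => ?_
    rcases (hb i hi).eq_or_lt with h | h
    · rw [← h, zero_mul]
    · have h3 : C.m b i ≤ 0 := by
        by_contra h4
        exact absurd (m_pos_symm C (not_le.1 h4)) (not_lt.2 (hn i hi h))
      exact mul_nonpos_of_nonneg_of_nonpos h.le h3
  rw [C.two] at h1
  omega

/-- induction principle for positive roots -/
theorem pos_ind (P : Φ → Prop) (h0 : ∀ i ∈ C.Δ, P i)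
    (hs : ∀ i ∈ C.Δ, ∀ b, Pos C b → b ≠ i → C.m i b < 0 → P b → P (C.s i b)) :
    ∀ b, Pos C b → P b := by
  suffices H : ∀ n : ℕ, ∀ b, Pos C b → ht C b ≤ n → P b from
    fun b hb => H (ht C b).toNat b hb (Int.self_le_toNat _)
  intro n
  induction n with
  | zero => intro b hb h; have := ht_pos C hb; omega
  | succ n ih =>
    intro b hb h
    obtain ⟨i, hi, -, hm⟩ := exists_m_pos C hb
    by_cases hbi : b = i
    · exact hbi ▸ h0 i hi
    · have h1 := pos_s C hi hb hbi
      have h2 := ht_s C i b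
      rw [ht_simple C hi] at h2
      have := hs i hi _ h1 (s_ne C hi hb) (by rw [m_s, C.two]; omega)
        (ih _ h1 (by push_cast at h; omega))
      rwa [s_s] at this

/-- an invariant of the simple reflections takes on every root a value taken on a simple root -/
theorem exists_simple {T : Type*} (F : Φ → T) (hF : ∀ i ∈ C.Δ, ∀ b, F (C.s i b) = F b) (b : Φ) :
    ∃ i ∈ C.Δ, F b = F i := by
  have H := pos_ind C (fun b => (∃ i ∈ C.Δ, F b = F i) ∧ ∃ i ∈ C.Δ, F (C.neg b) = F i)
    (fun i hi => ⟨⟨i, hi, rfl⟩, i, hi, by rw [← s_self, hF i hi]⟩)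
    (fun i hi b _ _ _ h => by rw [← s_neg, hF i hi, hF i hi]; exact h)
  rcases pos_or C b with h | h
  · exact (H b h).1
  · have := (H _ h).2
    rwa [neg_neg] at this

theorem exists_simple_d (b : Φ) : ∃ i ∈ C.Δ, d C b = d C i ∧ kap C b = kap C i := by
  obtain ⟨i, hi, h⟩ := exists_simple C (fun b => (d C b, kap C b))
    (fun i _ b => by rw [d_s, kap_s]) b
  exact ⟨i, hi, (Prod.mk.inj h).1, (Prod.mk.inj h).2⟩

/-- if `D` has no edge to its complement, every root is supported on one side -/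
theorem supp_side (D : Set Φ) (hD : ∀ i ∈ C.Δ, ∀ j ∈ C.Δ, i ∈ D → j ∉ D → C.m i j = 0) (b : Φ) :
    (∀ j ∈ C.Δ, j ∉ D → C.co b j = 0) ∨ ∀ j ∈ C.Δ, j ∈ D → C.co b j = 0 := by
  have H := pos_ind C
    (fun b => (∀ j ∈ C.Δ, j ∉ D → C.co b j = 0) ∨ ∀ j ∈ C.Δ, j ∈ D → C.co b j = 0)
    (fun i hi => by
      by_cases h : i ∈ D
      · exact Or.inl fun j hj hn => C.ne i hi j hj fun e => hn (e ▸ h)
      · exact Or.inr fun j hj hn => C.ne i hi j hj fun e => h (e ▸ hn))
    (fun i hi b _ _ hm h => by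
      rcases h with h | h
      · have hiD : i ∈ D := by
          by_contra hn
          rw [C.lin, sum_eq_zero fun j hj => by
            by_cases hjD : j ∈ D
            · rw [m_zero_symm C (hD j hj i hi hjD hn), mul_zero]
            · rw [h j hj hjD, zero_mul]] at hm
          exact lt_irrefl _ hm
        exact Or.inl fun j hj hn => by
          rw [C.refl i b j hj, h j hj hn, C.ne i hi j hj fun e => hn (e ▸ hiD)]; ring
      · have hiD : i ∉ D := by
          intro hn
          rw [C.lin, sum_eq_zero fun j hj => by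
            by_cases hjD : j ∈ D
            · rw [h j hj hjD, zero_mul]
            · rw [hD i hi j hj hn hjD, mul_zero]] at hm
          exact lt_irrefl _ hm
        exact Or.inr fun j hj hn => by
          rw [C.refl i b j hj, h j hj hn, C.ne i hi j hj fun e => hiD (e ▸ hn)]; ring)
  rcases pos_or C b with h | h
  · exact H b h
  · refine (H _ h).imp (fun h j hj hn => ?_) fun h j hj hn => ?_
    · have := h j hj hn
      rw [C.co_neg b j hj] at this
      omega
    · have := h j hj hn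
      rw [C.co_neg b j hj] at this
      omega

end Pool.Agent.Lib.MP_3a0263_al.Q.C1
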