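import Mathlib

namespace Pool.Agent.Lib.MP_3a0263_al.Q

open Finset

universe u

namespace DYN

variable {ι : Type u} [Fintype ι]

/-- a generalised Cartan matrix without nonnegative subcritical vectors -/
structure GCM (A : ι → ι → ℤ) : Prop where
  two : ∀ i, A i i = 2
  neg : ∀ i j, i ≠ j → A i j ≤ 0
  zero : ∀ i j, A i j = 0 → A j i = 0
  fin : ∀ x : ι → ℤ, (∀ i, 0 ≤ x i) → (∀ i, 0 < x i → ∑ j, A i j * x j ≤ 0) → ∀ i, x i = 0

/-- a simple path with `r` vertices -/
structure Pth (A : ι → ι → ℤ) (v : ℕ → ι) (r : ℕ) : Prop where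
  inj : ∀ i < r, ∀ j < r, v i = v j → i = j
  adj : ∀ i, i + 1 < r → A (v i) (v (i + 1)) ≤ -1

variable {A : ι → ι → ℤ} {v : ℕ → ι} {r : ℕ}

theorem GCM.symm (G : GCM A) {i j : ι} (h : A i j ≤ -1) : A j i ≤ -1 := by
  have hij : j ≠ i := by
    rintro rfl
    have := G.two j
    omega
  have h1 := G.neg j i hij
  by_contra h2
  have h3 : A j i = 0 := by omega
  have := G.zero j i h3
  omega

theorem GCM.ne (G : GCM A) {i j : ι} (h : A i j ≤ -1) : i ≠ j := by
  rintro rfl
  have := G.two i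
  omega

omit [Fintype ι] in
theorem Pth.ne (P : Pth A v r) {i j : ℕ} (hi : i < r) (hj : j < r) (h : i ≠ j) : v i ≠ v j :=
  fun e => h (P.inj i hi j hj e)

theorem Pth.adj' (G : GCM A) (P : Pth A v r) (i : ℕ) (h : i + 1 < r) :
    A (v (i + 1)) (v i) ≤ -1 := G.symm (P.adj i h)

theorem row_path (G : GCM A) (P : Pth A v r) (c : ℕ → ℕ) (hr : c r = 0) (i : ℕ) (hi : i < r) :
    ∑ j ∈ range r, A (v i) (v j) * (c j : ℤ) ≤
      2 * (c i : ℤ) - c (i + 1) - (if i = 0 then 0 else c (i - 1) : ℕ) := by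
  classical
  have key : ∀ j ∈ range r, A (v i) (v j) * (c j : ℤ) ≤
      (if j = i then 2 * (c i : ℤ) else 0) - (if j = i + 1 then (c (i + 1) : ℤ) else 0) -
        (if j + 1 = i then (c (i - 1) : ℤ) else 0) := by
    intro j hj
    have hj' := mem_range.1 hj
    have hc : (0 : ℤ) ≤ c j := Int.natCast_nonneg _
    by_cases h1 : j = i
    · subst h1
      rw [G.two]
      simp
    · by_cases h2 : j = i + 1
      · subst h2
        have := P.adj i hj'
        have h3 : ¬ (i + 1 + 1 = i) := by omega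
        simp only [h1, h3, if_true, if_false]
        nlinarith
      · by_cases h3 : j + 1 = i
        · subst h3
          have := P.adj' G j hi
          simp only [h1, h2, if_true, if_false, Nat.add_sub_cancel]
          nlinarith
        · have := G.neg _ _ (P.ne hi hj' (Ne.symm h1))
          simp only [h1, h2, h3, if_false]
          nlinarith
  refine (sum_le_sum key).trans ?_
  rw [sum_sub_distrib, sum_sub_distrib, sum_ite_eq', sum_ite_eq']
  have e1 : (if i ∈ range r then 2 * (c i : ℤ) else 0) = 2 * (c i : ℤ) := by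
    rw [if_pos (mem_range.2 hi)]
  have e2 : (if i + 1 ∈ range r then (c (i + 1) : ℤ) else 0) = c (i + 1) := by
    split_ifs with h
    · rfl
    · have : i + 1 = r := by
        have := mt mem_range.2 h
        omega
      rw [this, hr]
      rfl
  have e3 : (∑ j ∈ range r, if j + 1 = i then (c (i - 1) : ℤ) else 0) =
      ((if i = 0 then 0 else c (i - 1) : ℕ) : ℤ) := by
    split_ifs with h
    · subst h
      simp
    · have : ∀ j, (j + 1 = i) = (j = i - 1) := fun j => propext (by omega)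
      simp only [this]
      rw [sum_ite_eq', if_pos (mem_range.2 (by omega))]
  rw [e1, e2, e3]

theorem row_out (G : GCM A) (c : ℕ → ℕ) (u : ι) (hu : ∀ i < r, 0 < c i → v i ≠ u) (k : ℕ)
    (hk : k < r) : ∑ j ∈ range r, A u (v j) * (c j : ℤ) ≤ A u (v k) * c k := by
  classical
  rw [← add_sum_erase _ _ (mem_range.2 hk)]
  have : ∑ j ∈ (range r).erase k, A u (v j) * (c j : ℤ) ≤ 0 := by
    refine sum_nonpos fun j hj => ?_
    have hj' := mem_range.1 (mem_of_mem_erase hj)
    rcases Nat.eq_zero_or_pos (c j) with h | h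
    · simp [h]
    · exact mul_nonpos_of_nonpos_of_nonneg (G.neg _ _ (hu j hj' h).symm) (Int.natCast_nonneg _)
  linarith

/-- the master obstruction: weights on a path and on two further vertices -/
theorem px (G : GCM A) (P : Pth A v r) (c : ℕ → ℕ) (hr : c r = 0) (u u' : ι) (cu cu' : ℤ)
    (su su' k l : ℕ) (hk : k < r) (hl : l < r) (hck : 0 < c k) (h0 : 0 ≤ cu) (h0' : 0 ≤ cu')
    (hu : 0 < cu → ∀ i < r, 0 < c i → v i ≠ u) (hu' : 0 < cu' → ∀ i < r, 0 < c i → v i ≠ u')
    (hs : A (v k) u * cu ≤ -(su : ℤ)) (hs' : A (v l) u' * cu' ≤ -(su' : ℤ))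
    (row : ∀ i < r, 0 < c i → 2 * c i ≤ c (i + 1) + (if i = 0 then 0 else c (i - 1)) +
      (if i = k then su else 0) + (if i = l then su' else 0))
    (h2 : 0 < cu → 2 * cu + A u (v k) * c k + A u u' * cu' ≤ 0)
    (h3 : 0 < cu' → 2 * cu' + A u' (v l) * c l + A u' u * cu ≤ 0) : False := by
  classical
  set x : ι → ℤ := fun z => ∑ i ∈ range r, (if v i = z then (c i : ℤ) else 0) +
    (if u = z then cu else 0) + (if u' = z then cu' else 0) with hx
  have p1 : ∀ z, 0 ≤ ∑ i ∈ range r, (if v i = z then (c i : ℤ) else 0) := fun z =>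
    sum_nonneg fun i _ => by split_ifs <;> simp
  have p2 : ∀ z, 0 ≤ (if u = z then cu else 0) := fun z => by split_ifs <;> simp [h0]
  have p3 : ∀ z, 0 ≤ (if u' = z then cu' else 0) := fun z => by split_ifs <;> simp [h0']
  have hsum : ∀ y, ∑ z, A y z * x z =
      ∑ i ∈ range r, A y (v i) * (c i : ℤ) + A y u * cu + A y u' * cu' := by
    intro y
    simp only [hx, mul_add, sum_add_distrib, mul_sum, mul_ite, mul_zero]
    rw [sum_comm]
    simp only [sum_ite_eq, mem_univ, if_true]
  have hz := G.fin x (fun z => add_nonneg (add_nonneg (p1 z) (p2 z)) (p3 z)) ?_ (v k)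
  · have : (c k : ℤ) ≤ ∑ i ∈ range r, (if v i = v k then (c i : ℤ) else 0) := by
      have := single_le_sum (f := fun i => if v i = v k then (c i : ℤ) else 0)
        (fun i _ => by split_ifs <;> simp) (mem_range.2 hk)
      simpa using this
    have q2 := p2 (v k)
    have q3 := p3 (v k)
    simp only [hx] at hz
    omega
  intro y hy
  rw [hsum]
  by_cases a1 : ∃ i < r, 0 < c i ∧ v i = y
  · obtain ⟨i, hi, hci, rfl⟩ := a1
    have b1 := row_path G P c hr i hi
    have b2 : A (v i) u * cu ≤ -((if i = k then su else 0 : ℕ) : ℤ) := by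
      split_ifs with h
      · subst h
        exact hs
      · rcases h0.eq_or_lt with h' | h'
        · simp [← h']
        · simpa using mul_nonpos_of_nonpos_of_nonneg (G.neg _ _ (hu h' i hi hci)) h0
    have b3 : A (v i) u' * cu' ≤ -((if i = l then su' else 0 : ℕ) : ℤ) := by
      split_ifs with h
      · subst h
        exact hs'
      · rcases h0'.eq_or_lt with h' | h'
        · simp [← h']
        · simpa using mul_nonpos_of_nonpos_of_nonneg (G.neg _ _ (hu' h' i hi hci)) h0'
    have b4 := row i hi hci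
    omega
  · have b0 : ∑ i ∈ range r, (if v i = y then (c i : ℤ) else 0) = 0 := by
      refine sum_eq_zero fun i hi => ?_
      split_ifs with h
      · by_contra h'
        exact a1 ⟨i, mem_range.1 hi, by omega, h⟩
      · rfl
    simp only [hx, b0] at hy
    by_cases a2 : u = y ∧ 0 < cu
    · obtain ⟨rfl, hp⟩ := a2
      have b1 := row_out G c u (hu hp) k hk
      have b2 := h2 hp
      rw [G.two]
      omega
    · have a3 : u' = y ∧ 0 < cu' := by
        by_contra a3
        split_ifs at hy <;> simp_all <;> omega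
      obtain ⟨rfl, hp⟩ := a3
      have b1 := row_out G c u' (hu' hp) l hl
      have b2 := h3 hp
      rw [G.two]
      omega

/-- rank two bound -/
theorem GCM.mul_le (G : GCM A) {i j : ι} (h : i ≠ j) : A i j * A j i ≤ 3 := by
  by_contra hc
  have hn := G.neg j i h.symm
  have P : Pth A (fun _ => i) 1 := ⟨fun a ha b hb _ => by omega, fun a ha => by omega⟩
  refine px G P (fun a => if a = 0 then 2 else 0) (by simp) j j (-A j i) 0 4 0 0 0 (by omega)
    (by omega) (by simp) (by omega) le_rfl (fun _ _ _ _ => h) (fun h => by omega) ?_ (by simp) ?_ ?_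
    (fun h => by omega)
  · push_cast
    nlinarith
  · intro a ha _
    have : a = 0 := by omega
    subst this
    simp
  · intro _
    simp
    omega

theorem GCM.cases (G : GCM A) {i j : ι} (h : A i j ≤ -1) :
    (A i j = -1 ∧ A j i = -1) ∨ (A i j = -1 ∧ A j i = -2) ∨ (A i j = -2 ∧ A j i = -1) ∨
      (A i j = -1 ∧ A j i = -3) ∨ (A i j = -3 ∧ A j i = -1) := by
  have h1 := G.symm h
  have h2 := G.mul_le (G.ne h)
  have h3 : -3 ≤ A i j := by nlinarith
  have h4 : -3 ≤ A j i := by nlinarith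
  generalize A i j = a at *
  generalize A j i = b at *
  interval_cases a <;> interval_cases b <;> simp_all

/-- no cycles -/
theorem no_cycle (G : GCM A) (P : Pth A v r) (u : ι) (hu : ∀ i < r, v i ≠ u) (a b : ℕ)
    (hab : a < b) (hb : b < r) (h1 : A u (v a) ≤ -1) (h2 : A u (v b) ≤ -1) : False := by
  have h1' := G.symm h1
  have h2' := G.symm h2
  obtain ⟨b, rfl⟩ : ∃ b', b = b' + 1 := ⟨b - 1, by omega⟩
  have h3 := P.adj b hb
  have h3' := G.symm h3
  refine px G P (fun i => if a ≤ i ∧ i ≤ b then 1 else 0) (by split_ifs <;> omega) u (v (b + 1)) 1 1 1 1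
    a b (by omega) (by omega) (by split_ifs <;> omega) (by omega) (by omega) (fun _ i hi _ => hu i hi)
    (fun _ i hi hc => P.ne hi hb (by rintro rfl; split_ifs at hc <;> omega)) (by simpa using h1')
    (by simpa using h3) ?_ ?_ ?_
  · intro i hi hc
    split_ifs at hc ⊢ <;> omega
  · intro _
    rw [if_pos (by omega)]
    omega
  · intro _
    rw [if_pos (by omega)]
    omega

omit [Fintype ι] in
theorem Pth.mono (P : Pth A v r) {s : ℕ} (h : s ≤ r) : Pth A v s :=
  ⟨fun i hi j hj e => P.inj i (by omega) j (by omega) e, fun i hi => P.adj i (by omega)⟩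

theorem no_chord (G : GCM A) (P : Pth A v r) (a b : ℕ) (hab : a + 1 < b) (hb : b < r) :
    A (v b) (v a) = 0 := by
  by_contra h
  have h1 := G.neg _ _ (P.ne hb (show a < r by omega) (by omega))
  obtain ⟨b, rfl⟩ : ∃ b', b = b' + 1 := ⟨b - 1, by omega⟩
  exact no_cycle G (P.mono hb.le) (v (b + 1)) (fun i hi => P.ne (by omega) hb (by omega)) a b
    (by omega) (by omega) (by omega) (P.adj' G b hb)

/-- an edge is multiple -/
def Mul (A : ι → ι → ℤ) (i j : ι) : Prop := 2 ≤ A i j * A j i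

omit [Fintype ι] in
theorem Mul.symm {i j : ι} (h : Mul A i j) : Mul A j i := by
  unfold Mul at *
  rwa [mul_comm]

/-- two multiple edges on a path -/
theorem no_C (G : GCM A) (P : Pth A v r) (k l : ℕ) (hkl : k < l) (hl : l + 1 < r)
    (h1 : Mul A (v k) (v (k + 1))) (h2 : Mul A (v l) (v (l + 1))) : False := by
  unfold Mul at h1 h2
  have a1 := P.adj k (by omega)
  have a2 := P.adj' G l hl
  have z1 := no_chord G P k (l + 1) (by omega) hl
  have z2 := G.zero _ _ z1
  refine px G P (fun i => if k < i ∧ i ≤ l then 2 else 0) (by split_ifs <;> omega) (v k) (v (l + 1))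
    (-A (v k) (v (k + 1))) (-A (v (l + 1)) (v l)) 2 2 (k + 1) l (by omega) (by omega)
    (by split_ifs <;> omega) (by omega) (by omega)
    (fun _ i hi hc => P.ne hi (by omega) (by rintro rfl; split_ifs at hc <;> omega))
    (fun _ i hi hc => P.ne hi hl (by rintro rfl; split_ifs at hc <;> omega)) (by push_cast; nlinarith)
    (by push_cast; nlinarith) ?_ ?_ ?_
  · intro i hi hc
    split_ifs at hc ⊢ <;> omega
  · intro _
    rw [if_pos (by omega), z2]
    omega
  · intro _
    rw [if_pos (by omega), z1]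
    omega

/-- a triple edge with a further neighbour -/
theorem no_G (G : GCM A) (P : Pth A v r) (k : ℕ) (hk : 0 < k) (hr : k + 1 < r)
    (h : 3 ≤ A (v k) (v (k + 1)) * A (v (k + 1)) (v k)) : False := by
  have a2 := P.adj' G k hr
  refine px G P (fun i => if i = k then 2 else if i + 1 = k then 1 else 0) (by split_ifs <;> omega)
    (v (k + 1)) (v (k + 1)) (-A (v (k + 1)) (v k)) 0 3 0 k k (by omega) (by omega)
    (by simp) (by omega) le_rfl
    (fun _ i hi hc => P.ne hi hr (by rintro rfl; split_ifs at hc <;> omega))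
    (fun h => by omega) (by push_cast; nlinarith) (by simp) ?_ ?_ (fun h => by omega)
  · intro i hi hc
    split_ifs at hc ⊢ <;> omega
  · intro _
    rw [if_pos rfl]
    omega

/-- the affine diagrams of type F4 -/
theorem no_F (G : GCM A) (P : Pth A v r) (k : ℕ) (hk : 2 ≤ k) (hr : k + 2 < r)
    (h : Mul A (v k) (v (k + 1))) : False := by
  unfold Mul at h
  have a2 := P.adj' G k (by omega)
  have a3 := P.adj (k + 1) hr
  have a4 := P.adj' G (k + 1) hr
  have z1 := no_chord G P k (k + 2) (by omega) hr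
  have z2 := G.zero _ _ z1
  refine px G P (fun i => if k ≤ i + 2 ∧ i ≤ k then i + 3 - k else 0) (by split_ifs <;> omega)
    (v (k + 1)) (v (k + 2)) (-2 * A (v (k + 1)) (v k)) (-A (v (k + 1)) (v k)) 4 0 k k (by omega)
    (by omega) (by simp) (by omega) (by omega)
    (fun _ i hi hc => P.ne hi (by omega) (by rintro rfl; split_ifs at hc <;> omega))
    (fun _ i hi hc => P.ne hi hr (by rintro rfl; split_ifs at hc <;> omega))
    (by push_cast; nlinarith) (by simp [z2]) ?_ ?_ ?_
  · intro i hi hc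
    split_ifs at hc ⊢ <;> omega
  · intro _
    rw [if_pos (by omega), show k + 3 - k = 3 by omega]
    push_cast
    nlinarith
  · intro _
    rw [z1]
    nlinarith

/-- a multiple edge at a branch vertex -/
theorem no_B0 (G : GCM A) (P : Pth A v r) (u : ι) (hu : ∀ i < r, v i ≠ u) (k : ℕ) (hk : 0 < k)
    (hr : k + 1 < r) (h1 : A u (v k) ≤ -1) (h : Mul A u (v k)) : False := by
  unfold Mul at h
  refine px G P (fun i => if i = k then 2 else if i + 1 = k ∨ i = k + 1 then 1 else 0)
    (by split_ifs <;> omega) u u (-A u (v k)) 0 2 0 k k (by omega) (by omega)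
    (by simp) (by omega) le_rfl (fun _ i hi _ => hu i hi)
    (fun h => by omega) (by push_cast; nlinarith) (by simp) ?_ ?_ (fun h => by omega)
  · intro i hi hc
    split_ifs at hc ⊢ <;> omega
  · intro _
    rw [if_pos rfl]
    omega

/-- a branch vertex and a multiple edge further on -/
theorem no_B (G : GCM A) (P : Pth A v r) (u : ι) (hu : ∀ i < r, v i ≠ u) (k l : ℕ) (hk : 0 < k)
    (hkl : k ≤ l) (hl : l + 1 < r) (h1 : A u (v k) ≤ -1) (h : Mul A (v l) (v (l + 1))) :
    False := by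
  unfold Mul at h
  have a1 := G.symm h1
  have a2 := P.adj' G l hl
  have n1 := G.neg _ _ (hu _ hl)
  have n2 := G.neg _ _ (hu _ hl).symm
  refine px G P (fun i => if k ≤ i ∧ i ≤ l then 2 else if i + 1 = k then 1 else 0)
    (by split_ifs <;> omega) u (v (l + 1)) 1 (-A (v (l + 1)) (v l)) 1 2 k l (by omega) (by omega)
    (by split_ifs <;> omega) (by omega) (by omega) (fun _ i hi _ => hu i hi)
    (fun _ i hi hc => P.ne hi hl (by rintro rfl; split_ifs at hc <;> omega))
    (by simpa using a1) (by push_cast; nlinarith) ?_ ?_ ?_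
  · intro i hi hc
    split_ifs at hc ⊢ <;> omega
  · intro _
    rw [if_pos (by omega)]
    push_cast
    nlinarith
  · intro _
    rw [if_pos (by omega)]
    omega

/-- two branches -/
theorem no_D (G : GCM A) (P : Pth A v r) (u u' : ι) (hu : ∀ i < r, v i ≠ u)
    (hu' : ∀ i < r, v i ≠ u') (huu : u ≠ u') (k l : ℕ) (hk : 0 < k)
    (hkl : k ≤ l) (hl : l + 1 < r) (h1 : A u (v k) ≤ -1) (h2 : A u' (v l) ≤ -1) : False := by
  have a1 := G.symm h1
  have a2 := G.symm h2
  have n1 := G.neg _ _ huu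
  have n2 := G.neg _ _ huu.symm
  refine px G P (fun i => if k ≤ i ∧ i ≤ l then 2 else if i + 1 = k ∨ i = l + 1 then 1 else 0)
    (by split_ifs <;> omega) u u' 1 1 1 1 k l (by omega) (by omega)
    (by split_ifs <;> omega) (by omega) (by omega) (fun _ i hi _ => hu i hi) (fun _ i hi _ => hu' i hi)
    (by simpa using a1) (by simpa using a2) ?_ ?_ ?_
  · intro i hi hc
    split_ifs at hc ⊢ <;> omega
  · intro _
    rw [if_pos (by omega)]
    omega
  · intro _
    rw [if_pos (by omega)]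
    omega

theorem no_E6 (G : GCM A) (P : Pth A v r) (u u' : ι) (hu : ∀ i < r, v i ≠ u)
    (hu' : ∀ i < r, v i ≠ u') (k : ℕ) (hk : 2 ≤ k) (hr : k + 2 < r) (h1 : A u (v k) ≤ -1)
    (h2 : A u u' ≤ -1) : False := by
  have a1 := G.symm h1
  have a2 := G.symm h2
  have n1 := G.neg _ _ (hu' k (by omega))
  have n2 := G.neg _ _ (hu' k (by omega)).symm
  refine px G P
    (fun i => if k ≤ i + 2 ∧ i ≤ k then i + 3 - k else if k < i then k + 3 - i else 0)
    (by split_ifs <;> omega) u u' 2 1 2 0 k k (by omega) (by omega)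
    (by simp) (by omega) (by omega) (fun _ i hi _ => hu i hi) (fun _ i hi _ => hu' i hi)
    (by push_cast; omega) (by simpa using n1) ?_ ?_ ?_
  · intro i hi hc
    split_ifs at hc ⊢ <;> omega
  · intro _
    rw [if_pos (by omega), show k + 3 - k = 3 by omega]
    omega
  · intro _
    rw [if_pos (by omega), show k + 3 - k = 3 by omega]
    omega

theorem no_E7 (G : GCM A) (P : Pth A v r) (u : ι) (hu : ∀ i < r, v i ≠ u) (k : ℕ) (hk : 3 ≤ k)
    (hr : k + 3 < r) (h1 : A u (v k) ≤ -1) : False := by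
  have a1 := G.symm h1
  refine px G P
    (fun i => if k ≤ i + 3 ∧ i ≤ k then i + 4 - k else if k < i then k + 4 - i else 0)
    (by split_ifs <;> omega) u u 2 0 2 0 k k (by omega) (by omega)
    (by simp) (by omega) le_rfl (fun _ i hi _ => hu i hi) (fun h => by omega)
    (by push_cast; omega) (by simp) ?_ ?_ (fun h => by omega)
  · intro i hi hc
    split_ifs at hc ⊢ <;> omega
  · intro _
    rw [if_pos (by omega), show k + 4 - k = 4 by omega]
    omega

theorem no_E8 (G : GCM A) (P : Pth A v r) (u : ι) (hu : ∀ i < r, v i ≠ u) (hr : 7 < r)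
    (h1 : A u (v 2) ≤ -1) : False := by
  have a1 := G.symm h1
  refine px G P (fun i => if i ≤ 2 then 2 * i + 2 else 8 - i)
    (by split_ifs <;> omega) u u 3 0 3 0 2 2 (by omega) (by omega)
    (by simp) (by omega) le_rfl (fun _ i hi _ => hu i hi) (fun h => by omega)
    (by push_cast; omega) (by simp) ?_ ?_ (fun h => by omega)
  · intro i hi hc
    split_ifs at hc ⊢ <;> omega
  · intro _
    rw [if_pos (by omega)]
    omega

/-- the reversed path -/
def rev (v : ℕ → ι) (r : ℕ) : ℕ → ι := fun i => v (r - 1 - i)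

theorem Pth.rev (G : GCM A) (P : Pth A v r) : Pth A (rev v r) r := by
  refine ⟨fun i hi j hj e => ?_, fun i hi => ?_⟩
  · have := P.inj _ (by omega) _ (by omega) e
    omega
  · have := P.adj' G (r - 1 - (i + 1)) (by omega)
    rwa [show r - 1 - (i + 1) + 1 = r - 1 - i by omega] at this

omit [Fintype ι] in
theorem rev_apply {i : ℕ} (hi : i < r) : rev v r (r - 1 - i) = v i := by
  unfold rev
  rw [show r - 1 - (r - 1 - i) = i by omega]

omit [Fintype ι] in
theorem rev_out {u : ι} (hu : ∀ i < r, v i ≠ u) : ∀ i < r, rev v r i ≠ u :=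
  fun i hi => hu _ (by omega)

omit [Fintype ι] in
theorem rev_mem {z : ι} (h : ∃ i < r, v i = z) : ∃ i < r, rev v r i = z := by
  obtain ⟨i, hi, rfl⟩ := h
  exact ⟨r - 1 - i, by omega, rev_apply hi⟩

omit [Fintype ι] in
theorem Pth.cons (P : Pth A v r) (u : ι) (k : ℕ) (hk : k < r) (hu : ∀ i < r, v i ≠ u)
    (h : A u (v k) ≤ -1) :
    Pth A (fun i => if i = 0 then u else v (k + i - 1)) (r - k + 1) := by
  refine ⟨fun i hi j hj e => ?_, fun i hi => ?_⟩
  · by_cases a : i = 0 <;> by_cases b : j = 0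
    · omega
    · simp only [a, b, if_true, if_false] at e
      exact absurd e.symm (hu _ (by omega))
    · simp only [a, b, if_true, if_false] at e
      exact absurd e (hu _ (by omega))
    · simp only [a, b, if_false] at e
      have := P.inj _ (by omega) _ (by omega) e
      omega
  · by_cases a : i = 0
    · subst a
      simpa using h
    · have := P.adj (k + i - 1) (by omega)
      rw [show k + i - 1 + 1 = k + (i + 1) - 1 by omega] at this
      simpa [a] using this

/-- a longest path -/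
def Mx (A : ι → ι → ℤ) (v : ℕ → ι) (r : ℕ) : Prop :=
  Pth A v r ∧ ∀ w s, Pth A w s → s ≤ r

theorem Mx.rev (G : GCM A) (M : Mx A v r) : Mx A (rev v r) r := ⟨M.1.rev G, M.2⟩

theorem exists_mx (A : ι → ι → ℤ) [Nonempty ι] : ∃ v r, 1 ≤ r ∧ Mx A v r := by
  classical
  have hb : ∀ w s, Pth A w s → s ≤ Fintype.card ι := by
    intro w s P
    have : Function.Injective (fun i : Fin s => w i) := fun i j e => Fin.ext (P.inj _ i.2 _ j.2 e)
    simpa using Fintype.card_le_of_injective _ this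
  obtain ⟨i⟩ := ‹Nonempty ι›
  have P : Pth A (fun _ => i) 1 := ⟨fun a ha b hb _ => by omega, fun a ha => by omega⟩
  obtain ⟨v, hv⟩ := Nat.findGreatest_spec (P := fun s => ∃ w, Pth A w s) (hb _ _ P) ⟨_, P⟩
  have hm : ∀ w s, Pth A w s → s ≤ Nat.findGreatest (fun s => ∃ w, Pth A w s) (Fintype.card ι) :=
    fun w s Q => Nat.le_findGreatest (hb _ _ Q) ⟨_, Q⟩
  exact ⟨v, _, hm _ _ P, hv, hm⟩

omit [Fintype ι] in
theorem Mx.pos (M : Mx A v r) (u : ι) (hu : ∀ i < r, v i ≠ u) (k : ℕ) (hk : k < r)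
    (h : A u (v k) ≤ -1) : 0 < k := by
  have := M.2 _ _ (M.1.cons u k hk hu h)
  omega

omit [Fintype ι] in
theorem Mx.two_le (M : Mx A v r) (u w : ι) (hu : ∀ i < r, v i ≠ u) (hw : ∀ i < r, v i ≠ w)
    (huw : u ≠ w) (k : ℕ) (hk : k < r) (h : A u (v k) ≤ -1) (h' : A w u ≤ -1) : 2 ≤ k := by
  have P := (M.1.cons u k hk hu h).cons w 0 (by omega) ?_ (by simpa using h')
  · have := M.2 _ _ P
    omega
  · intro i hi
    split_ifs
    · exact huw
    · exact hw _ (by omega)

theorem simple_of (G : GCM A) {i j : ι} (h : A i j ≤ -1) (hm : ¬ Mul A i j) :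
    A i j = -1 ∧ A j i = -1 := by
  unfold Mul at hm
  rcases G.cases h with h | h | h | h | h
  · exact h
  all_goals
    rw [h.1, h.2] at hm
    omega

theorem tri_zero (G : GCM A) (P : Pth A v r) {i j : ℕ} (hi : i < r) (hj : j < r) (h1 : i ≠ j)
    (h2 : i + 1 ≠ j) (h3 : j + 1 ≠ i) : A (v i) (v j) = 0 := by
  rcases lt_or_gt_of_ne h1 with h | h
  · exact G.zero _ _ (no_chord G P i j (by omega) hj)
  · exact no_chord G P j i (by omega) hi

/-- the matrix is the model matrix in some enumeration -/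
def IsType (A : ι → ι → ℤ) {n : ℕ} (M : Matrix (Fin n) (Fin n) ℤ) : Prop :=
  ∃ w : Fin n → ι, Function.Injective w ∧ Function.Surjective w ∧ ∀ i j, A (w i) (w j) = M i j

/-- the list of finite types -/
def Cls (A : ι → ι → ℤ) : Prop :=
  (∃ n, 1 ≤ n ∧ IsType A (CartanMatrix.A n)) ∨ (∃ n, 2 ≤ n ∧ IsType A (CartanMatrix.B n)) ∨
    (∃ n, 3 ≤ n ∧ IsType A (CartanMatrix.C n)) ∨ (∃ n, 4 ≤ n ∧ IsType A (CartanMatrix.D n)) ∨
    IsType A CartanMatrix.E₆ ∨ IsType A CartanMatrix.E₇ ∨ IsType A CartanMatrix.E₈ ∨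
    IsType A CartanMatrix.F₄ ∨ IsType A CartanMatrix.G₂

omit [Fintype ι] in
theorem mkType {n : ℕ} (M : Matrix (Fin n) (Fin n) ℤ) (f : ℕ → ι)
    (inj : ∀ i < n, ∀ j < n, f i = f j → i = j) (surj : ∀ z, ∃ i < n, f i = z)
    (h : ∀ i j : Fin n, A (f i) (f j) = M i j) : IsType A M := by
  refine ⟨fun i => f i, fun i j e => Fin.ext (inj _ i.2 _ j.2 e), fun z => ?_, h⟩
  obtain ⟨i, hi, rfl⟩ := surj z
  exact ⟨⟨i, hi⟩, rfl⟩

theorem tridiag (G : GCM A) (P : Pth A v r) (surj : ∀ z, ∃ i < r, v i = z)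
    (M : Matrix (Fin r) (Fin r) ℤ) (a b : ℕ → ℤ)
    (hab : ∀ i, i + 1 < r → A (v i) (v (i + 1)) = a i ∧ A (v (i + 1)) (v i) = b i)
    (h : ∀ i j : Fin r, M i j = if (i : ℕ) = j then 2 else if (i : ℕ) + 1 = j then a i
      else if (j : ℕ) + 1 = i then b j else 0) : IsType A M := by
  refine mkType M v P.inj surj fun i j => ?_
  rw [h]
  split_ifs with h1 h2 h3
  · rw [h1, G.two]
  · rw [← h2]
    exact (hab _ (h2 ▸ j.2)).1
  · rw [← h3]
    exact (hab _ (h3 ▸ i.2)).2
  · exact tri_zero G P i.2 j.2 h1 h2 h3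

theorem one_mul_edge (G : GCM A) (P : Pth A v r) (k : ℕ) (hk : k + 1 < r)
    (h : Mul A (v k) (v (k + 1))) (x y : ℤ)
    (hxy : A (v k) (v (k + 1)) = x ∧ A (v (k + 1)) (v k) = y) (i : ℕ) (hi : i + 1 < r) :
    A (v i) (v (i + 1)) = (if i = k then x else -1) ∧
      A (v (i + 1)) (v i) = (if i = k then y else -1) := by
  split_ifs with e
  · subst e
    exact hxy
  · refine simple_of G (P.adj i hi) fun hm => ?_
    rcases lt_or_gt_of_ne e with e | e
    · exact no_C G P i k e hk hm h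
    · exact no_C G P k i e hi h hm

theorem typeB (G : GCM A) (P : Pth A v r) (surj : ∀ z, ∃ i < r, v i = z) (k : ℕ) (hk : k + 2 = r)
    (hxy : A (v k) (v (k + 1)) = -2 ∧ A (v (k + 1)) (v k) = -1) :
    IsType A (CartanMatrix.B r) := by
  refine tridiag G P surj _ _ _
    (one_mul_edge G P k (by omega) (by simp [Mul, hxy.1, hxy.2]) _ _ hxy) fun i j => ?_
  have := i.2
  have := j.2
  simp only [CartanMatrix.B, Matrix.of_apply, Fin.ext_iff]
  split_ifs <;> omega

theorem typeC (G : GCM A) (P : Pth A v r) (surj : ∀ z, ∃ i < r, v i = z) (k : ℕ) (hk : k + 2 = r)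
    (hxy : A (v k) (v (k + 1)) = -1 ∧ A (v (k + 1)) (v k) = -2) :
    IsType A (CartanMatrix.C r) := by
  refine tridiag G P surj _ _ _
    (one_mul_edge G P k (by omega) (by simp [Mul, hxy.1, hxy.2]) _ _ hxy) fun i j => ?_
  have := i.2
  have := j.2
  simp only [CartanMatrix.C, Matrix.of_apply, Fin.ext_iff]
  split_ifs <;> omega

theorem typeG (G : GCM A) (P : Pth A v 2) (surj : ∀ z, ∃ i < 2, v i = z)
    (hxy : A (v 0) (v 1) = -3 ∧ A (v 1) (v 0) = -1) : IsType A CartanMatrix.G₂ :=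
  tridiag G P surj _ _ _
    (one_mul_edge G P 0 (by omega) (by simp [Mul, hxy.1, hxy.2]) _ _ hxy)
    (fun i j => by fin_cases i <;> fin_cases j <;> rfl)

theorem typeF (G : GCM A) (P : Pth A v 4) (surj : ∀ z, ∃ i < 4, v i = z)
    (hxy : A (v 1) (v 2) = -2 ∧ A (v 2) (v 1) = -1) : IsType A CartanMatrix.F₄ :=
  tridiag G P surj _ _ _
    (one_mul_edge G P 1 (by omega) (by simp [Mul, hxy.1, hxy.2]) _ _ hxy)
    (fun i j => by fin_cases i <;> fin_cases j <;> rfl)

theorem path_aux (G : GCM A) (P : Pth A v r) (surj : ∀ z, ∃ i < r, v i = z) (k : ℕ)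
    (hk : k + 1 < r) (hk' : r ≤ 2 * k + 2) (h : Mul A (v k) (v (k + 1))) : Cls A := by
  have surj' : ∀ z, ∃ i < r, rev v r i = z := fun z => rev_mem (surj z)
  have P' := P.rev G
  have h3 : 3 ≤ A (v k) (v (k + 1)) * A (v (k + 1)) (v k) → k = 0 ∧ r = 2 := by
    intro h3
    by_cases a : 0 < k
    · exact (no_G G P k a hk h3).elim
    · omega
  have h4 : k + 2 = r ∨ (k = 1 ∧ r = 4) := by
    by_cases a : 2 ≤ k ∧ k + 2 < r
    · exact (no_F G P k a.1 a.2 h).elim
    · omega
  rcases G.cases (P.adj k hk) with e | e | e | e | e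
  · simp [Mul, e.1, e.2] at h
  · rcases h4 with h4 | ⟨rfl, rfl⟩
    · by_cases a : 3 ≤ r
      · exact Or.inr (Or.inr (Or.inl ⟨r, a, typeC G P surj k h4 e⟩))
      · obtain rfl : r = 2 := by omega
        obtain rfl : k = 0 := by omega
        exact Or.inr (Or.inl ⟨2, le_rfl, typeB G P' surj' 0 rfl ⟨e.2, e.1⟩⟩)
    · iterate 7 right
      exact Or.inl (typeF G P' surj' ⟨e.2, e.1⟩)
  · rcases h4 with h4 | ⟨rfl, rfl⟩
    · exact Or.inr (Or.inl ⟨r, by omega, typeB G P surj k h4 e⟩)
    · iterate 7 right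
      exact Or.inl (typeF G P surj e)
  · obtain ⟨rfl, rfl⟩ := h3 (by simp [e.1, e.2])
    iterate 8 right
    exact typeG G P' surj' ⟨e.2, e.1⟩
  · obtain ⟨rfl, rfl⟩ := h3 (by simp [e.1, e.2])
    iterate 8 right
    exact typeG G P surj e

theorem path_case (G : GCM A) (P : Pth A v r) (hr : 1 ≤ r) (surj : ∀ z, ∃ i < r, v i = z) :
    Cls A := by
  by_cases hM : ∃ k, k + 1 < r ∧ Mul A (v k) (v (k + 1))
  · obtain ⟨k, hk, h⟩ := hM
    by_cases a : r ≤ 2 * k + 2
    · exact path_aux G P surj k hk a h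
    · refine path_aux G (P.rev G) (fun z => rev_mem (surj z)) (r - 1 - (k + 1)) (by omega)
        (by omega) ?_
      rw [show r - 1 - (k + 1) + 1 = r - 1 - k by omega, rev_apply hk, rev_apply (by omega)]
      exact h.symm
  · refine Or.inl ⟨r, hr, tridiag G P surj _ (fun _ => -1) (fun _ => -1)
      (fun i hi => simple_of G (P.adj i hi) fun hm => hM ⟨i, hi, hm⟩) fun i j => ?_⟩
    simp only [CartanMatrix.A, Matrix.of_apply, Fin.ext_iff]
    split_ifs <;> omega

/-- a path with one extra leaf, all edges simple -/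
structure Fork (A : ι → ι → ℤ) (v : ℕ → ι) (r : ℕ) (u : ι) (k : ℕ) : Prop where
  pth : Pth A v r
  out : ∀ i < r, v i ≠ u
  k0 : 0 < k
  kr : k + 1 < r
  adj : A u (v k) ≤ -1
  surj : ∀ z, z = u ∨ ∃ i < r, v i = z

variable {u : ι} {k : ℕ}

theorem Fork.rev (G : GCM A) (F : Fork A v r u k) : Fork A (rev v r) r u (r - 1 - k) := by
  have h0 := F.k0
  have h1 := F.kr
  refine ⟨F.pth.rev G, rev_out F.out, by omega, by omega, ?_,
    fun z => (F.surj z).imp id rev_mem⟩
  rw [rev_apply (by omega)]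
  exact F.adj

theorem Fork.entu (G : GCM A) (F : Fork A v r u k) (i : ℕ) (hi : i < r) :
    A u (v i) = (if i = k then -1 else 0) ∧ A (v i) u = (if i = k then -1 else 0) := by
  have h1 := F.kr
  split_ifs with e
  · subst e
    exact simple_of G F.adj (no_B0 G F.pth u F.out i F.k0 F.kr F.adj)
  · have : A u (v i) = 0 := by
      by_contra h
      have h2 := G.neg _ _ (F.out i hi).symm
      rcases lt_or_gt_of_ne e with e | e
      · exact no_cycle G F.pth u F.out i k e (by omega) (by omega) F.adj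
      · exact no_cycle G F.pth u F.out k i e hi F.adj (by omega)
    exact ⟨this, G.zero _ _ this⟩

theorem Fork.simple (G : GCM A) (F : Fork A v r u k) (i : ℕ) (hi : i + 1 < r) :
    A (v i) (v (i + 1)) = -1 ∧ A (v (i + 1)) (v i) = -1 := by
  refine simple_of G (F.pth.adj i hi) fun hm => ?_
  by_cases a : k ≤ i
  · exact no_B G F.pth u F.out k i F.k0 a hi F.adj hm
  · have F' := F.rev G
    have h1 := F.kr
    refine no_B G F'.pth u F'.out _ (r - 1 - (i + 1)) F'.k0 (by omega) (by omega) F'.adj ?_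
    rw [show r - 1 - (i + 1) + 1 = r - 1 - i by omega, rev_apply hi, rev_apply (by omega)]
    exact hm.symm

theorem Fork.ent (G : GCM A) (F : Fork A v r u k) (i j : ℕ) (hi : i < r) (hj : j < r) :
    A (v i) (v j) = if i = j then 2 else if i + 1 = j ∨ j + 1 = i then -1 else 0 := by
  split_ifs with h1 h2
  · rw [h1, G.two]
  · rcases h2 with rfl | rfl
    · exact (F.simple G _ hj).1
    · exact (F.simple G _ hi).2
  · exact tri_zero G F.pth hi hj h1 (by omega) (by omega)

theorem typeD (G : GCM A) (F : Fork A v r u k) (hk : k + 2 = r) :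
    IsType A (CartanMatrix.D (r + 1)) := by
  have h0 := F.k0
  refine mkType _ (fun i => if i < r then v i else u) (fun i hi j hj e => ?_) (fun z => ?_)
    fun i j => ?_
  · by_cases a : i < r <;> by_cases b : j < r <;> simp only [a, b, if_true, if_false] at e
    · exact F.pth.inj _ a _ b e
    · exact absurd e (F.out _ a)
    · exact absurd e.symm (F.out _ b)
    · omega
  · rcases F.surj z with rfl | ⟨i, hi, rfl⟩
    · exact ⟨r, by omega, by simp⟩
    · exact ⟨i, by omega, by simp [hi]⟩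
  · have := i.2
    have := j.2
    simp only [CartanMatrix.D, Matrix.of_apply, Fin.ext_iff]
    by_cases a : (i : ℕ) < r <;> by_cases b : (j : ℕ) < r <;> simp only [a, b, if_true, if_false]
    · rw [F.ent G _ _ a b]
      split_ifs <;> omega
    · rw [(F.entu G _ a).2]
      split_ifs <;> omega
    · rw [(F.entu G _ b).1]
      split_ifs <;> omega
    · rw [G.two]
      split_ifs <;> omega

/-- entries of the matrices of type E -/
def mE (i j : ℕ) : ℤ :=
  if i = j then 2 else if (i = 1 ∧ j = 3) ∨ (i = 3 ∧ j = 1) ∨ (i = 0 ∧ j = 2) ∨ (i = 2 ∧ j = 0) ∨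
    (2 ≤ i ∧ i + 1 = j) ∨ (2 ≤ j ∧ j + 1 = i) then -1 else 0

theorem typeE (G : GCM A) (F : Fork A v r u 2) (M : Matrix (Fin (r + 1)) (Fin (r + 1)) ℤ)
    (hM : ∀ i j, M i j = mE i j) : IsType A M := by
  have h0 := F.kr
  refine mkType _ (fun i => if i = 1 then u else v (i - 1)) (fun i hi j hj e => ?_) (fun z => ?_)
    fun i j => ?_
  · by_cases a : i = 1 <;> by_cases b : j = 1 <;> simp only [a, b, if_true, if_false] at e
    · omega
    · exact absurd e.symm (F.out _ (by omega))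
    · exact absurd e (F.out _ (by omega))
    · have := F.pth.inj _ (by omega) _ (by omega) e
      omega
  · rcases F.surj z with rfl | ⟨i, hi, rfl⟩
    · exact ⟨1, by omega, by simp⟩
    · by_cases a : i = 0
      · exact ⟨0, by omega, by simp [a]⟩
      · exact ⟨i + 1, by omega, by simp [a]⟩
  · have := i.2
    have := j.2
    rw [hM]
    by_cases a : (i : ℕ) = 1 <;> by_cases b : (j : ℕ) = 1
    · rw [if_pos a, if_pos b, G.two, mE, if_pos (by omega)]
    · rw [if_pos a, if_neg b, (F.entu G _ (by omega)).1, mE]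
      split_ifs <;> omega
    · rw [if_neg a, if_pos b, (F.entu G _ (by omega)).2, mE]
      split_ifs <;> omega
    · rw [if_neg a, if_neg b, F.ent G _ _ (by omega) (by omega), mE]
      split_ifs <;> omega

theorem fork_two (G : GCM A) (F : Fork A v r u 2) (hr : 4 < r) : Cls A := by
  have h8 : r ≤ 7 := by
    by_contra h
    exact no_E8 G F.pth u F.out (by omega) F.adj
  iterate 4 right
  interval_cases r
  · exact Or.inl (typeE G F _ fun i j => by fin_cases i <;> fin_cases j <;> rfl)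
  · exact Or.inr (Or.inl (typeE G F _ fun i j => by fin_cases i <;> fin_cases j <;> rfl))
  · exact Or.inr (Or.inr (Or.inl (typeE G F _ fun i j => by fin_cases i <;> fin_cases j <;> rfl)))

theorem fork_case (G : GCM A) (F : Fork A v r u k) : Cls A := by
  have h0 := F.k0
  have h1 := F.kr
  have F' := F.rev G
  by_cases a : k + 2 = r
  · exact Or.inr (Or.inr (Or.inr (Or.inl ⟨r + 1, by omega, typeD G F a⟩)))
  by_cases b : k = 1
  · exact Or.inr (Or.inr (Or.inr (Or.inl ⟨r + 1, by omega, typeD G F' (by omega)⟩)))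
  by_cases c : k = 2
  · subst c
    exact fork_two G F (by omega)
  by_cases d : r - 1 - k = 2
  · rw [d] at F'
    exact fork_two G F' (by omega)
  exact (no_E7 G F.pth u F.out k (by omega) (by omega) F.adj).elim

theorem Mx.inner (G : GCM A) (M : Mx A v r) (hu : ∀ i < r, v i ≠ u) (hk : k < r)
    (h : A u (v k) ≤ -1) : 0 < k ∧ k + 1 < r := by
  have h1 := M.pos u hu k hk h
  have h2 := (M.rev G).pos u (rev_out hu) (r - 1 - k) (by omega) (by rwa [rev_apply hk])
  omega

/-- classification of connected Cartan matrices of finite type -/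
theorem classify [Nonempty ι] (G : GCM A)
    (hconn : ∀ S : Finset ι, S.Nonempty → S ≠ univ → ∃ i ∈ S, ∃ j, j ∉ S ∧ A i j ≠ 0) :
    Cls A := by
  classical
  obtain ⟨v, r, hr, M⟩ := exists_mx A
  have adj : ∀ i j, i ≠ j → A i j ≠ 0 → A j i ≤ -1 := fun i j h h' =>
    G.symm (by have := G.neg i j h; omega)
  by_cases surj : ∀ z, ∃ i < r, v i = z
  · exact path_case G M.1 hr surj
  have hS : ∀ z, z ∈ (range r).image v ↔ ∃ i < r, v i = z := fun z => by simp
  obtain ⟨y, hy, u, hu, h⟩ := hconn ((range r).image v) ⟨v 0, (hS _).2 ⟨0, hr, rfl⟩⟩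
    fun e => surj fun z => (hS z).1 (e ▸ mem_univ z)
  obtain ⟨k, hk, rfl⟩ := (hS y).1 hy
  have out : ∀ i < r, v i ≠ u := fun i hi e => hu ((hS u).2 ⟨i, hi, e⟩)
  have a := adj _ _ (out k hk) h
  obtain ⟨k0, kr⟩ := M.inner G out hk a
  refine fork_case G ⟨M.1, out, k0, kr, a, ?_⟩
  by_contra hne
  obtain ⟨y, hy, w, hw, h'⟩ := hconn (insert u ((range r).image v)) (insert_nonempty _ _)
    fun e => hne fun z => by
      have : z ∈ insert u ((range r).image v) := e ▸ mem_univ z
      rwa [mem_insert, hS] at this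
  rw [mem_insert, hS] at hy hw
  have huw : u ≠ w := fun e => hw (Or.inl e.symm)
  have out' : ∀ i < r, v i ≠ w := fun i hi e => hw (Or.inr ⟨i, hi, e⟩)
  rcases hy with rfl | ⟨l, hl, rfl⟩
  · have b := adj _ _ huw h'
    have c1 := M.two_le y w out out' huw k hk a b
    have c2 := (M.rev G).two_le y w (rev_out out) (rev_out out') huw (r - 1 - k) (by omega)
      (by rwa [rev_apply hk]) b
    exact no_E6 G M.1 y w out out' k c1 (by omega) a (G.symm b)
  · have b := adj _ _ (out' l hl) h'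
    obtain ⟨l0, lr⟩ := M.inner G out' hl b
    rcases le_total k l with e | e
    · exact no_D G M.1 u w out out' huw k l k0 e lr a b
    · exact no_D G M.1 w u out' out huw.symm l k l0 e kr b a

end DYN

variable {Φ : Type u}

/-- the matrix `m` restricted to `Δ` is the model matrix `M` in some enumeration of `Δ` -/
def IsTypeOn (Δ : Finset Φ) (m : Φ → Φ → ℤ) {n : ℕ} (M : Matrix (Fin n) (Fin n) ℤ) : Prop :=
  ∃ v : Fin n → Φ, Function.Injective v ∧ (∀ a, a ∈ Δ ↔ ∃ i, v i = a) ∧
    ∀ i j, m (v i) (v j) = M i j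

/-- the Cartan-Killing list -/
def ClassOn (Δ : Finset Φ) (m : Φ → Φ → ℤ) : Prop :=
  (∃ n, 1 ≤ n ∧ IsTypeOn Δ m (CartanMatrix.A n)) ∨ (∃ n, 2 ≤ n ∧ IsTypeOn Δ m (CartanMatrix.B n)) ∨
    (∃ n, 3 ≤ n ∧ IsTypeOn Δ m (CartanMatrix.C n)) ∨
    (∃ n, 4 ≤ n ∧ IsTypeOn Δ m (CartanMatrix.D n)) ∨
    IsTypeOn Δ m CartanMatrix.E₆ ∨ IsTypeOn Δ m CartanMatrix.E₇ ∨ IsTypeOn Δ m CartanMatrix.E₈ ∨
    IsTypeOn Δ m CartanMatrix.F₄ ∨ IsTypeOn Δ m CartanMatrix.G₂

theorem DYN.IsType.on {Δ : Finset Φ} {m : Φ → Φ → ℤ} {n : ℕ} {M : Matrix (Fin n) (Fin n) ℤ}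
    (h : DYN.IsType (fun i j : Δ => m i j) M) : IsTypeOn Δ m M := by
  obtain ⟨w, h1, h2, h3⟩ := h
  refine ⟨fun i => w i, Subtype.val_injective.comp h1, fun a => ⟨fun ha => ?_, ?_⟩, h3⟩
  · obtain ⟨i, hi⟩ := h2 ⟨a, ha⟩
    exact ⟨i, congrArg Subtype.val hi⟩
  · rintro ⟨i, rfl⟩
    exact (w i).2

/-- the classification of connected Dynkin diagrams of finite type -/
theorem dynOn (Δ : Finset Φ) (m : Φ → Φ → ℤ) (d : Φ → ℤ) (hne : Δ.Nonempty)
    (h2 : ∀ i ∈ Δ, m i i = 2) (hneg : ∀ i ∈ Δ, ∀ j ∈ Δ, i ≠ j → m i j ≤ 0)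
    (hd : ∀ i ∈ Δ, 0 < d i) (hsym : ∀ i ∈ Δ, ∀ j ∈ Δ, d i * m i j = d j * m j i)
    (hpos : ∀ x : Φ → ℤ, (∃ i ∈ Δ, x i ≠ 0) → 0 < ∑ i ∈ Δ, ∑ j ∈ Δ, x i * x j * (d i * m i j))
    (hconn : ∀ S ⊆ Δ, S.Nonempty → S ≠ Δ → ∃ i ∈ S, ∃ j ∈ Δ, j ∉ S ∧ m i j ≠ 0) :
    ClassOn Δ m := by
  classical
  have : Nonempty Δ := hne.to_subtype
  have G : DYN.GCM (fun i j : Δ => m i j) := by
    refine ⟨fun i => h2 i i.2, fun i j h => hneg i i.2 j j.2 fun e => h (Subtype.ext e),
      fun i j h => ?_, fun x h0 h1 i => ?_⟩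
    · have := hsym i i.2 j j.2
      rw [h, mul_zero] at this
      exact (mul_eq_zero.1 this.symm).resolve_left (hd j j.2).ne'
    · by_contra hi
      have := hpos (fun a => if h : a ∈ Δ then x ⟨a, h⟩ else 0) ⟨i, i.2, by simpa using hi⟩
      rw [← sum_coe_sort] at this
      refine absurd this (not_lt.2 (sum_nonpos fun a _ => ?_))
      rw [← sum_coe_sort]
      have e : ∑ b : Δ, (if h : (a : Φ) ∈ Δ then x ⟨a, h⟩ else 0) *
          (if h : (b : Φ) ∈ Δ then x ⟨b, h⟩ else 0) * (d a * m a b) =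
          x a * d a * ∑ b : Δ, m a b * x b := by
        rw [mul_sum]
        refine sum_congr rfl fun b _ => ?_
        rw [dif_pos a.2, dif_pos b.2]
        ring
      rw [e]
      rcases (h0 a).eq_or_lt with h | h
      · simp [← h]
      · exact mul_nonpos_of_nonneg_of_nonpos (mul_pos h (hd a a.2)).le (h1 a h)
  have h := DYN.classify G fun S hS hS' => by
    obtain ⟨i, hi, j, hj, hj', h⟩ := hconn (S.map (Function.Embedding.subtype _))
      (fun a ha => by
        obtain ⟨b, -, rfl⟩ := mem_map.1 ha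
        exact b.2) (hS.map) (fun e => hS' (eq_univ_of_forall fun a => by
          have : (a : Φ) ∈ S.map (Function.Embedding.subtype _) := e.symm ▸ a.2
          exact (mem_map' _).1 this))
    obtain ⟨i, hi', rfl⟩ := mem_map.1 hi
    exact ⟨i, hi', ⟨j, hj⟩, fun hh => hj' (mem_map.2 ⟨_, hh, rfl⟩), h⟩
  rcases h with ⟨n, a, h⟩ | ⟨n, a, h⟩ | ⟨n, a, h⟩ | ⟨n, a, h⟩ | h | h | h | h | h
  · exact Or.inl ⟨n, a, h.on⟩
  · exact Or.inr (Or.inl ⟨n, a, h.on⟩)
  · exact Or.inr (Or.inr (Or.inl ⟨n, a, h.on⟩))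
  · exact Or.inr (Or.inr (Or.inr (Or.inl ⟨n, a, h.on⟩)))
  · iterate 4 right
    exact Or.inl h.on
  · iterate 5 right
    exact Or.inl h.on
  · iterate 6 right
    exact Or.inl h.on
  · iterate 7 right
    exact Or.inl h.on
  · iterate 8 right
    exact h.on

end Pool.Agent.Lib.MP_3a0263_al.Q
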