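import Pool.Agent.Lib.MP_3a0263_al.Q.T_CLK
import Pool.Agent.Lib.MP_3a0263_al.Q.T_DYN

namespace Pool.Agent.Lib.MP_3a0263_al.Q.C1

open Finset

universe u

/-- what is used about the marks of the highest root when `2` is good -/
structure Mk {n : ℕ} (M : Matrix (Fin n) (Fin n) ℤ) (N : Fin n → ℤ) : Prop where
  pos : ∀ i, 1 ≤ N i
  odd : ∀ i, N i % 2 = 1
  dom : ∀ i, 0 ≤ ∑ j, M i j * N j
  le : ∀ i, ∑ j, M i j * N j ≠ 0 → N i ≤ 2
  one : ∀ i0, (∀ i, i ≠ i0 → ∑ j, M i j * N j = 0) → N i0 = 2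

theorem row4 {n : ℕ} (f N : Fin n → ℤ) (a b c e : Fin n) (x y z t : ℤ)
    (h : ∀ j, f j = (if j = a then x else 0) + (if j = b then y else 0) +
      (if j = c then z else 0) + (if j = e then t else 0)) :
    ∑ j, f j * N j = x * N a + y * N b + z * N c + t * N e := by
  simp only [h, add_mul, sum_add_distrib, ite_mul, zero_mul, sum_ite_eq', mem_univ, if_true]

theorem not_mk_B {n : ℕ} (hn : 2 ≤ n) (N : Fin n → ℤ) : ¬ Mk (CartanMatrix.B n) N := by
  intro h
  let a : Fin n := ⟨n - 1, by omega⟩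
  let b : Fin n := ⟨n - 2, by omega⟩
  let c : Fin n := ⟨n - 3, by omega⟩
  have r1 := row4 (CartanMatrix.B n a) N a b a a 2 (-1) 0 0 fun j => by
    have := j.2
    simp only [CartanMatrix.B, Matrix.of_apply, Fin.ext_iff, a, b]
    split_ifs <;> omega
  have o1 := h.odd a
  have o2 := h.odd b
  have p1 := h.pos a
  have p2 := h.pos b
  have p3 := h.pos c
  have d1 := h.dom a
  have l1 := h.le a (by rw [r1]; omega)
  rw [r1] at d1
  by_cases h3 : 3 ≤ n
  · have r2 := row4 (CartanMatrix.B n b) N a b c a (-2) 2 (-1) 0 fun j => by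
      have := j.2
      simp only [CartanMatrix.B, Matrix.of_apply, Fin.ext_iff, a, b, c]
      split_ifs <;> omega
    have d2 := h.dom b
    rw [r2] at d2
    omega
  · have r2 := row4 (CartanMatrix.B n b) N a b a a (-2) 2 0 0 fun j => by
      have := j.2
      simp only [CartanMatrix.B, Matrix.of_apply, Fin.ext_iff, a, b]
      split_ifs <;> omega
    have := h.one a fun i hi => by
      have e : i = b := by
        have := i.2
        simp only [ne_eq, Fin.ext_iff, a, b] at hi ⊢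
        omega
      rw [e, r2]; omega
    omega

theorem not_mk_D {n : ℕ} (hn : 4 ≤ n) (N : Fin n → ℤ) : ¬ Mk (CartanMatrix.D n) N := by
  intro h
  let a : Fin n := ⟨n - 1, by omega⟩
  let b : Fin n := ⟨n - 2, by omega⟩
  let c : Fin n := ⟨n - 3, by omega⟩
  let e : Fin n := ⟨n - 4, by omega⟩
  have r1 := row4 (CartanMatrix.D n a) N a c a a 2 (-1) 0 0 fun j => by
    have := j.2
    simp only [CartanMatrix.D, Matrix.of_apply, Fin.ext_iff, a, c]
    split_ifs <;> omega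
  have r2 := row4 (CartanMatrix.D n c) N a b c e (-1) (-1) 2 (-1) fun j => by
    have := j.2
    simp only [CartanMatrix.D, Matrix.of_apply, Fin.ext_iff, a, b, c, e]
    split_ifs <;> omega
  have o1 := h.odd a
  have o2 := h.odd c
  have p1 := h.pos a
  have p2 := h.pos b
  have p3 := h.pos c
  have p4 := h.pos e
  have d1 := h.dom a
  have d2 := h.dom c
  have l1 := h.le a (by rw [r1]; omega)
  rw [r1] at d1
  rw [r2] at d2
  omega

theorem not_mk_C {n : ℕ} (hn : 3 ≤ n) (N : Fin n → ℤ) : ¬ Mk (CartanMatrix.C n) N := by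
  intro h
  let a : Fin n := ⟨0, by omega⟩
  let b : Fin n := ⟨1, by omega⟩
  have r1 := row4 (CartanMatrix.C n a) N a b a a 2 (-1) 0 0 fun j => by
    have := j.2
    simp only [CartanMatrix.C, Matrix.of_apply, Fin.ext_iff, a, b]
    split_ifs <;> first | omega | contradiction
  have r2 : ∀ (k : ℕ) (hk : k + 2 < n), ∑ j, CartanMatrix.C n ⟨k + 1, by omega⟩ j * N j =
      -1 * N ⟨k, by omega⟩ + 2 * N ⟨k + 1, by omega⟩ + -1 * N ⟨k + 2, hk⟩ + 0 * N a :=
    fun k hk => row4 _ N _ _ _ _ _ _ _ _ fun j => by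
      have := j.2
      simp only [CartanMatrix.C, Matrix.of_apply, Fin.ext_iff]
      split_ifs <;> omega
  have r3 : ∀ (k : ℕ) (hk : k + 2 = n), ∑ j, CartanMatrix.C n ⟨k + 1, by omega⟩ j * N j =
      -2 * N ⟨k, by omega⟩ + 2 * N ⟨k + 1, by omega⟩ + 0 * N a + 0 * N a :=
    fun k hk => row4 _ N _ _ _ _ _ _ _ _ fun j => by
      have := j.2
      simp only [CartanMatrix.C, Matrix.of_apply, Fin.ext_iff]
      split_ifs <;> omega
  have o1 := h.odd a
  have o2 := h.odd b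
  have p1 := h.pos a
  have p2 := h.pos b
  have d1 := h.dom a
  have l1 := h.le a (by rw [r1]; omega)
  rw [r1] at d1
  have key : ∀ (k : ℕ) (hk : k + 1 < n), N ⟨k, by omega⟩ = 1 ∧ N ⟨k + 1, hk⟩ = 1 := by
    intro k
    induction k with
    | zero =>
      intro hk
      exact ⟨show N a = 1 by omega, show N b = 1 by omega⟩
    | succ k ih =>
      intro hk
      obtain ⟨e1, e2⟩ := ih (by omega)
      refine ⟨e2, ?_⟩
      have d2 := h.dom ⟨k + 1, by omega⟩
      rw [r2 k hk, e1, e2] at d2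
      have p3 := h.pos ⟨k + 2, hk⟩
      show N ⟨k + 2, hk⟩ = 1
      omega
  have := h.one a fun i hi => by
    obtain ⟨i, hi'⟩ := i
    obtain ⟨k, rfl⟩ : ∃ k, i = k + 1 := by
      refine ⟨i - 1, ?_⟩
      simp only [ne_eq, Fin.ext_iff, a] at hi
      omega
    obtain ⟨e1, e2⟩ := key k hi'
    by_cases hk : k + 2 < n
    · have e3 : N ⟨k + 2, hk⟩ = 1 := (key (k + 1) hk).2
      rw [r2 k hk, e1, e2, e3]; ring
    · rw [r3 k (by omega), e1, e2]; ring
  omega

variable {Φ : Type u} [Fintype Φ] (C : Comb Φ)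
variable {n : ℕ} {M : Matrix (Fin n) (Fin n) ℤ} {v : Fin n → Φ}

theorem Ty.mk (h : Ty C M v) (hc : Conn C) (hn : 2 ≤ n) (hg : C.Good 2) : ∃ N, Mk M N := by
  obtain ⟨θ, hθ⟩ := exists_high C hc (v ⟨0, by omega⟩)
  have hne : ∀ i, v i ≠ θ := by
    intro i e
    obtain ⟨j, hj⟩ : ∃ j : Fin n, j ≠ i := by
      by_cases h0 : i.1 = 0
      · exact ⟨⟨1, by omega⟩, fun e => by rw [← e] at h0; simp at h0⟩
      · exact ⟨⟨0, by omega⟩, fun e => h0 (by rw [← e])⟩
    have := hθ.one_le C (h.mem C j)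
    rw [← e, h.co C, if_neg hj] at this
    omega
  have hu : ∀ i, C.m θ (v i) = 0 ∨ C.m θ (v i) = 1 :=
    fun i => hθ.m_cases C (pos_simple C (h.mem C i)) (hne i)
  have h2 : ∑ j, C.co θ (v j) * C.m θ (v j) = 2 := by
    rw [← h.sum C fun a => C.co θ a * C.m θ a]; exact IsHigh.two C
  have h1 : ∀ i, 1 ≤ C.co θ (v i) := fun i => hθ.one_le C (h.mem C i)
  refine ⟨fun j => C.co θ (v j), h1, fun i => ?_, fun i => ?_, fun i hi => ?_, fun i0 hi => ?_⟩
  · have := hθ.good C hg (h.mem C i)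
    show C.co θ (v i) % 2 = 1
    omega
  · rw [← h.m C]; exact hθ.dom C _ (h.mem C i)
  · rw [← h.m C] at hi
    have e : C.m θ (v i) = 1 := (hu i).resolve_left fun e => hi (m_zero_symm C e)
    have := single_le_sum (f := fun j => C.co θ (v j) * C.m θ (v j))
      (fun j _ => mul_nonneg (by linarith [h1 j]) (by rcases hu j with e | e <;> omega))
      (mem_univ i)
    simp only [e, h2] at this
    show C.co θ (v i) ≤ 2
    linarith
  · rw [sum_eq_single_of_mem i0 (mem_univ _) fun j _ hj => by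
      have := hi j hj
      rw [← h.m C] at this
      rw [m_zero_symm C this, mul_zero]] at h2
    show C.co θ (v i0) = 2
    rcases hu i0 with e | e <;> rw [e] at h2 <;> omega

theorem Ty.caseM (h : Ty C M v) (hc : Conn C) {p : ℕ} (L : Fin n → ℤ)
    (hL : ∀ i j, L i * M i j = L j * M j i) (hp : ∀ i, 0 < L i) (N : ℤ) (hN : 1 ≤ N) (hNp : N < p)
    (hLN : ∀ i j, L i ≤ N * L j) (hrow : ∀ i, ∃ j, ¬ (p : ℤ) ∣ M i j)
    (S : Finset (Fin n → ℤ)) (hS : MinS M S) (i0 j0 : Fin n)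
    (htr : ¬ (p : ℤ) ∣ ∑ μ ∈ S, μ i0 * μ j0) : CaseM C p := by
  have hw : ∀ (x : Fin n → ℤ) i, Function.extend v x 0 (v i) = x i :=
    fun x i => h.1.extend_apply x 0 i
  refine ⟨string_bound C N p hN hNp fun a ha b hb => ?_, fun a ha => ?_,
    S, inferInstance, fun x => Function.extend v x.1 0, fun x a ha => ?_, fun x a ha => ?_,
    fun x y e => ?_, v i0, h.mem C i0, v j0, h.mem C j0, ?_⟩
  · obtain ⟨i, rfl⟩ := (h.2.1 a).1 ha
    obtain ⟨j, rfl⟩ := (h.2.1 b).1 hb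
    exact h.d_le C hc L hL hp N (hLN i j)
  · obtain ⟨i, rfl⟩ := (h.2.1 a).1 ha
    obtain ⟨j, hj⟩ := hrow i
    exact ⟨v j, by rw [h.2.2]; exact hj⟩
  · obtain ⟨i, rfl⟩ := (h.2.1 a).1 ha
    simp only [hw]
    exact hS.1 x.1 x.2 i
  · obtain ⟨i, rfl⟩ := (h.2.1 a).1 ha
    refine ⟨⟨_, hS.2 x.1 x.2 i⟩, fun b hb => ?_⟩
    obtain ⟨j, rfl⟩ := (h.2.1 b).1 hb
    simp only [hw, h.2.2]
  · refine Subtype.ext (funext fun i => ?_)
    have := e (v i) (h.mem C i)
    simpa only [hw] using this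
  · simp only [hw]
    rw [sum_coe_sort S fun μ => μ i0 * μ j0]
    exact htr

theorem not_dvd_two {p : ℕ} (hp : p.Prime) (h2 : p ≠ 2) (r : ℕ) : ¬ (p : ℤ) ∣ 2 ^ r := by
  intro h
  have := (Nat.prime_iff_prime_int.1 hp).dvd_of_dvd_pow h
  exact h2 ((Nat.prime_dvd_prime_iff_eq hp Nat.prime_two).1 (by exact_mod_cast this))

theorem not_dvd_neg_one {p : ℕ} (hp : p.Prime) : ¬ (p : ℤ) ∣ -1 :=
  fun h => (Nat.prime_iff_prime_int.1 hp).not_dvd_one ((dvd_neg).1 h)

theorem classOn (hc : Conn C) (hne : C.Δ.Nonempty) : ClassOn C.Δ C.m := by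
  refine dynOn C.Δ C.m (d C) hne (fun i _ => C.two i)
    (fun i hi j hj hij => m_simple_le C hi hj hij) (fun i _ => d_pos C i)
    (fun i _ j _ => d_m_symm C i j) (cartan_pos C) fun S hS hSn hSne => ?_
  by_contra hn
  push Not at hn
  obtain ⟨i, hi⟩ := hSn
  exact hSne (Subset.antisymm hS fun j hj =>
    hc (S : Set Φ) ⟨i, hS hi, hi⟩ (fun a _ b hb ha hb' => hn a ha b hb hb') j hj)

theorem class_of (hA : St_SA) (hB : St_SB) (hC : St_SC) (hD : St_SD) {p : ℕ} (hp : p.Prime)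
    (hc : Conn C) (hg : C.Good p) (hne : C.Δ.Nonempty) :
    CaseK C p ∨ CaseM C p ∨ (p = 2 ∧ C.Δ.card = 1) := by
  have hp2 := hp.two_le
  have two : p ≠ 2 → ¬ (p : ℤ) ∣ 2 := fun h => by simpa using not_dvd_two hp h 1
  rcases classOn C hc hne with ⟨n, hn, v, h⟩ | ⟨n, hn, v, h⟩ | ⟨n, hn, v, h⟩ | ⟨n, hn, v, h⟩ |
    ⟨v, h⟩ | ⟨v, h⟩ | ⟨v, h⟩ | ⟨v, h⟩ | ⟨v, h⟩
  · have h : Ty C (CartanMatrix.A n) v := h
    obtain ⟨S, hS, ⟨i, hi⟩, h2⟩ := hA n hn
    have hL : ∀ i j : Fin n, (1 : ℤ) * CartanMatrix.A n i j = 1 * CartanMatrix.A n j i := by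
      intro i j
      simp only [CartanMatrix.A, Matrix.of_apply, Fin.ext_iff]
      split_ifs <;> omega
    by_cases hn2 : 2 ≤ n
    · obtain ⟨i, j, hij⟩ := h2 hn2
      refine Or.inr (Or.inl (h.caseM C hc (fun _ => 1) hL (fun _ => one_pos) 1 le_rfl
        (by omega) (fun _ _ => le_rfl) (fun l => ?_) S hS i j (hij ▸ not_dvd_neg_one hp)))
      obtain ⟨j, hj⟩ : ∃ j, CartanMatrix.A n l j = -1 := by
        have := l.2
        by_cases h0 : l.1 + 1 < n
        · refine ⟨⟨l.1 + 1, h0⟩, ?_⟩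
          simp only [CartanMatrix.A, Matrix.of_apply, Fin.ext_iff]
          split_ifs <;> first | omega | contradiction | simp_all
        · refine ⟨⟨l.1 - 1, by omega⟩, ?_⟩
          simp only [CartanMatrix.A, Matrix.of_apply, Fin.ext_iff]
          split_ifs <;> omega
      exact ⟨j, hj ▸ not_dvd_neg_one hp⟩
    · by_cases h2 : p = 2
      · exact Or.inr (Or.inr ⟨h2, by rw [h.card C]; omega⟩)
      · exact Or.inr (Or.inl (h.caseM C hc (fun _ => 1) hL (fun _ => one_pos) 1 le_rfl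
          (by omega) (fun _ _ => le_rfl) (fun l => ⟨l, by rw [← h.2.2, C.two]; exact two h2⟩)
          S hS i i (hi ▸ two h2)))
  · have h : Ty C (CartanMatrix.B n) v := h
    have h2 : p ≠ 2 := by
      rintro rfl
      obtain ⟨N, hN⟩ := h.mk C hc hn hg
      exact not_mk_B hn N hN
    obtain ⟨S, hS, i, r, hi⟩ := hB n hn
    refine Or.inr (Or.inl (h.caseM C hc (fun i => if i.1 + 1 = n then 2 else 1) (fun i j => ?_)
      (fun i => by split_ifs <;> omega) 2 (by omega) (by omega)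
      (fun i j => by split_ifs <;> omega) (fun l => ⟨l, by rw [← h.2.2, C.two]; exact two h2⟩)
      S hS i i (hi ▸ not_dvd_two hp h2 r)))
    have := i.2
    have := j.2
    simp only [CartanMatrix.B, Matrix.of_apply, Fin.ext_iff]
    split_ifs <;> omega
  · have h : Ty C (CartanMatrix.C n) v := h
    have h2 : p ≠ 2 := by
      rintro rfl
      obtain ⟨N, hN⟩ := h.mk C hc (by omega) hg
      exact not_mk_C hn N hN
    obtain ⟨S, hS, i, r, hi⟩ := hC n hn
    refine Or.inr (Or.inl (h.caseM C hc (fun i => if i.1 + 1 = n then 1 else 2) (fun i j => ?_)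
      (fun i => by split_ifs <;> omega) 2 (by omega) (by omega)
      (fun i j => by split_ifs <;> omega) (fun l => ⟨l, by rw [← h.2.2, C.two]; exact two h2⟩)
      S hS i i (hi ▸ not_dvd_two hp h2 r)))
    have := i.2
    have := j.2
    simp only [CartanMatrix.C, Matrix.of_apply, Fin.ext_iff]
    split_ifs <;> omega
  · have h : Ty C (CartanMatrix.D n) v := h
    have h2 : p ≠ 2 := by
      rintro rfl
      obtain ⟨N, hN⟩ := h.mk C hc (by omega) hg
      exact not_mk_D hn N hN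
    obtain ⟨S, hS, i, r, hi⟩ := hD n hn
    refine Or.inr (Or.inl (h.caseM C hc (fun _ => 1) (fun i j => ?_)
      (fun _ => one_pos) 1 le_rfl (by omega)
      (fun _ _ => le_rfl) (fun l => ⟨l, by rw [← h.2.2, C.two]; exact two h2⟩)
      S hS i i (hi ▸ not_dvd_two hp h2 r)))
    have := i.2
    have := j.2
    simp only [CartanMatrix.D, Matrix.of_apply, Fin.ext_iff]
    split_ifs <;> omega
  · exact Or.inl (caseK_E6 C h hc hp hg)
  · exact Or.inl (caseK_E7 C h hc hp hg)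
  · exact Or.inl (caseK_E8 C h hc hp hg)
  · exact Or.inl (caseK_F4 C h hc hp hg)
  · exact Or.inl (caseK_G2 C h hc hp hg)

end Pool.Agent.Lib.MP_3a0263_al.Q.C1
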