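import Mathlib

namespace Pool.Agent.Lib.MP_3a0263_al.Q

/-- a minuscule set of weights for the matrix `M`, where `M j i` is the value of the coroot `j`
on the root `i` -/
def MinS {I : Type} (M : Matrix I I ℤ) (S : Finset (I → ℤ)) : Prop :=
  (∀ μ ∈ S, ∀ i, μ i = 0 ∨ μ i = 1 ∨ μ i = -1) ∧
    ∀ μ ∈ S, ∀ i, (fun j => μ j - μ i * M j i) ∈ S

/-- type A, any rank: a diagonal entry `2`, and an entry `-1` in rank at least two -/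
def St_SA : Prop :=
  ∀ n : ℕ, 1 ≤ n → ∃ S : Finset (Fin n → ℤ), MinS (CartanMatrix.A n) S ∧
    (∃ i, ∑ μ ∈ S, μ i * μ i = 2) ∧ (2 ≤ n → ∃ i j, ∑ μ ∈ S, μ i * μ j = -1)

/-- the matrix `B n` (weights plus or minus `ε_a`) -/
def St_SB : Prop :=
  ∀ n : ℕ, 2 ≤ n → ∃ S : Finset (Fin n → ℤ), MinS (CartanMatrix.B n) S ∧
    ∃ (i : Fin n) (r : ℕ), ∑ μ ∈ S, μ i * μ i = 2 ^ r

/-- the matrix `C n` (spin weights) -/
def St_SC : Prop :=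
  ∀ n : ℕ, 3 ≤ n → ∃ S : Finset (Fin n → ℤ), MinS (CartanMatrix.C n) S ∧
    ∃ (i : Fin n) (r : ℕ), ∑ μ ∈ S, μ i * μ i = 2 ^ r

/-- the matrix `D n` (weights plus or minus `ε_a`) -/
def St_SD : Prop :=
  ∀ n : ℕ, 4 ≤ n → ∃ S : Finset (Fin n → ℤ), MinS (CartanMatrix.D n) S ∧
    ∃ (i : Fin n) (r : ℕ), ∑ μ ∈ S, μ i * μ i = 2 ^ r

end Pool.Agent.Lib.MP_3a0263_al.Q
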