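import Pool.Agent.Lib.MP_3a0263_al.Q.T_HIGH
import Pool.Agent.Lib.MP_3a0263_al.Q.T_Min

namespace Pool.Agent.Lib.MP_3a0263_al.Q.C1

open Finset

universe u

variable {Φ : Type u} [Fintype Φ] (C : Comb Φ)

/-- an enumeration of the base with Cartan matrix `M` -/
def Ty {n : ℕ} (M : Matrix (Fin n) (Fin n) ℤ) (v : Fin n → Φ) : Prop :=
  Function.Injective v ∧ (∀ a, a ∈ C.Δ ↔ ∃ i, v i = a) ∧ ∀ i j, C.m (v i) (v j) = M i j

/-- `x` is the coordinate vector of a root of the length of `v i0` -/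
def Rt {n : ℕ} (v : Fin n → Φ) (i0 : Fin n) (x : Fin n → ℤ) : Prop :=
  ∃ b, (∀ j, C.co b (v j) = x j) ∧ d C b = d C (v i0)

/-- the minuscule case -/
def CaseM (p : ℕ) : Prop :=
  (∀ a κ κ' (j : ℤ), κ ≠ a → κ ≠ C.neg a →
    (∀ i ∈ C.Δ, C.co κ' i = C.co κ i + j * C.co a i) → |j| < p) ∧
  (∀ i ∈ C.Δ, ∃ b : Φ, ¬ (p : ℤ) ∣ C.m i b) ∧
  ∃ (X : Type) (_ : Fintype X) (w : X → Φ → ℤ),
    (∀ x, ∀ i ∈ C.Δ, w x i = 0 ∨ w x i = 1 ∨ w x i = -1) ∧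
    (∀ x, ∀ i ∈ C.Δ, ∃ y, ∀ j ∈ C.Δ, w y j = w x j - w x i * C.m j i) ∧
    (∀ x y, (∀ i ∈ C.Δ, w x i = w y i) → x = y) ∧
    ∃ i ∈ C.Δ, ∃ j ∈ C.Δ, ¬ (p : ℤ) ∣ ∑ x, w x i * w x j

/-- the Killing case -/
def CaseK (p : ℕ) : Prop := ∃ a ∈ C.Δ, ¬ (p : ℤ) ∣ kap C a

variable {n : ℕ} {M : Matrix (Fin n) (Fin n) ℤ} {v : Fin n → Φ}

theorem Ty.mem (h : Ty C M v) (i : Fin n) : v i ∈ C.Δ := (h.2.1 _).2 ⟨i, rfl⟩

theorem Ty.sum (h : Ty C M v) (f : Φ → ℤ) : ∑ a ∈ C.Δ, f a = ∑ j, f (v j) := by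
  symm
  refine sum_bij (fun j _ => v j) (fun j _ => h.mem C j) (fun _ _ _ _ e => h.1 e)
    (fun a ha => ?_) fun _ _ => rfl
  obtain ⟨i, e⟩ := (h.2.1 a).1 ha
  exact ⟨i, mem_univ _, e⟩

theorem Ty.card (h : Ty C M v) : C.Δ.card = n := by
  have := h.sum C fun _ => 1
  simpa using this

theorem Ty.co (h : Ty C M v) (i j : Fin n) : C.co (v i) (v j) = if j = i then 1 else 0 := by
  split_ifs with e
  · rw [e, C.self _ (h.mem C i)]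
  · exact C.ne _ (h.mem C i) _ (h.mem C j) fun e' => e (h.1 e').symm

theorem Ty.m (h : Ty C M v) (i : Fin n) (b : Φ) :
    C.m (v i) b = ∑ j, M i j * C.co b (v j) := by
  rw [C.lin, h.sum C]
  exact sum_congr rfl fun j _ => by rw [h.2.2, mul_comm]

theorem Ty.base (h : Ty C M v) (i0 : Fin n) {x : Fin n → ℤ}
    (hx : ∀ j, x j = if j = i0 then 1 else 0) : Rt C v i0 x :=
  ⟨v i0, fun j => by rw [h.co C, hx], rfl⟩

theorem Ty.step (h : Ty C M v) (i : Fin n) {i0 : Fin n} {x y : Fin n → ℤ} (hx : Rt C v i0 x)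
    (hy : ∀ j, y j = x j - if j = i then ∑ l, M i l * x l else 0) : Rt C v i0 y := by
  obtain ⟨b, hb, hd⟩ := hx
  refine ⟨C.s (v i) b, fun j => ?_, by rw [d_s, hd]⟩
  rw [C.refl _ _ _ (h.mem C j), h.co C, h.m C, hy, hb]
  simp only [hb]
  split_ifs <;> ring

theorem Ty.len (h : Ty C M v) (hc : Conn C) (L : Fin n → ℤ)
    (hL : ∀ i j, L i * M i j = L j * M j i) (i0 i : Fin n) :
    L i0 * d C (v i) = L i * d C (v i0) := by
  obtain ⟨j, e, hj⟩ := hc {a | ∃ j, v j = a ∧ L i0 * d C (v j) = L j * d C (v i0)}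
    ⟨v i0, h.mem C i0, i0, rfl, rfl⟩ (fun a _ b hb ha hb' => by
      obtain ⟨j, rfl, hj⟩ := ha
      obtain ⟨l, rfl⟩ := (h.2.1 b).1 hb
      by_contra hn
      refine hb' ⟨l, rfl, ?_⟩
      have h1 := d_m_symm C (v j) (v l)
      have h2 : C.m (v l) (v j) ≠ 0 := fun e => hn (m_zero_symm C e)
      rw [h.2.2] at h2
      rw [h.2.2, h.2.2] at h1
      apply mul_right_cancel₀ h2
      calc L i0 * d C (v l) * M l j = L i0 * (d C (v l) * M l j) := by ring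
        _ = L i0 * d C (v j) * M j l := by rw [← h1]; ring
        _ = d C (v i0) * (L j * M j l) := by rw [hj]; ring
        _ = _ := by rw [hL j l]; ring) (v i) (h.mem C i)
  rwa [h.1 e] at hj

theorem Ty.d_le (h : Ty C M v) (hc : Conn C) (L : Fin n → ℤ)
    (hL : ∀ i j, L i * M i j = L j * M j i) (hp : ∀ i, 0 < L i) (N : ℤ) {i j : Fin n}
    (hN : L i ≤ N * L j) : d C (v i) ≤ N * d C (v j) := by
  have h1 := h.len C hc L hL j i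
  have h2 := d_pos C (v j)
  have h3 : L j * d C (v i) ≤ L j * (N * d C (v j)) := by rw [h1]; nlinarith
  exact le_of_mul_le_mul_left h3 (hp j)

theorem Ty.exc (h : Ty C M v) (hc : Conn C) {p : ℕ} (hg : C.Good p) (L : Fin n → ℤ)
    (hL : ∀ i j, L i * M i j = L j * M j i) (hp : ∀ i, 0 < L i) {i0 : Fin n} (h0 : ∀ i, L i ≤ L i0)
    {x : Fin n → ℤ} (hx : Rt C v i0 x) (hd : ∀ i, 0 ≤ ∑ j, M i j * x j) (K : ℤ)
    (hK : L i0 * K = 4 * (L i0 + ∑ j, x j * L j)) :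
    (∀ j, ¬ (p : ℤ) ∣ x j) ∧ kap C (v i0) = K := by
  obtain ⟨b, hb, e⟩ := hx
  have hθ : IsHigh C b := by
    refine high_of_dom C hc (fun a ha => ?_) fun a ha => ?_
    · obtain ⟨i, rfl⟩ := (h.2.1 a).1 ha
      rw [h.m C]
      simpa only [hb] using hd i
    · obtain ⟨i, rfl⟩ := (h.2.1 a).1 ha
      have := h.d_le C hc L hL hp 1 (i := i) (j := i0) (by rw [one_mul]; exact h0 i)
      rw [e]; linarith
  refine ⟨fun j => hb j ▸ hθ.good C hg (h.mem C j), ?_⟩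
  have h1 := hθ.d_kap' C hc (v i0)
  rw [h.sum C, e] at h1
  have h2 : L i0 * ∑ j, C.co b (v j) * d C (v j) = d C (v i0) * ∑ j, x j * L j := by
    rw [mul_sum, mul_sum]
    refine sum_congr rfl fun j _ => ?_
    rw [hb, mul_left_comm, h.len C hc L hL i0 j]; ring
  apply mul_left_cancel₀ (mul_pos (hp i0) (d_pos C (v i0))).ne'
  calc L i0 * d C (v i0) * kap C (v i0) = L i0 * (d C (v i0) * kap C (v i0)) := by ring
    _ = 4 * (L i0 * d C (v i0) + L i0 * ∑ j, C.co b (v j) * d C (v j)) := by rw [h1]; ring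
    _ = d C (v i0) * (4 * (L i0 + ∑ j, x j * L j)) := by rw [h2]; ring
    _ = _ := by rw [← hK]; ring

theorem word_E6 {v : Fin 6 → Φ} (h : Ty C CartanMatrix.E₆ v) :
    Rt C v 5 ![1, 2, 2, 3, 2, 1] := by
  have h0 : Rt C v 5 ![0, 0, 0, 0, 0, 1] := h.base C 5 (by decide)
  have h1 : Rt C v 5 ![0, 0, 0, 0, 1, 1] := h.step C 4 h0 (by decide)
  have h2 : Rt C v 5 ![0, 0, 0, 1, 1, 1] := h.step C 3 h1 (by decide)
  have h3 : Rt C v 5 ![0, 1, 0, 1, 1, 1] := h.step C 1 h2 (by decide)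
  have h4 : Rt C v 5 ![0, 1, 1, 1, 1, 1] := h.step C 2 h3 (by decide)
  have h5 : Rt C v 5 ![1, 1, 1, 1, 1, 1] := h.step C 0 h4 (by decide)
  have h6 : Rt C v 5 ![1, 1, 1, 2, 1, 1] := h.step C 3 h5 (by decide)
  have h7 : Rt C v 5 ![1, 1, 2, 2, 1, 1] := h.step C 2 h6 (by decide)
  have h8 : Rt C v 5 ![1, 1, 2, 2, 2, 1] := h.step C 4 h7 (by decide)
  have h9 : Rt C v 5 ![1, 1, 2, 3, 2, 1] := h.step C 3 h8 (by decide)
  have h10 : Rt C v 5 ![1, 2, 2, 3, 2, 1] := h.step C 1 h9 (by decide)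
  exact h10

theorem word_E7 {v : Fin 7 → Φ} (h : Ty C CartanMatrix.E₇ v) :
    Rt C v 6 ![2, 2, 3, 4, 3, 2, 1] := by
  have h0 : Rt C v 6 ![0, 0, 0, 0, 0, 0, 1] := h.base C 6 (by decide)
  have h1 : Rt C v 6 ![0, 0, 0, 0, 0, 1, 1] := h.step C 5 h0 (by decide)
  have h2 : Rt C v 6 ![0, 0, 0, 0, 1, 1, 1] := h.step C 4 h1 (by decide)
  have h3 : Rt C v 6 ![0, 0, 0, 1, 1, 1, 1] := h.step C 3 h2 (by decide)
  have h4 : Rt C v 6 ![0, 1, 0, 1, 1, 1, 1] := h.step C 1 h3 (by decide)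
  have h5 : Rt C v 6 ![0, 1, 1, 1, 1, 1, 1] := h.step C 2 h4 (by decide)
  have h6 : Rt C v 6 ![1, 1, 1, 1, 1, 1, 1] := h.step C 0 h5 (by decide)
  have h7 : Rt C v 6 ![1, 1, 1, 2, 1, 1, 1] := h.step C 3 h6 (by decide)
  have h8 : Rt C v 6 ![1, 1, 2, 2, 1, 1, 1] := h.step C 2 h7 (by decide)
  have h9 : Rt C v 6 ![1, 1, 2, 2, 2, 1, 1] := h.step C 4 h8 (by decide)
  have h10 : Rt C v 6 ![1, 1, 2, 3, 2, 1, 1] := h.step C 3 h9 (by decide)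
  have h11 : Rt C v 6 ![1, 2, 2, 3, 2, 1, 1] := h.step C 1 h10 (by decide)
  have h12 : Rt C v 6 ![1, 2, 2, 3, 2, 2, 1] := h.step C 5 h11 (by decide)
  have h13 : Rt C v 6 ![1, 2, 2, 3, 3, 2, 1] := h.step C 4 h12 (by decide)
  have h14 : Rt C v 6 ![1, 2, 2, 4, 3, 2, 1] := h.step C 3 h13 (by decide)
  have h15 : Rt C v 6 ![1, 2, 3, 4, 3, 2, 1] := h.step C 2 h14 (by decide)
  have h16 : Rt C v 6 ![2, 2, 3, 4, 3, 2, 1] := h.step C 0 h15 (by decide)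
  exact h16

theorem word_E8 {v : Fin 8 → Φ} (h : Ty C CartanMatrix.E₈ v) :
    Rt C v 7 ![2, 3, 4, 6, 5, 4, 3, 2] := by
  have h0 : Rt C v 7 ![0, 0, 0, 0, 0, 0, 0, 1] := h.base C 7 (by decide)
  have h1 : Rt C v 7 ![0, 0, 0, 0, 0, 0, 1, 1] := h.step C 6 h0 (by decide)
  have h2 : Rt C v 7 ![0, 0, 0, 0, 0, 1, 1, 1] := h.step C 5 h1 (by decide)
  have h3 : Rt C v 7 ![0, 0, 0, 0, 1, 1, 1, 1] := h.step C 4 h2 (by decide)
  have h4 : Rt C v 7 ![0, 0, 0, 1, 1, 1, 1, 1] := h.step C 3 h3 (by decide)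
  have h5 : Rt C v 7 ![0, 1, 0, 1, 1, 1, 1, 1] := h.step C 1 h4 (by decide)
  have h6 : Rt C v 7 ![0, 1, 1, 1, 1, 1, 1, 1] := h.step C 2 h5 (by decide)
  have h7 : Rt C v 7 ![1, 1, 1, 1, 1, 1, 1, 1] := h.step C 0 h6 (by decide)
  have h8 : Rt C v 7 ![1, 1, 1, 2, 1, 1, 1, 1] := h.step C 3 h7 (by decide)
  have h9 : Rt C v 7 ![1, 1, 2, 2, 1, 1, 1, 1] := h.step C 2 h8 (by decide)
  have h10 : Rt C v 7 ![1, 1, 2, 2, 2, 1, 1, 1] := h.step C 4 h9 (by decide)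
  have h11 : Rt C v 7 ![1, 1, 2, 3, 2, 1, 1, 1] := h.step C 3 h10 (by decide)
  have h12 : Rt C v 7 ![1, 2, 2, 3, 2, 1, 1, 1] := h.step C 1 h11 (by decide)
  have h13 : Rt C v 7 ![1, 2, 2, 3, 2, 2, 1, 1] := h.step C 5 h12 (by decide)
  have h14 : Rt C v 7 ![1, 2, 2, 3, 3, 2, 1, 1] := h.step C 4 h13 (by decide)
  have h15 : Rt C v 7 ![1, 2, 2, 4, 3, 2, 1, 1] := h.step C 3 h14 (by decide)
  have h16 : Rt C v 7 ![1, 2, 3, 4, 3, 2, 1, 1] := h.step C 2 h15 (by decide)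
  have h17 : Rt C v 7 ![2, 2, 3, 4, 3, 2, 1, 1] := h.step C 0 h16 (by decide)
  have h18 : Rt C v 7 ![2, 2, 3, 4, 3, 2, 2, 1] := h.step C 6 h17 (by decide)
  have h19 : Rt C v 7 ![2, 2, 3, 4, 3, 3, 2, 1] := h.step C 5 h18 (by decide)
  have h20 : Rt C v 7 ![2, 2, 3, 4, 4, 3, 2, 1] := h.step C 4 h19 (by decide)
  have h21 : Rt C v 7 ![2, 2, 3, 5, 4, 3, 2, 1] := h.step C 3 h20 (by decide)
  have h22 : Rt C v 7 ![2, 3, 3, 5, 4, 3, 2, 1] := h.step C 1 h21 (by decide)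
  have h23 : Rt C v 7 ![2, 3, 4, 5, 4, 3, 2, 1] := h.step C 2 h22 (by decide)
  have h24 : Rt C v 7 ![2, 3, 4, 6, 4, 3, 2, 1] := h.step C 3 h23 (by decide)
  have h25 : Rt C v 7 ![2, 3, 4, 6, 5, 3, 2, 1] := h.step C 4 h24 (by decide)
  have h26 : Rt C v 7 ![2, 3, 4, 6, 5, 4, 2, 1] := h.step C 5 h25 (by decide)
  have h27 : Rt C v 7 ![2, 3, 4, 6, 5, 4, 3, 1] := h.step C 6 h26 (by decide)
  have h28 : Rt C v 7 ![2, 3, 4, 6, 5, 4, 3, 2] := h.step C 7 h27 (by decide)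
  exact h28

theorem word_F4 {v : Fin 4 → Φ} (h : Ty C CartanMatrix.F₄ v) :
    Rt C v 3 ![2, 4, 3, 2] := by
  have h0 : Rt C v 3 ![0, 0, 0, 1] := h.base C 3 (by decide)
  have h1 : Rt C v 3 ![0, 0, 1, 1] := h.step C 2 h0 (by decide)
  have h2 : Rt C v 3 ![0, 2, 1, 1] := h.step C 1 h1 (by decide)
  have h3 : Rt C v 3 ![2, 2, 1, 1] := h.step C 0 h2 (by decide)
  have h4 : Rt C v 3 ![2, 2, 2, 1] := h.step C 2 h3 (by decide)
  have h5 : Rt C v 3 ![2, 4, 2, 1] := h.step C 1 h4 (by decide)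
  have h6 : Rt C v 3 ![2, 4, 3, 1] := h.step C 2 h5 (by decide)
  have h7 : Rt C v 3 ![2, 4, 3, 2] := h.step C 3 h6 (by decide)
  exact h7

theorem word_G2 {v : Fin 2 → Φ} (h : Ty C CartanMatrix.G₂ v) :
    Rt C v 1 ![3, 2] := by
  have h0 : Rt C v 1 ![0, 1] := h.base C 1 (by decide)
  have h1 : Rt C v 1 ![3, 1] := h.step C 0 h0 (by decide)
  have h2 : Rt C v 1 ![3, 2] := h.step C 1 h1 (by decide)
  exact h2


theorem not_dvd_of {p : ℕ} (hp : p.Prime) (h2 : ¬ (p : ℤ) ∣ 2) (h3 : ¬ (p : ℤ) ∣ 3) (a b : ℕ) :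
    ¬ (p : ℤ) ∣ 2 ^ a * 3 ^ b := by
  have hq : Prime (p : ℤ) := Nat.prime_iff_prime_int.1 hp
  intro h
  rcases hq.dvd_or_dvd h with h | h
  · exact h2 (hq.dvd_of_dvd_pow h)
  · exact h3 (hq.dvd_of_dvd_pow h)

theorem caseK_E6 {v : Fin 6 → Φ} (h : Ty C CartanMatrix.E₆ v) (hc : Conn C) {p : ℕ}
    (hp : p.Prime) (hg : C.Good p) : CaseK C p := by
  obtain ⟨h1, h2⟩ := h.exc C hc hg (fun _ => 1) (by decide) (by decide) (by decide)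
    (word_E6 C h) (by decide) (2 ^ 4 * 3 ^ 1) (by decide)
  exact ⟨_, h.mem C 5, h2 ▸ not_dvd_of hp (h1 1) (h1 3) 4 1⟩

theorem caseK_E7 {v : Fin 7 → Φ} (h : Ty C CartanMatrix.E₇ v) (hc : Conn C) {p : ℕ}
    (hp : p.Prime) (hg : C.Good p) : CaseK C p := by
  obtain ⟨h1, h2⟩ := h.exc C hc hg (fun _ => 1) (by decide) (by decide) (by decide)
    (word_E7 C h) (by decide) (2 ^ 3 * 3 ^ 2) (by decide)
  exact ⟨_, h.mem C 6, h2 ▸ not_dvd_of hp (h1 1) (h1 2) 3 2⟩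

theorem caseK_E8 {v : Fin 8 → Φ} (h : Ty C CartanMatrix.E₈ v) (hc : Conn C) {p : ℕ}
    (hp : p.Prime) (hg : C.Good p) : CaseK C p := by
  obtain ⟨h1, h2⟩ := h.exc C hc hg (fun _ => 1) (by decide) (by decide) (by decide)
    (word_E8 C h) (by decide) (2 ^ 3 * 3 ^ 1 * 5) (by decide)
  refine ⟨_, h.mem C 7, h2 ▸ fun hd => ?_⟩
  rcases (Nat.prime_iff_prime_int.1 hp).dvd_or_dvd hd with hd | hd
  · exact not_dvd_of hp (h1 0) (h1 1) 3 1 hd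
  · exact h1 4 hd

theorem caseK_F4 {v : Fin 4 → Φ} (h : Ty C CartanMatrix.F₄ v) (hc : Conn C) {p : ℕ}
    (hp : p.Prime) (hg : C.Good p) : CaseK C p := by
  obtain ⟨h1, h2⟩ := h.exc C hc hg ![1, 1, 2, 2] (by decide) (by decide) (by decide)
    (word_F4 C h) (by decide) (2 ^ 2 * 3 ^ 2) (by decide)
  exact ⟨_, h.mem C 3, h2 ▸ not_dvd_of hp (h1 0) (h1 2) 2 2⟩

theorem caseK_G2 {v : Fin 2 → Φ} (h : Ty C CartanMatrix.G₂ v) (hc : Conn C) {p : ℕ}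
    (hp : p.Prime) (hg : C.Good p) : CaseK C p := by
  obtain ⟨h1, h2⟩ := h.exc C hc hg ![1, 3] (by decide) (by decide) (by decide)
    (word_G2 C h) (by decide) (2 ^ 4 * 3 ^ 0) (by decide)
  exact ⟨_, h.mem C 1, h2 ▸ not_dvd_of hp (h1 1) (h1 0) 4 0⟩

end Pool.Agent.Lib.MP_3a0263_al.Q.C1
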