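import Pool.Agent.Lib.MP_3a0263_al.Q.T_C1

/-! First consequences of simplicity for a Lie algebra with a root decomposition. -/

namespace Pool.Agent.Lib.MP_3a0263_al.Q.L0

open Matrix Pool.Agent.Lib.MP_3a0263_al.R

attribute [local instance 100] LieRing.ofAssociativeRing

universe u

section comb
variable {Φ : Type u} [Fintype Φ] (C : Comb Φ)

lemma co_ne (β : Φ) : ∃ i ∈ C.Δ, C.co β i ≠ 0 := by
  by_contra h
  push Not at h
  have h2 := C.two β
  rw [C.lin, Finset.sum_eq_zero fun i hi => by rw [h i hi, zero_mul]] at h2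
  omega
lemma neg_neg' (β : Φ) : C.neg (C.neg β) = β :=
  C.inj _ _ fun i hi => by rw [C.co_neg _ i hi, C.co_neg _ i hi, neg_neg]
lemma neg_ne (β : Φ) : C.neg β ≠ β := fun h => by
  obtain ⟨i, hi, h2⟩ := co_ne C β
  have := C.co_neg β i hi
  rw [h] at this
  omega
lemma eq_neg_comm {β γ : Φ} : γ = C.neg β ↔ β = C.neg γ :=
  ⟨fun h => by rw [h, neg_neg'], fun h => by rw [h, neg_neg']⟩
/-- `δ = β + γ` in coordinates -/
def IsSum (β γ δ : Φ) : Prop := ∀ i ∈ C.Δ, C.co δ i = C.co β i + C.co γ i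
lemma IsSum.symm {C : Comb Φ} {β γ δ : Φ} (h : IsSum C β γ δ) : IsSum C γ β δ :=
  fun i hi => by rw [h i hi, add_comm]
lemma IsSum.sub {C : Comb Φ} {β γ δ : Φ} (h : IsSum C β γ δ) : IsSum C (C.neg β) δ γ :=
  fun i hi => by rw [h i hi, C.co_neg _ i hi]; ring
lemma not_isSum_neg (β δ : Φ) : ¬ IsSum C β (C.neg β) δ := fun h => by
  obtain ⟨i, hi, h2⟩ := co_ne C δ
  have := h i hi
  rw [C.co_neg _ i hi] at this
  omega
end comb

variable {k : Type u} [Field k] {n : Type} [Fintype n] [DecidableEq n] {p : ℕ}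
  {L : LieSubalgebra k (Matrix n n k)} {Φ : Type u} [Fintype Φ] (R : CRoot p L Φ)

lemma e_ne (β : Φ) : R.e β ≠ 0 := fun h => by
  have := R.cf_self β
  rw [h, map_zero] at this
  exact zero_ne_one this
lemma br_mem (β γ : Φ) : ⁅R.e β, R.e γ⁆ ∈ L := L.lie_mem (R.e_mem β) (R.e_mem γ)
lemma diag_zero : diagonal (0 : R.t).1 = (0 : Matrix n n k) := diagonal_zero
lemma diag_lie (d d' : R.t) : ⁅diagonal d.1, diagonal d'.1⁆ = (0 : Matrix n n k) := by
  rw [Ring.lie_def, diagonal_mul_diagonal, diagonal_mul_diagonal, sub_eq_zero]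
  congr 1
  funext i
  exact mul_comm _ _
lemma e_lie (d : R.t) (β : Φ) : ⁅R.e β, diagonal d.1⁆ = -(R.wt β d • R.e β) := by
  rw [← lie_skew, R.lie_e]
lemma cf_e (β γ : Φ) [Decidable (β = γ)] : R.cf β (R.e γ) = if β = γ then 1 else 0 := by
  split_ifs with h
  · rw [h, R.cf_self]
  · exact R.cf_ne _ _ h
/-- an element of `L` is determined by its coordinates -/
lemma eq_zero {x : Matrix n n k} (hx : x ∈ L) (h1 : R.tp x = 0) (h2 : ∀ β, R.cf β x = 0) :
    x = 0 := by
  rw [R.decomp x hx, h1, diag_zero]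
  simp [h2]
/-- the bracket of opposite root vectors is diagonal -/
lemma br_neg (β : Φ) : ⁅R.e β, R.e (R.neg β)⁆ = diagonal (R.tp ⁅R.e β, R.e (R.neg β)⁆).1 := by
  have h : ∀ δ, R.cf δ ⁅R.e β, R.e (R.neg β)⁆ = 0 := fun δ => by
    by_contra h
    exact not_isSum_neg R.toComb β δ (R.br_cf _ _ _ h)
  conv_lhs => rw [R.decomp _ (br_mem R β (R.neg β))]
  simp [h]
lemma br_zero {β γ : Φ} (h : γ ≠ R.neg β) (h2 : ∀ δ, ¬ IsSum R.toComb β γ δ) :
    ⁅R.e β, R.e γ⁆ = 0 :=
  eq_zero R (br_mem R β γ) (R.br_tp _ _ h) fun δ => by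
    by_contra h3
    exact h2 δ (R.br_cf _ _ _ h3)
lemma br_sum {β γ δ : Φ} (h : IsSum R.toComb β γ δ) :
    ⁅R.e β, R.e γ⁆ = R.cf δ ⁅R.e β, R.e γ⁆ • R.e δ := by
  have h1 : γ ≠ R.neg β := fun h1 => not_isSum_neg R.toComb β δ (h1 ▸ h)
  conv_lhs => rw [R.decomp _ (br_mem R β γ), R.br_tp _ _ h1, diag_zero, zero_add]
  refine Finset.sum_eq_single δ (fun δ' _ h2 => ?_) (by simp)
  have : R.cf δ' ⁅R.e β, R.e γ⁆ = 0 := by
    by_contra h3
    exact h2 (R.inj _ _ fun i hi => by rw [R.br_cf _ _ _ h3 i hi, h i hi])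
  rw [this, zero_smul]
/-- the adjoint action of the torus in coordinates -/
lemma lie_diag (d : R.t) {x : Matrix n n k} (hx : x ∈ L) :
    ⁅diagonal d.1, x⁆ = ∑ β, (R.wt β d * R.cf β x) • R.e β := by
  conv_lhs => rw [R.decomp x hx]
  rw [lie_add, diag_lie, zero_add, lie_sum]
  exact Finset.sum_congr rfl fun β _ => by rw [lie_smul, R.lie_e, smul_smul, mul_comm]
lemma tp_lie_diag (d : R.t) {x : Matrix n n k} (hx : x ∈ L) : R.tp ⁅diagonal d.1, x⁆ = 0 := by
  rw [lie_diag R d hx, map_sum]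
  simp [R.tp_e]
lemma cf_lie_diag (d : R.t) {x : Matrix n n k} (hx : x ∈ L) (β : Φ) :
    R.cf β ⁅diagonal d.1, x⁆ = R.wt β d * R.cf β x := by
  rw [lie_diag R d hx, map_sum, Finset.sum_eq_single β]
  · rw [map_smul, R.cf_self, smul_eq_mul, mul_one]
  · intro γ _ h
    rw [map_smul, R.cf_ne _ _ (Ne.symm h), smul_zero]
  · simp
lemma wt_neg (β : Φ) (d : R.t) : R.wt (R.neg β) d = -R.wt β d := by
  rw [R.wt_lin, R.wt_lin β, ← Finset.sum_neg_distrib]
  exact Finset.sum_congr rfl fun i hi => by rw [R.co_neg _ i hi]; push_cast; ring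

/-- the ideal spanned by the root vectors in `S` and the diagonal matrices in `T` -/
def ideal (S : Set Φ) (T : Submodule k R.t)
    (ha : ∀ β ∈ S, ∀ γ δ, R.cf δ ⁅R.e γ, R.e β⁆ ≠ 0 → δ ∈ S)
    (hb : ∀ β ∈ S, R.tp ⁅R.e (R.neg β), R.e β⁆ ∈ T)
    (hc : ∀ d ∈ T, ∀ γ, R.wt γ d ≠ 0 → γ ∈ S) : LieIdeal k L where
  carrier := {x | R.tp x.1 ∈ T ∧ ∀ β, β ∉ S → R.cf β x.1 = 0}
  zero_mem' := ⟨by simp, fun β _ => by simp⟩
  add_mem' := fun {x y} hx hy =>
    ⟨by simpa using T.add_mem hx.1 hy.1, fun β h => by simp [hx.2 β h, hy.2 β h]⟩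
  smul_mem' := fun c x hx => ⟨by simpa using T.smul_mem c hx.1, fun β h => by simp [hx.2 β h]⟩
  lie_mem := by
    rintro ⟨x, hx⟩ ⟨y, hy⟩ ⟨h1, h2⟩
    simp only at h1 h2
    have key : ∀ γ, R.tp ⁅R.e γ, y⁆ ∈ T ∧ ∀ δ, δ ∉ S → R.cf δ ⁅R.e γ, y⁆ = 0 := by
      intro γ
      have e1 : ⁅R.e γ, y⁆ = -(R.wt γ (R.tp y) • R.e γ) + ∑ β, R.cf β y • ⁅R.e γ, R.e β⁆ := by
        conv_lhs => rw [R.decomp y hy]
        rw [lie_add, e_lie, lie_sum]
        simp only [lie_smul]
      rw [e1]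
      constructor
      · rw [map_add, map_neg, map_smul, R.tp_e, smul_zero, neg_zero, zero_add, map_sum]
        refine T.sum_mem fun β _ => ?_
        rw [map_smul]
        by_cases hβ : β ∈ S
        · by_cases h3 : β = R.neg γ
          · refine T.smul_mem _ ?_
            rw [(eq_neg_comm R.toComb).1 h3]
            exact hb β hβ
          · rw [R.br_tp _ _ h3, smul_zero]; exact T.zero_mem
        · rw [h2 β hβ, zero_smul]; exact T.zero_mem
      · intro δ hδ
        have e2 : R.cf δ (R.wt γ (R.tp y) • R.e γ) = 0 := by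
          rw [map_smul]
          by_cases h3 : δ = γ
          · have : R.wt γ (R.tp y) = 0 := by
              by_contra h4
              exact hδ (h3 ▸ hc _ h1 γ h4)
            rw [this, zero_smul]
          · rw [R.cf_ne _ _ h3, smul_zero]
        rw [map_add, map_neg, e2, neg_zero, zero_add, map_sum]
        refine Finset.sum_eq_zero fun β _ => ?_
        rw [map_smul]
        by_cases hβ : β ∈ S
        · have : R.cf δ ⁅R.e γ, R.e β⁆ = 0 := by
            by_contra h4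
            exact hδ (ha β hβ γ δ h4)
          rw [this, smul_zero]
        · rw [h2 β hβ, zero_smul]
    have e3 : ⁅x, y⁆ = ⁅diagonal (R.tp x).1, y⁆ + ∑ γ, R.cf γ x • ⁅R.e γ, y⁆ := by
      conv_lhs => rw [R.decomp x hx]
      rw [add_lie, sum_lie]
      simp only [smul_lie]
    change R.tp ⁅x, y⁆ ∈ T ∧ ∀ β, β ∉ S → R.cf β ⁅x, y⁆ = 0
    rw [e3]
    constructor
    · rw [map_add, tp_lie_diag R _ hy, zero_add, map_sum]
      exact T.sum_mem fun γ _ => by rw [map_smul]; exact T.smul_mem _ (key γ).1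
    · intro δ hδ
      rw [map_add, cf_lie_diag R _ hy, h2 δ hδ, mul_zero, zero_add, map_sum]
      exact Finset.sum_eq_zero fun γ _ => by rw [map_smul, (key γ).2 δ hδ, smul_zero]

variable (hs : LieAlgebra.IsSimple k L)
include hs

/-- the only ideals spanned by root vectors and diagonal matrices -/
lemma dichotomy (S : Set Φ) (T : Submodule k R.t)
    (ha : ∀ β ∈ S, ∀ γ δ, R.cf δ ⁅R.e γ, R.e β⁆ ≠ 0 → δ ∈ S)
    (hb : ∀ β ∈ S, R.tp ⁅R.e (R.neg β), R.e β⁆ ∈ T)
    (hc : ∀ d ∈ T, ∀ γ, R.wt γ d ≠ 0 → γ ∈ S) :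
    ((∀ β, β ∉ S) ∧ T = ⊥) ∨ ((∀ β, β ∈ S) ∧ T = ⊤) := by
  have hd : ∀ d ∈ T, (⟨diagonal d.1, R.t_mem d⟩ : L) ∈ ideal R S T ha hb hc := fun d hd =>
    ⟨by simpa [R.tp_t] using hd, fun β _ => R.cf_t β d⟩
  rcases hs.eq_bot_or_eq_top (ideal R S T ha hb hc) with h | h
  · refine Or.inl ⟨fun β hβ => ?_, (Submodule.eq_bot_iff _).2 fun d h2 => ?_⟩
    · have : (⟨R.e β, R.e_mem β⟩ : L) ∈ ideal R S T ha hb hc :=
        ⟨by simp [R.tp_e], fun γ hγ => R.cf_ne _ _ fun h2 => hγ (h2 ▸ hβ)⟩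
      rw [h, LieSubmodule.mem_bot] at this
      exact e_ne R β (congrArg Subtype.val this)
    · have := hd d h2
      rw [h, LieSubmodule.mem_bot] at this
      have h3 : diagonal d.1 = (0 : Matrix n n k) := congrArg Subtype.val this
      rw [← R.tp_t d, h3, map_zero]
  · refine Or.inr ⟨fun β => ?_, Submodule.eq_top_iff'.2 fun d => ?_⟩
    · have : (⟨R.e β, R.e_mem β⟩ : L) ∈ ideal R S T ha hb hc := h ▸ LieSubmodule.mem_top _
      by_contra h2
      have h3 : R.cf β (R.e β) = 0 := this.2 β h2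
      rw [R.cf_self] at h3
      exact one_ne_zero h3
    · have : (⟨diagonal d.1, R.t_mem d⟩ : L) ∈ ideal R S T ha hb hc := h ▸ LieSubmodule.mem_top _
      have h3 : R.tp (diagonal d.1) ∈ T := this.1
      rwa [R.tp_t] at h3

include R in
lemma nonempty : Nonempty Φ := by
  by_contra h
  rw [not_nonempty_iff] at h
  refine hs.non_abelian ⟨fun x y => Subtype.ext ?_⟩
  have h1 := R.decomp x.1 x.2
  have h2 := R.decomp y.1 y.2
  rw [Finset.univ_eq_empty, Finset.sum_empty, add_zero] at h1 h2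
  change ⁅x.1, y.1⁆ = 0
  rw [h1, h2, diag_lie]
lemma delta_nonempty : R.Δ.Nonempty := by
  obtain ⟨β⟩ := nonempty R hs
  obtain ⟨i, hi, -⟩ := co_ne R.toComb β
  exact ⟨i, hi⟩

/-- the simple roots separate the points of the torus -/
lemma wt_sep {d : R.t} (h : ∀ i ∈ R.Δ, R.wt i d = 0) : d = 0 := by
  obtain ⟨β⟩ := nonempty R hs
  have h1 : ∀ γ, R.wt γ d = 0 := fun γ => by
    rw [R.wt_lin]
    exact Finset.sum_eq_zero fun i hi => by rw [h i hi, mul_zero]
  rcases dichotomy R hs ∅ (⨅ γ, LinearMap.ker (R.wt γ)) (fun _ h => h.elim) (fun _ h => h.elim)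
    (fun d hd γ h2 => h2 ((Submodule.mem_iInf _).1 hd γ)) with h2 | h2
  · rw [← Submodule.mem_bot k, ← h2.2]
    exact (Submodule.mem_iInf _).2 h1
  · exact (h2.1 β).elim

omit hs in
/-- the values of the simple roots -/
noncomputable def ev : R.t →ₗ[k] (R.Δ → k) := LinearMap.pi fun i => R.wt i.1
lemma ev_inj : Function.Injective (ev R) :=
  (injective_iff_map_eq_zero _).2 fun _ h => wt_sep R hs fun i hi => congrFun h ⟨i, hi⟩
lemma finrank_t : Module.finrank k R.t = R.Δ.card := by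
  refine le_antisymm ?_ R.dim
  simpa using LinearMap.finrank_le_finrank_of_injective (ev_inj R hs)
/-- the simple roots take arbitrary values on the torus -/
lemma wt_surj (v : Φ → k) : ∃ d : R.t, ∀ i ∈ R.Δ, R.wt i d = v i := by
  have h : Function.Surjective (ev R) :=
    (LinearMap.injective_iff_surjective_of_finrank_eq_finrank
      (by simp [finrank_t R hs])).1 (ev_inj R hs)
  obtain ⟨d, hd⟩ := h fun i => v i.1
  exact ⟨d, fun i hi => congrFun hd ⟨i, hi⟩⟩
lemma wt_indep (c : Φ → k) (h : ∀ d : R.t, ∑ i ∈ R.Δ, c i * R.wt i d = 0) :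
    ∀ i ∈ R.Δ, c i = 0 := by
  classical
  intro i hi
  obtain ⟨d, hd⟩ := wt_surj R hs (Pi.single i 1)
  have := h d
  rw [Finset.sum_eq_single i, hd i hi, Pi.single_eq_same, mul_one] at this
  · exact this
  · intro j hj h2
    rw [hd j hj, Pi.single_eq_of_ne h2, mul_zero]
  · exact fun h2 => absurd hi h2
lemma wt_eq_zero_iff (β : Φ) : R.wt β = 0 ↔ ∀ i ∈ R.Δ, (R.co β i : k) = 0 := by
  constructor
  · intro h
    exact wt_indep R hs _ fun d => by rw [← R.wt_lin, h, LinearMap.zero_apply]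
  · intro h
    ext d
    rw [R.wt_lin]
    exact Finset.sum_eq_zero fun i hi => by rw [h i hi, zero_mul]
lemma wt_ne {i : Φ} (hi : i ∈ R.Δ) : R.wt i ≠ 0 := fun h => by
  have := (wt_eq_zero_iff R hs i).1 h i hi
  rw [R.self i hi] at this
  simp at this
lemma wt_h_simple {i : Φ} (hi : i ∈ R.Δ) (β : Φ) : R.wt β (R.h i) = (R.m i β : k) :=
  R.wt_h i (wt_ne R hs hi) β

/-- the torus is spanned by the brackets of opposite root vectors -/
lemma span_br :
    Submodule.span k (Set.range fun β => R.tp ⁅R.e (R.neg β), R.e β⁆) = ⊤ := by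
  obtain ⟨β⟩ := nonempty R hs
  rcases dichotomy R hs Set.univ (Submodule.span k (Set.range fun β =>
    R.tp ⁅R.e (R.neg β), R.e β⁆)) (fun _ _ _ _ _ => trivial)
    (fun β _ => Submodule.subset_span ⟨β, rfl⟩) (fun _ _ _ _ => trivial) with h | h
  · exact (h.1 β trivial).elim
  · exact h.2

/-- a subalgebra which contains all root vectors is everything -/
lemma le_of_e (M : LieSubalgebra k (Matrix n n k)) (h : ∀ β, R.e β ∈ M) : L ≤ M := by
  have h1 : ∀ d : R.t, diagonal d.1 ∈ M := by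
    intro d
    have hd : d ∈ Submodule.span k (Set.range fun β => R.tp ⁅R.e (R.neg β), R.e β⁆) := by
      rw [span_br R hs]; trivial
    induction hd using Submodule.span_induction with
    | mem x hx =>
      obtain ⟨β, rfl⟩ := hx
      have := br_neg R (R.neg β)
      rw [neg_neg' R.toComb] at this
      simp only
      rw [← this]
      exact M.lie_mem (h _) (h _)
    | zero => rw [diag_zero]; exact M.zero_mem
    | add x y _ _ hx hy =>
      have e1 : diagonal (x + y).1 = diagonal x.1 + diagonal y.1 := (diagonal_add _ _).symm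
      rw [e1]
      exact M.add_mem hx hy
    | smul c x _ hx =>
      rw [Submodule.coe_smul, diagonal_smul]
      exact M.smul_mem c hx
  intro x hx
  rw [R.decomp x hx]
  exact M.add_mem (h1 _) (M.toSubmodule.sum_mem fun β _ => M.smul_mem _ (h β))

/-- the root system does not split -/
lemma conn (S : Set Φ) (h1 : ∀ β ∈ S, R.neg β ∈ S)
    (h2 : ∀ β ∈ S, ∀ γ, γ ∉ S → ∀ δ, ¬ IsSum R.toComb β γ δ) : (∀ β, β ∉ S) ∨ ∀ β, β ∈ S := by
  have h3 : ∀ β ∈ S, ∀ γ, γ ∉ S → ⁅R.e β, R.e γ⁆ = 0 := fun β hβ γ hγ =>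
    br_zero R (fun h => hγ (h ▸ h1 β hβ)) (h2 β hβ γ hγ)
  refine (dichotomy R hs S (⨅ γ : {γ // γ ∉ S}, LinearMap.ker (R.wt γ.1)) ?_ ?_ ?_).imp
    And.left And.left
  · intro β hβ γ δ h
    have h4 : IsSum R.toComb γ β δ := R.br_cf _ _ _ h
    by_contra hδ
    by_cases hγ : γ ∈ S
    · exact h2 _ (h1 γ hγ) δ hδ β h4.sub
    · exact h2 β hβ γ hγ δ h4.symm
  · intro β hβ
    refine (Submodule.mem_iInf _).2 fun γ => ?_
    have h4 := br_neg R (R.neg β)
    rw [neg_neg' R.toComb] at h4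
    have h5 := R.lie_e (R.tp ⁅R.e (R.neg β), R.e β⁆) γ.1
    rw [← h4, lie_lie, h3 β hβ _ γ.2, h3 _ (h1 β hβ) _ γ.2, lie_zero, lie_zero, sub_zero] at h5
    exact (smul_eq_zero.1 h5.symm).resolve_right (e_ne R _)
  · intro d hd γ h
    by_contra hγ
    exact h ((Submodule.mem_iInf _).1 hd ⟨γ, hγ⟩)

/-- the Dynkin diagram is connected -/
lemma conn_delta : C1.Conn R.toComb := by
  intro D ⟨i, hi, hiD⟩ hD j hj
  by_contra hjD
  rcases conn R hs {b | ∀ j ∈ R.Δ, j ∉ D → R.co b j = 0}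
    (fun β hβ j hj h => by rw [R.co_neg _ j hj, hβ j hj h, neg_zero]) (fun β hβ γ hγ δ h => by
      have h1 := (C1.supp_side R.toComb D hD γ).resolve_left hγ
      rcases C1.supp_side R.toComb D hD δ with h2 | h2
      · refine hγ fun j hj h3 => ?_
        have := h j hj
        rw [h2 j hj h3, hβ j hj h3] at this
        omega
      · obtain ⟨j, hj, h3⟩ := co_ne R.toComb β
        by_cases h4 : j ∈ D
        · have := h j hj
          rw [h2 j hj h4, h1 j hj h4] at this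
          omega
        · exact h3 (hβ j hj h4)) with h | h
  · exact h i fun j hj h2 => R.ne i hi j hj fun e => h2 (e ▸ hiD)
  · have := h j j hj hjD
    rw [R.self j hj] at this
    omega

/-- rank one does not occur in characteristic two -/
lemma not_rank_one (h2 : (2 : k) = 0) : R.Δ.card ≠ 1 := by
  intro h
  obtain ⟨a, ha⟩ := Finset.card_eq_one.1 h
  have haΔ : a ∈ R.Δ := ha ▸ Finset.mem_singleton_self a
  have hall : ∀ γ, γ = a ∨ γ = R.neg a := fun γ =>
    R.red a γ 1 (R.co γ a) one_ne_zero fun i hi => by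
      rw [ha, Finset.mem_singleton] at hi
      rw [hi, R.self a haΔ]; ring
  have h0 : R.tp ⁅R.e a, R.e (R.neg a)⁆ = 0 := by
    obtain ⟨c, hc⟩ := R.sq a
    rw [br_neg, e_lie, h2, zero_mul, zero_smul, neg_eq_zero] at hc
    refine wt_sep R hs fun i hi => ?_
    rw [ha, Finset.mem_singleton] at hi
    rw [hi]
    exact (smul_eq_zero.1 hc).resolve_right (e_ne R a)
  refine (dichotomy R hs {a} ⊥ ?_ ?_ ?_).elim (fun h3 => h3.1 a rfl)
    fun h3 => neg_ne R.toComb a (h3.1 (R.neg a))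
  · intro β hβ γ δ h4
    rw [Set.mem_singleton_iff.1 hβ] at h4
    have h5 := R.br_cf _ _ _ h4 a haΔ
    have h6 := R.self a haΔ
    have h7 := R.co_neg a a haΔ
    rcases hall δ with h8 | h8
    · exact h8
    · rcases hall γ with h9 | h9 <;> rw [h8, h9] at h5 <;> omega
  · intro β hβ
    rw [Set.mem_singleton_iff.1 hβ, ← lie_skew, map_neg, h0, neg_zero]
    exact Submodule.zero_mem _
  · intro d hd γ h4
    rw [Submodule.mem_bot] at hd
    rw [hd, map_zero] at h4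
    exact absurd rfl h4

omit hs in
/-- the Killing form on the torus -/
lemma killing_diag (d d' : R.t) :
    killingForm k L ⟨diagonal d.1, R.t_mem d⟩ ⟨diagonal d'.1, R.t_mem d'⟩ =
      ∑ β, R.wt β d * R.wt β d' := by
  have h : LieAlgebra.ad k L ⟨diagonal d.1, R.t_mem d⟩ ∘ₗ
      LieAlgebra.ad k L ⟨diagonal d'.1, R.t_mem d'⟩ = ∑ β, (R.wt β d * R.wt β d') •
        (R.cf β ∘ₗ L.toSubmodule.subtype).smulRight (⟨R.e β, R.e_mem β⟩ : L) := by
    ext1 y
    refine Subtype.ext ?_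
    have h1 : ⁅diagonal d'.1, y.1⁆ ∈ L := L.lie_mem (R.t_mem d') y.2
    change ⁅diagonal d.1, ⁅diagonal d'.1, y.1⁆⁆ = _
    rw [lie_diag R d h1, LinearMap.sum_apply]
    refine Eq.trans ?_ (map_sum L.toSubmodule.subtype _ _).symm
    refine Finset.sum_congr rfl fun β _ => ?_
    rw [cf_lie_diag R d' y.2]
    change _ = (R.wt β d * R.wt β d') • R.cf β y.1 • R.e β
    rw [smul_smul, mul_assoc]
  rw [killingForm_apply_apply, h, map_sum]
  refine Finset.sum_congr rfl fun β _ => ?_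
  rw [map_smul, LinearMap.trace_smulRight]
  change (R.wt β d * R.wt β d') • R.cf β (R.e β) = _
  rw [R.cf_self, smul_eq_mul, mul_one]

lemma killing_h {a : Φ} (ha : a ∈ R.Δ) :
    killingForm k L ⟨diagonal (R.h a).1, R.t_mem _⟩ ⟨diagonal (R.h a).1, R.t_mem _⟩ =
      ((∑ β, R.m a β ^ 2 : ℤ) : k) := by
  rw [killing_diag]
  push_cast
  exact Finset.sum_congr rfl fun β _ => by rw [wt_h_simple R hs ha, sq]

end Pool.Agent.Lib.MP_3a0263_al.Q.L0
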