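import Pool.Agent.Lib.MP_3a0263_al.Q.T_DIAG0
import Pool.Agent.Lib.MP_3a0263_al.Q.T_L0

namespace Pool.Agent.Lib.MP_3a0263_al.Q

open Matrix Pool.Agent.Lib.MP_3a0263_al.R

attribute [local instance 100] LieRing.ofAssociativeRing

universe u

variable {k : Type u} [Field k] {n : Type} [Fintype n] [DecidableEq n] {p : ℕ}
  {L : LieSubalgebra k (Matrix n n k)} {Φ : Type u} [Fintype Φ] (R : CRoot p L Φ)

namespace DG

/-- the span of the root vectors of a closed set of roots without opposite pairs -/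
def Nil (Q : Φ → Prop) (h1 : ∀ β γ, Q β → Q γ → γ ≠ R.neg β)
    (h2 : ∀ β γ δ, Q β → Q γ → (∀ i ∈ R.Δ, R.co δ i = R.co β i + R.co γ i) → Q δ) :
    LieSubalgebra k L where
  carrier := {x | R.tp x.1 = 0 ∧ ∀ β, ¬ Q β → R.cf β x.1 = 0}
  zero_mem' := ⟨map_zero _, fun β _ => map_zero _⟩
  add_mem' := fun {a b} ha hb => ⟨by
    change R.tp (a.1 + b.1) = 0
    rw [map_add, ha.1, hb.1, add_zero], fun β hβ => by
    change R.cf β (a.1 + b.1) = 0
    rw [map_add, ha.2 β hβ, hb.2 β hβ, add_zero]⟩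
  smul_mem' := fun c a ha => ⟨by
    change R.tp (c • a.1) = 0
    rw [map_smul, ha.1, smul_zero], fun β hβ => by
    change R.cf β (c • a.1) = 0
    rw [map_smul, ha.2 β hβ, smul_zero]⟩
  lie_mem' := fun {a b} ha hb => by
    have e : ⁅a.1, b.1⁆ = ∑ β, ∑ γ, (R.cf β a.1 * R.cf γ b.1) • ⁅R.e β, R.e γ⁆ := by
      conv_lhs => rw [R.decomp _ a.2, R.decomp _ b.2, ha.1, hb.1, L0.diag_zero, zero_add, zero_add]
      rw [sum_lie]
      refine Finset.sum_congr rfl fun β _ => ?_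
      rw [lie_sum]
      refine Finset.sum_congr rfl fun γ _ => ?_
      rw [smul_lie, lie_smul, smul_smul]
    constructor
    · change R.tp ⁅a.1, b.1⁆ = 0
      rw [e, map_sum]
      refine Finset.sum_eq_zero fun β _ => ?_
      rw [map_sum]
      refine Finset.sum_eq_zero fun γ _ => ?_
      rw [map_smul]
      by_cases hβ : Q β
      · by_cases hγ : Q γ
        · rw [R.br_tp β γ (h1 β γ hβ hγ), smul_zero]
        · rw [hb.2 γ hγ, mul_zero, zero_smul]
      · rw [ha.2 β hβ, zero_mul, zero_smul]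
    · intro δ hδ
      change R.cf δ ⁅a.1, b.1⁆ = 0
      rw [e, map_sum]
      refine Finset.sum_eq_zero fun β _ => ?_
      rw [map_sum]
      refine Finset.sum_eq_zero fun γ _ => ?_
      rw [map_smul]
      by_cases hβ : Q β
      · by_cases hγ : Q γ
        · have : R.cf δ ⁅R.e β, R.e γ⁆ = 0 := by
            by_contra h
            exact hδ (h2 β γ δ hβ hγ (R.br_cf β γ δ h))
          rw [this, smul_zero]
        · rw [hb.2 γ hγ, mul_zero, zero_smul]
      · rw [ha.2 β hβ, zero_mul, zero_smul]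

/-- the positive part -/
def Npos : LieSubalgebra k L :=
  Nil R (C1.Pos R.toComb) (fun β γ hβ hγ h => C1.not_pos_neg R.toComb hβ (h ▸ hγ))
    fun β γ δ hβ hγ h i hi => by rw [h i hi]; exact add_nonneg (hβ i hi) (hγ i hi)

/-- the negative part -/
def Nneg : LieSubalgebra k L :=
  Nil R (fun β => C1.Pos R.toComb (R.neg β))
    (fun β γ hβ hγ h => C1.not_pos_neg R.toComb hβ (h ▸ hγ))
    fun β γ δ hβ hγ h i hi => by
      have h1 := hβ i hi
      have h2 := hγ i hi
      rw [R.co_neg _ i hi] at h1 h2 ⊢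
      rw [h i hi]; omega

theorem det_ne [DecidableEq Φ] (C : Comb Φ) :
    (Matrix.of fun i j : C.Δ => C.m i j).det ≠ 0 := by
  intro h
  obtain ⟨v, hv, h0⟩ := Matrix.exists_mulVec_eq_zero_iff.2 h
  apply hv
  funext i
  have := C1.cartan_inj C (fun a => if h : a ∈ C.Δ then v ⟨a, h⟩ else 0) (fun i hi => by
    have h1 := congrFun h0 ⟨i, hi⟩
    unfold C1.mv
    rw [← Finset.sum_coe_sort]
    refine Eq.trans (Finset.sum_congr rfl fun j _ => ?_) h1
    simp [mul_comm]) i.1 i.2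
  simpa using this

/-- the simple root vectors and their opposites generate -/
theorem le_of_simple (hs : LieAlgebra.IsSimple k L)
    (hstr : ∀ a ∈ R.Δ, ∀ κ κ' (j : ℤ), κ ≠ a → κ ≠ R.neg a →
      (∀ i ∈ R.Δ, R.co κ' i = R.co κ i + j * R.co a i) → |j| < p)
    (M : LieSubalgebra k (Matrix n n k)) (h1 : ∀ i ∈ R.Δ, R.e i ∈ M)
    (h2 : ∀ i ∈ R.Δ, R.e (R.neg i) ∈ M) : L ≤ M := by
  have H := C1.pos_ind R.toComb (fun b => R.e b ∈ M ∧ R.e (R.neg b) ∈ M)
    (fun i hi => ⟨h1 i hi, h2 i hi⟩) (fun i hi b hb hbi _ h => by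
      have hn : b ≠ R.neg i := fun e =>
        C1.not_pos_neg R.toComb (C1.pos_simple R.toComb hi) (e ▸ hb)
      refine ⟨R.gen i b hbi hn (hstr i hi) M (h1 i hi) (h2 i hi) h.1, ?_⟩
      rw [← C1.s_neg]
      refine R.gen i (R.neg b) (fun e => hn ?_) (fun e => hbi ?_) (hstr i hi) M (h1 i hi)
        (h2 i hi) h.2
      · rw [← e, C1.neg_neg]
      · rw [← C1.neg_neg R.toComb b, e, C1.neg_neg])
  refine L0.le_of_e R hs M fun β => ?_
  rcases C1.pos_or R.toComb β with h | h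
  · exact (H β h).1
  · have := (H _ h).2
    rwa [C1.neg_neg] at this

end DG

open DG in
/-- DIAG: a finite set of minuscule weights with a nonzero trace form -/
theorem diag [CharP k p] (hs : LieAlgebra.IsSimple k L)
    (hstr : ∀ a ∈ R.Δ, ∀ κ κ' (j : ℤ), κ ≠ a → κ ≠ R.neg a →
      (∀ i ∈ R.Δ, R.co κ' i = R.co κ i + j * R.co a i) → |j| < p)
    (hrow : ∀ i ∈ R.Δ, ∃ b : Φ, ¬ (p : ℤ) ∣ R.m i b)
    {X : Type*} [Fintype X] (w : X → Φ → ℤ)
    (hval : ∀ x, ∀ i ∈ R.Δ, w x i = 0 ∨ w x i = 1 ∨ w x i = -1)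
    (hcl : ∀ x, ∀ i ∈ R.Δ, ∃ y, ∀ j ∈ R.Δ, w y j = w x j - w x i * R.m j i)
    (hinj : ∀ x y, (∀ i ∈ R.Δ, w x i = w y i) → x = y)
    (htr : ∃ i ∈ R.Δ, ∃ j ∈ R.Δ, ¬ (p : ℤ) ∣ ∑ x, w x i * w x j) : HasRichardson k L := by
  classical
  obtain ⟨i0, hi0, j0, hj0, htr⟩ := htr
  choose r hr using hcl
  choose c hc using R.h_mem
  have hc0 : ∀ i ∈ R.Δ, c i ≠ 0 := by
    intro i hi h0
    obtain ⟨b, hb⟩ := hrow i hi
    have h1 := hc i
    rw [h0, zero_smul] at h1
    have h2 : R.h i = 0 := by rw [← R.tp_t (R.h i), h1, map_zero]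
    have h3 := L0.wt_h_simple R hs hi b
    rw [h2, map_zero] at h3
    exact hb ((CharP.intCast_eq_zero_iff k p _).1 h3.symm)
  let e : R.Δ → L := fun i => ⟨R.e i, R.e_mem _⟩
  let f : R.Δ → L := fun i => ⟨c i • R.e (R.neg i), L.smul_mem _ (R.e_mem _)⟩
  let h : R.Δ → L := fun i => ⟨diagonal (R.h i).1, R.t_mem _⟩
  have C : Chev (fun i j : R.Δ => R.m i j) e f h := by
    refine ⟨fun i j => Subtype.ext (L0.diag_lie R _ _), fun i j => Subtype.ext ?_,
      fun i j => Subtype.ext ?_, fun i j => Subtype.ext ?_⟩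
    · change ⁅diagonal (R.h i).1, R.e j⁆ = R.m i j • R.e j
      rw [R.lie_e, L0.wt_h_simple R hs i.2, Int.cast_smul_eq_zsmul]
    · change ⁅diagonal (R.h i).1, c j • R.e (R.neg j)⁆ = (- R.m i j) • c j • R.e (R.neg j)
      rw [lie_smul, R.lie_e, L0.wt_h_simple R hs i.2, C1.m_neg, smul_comm, Int.cast_smul_eq_zsmul]
    · change ⁅R.e i, c j • R.e (R.neg j)⁆ = _
      rw [lie_smul]
      split_ifs with hij
      · subst hij; exact (hc i).symm
      · have hij' : (i : Φ) ≠ j := fun e => hij (Subtype.ext e)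
        rw [L0.br_zero R (β := i) (γ := R.neg j) (fun e => hij' ?_) fun δ hδ => ?_, smul_zero]
        · rfl
        · rw [← C1.neg_neg R.toComb j, e, C1.neg_neg]
        · have a1 := hδ i i.2
          have a2 := hδ j j.2
          rw [R.co_neg _ _ i.2, R.self i i.2, R.ne j j.2 i i.2 hij'.symm] at a1
          rw [R.co_neg _ _ j.2, R.self j j.2, R.ne i i.2 j j.2 hij'] at a2
          rcases R.sign δ with g | g
          · have := g j j.2; omega
          · have := g i i.2; omega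
  have hgen : ∀ x, x ∈ Dd k e f := by
    intro x
    obtain ⟨z, hz, e1⟩ := le_of_simple R hs hstr ((Dd k e f).map L.incl)
      (fun i hi => ⟨e ⟨i, hi⟩, Np_le (mem_Np e _), rfl⟩)
      (fun i hi => ⟨(c i)⁻¹ • f ⟨i, hi⟩, (Dd k e f).smul_mem _ (Np_le' (mem_Np f _)), by
        change (c i)⁻¹ • c i • R.e (R.neg i) = _
        rw [smul_smul, inv_mul_cancel₀ (hc0 i hi), one_smul]⟩) x.2
    have : z = x := Subtype.ext e1
    exact this ▸ hz
  have he : ∀ i, e i ∈ Npos R := fun i => ⟨R.tp_e _, fun β hβ =>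
    R.cf_ne _ _ fun e => hβ (e ▸ C1.pos_simple R.toComb i.2)⟩
  have hf : ∀ i, f i ∈ Nneg R := fun i => (Nneg R).smul_mem (c i)
    (show (⟨R.e (R.neg i), R.e_mem _⟩ : L) ∈ Nneg R from ⟨R.tp_e _, fun β hβ =>
      R.cf_ne _ _ fun e => hβ (by
        change C1.Pos R.toComb (R.neg β)
        rw [e, C1.neg_neg]; exact C1.pos_simple R.toComb i.2)⟩)
  have hsum : ∀ t : R.Δ → k, (∑ i, t i • h i : L).1 = diagonal (∑ i, t i • R.h i : R.t).1 := by
    intro t
    ext a b
    simp [h, Matrix.sum_apply, diagonal_apply]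
  have hli : LinearIndependent k fun i : R.Δ => R.h i := by
    refine linearIndependent_of_top_le_span_of_card_eq_finrank (fun d _ => ?_)
      (by rw [L0.finrank_t R hs]; simp)
    obtain ⟨a, ha, y, hy, b, hb, e1⟩ := mem_Tri.1 (C.Dd_Tri (hgen ⟨diagonal d.1, R.t_mem d⟩))
    obtain ⟨t, rfl⟩ := (Submodule.mem_span_range_iff_exists_fun k).1 hy
    have a1 := (map_Np LieHom.id (Npos R) he ha).1
    have a2 := (map_Np LieHom.id (Nneg R) hf hb).1
    have e2 : diagonal d.1 = a.1 + (∑ i, t i • h i : L).1 + b.1 := congrArg Subtype.val e1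
    have e3 := congrArg R.tp e2
    rw [R.tp_t, map_add, map_add, hsum, R.tp_t] at e3
    refine (Submodule.mem_span_range_iff_exists_fun k).2 ⟨t, ?_⟩
    rw [e3]
    rw [show R.tp a.1 = 0 from a1, show R.tp b.1 = 0 from a2, zero_add, add_zero]
  have := hs
  refine core C hgen (Npos R) (Nneg R) he hf (fun a ha b hb t h0 => ?_) (det_ne R.toComb)
    (w := fun x (i : R.Δ) => w x i) (r := fun i x => r x i i.2)
    ⟨fun i => R.two i, fun i j hij => C1.m_simple_le R.toComb i.2 j.2 fun e => hij (Subtype.ext e),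
      fun i j => C1.m_zero_symm R.toComb, fun x i => hval x i i.2, fun i x j => hr x i i.2 j j.2,
      fun x y hxy => hinj x y fun i hi => hxy ⟨i, hi⟩⟩ ⟨i0, hi0⟩ ⟨j0, hj0⟩
    fun h0 => htr ((CharP.intCast_eq_zero_iff k p _).1 h0)
  have e2 : a.1 + (∑ i, t i • h i : L).1 + b.1 = 0 := congrArg Subtype.val h0
  rw [hsum] at e2
  have e3 := congrArg R.tp e2
  rw [map_add, map_add, ha.1, hb.1, R.tp_t, zero_add, add_zero, map_zero] at e3
  have e4 : ∀ β, R.cf β a.1 + R.cf β b.1 = 0 := fun β => by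
    have := congrArg (R.cf β) e2
    rwa [map_add, map_add, R.cf_t, add_zero, map_zero] at this
  refine ⟨Subtype.ext (L0.eq_zero R a.2 ha.1 fun β => ?_),
    funext (Fintype.linearIndependent_iff.1 hli t e3),
    Subtype.ext (L0.eq_zero R b.2 hb.1 fun β => ?_)⟩
  · by_cases hβ : C1.Pos R.toComb β
    · have := e4 β
      rwa [hb.2 β (C1.not_pos_neg R.toComb hβ), add_zero] at this
    · exact ha.2 β hβ
  · by_cases hβ : C1.Pos R.toComb β
    · exact hb.2 β (C1.not_pos_neg R.toComb hβ)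
    · have := e4 β
      rwa [ha.2 β hβ, zero_add] at this

end Pool.Agent.Lib.MP_3a0263_al.Q
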