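import Pool.Agent.Lib.MP_3a0263_al.Q.T_RICH

namespace Pool.Agent.Lib.MP_3a0263_al.Q.DG

open Pool.Agent.Lib.MP_3a0263_al.R

attribute [local instance 100] LieRing.ofAssociativeRing

universe u

variable {k : Type u} [Field k] {ι : Type*} [DecidableEq ι]

/-- Chevalley relations -/
structure Chev {P : Type*} [LieRing P] (A : ι → ι → ℤ) (e f h : ι → P) : Prop where
  hh : ∀ i j, ⁅h i, h j⁆ = 0
  he : ∀ i j, ⁅h i, e j⁆ = A i j • e j
  hf : ∀ i j, ⁅h i, f j⁆ = (- A i j) • f j
  ef : ∀ i j, ⁅e i, f j⁆ = if i = j then h i else 0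

section general

variable {P : Type*} [LieRing P] [LieAlgebra k P] {A : ι → ι → ℤ} {e f h : ι → P}

theorem Chev.symm (c : Chev A e f h) : Chev A f e (fun i => - h i) where
  hh i j := by simp [c.hh]
  he i j := by rw [neg_lie, c.hf]; simp
  hf i j := by rw [neg_lie, c.he]; simp
  ef i j := by
    rw [← lie_skew, c.ef]
    by_cases hij : i = j
    · subst hij; simp
    · simp [hij, Ne.symm hij]

/-- a submodule stable under the generators is stable under the generated subalgebra -/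
theorem stab (T : Submodule k P) (s : Set P) (hs : ∀ z ∈ s, ∀ x ∈ T, ⁅z, x⁆ ∈ T) {z : P}
    (hz : z ∈ LieSubalgebra.lieSpan k P s) : ∀ x ∈ T, ⁅z, x⁆ ∈ T := by
  induction hz using LieSubalgebra.lieSpan_induction with
  | mem z hz => exact hs z hz
  | zero => intro x _; simp
  | add a b _ _ ha hb => intro x hx; rw [add_lie]; exact T.add_mem (ha x hx) (hb x hx)
  | smul c a _ ha => intro x hx; rw [smul_lie]; exact T.smul_mem c (ha x hx)
  | lie a b _ _ ha hb =>
    intro x hx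
    rw [lie_lie]
    exact T.sub_mem (ha _ (hb x hx)) (hb _ (ha x hx))

variable (k) in
/-- the subalgebra generated by a family -/
def Np (e : ι → P) : LieSubalgebra k P := LieSubalgebra.lieSpan k P (Set.range e)

variable (k) in
/-- the span of a family -/
def Hs (h : ι → P) : Submodule k P := Submodule.span k (Set.range h)

omit [DecidableEq ι] in
theorem mem_Np (e : ι → P) (i : ι) : e i ∈ Np k e :=
  LieSubalgebra.subset_lieSpan ⟨i, rfl⟩

omit [DecidableEq ι] in
theorem mem_Hs (h : ι → P) (i : ι) : h i ∈ Hs k h := Submodule.subset_span ⟨i, rfl⟩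

omit [DecidableEq ι] in
theorem Hs_neg (h : ι → P) : Hs k (fun i => - h i) = Hs k h := by
  apply le_antisymm
  · refine Submodule.span_le.2 ?_
    rintro _ ⟨i, rfl⟩
    exact (Hs k h).neg_mem (mem_Hs h i)
  · refine Submodule.span_le.2 ?_
    rintro _ ⟨i, rfl⟩
    have := (Hs k (fun i => - h i)).neg_mem (mem_Hs (k := k) (fun i => - h i) i)
    simpa using this

theorem Chev.h_Np (c : Chev A e f h) (i : ι) {x : P} (hx : x ∈ Np k e) : ⁅h i, x⁆ ∈ Np k e := by
  induction hx using LieSubalgebra.lieSpan_induction with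
  | mem z hz =>
    obtain ⟨j, rfl⟩ := hz
    rw [c.he]
    exact (Np k e).toSubmodule.smul_of_tower_mem _ (mem_Np e j)
  | zero => simp
  | add a b _ _ ha hb => rw [lie_add]; exact (Np k e).add_mem ha hb
  | smul r a _ ha => rw [lie_smul]; exact (Np k e).smul_mem r ha
  | lie a b h1 h2 ha hb =>
    rw [leibniz_lie]
    exact (Np k e).add_mem ((Np k e).lie_mem ha h2) ((Np k e).lie_mem h1 hb)

theorem Chev.Hs_Np (c : Chev A e f h) {y : P} (hy : y ∈ Hs k h) {x : P} (hx : x ∈ Np k e) :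
    ⁅y, x⁆ ∈ Np k e := by
  induction hy using Submodule.span_induction with
  | mem z hz => obtain ⟨j, rfl⟩ := hz; exact c.h_Np j hx
  | zero => simp
  | add a b _ _ ha hb => rw [add_lie]; exact (Np k e).add_mem ha hb
  | smul r a _ ha => rw [smul_lie]; exact (Np k e).smul_mem r ha

theorem Chev.f_Np (c : Chev A e f h) (i : ι) {x : P} (hx : x ∈ Np k e) :
    ∃ a ∈ Np k e, ∃ y ∈ Hs k h, ⁅f i, x⁆ = a + y := by
  induction hx using LieSubalgebra.lieSpan_induction with
  | mem z hz =>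
    obtain ⟨j, rfl⟩ := hz
    refine ⟨0, (Np k e).zero_mem, ⁅f i, e j⁆, ?_, by simp⟩
    rw [← lie_skew, c.ef]
    split_ifs
    · exact (Hs k h).neg_mem (mem_Hs h j)
    · simp
  | zero => exact ⟨0, (Np k e).zero_mem, 0, (Hs k h).zero_mem, by simp⟩
  | add a b _ _ ha hb =>
    obtain ⟨a1, h1, y1, g1, e1⟩ := ha
    obtain ⟨a2, h2, y2, g2, e2⟩ := hb
    refine ⟨a1 + a2, (Np k e).add_mem h1 h2, y1 + y2, (Hs k h).add_mem g1 g2, ?_⟩
    rw [lie_add, e1, e2]; abel
  | smul r a _ ha =>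
    obtain ⟨a1, h1, y1, g1, e1⟩ := ha
    refine ⟨r • a1, (Np k e).smul_mem r h1, r • y1, (Hs k h).smul_mem r g1, ?_⟩
    rw [lie_smul, e1, smul_add]
  | lie a b h1 h2 ha hb =>
    obtain ⟨a1, k1, y1, g1, e1⟩ := ha
    obtain ⟨a2, k2, y2, g2, e2⟩ := hb
    refine ⟨⁅f i, ⁅a, b⁆⁆, ?_, 0, (Hs k h).zero_mem, by simp⟩
    rw [leibniz_lie, e1, e2, add_lie, lie_add, ← lie_skew a y2]
    exact (Np k e).add_mem ((Np k e).add_mem ((Np k e).lie_mem k1 h2) (c.Hs_Np g1 h2))
      ((Np k e).add_mem ((Np k e).lie_mem h1 k2) ((Np k e).neg_mem (c.Hs_Np g2 h1)))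

variable (k) in
/-- the sum of the three parts -/
def Tri (e f h : ι → P) : Submodule k P :=
  (Np k e).toSubmodule ⊔ Hs k h ⊔ (Np k f).toSubmodule

omit [DecidableEq ι] in
theorem mem_Tri {x : P} : x ∈ Tri k e f h ↔
    ∃ a ∈ Np k e, ∃ y ∈ Hs k h, ∃ b ∈ Np k f, x = a + y + b := by
  simp only [Tri, Submodule.mem_sup]
  constructor
  · rintro ⟨_, ⟨a, ha, y, hy, rfl⟩, b, hb, rfl⟩
    exact ⟨a, ha, y, hy, b, hb, rfl⟩
  · rintro ⟨a, ha, y, hy, b, hb, rfl⟩
    exact ⟨_, ⟨a, ha, y, hy, rfl⟩, b, hb, rfl⟩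

omit [DecidableEq ι] in
theorem Tri_symm : Tri k f e (fun i => - h i) = Tri k e f h := by
  ext x
  simp only [mem_Tri, Hs_neg]
  constructor
  · rintro ⟨a, ha, y, hy, b, hb, rfl⟩
    exact ⟨b, hb, y, hy, a, ha, by abel⟩
  · rintro ⟨a, ha, y, hy, b, hb, rfl⟩
    exact ⟨b, hb, y, hy, a, ha, by abel⟩

theorem Chev.f_Tri (c : Chev A e f h) (i : ι) {x : P} (hx : x ∈ Tri k e f h) :
    ⁅f i, x⁆ ∈ Tri k e f h := by
  obtain ⟨a, ha, y, hy, b, hb, rfl⟩ := mem_Tri.1 hx
  obtain ⟨a1, h1, y1, g1, e1⟩ := c.f_Np i ha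
  have h2 : ⁅y, f i⁆ ∈ Np k f := c.symm.Hs_Np (by rwa [Hs_neg]) (mem_Np f i)
  refine mem_Tri.2 ⟨a1, h1, y1, g1, -⁅y, f i⁆ + ⁅f i, b⁆,
    (Np k f).add_mem ((Np k f).neg_mem h2) ((Np k f).lie_mem (mem_Np f i) hb), ?_⟩
  rw [lie_add, lie_add, e1, lie_skew]; abel

theorem Chev.e_Tri (c : Chev A e f h) (i : ι) {x : P} (hx : x ∈ Tri k e f h) :
    ⁅e i, x⁆ ∈ Tri k e f h := by
  rw [← Tri_symm] at hx ⊢
  exact c.symm.f_Tri i hx

variable (k) in
/-- the subalgebra generated by both families -/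
def Dd (e f : ι → P) : LieSubalgebra k P := LieSubalgebra.lieSpan k P (Set.range e ∪ Set.range f)

omit [DecidableEq ι] in
theorem Dd_symm : Dd k f e = Dd k e f := by rw [Dd, Dd, Set.union_comm]

omit [DecidableEq ι] in
theorem Np_le : Np k e ≤ Dd k e f := LieSubalgebra.lieSpan_mono Set.subset_union_left

omit [DecidableEq ι] in
theorem Np_le' : Np k f ≤ Dd k e f := LieSubalgebra.lieSpan_mono Set.subset_union_right

theorem Chev.h_mem (c : Chev A e f h) (i : ι) : h i ∈ Dd k e f := by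
  have := (Dd k e f).lie_mem (Np_le (mem_Np e i)) (Np_le' (mem_Np f i))
  rwa [c.ef, if_pos rfl] at this

theorem Chev.Dd_Tri (c : Chev A e f h) {x : P} (hx : x ∈ Dd k e f) : x ∈ Tri k e f h := by
  have st : ∀ z ∈ Dd k e f, ∀ x ∈ Tri k e f h, ⁅z, x⁆ ∈ Tri k e f h := by
    intro z hz
    refine stab _ _ ?_ hz
    rintro z (⟨i, rfl⟩ | ⟨i, rfl⟩) x hx
    · exact c.e_Tri i hx
    · exact c.f_Tri i hx
  induction hx using LieSubalgebra.lieSpan_induction with
  | mem z hz =>
    rcases hz with ⟨i, rfl⟩ | ⟨i, rfl⟩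
    · exact mem_Tri.2 ⟨e i, mem_Np e i, 0, (Hs k h).zero_mem, 0, (Np k f).zero_mem, by simp⟩
    · exact mem_Tri.2 ⟨0, (Np k e).zero_mem, 0, (Hs k h).zero_mem, f i, mem_Np f i, by simp⟩
  | zero => exact (Tri k e f h).zero_mem
  | add a b _ _ ha hb => exact (Tri k e f h).add_mem ha hb
  | smul r a _ ha => exact (Tri k e f h).smul_mem r ha
  | lie a b h1 _ _ hb => exact st a h1 b hb

variable {L : Type*} [LieRing L] [LieAlgebra k L]

/-- triangular independence of the images -/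
def Ind (π : P →ₗ⁅k⁆ L) (e f h : ι → P) : Prop :=
  ∀ a ∈ Np k e, ∀ y ∈ Hs k h, ∀ b ∈ Np k f, π (a + y + b) = 0 → π a = 0 ∧ y = 0 ∧ π b = 0

omit [DecidableEq ι] in
theorem Ind.symm {π : P →ₗ⁅k⁆ L} (hi : Ind π e f h) : Ind π f e (fun i => - h i) := by
  intro a ha y hy b hb h0
  rw [Hs_neg] at hy
  obtain ⟨h1, h2, h3⟩ := hi b hb y hy a ha (by rw [← h0]; congr 1; abel)
  exact ⟨h3, h2, h1⟩

/-- the positive part of the kernel is stable under the whole algebra -/
theorem Chev.ker_stab (c : Chev A e f h) {π : P →ₗ⁅k⁆ L} (hi : Ind π e f h) {z : P}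
    (hz : z ∈ Dd k e f) {x : P} (hx : x ∈ Np k e) (h0 : π x = 0) :
    ⁅z, x⁆ ∈ Np k e ∧ π ⁅z, x⁆ = 0 := by
  have := stab ((Np k e).toSubmodule ⊓ LinearMap.ker (π : P →ₗ[k] L)) _ ?_ hz x ⟨hx, h0⟩
  · exact this
  rintro z (⟨i, rfl⟩ | ⟨i, rfl⟩) x ⟨hx, h0⟩
  · refine ⟨(Np k e).lie_mem (mem_Np e i) hx, ?_⟩
    have h0' : π x = 0 := h0
    change π ⁅e i, x⁆ = 0
    rw [LieHom.map_lie, h0', lie_zero]
  · have h0' : π x = 0 := h0
    have h1 : π ⁅f i, x⁆ = 0 := by rw [LieHom.map_lie, h0', lie_zero]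
    refine ⟨?_, h1⟩
    obtain ⟨a, ha, y, hy, e1⟩ := c.f_Np i hx
    have h2 := (hi a ha y hy 0 (Np k f).zero_mem (by rw [add_zero, ← e1, h1])).2.1
    change ⁅f i, x⁆ ∈ Np k e
    rw [e1, h2, add_zero]
    exact ha

/-- the positive part of the kernel as an ideal -/
def Jp (c : Chev A e f h) {π : P →ₗ⁅k⁆ L} (hi : Ind π e f h) (D : LieSubalgebra k P)
    (hD : D = Dd k e f) : LieIdeal k D where
  carrier := {x | x.1 ∈ Np k e ∧ π x.1 = 0}
  zero_mem' := ⟨(Np k e).zero_mem, by simp⟩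
  add_mem' := fun {a b} ha hb => ⟨(Np k e).add_mem ha.1 hb.1, by
    change π (a.1 + b.1) = 0
    rw [map_add, ha.2, hb.2, add_zero]⟩
  smul_mem' := fun r a ha => ⟨(Np k e).smul_mem r ha.1, by
    change π (r • a.1) = 0
    rw [map_smul, ha.2, smul_zero]⟩
  lie_mem := fun {z x} hx => c.ker_stab hi (hD ▸ z.2) hx.1 hx.2

end general

section minuscule

/-- a finite set of minuscule weights, stable under the simple reflections -/
structure Minu {X : Type*} (A : ι → ι → ℤ) (w : X → ι → ℤ) (r : ι → X → X) : Prop where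
  two : ∀ i, A i i = 2
  le : ∀ i j, i ≠ j → A i j ≤ 0
  symm : ∀ i j, A i j = 0 → A j i = 0
  val : ∀ x i, w x i = 0 ∨ w x i = 1 ∨ w x i = -1
  refl : ∀ i x j, w (r i x) j = w x j - w x i * A j i
  inj : ∀ x y, (∀ i, w x i = w y i) → x = y

variable {X : Type*} {A : ι → ι → ℤ} {w : X → ι → ℤ} {r : ι → X → X}

variable (k) in
/-- raising (`a = 1`) and lowering (`a = -1`) operators -/
def opE (w : X → ι → ℤ) (r : ι → X → X) (a : ℤ) (i : ι) : Module.End k (X → k) where
  toFun v x := if w x i = a then v (r i x) else 0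
  map_add' v v' := by ext x; simp only [Pi.add_apply]; split_ifs <;> simp
  map_smul' c v := by ext x; simp only [Pi.smul_apply, RingHom.id_apply]; split_ifs <;> simp

variable (k) in
/-- the diagonal operators -/
def opH (w : X → ι → ℤ) (i : ι) : Module.End k (X → k) where
  toFun v x := (w x i : k) * v x
  map_add' v v' := by ext x; simp [mul_add]
  map_smul' c v := by ext x; simp [mul_left_comm]

omit [DecidableEq ι] in
theorem opE_apply (a : ℤ) (i : ι) (v : X → k) (x : X) :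
    opE k w r a i v x = if w x i = a then v (r i x) else 0 := rfl

omit [DecidableEq ι] in
theorem opH_apply (i : ι) (v : X → k) (x : X) : opH k w i v x = (w x i : k) * v x := rfl

omit [DecidableEq ι] in
theorem Minu.rr (M : Minu A w r) (i : ι) (x : X) : r i (r i x) = x :=
  M.inj _ _ fun j => by rw [M.refl, M.refl, M.refl, M.two]; ring

omit [DecidableEq ι] in
theorem Minu.hE (M : Minu A w r) (a : ℤ) (i j : ι) :
    ⁅opH k w i, opE k w r a j⁆ = (a * A i j) • opE k w r a j := by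
  ext1 v
  funext x
  simp only [LieRing.of_associative_ring_bracket, LinearMap.sub_apply, Module.End.mul_apply,
    Pi.sub_apply, opE_apply, opH_apply, LinearMap.smul_apply, Pi.smul_apply]
  rw [zsmul_eq_mul]
  split_ifs with h
  · rw [M.refl, h]; push_cast; ring
  · simp

theorem Minu.chev (M : Minu A w r) : Chev A (opE k w r 1) (opE k w r (-1)) (opH k w) where
  hh i j := by
    ext1 v
    funext x
    simp only [LieRing.of_associative_ring_bracket, LinearMap.sub_apply, Module.End.mul_apply,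
      Pi.sub_apply, opH_apply, LinearMap.zero_apply, Pi.zero_apply]
    ring
  he i j := by rw [M.hE, one_mul]
  hf i j := by rw [M.hE, neg_one_mul]
  ef i j := by
    ext1 v
    funext x
    simp only [LieRing.of_associative_ring_bracket, LinearMap.sub_apply, Module.End.mul_apply,
      Pi.sub_apply, opE_apply]
    by_cases hij : i = j
    · subst hij
      rw [if_pos rfl, opH_apply, M.rr, M.refl, M.two]
      rcases M.val x i with h | h | h <;> simp [h]
    · rw [if_neg hij, M.refl, M.refl]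
      have h1 := M.le i j hij
      have h2 := M.le j i (Ne.symm hij)
      by_cases h0 : A i j = 0
      · have h0' := M.symm i j h0
        have e : r j (r i x) = r i (r j x) := M.inj _ _ fun l => by
          simp only [M.refl, h0, h0']; ring
        simp only [h0, h0', mul_zero, sub_zero, e, LinearMap.zero_apply, Pi.zero_apply]
        split_ifs <;> simp
      · have h0' : A j i ≠ 0 := fun h => h0 (M.symm j i h)
        have a1 : w x i = 1 → ¬ w x j - w x i * A j i = -1 := by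
          intro h; rw [h]; rcases M.val x j with g | g | g <;> omega
        have a2 : w x j = -1 → ¬ w x i - w x j * A i j = 1 := by
          intro h; rw [h]; rcases M.val x i with g | g | g <;> omega
        simp only [LinearMap.zero_apply, Pi.zero_apply]
        by_cases b1 : w x i = 1 <;> by_cases b2 : w x j = -1 <;> simp [b1, b2] <;> simp_all

variable (k) in
/-- operators that strictly raise a height function -/
def Up (ht : X → ℤ) : LieSubalgebra k (Module.End k (X → k)) where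
  carrier := {T | ∀ (a : ℤ) (v : X → k), (∀ x, ht x < a → v x = 0) →
    ∀ x, ht x < a + 1 → T v x = 0}
  zero_mem' := fun _ _ _ _ _ => rfl
  add_mem' := fun {S T} hS hT a v hv x hx => by
    rw [LinearMap.add_apply, Pi.add_apply, hS a v hv x hx, hT a v hv x hx, add_zero]
  smul_mem' := fun c T hT a v hv x hx => by
    rw [LinearMap.smul_apply, Pi.smul_apply, hT a v hv x hx, smul_zero]
  lie_mem' := fun {S T} hS hT a v hv x hx => by
    simp only [LieRing.of_associative_ring_bracket, LinearMap.sub_apply, Module.End.mul_apply,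
      Pi.sub_apply]
    rw [hS (a + 1) _ (hT a v hv) x (by omega), hT (a + 1) _ (hS a v hv) x (by omega), sub_zero]

theorem Up_nil [Finite X] {ht : X → ℤ} {T : Module.End k (X → k)} (hT : T ∈ Up k ht) :
    IsNilpotent T := by
  obtain ⟨a, ha⟩ := (Set.finite_range ht).bddBelow
  obtain ⟨b, hb⟩ := (Set.finite_range ht).bddAbove
  have key : ∀ n : ℕ, ∀ v x, ht x < a + n → (T ^ n) v x = 0 := by
    intro n
    induction n with
    | zero => intro v x hx; have := ha ⟨x, rfl⟩; omega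
    | succ n ih =>
      intro v x hx
      rw [pow_succ', Module.End.mul_apply]
      exact hT (a + n) _ (ih v) x (by push_cast at hx; omega)
  refine ⟨(b - a + 1).toNat, ?_⟩
  ext1 v
  funext x
  have := hb ⟨x, rfl⟩
  exact key _ v x (by omega)

omit [DecidableEq ι] in
theorem Minu.opE_Up [Fintype ι] (M : Minu A w r) {c : ι → ℤ} (hc : ∀ i, 0 < ∑ j, c j * A j i)
    {a : ℤ} (ha : a = 1 ∨ a = -1) (i : ι) :
    opE k w r a i ∈ Up k (fun x => a * ∑ j, c j * w x j) := by
  intro b v hv x hx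
  rw [opE_apply]
  split_ifs with h
  · refine hv _ ?_
    have e : ∑ j, c j * w (r i x) j = ∑ j, c j * w x j - a * ∑ j, c j * A j i := by
      rw [Finset.mul_sum, ← Finset.sum_sub_distrib]
      exact Finset.sum_congr rfl fun j _ => by rw [M.refl, h]; ring
    have := hc i
    simp only [e] at hx ⊢
    rcases ha with rfl | rfl <;> omega
  · rfl

theorem exists_height [Fintype ι] (hdet : (Matrix.of A).det ≠ 0) :
    ∃ c : ι → ℤ, ∀ i, 0 < ∑ j, c j * A j i := by
  refine ⟨(Matrix.of A).det • Matrix.vecMul 1 (Matrix.of A).adjugate, fun i => ?_⟩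
  have h : Matrix.vecMul ((Matrix.of A).det • Matrix.vecMul 1 (Matrix.of A).adjugate)
      (Matrix.of A) i = (Matrix.of A).det * (Matrix.of A).det := by
    rw [Matrix.smul_vecMul, Matrix.vecMul_vecMul, Matrix.adjugate_mul, Matrix.vecMul_smul,
      Matrix.vecMul_one]
    simp
  have h2 := mul_self_pos.2 hdet
  rw [← h] at h2
  exact h2

end minuscule

theorem Chev.prod {P Q : Type*} [LieRing P] [LieRing Q] {A : ι → ι → ℤ} {e f h : ι → P}
    {e' f' h' : ι → Q} (c : Chev A e f h) (c' : Chev A e' f' h') :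
    Chev A (fun i => (e i, e' i)) (fun i => (f i, f' i)) (fun i => (h i, h' i)) where
  hh i j := by simp [c.hh, c'.hh]
  he i j := by simp [c.he, c'.he]
  hf i j := by simp [c.hf, c'.hf]
  ef i j := by
    simp only [LieAlgebra.Prod.bracket_apply, c.ef, c'.ef]
    split_ifs <;> rfl

omit [DecidableEq ι] in
theorem map_Np {P Q : Type*} [LieRing P] [LieAlgebra k P] [LieRing Q] [LieAlgebra k Q]
    (π : P →ₗ⁅k⁆ Q) {e : ι → P} (N : LieSubalgebra k Q) (he : ∀ i, π (e i) ∈ N) {x : P}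
    (hx : x ∈ Np k e) : π x ∈ N := by
  have : Np k e ≤ N.comap π := LieSubalgebra.lieSpan_le.2 (by rintro _ ⟨i, rfl⟩; exact he i)
  exact this hx

/-- the abstract form of DIAG -/
theorem core {L : Type u} [LieRing L] [LieAlgebra k L] [LieAlgebra.IsSimple k L] [Fintype ι]
    {A : ι → ι → ℤ} {e f h : ι → L} (c : Chev A e f h) (hgen : ∀ x, x ∈ Dd k e f)
    (N₁ N₂ : LieSubalgebra k L) (he : ∀ i, e i ∈ N₁) (hf : ∀ i, f i ∈ N₂)
    (hind : ∀ a ∈ N₁, ∀ b ∈ N₂, ∀ t : ι → k, a + ∑ i, t i • h i + b = 0 → a = 0 ∧ t = 0 ∧ b = 0)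
    (hdet : (Matrix.of A).det ≠ 0)
    {X : Type*} [Fintype X] {w : X → ι → ℤ} {r : ι → X → X} (M : Minu A w r) (i j : ι)
    (htr : ((∑ x, w x i * w x j : ℤ) : k) ≠ 0) : HasRichardson k L := by
  classical
  obtain ⟨ch, hch⟩ := exists_height hdet
  have C := c.prod (M.chev (k := k))
  set E : ι → L × Module.End k (X → k) := fun i => (e i, opE k w r 1 i) with hE
  set F : ι → L × Module.End k (X → k) := fun i => (f i, opE k w r (-1) i) with hF
  set H : ι → L × Module.End k (X → k) := fun i => (h i, opH k w i) with hH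
  let π := LieHom.fst k L (Module.End k (X → k))
  let σ := LieHom.snd k L (Module.End k (X → k))
  have hi : Ind π E F H := by
    intro a ha y hy b hb h0
    obtain ⟨t, rfl⟩ := (Submodule.mem_span_range_iff_exists_fun k).1 hy
    have h1 : π (∑ i, t i • H i) = ∑ i, t i • h i := by
      rw [map_sum]; exact Finset.sum_congr rfl fun i _ => rfl
    rw [map_add, map_add, h1] at h0
    obtain ⟨g1, g2, g3⟩ := hind _ (map_Np π N₁ he ha) _ (map_Np π N₂ hf hb) t h0
    exact ⟨g1, by simp [g2], g3⟩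
  let D := Dd k E F
  let ρ : D →ₗ⁅k⁆ Matrix X X k :=
    (LinearMap.toMatrixAlgEquiv' (R := k) (n := X)).toAlgHom.toLieHom.comp (σ.comp D.incl)
  have hρ : ∀ z : D, ρ z = LinearMap.toMatrixAlgEquiv' z.1.2 := fun z => rfl
  refine subq_matrix (π.comp D.incl) ?_ (Jp C hi D rfl) (Jp C.symm hi.symm D Dd_symm.symm) ?_ ρ
    ?_ ?_ ⟨H i, C.h_mem i⟩ ⟨H j, C.h_mem j⟩ ?_
  · intro x
    have : Dd k e f ≤ D.map π := LieSubalgebra.lieSpan_le.2 (by
      rintro _ (⟨i, rfl⟩ | ⟨i, rfl⟩)
      · exact ⟨E i, Np_le (mem_Np E i), rfl⟩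
      · exact ⟨F i, Np_le' (mem_Np F i), rfl⟩)
    obtain ⟨z, hz, rfl⟩ := this (hgen x)
    exact ⟨⟨z, hz⟩, rfl⟩
  · intro d hd
    obtain ⟨a, ha, y, hy, b, hb, e1⟩ := mem_Tri.1 (C.Dd_Tri d.2)
    obtain ⟨g1, g2, g3⟩ := hi a ha y hy b hb (by rw [← e1]; exact hd)
    refine ⟨⟨a, Np_le ha⟩, ⟨ha, g1⟩, ⟨b, Np_le' hb⟩, ⟨hb, g3⟩, Subtype.ext ?_⟩
    change d.1 = a + b
    rw [e1, g2, add_zero]
  · intro z hz
    rw [hρ]
    exact (Up_nil (map_Np σ _ (fun i => M.opE_Up hch (Or.inl rfl) i) hz.1)).map _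
  · intro z hz
    rw [hρ]
    exact (Up_nil (map_Np σ _ (fun i => M.opE_Up hch (Or.inr rfl) i) hz.1)).map _
  · rw [hρ, hρ, ← map_mul]
    refine fun h0 => htr ?_
    rw [← h0, Matrix.trace]
    push_cast
    refine Finset.sum_congr rfl fun x _ => ?_
    rw [Matrix.diag_apply, LinearMap.toMatrixAlgEquiv'_apply]
    simp [hH, opH_apply]

end Pool.Agent.Lib.MP_3a0263_al.Q.DG
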