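import Pool.Agent.Lib.MP_3a0263_al.Q.T_C1

namespace Pool.Agent.Lib.MP_3a0263_al.Q.C1

open Finset

universe u

variable {Φ : Type u} [Fintype Φ] (C : Comb Φ)

/-- the highest root -/
def IsHigh (θ : Φ) : Prop := ∀ b, ∀ i ∈ C.Δ, C.co b i ≤ C.co θ i

/-- maximal roots -/
def IsMax (θ : Φ) : Prop := ∀ κ, (∀ i ∈ C.Δ, C.co θ i ≤ C.co κ i) → κ = θ

theorem m_nonneg_symm {a b : Φ} (h : 0 ≤ C.m a b) : 0 ≤ C.m b a := by
  by_contra hn
  exact absurd (m_neg_symm C (not_le.1 hn)) (not_lt.2 h)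

theorem dom_pos {b : Φ} (h : Dom C b) : Pos C b := by
  refine (pos_or C b).resolve_right fun h' => ?_
  obtain ⟨i, hi, -, hm⟩ := exists_m_pos C h'
  rw [m_neg] at hm
  have := h i hi
  omega

theorem dom_full (hc : Conn C) {b : Φ} (h : Dom C b) : ∀ i ∈ C.Δ, 0 < C.co b i := by
  have hp := dom_pos C h
  refine hc {i | 0 < C.co b i} ?_ fun i hi j hj hiD hjD => ?_
  · obtain ⟨i, hi, hne⟩ := co_ne C b
    exact ⟨i, hi, lt_of_le_of_ne (hp i hi) hne.symm⟩
  · have hj0 : C.co b j = 0 := le_antisymm (not_lt.1 hjD) (hp j hj)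
    have hle : ∀ l ∈ C.Δ, C.co b l * C.m j l ≤ 0 := by
      intro l hl
      by_cases e : j = l
      · rw [← e, hj0, zero_mul]
      · exact mul_nonpos_of_nonneg_of_nonpos (hp l hl) (m_simple_le C hj hl e)
    have h0 : ∑ l ∈ C.Δ, C.co b l * C.m j l = 0 :=
      le_antisymm (sum_nonpos hle) (by rw [← C.lin]; exact h j hj)
    have := (sum_eq_zero_iff_of_nonpos hle).1 h0 i hi
    have hiD' : 0 < C.co b i := hiD
    exact m_zero_symm C ((mul_eq_zero.1 this).resolve_left hiD'.ne')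

theorem m_dom_mono {b : Φ} (h : Dom C b) {x y : Φ} (hxy : ∀ i ∈ C.Δ, C.co x i ≤ C.co y i) :
    C.m b x ≤ C.m b y := by
  rw [C.lin b x, C.lin b y]
  exact sum_le_sum fun i hi =>
    mul_le_mul_of_nonneg_right (hxy i hi) (m_nonneg_symm C (h i hi))

theorem m_dom_nonneg {b c : Φ} (h : Dom C b) (hp : Pos C c) : 0 ≤ C.m b c := by
  rw [C.lin b c]
  exact sum_nonneg fun i hi => mul_nonneg (hp i hi) (m_nonneg_symm C (h i hi))

theorem m_dom_pos (hc : Conn C) {b c : Φ} (hb : Dom C b) (h : Dom C c) : 0 < C.m b c := by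
  obtain ⟨i, hi, -, hm⟩ := exists_m_pos C (dom_pos C hb)
  rw [C.lin b c]
  exact sum_pos' (fun j hj => mul_nonneg (dom_pos C h j hj) (m_nonneg_symm C (hb j hj)))
    ⟨i, hi, mul_pos (dom_full C hc h i hi) (m_pos_symm C hm)⟩

/-- two dominant roots of equal length coincide -/
theorem dom_eq (hc : Conn C) {b c : Φ} (hb : Dom C b) (h : Dom C c) (hd : d C b = d C c) :
    b = c := by
  by_contra hne
  have h1 := m_dom_pos C hc hb h
  have h2 : C.m b c = C.m c b := by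
    have := d_m_symm C b c
    rw [← hd] at this
    exact mul_left_cancel₀ (d_pos C b).ne' this
  have h3 : c ≠ C.neg b := fun e => not_pos_neg C (dom_pos C hb) (e ▸ dom_pos C h)
  have h4 := mm_le C (Ne.symm hne) h3
  have h5 : C.m b c = 1 := by
    rw [← h2] at h4
    nlinarith
  rcases pos_or C (C.s b c) with hp | hp
  · have := m_dom_nonneg C hb hp
    rw [m_s, C.two] at this
    omega
  · have := m_dom_nonneg C h hp
    rw [m_neg, m_s, C.two, ← h2, h5] at this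
    omega

theorem IsMax.dom {θ : Φ} (h : IsMax C θ) : Dom C θ := by
  intro i hi
  by_contra hn
  have hn' := not_le.1 hn
  have e := h (C.s i θ) fun j hj => by
    rw [C.refl i θ j hj]
    have := mul_nonneg (neg_nonneg.2 hn'.le) (pos_simple C hi j hj)
    linarith
  have := m_s C i i θ
  rw [e, C.two] at this
  omega

theorem IsMax.eq (hc : Conn C) {θ κ : Φ} (h : IsMax C θ) (h' : IsMax C κ) : θ = κ := by
  by_contra hne
  obtain ⟨c, hco⟩ := sub_root C (m_dom_pos C hc (h.dom C) (h'.dom C)) (Ne.symm hne)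
  rcases C.sign c with hp | hp
  · exact hne (h κ fun i hi => by have := hp i hi; rw [hco i hi] at this; linarith).symm
  · exact hne (h' θ fun i hi => by have := hp i hi; rw [hco i hi] at this; linarith)

theorem eq_of_le_of_ht {a b : Φ} (h : ∀ i ∈ C.Δ, C.co a i ≤ C.co b i) (h' : ht C b ≤ ht C a) :
    b = a :=
  C.inj _ _ fun i hi => ((sum_eq_sum_iff_of_le h).1 (le_antisymm (sum_le_sum h) h') i hi).symm

theorem exists_max (b : Φ) : ∃ κ, IsMax C κ ∧ ∀ i ∈ C.Δ, C.co b i ≤ C.co κ i := by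
  classical
  obtain ⟨κ, hκ, hmax⟩ := exists_max_image
    (univ.filter fun κ => ∀ i ∈ C.Δ, C.co b i ≤ C.co κ i) (ht C)
    ⟨b, mem_filter.2 ⟨mem_univ _, fun _ _ => le_rfl⟩⟩
  have hκ' := (mem_filter.1 hκ).2
  exact ⟨κ, fun κ' h => eq_of_le_of_ht C h
    (hmax κ' (mem_filter.2 ⟨mem_univ _, fun i hi => (hκ' i hi).trans (h i hi)⟩)), hκ'⟩

theorem IsMax.high (hc : Conn C) {θ : Φ} (h : IsMax C θ) : IsHigh C θ := by
  intro b
  obtain ⟨κ, hκ, hb⟩ := exists_max C b
  rw [h.eq C hc hκ]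
  exact hb

theorem exists_high (hc : Conn C) (b : Φ) : ∃ θ, IsHigh C θ := by
  obtain ⟨κ, hκ, -⟩ := exists_max C b
  exact ⟨κ, hκ.high C hc⟩

theorem IsHigh.max {θ : Φ} (h : IsHigh C θ) : IsMax C θ :=
  fun κ hκ => C.inj _ _ fun i hi => le_antisymm (h κ i hi) (hκ i hi)

theorem IsHigh.dom {θ : Φ} (h : IsHigh C θ) : Dom C θ := (h.max C).dom C

theorem IsHigh.pos {θ : Φ} (h : IsHigh C θ) : Pos C θ := dom_pos C (h.dom C)

theorem IsHigh.one_le {θ : Φ} (h : IsHigh C θ) {i : Φ} (hi : i ∈ C.Δ) : 1 ≤ C.co θ i := by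
  have := h i i hi
  rwa [C.self i hi] at this

theorem IsHigh.good {θ : Φ} (h : IsHigh C θ) {p : ℕ} (hg : C.Good p) {i : Φ} (hi : i ∈ C.Δ) :
    ¬ (p : ℤ) ∣ C.co θ i :=
  hg θ (h.pos C) (h.max C) i hi (by have := h.one_le C hi; omega)

theorem IsHigh.two {θ : Φ} : ∑ i ∈ C.Δ, C.co θ i * C.m θ i = 2 := by rw [← C.lin, C.two]

/-- every root is conjugate to a dominant one, as seen by any invariant -/
theorem exists_dom {T : Type*} (F : Φ → T) (hF : ∀ i ∈ C.Δ, ∀ b, F (C.s i b) = F b) (b : Φ) :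
    ∃ c, Dom C c ∧ F c = F b := by
  classical
  obtain ⟨c, hc, hmax⟩ := exists_max_image (univ.filter fun c => F c = F b) (ht C)
    ⟨b, mem_filter.2 ⟨mem_univ _, rfl⟩⟩
  have hc' := (mem_filter.1 hc).2
  refine ⟨c, fun i hi => ?_, hc'⟩
  have := hmax (C.s i c) (mem_filter.2 ⟨mem_univ _, by rw [hF i hi, hc']⟩)
  rw [ht_s, ht_simple C hi] at this
  linarith

theorem IsHigh.long {θ : Φ} (h : IsHigh C θ) (b : Φ) : d C b ≤ d C θ := by
  obtain ⟨c, hc, e⟩ := exists_dom C (d C) (fun i _ b => d_s C i b) b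
  have h1 := m_dom_mono C (h.dom C) (h c)
  have h2 := m_dom_mono C hc (h c)
  rw [C.two] at h1 h2
  have h3 := d_m_symm C θ c
  have := d_pos C θ
  have := d_pos C c
  rw [← e]
  nlinarith

theorem IsHigh.m_le {θ : Φ} (h : IsHigh C θ) {b : Φ} (hne : b ≠ θ) : C.m θ b ≤ 1 := by
  by_contra hn
  have h1 : 2 ≤ C.m θ b := by omega
  have h2 : b ≠ C.neg θ := by
    rintro rfl
    rw [m_neg, C.two] at h1
    omega
  have h3 := mm_le C hne h2
  have h4 := m_pos_symm C (a := θ) (b := b) (by omega)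
  have h5 := d_m_symm C θ b
  have h6 := h.long C b
  have h7 := d_pos C b
  have h8 : C.m b θ = 1 := by nlinarith
  rw [h8] at h5
  nlinarith

theorem IsHigh.m_cases {θ : Φ} (h : IsHigh C θ) {b : Φ} (hb : Pos C b) (hne : b ≠ θ) :
    C.m θ b = 0 ∨ C.m θ b = 1 := by
  have := h.m_le C hne
  have := m_dom_nonneg C (h.dom C) hb
  omega

/-- a dominant root at least as long as every simple root is the highest root -/
theorem high_of_dom (hc : Conn C) {b : Φ} (hb : Dom C b) (hl : ∀ i ∈ C.Δ, d C i ≤ d C b) :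
    IsHigh C b := by
  obtain ⟨θ, hθ⟩ := exists_high C hc b
  obtain ⟨i, hi, e, -⟩ := exists_simple_d C θ
  have : b = θ := dom_eq C hc hb (hθ.dom C) (le_antisymm (hθ.long C b) (e ▸ hl i hi))
  exact this ▸ hθ

open Classical in
/-- the positive roots -/
noncomputable def posF : Finset Φ := univ.filter (Pos C)

theorem mem_posF {b : Φ} : b ∈ posF C ↔ Pos C b := by simp [posF]

theorem sum_split {M : Type*} [AddCommMonoid M] (f : Φ → M) :
    ∑ b, f b = ∑ b ∈ posF C, f b + ∑ b ∈ posF C, f (C.neg b) := by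
  classical
  rw [← sum_add_sum_compl (posF C)]
  refine congrArg _ (sum_nbij' C.neg C.neg (fun b hb => ?_) (fun b hb => ?_)
    (fun b _ => neg_neg C b) (fun b _ => neg_neg C b) fun b _ => by rw [neg_neg])
  · rw [mem_compl, mem_posF] at hb
    exact (mem_posF C).2 ((pos_neg_iff C b).2 hb)
  · rw [mem_compl, mem_posF]
    exact not_pos_neg C ((mem_posF C).1 hb)

theorem two_rho {i : Φ} (hi : i ∈ C.Δ) : ∑ b ∈ posF C, C.m i b = 2 := by
  classical
  rw [← add_sum_erase _ _ ((mem_posF C).2 (pos_simple C hi)), C.two]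
  have hm : ∀ b ∈ (posF C).erase i, C.s i b ∈ (posF C).erase i := by
    intro b hb
    rw [mem_erase, mem_posF] at hb ⊢
    exact ⟨s_ne C hi hb.2, pos_s C hi hb.2 hb.1⟩
  have h : ∑ b ∈ (posF C).erase i, C.m i b = ∑ b ∈ (posF C).erase i, - C.m i b :=
    sum_nbij' (C.s i) (C.s i) hm hm (fun b _ => s_s C i b) (fun b _ => s_s C i b)
      fun b _ => by rw [m_s, C.two]; ring
  rw [sum_neg_distrib] at h
  linarith

theorem d_sum_pos (a : Φ) :
    d C a * ∑ b ∈ posF C, C.m a b = 2 * ∑ i ∈ C.Δ, C.co a i * d C i := by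
  have e : ∀ b, d C a * C.m a b = ∑ i ∈ C.Δ, C.co a i * (d C i * C.m i b) := by
    intro b
    rw [d_m, B_expand, mul_sum]
    exact sum_congr rfl fun i _ => by rw [d_m]; ring
  rw [mul_sum]
  simp only [e]
  rw [sum_comm, mul_sum]
  refine sum_congr rfl fun i hi => ?_
  rw [← mul_sum, ← mul_sum, two_rho C hi]; ring

theorem IsHigh.d_kap {θ : Φ} (h : IsHigh C θ) :
    d C θ * kap C θ = 4 * (d C θ + ∑ i ∈ C.Δ, C.co θ i * d C i) := by
  classical
  have h1 : kap C θ = 2 * ∑ b ∈ posF C, C.m θ b ^ 2 := by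
    unfold kap
    rw [sum_split C]
    simp only [m_neg, neg_sq]
    ring
  have hθ := (mem_posF C).2 (h.pos C)
  have h2 : ∑ b ∈ posF C, C.m θ b ^ 2 = ∑ b ∈ posF C, C.m θ b + 2 := by
    rw [← add_sum_erase _ _ hθ, ← add_sum_erase _ _ hθ, C.two]
    have : ∑ b ∈ (posF C).erase θ, C.m θ b ^ 2 = ∑ b ∈ (posF C).erase θ, C.m θ b := by
      refine sum_congr rfl fun b hb => ?_
      rw [mem_erase, mem_posF] at hb
      rcases h.m_cases C hb.2 hb.1 with e | e <;> rw [e] <;> norm_num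
    rw [this]; ring
  have h3 := d_sum_pos C θ
  rw [h1, h2]
  linarith

theorem d_kap_const (hc : Conn C) (a b : Φ) : d C a * kap C a = d C b * kap C b := by
  obtain ⟨i, hi, e1, e2⟩ := exists_simple_d C a
  obtain ⟨j, hj, e3, e4⟩ := exists_simple_d C b
  rw [e1, e2, e3, e4]
  refine (hc {l | d C l * kap C l = d C i * kap C i} ⟨i, hi, rfl⟩
    (fun l _ l' _ h h' => ?_) j hj).symm
  by_contra hn
  exact h' ((d_kap_of_ne C hn).symm.trans h)

theorem IsHigh.d_kap' (hc : Conn C) {θ : Φ} (h : IsHigh C θ) (a : Φ) :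
    d C a * kap C a = 4 * (d C θ + ∑ i ∈ C.Δ, C.co θ i * d C i) := by
  rw [d_kap_const C hc a θ, h.d_kap]

theorem abs_m_le (N : ℤ) (hN : 1 ≤ N) (h : ∀ i ∈ C.Δ, ∀ j ∈ C.Δ, d C i ≤ N * d C j) {a b : Φ}
    (h1 : b ≠ a) (h2 : b ≠ C.neg a) : |C.m a b| ≤ N := by
  obtain ⟨i, hi, e1, -⟩ := exists_simple_d C a
  obtain ⟨j, hj, e2, -⟩ := exists_simple_d C b
  have h3 := h j hj i hi
  rw [← e1, ← e2] at h3
  have h4 := mm_le C h1 h2
  have h5 := d_m_symm C a b
  have pa := d_pos C a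
  rw [abs_le]
  constructor
  · by_contra hn
    have h6 : C.m a b ≤ -2 := by omega
    have h7 := m_neg_symm C (a := a) (b := b) (by omega)
    have h8 : C.m b a = -1 := by nlinarith
    rw [h8] at h5
    have h9 : C.m a b ≤ -N - 1 := by omega
    nlinarith
  · by_contra hn
    have h6 : 2 ≤ C.m a b := by omega
    have h7 := m_pos_symm C (a := a) (b := b) (by omega)
    have h8 : C.m b a = 1 := by nlinarith
    rw [h8] at h5
    have h9 : N + 1 ≤ C.m a b := by omega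
    nlinarith

theorem string_le (N : ℤ) (h : ∀ a b, b ≠ a → b ≠ C.neg a → |C.m a b| ≤ N) (a κ κ' : Φ) (j : ℤ)
    (h1 : κ ≠ a) (h2 : κ ≠ C.neg a) (h3 : ∀ i ∈ C.Δ, C.co κ' i = C.co κ i + j * C.co a i) :
    |j| ≤ N := by
  have h4 : κ' ≠ a := by
    rintro rfl
    rcases C.red κ' κ 1 (1 - j) one_ne_zero (fun i hi => by linarith [h3 i hi]) with e | e
    · exact h1 e
    · exact h2 e
  have h5 : κ' ≠ C.neg a := by
    rintro rfl
    rcases C.red a κ 1 (-1 - j) one_ne_zero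
      (fun i hi => by linarith [h3 i hi, C.co_neg a i hi]) with e | e
    · exact h1 e
    · exact h2 e
  have e := m_comb C a 1 j (a := κ) (b := a) (c := κ') fun i hi => by rw [h3 i hi]; ring
  rw [C.two] at e
  have h6 := abs_le.1 (h a κ h1 h2)
  have h7 := abs_le.1 (h a κ' h4 h5)
  rw [abs_le]
  omega

/-- the string bound needed by `CRoot.gen` -/
theorem string_bound (N : ℤ) (p : ℕ) (hN : 1 ≤ N) (hp : N < p)
    (h : ∀ i ∈ C.Δ, ∀ j ∈ C.Δ, d C i ≤ N * d C j) (a κ κ' : Φ) (j : ℤ)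
    (h1 : κ ≠ a) (h2 : κ ≠ C.neg a) (h3 : ∀ i ∈ C.Δ, C.co κ' i = C.co κ i + j * C.co a i) :
    |j| < p :=
  lt_of_le_of_lt (string_le C N (fun _ _ e e' => abs_m_le C N hN h e e') a κ κ' j h1 h2 h3) hp

end Pool.Agent.Lib.MP_3a0263_al.Q.C1
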