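import Pool.Agent.Lib.MP_3a0263_al.Q.Iface

namespace Pool.Agent.Lib.MP_3a0263_al.Q

open Pool.Agent.Lib.MP_3a0263_al.R LieModule

attribute [local instance 100] LieRing.ofAssociativeRing

universe u v

namespace RICH

variable {k : Type u} [Field k]

open Module.Basis in
/-- the trace is additive along an invariant subspace -/
theorem trace_add_quot {V : Type*} [AddCommGroup V] [Module k V] [FiniteDimensional k V]
    (W : Submodule k V) (e : V →ₗ[k] V) (he : W ≤ W.comap e) :
    LinearMap.trace k V e =
      LinearMap.trace k W (e.restrict he) + LinearMap.trace k (V ⧸ W) (W.mapQ W e he) := by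
  classical
  let m := Module.Free.ChooseBasisIndex k W
  let bW : Module.Basis m k W := Module.Free.chooseBasis k W
  let n := Module.Free.ChooseBasisIndex k (V ⧸ W)
  let bQ : Module.Basis n k (V ⧸ W) := Module.Free.chooseBasis k (V ⧸ W)
  let b := sumQuot bW bQ
  rw [LinearMap.trace_eq_matrix_trace k b, LinearMap.trace_eq_matrix_trace k bW,
    LinearMap.trace_eq_matrix_trace k bQ]
  simp only [Matrix.trace, Matrix.diag, Fintype.sum_sum_type]
  congr 1
  · refine Finset.sum_congr rfl fun i _ => ?_
    simp only [b, sumQuot_inl, LinearMap.toMatrix_apply]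
    apply sumQuot_repr_inl_of_mem
  · refine Finset.sum_congr rfl fun l _ => ?_
    simp only [LinearMap.toMatrix_apply, sumQuot_repr_inr, b]
    rw [← sumQuot_inr bW bQ l, W.mapQ_apply]
    simp

section Rich

variable {L : Type u} [LieRing L] [LieAlgebra k L] {Y : Type u} [AddCommGroup Y] [Module k Y]
  [LieRingModule L Y] [LieModule k L Y] [FiniteDimensional k Y]

/-- a nonzero trace form on a simple Lie algebra is nondegenerate -/
theorem nondeg [LieAlgebra.IsSimple k L] {x y : L} (h : traceForm k L Y x y ≠ 0) (z : L)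
    (hz : ∀ w, traceForm k L Y w z = 0) : z = 0 := by
  let I : LieIdeal k L :=
    LieAlgebra.InvariantForm.orthogonal (traceForm k L Y) (traceForm_lieInvariant k L Y) ⊤
  have hI : ∀ u, u ∈ I ↔ ∀ w, traceForm k L Y w u = 0 := by
    intro u
    rw [LieAlgebra.InvariantForm.mem_orthogonal]
    simp
  rcases LieAlgebra.IsSimple.eq_bot_or_eq_top I with h0 | h1
  · have : z ∈ I := (hI z).2 hz
    rw [h0] at this
    simpa using this
  · exact absurd ((hI y).1 (by rw [h1]; trivial) x) h

end Rich

end RICH

/-- RICH: an irreducible module with nonzero trace form gives the Richardson property -/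
theorem rich {k : Type u} [Field k] {L : Type u} [LieRing L] [LieAlgebra k L]
    [LieAlgebra.IsSimple k L] (Y : Type u) [AddCommGroup Y] [Module k Y]
    [LieRingModule L Y] [LieModule k L Y] [FiniteDimensional k Y] [LieModule.IsIrreducible k L Y]
    (x y : L) (h : traceForm k L Y x y ≠ 0) : HasRichardson k L := by
  have hinj : Function.Injective (toEnd k L Y) := by
    rw [injective_iff_map_eq_zero]
    intro z hz
    refine RICH.nondeg h z fun w => ?_
    rw [traceForm_apply_apply, hz]
    simp
  have : FiniteDimensional k L :=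
    FiniteDimensional.of_injective (toEnd k L Y : L →ₗ[k] Module.End k Y) hinj
  let T : Module.End k Y →ₗ[k] Module.Dual k L :=
    (((LinearMap.mul k (Module.End k Y)).compl₁₂ (toEnd k L Y : L →ₗ[k] Module.End k Y)
      LinearMap.id).compr₂ (LinearMap.trace k Y)).flip
  have hT : ∀ r w, T r w = LinearMap.trace k Y (toEnd k L Y w * r) := fun r w => rfl
  have hTi : Function.Injective (T ∘ₗ (toEnd k L Y : L →ₗ[k] Module.End k Y)) := by
    rw [injective_iff_map_eq_zero]
    intro z hz
    refine RICH.nondeg h z fun w => ?_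
    have := LinearMap.congr_fun hz w
    exact this
  have hTs : Function.Surjective (T ∘ₗ (toEnd k L Y : L →ₗ[k] Module.End k Y)) :=
    (LinearMap.injective_iff_surjective_of_finrank_eq_finrank
      (Subspace.dual_finrank_eq (K := k) (V := L)).symm).1 hTi
  refine ⟨Y, inferInstance, inferInstance, inferInstance, inferInstance, inferInstance, ⟨hinj⟩,
    inferInstance, LinearMap.ker T, ⟨?_, ?_⟩, ?_⟩
  · rw [Submodule.disjoint_def]
    rintro _ ⟨z, rfl⟩ hz
    have : z = 0 := hTi (by rw [map_zero]; exact hz)
    rw [this, map_zero]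
  · rw [codisjoint_iff, eq_top_iff]
    intro r _
    obtain ⟨z, hz⟩ := hTs (T r)
    have e : r = (toEnd k L Y : L →ₗ[k] Module.End k Y) z +
        (r - (toEnd k L Y : L →ₗ[k] Module.End k Y) z) := by abel
    rw [e]
    refine Submodule.add_mem_sup ⟨z, rfl⟩ ?_
    rw [LinearMap.mem_ker, map_sub, ← hz]
    exact sub_self _
  · intro z r hr
    rw [LinearMap.mem_ker] at hr ⊢
    ext w
    have h1 := LinearMap.congr_fun hr ⁅w, z⁆
    rw [hT, LieHom.map_lie, Ring.lie_def, sub_mul, map_sub] at h1
    rw [hT, Ring.lie_def, mul_sub, map_sub, ← mul_assoc, ← mul_assoc,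
      LinearMap.trace_mul_cycle k (toEnd k L Y w) r (toEnd k L Y z)]
    exact h1

/-- the adjoint case: a nonzero value of the Killing form -/
theorem rich_killing {k : Type u} [Field k] {L : Type u} [LieRing L] [LieAlgebra k L]
    [LieAlgebra.IsSimple k L] [FiniteDimensional k L]
    (x y : L) (h : killingForm k L x y ≠ 0) : HasRichardson k L :=
  rich L x y h

namespace RICH

variable {k : Type u} [Field k] {D : Type v} [LieRing D] [LieAlgebra k D]

section

variable {V : Type u} [AddCommGroup V] [Module k V] [LieRingModule D V] [LieModule k D V]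
  [FiniteDimensional k V]

theorem traceForm_add (N : LieSubmodule k D V) (x y : D) :
    traceForm k D V x y = traceForm k D N x y + traceForm k D (V ⧸ N) x y := by
  have he : N.toSubmodule ≤ N.toSubmodule.comap (toEnd k D V x ∘ₗ toEnd k D V y) := by
    intro v hv
    exact N.lie_mem (N.lie_mem hv)
  rw [traceForm_apply_apply, trace_add_quot N.toSubmodule _ he, traceForm_apply_apply,
    traceForm_apply_apply]
  congr 2
  ext v
  rfl

omit [FiniteDimensional k V] in
theorem nil_sub (N : LieSubmodule k D V) {j : D} (h : IsNilpotent (toEnd k D V j)) :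
    IsNilpotent (toEnd k D N j) := by
  have he : ∀ v ∈ N.toSubmodule, toEnd k D V j v ∈ N.toSubmodule := fun v hv => N.lie_mem hv
  exact Module.End.isNilpotent.restrict he h

omit [FiniteDimensional k V] in
theorem nil_quot (N : LieSubmodule k D V) {j : D} (h : IsNilpotent (toEnd k D V j)) :
    IsNilpotent (toEnd k D (V ⧸ N) j) := by
  have he : N.toSubmodule ≤ N.toSubmodule.comap (toEnd k D V j) := fun v hv => N.lie_mem hv
  have := Module.End.IsNilpotent.mapQ he h
  have e : toEnd k D (V ⧸ N) j = N.toSubmodule.mapQ N.toSubmodule (toEnd k D V j) he := by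
    ext v
    rfl
  rw [e]
  exact this

/-- an ideal of nilpotent operators kills an irreducible module -/
theorem kill [LieModule.IsIrreducible k D V] (J : LieIdeal k D)
    (hJ : ∀ j ∈ J, IsNilpotent (toEnd k D V j)) : ∀ j ∈ J, ∀ v : V, ⁅j, v⁆ = 0 := by
  have : Nontrivial V := LieModule.nontrivial_of_isIrreducible k D V
  have : LieModule.IsNilpotent J V :=
    (LieModule.isNilpotent_iff_forall' (R := k)).2 fun j => hJ j j.2
  have := nontrivial_max_triv_of_isNilpotent k J V
  let W : LieSubmodule k D V :=
    { carrier := {v | ∀ j ∈ J, ⁅j, v⁆ = 0}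
      add_mem' := fun {a b} ha hb j hj => by rw [lie_add, ha j hj, hb j hj, add_zero]
      zero_mem' := fun j _ => lie_zero j
      smul_mem' := fun c a ha j hj => by rw [lie_smul, ha j hj, smul_zero]
      lie_mem := fun {x a} ha j hj => by
        rw [leibniz_lie, ha j hj, lie_zero, add_zero]
        exact ha _ (lie_mem_left k D J j x hj) }
  obtain ⟨w, hw⟩ := exists_ne (0 : maxTrivSubmodule k J V)
  have hW : W ≠ ⊥ := by
    intro h0
    have : (w : V) ∈ W := fun j hj => w.2 ⟨j, hj⟩
    rw [h0] at this
    exact hw (Subtype.ext (by simpa using this))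
  have hT : W = ⊤ := (IsSimpleOrder.eq_bot_or_eq_top W).resolve_left hW
  intro j hj v
  have : v ∈ W := by rw [hT]; trivial
  exact this j hj

/-- descent of an irreducible module killed by the kernel -/
theorem descend {L : Type u} [LieRing L] [LieAlgebra k L] [LieAlgebra.IsSimple k L]
    (π : D →ₗ⁅k⁆ L) (hπ : Function.Surjective π) [LieModule.IsIrreducible k D V]
    (hk : ∀ d, π d = 0 → ∀ v : V, ⁅d, v⁆ = 0) (x y : D) (h : traceForm k D V x y ≠ 0) :
    HasRichardson k L := by
  have : Nontrivial V := LieModule.nontrivial_of_isIrreducible k D V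
  choose σ hσ using hπ
  have key : ∀ d d', π d = π d' → toEnd k D V d = toEnd k D V d' := by
    intro d d' e
    ext v
    have := hk (d - d') (by rw [map_sub, e, sub_self]) v
    rw [sub_lie, sub_eq_zero] at this
    exact this
  let ρ : L →ₗ⁅k⁆ Module.End k V :=
    { toFun := fun l => toEnd k D V (σ l)
      map_add' := fun a b => by
        rw [← map_add]; exact key _ _ (by rw [map_add, hσ, hσ, hσ])
      map_smul' := fun c a => by
        rw [RingHom.id_apply, ← map_smul]; exact key _ _ (by rw [map_smul, hσ, hσ])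
      map_lie' := fun {a b} => by
        rw [← LieHom.map_lie]; exact key _ _ (by rw [LieHom.map_lie, hσ, hσ, hσ]) }
  have hρ : ∀ d, ρ (π d) = toEnd k D V d := fun d => key _ _ (hσ _)
  let : LieRingModule L V := LieRingModule.compLieHom V ρ
  have : LieModule k L V := LieModule.compLieHom V ρ
  have hb : ∀ d (v : V), ⁅π d, v⁆ = ⁅d, v⁆ := fun d v => LinearMap.congr_fun (hρ d) v
  have hE : ∀ d, toEnd k L V (π d) = toEnd k D V d := fun d => LinearMap.ext (hb d)
  have : LieModule.IsIrreducible k L V := by
    refine LieModule.IsIrreducible.mk fun N hN => ?_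
    let N' : LieSubmodule k D V :=
      { N.toSubmodule with
        lie_mem := fun {d a} ha => by
          have := N.lie_mem (x := π d) ha
          rw [hb] at this
          exact this }
    rcases IsSimpleOrder.eq_bot_or_eq_top N' with h0 | h1
    · exfalso
      apply hN
      rw [eq_bot_iff]
      intro v hv
      have : v ∈ N' := hv
      rw [h0] at this
      simpa using this
    · rw [eq_top_iff]
      intro v _
      have : v ∈ N' := by rw [h1]; trivial
      exact this
  refine rich V (π x) (π y) ?_
  rw [traceForm_apply_apply, hE, hE]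
  exact h

end

theorem subq_aux {L : Type u} [LieRing L] [LieAlgebra k L] [LieAlgebra.IsSimple k L]
    (π : D →ₗ⁅k⁆ L) (hπ : Function.Surjective π) (J₁ J₂ : LieIdeal k D)
    (hk : ∀ d, π d = 0 → ∃ a ∈ J₁, ∃ b ∈ J₂, d = a + b) (x y : D) (n : ℕ) :
    ∀ (V : Type u) [AddCommGroup V] [Module k V] [LieRingModule D V] [LieModule k D V]
      [FiniteDimensional k V], Module.finrank k V = n →
      (∀ j ∈ J₁, IsNilpotent (toEnd k D V j)) → (∀ j ∈ J₂, IsNilpotent (toEnd k D V j)) →
      traceForm k D V x y ≠ 0 → HasRichardson k L := by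
  induction n using Nat.strong_induction_on with
  | _ n ih =>
    intro V _ _ _ _ _ hn h1 h2 h
    have : Nontrivial V := by
      by_contra hV
      rw [not_nontrivial_iff_subsingleton] at hV
      apply h
      rw [traceForm_apply_apply, Subsingleton.elim (toEnd k D V x ∘ₗ toEnd k D V y) 0, map_zero]
    by_cases hirr : ∀ N : LieSubmodule k D V, N ≠ ⊥ → N = ⊤
    · have : LieModule.IsIrreducible k D V := LieModule.IsIrreducible.mk hirr
      refine descend π hπ (fun d hd v => ?_) x y h
      obtain ⟨a, ha, b, hb, rfl⟩ := hk d hd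
      rw [add_lie, kill J₁ h1 a ha, kill J₂ h2 b hb, add_zero]
    · push Not at hirr
      obtain ⟨N, hN0, hN1⟩ := hirr
      have hs := Submodule.finrank_quotient_add_finrank N.toSubmodule
      have hlt : Module.finrank k N.toSubmodule < Module.finrank k V :=
        Submodule.finrank_lt (by simpa using hN1)
      have hpos : 0 < Module.finrank k N.toSubmodule := by
        rw [Nat.pos_iff_ne_zero, Ne, Submodule.finrank_eq_zero]
        simpa using hN0
      rw [traceForm_add N] at h
      by_cases hA : traceForm k D N x y = 0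
      · rw [hA, zero_add] at h
        exact ih (Module.finrank k (V ⧸ N.toSubmodule)) (by omega) (V ⧸ N) rfl
          (fun j hj => nil_quot N (h1 j hj)) (fun j hj => nil_quot N (h2 j hj)) h
      · exact ih (Module.finrank k N.toSubmodule) (by omega) N rfl
          (fun j hj => nil_sub N (h1 j hj)) (fun j hj => nil_sub N (h2 j hj)) hA

end RICH

/-- SUBQ: a module over an extension `D` of the simple Lie algebra `L` whose kernel is a sum of two
ideals of nilpotent operators, with a nonzero trace form -/
theorem subq {k : Type u} [Field k] {D : Type v} [LieRing D] [LieAlgebra k D]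
    {L : Type u} [LieRing L] [LieAlgebra k L] [LieAlgebra.IsSimple k L]
    (π : D →ₗ⁅k⁆ L) (hπ : Function.Surjective π) (J₁ J₂ : LieIdeal k D)
    (hk : ∀ d, π d = 0 → ∃ a ∈ J₁, ∃ b ∈ J₂, d = a + b)
    (V : Type u) [AddCommGroup V] [Module k V] [LieRingModule D V] [LieModule k D V]
    [FiniteDimensional k V]
    (h1 : ∀ j ∈ J₁, IsNilpotent (toEnd k D V j)) (h2 : ∀ j ∈ J₂, IsNilpotent (toEnd k D V j))
    (x y : D) (h : traceForm k D V x y ≠ 0) : HasRichardson k L :=
  RICH.subq_aux π hπ J₁ J₂ hk x y _ V rfl h1 h2 h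

/-- SUBQ for a representation given as a Lie homomorphism to matrices -/
theorem subq_matrix {k : Type u} [Field k] {D : Type v} [LieRing D] [LieAlgebra k D]
    {L : Type u} [LieRing L] [LieAlgebra k L] [LieAlgebra.IsSimple k L]
    (π : D →ₗ⁅k⁆ L) (hπ : Function.Surjective π) (J₁ J₂ : LieIdeal k D)
    (hk : ∀ d, π d = 0 → ∃ a ∈ J₁, ∃ b ∈ J₂, d = a + b)
    {S : Type*} [Fintype S] [DecidableEq S] (ρ : D →ₗ⁅k⁆ Matrix S S k)
    (h1 : ∀ j ∈ J₁, IsNilpotent (ρ j)) (h2 : ∀ j ∈ J₂, IsNilpotent (ρ j))
    (x y : D) (h : Matrix.trace (ρ x * ρ y) ≠ 0) : HasRichardson k L := by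
  let e : S ≃ Fin (Fintype.card S) := Fintype.equivFin S
  let A : Matrix S S k ≃ₐ[k] Module.End k (Fin (Fintype.card S) → k) :=
    (Matrix.reindexAlgEquiv k k e).trans Matrix.toLinAlgEquiv'
  let ρ' : D →ₗ⁅k⁆ Module.End k (Fin (Fintype.card S) → k) :=
    (A.toAlgHom.toLieHom).comp ρ
  let : LieRingModule D (Fin (Fintype.card S) → k) := LieRingModule.compLieHom _ ρ'
  have : LieModule k D (Fin (Fintype.card S) → k) := LieModule.compLieHom _ ρ'
  have hE : ∀ d, toEnd k D (Fin (Fintype.card S) → k) d = A (ρ d) := fun d => rfl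
  refine subq π hπ J₁ J₂ hk (Fin (Fintype.card S) → k) (fun j hj => ?_) (fun j hj => ?_) x y ?_
  · rw [hE]; exact (h1 j hj).map A
  · rw [hE]; exact (h2 j hj).map A
  · rw [traceForm_apply_apply, hE, hE, ← Module.End.mul_eq_comp, ← map_mul]
    have : LinearMap.trace k _ (A (ρ x * ρ y)) = Matrix.trace (ρ x * ρ y) := by
      simp only [A, AlgEquiv.trans_apply, Matrix.coe_reindexAlgEquiv]
      rw [show Matrix.toLinAlgEquiv' (Matrix.reindex e e (ρ x * ρ y)) =
        Matrix.toLin' (Matrix.reindex e e (ρ x * ρ y)) from rfl, Matrix.trace_toLin'_eq]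
      simp only [Matrix.trace, Matrix.diag, Matrix.reindex_apply, Matrix.submatrix_apply]
      exact e.symm.sum_comp fun i => (ρ x * ρ y) i i
    rw [this]
    exact h

end Pool.Agent.Lib.MP_3a0263_al.Q
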