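import Pool.Agent.Lib.MP_3a0263_al.Q.T_Min

/-! The weights of the natural module in type A. -/

open Finset

namespace Pool.Agent.Lib.MP_3a0263_al.Q

namespace SA

/-- the weight `ε_a` on the simple coroots -/
def w (n a : ℕ) (j : Fin n) : ℤ := (if j.val = a then 1 else 0) - if j.val + 1 = a then 1 else 0

lemma w_val (n a : ℕ) (j : Fin n) : w n a j = 0 ∨ w n a j = 1 ∨ w n a j = -1 := by
  unfold w; split_ifs <;> simp

lemma w_inj (n : ℕ) : Set.InjOn (w n) (range (n + 1) : Finset ℕ) := by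
  have key : ∀ a b, a < b → b < n + 1 → w n a ≠ w n b := fun a b h hb e => by
    have := congrFun e ⟨a, by omega⟩
    simp only [w] at this
    split_ifs at this <;> omega
  intro a ha b hb e
  rw [coe_range, Set.mem_Iio] at ha hb
  rcases lt_trichotomy a b with h | h | h
  · exact absurd e (key a b h hb)
  · exact h
  · exact absurd e.symm (key b a h ha)

lemma w_refl (n a : ℕ) (i : Fin n) :
    (fun j => w n a j - w n a i * CartanMatrix.A n j i) =
      w n (if a = i.val then a + 1 else if a = i.val + 1 then i.val else a) := by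
  funext j
  simp only [w, CartanMatrix.A, Matrix.of_apply, Fin.ext_iff]
  split_ifs <;> omega

end SA

open SA

theorem st_SA : St_SA := by
  intro n hn
  refine ⟨(range (n + 1)).image (w n), ⟨fun μ hμ i => ?_, fun μ hμ i => ?_⟩,
    ⟨⟨0, hn⟩, ?_⟩, fun h2 => ⟨⟨0, hn⟩, ⟨1, h2⟩, ?_⟩⟩
  · obtain ⟨a, -, rfl⟩ := mem_image.1 hμ
    exact w_val n a i
  · obtain ⟨a, ha, rfl⟩ := mem_image.1 hμ
    rw [w_refl]
    refine mem_image_of_mem _ (mem_range.2 ?_)
    have := mem_range.1 ha
    have := i.2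
    split_ifs <;> omega
  · obtain ⟨m, rfl⟩ : ∃ m, n = m + 1 := ⟨n - 1, by omega⟩
    rw [sum_image (w_inj _), sum_range_succ', sum_range_succ']
    simp [w]
  · obtain ⟨m, rfl⟩ : ∃ m, n = m + 1 := ⟨n - 1, by omega⟩
    rw [sum_image (w_inj _), sum_range_succ', sum_range_succ']
    simp [w]

end Pool.Agent.Lib.MP_3a0263_al.Q
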