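import Pool.Agent.Lib.MP_3a0263_al.Q.T_SA

/-! The weights plus or minus `ε_a` for the matrix `B n`. -/

open Finset

namespace Pool.Agent.Lib.MP_3a0263_al.Q

namespace SB

open SA

/-- the weight `s ε_a` -/
def v (n : ℕ) (x : ℕ × ℤ) (j : Fin n) : ℤ := x.2 * w n x.1 j

/-- the index set -/
def ix (n : ℕ) : Finset (ℕ × ℤ) := range n ×ˢ {1, -1}

lemma mem_ix {n : ℕ} {x : ℕ × ℤ} : x ∈ ix n ↔ x.1 < n ∧ (x.2 = 1 ∨ x.2 = -1) := by
  simp [ix]

lemma v_inj (n : ℕ) : Set.InjOn (v n) (ix n) := by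
  rintro ⟨a, s⟩ ha ⟨b, t⟩ hb e
  obtain ⟨a1, a2⟩ := mem_ix.1 ha
  obtain ⟨b1, b2⟩ := mem_ix.1 hb
  have e1 := congrFun e ⟨a, a1⟩
  have e2 := congrFun e ⟨b, b1⟩
  simp only [v, w] at e1 e2 a1 a2 b1 b2
  rw [Prod.mk.injEq]
  split_ifs at e1 e2 <;> omega

lemma v_refl (n a : ℕ) (s : ℤ) (ha : a < n) (i : Fin n) :
    (fun j => v n (a, s) j - v n (a, s) i * CartanMatrix.B n j i) =
      v n (if a = i.val then (if a + 1 = n then (a, -s) else (a + 1, s))
        else if a = i.val + 1 then (i.val, s) else (a, s)) := by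
  funext j
  have hj := j.2
  by_cases h1 : a = i.val
  · by_cases h2 : a + 1 = n
    · rw [if_pos h1, if_pos h2]
      simp only [v, w, CartanMatrix.B, Matrix.of_apply, Fin.ext_iff]
      split_ifs <;> omega
    · rw [if_pos h1, if_neg h2]
      simp only [v, w, CartanMatrix.B, Matrix.of_apply, Fin.ext_iff]
      split_ifs <;> omega
  · by_cases h2 : a = i.val + 1
    · rw [if_neg h1, if_pos h2]
      simp only [v, w, CartanMatrix.B, Matrix.of_apply, Fin.ext_iff]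
      split_ifs <;> omega
    · rw [if_neg h1, if_neg h2]
      simp only [v, w, CartanMatrix.B, Matrix.of_apply, Fin.ext_iff]
      split_ifs <;> omega

end SB

open SA SB

theorem st_SB : St_SB := by
  intro n hn
  refine ⟨(ix n).image (v n), ⟨fun μ hμ i => ?_, fun μ hμ i => ?_⟩, ⟨0, by omega⟩, 2, ?_⟩
  · obtain ⟨x, hx, rfl⟩ := mem_image.1 hμ
    have := w_val n x.1 i
    rcases (mem_ix.1 hx).2 with h | h <;> rw [v, h] <;> omega
  · obtain ⟨⟨a, s⟩, hx, rfl⟩ := mem_image.1 hμ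
    obtain ⟨a1, a2⟩ := mem_ix.1 hx
    rw [v_refl n a s a1]
    refine mem_image_of_mem _ (mem_ix.2 ?_)
    have := i.2
    dsimp only at a1 a2
    split_ifs <;> dsimp only <;> omega
  · obtain ⟨m, rfl⟩ : ∃ m, n = m + 2 := ⟨n - 2, by omega⟩
    rw [sum_image (v_inj _), ix, sum_product, sum_range_succ', sum_range_succ']
    simp [v, w]

end Pool.Agent.Lib.MP_3a0263_al.Q
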