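import Pool.Agent.Lib.MP_3a0263_al.Q.T_Min

/-! The spin weights for the matrix `C n`. -/

open Finset

namespace Pool.Agent.Lib.MP_3a0263_al.Q

namespace SC

/-- the spin weight of a zero-one vector -/
def u (n : ℕ) (x : ℕ → ℤ) (j : Fin n) : ℤ :=
  if j.val + 1 = n then 2 * x j - 1 else x j - x (j + 1)

/-- indicator -/
def ch (T : Finset ℕ) (a : ℕ) : ℤ := if a ∈ T then 1 else 0

lemma ch_val (T : Finset ℕ) (a : ℕ) : ch T a = 0 ∨ ch T a = 1 := by
  unfold ch; split_ifs <;> simp

lemma refl_last {n : ℕ} (x y : ℕ → ℤ) (i : Fin n) (hi : i.val + 1 = n) (h1 : y i = 1 - x i)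
    (h2 : ∀ a, a ≠ i.val → y a = x a) :
    (fun j => u n x j - u n x i * CartanMatrix.C n j i) = u n y := by
  funext j
  have hj := j.2
  have a1 := h2 j
  have a2 := h2 (j + 1)
  simp only [u, CartanMatrix.C, Matrix.of_apply, Fin.ext_iff]
  by_cases e1 : j.val = i.val
  · simp only [e1] at *
    split_ifs
    omega
  · by_cases e2 : j.val + 1 = i.val
    · simp only [e2] at *
      split_ifs <;> omega
    · split_ifs <;> omega

lemma refl_mid {n : ℕ} (x y : ℕ → ℤ) (i : Fin n) (hi : i.val + 1 ≠ n) (h0 : y i = x (i + 1))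
    (h1 : y (i + 1) = x i) (h2 : ∀ a, a ≠ i.val → a ≠ i.val + 1 → y a = x a) :
    (fun j => u n x j - u n x i * CartanMatrix.C n j i) = u n y := by
  funext j
  have hj := j.2
  have hi' := i.2
  have a1 := h2 j
  have a2 := h2 (j + 1)
  simp only [u, CartanMatrix.C, Matrix.of_apply, Fin.ext_iff]
  by_cases e1 : j.val = i.val
  · simp only [e1] at *
    split_ifs <;> omega
  · by_cases e2 : j.val + 1 = i.val
    · have e4 : j.val < i.val := by omega
      simp only [e2] at *
      split_ifs <;> omega
    · by_cases e3 : j.val = i.val + 1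
      · simp only [e3] at *
        split_ifs <;> omega
      · split_ifs <;> omega

lemma u_inj (n : ℕ) : Set.InjOn (fun T => u n (ch T)) (powerset (range n) : Finset (Finset ℕ)) := by
  intro T hT U hU e
  have H : ∀ d a, a + d + 1 = n → ch T a = ch U a := by
    intro d
    induction d with
    | zero =>
      intro a ha
      have := congrFun e ⟨a, by omega⟩
      simp only [u] at this
      split_ifs at this <;> omega
    | succ d ih =>
      intro a ha
      have := congrFun e ⟨a, by omega⟩
      have h2 := ih (a + 1) (by omega)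
      simp only [u] at this
      split_ifs at this <;> omega
  have hT' := mem_powerset.1 (mem_coe.1 hT)
  have hU' := mem_powerset.1 (mem_coe.1 hU)
  ext a
  by_cases ha : a < n
  · have := H (n - a - 1) a (by omega)
    unfold ch at this
    split_ifs at this <;> simp_all
  · exact ⟨fun h => absurd (mem_range.1 (hT' h)) ha, fun h => absurd (mem_range.1 (hU' h)) ha⟩

end SC

open SC

theorem st_SC : St_SC := by
  intro n hn
  refine ⟨(powerset (range n)).image fun T => u n (ch T), ⟨fun μ hμ i => ?_, fun μ hμ i => ?_⟩,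
    ⟨n - 1, by omega⟩, n, ?_⟩
  · obtain ⟨T, -, rfl⟩ := mem_image.1 hμ
    have h1 := ch_val T i
    have h2 := ch_val T (i + 1)
    unfold u
    split_ifs <;> omega
  · obtain ⟨T, hT, rfl⟩ := mem_image.1 hμ
    have hT' := mem_powerset.1 hT
    have hi := i.2
    by_cases h : i.val + 1 = n
    · refine mem_image.2 ⟨(range n).filter fun a => if a = i.val then a ∉ T else a ∈ T,
        mem_powerset.2 (filter_subset _ _), (refl_last _ _ i h ?_ fun a ha => ?_).symm⟩
      · by_cases e : i.val ∈ T <;> simp [ch, e]
      · by_cases e : a ∈ T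
        · simp [ch, e, ha, mem_range.1 (hT' e)]
        · simp [ch, e, ha]
    · refine mem_image.2 ⟨(range n).filter fun a =>
        if a = i.val then i.val + 1 ∈ T else if a = i.val + 1 then i.val ∈ T else a ∈ T,
        mem_powerset.2 (filter_subset _ _), (refl_mid _ _ i h ?_ ?_ fun a ha hb => ?_).symm⟩
      · simp [ch]
      · have : i.val + 1 < n := by omega
        simp [ch, this]
      · by_cases e : a ∈ T
        · simp [ch, e, ha, hb, mem_range.1 (hT' e)]
        · simp [ch, e, ha, hb]
  · rw [sum_image (u_inj n)]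
    have : ∀ T ∈ powerset (range n),
        u n (ch T) ⟨n - 1, by omega⟩ * u n (ch T) ⟨n - 1, by omega⟩ = 1 := by
      intro T _
      have e : n - 1 + 1 = n := by omega
      simp only [u, e, if_true]
      rcases ch_val T (n - 1) with h | h <;> rw [h] <;> norm_num
    rw [sum_congr rfl this]
    simp

end Pool.Agent.Lib.MP_3a0263_al.Q
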