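import Pool.Agent.Lib.MP_3a0263_al.Q.T_Min

namespace Pool.Agent.Lib.MP_3a0263_al.Q

namespace SD

/-- the weight `s ε_a` in the coordinates given by the simple coroots -/
def wt (n : ℕ) (s : ℤ) (a : ℕ) (j : Fin n) : ℤ :=
  if j.val + 1 = n then (if a + 2 = n ∨ a + 1 = n then s else 0)
  else if j.val = a then s else if j.val + 1 = a then -s else 0

/-- all weights -/
def S (n : ℕ) : Finset (Fin n → ℤ) :=
  (Finset.range n).image (wt n 1) ∪ (Finset.range n).image (wt n (-1))

theorem mem_S {n : ℕ} {μ : Fin n → ℤ} :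
    μ ∈ S n ↔ ∃ s : ℤ, (s = 1 ∨ s = -1) ∧ ∃ a < n, μ = wt n s a := by
  simp only [S, Finset.mem_union, Finset.mem_image, Finset.mem_range]
  constructor
  · rintro (⟨a, ha, rfl⟩ | ⟨a, ha, rfl⟩)
    · exact ⟨1, Or.inl rfl, a, ha, rfl⟩
    · exact ⟨-1, Or.inr rfl, a, ha, rfl⟩
  · rintro ⟨s, rfl | rfl, a, ha, rfl⟩
    · exact Or.inl ⟨a, ha, rfl⟩
    · exact Or.inr ⟨a, ha, rfl⟩

theorem colL {n : ℕ} (hn : 4 ≤ n) (i j : Fin n) (h : i.val + 1 = n) :
    CartanMatrix.D n j i = if j.val + 1 = n then 2 else if j.val + 3 = n then -1 else 0 := by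
  have hj := j.isLt
  simp only [CartanMatrix.D, Matrix.of_apply, Fin.ext_iff]
  split_ifs <;> omega

theorem colM {n : ℕ} (hn : 4 ≤ n) (i j : Fin n) (h : i.val + 1 ≠ n) :
    CartanMatrix.D n j i = if j.val + 1 = n then (if i.val + 3 = n then -1 else 0)
      else if j.val = i.val then 2 else if j.val + 1 = i.val ∨ i.val + 1 = j.val then -1
      else 0 := by
  have hj := j.isLt
  have hi := i.isLt
  simp only [CartanMatrix.D, Matrix.of_apply, Fin.ext_iff]
  split_ifs <;> omega

theorem r1 {n : ℕ} (hn : 4 ≤ n) (s : ℤ) (a : ℕ) (i j : Fin n) (h1 : i.val + 1 = n)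
    (h2 : a + 2 = n) : wt n s a j - s * CartanMatrix.D n j i = wt n (-s) (a + 1) j := by
  have hj := j.isLt
  rw [colL hn i j h1]
  simp only [wt]
  split_ifs <;> omega

theorem r2 {n : ℕ} (hn : 4 ≤ n) (s : ℤ) (a : ℕ) (i j : Fin n) (h1 : i.val + 1 = n)
    (h2 : a + 1 = n) : wt n s a j - s * CartanMatrix.D n j i = wt n (-s) (a - 1) j := by
  have hj := j.isLt
  rw [colL hn i j h1]
  simp only [wt]
  split_ifs <;> omega

theorem r3 {n : ℕ} (hn : 4 ≤ n) (s : ℤ) (a : ℕ) (i j : Fin n) (h1 : i.val + 1 ≠ n)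
    (h2 : i.val = a) : wt n s a j - s * CartanMatrix.D n j i = wt n s (a + 1) j := by
  have hj := j.isLt
  have hi := i.isLt
  rw [colM hn i j h1]
  simp only [wt]
  split_ifs <;> omega

theorem r4 {n : ℕ} (hn : 4 ≤ n) (s : ℤ) (a : ℕ) (i j : Fin n) (h1 : i.val + 1 ≠ n)
    (h2 : i.val + 1 = a) : wt n s a j - -s * CartanMatrix.D n j i = wt n s (a - 1) j := by
  have hj := j.isLt
  have hi := i.isLt
  rw [colM hn i j h1]
  simp only [wt]
  split_ifs <;> omega

theorem refl {n : ℕ} (hn : 4 ≤ n) (s : ℤ) (a : ℕ) (ha : a < n) (i : Fin n) :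
    ∃ t : ℤ, (t = s ∨ t = -s) ∧ ∃ b < n,
      (fun j => wt n s a j - wt n s a i * CartanMatrix.D n j i) = wt n t b := by
  have hi := i.isLt
  by_cases h1 : i.val + 1 = n
  · by_cases h2 : a + 2 = n
    · have e : wt n s a i = s := by simp only [wt]; split_ifs <;> omega
      refine ⟨-s, Or.inr rfl, a + 1, by omega, ?_⟩
      funext j
      rw [e]
      exact r1 hn s a i j h1 h2
    · by_cases h3 : a + 1 = n
      · have e : wt n s a i = s := by simp only [wt]; split_ifs <;> omega
        refine ⟨-s, Or.inr rfl, a - 1, by omega, ?_⟩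
        funext j
        rw [e]
        exact r2 hn s a i j h1 h3
      · have e : wt n s a i = 0 := by simp only [wt]; split_ifs <;> omega
        refine ⟨s, Or.inl rfl, a, ha, ?_⟩
        funext j
        rw [e, zero_mul, sub_zero]
  · by_cases h2 : i.val = a
    · have e : wt n s a i = s := by simp only [wt]; split_ifs <;> omega
      refine ⟨s, Or.inl rfl, a + 1, by omega, ?_⟩
      funext j
      rw [e]
      exact r3 hn s a i j h1 h2
    · by_cases h3 : i.val + 1 = a
      · have e : wt n s a i = -s := by simp only [wt]; split_ifs <;> omega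
        refine ⟨s, Or.inl rfl, a - 1, by omega, ?_⟩
        funext j
        rw [e]
        exact r4 hn s a i j h1 h3
      · have e : wt n s a i = 0 := by simp only [wt]; split_ifs <;> omega
        refine ⟨s, Or.inl rfl, a, ha, ?_⟩
        funext j
        rw [e, zero_mul, sub_zero]

end SD

open SD in
theorem st_SD : St_SD := by
  intro n hn
  refine ⟨S n, ⟨?_, ?_⟩, ⟨0, by omega⟩, 2, ?_⟩
  · intro μ hμ i
    obtain ⟨s, hs, a, ha, rfl⟩ := mem_S.mp hμ
    simp only [wt]
    split_ifs <;> omega
  · intro μ hμ i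
    obtain ⟨s, hs, a, ha, rfl⟩ := mem_S.mp hμ
    obtain ⟨t, ht, b, hb, e⟩ := refl hn s a ha i
    exact mem_S.mpr ⟨t, by omega, b, hb, e⟩
  · have v0 : ∀ (s : ℤ) (a : ℕ), wt n s a ⟨0, by omega⟩ =
        if a = 0 then s else if a = 1 then -s else 0 := by
      intro s a
      simp only [wt]
      split_ifs <;> omega
    have v1 : ∀ (s : ℤ) (a : ℕ), wt n s a ⟨1, by omega⟩ =
        if a = 1 then s else if a = 2 then -s else 0 := by
      intro s a
      simp only [wt]
      split_ifs <;> omega
    have hsub : ({wt n 1 0, wt n 1 1, wt n (-1) 0, wt n (-1) 1} : Finset (Fin n → ℤ)) ⊆ S n := by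
      intro μ hμ
      simp only [Finset.mem_insert, Finset.mem_singleton] at hμ
      rcases hμ with rfl | rfl | rfl | rfl
      · exact mem_S.mpr ⟨1, Or.inl rfl, 0, by omega, rfl⟩
      · exact mem_S.mpr ⟨1, Or.inl rfl, 1, by omega, rfl⟩
      · exact mem_S.mpr ⟨-1, Or.inr rfl, 0, by omega, rfl⟩
      · exact mem_S.mpr ⟨-1, Or.inr rfl, 1, by omega, rfl⟩
    have ne : ∀ (s t : ℤ) (a b : ℕ), wt n s a = wt n t b →
        (if a = 0 then s else if a = 1 then -s else 0) =
          (if b = 0 then t else if b = 1 then -t else 0) ∧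
        (if a = 1 then s else if a = 2 then -s else 0) =
          (if b = 1 then t else if b = 2 then -t else 0) := by
      intro s t a b h
      rw [← v0, ← v0, ← v1, ← v1, h]
      exact ⟨rfl, rfl⟩
    rw [← Finset.sum_subset hsub]
    · rw [Finset.sum_insert, Finset.sum_insert, Finset.sum_insert, Finset.sum_singleton]
      · simp only [v0]
        norm_num
      · intro h
        have := ne _ _ _ _ (Finset.mem_singleton.mp h)
        norm_num at this
      · intro h
        simp only [Finset.mem_insert, Finset.mem_singleton] at h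
        rcases h with h | h <;> (have := ne _ _ _ _ h; norm_num at this)
      · intro h
        simp only [Finset.mem_insert, Finset.mem_singleton] at h
        rcases h with h | h | h <;> (have := ne _ _ _ _ h; norm_num at this)
    · intro μ hμ hn'
      obtain ⟨s, hs, a, ha, rfl⟩ := mem_S.mp hμ
      simp only [Finset.mem_insert, Finset.mem_singleton, not_or] at hn'
      have a0 : a ≠ 0 := by
        rintro rfl
        rcases hs with rfl | rfl
        · exact hn'.1 rfl
        · exact hn'.2.2.1 rfl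
      have a1 : a ≠ 1 := by
        rintro rfl
        rcases hs with rfl | rfl
        · exact hn'.2.1 rfl
        · exact hn'.2.2.2 rfl
      rw [v0, if_neg a0, if_neg a1, mul_zero]

end Pool.Agent.Lib.MP_3a0263_al.Q
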