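import Pool.Agent.Lib.MP_3a0263_al.Q.T_SB

/-! The weights plus or minus `ε_a` for the matrix `D n`. -/

open Finset

namespace Pool.Agent.Lib.MP_3a0263_al.Q

namespace SD2

open SB

/-- a vector on the simple coroots -/
def u (m : ℕ) (x : ℕ → ℤ) (j : Fin (m + 4)) : ℤ :=
  if j.val = m + 3 then x (m + 2) + x (m + 3) else x j - x (j + 1)

/-- the vector `s ε_a` -/
def dl (x : ℕ × ℤ) (b : ℕ) : ℤ := if b = x.1 then x.2 else 0

lemma D_eq (m : ℕ) (j i : Fin (m + 4)) : CartanMatrix.D (m + 4) j i =
    if j.val = i.val then 2 else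
      if (j.val + 1 = i.val ∧ i.val ≠ m + 3) ∨ (i.val + 1 = j.val ∧ j.val ≠ m + 3) ∨
        (j.val = m + 1 ∧ i.val = m + 3) ∨ (i.val = m + 1 ∧ j.val = m + 3) then -1 else 0 := by
  have hj := j.2
  have hi := i.2
  simp only [CartanMatrix.D, Matrix.of_apply, Fin.ext_iff]
  split_ifs <;> omega

lemma refl_last {m : ℕ} (x y : ℕ → ℤ) (i : Fin (m + 4)) (hi : i.val = m + 3)
    (h0 : y (m + 2) = -x (m + 3)) (h1 : y (m + 3) = -x (m + 2))
    (h2 : ∀ a, a ≠ m + 2 → a ≠ m + 3 → y a = x a) :
    (fun j => u m x j - u m x i * CartanMatrix.D (m + 4) j i) = u m y := by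
  funext j
  have hj := j.2
  have a1 := h2 j
  have a2 := h2 (j + 1)
  rw [D_eq]
  simp only [u, hi, true_and, and_true, and_self, or_true, true_or, if_true, ne_eq, not_true, false_and, and_false, or_false, false_or, not_false_iff]
  by_cases e1 : j.val = m + 1
  · simp only [e1, add_assoc, Nat.reduceAdd, true_and, and_true, and_self, or_true, true_or, if_true, ne_eq, not_true, false_and, and_false, or_false, false_or, not_false_iff] at *
    split_ifs <;> omega
  · by_cases e2 : j.val = m + 2
    · simp only [e2, add_assoc, Nat.reduceAdd, true_and, and_true, and_self, or_true, true_or, if_true, ne_eq, not_true, false_and, and_false, or_false, false_or, not_false_iff] at *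
      split_ifs <;> omega
    · split_ifs <;> omega

lemma refl_mid {m : ℕ} (x y : ℕ → ℤ) (i : Fin (m + 4)) (hi : i.val ≠ m + 3)
    (h0 : y i = x (i + 1)) (h1 : y (i + 1) = x i)
    (h2 : ∀ a, a ≠ i.val → a ≠ i.val + 1 → y a = x a) :
    (fun j => u m x j - u m x i * CartanMatrix.D (m + 4) j i) = u m y := by
  funext j
  have hj := j.2
  have hi' := i.2
  have a1 := h2 j
  have a2 := h2 (j + 1)
  have a3 := h2 (m + 2)
  have a4 := h2 (m + 3)
  rw [D_eq]
  simp only [u, hi, if_false, true_and, and_true, and_self, or_true, true_or, if_true, ne_eq, not_true, false_and, and_false, or_false, false_or, not_false_iff]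
  by_cases e0 : j.val = m + 3
  · by_cases e1 : i.val = m + 1
    · simp only [e0, e1, add_assoc, Nat.reduceAdd, true_and, and_true, and_self, or_true, true_or, if_true, ne_eq, not_true, false_and, and_false, or_false, false_or, not_false_iff] at *
      split_ifs <;> omega
    · by_cases e2 : i.val = m + 2
      · simp only [e0, e2, add_assoc, Nat.reduceAdd, true_and, and_true, and_self, or_true, true_or, if_true, ne_eq, not_true, false_and, and_false, or_false, false_or, not_false_iff] at *
        split_ifs <;> omega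
      · split_ifs <;> omega
  · by_cases e1 : j.val = i.val
    · simp only [e1, true_and, and_true, and_self, or_true, true_or, if_true, ne_eq, not_true, false_and, and_false, or_false, false_or, not_false_iff] at *
      split_ifs <;> omega
    · by_cases e2 : j.val + 1 = i.val
      · have e4 : j.val < i.val := by omega
        simp only [e2, true_and, and_true, and_self, or_true, true_or, if_true, ne_eq, not_true, false_and, and_false, or_false, false_or, not_false_iff] at *
        split_ifs <;> omega
      · by_cases e3 : j.val = i.val + 1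
        · simp only [e3, true_and, and_true, and_self, or_true, true_or, if_true, ne_eq, not_true, false_and, and_false, or_false, false_or, not_false_iff] at *
          split_ifs <;> omega
        · split_ifs <;> omega

lemma u_inj {m : ℕ} {x y : ℕ → ℤ} (e : u m x = u m y) : ∀ d a, a + d = m + 3 → x a = y a := by
  have e1 := congrFun e ⟨m + 3, by omega⟩
  have e2 := congrFun e ⟨m + 2, by omega⟩
  simp only [u, add_assoc, Nat.reduceAdd] at e1 e2
  intro d
  induction d with
  | zero =>
    intro a ha
    obtain rfl : a = m + 3 := ha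
    split_ifs at e1 e2 <;> omega
  | succ d ih =>
    intro a ha
    have := congrFun e ⟨a, by omega⟩
    have h2 := ih (a + 1) (by omega)
    simp only [u] at this
    split_ifs at this <;> omega

lemma v_inj (m : ℕ) : Set.InjOn (fun x => u m (dl x)) (ix (m + 4)) := by
  rintro ⟨a, s⟩ ha ⟨b, t⟩ hb e
  obtain ⟨a1, a2⟩ := mem_ix.1 ha
  obtain ⟨b1, b2⟩ := mem_ix.1 hb
  have e1 := u_inj e (m + 3 - a) a (by dsimp only at a1; omega)
  simp only [dl] at e1 a1 a2 b1 b2
  rw [Prod.mk.injEq]
  split_ifs at e1 <;> omega

end SD2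

open SB SD2 in
theorem st_SD2 : St_SD := by
  intro n hn
  obtain ⟨m, rfl⟩ : ∃ m, n = m + 4 := ⟨n - 4, by omega⟩
  refine ⟨(ix (m + 4)).image fun x => u m (dl x), ⟨fun μ hμ i => ?_, fun μ hμ i => ?_⟩,
    ⟨0, by omega⟩, 2, ?_⟩
  · obtain ⟨x, hx, rfl⟩ := mem_image.1 hμ
    have := (mem_ix.1 hx).2
    simp only [u, dl]
    split_ifs <;> omega
  · obtain ⟨⟨a, s⟩, hx, rfl⟩ := mem_image.1 hμ
    obtain ⟨a1, a2⟩ := mem_ix.1 hx
    have := i.2
    dsimp only at a1 a2
    by_cases h : i.val = m + 3
    · refine mem_image.2 ⟨if a = m + 2 then (m + 3, -s) else if a = m + 3 then (m + 2, -s)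
        else (a, s), mem_ix.2 ?_, (refl_last _ _ i h ?_ ?_ fun b h1 h2 => ?_).symm⟩
      · split_ifs <;> dsimp only <;> omega
      all_goals
        split_ifs <;> simp only [dl] <;> split_ifs <;> omega
    · refine mem_image.2 ⟨if a = i.val then (i.val + 1, s) else if a = i.val + 1 then (i.val, s)
        else (a, s), mem_ix.2 ?_, (refl_mid _ _ i h ?_ ?_ fun b h1 h2 => ?_).symm⟩
      · split_ifs <;> dsimp only <;> omega
      all_goals
        split_ifs <;> simp only [dl] <;> split_ifs <;> omega
  · rw [sum_image (SD2.v_inj _), ix, sum_product, sum_range_succ', sum_range_succ']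
    simp [u, dl]

end Pool.Agent.Lib.MP_3a0263_al.Q
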