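import Pool.Agent.Lib.MP_3a0263_al.Q.T_CLASS
import Pool.Agent.Lib.MP_3a0263_al.Q.T_DIAG
import Pool.Agent.Lib.MP_3a0263_al.Q.T_SB
import Pool.Agent.Lib.MP_3a0263_al.Q.T_SC
import Pool.Agent.Lib.MP_3a0263_al.Q.T_SD2

namespace Pool.Agent.Lib.MP_3a0263_al.Q

open Matrix Pool.Agent.Lib.MP_3a0263_al.R

attribute [local instance 100] LieRing.ofAssociativeRing

universe u

/-- the trace form half -/
theorem st_trace (k : Type u) [Field k] [IsAlgClosed k] (p : ℕ) [hp : Fact p.Prime] [CharP k p] :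
    S_trace k p := by
  intro n _ _ L Φ _ R hg hs
  rcases C1.class_of R.toComb st_SA st_SB st_SC st_SD2 hp.out (L0.conn_delta R hs) hg
    (L0.delta_nonempty R hs) with
    ⟨a, ha, h⟩ | ⟨hstr, hrow, X, _, w, hval, hcl, hinj, htr⟩ | ⟨h2, h1⟩
  · refine rich_killing ⟨diagonal (R.h a).1, R.t_mem _⟩ ⟨diagonal (R.h a).1, R.t_mem _⟩ ?_
    rw [L0.killing_h R hs ha]
    exact fun h0 => h ((CharP.intCast_eq_zero_iff k p _).1 h0)
  · exact diag R hs (fun a _ => hstr a) hrow w hval hcl hinj htr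
  · refine absurd h1 (L0.not_rank_one R hs ?_)
    have := CharP.cast_eq_zero k p
    rw [h2] at this
    exact_mod_cast this

end Pool.Agent.Lib.MP_3a0263_al.Q
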